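import Pool.Agent.Helper44.SPL.Defs

/-!
# Basic API for `icl`, `IC`, `nu`, `RootSys`, `IsMs`
-/

set_option autoImplicit false

namespace Pool.Agent.Helper44.SPL

open Polynomial

universe u

section icl

variable {Ω : Type u} [Field Ω]

theorem mem_icl_iff_isIntegral {s : Set Ω} {x : Ω} :
    x ∈ icl s ↔ IsIntegral (Subring.closure s) x := Iff.rfl

theorem closure_le_icl (s : Set Ω) : Subring.closure s ≤ icl s := by
  intro x hx
  rw [mem_icl_iff_isIntegral]
  exact isIntegral_algebraMap (R := Subring.closure s) (A := Ω) (x := ⟨x, hx⟩)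

theorem subset_icl (s : Set Ω) : s ⊆ icl s :=
  fun _ hx => closure_le_icl s (Subring.subset_closure hx)

/-- (VC) the valuative criterion -/
theorem mem_icl_iff_val {s : Set Ω} {x : Ω} :
    x ∈ icl s ↔ ∀ W : ValuationSubring Ω, s ⊆ W → x ∈ W := by
  unfold icl
  rw [← iInf_valuationSubring_superset, Subring.mem_iInf]
  constructor
  · intro h W hW
    exact h ⟨W, hW⟩
  · rintro h ⟨W, hW⟩
    exact h W hW

theorem icl_mono {s t : Set Ω} (h : s ⊆ t) : icl s ≤ icl t := by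
  intro x hx
  rw [mem_icl_iff_val] at hx ⊢
  exact fun W hW => hx W (h.trans hW)

theorem icl_le_val {s : Set Ω} {W : ValuationSubring Ω} (h : s ⊆ W) : (icl s : Set Ω) ⊆ W :=
  fun _ hx => mem_icl_iff_val.mp hx W h

theorem icl_icl (s : Set Ω) : icl (icl s : Set Ω) = icl s := by
  apply le_antisymm
  · intro x hx
    rw [mem_icl_iff_val] at hx ⊢
    exact fun W hW => hx W (icl_le_val hW)
  · exact fun x hx => subset_icl _ hx

theorem IC_icl (s : Set Ω) : IC (icl s) := icl_icl s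

theorem IC.mem_iff_val {A : Subring Ω} (hA : IC A) {x : Ω} :
    x ∈ A ↔ ∀ W : ValuationSubring Ω, (A : Set Ω) ⊆ W → x ∈ W := by
  rw [← mem_icl_iff_val, hA]

theorem IC_of_val {A : Subring Ω}
    (h : ∀ x : Ω, (∀ W : ValuationSubring Ω, (A : Set Ω) ⊆ W → x ∈ W) → x ∈ A) : IC A := by
  apply le_antisymm
  · intro x hx
    exact h x (mem_icl_iff_val.mp hx)
  · exact fun x hx => subset_icl _ hx

theorem icl_le {s : Set Ω} {D : Subring Ω} (hD : IC D) (h : s ⊆ D) : icl s ≤ D := by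
  rw [← hD]
  exact icl_mono h

theorem IC.mem_of_isIntegral {A : Subring Ω} (hA : IC A) {x : Ω} (h : IsIntegral A x) :
    x ∈ A := by
  rw [← hA, mem_icl_iff_isIntegral]
  have e : Subring.closure (A : Set Ω) = A := Subring.closure_eq A
  rw [e]
  exact h

theorem IC_of_isIntegral {A : Subring Ω} (h : ∀ x : Ω, IsIntegral A x → x ∈ A) : IC A := by
  apply le_antisymm
  · intro x hx
    rw [mem_icl_iff_isIntegral] at hx
    have e : Subring.closure (A : Set Ω) = A := Subring.closure_eq A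
    rw [e] at hx
    exact h x hx
  · exact fun x hx => subset_icl _ hx

theorem IC_iff_isIntegral {A : Subring Ω} : IC A ↔ ∀ x : Ω, IsIntegral A x → x ∈ A :=
  ⟨fun h _ => h.mem_of_isIntegral, IC_of_isIntegral⟩

theorem IC.isIntegrallyClosedIn {A : Subring Ω} (hA : IC A) : IsIntegrallyClosedIn A Ω :=
  Subring.isIntegrallyClosedIn_iff.mpr fun {_} h => hA.mem_of_isIntegral h

theorem IC_val (W : ValuationSubring Ω) : IC W.toSubring :=
  IC_of_val fun _ hx => hx W subset_rfl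

theorem IC.mem_of_pow_mem {A : Subring Ω} (hA : IC A) {x : Ω} {n : ℕ} (hn : n ≠ 0)
    (h : x ^ n ∈ A) : x ∈ A := by
  apply hA.mem_of_isIntegral
  apply IsIntegral.of_pow (Nat.pos_of_ne_zero hn)
  exact isIntegral_algebraMap (R := A) (A := Ω) (x := ⟨x ^ n, h⟩)

theorem val_mem_of_pow_mem (W : ValuationSubring Ω) {x : Ω} {n : ℕ} (hn : n ≠ 0)
    (h : x ^ n ∈ W) : x ∈ W :=
  (IC_val W).mem_of_pow_mem hn h

/-- a root in `Ω` of a monic polynomial over `A` lies in `A` -/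
theorem IC.mem_of_root {A : Subring Ω} (hA : IC A) {f : A[X]} (hf : f.Monic) {x : Ω}
    (hx : aeval x f = 0) : x ∈ A :=
  hA.mem_of_isIntegral ⟨f, hf, by rw [← hx]; rfl⟩

theorem icl_union_icl (s t : Set Ω) : icl ((icl s : Set Ω) ∪ t) = icl (s ∪ t) := by
  apply le_antisymm
  · apply icl_le (IC_icl _)
    rintro x (hx | hx)
    · exact icl_mono Set.subset_union_left hx
    · exact subset_icl _ (Or.inr hx)
  · exact icl_mono (Set.union_subset_union_left t (subset_icl s))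

theorem icl_union_icl' (s t : Set Ω) : icl (s ∪ (icl t : Set Ω)) = icl (s ∪ t) := by
  rw [Set.union_comm, icl_union_icl, Set.union_comm]

/-- `icl (A, X) ∩ icl (A, 1/X) = A` -/
theorem mem_of_mem_icl_inv {A : Subring Ω} (hA : IC A) {X x : Ω}
    (h1 : x ∈ icl ((A : Set Ω) ∪ {X})) (h2 : x ∈ icl ((A : Set Ω) ∪ {X⁻¹})) : x ∈ A := by
  rw [hA.mem_iff_val]
  intro W hW
  rcases W.mem_or_inv_mem X with h | h
  · exact mem_icl_iff_val.mp h1 W (Set.union_subset hW (by simpa using h))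
  · exact mem_icl_iff_val.mp h2 W (Set.union_subset hW (by simpa using h))

theorem mem_icl_left {A : Subring Ω} {X a : Ω} (h : a ∈ A) : a ∈ icl ((A : Set Ω) ∪ {X}) :=
  subset_icl _ (Or.inl h)

theorem X_mem_icl (s : Set Ω) (X : Ω) : X ∈ icl (s ∪ {X}) :=
  subset_icl _ (Or.inr rfl)

/-- `icl (A, X)` in terms of integral equations over `A[X]` -/
theorem mem_icl_adjoin_iff {A : Subring Ω} {X x : Ω} : x ∈ icl ((A : Set Ω) ∪ {X}) ↔
    ∃ P : A[X][X], P.Monic ∧ ev2 A.subtype P X x = 0 := by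
  have key : Subring.closure ((A : Set Ω) ∪ {X}) = (eval₂RingHom A.subtype X).range := by
    apply le_antisymm
    · rw [Subring.closure_le]
      rintro y (hy | hy)
      · exact ⟨C ⟨y, hy⟩, by simp⟩
      · exact ⟨Polynomial.X, by rw [Set.mem_singleton_iff.mp hy]; simp⟩
    · rintro y ⟨f, rfl⟩
      change eval₂ A.subtype X f ∈ Subring.closure ((A : Set Ω) ∪ {X})
      have hX : X ∈ Subring.closure ((A : Set Ω) ∪ {X}) :=
        Subring.subset_closure (Or.inr rfl)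
      have hc : ∀ i, ((f.coeff i : A) : Ω) ∈ Subring.closure ((A : Set Ω) ∪ {X}) := fun i =>
        Subring.subset_closure (Or.inl (f.coeff i).2)
      rw [eval₂_eq_sum_range]
      exact Subring.sum_mem _ fun i _ => Subring.mul_mem _ (hc i) (Subring.pow_mem _ hX i)
  rw [mem_icl_iff_isIntegral]
  constructor
  · rintro ⟨f, hf, hfx⟩
    have hlift : f.map (Subring.closure ((A : Set Ω) ∪ {X})).subtype ∈
        Polynomial.lifts (eval₂RingHom A.subtype X) := by
      rw [Polynomial.lifts_iff_coeff_lifts]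
      intro i
      rw [coeff_map]
      have : (f.coeff i : Ω) ∈ Subring.closure ((A : Set Ω) ∪ {X}) := (f.coeff i).2
      exact key.le this
    obtain ⟨P, hP, -, hPm⟩ := Polynomial.lifts_and_natDegree_eq_and_monic hlift
      (hf.map _)
    refine ⟨P, hPm, ?_⟩
    unfold ev2
    rw [hP]
    rw [← eval₂_eq_eval_map]
    exact hfx
  · rintro ⟨P, hP, hPx⟩
    let φ : A[X] →+* Subring.closure ((A : Set Ω) ∪ {X}) :=
      (eval₂RingHom A.subtype X).codRestrict _ (fun f => by rw [key]; exact ⟨f, rfl⟩)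
    refine ⟨P.map φ, hP.map _, ?_⟩
    rw [eval₂_map, ← hPx]
    unfold ev2
    rw [← eval₂_eq_eval_map]
    rfl

end icl

section nu

variable {Ω : Type u} [Field Ω]

theorem nu_sub (A : Subring Ω) : nu A ⊆ A := fun _ h => h.1

theorem mem_nu_iff_not_isUnit {A : Subring Ω} {a : A} : (a : Ω) ∈ nu A ↔ ¬ IsUnit a := by
  constructor
  · rintro ⟨-, h⟩ ⟨u, hu⟩
    have hinv : (a : Ω) * ((u⁻¹ : Aˣ) : A) = 1 := by
      rw [← hu]
      exact_mod_cast u.mul_inv
    rcases h with h | h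
    · rw [h, zero_mul] at hinv
      exact zero_ne_one hinv
    · apply h
      rw [inv_eq_of_mul_eq_one_right hinv]
      exact (((u⁻¹ : Aˣ) : A)).2
  · intro h
    refine ⟨a.2, ?_⟩
    by_contra hc
    push Not at hc
    apply h
    refine ⟨⟨a, ⟨(a : Ω)⁻¹, hc.2⟩, ?_, ?_⟩, rfl⟩
    · exact Subtype.ext (mul_inv_cancel₀ hc.1)
    · exact Subtype.ext (inv_mul_cancel₀ hc.1)

theorem mem_nu_iff_mem_maximalIdeal {A : Subring Ω} [IsLocalRing A] {a : A} :
    (a : Ω) ∈ nu A ↔ a ∈ IsLocalRing.maximalIdeal A := by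
  rw [mem_nu_iff_not_isUnit, IsLocalRing.mem_maximalIdeal, mem_nonunits_iff]

theorem not_mem_nu_iff {A : Subring Ω} {a : Ω} (ha : a ∈ A) :
    a ∉ nu A ↔ a ≠ 0 ∧ a⁻¹ ∈ A := by
  unfold nu
  simp only [Set.mem_ofPred_eq, not_and, not_or, not_not]
  exact ⟨fun h => h ha, fun h _ => h⟩

theorem nu_add {A : Subring Ω} [IsLocalRing A] {a b : Ω} (ha : a ∈ nu A) (hb : b ∈ nu A) :
    a + b ∈ nu A := by
  have h1 := (mem_nu_iff_mem_maximalIdeal (a := ⟨a, ha.1⟩)).mp ha
  have h2 := (mem_nu_iff_mem_maximalIdeal (a := ⟨b, hb.1⟩)).mp hb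
  exact (mem_nu_iff_mem_maximalIdeal (a := ⟨a + b, A.add_mem ha.1 hb.1⟩)).mpr
    (Ideal.add_mem _ h1 h2)

theorem nu_mul {A : Subring Ω} {a b : Ω} (ha : a ∈ A) (hb : b ∈ nu A) : a * b ∈ nu A := by
  refine ⟨A.mul_mem ha hb.1, ?_⟩
  by_cases h0 : a * b = 0
  · exact Or.inl h0
  right
  intro h
  rcases hb.2 with h1 | h1
  · exact h0 (by rw [h1, mul_zero])
  · apply h1
    have ha0 : a ≠ 0 := fun h2 => h0 (by rw [h2, zero_mul])
    have : b⁻¹ = a * (a * b)⁻¹ := by
      rw [mul_inv, ← mul_assoc, mul_inv_cancel₀ ha0, one_mul]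
    rw [this]
    exact A.mul_mem ha h

theorem one_not_mem_nu (A : Subring Ω) : (1 : Ω) ∉ nu A := by
  rw [not_mem_nu_iff A.one_mem]
  exact ⟨one_ne_zero, by rw [inv_one]; exact A.one_mem⟩

theorem nu_val (W : ValuationSubring Ω) : nu W.toSubring = {a | a = 0 ∨ a⁻¹ ∉ W} := by
  ext a
  constructor
  · rintro ⟨-, h⟩
    exact h
  · intro h
    refine ⟨?_, h⟩
    rcases h with h | h
    · rw [h]; exact W.zero_mem
    · exact (W.mem_or_inv_mem a).resolve_right h

/-- a valuation subring dominating a local subring -/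
theorem exists_dominating (A : Subring Ω) [IsLocalRing A] :
    ∃ W : ValuationSubring Ω, (A : Set Ω) ⊆ W ∧ ∀ a ∈ nu A, a = 0 ∨ a⁻¹ ∉ W := by
  obtain ⟨W, hAW, hW⟩ := Ideal.image_subset_nonunits_valuationSubring (A := A)
    (IsLocalRing.maximalIdeal A) (Ideal.IsPrime.ne_top inferInstance)
  refine ⟨W, hAW, fun a ha => ?_⟩
  have h1 := (mem_nu_iff_mem_maximalIdeal (a := ⟨a, ha.1⟩)).mp ha
  have h2 : a ∈ W.nonunits := hW ⟨⟨a, ha.1⟩, h1, rfl⟩
  have h3 : (a⁻¹)⁻¹ ∈ W.nonunits := by rwa [inv_inv]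
  rcases W.inv_mem_nonunits_iff.mp h3 with h4 | h4
  · exact Or.inl (inv_eq_zero.mp h4)
  · exact Or.inr h4

end nu

section pw

variable {Ω : Type u} [Field Ω] [CharZero Ω] {p : ℕ} [hp : Fact p.Prime] (S : RootSys Ω p)

include hp

theorem p_ne_zero : (p : Ω) ≠ 0 := Nat.cast_ne_zero.mpr hp.out.ne_zero

theorem RootSys.pw_ne_zero (a : ℚ) : S.pw a ≠ 0 := by
  intro h
  have h1 := S.add a (1 - a)
  rw [add_sub_cancel, S.one, h, zero_mul] at h1
  exact p_ne_zero (p := p) h1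

theorem RootSys.pw_zero : S.pw 0 = 1 := by
  have h := S.add 0 0
  rw [add_zero] at h
  exact (mul_eq_left₀ (S.pw_ne_zero 0)).mp h.symm

theorem RootSys.pw_neg (a : ℚ) : S.pw (-a) = (S.pw a)⁻¹ := by
  apply eq_inv_of_mul_eq_one_left
  rw [← S.add, neg_add_cancel, S.pw_zero]

theorem RootSys.pw_sub (a b : ℚ) : S.pw (a - b) = S.pw a / S.pw b := by
  rw [sub_eq_add_neg, S.add, S.pw_neg, div_eq_mul_inv]

theorem RootSys.pw_pow (a : ℚ) (n : ℕ) : S.pw a ^ n = S.pw (n * a) := by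
  induction n with
  | zero => rw [pow_zero, Nat.cast_zero, zero_mul, S.pw_zero]
  | succ n ih => rw [pow_succ, ih, ← S.add]; congr 1; push_cast; ring

theorem RootSys.pw_nat (n : ℕ) : S.pw n = (p : Ω) ^ n := by
  rw [← S.one, S.pw_pow, mul_one]

theorem RootSys.pw_root (k : ℕ) : S.pw (1 / (p : ℚ) ^ k) ^ p ^ k = (p : Ω) := by
  rw [S.pw_pow, ← S.one]
  congr 1
  push_cast
  have : (p : ℚ) ≠ 0 := Nat.cast_ne_zero.mpr hp.out.ne_zero
  field_simp

theorem RootSys.pw_mem {A : Subring Ω} (hA : IC A) {a : ℚ} (ha : 0 ≤ a) : S.pw a ∈ A := by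
  apply hA.mem_of_pow_mem (n := a.den) a.den_ne_zero
  rw [S.pw_pow]
  have h : (a.den : ℚ) * a = ((a.num.toNat : ℕ) : ℚ) := by
    rw [mul_comm, Rat.mul_den_eq_num]
    have := Rat.num_nonneg.mpr ha
    have h2 : ((a.num.toNat : ℕ) : ℤ) = a.num := Int.toNat_of_nonneg this
    exact_mod_cast h2.symm
  rw [h, S.pw_nat]
  exact pow_mem (natCast_mem A p) _

theorem RootSys.pw_mem_val (W : ValuationSubring Ω) {a : ℚ} (ha : 0 ≤ a) : S.pw a ∈ W :=
  S.pw_mem (IC_val W) ha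

end pw

section ms

variable {A : Type u} [CommRing A] {ϖ : A} {v : A → ℝ}

theorem IsMs.neg_one (h : IsMs ϖ v) : v (-1) = 1 := by
  have h1 : v (-1) * v (-1) = 1 := by rw [← h.mul, neg_mul_neg, one_mul, h.one]
  have h2 := h.nonneg (-1)
  nlinarith [h.le_one (-1)]

theorem IsMs.neg (h : IsMs ϖ v) (a : A) : v (-a) = v a := by
  rw [← neg_one_mul, h.mul, h.neg_one, one_mul]

theorem IsMs.sub_le (h : IsMs ϖ v) (a b : A) : v (a - b) ≤ max (v a) (v b) := by
  rw [sub_eq_add_neg, ← h.neg b]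
  exact h.add a (-b)

theorem IsMs.sub_comm (h : IsMs ϖ v) (a b : A) : v (a - b) = v (b - a) := by
  rw [← neg_sub, h.neg]

theorem IsMs.pow (h : IsMs ϖ v) (a : A) (n : ℕ) : v (a ^ n) = v a ^ n := by
  induction n with
  | zero => rw [pow_zero, pow_zero, h.one]
  | succ n ih => rw [pow_succ, pow_succ, h.mul, ih]

theorem IsMs.pi_pow (h : IsMs ϖ v) (n : ℕ) : v (ϖ ^ n) = (1 / 2 : ℝ) ^ n := by
  rw [h.pow, h.pi]

theorem IsMs.prod (h : IsMs ϖ v) {ι : Type*} (s : Finset ι) (f : ι → A) :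
    v (∏ i ∈ s, f i) = ∏ i ∈ s, v (f i) := by
  classical
  induction s using Finset.induction_on with
  | empty => simp [h.one]
  | insert a s ha ih => rw [Finset.prod_insert ha, Finset.prod_insert ha, h.mul, ih]

theorem IsMs.sum_le (h : IsMs ϖ v) {ι : Type*} (s : Finset ι) (f : ι → A) {c : ℝ}
    (hc : 0 ≤ c) (hf : ∀ i ∈ s, v (f i) ≤ c) : v (∑ i ∈ s, f i) ≤ c := by
  classical
  induction s using Finset.induction_on with
  | empty => rw [Finset.sum_empty, h.zero]; exact hc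
  | insert a s ha ih =>
    rw [Finset.sum_insert ha]
    exact (h.add _ _).trans (max_le (hf a (Finset.mem_insert_self a s))
      (ih fun i hi => hf i (Finset.mem_insert_of_mem hi)))

/-- the ultrametric principle: the strictly larger value wins -/
theorem IsMs.add_eq_left (h : IsMs ϖ v) {a b : A} (hab : v b < v a) : v (a + b) = v a := by
  apply le_antisymm
  · exact (h.add a b).trans (max_le le_rfl hab.le)
  · have h1 : v a ≤ max (v (a + b)) (v b) := by
      have := h.sub_le (a + b) b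
      rwa [add_sub_cancel_right] at this
    rcases le_max_iff.mp h1 with h2 | h2
    · exact h2
    · exact absurd h2 (not_le.mpr hab)

theorem IsMs.eq_of_sub_lt (h : IsMs ϖ v) {a b : A} (hab : v (a - b) < v a) : v b = v a := by
  have h1 := h.add_eq_left (a := a) (b := -(a - b)) (by rwa [h.neg])
  rwa [neg_sub, add_sub_cancel] at h1

theorem IsMs.unit (h : IsMs ϖ v) {a : A} (ha : IsUnit a) : v a = 1 := by
  obtain ⟨b, hb⟩ := ha.exists_right_inv
  have h1 : v a * v b = 1 := by rw [← h.mul, hb, h.one]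
  have h2 := h.le_one a
  have h3 := h.le_one b
  have h4 := h.nonneg a
  have h5 := h.nonneg b
  nlinarith

theorem IsMs.le_of_dvd (h : IsMs ϖ v) {a b : A} (hab : a ∣ b) : v b ≤ v a := by
  obtain ⟨c, rfl⟩ := hab
  rw [h.mul]
  nlinarith [h.nonneg a, h.le_one c]

theorem IsMs.comp {B : Type u} [CommRing B] {w : B → ℝ} (f : A →+* B) (h : IsMs (f ϖ) w) :
    IsMs ϖ (w ∘ f) where
  nonneg a := h.nonneg _
  zero := by simp [h.zero]
  one := by simp [h.one]
  mul a b := by simp [h.mul]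
  add a b := by simpa using h.add (f a) (f b)
  le_one a := h.le_one _
  pi := h.pi

theorem IsMs.nat_le_one (h : IsMs ϖ v) (n : ℕ) : v n ≤ 1 := h.le_one _

/-- `M(A)` is compact -/
theorem isCompact_isMs (ϖ : A) : IsCompact {v : A → ℝ | IsMs ϖ v} := by
  have hc : IsCompact (Set.pi Set.univ fun _ : A => Set.Icc (0 : ℝ) 1) :=
    isCompact_univ_pi fun _ => isCompact_Icc
  apply hc.of_isClosed_subset
  · have e : {v : A → ℝ | IsMs ϖ v} =
        (((⋂ a : A, {v : A → ℝ | 0 ≤ v a}) ∩ {v | v 0 = 0}) ∩ {v | v 1 = 1}) ∩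
        (((⋂ a : A, ⋂ b : A, {v : A → ℝ | v (a * b) = v a * v b}) ∩
        (⋂ a : A, ⋂ b : A, {v : A → ℝ | v (a + b) ≤ max (v a) (v b)})) ∩
        ((⋂ a : A, {v : A → ℝ | v a ≤ 1}) ∩ {v | v ϖ = 1 / 2})) := by
      ext v
      simp only [Set.mem_ofPred_eq, Set.mem_inter_iff, Set.mem_iInter]
      constructor
      · intro h
        exact ⟨⟨⟨h.nonneg, h.zero⟩, h.one⟩, ⟨⟨h.mul, h.add⟩, ⟨h.le_one, h.pi⟩⟩⟩
      · rintro ⟨⟨⟨h1, h2⟩, h3⟩, ⟨⟨h4, h5⟩, ⟨h6, h7⟩⟩⟩
        exact ⟨h1, h2, h3, h4, h5, h6, h7⟩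
    rw [e]
    have ca : ∀ a : A, Continuous fun v : A → ℝ => v a := fun a => continuous_apply a
    refine ((IsClosed.inter ?_ ?_).inter ?_).inter ((IsClosed.inter ?_ ?_).inter
      (IsClosed.inter ?_ ?_))
    · exact isClosed_iInter fun a => isClosed_le continuous_const (ca a)
    · exact isClosed_eq (ca 0) continuous_const
    · exact isClosed_eq (ca 1) continuous_const
    · exact isClosed_iInter fun a => isClosed_iInter fun b =>
        isClosed_eq (ca _) ((ca a).mul (ca b))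
    · exact isClosed_iInter fun a => isClosed_iInter fun b =>
        isClosed_le (ca _) ((ca a).max (ca b))
    · exact isClosed_iInter fun a => isClosed_le (ca a) continuous_const
    · exact isClosed_eq (ca _) continuous_const
  · intro v hv
    rw [Set.mem_univ_pi]
    exact fun a => ⟨hv.nonneg a, hv.le_one a⟩

/-- a power relation `y ^ n = ϖ ^ m` determines the value of `y` -/
theorem IsMs.eq_rpow (h : IsMs ϖ v) {y : A} {m n : ℕ} (hn : n ≠ 0) (hy : y ^ n = ϖ ^ m) :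
    v y = (1 / 2 : ℝ) ^ ((m : ℝ) / n) := by
  have h1 : v y ^ n = (1 / 2 : ℝ) ^ m := by rw [← h.pow, hy, h.pi_pow]
  have h2 : ((1 / 2 : ℝ) ^ ((m : ℝ) / n)) ^ n = (1 / 2 : ℝ) ^ m := by
    rw [← Real.rpow_natCast, ← Real.rpow_mul (by norm_num), div_mul_cancel₀ _
      (Nat.cast_ne_zero.mpr hn), Real.rpow_natCast]
  exact (pow_left_inj₀ (h.nonneg y) (by positivity) hn).mp (h1.trans h2.symm)

end ms

section pwv

variable {Ω : Type u} [Field Ω] [CharZero Ω] {p : ℕ} [hp : Fact p.Prime] (S : RootSys Ω p)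

include hp

/-- `v (p^s) = (1/2)^s` -/
theorem IsMs.pw {A : Subring Ω} {v : A → ℝ} (h : IsMs (p : A) v) {s : ℚ} (hs : 0 ≤ s)
    (hm : S.pw s ∈ A) : v ⟨S.pw s, hm⟩ = (1 / 2 : ℝ) ^ (s : ℝ) := by
  have e : (⟨S.pw s, hm⟩ : A) ^ s.den = (p : A) ^ s.num.toNat := by
    apply Subtype.ext
    push_cast
    rw [S.pw_pow, ← S.pw_nat]
    congr 1
    rw [mul_comm, Rat.mul_den_eq_num]
    have h2 : ((s.num.toNat : ℕ) : ℤ) = s.num := Int.toNat_of_nonneg (Rat.num_nonneg.mpr hs)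
    exact_mod_cast h2.symm
  rw [h.eq_rpow s.den_ne_zero e]
  congr 1
  have h2 : ((s.num.toNat : ℕ) : ℤ) = s.num := Int.toNat_of_nonneg (Rat.num_nonneg.mpr hs)
  have h3 : ((s.num.toNat : ℕ) : ℝ) = (s.num : ℝ) := by exact_mod_cast h2
  rw [h3]
  exact_mod_cast (Rat.num_div_den s)

end pwv

end Pool.Agent.Helper44.SPL
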