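import Pool.Agent.Helper44.SPL.St

set_option autoImplicit false

namespace Pool.Agent.Helper44.SPL

universe u

theorem m_AR : StAR.{u} := by
  intro A₀ _ _ E _ _ N hfin I
  classical
  obtain ⟨s, hs⟩ := hfin.fg_top
  choose f hf using Submodule.mkQ_surjective N
  obtain ⟨F, hF⟩ : ∃ F : Submodule A₀ E, F = Submodule.span A₀ (f '' (s : Set (E ⧸ N))) := ⟨_, rfl⟩
  have hfg : F.FG := by
    rw [hF]
    exact Submodule.fg_span (s.finite_toSet.image f)
  have hFN : F ⊔ N = ⊤ := by
    rw [eq_top_iff]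
    intro x _
    have h1 : N.mkQ x ∈ Submodule.map N.mkQ F := by
      rw [hF, Submodule.map_span]
      have h2 : N.mkQ '' (f '' (s : Set (E ⧸ N))) = (s : Set (E ⧸ N)) := by
        ext y
        constructor
        · rintro ⟨_, ⟨w, hw, rfl⟩, rfl⟩
          rw [hf]; exact hw
        · intro hy
          exact ⟨f y, ⟨y, hy, rfl⟩, hf y⟩
      rw [h2, hs]
      exact Submodule.mem_top
    obtain ⟨y, hy, hyx⟩ := h1
    have h3 : x - y ∈ N := by
      rw [← Submodule.Quotient.mk_eq_zero, Submodule.Quotient.mk_sub, sub_eq_zero]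
      exact hyx.symm
    have h4 : x = y + (x - y) := by abel
    rw [h4]
    exact Submodule.add_mem_sup hy h3
  have : Module.Finite A₀ F := Module.Finite.iff_fg.2 hfg
  obtain ⟨c, hc⟩ := Ideal.exists_pow_inf_eq_pow_smul (M := F) I (N.comap F.subtype)
  refine ⟨c, fun M => ?_⟩
  intro x hx
  obtain ⟨hxN, hxI⟩ := hx
  rw [← hFN, Submodule.smul_sup] at hxI
  obtain ⟨y, hy, z, hz, rfl⟩ := Submodule.mem_sup.1 hxI
  have hzN : z ∈ N := Submodule.smul_le_right hz
  have hyN : y ∈ N := (Submodule.add_mem_iff_left _ hzN).1 hxN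
  have hzM : z ∈ I ^ M • N :=
    Submodule.smul_mono_left (Ideal.pow_le_pow_right (Nat.le_add_right M c)) hz
  refine Submodule.add_mem _ ?_ hzM
  have h5 : Submodule.map F.subtype (I ^ (M + c) • (⊤ : Submodule A₀ F)) = I ^ (M + c) • F := by
    rw [Submodule.map_smul'', Submodule.map_subtype_top]
  rw [← h5] at hy
  obtain ⟨y', hy', rfl⟩ := hy
  have h6 : y' ∈ I ^ (M + c) • (⊤ : Submodule A₀ F) ⊓ N.comap F.subtype := ⟨hy', hyN⟩
  rw [hc (M + c) (Nat.le_add_left c M), Nat.add_sub_cancel] at h6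
  have h7 : F.subtype y' ∈ Submodule.map F.subtype
      (I ^ M • (I ^ c • (⊤ : Submodule A₀ F) ⊓ N.comap F.subtype)) := ⟨y', h6, rfl⟩
  rw [Submodule.map_smul''] at h7
  refine Submodule.smul_mono le_rfl ?_ h7
  refine le_trans (Submodule.map_mono inf_le_right) ?_
  exact Submodule.map_comap_le _ _

end Pool.Agent.Helper44.SPL
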