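import Pool.Agent.Helper44.SPL.Defs

/-!
# Splinters in mixed characteristic: the modules

One `def StX : Prop` per module. The proofs on paper are in the docstrings and in
`/team-store/MP_1e9343-plan44.md`. `(VC)` is `iInf_valuationSubring_superset`:
`icl s` is the intersection of the valuation subrings that contain `s`.
-/

set_option autoImplicit false

namespace Pool.Agent.Helper44.SPL

open Polynomial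

universe u

/-! ## Preliminaries -/

/-- PW: existence of rational powers of `p` (`Ω^*` is divisible). Proof: `r 0 = p`,
`r (n+1) ^ (n+1) = r n`; `p ^ (a / n!) := r n ^ a` (integer power); well defined. -/
def StPW : Prop := ∀ (Ω : Type u) [Field Ω] [IsAlgClosed Ω] [CharZero Ω] (p : ℕ) [Fact p.Prime],
  Nonempty (RootSys Ω p)

/-- INT: integral over `R[u]` and over `R[1/u]` implies integral over `R`.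
Proof: `x^n ∈ ∑_{i<n} R[u]_{≤d} x^i` and `x^n ∈ ∑_{i<n} R[1/u]_{≤d} x^i` (same `n`, `d`);
`M` = span of `u^j x^i`, `j ≤ 2d`, `i < n`; `x M ⊆ M` (top term: first relation if `j ≤ d`,
second if `j ≥ d`), `1 ∈ M`. -/
def StINT : Prop := ∀ (R S : Type u) [CommRing R] [CommRing S] [Algebra R S] (w : Sˣ) (x : S),
  IsIntegral (Algebra.adjoin R {(w : S)}) x →
  IsIntegral (Algebra.adjoin R {((w⁻¹ : Sˣ) : S)}) x → IsIntegral R x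

/-! ## Block U -/

/-- V1: a real seminorm on a valuation ring. `v b = inf {(1/2)^(m/n) : ϖ^m ∣ b^n, n ≥ 1}`. -/
def StV1 : Prop := ∀ (W : Type u) [CommRing W] [IsDomain W] [ValuationRing W] (ϖ : W),
  ϖ ≠ 0 → ¬ IsUnit ϖ → ∃ v : W → ℝ, IsMs ϖ v

/-- UG: the general divisibility lemma. Proof in the plan, block U. -/
def StUG : Prop := ∀ (B : Type u) [CommRing B] (ϖ e c : B) (k : ℕ), ϖ ∈ nonZeroDivisors B →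
  e ∣ ϖ ^ k → (∀ v : B → ℝ, IsMs ϖ v → v c < v e) → ∃ N : ℕ, ∀ m : ℕ, e ^ m ∣ c ^ (N + m)

/-- U: `v x ≤ |p|^lam` for all `v ∈ M(A)` implies `x ∈ p^s A` for `s < lam`. From UG with
`e = p^mu`, `s < mu < lam`, `mu > 0`, and integral closedness (if `s < 0` trivial). -/
def StU : Prop := ∀ (Ω : Type u) [Field Ω] [IsAlgClosed Ω] [CharZero Ω] (p : ℕ) [Fact p.Prime]
  (S : RootSys Ω p) (A : Subring Ω), IC A → ∀ (x : A) (lam s : ℚ), s < lam →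
  (∀ v : A → ℝ, IsMs (p : A) v → v x ≤ (1 / 2 : ℝ) ^ (lam : ℝ)) → (x : Ω) / S.pw s ∈ A

/-- UF: the perfect version of U. -/
def StUF : Prop := ∀ (p : ℕ) [Fact p.Prime] (B : Type u) [CommRing B] [CharP B p]
  [PerfectRing B p] (ϖ : B), ϖ ∈ nonZeroDivisors B → ∀ (x : B) (lam : ℝ),
  (∀ v : B → ℝ, IsMs ϖ v → v x ≤ (1 / 2 : ℝ) ^ lam) →
  ∀ m k : ℕ, (m : ℝ) / (p : ℝ) ^ k < lam → rt p k ϖ ^ m ∣ x

/-- EXT: a seminorm of `A` extends to `icl (A, X)` or to `icl (A, 1/X)`. Proof: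
`A_v = {a/b : v b ≠ 0, v a ≤ v b}` is a local subring of `Ω` with maximal ideal
`{a/b : v a < v b}`; a valuation subring `W` of `Ω` dominates it
(`LocalSubring.exists_le_valuationSubring`), contains `X` or `1/X`; V1 for `W` and `p`. -/
def StEXT : Prop := ∀ (Ω : Type u) [Field Ω] [IsAlgClosed Ω] [CharZero Ω] (p : ℕ)
  [Fact p.Prime] (A : Subring Ω), IC A → ∀ v : A → ℝ, IsMs (p : A) v → ∀ X : Ω, X ≠ 0 →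
  (∃ w : icl ((A : Set Ω) ∪ {X}) → ℝ, IsMs (p : icl ((A : Set Ω) ∪ {X})) w ∧
    ∀ (a : Ω) (h : a ∈ A) (h' : a ∈ icl ((A : Set Ω) ∪ {X})), w ⟨a, h'⟩ = v ⟨a, h⟩) ∨
  (∃ w : icl ((A : Set Ω) ∪ {X⁻¹}) → ℝ, IsMs (p : icl ((A : Set Ω) ∪ {X⁻¹})) w ∧
    ∀ (a : Ω) (h : a ∈ A) (h' : a ∈ icl ((A : Set Ω) ∪ {X⁻¹})), w ⟨a, h'⟩ = v ⟨a, h⟩)

/-! ## Block P: gluing on `M` -/

/-- MERGE: one Laurent step in a perfect ring. `B₁ = B[(e/ϖ^m)^{1/p^∞}] ⊆ B[1/ϖ]`,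
`B₂ = B[(ϖ^m/e)^{1/p^∞}] ⊆ B[1/(ϖ e)]`. -/
def StMERGE : Prop := ∀ (p : ℕ) [Fact p.Prime] (B : Type u) [CommRing B] [CharP B p]
  [PerfectRing B p] (ϖ : B), ϖ ∈ nonZeroDivisors B → ∀ (e : B) (m : ℕ), e ≠ 0 →
  ∃ (B₁ : Type u) (_ : CommRing B₁) (_ : CharP B₁ p) (_ : PerfectRing B₁ p) (i₁ : B →+* B₁)
    (B₂ : Type u) (_ : CommRing B₂) (_ : CharP B₂ p) (_ : PerfectRing B₂ p) (i₂ : B →+* B₂),
    i₁ ϖ ∈ nonZeroDivisors B₁ ∧ i₂ ϖ ∈ nonZeroDivisors B₂ ∧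
    i₁ ϖ ^ m ∣ i₁ e ∧ i₂ e ∣ i₂ ϖ ^ m ∧
    (∀ (x₁ : B₁) (x₂ : B₂) (F G : (B → ℝ) → B) (lam lam' : ℝ) (k : ℕ), 0 < lam' → lam' < lam →
      (∀ v, IsMs ϖ v → v (F v) ≤ v (G v) ∧ v (G v) ≠ 0) →
      (∀ w : B₁ → ℝ, IsMs (i₁ ϖ) w →
        w (i₁ (G (w ∘ i₁)) * x₁ - i₁ (F (w ∘ i₁))) ≤
          (1 / 2 : ℝ) ^ lam * w (i₁ (G (w ∘ i₁)))) →
      (∀ w : B₂ → ℝ, IsMs (i₂ ϖ) w →
        w (i₂ (G (w ∘ i₂)) * x₂ - i₂ (F (w ∘ i₂))) ≤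
          (1 / 2 : ℝ) ^ lam * w (i₂ (G (w ∘ i₂)))) →
      ∃ x : B, ∀ v, IsMs ϖ v →
        v (G v * x - rt p k ϖ * F v) ≤ (1 / 2 : ℝ) ^ lam' * v (G v))

/-- THR: the half spaces with thresholds `v e = (1/2)^m` generate the topology of `M(B)`
(`B` perfect, because `v e` can be replaced by `v (e ^ (p^k))`). -/
def StTHR : Prop := ∀ (p : ℕ) [Fact p.Prime] (B : Type u) [CommRing B] [CharP B p]
  [PerfectRing B p] (ϖ : B) (v₀ : B → ℝ), IsMs ϖ v₀ → ∀ U : Set (B → ℝ), IsOpen U → v₀ ∈ U →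
  ∃ (n : ℕ) (e : Fin n → B) (m : Fin n → ℕ) (s : Fin n → Bool),
    (∀ i, if s i then v₀ (e i) < (1 / 2 : ℝ) ^ m i else (1 / 2 : ℝ) ^ m i < v₀ (e i)) ∧
    ∀ v, IsMs ϖ v →
      (∀ i, if s i then v (e i) ≤ (1 / 2 : ℝ) ^ m i else (1 / 2 : ℝ) ^ m i ≤ v (e i)) → v ∈ U

/-- CELLS: gluing over the sign patterns of finitely many thresholds (induction on `n` for all
`B` at once, with MERGE; the case `n = 0` is MERGE for `e = b`, `m = N + 1`: `M(B₁)` is empty,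
`x₁ = 0`; in `B₂`: `b c = ϖ^(N+1)`, UF gives `ϖ_k^(p^k (N+1) - 1) ∣ a c`, i.e. `b x₂ = ϖ_k a`).
If `e i = 0` drop the index `i` (only patterns with `s i = true` occur); if `b = 0` for `n = 0`
then `M(B)` is empty. -/
def StCELLS : Prop := ∀ (p : ℕ) [Fact p.Prime] (n : ℕ) (B : Type u) [CommRing B] [CharP B p]
  [PerfectRing B p] (ϖ : B), ϖ ∈ nonZeroDivisors B → ∀ (e : Fin n → B) (m : Fin n → ℕ)
  (F G : (B → ℝ) → B) (lam lam' : ℝ), 0 < lam' → lam' < lam →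
  (∀ v, IsMs ϖ v → v (F v) ≤ v (G v) ∧ v (G v) ≠ 0) →
  (∀ s : Fin n → Bool, ∃ (a b : B) (N : ℕ), ∀ v, IsMs ϖ v →
    (∀ i, if s i then v (e i) ≤ (1 / 2 : ℝ) ^ m i else (1 / 2 : ℝ) ^ m i ≤ v (e i)) →
    v a ≤ v b ∧ (1 / 2 : ℝ) ^ N ≤ v b ∧
      v (F v * b - a * G v) ≤ (1 / 2 : ℝ) ^ lam * (v (G v) * v b)) →
  ∀ k : ℕ, ∃ x : B, ∀ v, IsMs ϖ v →
    v (G v * x - rt p k ϖ * F v) ≤ (1 / 2 : ℝ) ^ lam' * v (G v)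

/-- PF: gluing on `M(B)`, `B` perfect. From THR, CELLS and compactness of `M(B)`. -/
def StPF : Prop := ∀ (p : ℕ) [Fact p.Prime] (B : Type u) [CommRing B] [CharP B p]
  [PerfectRing B p] (ϖ : B), ϖ ∈ nonZeroDivisors B → ∀ (F G : (B → ℝ) → B) (lam lam' : ℝ),
  0 < lam' → lam' < lam →
  (∀ v, IsMs ϖ v → v (F v) ≤ v (G v) ∧ v (G v) ≠ 0) →
  (∀ v₀, IsMs ϖ v₀ → ∃ U : Set (B → ℝ), IsOpen U ∧ v₀ ∈ U ∧ ∀ v ∈ U, IsMs ϖ v →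
    v (F v₀) ≤ v (G v₀) ∧ v (G v₀) ≠ 0 ∧
      v (F v * G v₀ - F v₀ * G v) ≤ (1 / 2 : ℝ) ^ lam * (v (G v) * v (G v₀))) →
  ∀ k : ℕ, ∃ x : B, ∀ v, IsMs ϖ v →
    v (G v * x - rt p k ϖ * F v) ≤ (1 / 2 : ℝ) ^ lam' * v (G v)

/-- LG: Lemma G. `O` = the unit ball of a perfect valued field; here: `O` a perfect domain with
an injective-norm seminorm `v` such that `v x ≤ v y` implies `y ∣ x`. If
`[c] - [a] - [b] ∈ ξ W(O) + p^M W(O)` for all `M` (`ξ = p - [ϖ]`), then `v c ≤ max (v a) (v b)`. -/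
def StLG : Prop := ∀ (p : ℕ) [Fact p.Prime] (O : Type u) [CommRing O] [IsDomain O] [CharP O p]
  [PerfectRing O p] (ϖ : O) (v : O → ℝ), IsMs ϖ v → (∀ x y : O, v x ≤ v y → y ∣ x) →
  ∀ a b c : O, (∀ M : ℕ, ∃ x y : WittVector p O,
    WittVector.teichmuller p c - WittVector.teichmuller p a - WittVector.teichmuller p b =
      ((p : WittVector p O) - WittVector.teichmuller p ϖ) * x + (p : WittVector p O) ^ M * y) →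
  v c ≤ max (v a) (v b)

/-- TILT: everything that is needed from the tilt of an integrally closed `A ⊆ Ω`. -/
def StTILT : Prop := ∀ (Ω : Type u) [Field Ω] [IsAlgClosed Ω] [CharZero Ω] (p : ℕ)
  [Fact p.Prime] (S : RootSys Ω p) (A : Subring Ω), IC A → ((p : Ω)⁻¹ ∉ A) →
  ∃ (B : Type u) (_ : CommRing B) (_ : CharP B p) (_ : PerfectRing B p) (ϖ : B) (fl : A → B),
    ϖ ∈ nonZeroDivisors B ∧
    (∀ w, IsMs ϖ w → IsMs (p : A) (fun a => w (fl a))) ∧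
    (∀ v, IsMs (p : A) v → ∃ w, IsMs ϖ w ∧ ∀ a, w (fl a) = v a) ∧
    (∀ w, IsMs ϖ w → ∀ x y : A,
      w (fl x - fl y) ≤ max (w (fl (x - y))) (1 / 2 * max (w (fl x)) (w (fl y)))) ∧
    (∀ w, IsMs ϖ w → ∀ x y : A,
      w (fl (x - y)) ≤ max (w (fl x - fl y)) (1 / 2 * max (w (fl x)) (w (fl y)))) ∧
    (∀ w, IsMs ϖ w → ∀ x y : A, w (fl (x * y) - fl x * fl y) ≤ 1 / 2 * (w (fl x) * w (fl y))) ∧
    (∀ w, IsMs ϖ w → ∀ (k : ℕ) (h : S.pw (1 / (p : ℚ) ^ k) ∈ A),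
      w (fl ⟨S.pw (1 / (p : ℚ) ^ k), h⟩ - rt p k ϖ) ≤ 1 / 2 * w (rt p k ϖ)) ∧
    (∀ x : B, ∃ a : A, ∀ w, IsMs ϖ w → w (x - fl a) ≤ 1 / 2)

/-- PA: gluing on `M(A)`, `A ⊆ Ω` integrally closed. From PF and TILT (if `1/p ∈ A` then
`M(A)` is empty). -/
def StPA : Prop := ∀ (Ω : Type u) [Field Ω] [IsAlgClosed Ω] [CharZero Ω] (p : ℕ)
  [Fact p.Prime] (S : RootSys Ω p) (A : Subring Ω), IC A → ∀ (F G : (A → ℝ) → A)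
  (lam lam' : ℝ), 0 < lam' → lam' < lam → lam ≤ 1 →
  (∀ v, IsMs (p : A) v → v (F v) ≤ v (G v) ∧ v (G v) ≠ 0) →
  (∀ v₀, IsMs (p : A) v₀ → ∃ U : Set (A → ℝ), IsOpen U ∧ v₀ ∈ U ∧ ∀ v ∈ U, IsMs (p : A) v →
    v (F v₀) ≤ v (G v₀) ∧ v (G v₀) ≠ 0 ∧
      v (F v * G v₀ - F v₀ * G v) ≤ (1 / 2 : ℝ) ^ lam * (v (G v) * v (G v₀))) →
  ∀ (k : ℕ) (h : S.pw (1 / (p : ℚ) ^ k) ∈ A), ∃ x : A, ∀ v, IsMs (p : A) v →
    v (G v * x - ⟨S.pw (1 / (p : ℚ) ^ k), h⟩ * F v) ≤ (1 / 2 : ℝ) ^ lam' * v (G v)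

/-! ## Block H -/

/-- AR: Artin-Rees for a submodule with finite quotient. -/
def StAR : Prop := ∀ (A₀ : Type u) [CommRing A₀] [IsNoetherianRing A₀] (E : Type u)
  [AddCommGroup E] [Module A₀ E] (N : Submodule A₀ E), Module.Finite A₀ (E ⧸ N) →
  ∀ I : Ideal A₀, ∃ c : ℕ, ∀ M : ℕ, N ⊓ (I ^ (M + c) • (⊤ : Submodule A₀ E)) ≤ I ^ M • N

/-- LEV: finite levels. `A₀` a finitely generated subring, `D₁, D₂, D₁₂` finite type pieces with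
`D₁₂ / (D₁ + D₂)` a finite `A₀`-module. -/
def StLEV : Prop := ∀ (Ω : Type u) [Field Ω] (A : Subring Ω) (X : Ω), X ≠ 0 →
  ∀ (n₀ a₁ a₂ a₁₂ : Finset Ω), (∀ x ∈ n₀, x ∈ A) → (∀ x ∈ a₁, x ∈ icl ((A : Set Ω) ∪ {X})) →
  (∀ x ∈ a₂, x ∈ icl ((A : Set Ω) ∪ {X⁻¹})) → (∀ x ∈ a₁₂, x ∈ icl ((A : Set Ω) ∪ {X, X⁻¹})) →
  ∃ (A₀ : Subring Ω) (D₁ D₂ D₁₂ : Subring Ω), A₀ ≤ A ∧ IsNoetherianRing A₀ ∧
    A₀ ≤ D₁ ∧ A₀ ≤ D₂ ∧ D₁ ≤ D₁₂ ∧ D₂ ≤ D₁₂ ∧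
    D₁ ≤ icl ((A : Set Ω) ∪ {X}) ∧ D₂ ≤ icl ((A : Set Ω) ∪ {X⁻¹}) ∧
    (∀ x ∈ n₀, x ∈ A₀) ∧ (∀ x ∈ a₁, x ∈ D₁) ∧ (∀ x ∈ a₂, x ∈ D₂) ∧ (∀ x ∈ a₁₂, x ∈ D₁₂) ∧
    ∃ G : Finset Ω, (∀ x ∈ G, x ∈ D₁₂) ∧
      ∀ x ∈ D₁₂, ∃ x₁ ∈ D₁, ∃ x₂ ∈ D₂, x - x₁ - x₂ ∈ Submodule.span A₀ (G : Set Ω)

/-- CONN: idempotents of the closed fibre lift. -/
def StCONN : Prop := ∀ (Ω : Type u) [Field Ω] [IsAlgClosed Ω] (A : Subring Ω),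
  IsLocalRing A → IC A → ∀ X : Ω, X ≠ 0 →
  ∀ e₁ ∈ icl ((A : Set Ω) ∪ {X}), ∀ e₂ ∈ icl ((A : Set Ω) ∪ {X⁻¹}),
  e₁ ^ 2 - e₁ ∈ ext (nu A) (icl ((A : Set Ω) ∪ {X})) →
  e₂ ^ 2 - e₂ ∈ ext (nu A) (icl ((A : Set Ω) ∪ {X⁻¹})) →
  e₁ - e₂ ∈ ext (nu A) (icl ((A : Set Ω) ∪ {X, X⁻¹})) →
  ∃ e ∈ A, e₁ - e ∈ ext (nu A) (icl ((A : Set Ω) ∪ {X})) ∧
    e₂ - e ∈ ext (nu A) (icl ((A : Set Ω) ∪ {X⁻¹}))

/-- HPOL: step (i) of H: a monic polynomial over `A` that kills both `x₁`, `x₂` modulo `nu A`. -/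
def StHPOL : Prop := ∀ (Ω : Type u) [Field Ω] [IsAlgClosed Ω] (A : Subring Ω),
  IsLocalRing A → IC A → ∀ X : Ω, X ≠ 0 →
  ∀ x₁ ∈ icl ((A : Set Ω) ∪ {X}), ∀ x₂ ∈ icl ((A : Set Ω) ∪ {X⁻¹}),
  x₁ - x₂ ∈ ext (nu A) (icl ((A : Set Ω) ∪ {X, X⁻¹})) →
  ∃ G : A[X], G.Monic ∧ aeval x₁ G ∈ ext (nu A) (icl ((A : Set Ω) ∪ {X})) ∧
    aeval x₂ G ∈ ext (nu A) (icl ((A : Set Ω) ∪ {X⁻¹}))

/-- H: global functions on the closed fibre are constant up to nilpotents. -/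
def StH : Prop := ∀ (Ω : Type u) [Field Ω] [IsAlgClosed Ω] (A : Subring Ω),
  IsLocalRing A → IC A → ∀ X : Ω, X ≠ 0 →
  ∀ x₁ ∈ icl ((A : Set Ω) ∪ {X}), ∀ x₂ ∈ icl ((A : Set Ω) ∪ {X⁻¹}),
  x₁ - x₂ ∈ ext (nu A) (icl ((A : Set Ω) ∪ {X, X⁻¹})) →
  ∃ c ∈ A, ∃ m : ℕ, 0 < m ∧ (x₁ - c) ^ m ∈ ext (nu A) (icl ((A : Set Ω) ∪ {X})) ∧
    (x₂ - c) ^ m ∈ ext (nu A) (icl ((A : Set Ω) ∪ {X⁻¹}))

/-- SEID: Seidenberg's lemma. -/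
def StSEID : Prop := ∀ (Ω : Type u) [Field Ω] (T : Subring Ω), IsLocalRing T → IC T →
  ∀ X : Ω, X ∉ T → X⁻¹ ∉ T → ∀ f : T[X],
  aeval X f ∈ ext (nu T) (icl ((T : Set Ω) ∪ {X})) → ∀ i, (f.coeff i : Ω) ∈ nu T


/-- `A` is the preimage in the local ring `T` of a valuation ring of the residue field. -/
structure PV {Ω : Type u} [Field Ω] (T A : Subring Ω) : Prop where
  le : A ≤ T
  nu_sub : nu T ⊆ A
  val : ∀ x ∈ T, x ∈ A ∨ x⁻¹ ∈ A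

/-- generic primes of a ring `D ⊇ T[X]`: primes that meet `T[X]` in `nu T · T[X]`. -/
structure Gen {Ω : Type u} [Field Ω] (T D : Subring Ω) (X : Ω) (q : Ideal D) : Prop where
  prime : q.IsPrime
  iff : ∀ (f : T[X]) (h : aeval X f ∈ D),
    (⟨aeval X f, h⟩ : D) ∈ q ↔ ∀ i, (f.coeff i : Ω) ∈ nu T

/-- NI0: `(X - ξ)^N g ∈ nu T · D` implies `g ∈ rad (nu T · D)`, `D = icl (T, X)`. Proof: H for `T`
and `X' = X - ξ` (`icl (T, X') = icl (T, X)`), `x₁ = g`, `x₂ = 0`,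
`g = g X'^N / X'^N ∈ nu T · icl (T, X', 1/X')`; the constant `c` of H is in `nu T`, because
`nu T · icl (T, 1/X')` is proper (`X' ∉ T`: a valuation ring dominating `T` without `X'`). -/
def StNI0 : Prop := ∀ (Ω : Type u) [Field Ω] [IsAlgClosed Ω] (T : Subring Ω),
  IsLocalRing T → IC T → ∀ X : Ω, X ∉ T → X⁻¹ ∉ T →
  ∀ g ∈ icl ((T : Set Ω) ∪ {X}), ∀ ξ ∈ T, ∀ N : ℕ,
  (X - ξ) ^ N * g ∈ ext (nu T) (icl ((T : Set Ω) ∪ {X})) →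
  ∃ N' : ℕ, g ^ N' ∈ ext (nu T) (icl ((T : Set Ω) ∪ {X}))

/-- NI: torsion freeness of the reduced closed fibre over `κ[X]`. -/
def StNI : Prop := ∀ (Ω : Type u) [Field Ω] [IsAlgClosed Ω] (T : Subring Ω),
  IsLocalRing T → IC T → ∀ X : Ω, X ∉ T → X⁻¹ ∉ T →
  ∀ g ∈ icl ((T : Set Ω) ∪ {X}), ∀ (f : T[X]) (N : ℕ), (∃ i, (f.coeff i : Ω) ∉ nu T) →
  aeval X f * g ^ N ∈ ext (nu T) (icl ((T : Set Ω) ∪ {X})) →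
  ∃ N' : ℕ, g ^ N' ∈ ext (nu T) (icl ((T : Set Ω) ∪ {X}))

/-- LI: criterion for integrality over `A[X]`. Proof: `M(u)` is in all generic primes, hence
(prime avoidance of the multiplicative set `f(X) M(u)^N`, and NI) `M(u)^N ∈ nu T · D`;
`nu T · D ⊆ icl (A, X)` because every `d ∈ D` has `s d ∈ icl (A, X)` with `s ∈ A`, `s ∉ nu T`,
and `nu T / s ⊆ nu T ⊆ A`. So `u` is integral over `icl (A, X)`. -/
def StLI : Prop := ∀ (Ω : Type u) [Field Ω] [IsAlgClosed Ω] (T A : Subring Ω),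
  IsLocalRing T → IC T → PV T A → ∀ X : Ω, X ∉ T → X⁻¹ ∉ T →
  ∀ u ∈ icl ((T : Set Ω) ∪ {X}), ∀ M : A[X][X], M.Monic →
  (∀ q : Ideal (icl ((T : Set Ω) ∪ {X})), Gen T (icl ((T : Set Ω) ∪ {X})) X q →
    ∀ h : ev2 A.subtype M X u ∈ icl ((T : Set Ω) ∪ {X}),
      (⟨ev2 A.subtype M X u, h⟩ : icl ((T : Set Ω) ∪ {X})) ∈ q) →
  u ∈ icl ((A : Set Ω) ∪ {X})

/-- RAD: an element whose power lies in the extension of a prime `P` of an integrally closed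
domain `S` has minimal polynomial `Z^d` modulo `P` (Atiyah-Macdonald 5.14, 5.15). -/
def StRAD : Prop := ∀ (S E : Type u) [CommRing S] [IsDomain S] [IsIntegrallyClosed S] [Field E]
  [Algebra S E], Function.Injective (algebraMap S E) → ∀ (P : Ideal S), P.IsPrime →
  ∀ (z : E) (m : ℕ), 0 < m →
  z ^ m ∈ Submodule.span (integralClosure S E) (algebraMap S E '' (P : Set S)) →
  IsIntegral S z ∧ ∀ i < (minpoly S z).natDegree, (minpoly S z).coeff i ∈ P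

/-- SCALE: normalisation of a monic polynomial over `κ[X]` by a scalar. -/
def StSCALE : Prop := ∀ (κ : Type u) [Field κ] [IsAlgClosed κ] (V : ValuationSubring κ)
  (M : κ[X][X]), M.Monic → M ≠ X ^ M.natDegree →
  ∃ ρ : κ, ρ ≠ 0 ∧ (∀ i ≤ M.natDegree, ∀ j, (M.coeff i).coeff j / ρ ^ (M.natDegree - i) ∈ V) ∧
    ∃ i < M.natDegree, ∃ j, (M.coeff i).coeff j ≠ 0 ∧
      ((M.coeff i).coeff j / ρ ^ (M.natDegree - i))⁻¹ ∈ V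

/-- MU: the finitely many minimal polynomials at the generic primes. For `y ∈ icl (T, X)` there is
a monic `M ∈ κ[X][Z]`, `κ = T / nu T`, a product of monic polynomials `μ`, each of which is the
minimal polynomial over `κ[X]` of the image of `y` in `D / q` for some generic prime `q`, and each
such minimal polynomial divides `M`. (All of them divide the reduction of a monic polynomial over
`T[X]` that kills `y`.) -/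
def StMU : Prop := ∀ (Ω : Type u) [Field Ω] [IsAlgClosed Ω] (T : Subring Ω)
  [IsLocalRing T], IC T → ∀ X : Ω, X ∉ T → X⁻¹ ∉ T →
  ∀ y ∈ icl ((T : Set Ω) ∪ {X}),
  ∃ l : Multiset (IsLocalRing.ResidueField T)[X][X],
    (∀ μ ∈ l, μ.Monic ∧ Irreducible μ ∧ ∃ q : Ideal (icl ((T : Set Ω) ∪ {X})),
      Gen T (icl ((T : Set Ω) ∪ {X})) X q ∧
      ∀ F : T[X][X], F.map (mapRingHom (IsLocalRing.residue T)) = μ →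
        ∀ h : ev2 T.subtype F X y ∈ icl ((T : Set Ω) ∪ {X}),
          (⟨ev2 T.subtype F X y, h⟩ : icl ((T : Set Ω) ∪ {X})) ∈ q) ∧
    (∀ q : Ideal (icl ((T : Set Ω) ∪ {X})), Gen T (icl ((T : Set Ω) ∪ {X})) X q →
      ∀ F : T[X][X], F.map (mapRingHom (IsLocalRing.residue T)) = l.prod →
        ∀ h : ev2 T.subtype F X y ∈ icl ((T : Set Ω) ∪ {X}),
          (⟨ev2 T.subtype F X y, h⟩ : icl ((T : Set Ω) ∪ {X})) ∈ q)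

/-- LI2: `icl (T, X) ∩ icl (A, X, 1/X) ⊆ icl (A, X)`. From MU, LI and integral closedness of
`V[X]`. -/
def StLI2 : Prop := ∀ (Ω : Type u) [Field Ω] [IsAlgClosed Ω] (T A : Subring Ω),
  IsLocalRing T → IC T → PV T A → ∀ X : Ω, X ∉ T → X⁻¹ ∉ T →
  ∀ u ∈ icl ((T : Set Ω) ∪ {X}), u ∈ icl ((A : Set Ω) ∪ {X, X⁻¹}) → u ∈ icl ((A : Set Ω) ∪ {X})

/-- HPM: the main step of HP: any `c` that is the value of `x₁` at a point works. -/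
def StHPM : Prop := ∀ (Ω : Type u) [Field Ω] [IsAlgClosed Ω] (T A : Subring Ω),
  IsLocalRing T → IC T → PV T A → ∀ X : Ω, X ∉ T → X⁻¹ ∉ T →
  ∀ π ∈ A, π ∉ nu T → ∀ x₁ ∈ icl ((A : Set Ω) ∪ {X}), ∀ x₂ ∈ icl ((A : Set Ω) ∪ {X⁻¹}),
  (x₁ - x₂) / π ∈ icl ((A : Set Ω) ∪ {X, X⁻¹}) → ∀ c ∈ A,
  (∃ P : Ideal (icl ((T : Set Ω) ∪ {X})), P.IsPrime ∧
    (∀ (a : Ω) (h : a ∈ icl ((T : Set Ω) ∪ {X})), a ∈ nu T → ⟨a, h⟩ ∈ P) ∧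
    (∃ ξ ∈ A, ∀ h : X - ξ ∈ icl ((T : Set Ω) ∪ {X}), ⟨X - ξ, h⟩ ∈ P) ∧
    (∀ h : x₁ - c ∈ icl ((T : Set Ω) ∪ {X}), ⟨x₁ - c, h⟩ ∈ P)) →
  (x₁ - c) / π ∈ icl ((A : Set Ω) ∪ {X}) ∧ (x₂ - c) / π ∈ icl ((A : Set Ω) ∪ {X⁻¹})

/-- HP: existence of the constant (also if `X ∈ T` or `1/X ∈ T`). -/
def StHP : Prop := ∀ (Ω : Type u) [Field Ω] [IsAlgClosed Ω] (T A : Subring Ω),
  IsLocalRing T → IC T → PV T A → ∀ X : Ω, X ≠ 0 →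
  ∀ π ∈ A, π ∉ nu T → ∀ x₁ ∈ icl ((A : Set Ω) ∪ {X}), ∀ x₂ ∈ icl ((A : Set Ω) ∪ {X⁻¹}),
  (x₁ - x₂) / π ∈ icl ((A : Set Ω) ∪ {X, X⁻¹}) →
  ∃ c ∈ A, (x₁ - c) / π ∈ icl ((A : Set Ω) ∪ {X}) ∧ (x₂ - c) / π ∈ icl ((A : Set Ω) ∪ {X⁻¹})

/-- S0: sections: a ring homomorphism `icl (A, t) → A` over `A` with `t ↦ 0`. -/
def StS0 : Prop := ∀ (Ω : Type u) [Field Ω] [IsAlgClosed Ω] (A : Subring Ω), IC A →
  ∀ t : Ω, Transcendental A t → ∃ s : icl ((A : Set Ω) ∪ {t}) →+* A,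
    (∀ (a : Ω) (h : a ∈ A) (h' : a ∈ icl ((A : Set Ω) ∪ {t})), s ⟨a, h'⟩ = ⟨a, h⟩) ∧
    ∀ h : t ∈ icl ((A : Set Ω) ∪ {t}), s ⟨t, h⟩ = 0

/-- H0: exactness of `H^0` for the projective line over any integrally closed `A`. From HPM with
`T = Frac A` and `W ∩ Frac A` for all valuation subrings `W ⊇ A[t]` resp. `A[1/t]` (VC). -/
def StH0 : Prop := ∀ (Ω : Type u) [Field Ω] [IsAlgClosed Ω] (A : Subring Ω), IC A →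
  ∀ t : Ω, Transcendental A t → ∀ s : icl ((A : Set Ω) ∪ {t}) →+* A,
    (∀ (a : Ω) (h : a ∈ A) (h' : a ∈ icl ((A : Set Ω) ∪ {t})), s ⟨a, h'⟩ = ⟨a, h⟩) →
    (∀ h : t ∈ icl ((A : Set Ω) ∪ {t}), s ⟨t, h⟩ = 0) →
  ∀ π ∈ A, π ≠ 0 → ∀ a : icl ((A : Set Ω) ∪ {t}), ∀ b ∈ icl ((A : Set Ω) ∪ {t⁻¹}),
  ((a : Ω) - b) / π ∈ icl ((A : Set Ω) ∪ {t, t⁻¹}) →
  ((a : Ω) - (s a : Ω)) / π ∈ icl ((A : Set Ω) ∪ {t}) ∧
    (b - (s a : Ω)) / π ∈ icl ((A : Set Ω) ∪ {t⁻¹})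

/-! ## Block SS -/

/-- C: local constancy at a point `v` of `M(A)`. HP with `T = {a/b : v b ≠ 0}` and
`{a/b : v a ≤ v b ≠ 0}`, `π = p^lam`. -/
def StC : Prop := ∀ (Ω : Type u) [Field Ω] [IsAlgClosed Ω] [CharZero Ω] (p : ℕ)
  [Fact p.Prime] (S : RootSys Ω p) (A : Subring Ω), IC A → ∀ X : Ω, X ≠ 0 →
  ∀ v : A → ℝ, IsMs (p : A) v → ∀ lam : ℚ, 0 < lam → ∀ x₁ ∈ icl ((A : Set Ω) ∪ {X}),
  ∀ x₂ ∈ icl ((A : Set Ω) ∪ {X⁻¹}), (x₁ - x₂) / S.pw lam ∈ icl ((A : Set Ω) ∪ {X, X⁻¹}) →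
  ∃ a b : A, v a ≤ v b ∧ v b ≠ 0 ∧
    (x₁ - (a : Ω) / (b : Ω)) / S.pw lam ∈ icl (Av A v ∪ {X}) ∧
    (x₂ - (a : Ω) / (b : Ω)) / S.pw lam ∈ icl (Av A v ∪ {X⁻¹})

/-- EV: evaluation of the local approximation at the seminorms over `v`. -/
def StEV : Prop := ∀ (Ω : Type u) [Field Ω] [IsAlgClosed Ω] [CharZero Ω] (p : ℕ)
  [Fact p.Prime] (S : RootSys Ω p) (A : Subring Ω), IC A → ∀ (X : Ω)
  (w : icl ((A : Set Ω) ∪ {X}) → ℝ), IsMs (p : icl ((A : Set Ω) ∪ {X})) w → ∀ v : A → ℝ,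
  (∀ (a : Ω) (h : a ∈ A) (h' : a ∈ icl ((A : Set Ω) ∪ {X})), w ⟨a, h'⟩ = v ⟨a, h⟩) →
  ∀ (x : Ω) (a b : A) (lam : ℚ), 0 < lam → x ∈ icl ((A : Set Ω) ∪ {X}) → v b ≠ 0 →
  (x - (a : Ω) / (b : Ω)) / S.pw lam ∈ icl (Av A v ∪ {X}) →
  ∀ h : (b : Ω) * x - a ∈ icl ((A : Set Ω) ∪ {X}),
    w ⟨(b : Ω) * x - a, h⟩ ≤ (1 / 2 : ℝ) ^ (lam : ℝ) * v b

/-- SS: `H^0` of a blow-up modulo `p^lam`. -/
def StSS : Prop := ∀ (Ω : Type u) [Field Ω] [IsAlgClosed Ω] [CharZero Ω] (p : ℕ)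
  [Fact p.Prime] (S : RootSys Ω p) (A : Subring Ω), IC A → ∀ X : Ω, X ≠ 0 →
  ∀ lam mu : ℚ, mu < lam → ∀ x₁ ∈ icl ((A : Set Ω) ∪ {X}),
  ∀ x₂ ∈ icl ((A : Set Ω) ∪ {X⁻¹}), (x₁ - x₂) / S.pw lam ∈ icl ((A : Set Ω) ∪ {X, X⁻¹}) →
  ∃ a ∈ A, (a - x₁) / S.pw mu ∈ icl ((A : Set Ω) ∪ {X}) ∧
    (a - x₂) / S.pw mu ∈ icl ((A : Set Ω) ∪ {X⁻¹})

/-- TREE: several blow-ups at once (induction on `n` with SS and VC). -/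
def StTREE : Prop := ∀ (Ω : Type u) [Field Ω] [IsAlgClosed Ω] [CharZero Ω] (p : ℕ)
  [Fact p.Prime] (S : RootSys Ω p) (A : Subring Ω), IC A → ∀ (n : ℕ) (X : Fin n → Ω),
  (∀ q, X q ≠ 0) → ∀ (x : (Fin n → Bool) → Ω) (lam mu : ℚ), mu < lam →
  (∀ (s : Fin n → Bool) (W : ValuationSubring Ω), (A : Set Ω) ⊆ W → (∀ q, gens X s q ∈ W) →
    x s ∈ W) →
  (∀ (s s' : Fin n → Bool) (W : ValuationSubring Ω), (A : Set Ω) ⊆ W →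
    (∀ q, gens X s q ∈ W) → (∀ q, gens X s' q ∈ W) → (x s - x s') / S.pw lam ∈ W) →
  ∃ a ∈ A, ∀ (s : Fin n → Bool) (W : ValuationSubring Ω), (A : Set Ω) ⊆ W →
    (∀ q, gens X s q ∈ W) → (a - x s) / S.pw mu ∈ W

/-! ## Block J: see St3 -/

/-- J: the `p`-divisibility identity. -/
def StJ : Prop := ∀ (Ω : Type u) [Field Ω] [IsAlgClosed Ω] [CharZero Ω] (K : Subfield Ω)
  [IsAlgClosed K] (t y : Ω) (p : ℕ) [Fact p.Prime], Transcendental K t →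
  (∀ x : Ω, ∃ F : K[X][X], F ≠ 0 ∧ ev2 K.subtype F t x = 0) →
  y ∈ icl ((K : Set Ω) ∪ {t, t⁻¹}) →
  ∃ (n : ℕ) (τ z : Fin n → Ω) (w : Ω), (∀ q, τ q ≠ 0) ∧
    (∀ q, ∀ F : K[X][X], ev2 K.subtype F t y = 0 → ev2 K.subtype F (τ q) (z q) = 0) ∧
    ∀ P : ValuationSubring Ω, (K : Set Ω) ⊆ P →
      (open Classical in (if t ∈ P then 0 else y) + (p : Ω) * ∑ q, (if τ q ∈ P then 0 else z q))
        - w ∈ P

/-! ## The main theorem -/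

/-- PL: a `K`-point `χ` of `icl (K, t^±, τ_q^±, w)` with `t ↦` a positive integer. -/
def StPL : Prop := ∀ (Ω : Type u) [Field Ω] [IsAlgClosed Ω] [CharZero Ω] (K : Subfield Ω)
  [IsAlgClosed K] (t : Ω), Transcendental K t →
  (∀ x : Ω, ∃ F : K[X][X], F ≠ 0 ∧ ev2 K.subtype F t x = 0) → ∀ s : Finset Ω,
  ∃ (c : ℕ) (χ : icl ((K : Set Ω) ∪ s ∪ {t}) →+* Ω), 0 < c ∧
    (∀ (a : Ω) (h : a ∈ icl ((K : Set Ω) ∪ s ∪ {t})), a ∈ K → χ ⟨a, h⟩ = a) ∧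
    (∀ x, χ x ∈ K) ∧ ∀ h : t ∈ icl ((K : Set Ω) ∪ s ∪ {t}), χ ⟨t, h⟩ = c

/-- MI: integrality of the identity of J over rank one valuation rings.
Here `z q` is integral over `R[τ_q, 1/τ_q]`, `y` over `R[t, 1/t]`; `χ` is the point of PL. -/
def StMI : Prop := ∀ (Ω : Type u) [Field Ω] [IsAlgClosed Ω] [CharZero Ω] (p : ℕ)
  [Fact p.Prime] (S : RootSys Ω p) (R : Subring Ω) (K : Subfield Ω) [IsAlgClosed K],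
  (R : Set Ω) ⊆ K → ∀ (t y : Ω), Transcendental K t →
  (∀ x : Ω, ∃ F : K[X][X], F ≠ 0 ∧ ev2 K.subtype F t x = 0) →
  y ∈ icl ((R : Set Ω) ∪ {t, t⁻¹}) → ∀ (n : ℕ) (τ z : Fin n → Ω) (w : Ω), (∀ q, τ q ≠ 0) →
  (∀ q, z q ∈ icl ((R : Set Ω) ∪ {τ q, (τ q)⁻¹})) →
  (∀ P : ValuationSubring Ω, (K : Set Ω) ⊆ P →
      (open Classical in (if t ∈ P then 0 else y) + (p : Ω) * ∑ q, (if τ q ∈ P then 0 else z q))
        - w ∈ P) →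
  ∀ (U : Subring Ω) (c : ℕ) (χ : U →+* Ω), 0 < c → IC U → (K : Set Ω) ⊆ U →
  (∀ (a : Ω) (h : a ∈ U), a ∈ K → χ ⟨a, h⟩ = a) → (∀ x, χ x ∈ K) →
  ∀ (ht : t ∈ U) (hτ : ∀ q, τ q ∈ U) (_ : ∀ q, (τ q)⁻¹ ∈ U) (hz : ∀ q, z q ∈ U) (hw : w ∈ U),
  t⁻¹ ∈ U → χ ⟨t, ht⟩ = c → ∀ W : ValuationSubring Ω, Rk1 p W → (R : Set Ω) ⊆ W →
    (open Classical in (if t ∈ W then 0 else y) + (p : Ω) * ∑ q, (if τ q ∈ W then 0 else z q)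
      - w - ((p : Ω) * ∑ q, (if χ ⟨τ q, hτ q⟩ ∈ W then 0 else χ ⟨z q, hz q⟩)
        - χ ⟨w, hw⟩)) ∈ W

/-- R1: the rank one test. -/
def StR1 : Prop := ∀ (Ω : Type u) [Field Ω] [CharZero Ω] (p : ℕ) [Fact p.Prime]
  (g : Finset Ω), (∀ x : Ω, ∃ F : (Subring.closure (g : Set Ω))[X], F ≠ 0 ∧ aeval x F = 0) →
  ∀ W : ValuationSubring Ω, (p : Ω)⁻¹ ∉ W → ∀ z : Finset Ω, (∀ x ∈ z, x ∈ W) →
  ∃ W₁ : ValuationSubring Ω, Rk1 p W₁ ∧ (∀ x ∈ z, x ∈ W₁) ∧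
    ∀ x ∈ z, x⁻¹ ∉ W → x⁻¹ ∉ W₁

/-- LOC: an element that lies in all valuation rings over `D` with `p` a nonunit is congruent
modulo `p` to an element of `D`. -/
def StLOC : Prop := ∀ (Ω : Type u) [Field Ω] (p : ℕ) (D : Subring Ω), (p : Ω) ≠ 0 →
  IC D → ∀ e : Ω, (∀ W : ValuationSubring Ω, (D : Set Ω) ⊆ W → (p : Ω)⁻¹ ∉ W → e ∈ W) →
  ∃ d ∈ D, ∀ W : ValuationSubring Ω, (D : Set Ω) ⊆ W → (p : Ω)⁻¹ ∉ W → (e - d) / p ∈ W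

/-- FIN: the main theorem for finitely generated `R` (one step). -/
def StFIN : Prop := ∀ (Ω : Type u) [Field Ω] [IsAlgClosed Ω] [CharZero Ω] (p : ℕ)
  [Fact p.Prime] (S : RootSys Ω p) (g : Finset Ω) (t : Ω),
  Transcendental (Subring.closure (g : Set Ω)) t →
  (∀ x : Ω, ∃ F : (Subring.closure ((g : Set Ω) ∪ {t}))[X], F ≠ 0 ∧ aeval x F = 0) →
  ∀ y ∈ icl ((g : Set Ω) ∪ {t, t⁻¹}), ∀ mu : ℚ, mu < 1 →
  ∃ a ∈ icl ((g : Set Ω) ∪ {t}), ∃ b ∈ icl ((g : Set Ω) ∪ {t⁻¹}),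
    (y - a - b) / S.pw mu ∈ icl ((g : Set Ω) ∪ {t, t⁻¹})

/-- DAG: the main theorem: `(R[t,1/t])^+ = (R[t])^+ + (R[1/t])^+ + p^N (R[t,1/t])^+`. -/
def StDAG : Prop := ∀ (Ω : Type u) [Field Ω] [IsAlgClosed Ω] [CharZero Ω] (p : ℕ)
  [Fact p.Prime] (R : Subring Ω) (t : Ω), Transcendental R t →
  ∀ y ∈ icl ((R : Set Ω) ∪ {t, t⁻¹}), ∀ N : ℕ,
  ∃ a ∈ icl ((R : Set Ω) ∪ {t}), ∃ b ∈ icl ((R : Set Ω) ∪ {t⁻¹}),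
    (y - a - b) / (p : Ω) ^ N ∈ icl ((R : Set Ω) ∪ {t, t⁻¹})

end Pool.Agent.Helper44.SPL
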