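import Mathlib
import Pool.Agent.Helper44.SPL.St
import Pool.Agent.Helper44.SPL.Bas

/-!
# Splinters in mixed characteristic: module C (local constancy at a point of `M(A)`)
-/

set_option autoImplicit false

namespace Pool.Agent.Helper44.SPL

open Polynomial

universe u

namespace Caux

variable {Ω : Type u} [Field Ω] {A : Subring Ω} {ϖ : A} {v : A → ℝ}

lemma ne0 (hv : IsMs ϖ v) {a : A} (h : v a ≠ 0) : (a : Ω) ≠ 0 := by
  intro h1
  have : a = 0 := Subtype.ext h1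
  exact h (by rw [this, hv.zero])

/-- the localization of `A` at the kernel of `v` -/
def Tv (hv : IsMs ϖ v) : Subring Ω where
  carrier := {x | ∃ a b : A, v b ≠ 0 ∧ x = (a : Ω) / (b : Ω)}
  mul_mem' := by
    rintro x y ⟨a, b, hb, rfl⟩ ⟨c, d, hd, rfl⟩
    refine ⟨a * c, b * d, by rw [hv.mul]; exact mul_ne_zero hb hd, ?_⟩
    push_cast
    rw [div_mul_div_comm]
  one_mem' := ⟨1, 1, by rw [hv.one]; exact one_ne_zero, by simp⟩
  add_mem' := by
    rintro x y ⟨a, b, hb, rfl⟩ ⟨c, d, hd, rfl⟩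
    refine ⟨a * d + b * c, b * d, by rw [hv.mul]; exact mul_ne_zero hb hd, ?_⟩
    push_cast
    rw [div_add_div _ _ (ne0 hv hb) (ne0 hv hd)]
  zero_mem' := ⟨0, 1, by rw [hv.one]; exact one_ne_zero, by simp⟩
  neg_mem' := by
    rintro x ⟨a, b, hb, rfl⟩
    refine ⟨-a, b, hb, ?_⟩
    push_cast
    rw [neg_div]

/-- the subring of the fractions `a / b` with `v a ≤ v b ≠ 0` -/
def Rv (hv : IsMs ϖ v) : Subring Ω where
  carrier := Av A v
  mul_mem' := by
    rintro x y ⟨a, b, hb, hab, rfl⟩ ⟨c, d, hd, hcd, rfl⟩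
    refine ⟨a * c, b * d, by rw [hv.mul]; exact mul_ne_zero hb hd, ?_, ?_⟩
    · rw [hv.mul, hv.mul]
      exact mul_le_mul hab hcd (hv.nonneg _) (hv.nonneg _)
    · push_cast
      rw [div_mul_div_comm]
  one_mem' := ⟨1, 1, by rw [hv.one]; exact one_ne_zero, le_rfl, by simp⟩
  add_mem' := by
    rintro x y ⟨a, b, hb, hab, rfl⟩ ⟨c, d, hd, hcd, rfl⟩
    refine ⟨a * d + b * c, b * d, by rw [hv.mul]; exact mul_ne_zero hb hd, ?_, ?_⟩
    · refine (hv.add _ _).trans (max_le ?_ ?_)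
      · rw [hv.mul, hv.mul]
        exact mul_le_mul_of_nonneg_right hab (hv.nonneg _)
      · rw [hv.mul, hv.mul]
        exact mul_le_mul_of_nonneg_left hcd (hv.nonneg _)
    · push_cast
      rw [div_add_div _ _ (ne0 hv hb) (ne0 hv hd)]
  zero_mem' := ⟨0, 1, by rw [hv.one]; exact one_ne_zero, by rw [hv.zero]; exact hv.nonneg _,
    by simp⟩
  neg_mem' := by
    rintro x ⟨a, b, hb, hab, rfl⟩
    refine ⟨-a, b, hb, by rw [hv.neg]; exact hab, ?_⟩
    push_cast
    rw [neg_div]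

lemma le_Tv (hv : IsMs ϖ v) : A ≤ Tv hv := fun a ha =>
  ⟨⟨a, ha⟩, 1, by rw [hv.one]; exact one_ne_zero, by simp⟩

lemma le_Rv (hv : IsMs ϖ v) : A ≤ Rv hv := fun a ha =>
  ⟨⟨a, ha⟩, 1, by rw [hv.one]; exact one_ne_zero, by rw [hv.one]; exact hv.le_one _, by simp⟩

lemma Tv_local (hv : IsMs ϖ v) : IsLocalRing (Tv hv) := by
  apply IsLocalRing.of_isUnit_or_isUnit_one_sub_self
  have hu : ∀ (a b : A) (ha : v a ≠ 0) (hb : v b ≠ 0) (h : (a : Ω) / (b : Ω) ∈ Tv hv),
      IsUnit (⟨(a : Ω) / (b : Ω), h⟩ : Tv hv) := by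
    intro a b ha hb h
    refine IsUnit.of_mul_eq_one (⟨(b : Ω) / (a : Ω), ⟨b, a, ha, rfl⟩⟩ : Tv hv) ?_
    apply Subtype.ext
    have := ne0 hv ha
    have := ne0 hv hb
    show (a : Ω) / (b : Ω) * ((b : Ω) / (a : Ω)) = 1
    field_simp
  rintro ⟨x, a, b, hb, rfl⟩
  by_cases ha : v a = 0
  · right
    have h1 : v (b - a) = v b := by
      have := hv.add_eq_left (a := b) (b := -a) (by
        rw [hv.neg, ha]; exact lt_of_le_of_ne (hv.nonneg _) (Ne.symm hb))
      rwa [← sub_eq_add_neg] at this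
    have h2 : ((b - a : A) : Ω) / (b : Ω) ∈ Tv hv := ⟨b - a, b, hb, rfl⟩
    have h3 := hu (b - a) b (by rw [h1]; exact hb) hb h2
    convert h3 using 1
    apply Subtype.ext
    have := ne0 hv hb
    push_cast
    field_simp
  · left
    exact hu a b ha hb _

lemma Tv_IC (hA : IC A) (hv : IsMs ϖ v) : IC (Tv hv) := by
  apply IC_of_isIntegral
  intro x hx
  let M : Submonoid A :=
    { carrier := {b | v b ≠ 0}
      one_mem' := by
        show v 1 ≠ 0
        rw [hv.one]; exact one_ne_zero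
      mul_mem' := by
        intro a b ha hb
        show v (a * b) ≠ 0
        rw [hv.mul]; exact mul_ne_zero ha hb }
  let _ : Algebra A (Tv hv) := (Subring.inclusion (le_Tv hv)).toAlgebra
  have _ : IsScalarTower A (Tv hv) Ω := IsScalarTower.of_algebraMap_eq fun a => rfl
  have _ : IsLocalization M (Tv hv) :=
    { map_units := by
        rintro ⟨b, hb⟩
        refine IsUnit.of_mul_eq_one (⟨1 / (b : Ω), ⟨1, b, hb, by simp⟩⟩ : Tv hv) ?_
        apply Subtype.ext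
        have := ne0 hv hb
        show (b : Ω) * (1 / (b : Ω)) = 1
        field_simp
      surj := by
        rintro ⟨x, a, b, hb, rfl⟩
        refine ⟨(a, ⟨b, hb⟩), ?_⟩
        apply Subtype.ext
        have := ne0 hv hb
        show (a : Ω) / (b : Ω) * (b : Ω) = (a : Ω)
        field_simp
      exists_of_eq := by
        intro a b hab
        refine ⟨1, ?_⟩
        have : (a : Ω) = (b : Ω) := congrArg (fun z : Tv hv => (z : Ω)) hab
        rw [Subtype.ext this] }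
  obtain ⟨m, hm⟩ := IsIntegral.exists_multiple_integral_of_isLocalization M x hx
  have h1 : (m : A) • x ∈ A := hA.mem_of_isIntegral hm
  refine ⟨⟨_, h1⟩, m, m.2, ?_⟩
  have := ne0 hv m.2
  show x = ((m : A) : Ω) * x / ((m : A) : Ω)
  field_simp

lemma PV_Rv (hv : IsMs ϖ v) : PV (Tv hv) (Rv hv) where
  le := by
    rintro x ⟨a, b, hb, -, rfl⟩
    exact ⟨a, b, hb, rfl⟩
  nu_sub := by
    rintro x ⟨⟨a, b, hb, rfl⟩, h⟩
    rcases h with h | h
    · rw [h]; exact (Rv hv).zero_mem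
    · refine ⟨a, b, hb, ?_, rfl⟩
      by_cases ha : v a = 0
      · rw [ha]; exact hv.nonneg _
      · exact absurd ⟨b, a, ha, by rw [inv_div]⟩ h
  val := by
    rintro x ⟨a, b, hb, rfl⟩
    rcases le_or_gt (v a) (v b) with h | h
    · left
      exact ⟨a, b, hb, h, rfl⟩
    · right
      exact ⟨b, a, ne_of_gt (lt_of_le_of_lt (hv.nonneg _) h), h.le, by rw [inv_div]⟩

end Caux

open Caux in
theorem m_C (h : StHP.{u}) : StC.{u} := by
  intro Ω _ _ _ p _ S A hA X hX v hv lam hlam x₁ hx₁ x₂ hx₂ h12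
  have hpA : S.pw lam ∈ A := S.pw_mem hA hlam.le
  have hvp : v ⟨S.pw lam, hpA⟩ ≠ 0 := by
    rw [hv.pw S hlam.le hpA]
    positivity
  have hsub : (A : Set Ω) ⊆ Rv hv := le_Rv hv
  have hnu : S.pw lam ∉ nu (Tv hv) := by
    rw [not_mem_nu_iff (le_Tv hv hpA)]
    refine ⟨S.pw_ne_zero lam, 1, ⟨S.pw lam, hpA⟩, hvp, ?_⟩
    simp
  obtain ⟨c, ⟨a, b, hb, hab, rfl⟩, h1, h2⟩ := h Ω (Tv hv) (Rv hv) (Tv_local hv) (Tv_IC hA hv)
    (PV_Rv hv) X hX (S.pw lam) (le_Rv hv hpA) hnu x₁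
    (icl_mono (Set.union_subset_union_left _ hsub) hx₁) x₂
    (icl_mono (Set.union_subset_union_left _ hsub) hx₂)
    (icl_mono (Set.union_subset_union_left _ hsub) h12)
  exact ⟨a, b, hab, hb, h1, h2⟩

end Pool.Agent.Helper44.SPL
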