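import Pool.Agent.Helper44.SPL.St

/-!
# MERGE: one Laurent step in a perfect ring
-/

set_option autoImplicit false

namespace Pool.Agent.Helper44.SPL

universe u

namespace MERGE

/-! ## roots in perfect rings -/

set_option linter.unusedSectionVars false

section roots

variable (p : ℕ) [Fact p.Prime] {B : Type u} [CommRing B] [CharP B p] [PerfectRing B p]

theorem rt_pow (k : ℕ) (b : B) : rt p k b ^ p ^ k = b :=
  iterate_frobeniusEquiv_symm_pow_p_pow B p b k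

theorem pow_inj (k : ℕ) {x y : B} (h : x ^ p ^ k = y ^ p ^ k) : x = y :=
  (bijective_iterateFrobenius B p k).1 h

theorem rt_eq (k : ℕ) {x b : B} (h : x ^ p ^ k = b) : rt p k b = x :=
  pow_inj p k (by rw [rt_pow, h])

theorem rt_mul (k : ℕ) (x y : B) : rt p k (x * y) = rt p k x * rt p k y :=
  rt_eq p k (by rw [mul_pow, rt_pow, rt_pow])

theorem rt_one (k : ℕ) : rt p k (1 : B) = 1 := rt_eq p k (one_pow _)

theorem rt_add (k : ℕ) (x y : B) : rt p k (x + y) = rt p k x + rt p k y :=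
  rt_eq p k (by rw [add_pow_char_pow, rt_pow, rt_pow])

theorem rt_rt (j k : ℕ) (x : B) : rt p (j + k) x ^ p ^ k = rt p j x := by
  symm
  apply rt_eq
  rw [← pow_mul, ← pow_add, add_comm k j, rt_pow]

theorem rt_succ (j : ℕ) (x : B) : rt p 1 (rt p j x) = rt p (j + 1) x := by
  apply rt_eq
  rw [pow_one]
  have := rt_rt p j 1 x
  rwa [pow_one] at this

theorem rt_map (k : ℕ) {S : Type u} [CommRing S] [CharP S p] [PerfectRing S p] (f : B →+* S)
    (x : B) : f (rt p k x) = rt p k (f x) :=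
  (rt_eq p k (by rw [← map_pow, rt_pow])).symm

include p in
theorem reduced (x : B) (n : ℕ) (h : x ^ n = 0) : x = 0 := by
  apply pow_inj p n
  have hp : 0 < p := (Fact.out : p.Prime).pos
  rw [zero_pow (pow_ne_zero _ hp.ne')]
  have h1 : n ≤ p ^ n := (Nat.lt_pow_self (Fact.out : p.Prime).one_lt).le
  obtain ⟨c, hc⟩ := Nat.exists_eq_add_of_le h1
  rw [hc, pow_add, h, zero_mul]

theorem charP_alg (R : Type u) [CommRing R] [Nontrivial R] [Algebra B R] : CharP R p := by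
  have h : (p : R) = 0 := by
    have h1 : algebraMap B R (p : B) = 0 := by rw [CharP.cast_eq_zero, map_zero]
    rwa [map_natCast] at h1
  exact ringChar.of_eq (CharP.ringChar_of_prime_eq_zero (Fact.out : p.Prime) h)

theorem loc_perfect (s : B) (R : Type u) [CommRing R] [Algebra B R] [IsLocalization.Away s R]
    [CharP R p] : PerfectRing R p := by
  have hp : 0 < p := (Fact.out : p.Prime).pos
  have hunit : IsUnit (algebraMap B R s) := IsLocalization.Away.algebraMap_isUnit s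
  have hred : IsReduced R := by
    refine ⟨fun z hz => ?_⟩
    obtain ⟨n, hn⟩ := hz
    obtain ⟨k, a, ha⟩ := IsLocalization.Away.surj s z
    have h1 : algebraMap B R (a ^ n) = algebraMap B R 0 := by
      rw [map_pow, ← ha, mul_pow, hn, zero_mul, map_zero]
    obtain ⟨⟨c, l, rfl⟩, hc⟩ := IsLocalization.exists_of_eq (M := Submonoid.powers s) h1
    simp only [mul_zero] at hc
    have h2 : s ^ l * a = 0 := by
      rcases Nat.eq_zero_or_pos n with rfl | hn0
      · rw [pow_zero, mul_one] at hc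
        rw [hc, zero_mul]
      · apply reduced p (s ^ l * a) n
        rw [mul_pow]
        obtain ⟨n', rfl⟩ := Nat.exists_eq_succ_of_ne_zero hn0.ne'
        rw [pow_succ (s ^ l), mul_assoc, hc, mul_zero]
    have h3 : algebraMap B R s ^ l * (z * algebraMap B R s ^ k) = 0 := by
      rw [ha, ← map_pow, ← map_mul, h2, map_zero]
    have h4 := (hunit.pow l).mul_right_eq_zero.1 h3
    exact (hunit.pow k).mul_left_eq_zero.1 h4
  refine PerfectRing.ofSurjective R p fun z => ?_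
  obtain ⟨k, a, ha⟩ := IsLocalization.Away.surj s z
  obtain ⟨w, hw⟩ := hunit.exists_right_inv
  refine ⟨algebraMap B R (rt p 1 (a * s ^ (k * (p - 1)))) * w ^ k, ?_⟩
  rw [frobenius_def, mul_pow, ← map_pow]
  have h1 := rt_pow p 1 (a * s ^ (k * (p - 1)))
  rw [pow_one] at h1
  rw [h1, map_mul, map_pow, ← ha]
  have h2 : k + k * (p - 1) = k * p := by
    have h3 : p - 1 + 1 = p := Nat.sub_add_cancel hp
    calc k + k * (p - 1) = k * (p - 1 + 1) := by ring
      _ = k * p := by rw [h3]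
  calc z * algebraMap B R s ^ k * algebraMap B R s ^ (k * (p - 1)) * (w ^ k) ^ p
      = z * (algebraMap B R s ^ (k + k * (p - 1)) * w ^ (k * p)) := by
        rw [pow_add, pow_mul w]
        ring
    _ = z := by rw [h2, ← mul_pow, hw, one_pow, mul_one]

end roots

section sub

variable (p : ℕ) [Fact p.Prime] {B : Type u} [CommRing B] [CharP B p] [PerfectRing B p]
  {R : Type u} [CommRing R] [CharP R p] [PerfectRing R p] [Algebra B R]

theorem sub_perfect (T : Subalgebra B R) (h : ∀ y ∈ T, rt p 1 y ∈ T) : PerfectRing T p := by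
  refine ⟨⟨fun x y hxy => ?_, fun y => ?_⟩⟩
  · apply Subtype.ext
    apply pow_inj p 1
    rw [pow_one]
    exact congrArg Subtype.val hxy
  · refine ⟨⟨rt p 1 (y : R), h y y.2⟩, ?_⟩
    apply Subtype.ext
    have := rt_pow p 1 (y : R)
    rw [pow_one] at this
    exact this

theorem adjoin_rt (G : Set R) (hG : ∀ g ∈ G, rt p 1 g ∈ Algebra.adjoin B G) :
    ∀ y ∈ Algebra.adjoin B G, rt p 1 y ∈ Algebra.adjoin B G := by
  intro y hy
  induction hy using Algebra.adjoin_induction with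
  | mem x hx => exact hG x hx
  | algebraMap b =>
    rw [← rt_map p 1 (algebraMap B R) b]
    exact Subalgebra.algebraMap_mem _ _
  | add x y _ _ hx hy =>
    rw [rt_add]
    exact Subalgebra.add_mem _ hx hy
  | mul x y _ _ hx hy =>
    rw [rt_mul]
    exact Subalgebra.mul_mem _ hx hy

end sub

/-! ## seminorms -/

/-- multiplicative ultrametric seminorm -/
structure VM {A : Type u} [CommRing A] (v : A → ℝ) : Prop where
  nonneg : ∀ a, 0 ≤ v a
  zero : v 0 = 0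
  one : v 1 = 1
  mul : ∀ a b, v (a * b) = v a * v b
  add : ∀ a b, v (a + b) ≤ max (v a) (v b)

section vm

variable {A : Type u} [CommRing A] {v : A → ℝ}

theorem VM.pow (hv : VM v) (a : A) (n : ℕ) : v (a ^ n) = v a ^ n := by
  induction n with
  | zero => rw [pow_zero, pow_zero, hv.one]
  | succ n ih => rw [pow_succ, pow_succ, hv.mul, ih]

theorem VM.neg_one (hv : VM v) : v (-1) = 1 := by
  have h1 : v (-1) * v (-1) = 1 := by rw [← hv.mul, neg_one_mul, neg_neg, hv.one]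
  have h2 := hv.nonneg (-1)
  nlinarith

theorem VM.neg (hv : VM v) (a : A) : v (-a) = v a := by
  rw [← neg_one_mul, hv.mul, hv.neg_one, one_mul]

theorem VM.sub (hv : VM v) (a b : A) : v (a - b) ≤ max (v a) (v b) := by
  rw [sub_eq_add_neg]
  refine (hv.add _ _).trans ?_
  rw [hv.neg]

theorem vm {ϖ : A} (h : IsMs ϖ v) : VM v := ⟨h.nonneg, h.zero, h.one, h.mul, h.add⟩

theorem VM.ext (hv : VM v) (s : A) (hs : v s ≠ 0) (R : Type u) [CommRing R] [Algebra A R]
    [IsLocalization.Away s R] : ∃ v' : R → ℝ, VM v' ∧ ∀ a, v' (algebraMap A R a) = v a := by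
  have hsp : 0 < v s := lt_of_le_of_ne (hv.nonneg s) hs.symm
  choose n a ha using fun z : R => IsLocalization.Away.surj s z
  have key : ∀ (z : R) (k : ℕ) (b : A), z * algebraMap A R s ^ k = algebraMap A R b →
      v (a z) / v s ^ n z = v b / v s ^ k := by
    intro z k b hb
    have h1 : algebraMap A R (a z * s ^ k) = algebraMap A R (b * s ^ n z) := by
      rw [map_mul, map_mul, map_pow, map_pow, ← ha z, ← hb]
      ring
    obtain ⟨⟨c, l, rfl⟩, hc⟩ := IsLocalization.exists_of_eq (M := Submonoid.powers s) h1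
    have h2 := congrArg v hc
    simp only [hv.mul, hv.pow] at h2
    have h3 : v s ^ l ≠ 0 := pow_ne_zero _ hs
    have h4 := mul_left_cancel₀ h3 h2
    rw [div_eq_div_iff (pow_ne_zero _ hs) (pow_ne_zero _ hs)]
    exact h4
  refine ⟨fun z => v (a z) / v s ^ n z, ⟨?_, ?_, ?_, ?_, ?_⟩, ?_⟩
  · intro z
    exact div_nonneg (hv.nonneg _) (pow_nonneg hsp.le _)
  · rw [key 0 0 0 (by simp), hv.zero, zero_div]
  · rw [key 1 0 1 (by simp), hv.one, pow_zero, div_one]
  · intro z z'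
    rw [key (z * z') (n z + n z') (a z * a z') (by
      rw [map_mul, ← ha z, ← ha z', pow_add]
      ring), hv.mul, pow_add, mul_div_mul_comm]
  · intro z z'
    rw [key (z + z') (n z + n z') (a z * s ^ n z' + a z' * s ^ n z) (by
      rw [map_add, map_mul, map_mul, map_pow, map_pow, ← ha z, ← ha z', pow_add]
      ring)]
    have h1 := hv.add (a z * s ^ n z') (a z' * s ^ n z)
    rw [hv.mul, hv.mul, hv.pow, hv.pow] at h1
    rw [div_le_iff₀ (pow_pos hsp _)]
    refine h1.trans (max_le ?_ ?_)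
    · have h2 : v (a z) * v s ^ n z' = v (a z) / v s ^ n z * v s ^ (n z + n z') := by
        rw [pow_add]
        field_simp
      rw [h2]
      exact mul_le_mul_of_nonneg_right (le_max_left _ _) (pow_nonneg hsp.le _)
    · have h2 : v (a z') * v s ^ n z = v (a z') / v s ^ n z' * v s ^ (n z + n z') := by
        rw [pow_add]
        field_simp
      rw [h2]
      exact mul_le_mul_of_nonneg_right (le_max_right _ _) (pow_nonneg hsp.le _)
  · intro b
    have h1 := key (algebraMap A R b) 0 b (by simp)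
    rw [pow_zero, div_one] at h1
    exact h1

theorem ms_adjoin {ϖ : A} (hv : IsMs ϖ v) {R : Type u} [CommRing R] [Algebra A R] {v' : R → ℝ}
    (hv' : VM v') (hc : ∀ a, v' (algebraMap A R a) = v a) (G : Set R) (hG : ∀ g ∈ G, v' g ≤ 1) :
    IsMs (algebraMap A (Algebra.adjoin A G) ϖ) (fun y : Algebra.adjoin A G => v' y) := by
  refine ⟨fun y => hv'.nonneg _, hv'.zero, hv'.one, fun x y => hv'.mul _ _,
    fun x y => hv'.add _ _, ?_, ?_⟩
  · rintro ⟨y, hy⟩
    change v' y ≤ 1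
    induction hy using Algebra.adjoin_induction with
    | mem x hx => exact hG x hx
    | algebraMap b =>
      rw [hc]
      exact hv.le_one b
    | add x y _ _ hx hy => exact (hv'.add x y).trans (max_le hx hy)
    | mul x y _ _ hx hy =>
      rw [hv'.mul]
      exact mul_le_one₀ hx (hv'.nonneg y) hy
  · change v' (algebraMap A R ϖ) = 1 / 2
    rw [hc]
    exact hv.pi

theorem rt_le_one (p : ℕ) [Fact p.Prime] [CharP A p] [PerfectRing A p] (hv : VM v) (f : A)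
    (hf : v f ≤ 1) (j : ℕ) : v (rt p j f) ≤ 1 := by
  have hp : 0 < p := (Fact.out : p.Prime).pos
  have h1 : v (rt p j f) ^ p ^ j ≤ 1 := by rwa [← hv.pow, rt_pow]
  exact (pow_le_one_iff_of_nonneg (hv.nonneg _) (pow_ne_zero _ hp.ne')).1 h1

theorem rt_val (p : ℕ) [Fact p.Prime] [CharP A p] [PerfectRing A p] {ϖ : A} (hv : IsMs ϖ v)
    (l j : ℕ) : v (rt p l ϖ ^ j) = (1 / 2 : ℝ) ^ ((j : ℝ) / (p : ℝ) ^ l) := by
  have hp : 0 < p := (Fact.out : p.Prime).pos
  have hpR : (0 : ℝ) < (p : ℝ) ^ l := by positivity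
  have h1 : v (rt p l ϖ) ^ p ^ l = 1 / 2 := by rw [← (vm hv).pow, rt_pow, hv.pi]
  have h2 : v (rt p l ϖ) = (1 / 2 : ℝ) ^ (1 / (p : ℝ) ^ l) := by
    rw [← h1, ← Real.rpow_natCast, ← Real.rpow_mul (hv.nonneg _)]
    push_cast
    rw [mul_one_div_cancel hpR.ne', Real.rpow_one]
  rw [(vm hv).pow, h2, ← Real.rpow_natCast, ← Real.rpow_mul (by norm_num)]
  congr 1
  ring

end vm

/-! ## monomials -/

section mono

variable (p : ℕ) [Fact p.Prime] {R : Type u} [CommRing R] [CharP R p] [PerfectRing R p]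

theorem mono_mul (f g : R) (h : f * g = 1) (j j' n n' : ℕ) :
    ∃ i k : ℕ, rt p j f ^ n * rt p j' g ^ n' = rt p i f ^ k ∨
      rt p j f ^ n * rt p j' g ^ n' = rt p i g ^ k := by
  have h1 : rt p (j + j') f ^ p ^ j' = rt p j f := rt_rt p j j' f
  have h2 : rt p (j + j') g ^ p ^ j = rt p j' g := by
    rw [add_comm j j']
    exact rt_rt p j' j g
  have h3 : rt p (j + j') f * rt p (j + j') g = 1 := by rw [← rt_mul, h, rt_one]
  rw [← h1, ← h2, ← pow_mul, ← pow_mul]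
  rcases le_total (p ^ j' * n) (p ^ j * n') with h4 | h4
  · obtain ⟨c, hc⟩ := Nat.exists_eq_add_of_le h4
    refine ⟨j + j', c, Or.inr ?_⟩
    rw [hc, pow_add, ← mul_assoc, ← mul_pow, h3, one_pow, one_mul]
  · obtain ⟨c, hc⟩ := Nat.exists_eq_add_of_le h4
    refine ⟨j + j', c, Or.inl ?_⟩
    rw [hc, pow_add, mul_assoc, mul_comm (rt p (j + j') f ^ c), ← mul_assoc, ← mul_pow, h3,
      one_pow, one_mul]

theorem mono_same (f : R) (j j' n n' : ℕ) :
    rt p j f ^ n * rt p j' f ^ n' = rt p (j + j') f ^ (p ^ j' * n + p ^ j * n') := by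
  have h1 : rt p (j + j') f ^ p ^ j' = rt p j f := rt_rt p j j' f
  have h2 : rt p (j + j') f ^ p ^ j = rt p j' f := by
    rw [add_comm j j']
    exact rt_rt p j' j f
  rw [pow_add, pow_mul, pow_mul, h1, h2]

/-- the monomials -/
def Mon (f g : R) (h : f * g = 1) : Submonoid R where
  carrier := {z | ∃ j n : ℕ, z = rt p j f ^ n ∨ z = rt p j g ^ n}
  one_mem' := ⟨0, 0, Or.inl (pow_zero _).symm⟩
  mul_mem' := by
    rintro x y ⟨j, n, hx⟩ ⟨j', n', hy⟩
    rcases hx with rfl | rfl <;> rcases hy with rfl | rfl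
    · exact ⟨_, _, Or.inl (mono_same p f j j' n n')⟩
    · exact mono_mul p f g h j j' n n'
    · obtain ⟨i, k, hk⟩ := mono_mul p f g h j' j n' n
      rw [mul_comm (rt p j g ^ n)]
      exact ⟨i, k, hk⟩
    · exact ⟨_, _, Or.inr (mono_same p g j j' n n')⟩

theorem decomp {B : Type u} [CommRing B] [Algebra B R] (f g : R) (h : f * g = 1) (d : R)
    (hd : d ∈ Algebra.adjoin B ({z : R | ∃ j, z = rt p j f} ∪ {z : R | ∃ j, z = rt p j g})) :
    ∃ d₁ ∈ Algebra.adjoin B {z : R | ∃ j, z = rt p j f},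
      ∃ d₂ ∈ Algebra.adjoin B {z : R | ∃ j, z = rt p j g}, d = d₁ + d₂ := by
  have h1 : d ∈ Submodule.span B (Submonoid.closure
      ({z : R | ∃ j, z = rt p j f} ∪ {z : R | ∃ j, z = rt p j g}) : Set R) := by
    rw [← Algebra.adjoin_eq_span]
    exact hd
  have h2 : Submonoid.closure ({z : R | ∃ j, z = rt p j f} ∪ {z : R | ∃ j, z = rt p j g}) ≤
      Mon p f g h := by
    rw [Submonoid.closure_le]
    rintro z (⟨j, rfl⟩ | ⟨j, rfl⟩)
    · exact ⟨j, 1, Or.inl (pow_one _).symm⟩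
    · exact ⟨j, 1, Or.inr (pow_one _).symm⟩
  have h3 := Submodule.span_mono (R := B) h2 h1
  clear h1 hd
  induction h3 using Submodule.span_induction with
  | mem x hx =>
    obtain ⟨j, n, rfl | rfl⟩ := hx
    · exact ⟨_, Subalgebra.pow_mem _ (Algebra.subset_adjoin (by exact ⟨j, rfl⟩)) n, 0,
        Subalgebra.zero_mem _, (add_zero _).symm⟩
    · exact ⟨0, Subalgebra.zero_mem _, _,
        Subalgebra.pow_mem _ (Algebra.subset_adjoin (by exact ⟨j, rfl⟩)) n, (zero_add _).symm⟩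
  | zero => exact ⟨0, Subalgebra.zero_mem _, 0, Subalgebra.zero_mem _, (add_zero _).symm⟩
  | add x y _ _ hx hy =>
    obtain ⟨a, ha, b, hb, rfl⟩ := hx
    obtain ⟨a', ha', b', hb', rfl⟩ := hy
    exact ⟨a + a', Subalgebra.add_mem _ ha ha', b + b', Subalgebra.add_mem _ hb hb', by ring⟩
  | smul c x _ hx =>
    obtain ⟨a, ha, b, hb, rfl⟩ := hx
    exact ⟨c • a, Subalgebra.smul_mem _ ha c, c • b, Subalgebra.smul_mem _ hb c, smul_add _ _ _⟩

end mono

/-! ## the two rings -/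

section core

variable (p : ℕ) [Fact p.Prime] {B : Type u} [CommRing B] [CharP B p] [PerfectRing B p]

/-- closure of the generators under roots -/
theorem gens_rt {R : Type u} [CommRing R] [CharP R p] [PerfectRing R p] [Algebra B R] (f : R) :
    ∀ y ∈ Algebra.adjoin B {z : R | ∃ j, z = rt p j f},
      rt p 1 y ∈ Algebra.adjoin B {z : R | ∃ j, z = rt p j f} := by
  refine adjoin_rt p _ ?_
  rintro g ⟨j, rfl⟩
  rw [rt_succ]
  exact Algebra.subset_adjoin ⟨j + 1, rfl⟩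

theorem gens2_rt {R : Type u} [CommRing R] [CharP R p] [PerfectRing R p] [Algebra B R] (f g : R) :
    ∀ y ∈ Algebra.adjoin B ({z : R | ∃ j, z = rt p j f} ∪ {z : R | ∃ j, z = rt p j g}),
      rt p 1 y ∈ Algebra.adjoin B ({z : R | ∃ j, z = rt p j f} ∪ {z : R | ∃ j, z = rt p j g}) := by
  refine adjoin_rt p _ ?_
  rintro x (⟨j, rfl⟩ | ⟨j, rfl⟩)
  · rw [rt_succ]
    exact Algebra.subset_adjoin (Or.inl ⟨j + 1, rfl⟩)
  · rw [rt_succ]
    exact Algebra.subset_adjoin (Or.inr ⟨j + 1, rfl⟩)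

theorem exists_exp (lam lam' : ℝ) (h0 : 0 < lam') (h1 : lam' < lam) :
    ∃ l j : ℕ, lam' ≤ (j : ℝ) / (p : ℝ) ^ l ∧ (j : ℝ) / (p : ℝ) ^ l < lam := by
  have hp : (1 : ℝ) < p := by exact_mod_cast (Fact.out : p.Prime).one_lt
  obtain ⟨l, hl⟩ := pow_unbounded_of_one_lt (1 / (lam - lam')) hp
  have hd : 0 < lam - lam' := by linarith
  have hpl : (0 : ℝ) < (p : ℝ) ^ l := by positivity
  refine ⟨l, ⌈lam' * (p : ℝ) ^ l⌉₊, ?_, ?_⟩
  · rw [le_div_iff₀ hpl]
    exact Nat.le_ceil _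
  · rw [div_lt_iff₀ hpl]
    have h2 := Nat.ceil_lt_add_one (mul_nonneg h0.le hpl.le)
    rw [div_lt_iff₀ hd] at hl
    nlinarith

theorem bound_step {ϖ : B} {A' : Type u} [CommRing A'] [Algebra B A'] {w : A' → ℝ}
    (hw : IsMs (algebraMap B A' ϖ) w) (y : A') (N : ℕ) (b : B)
    (hb : y * algebraMap B A' ϖ ^ N = algebraMap B A' b) :
    w (algebraMap B A' b) ≤ (1 / 2 : ℝ) ^ N := by
  rw [← hb, hw.mul, (vm hw).pow, hw.pi]
  exact mul_le_of_le_one_left (by positivity) (hw.le_one y)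

theorem fin_step {ϖ : B} {A' : Type u} [CommRing A'] [Algebra B A'] {w : A' → ℝ}
    (hw : IsMs (algebraMap B A' ϖ) w) {v : B → ℝ} (hv : IsMs ϖ v)
    (hwv : ∀ b, w (algebraMap B A' b) = v b) (x' y' d' : A') (l j k : ℕ)
    (hy : y' = x' - algebraMap B A' (rt p l ϖ ^ j) * d') (x : B)
    (hx : algebraMap B A' x = algebraMap B A' (rt p k ϖ) * y') (lam lam' : ℝ)
    (h1 : lam' ≤ (j : ℝ) / (p : ℝ) ^ l) (h2 : lam' < lam) (g f₀ : B)
    (H : w (algebraMap B A' g * x' - algebraMap B A' f₀) ≤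
      (1 / 2 : ℝ) ^ lam * w (algebraMap B A' g)) :
    v (g * x - rt p k ϖ * f₀) ≤ (1 / 2 : ℝ) ^ lam' * v g := by
  rw [← hwv, map_sub, map_mul, map_mul, hx, hy]
  have e1 : algebraMap B A' g * (algebraMap B A' (rt p k ϖ) *
      (x' - algebraMap B A' (rt p l ϖ ^ j) * d')) - algebraMap B A' (rt p k ϖ) *
        algebraMap B A' f₀ = algebraMap B A' (rt p k ϖ) *
          ((algebraMap B A' g * x' - algebraMap B A' f₀) -
            algebraMap B A' g * (algebraMap B A' (rt p l ϖ ^ j) * d')) := by ring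
  rw [e1, hw.mul]
  have h3 : (0 : ℝ) ≤ v g := hv.nonneg g
  refine (mul_le_of_le_one_left (hw.nonneg _) (hw.le_one _)).trans ?_
  refine ((vm hw).sub _ _).trans (max_le ?_ ?_)
  · refine H.trans ?_
    rw [hwv]
    refine mul_le_mul_of_nonneg_right ?_ h3
    exact Real.rpow_le_rpow_of_exponent_ge (by norm_num) (by norm_num) h2.le
  · rw [hw.mul, hw.mul, hwv, hwv, rt_val p hv l j, mul_comm (v g)]
    refine mul_le_mul_of_nonneg_right ?_ h3
    refine (mul_le_of_le_one_right (by positivity) (hw.le_one _)).trans ?_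
    exact Real.rpow_le_rpow_of_exponent_ge (by norm_num) (by norm_num) h1

theorem ms_comp {A A' : Type u} [CommRing A] [CommRing A'] {ϖ : A} {ϖ' : A'} {w : A' → ℝ}
    (hw : IsMs ϖ' w) (f : A →+* A') (hf : f ϖ = ϖ') : IsMs ϖ (fun a => w (f a)) := by
  refine ⟨fun a => hw.nonneg _, ?_, ?_, fun a b => ?_, fun a b => ?_, fun a => hw.le_one _, ?_⟩
  · rw [map_zero, hw.zero]
  · rw [map_one, hw.one]
  · rw [map_mul, hw.mul]
  · rw [map_add]
    exact hw.add _ _
  · rw [hf, hw.pi]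

/-- the gluing step -/
theorem glue (h : StUF.{u}) (ϖ : B) (hϖ : ϖ ∈ nonZeroDivisors B) (e : B) (m : ℕ)
    (R₁ R₂ : Type u) [CommRing R₁] [CommRing R₂] [CharP R₁ p] [CharP R₂ p] [PerfectRing R₁ p]
    [PerfectRing R₂ p] [Algebra B R₁] [Algebra R₁ R₂] [Algebra B R₂] [IsScalarTower B R₁ R₂]
    [IsLocalization.Away ϖ R₁] [IsLocalization.Away (algebraMap B R₁ e) R₂] [Nontrivial R₂]
    (E : R₁) (E' : R₂) (hE : algebraMap B R₁ ϖ ^ m * E = algebraMap B R₁ e)
    (hE' : algebraMap B R₂ e * E' = algebraMap B R₂ ϖ ^ m)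
    (hEE : algebraMap R₁ R₂ E * E' = 1)
    (x₁ : Algebra.adjoin B {z : R₁ | ∃ j, z = rt p j E})
    (x₂ : Algebra.adjoin B {z : R₂ | ∃ j, z = rt p j E'}) (F G : (B → ℝ) → B)
    (lam lam' : ℝ) (k : ℕ) (h0 : 0 < lam') (hlam : lam' < lam)
    (hFG : ∀ v, IsMs ϖ v → v (F v) ≤ v (G v) ∧ v (G v) ≠ 0)
    (H₁ : ∀ w : Algebra.adjoin B {z : R₁ | ∃ j, z = rt p j E} → ℝ,
      IsMs (algebraMap B (Algebra.adjoin B {z : R₁ | ∃ j, z = rt p j E}) ϖ) w →
        w (algebraMap B _ (G (w ∘ algebraMap B _)) * x₁ - algebraMap B _ (F (w ∘ algebraMap B _))) ≤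
          (1 / 2 : ℝ) ^ lam * w (algebraMap B _ (G (w ∘ algebraMap B _))))
    (H₂ : ∀ w : Algebra.adjoin B {z : R₂ | ∃ j, z = rt p j E'} → ℝ,
      IsMs (algebraMap B (Algebra.adjoin B {z : R₂ | ∃ j, z = rt p j E'}) ϖ) w →
        w (algebraMap B _ (G (w ∘ algebraMap B _)) * x₂ - algebraMap B _ (F (w ∘ algebraMap B _))) ≤
          (1 / 2 : ℝ) ^ lam * w (algebraMap B _ (G (w ∘ algebraMap B _)))) :
    ∃ x : B, ∀ v, IsMs ϖ v → v (G v * x - rt p k ϖ * F v) ≤ (1 / 2 : ℝ) ^ lam' * v (G v) := by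
  classical
  have hp : 0 < p := (Fact.out : p.Prime).pos
  set f : R₂ := algebraMap R₁ R₂ E with hf
  have hϖu : IsUnit (algebraMap B R₁ ϖ) := IsLocalization.Away.algebraMap_isUnit ϖ
  have hϖu2 : IsUnit (algebraMap B R₂ ϖ) := by
    rw [IsScalarTower.algebraMap_apply B R₁ R₂]
    exact hϖu.map _
  -- the big ring
  set T := Algebra.adjoin B ({z : R₂ | ∃ j, z = rt p j f} ∪ {z : R₂ | ∃ j, z = rt p j E'}) with hT
  have hTn : Nontrivial T := ⟨⟨0, 1, fun h => zero_ne_one (congrArg Subtype.val h : (0 : R₂) = 1)⟩⟩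
  have hTc : CharP T p := charP_alg (B := B) p T
  have hTp : PerfectRing T p := sub_perfect p T (gens2_rt p f E')
  have hTϖ : algebraMap B T ϖ ∈ nonZeroDivisors T := by
    rw [mem_nonZeroDivisors_iff_right]
    intro z hz
    apply Subtype.ext
    have h1 : (z : R₂) * algebraMap B R₂ ϖ = 0 := congrArg Subtype.val hz
    exact hϖu2.mul_left_eq_zero.1 h1
  -- the two maps
  have hin₁ : ∀ y ∈ Algebra.adjoin B {z : R₁ | ∃ j, z = rt p j E}, algebraMap R₁ R₂ y ∈
      Algebra.adjoin B {z : R₂ | ∃ j, z = rt p j f} := by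
    intro y hy
    induction hy using Algebra.adjoin_induction with
    | mem x hx =>
      obtain ⟨j, rfl⟩ := hx
      rw [rt_map p j (algebraMap R₁ R₂) E]
      exact Algebra.subset_adjoin ⟨j, rfl⟩
    | algebraMap b =>
      rw [← IsScalarTower.algebraMap_apply B R₁ R₂]
      exact Subalgebra.algebraMap_mem _ _
    | add x y _ _ hx hy =>
      rw [map_add]
      exact Subalgebra.add_mem _ hx hy
    | mul x y _ _ hx hy =>
      rw [map_mul]
      exact Subalgebra.mul_mem _ hx hy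
  have hle₁ : Algebra.adjoin B {z : R₂ | ∃ j, z = rt p j f} ≤ T :=
    Algebra.adjoin_mono Set.subset_union_left
  have hle₂ : Algebra.adjoin B {z : R₂ | ∃ j, z = rt p j E'} ≤ T :=
    Algebra.adjoin_mono Set.subset_union_right
  -- surjectivity onto images
  have hlift : ∀ d ∈ Algebra.adjoin B {z : R₂ | ∃ j, z = rt p j f},
      ∃ d' ∈ Algebra.adjoin B {z : R₁ | ∃ j, z = rt p j E}, algebraMap R₁ R₂ d' = d := by
    intro y hy
    induction hy using Algebra.adjoin_induction with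
    | mem x hx =>
      obtain ⟨j, rfl⟩ := hx
      exact ⟨rt p j E, Algebra.subset_adjoin ⟨j, rfl⟩, rt_map p j (algebraMap R₁ R₂) E⟩
    | algebraMap b =>
      exact ⟨algebraMap B R₁ b, Subalgebra.algebraMap_mem _ _,
        (IsScalarTower.algebraMap_apply B R₁ R₂ b).symm⟩
    | add x y _ _ hx hy =>
      obtain ⟨x', hx', rfl⟩ := hx
      obtain ⟨y', hy', rfl⟩ := hy
      exact ⟨x' + y', Subalgebra.add_mem _ hx' hy', map_add _ _ _⟩
    | mul x y _ _ hx hy =>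
      obtain ⟨x', hx', rfl⟩ := hx
      obtain ⟨y', hy', rfl⟩ := hy
      exact ⟨x' * y', Subalgebra.mul_mem _ hx' hy', map_mul _ _ _⟩

  -- ring homomorphisms into T
  let φ₁ : Algebra.adjoin B {z : R₁ | ∃ j, z = rt p j E} →+* T :=
    ((algebraMap R₁ R₂).comp (Subalgebra.val _).toRingHom).codRestrict T
      (fun y => hle₁ (hin₁ y y.2))
  let φ₂ : Algebra.adjoin B {z : R₂ | ∃ j, z = rt p j E'} →+* T :=
    (Subalgebra.inclusion hle₂).toRingHom
  have hφ₁ : ∀ b : B, φ₁ (algebraMap B _ b) = algebraMap B T b := fun b =>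
    Subtype.ext (IsScalarTower.algebraMap_apply B R₁ R₂ b).symm
  have hφ₂ : ∀ b : B, φ₂ (algebraMap B _ b) = algebraMap B T b := fun b => rfl
  have hclaim : ∀ w : T → ℝ, IsMs (algebraMap B T ϖ) w →
      w (φ₁ x₁ - φ₂ x₂) ≤ (1 / 2 : ℝ) ^ lam := by
    intro w hw
    set v : B → ℝ := fun b => w (algebraMap B T b) with hv
    have hvM : IsMs ϖ v := ms_comp hw (algebraMap B T) rfl
    have hw₁ := ms_comp hw φ₁ (hφ₁ ϖ)
    have hw₂ := ms_comp hw φ₂ (hφ₂ ϖ)
    have e₁ : (fun y => w (φ₁ y)) ∘ algebraMap B (Algebra.adjoin B {z : R₁ | ∃ j, z = rt p j E}) =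
        v := by
      funext b
      simp only [Function.comp_apply, hv, hφ₁]
    have e₂ : (fun y => w (φ₂ y)) ∘ algebraMap B (Algebra.adjoin B {z : R₂ | ∃ j, z = rt p j E'}) =
        v := by
      funext b
      simp only [Function.comp_apply, hv, hφ₂]
    have k₁ := H₁ _ hw₁
    have k₂ := H₂ _ hw₂
    rw [e₁] at k₁
    rw [e₂] at k₂
    simp only [map_sub, map_mul, hφ₁] at k₁
    simp only [map_sub, map_mul, hφ₂] at k₂
    have hg : v (G v) ≠ 0 := (hFG v hvM).2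
    have hg' : 0 < w (algebraMap B T (G v)) := lt_of_le_of_ne (hw.nonneg _) (Ne.symm hg)
    have k₃ : w (algebraMap B T (G v) * (φ₁ x₁ - φ₂ x₂)) ≤
        (1 / 2 : ℝ) ^ lam * w (algebraMap B T (G v)) := by
      have e3 : algebraMap B T (G v) * (φ₁ x₁ - φ₂ x₂) =
          (algebraMap B T (G v) * φ₁ x₁ - algebraMap B T (F v)) -
            (algebraMap B T (G v) * φ₂ x₂ - algebraMap B T (F v)) := by ring
      rw [e3]
      exact ((vm hw).sub _ _).trans (max_le k₁ k₂)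
    rw [hw.mul, mul_comm] at k₃
    exact le_of_mul_le_mul_right k₃ hg'
  obtain ⟨l, j, hj1, hj2⟩ := exists_exp p lam lam' h0 hlam
  obtain ⟨d, hd⟩ := h p T (algebraMap B T ϖ) hTϖ (φ₁ x₁ - φ₂ x₂) lam hclaim j l hj2
  obtain ⟨d₁, hd₁, d₂, hd₂, hdd⟩ := decomp p f E' hEE (d : R₂) d.2
  obtain ⟨d₁', hd₁', hdd₁⟩ := hlift d₁ hd₁
  have hrt : ((rt p l (algebraMap B T ϖ) : T) : R₂) = algebraMap B R₂ (rt p l ϖ) := by
    rw [← rt_map p l (algebraMap B T) ϖ]
    rfl
  set y₁ : Algebra.adjoin B {z : R₁ | ∃ j, z = rt p j E} :=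
    x₁ - algebraMap B _ (rt p l ϖ ^ j) * ⟨d₁', hd₁'⟩ with hy₁
  set y₂ : Algebra.adjoin B {z : R₂ | ∃ j, z = rt p j E'} :=
    x₂ - algebraMap B _ (rt p l ϖ ^ j) * ⟨-d₂, Subalgebra.neg_mem _ hd₂⟩ with hy₂
  have hyy : algebraMap R₁ R₂ (y₁ : R₁) = (y₂ : R₂) := by
    have h1 : (algebraMap R₁ R₂ (x₁ : R₁)) - (x₂ : R₂) =
        algebraMap B R₂ (rt p l ϖ) ^ j * (d : R₂) := by
      have h2 := congrArg (Subtype.val : T → R₂) hd
      have h3 : ((rt p l (algebraMap B T ϖ) ^ j * d : T) : R₂) =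
          algebraMap B R₂ (rt p l ϖ) ^ j * (d : R₂) := by
        rw [← hrt]
        rfl
      rw [h3] at h2
      exact h2
    have h2 : ((y₁ : _) : R₁) = (x₁ : R₁) - algebraMap B R₁ (rt p l ϖ ^ j) * d₁' := rfl
    have h3 : ((y₂ : _) : R₂) = (x₂ : R₂) - algebraMap B R₂ (rt p l ϖ ^ j) * (-d₂) := rfl
    rw [h2, h3, map_sub, map_mul, hdd₁, ← IsScalarTower.algebraMap_apply B R₁ R₂, map_pow]
    rw [hdd] at h1
    linear_combination h1
  -- extension of seminorms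
  have hext₁ : ∀ v : B → ℝ, IsMs ϖ v → v e ≤ (1 / 2 : ℝ) ^ m →
      ∃ w : Algebra.adjoin B {z : R₁ | ∃ j, z = rt p j E} → ℝ,
        IsMs (algebraMap B (Algebra.adjoin B {z : R₁ | ∃ j, z = rt p j E}) ϖ) w ∧
          ∀ b, w (algebraMap B _ b) = v b := by
    intro v hv hve
    obtain ⟨v', hv', hc⟩ := (vm hv).ext ϖ (by rw [hv.pi]; norm_num) R₁
    have hE1 : v' E ≤ 1 := by
      have h1 := congrArg v' hE
      rw [hv'.mul, hv'.pow, hc, hc, hv.pi] at h1
      have h2 : (0 : ℝ) < (1 / 2) ^ m := by positivity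
      rw [← h1] at hve
      exact (mul_le_iff_le_one_right h2).1 hve
    exact ⟨_, ms_adjoin hv hv' hc _ (by
      rintro g ⟨j, rfl⟩
      exact rt_le_one p hv' E hE1 j), fun b => hc b⟩
  have hext₂ : ∀ v : B → ℝ, IsMs ϖ v → (1 / 2 : ℝ) ^ m ≤ v e →
      ∃ w : Algebra.adjoin B {z : R₂ | ∃ j, z = rt p j E'} → ℝ,
        IsMs (algebraMap B (Algebra.adjoin B {z : R₂ | ∃ j, z = rt p j E'}) ϖ) w ∧
          ∀ b, w (algebraMap B _ b) = v b := by
    intro v hv hve
    have h2 : (0 : ℝ) < (1 / 2) ^ m := by positivity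
    have hve0 : 0 < v e := h2.trans_le hve
    obtain ⟨v', hv', hc'⟩ := (vm hv).ext ϖ (by rw [hv.pi]; norm_num) R₁
    obtain ⟨v'', hv'', hc''⟩ := hv'.ext (algebraMap B R₁ e) (by rw [hc']; exact hve0.ne') R₂
    have hc : ∀ b, v'' (algebraMap B R₂ b) = v b := by
      intro b
      rw [IsScalarTower.algebraMap_apply B R₁ R₂, hc'', hc']
    have hE1 : v'' E' ≤ 1 := by
      have h1 := congrArg v'' hE'
      rw [hv''.mul, hv''.pow, hc, hc, hv.pi] at h1
      rw [← h1] at hve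
      exact (mul_le_iff_le_one_right hve0).1 hve
    exact ⟨_, ms_adjoin hv hv'' hc _ (by
      rintro g ⟨j, rfl⟩
      exact rt_le_one p hv'' E' hE1 j), fun b => hc b⟩
  -- the element of B
  obtain ⟨N₀, b₀, hb₀⟩ := IsLocalization.Away.surj ϖ (y₁ : R₁)
  set N := N₀ + 1 with hN
  set b := b₀ * ϖ with hb
  have hbR : (y₁ : R₁) * algebraMap B R₁ ϖ ^ N = algebraMap B R₁ b := by
    rw [hN, pow_succ, ← mul_assoc, hb₀, hb, map_mul]
  have hb₁ : y₁ * algebraMap B (Algebra.adjoin B {z : R₁ | ∃ j, z = rt p j E}) ϖ ^ N =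
      algebraMap B _ b := Subtype.ext hbR
  have hb₂ : y₂ * algebraMap B (Algebra.adjoin B {z : R₂ | ∃ j, z = rt p j E'}) ϖ ^ N =
      algebraMap B _ b := by
    apply Subtype.ext
    change (y₂ : R₂) * algebraMap B R₂ ϖ ^ N = algebraMap B R₂ b
    rw [← hyy, IsScalarTower.algebraMap_apply B R₁ R₂ ϖ, IsScalarTower.algebraMap_apply B R₁ R₂ b,
      ← map_pow, ← map_mul, hbR]
  have hvb : ∀ v : B → ℝ, IsMs ϖ v → v b ≤ (1 / 2 : ℝ) ^ ((N : ℕ) : ℝ) := by
    intro v hv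
    rw [Real.rpow_natCast]
    rcases le_total (v e) ((1 / 2 : ℝ) ^ m) with hve | hve
    · obtain ⟨w, hw, hwv⟩ := hext₁ v hv hve
      rw [← hwv]
      exact bound_step hw y₁ N b hb₁
    · obtain ⟨w, hw, hwv⟩ := hext₂ v hv hve
      rw [← hwv]
      exact bound_step hw y₂ N b hb₂
  have hpk : 1 ≤ N * p ^ k := Nat.one_le_iff_ne_zero.2
    (mul_ne_zero (by omega) (pow_ne_zero _ hp.ne'))
  obtain ⟨M, hM⟩ := Nat.exists_eq_add_of_le hpk
  obtain ⟨x, hx⟩ := h p B ϖ hϖ b (N : ℝ) hvb M k (by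
    have hpR : (0 : ℝ) < (p : ℝ) ^ k := by positivity
    rw [div_lt_iff₀ hpR]
    have h1 : ((N * p ^ k : ℕ) : ℝ) = ((1 + M : ℕ) : ℝ) := by rw [hM]
    push_cast at h1
    linarith)
  have hxR : algebraMap B R₁ x = algebraMap B R₁ (rt p k ϖ) * (y₁ : R₁) := by
    have h1 : algebraMap B R₁ ϖ ^ N = algebraMap B R₁ (rt p k ϖ) ^ (1 + M) := by
      have h5 : algebraMap B R₁ (rt p k ϖ) ^ p ^ k = algebraMap B R₁ ϖ := by
        rw [← map_pow, rt_pow]
      rw [← hM, mul_comm, pow_mul, h5]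
    have h2 : IsUnit (algebraMap B R₁ (rt p k ϖ)) := by
      have h3 : IsUnit (algebraMap B R₁ (rt p k ϖ) ^ (p ^ k)) := by
        rw [← map_pow, rt_pow]
        exact hϖu
      exact (isUnit_pow_iff (pow_ne_zero _ hp.ne')).1 h3
    have h3 : algebraMap B R₁ (rt p k ϖ) ^ M * algebraMap B R₁ x =
        algebraMap B R₁ (rt p k ϖ) ^ M * (algebraMap B R₁ (rt p k ϖ) * (y₁ : R₁)) := by
      have h4 : algebraMap B R₁ b =
          algebraMap B R₁ (rt p k ϖ) ^ M * algebraMap B R₁ x := by rw [hx, map_mul, map_pow]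
      rw [← h4, ← hbR, h1, pow_add, pow_one]
      ring
    exact (h2.pow M).mul_left_cancel h3
  refine ⟨x, fun v hv => ?_⟩
  rcases le_total (v e) ((1 / 2 : ℝ) ^ m) with hve | hve
  · obtain ⟨w, hw, hwv⟩ := hext₁ v hv hve
    have hcomp : w ∘ algebraMap B (Algebra.adjoin B {z : R₁ | ∃ j, z = rt p j E}) = v :=
      funext hwv
    have k₁ := H₁ w hw
    rw [hcomp] at k₁
    exact fin_step p hw hv hwv x₁ y₁ ⟨d₁', hd₁'⟩ l j k hy₁ x (Subtype.ext hxR) lam lam' hj1 hlam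
      (G v) (F v) k₁
  · obtain ⟨w, hw, hwv⟩ := hext₂ v hv hve
    have hcomp : w ∘ algebraMap B (Algebra.adjoin B {z : R₂ | ∃ j, z = rt p j E'}) = v :=
      funext hwv
    have k₂ := H₂ w hw
    rw [hcomp] at k₂
    refine fin_step p hw hv hwv x₂ y₂ ⟨-d₂, Subalgebra.neg_mem _ hd₂⟩ l j k hy₂ x ?_ lam lam' hj1
      hlam (G v) (F v) k₂
    apply Subtype.ext
    change algebraMap B R₂ x = algebraMap B R₂ (rt p k ϖ) * (y₂ : R₂)
    rw [← hyy, IsScalarTower.algebraMap_apply B R₁ R₂ x, hxR, map_mul,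
      ← IsScalarTower.algebraMap_apply B R₁ R₂]

theorem merge (h : StUF.{u}) (p : ℕ) [Fact p.Prime] (B : Type u) [CommRing B] [CharP B p]
    [PerfectRing B p] (ϖ : B) (hϖ : ϖ ∈ nonZeroDivisors B) (e : B) (m : ℕ) (he : e ≠ 0) :
    ∃ (B₁ : Type u) (_ : CommRing B₁) (_ : CharP B₁ p) (_ : PerfectRing B₁ p) (i₁ : B →+* B₁)
      (B₂ : Type u) (_ : CommRing B₂) (_ : CharP B₂ p) (_ : PerfectRing B₂ p) (i₂ : B →+* B₂),
      i₁ ϖ ∈ nonZeroDivisors B₁ ∧ i₂ ϖ ∈ nonZeroDivisors B₂ ∧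
      i₁ ϖ ^ m ∣ i₁ e ∧ i₂ e ∣ i₂ ϖ ^ m ∧
      (∀ (x₁ : B₁) (x₂ : B₂) (F G : (B → ℝ) → B) (lam lam' : ℝ) (k : ℕ), 0 < lam' → lam' < lam →
        (∀ v, IsMs ϖ v → v (F v) ≤ v (G v) ∧ v (G v) ≠ 0) →
        (∀ w : B₁ → ℝ, IsMs (i₁ ϖ) w →
          w (i₁ (G (w ∘ i₁)) * x₁ - i₁ (F (w ∘ i₁))) ≤
            (1 / 2 : ℝ) ^ lam * w (i₁ (G (w ∘ i₁)))) →
        (∀ w : B₂ → ℝ, IsMs (i₂ ϖ) w →
          w (i₂ (G (w ∘ i₂)) * x₂ - i₂ (F (w ∘ i₂))) ≤
            (1 / 2 : ℝ) ^ lam * w (i₂ (G (w ∘ i₂)))) →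
        ∃ x : B, ∀ v, IsMs ϖ v →
          v (G v * x - rt p k ϖ * F v) ≤ (1 / 2 : ℝ) ^ lam' * v (G v)) := by
  let R₁ := Localization.Away ϖ
  let R₂ := Localization.Away (algebraMap B R₁ e)
  have hn₂ : Nontrivial R₂ := by
    by_contra hcon
    rw [not_nontrivial_iff_subsingleton] at hcon
    have h1 : algebraMap R₁ R₂ 1 = algebraMap R₁ R₂ 0 := Subsingleton.elim _ _
    obtain ⟨⟨c, l, rfl⟩, hc⟩ := IsLocalization.exists_of_eq
      (M := Submonoid.powers (algebraMap B R₁ e)) h1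
    simp only [mul_one, mul_zero] at hc
    rw [← map_pow] at hc
    have h2 : algebraMap B R₁ (e ^ l) = algebraMap B R₁ 0 := by rw [hc, map_zero]
    obtain ⟨⟨c, l', rfl⟩, hc'⟩ := IsLocalization.exists_of_eq (M := Submonoid.powers ϖ) h2
    simp only [mul_zero] at hc'
    have h3 : ϖ ^ l' ∈ nonZeroDivisors B := pow_mem hϖ l'
    rw [mem_nonZeroDivisors_iff_left] at h3
    exact he (reduced p e l (h3 _ hc'))
  have hn₁ : Nontrivial R₁ := (algebraMap R₁ R₂).domain_nontrivial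
  have c₁ : CharP R₁ p := charP_alg (B := B) p R₁
  have c₂ : CharP R₂ p := charP_alg (B := B) p R₂
  have p₁ : PerfectRing R₁ p := loc_perfect p ϖ R₁
  have p₂ : PerfectRing R₂ p := loc_perfect p (algebraMap B R₁ e) R₂
  have hu₁ : IsUnit (algebraMap B R₁ ϖ) := IsLocalization.Away.algebraMap_isUnit ϖ
  have hu₂ : IsUnit (algebraMap R₁ R₂ (algebraMap B R₁ e)) :=
    IsLocalization.Away.algebraMap_isUnit _
  have hu₃ : IsUnit (algebraMap B R₂ ϖ) := by
    rw [IsScalarTower.algebraMap_apply B R₁ R₂]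
    exact hu₁.map _
  obtain ⟨w, hw⟩ := hu₁.exists_right_inv
  obtain ⟨w', hw'⟩ := hu₂.exists_right_inv
  let E : R₁ := algebraMap B R₁ e * w ^ m
  let E' : R₂ := algebraMap B R₂ ϖ ^ m * w'
  have hE : algebraMap B R₁ ϖ ^ m * E = algebraMap B R₁ e := by
    change algebraMap B R₁ ϖ ^ m * (algebraMap B R₁ e * w ^ m) = _
    rw [mul_left_comm, ← mul_pow, hw, one_pow, mul_one]
  have hE' : algebraMap B R₂ e * E' = algebraMap B R₂ ϖ ^ m := by
    change algebraMap B R₂ e * (algebraMap B R₂ ϖ ^ m * w') = _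
    rw [mul_left_comm, IsScalarTower.algebraMap_apply B R₁ R₂ e, hw', mul_one]
  have hEE : algebraMap R₁ R₂ E * E' = 1 := by
    change algebraMap R₁ R₂ (algebraMap B R₁ e * w ^ m) * (algebraMap B R₂ ϖ ^ m * w') = 1
    rw [map_mul, map_pow, IsScalarTower.algebraMap_apply B R₁ R₂ ϖ]
    have h1 : algebraMap R₁ R₂ (algebraMap B R₁ ϖ) * algebraMap R₁ R₂ w = 1 := by
      rw [← map_mul, hw, map_one]
    calc algebraMap R₁ R₂ (algebraMap B R₁ e) * algebraMap R₁ R₂ w ^ m *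
          (algebraMap R₁ R₂ (algebraMap B R₁ ϖ) ^ m * w')
        = (algebraMap R₁ R₂ (algebraMap B R₁ e) * w') *
          (algebraMap R₁ R₂ (algebraMap B R₁ ϖ) * algebraMap R₁ R₂ w) ^ m := by
          rw [mul_pow]
          ring
      _ = 1 := by rw [hw', h1, one_pow, mul_one]
  let B₁ := Algebra.adjoin B {z : R₁ | ∃ j, z = rt p j E}
  let B₂ := Algebra.adjoin B {z : R₂ | ∃ j, z = rt p j E'}
  have hm₁ : Nontrivial B₁ := ⟨⟨0, 1, fun h => zero_ne_one (congrArg Subtype.val h : (0 : R₁) = 1)⟩⟩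
  have hm₂ : Nontrivial B₂ := ⟨⟨0, 1, fun h => zero_ne_one (congrArg Subtype.val h : (0 : R₂) = 1)⟩⟩
  refine ⟨B₁, inferInstance, charP_alg (B := B) p B₁, sub_perfect p B₁ (gens_rt p E),
    algebraMap B B₁, B₂, inferInstance, charP_alg (B := B) p B₂, sub_perfect p B₂ (gens_rt p E'),
    algebraMap B B₂, ?_, ?_, ?_, ?_, ?_⟩
  · rw [mem_nonZeroDivisors_iff_right]
    intro z hz
    apply Subtype.ext
    exact hu₁.mul_left_eq_zero.1 (congrArg Subtype.val hz : (z : R₁) * algebraMap B R₁ ϖ = 0)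
  · rw [mem_nonZeroDivisors_iff_right]
    intro z hz
    apply Subtype.ext
    exact hu₃.mul_left_eq_zero.1 (congrArg Subtype.val hz : (z : R₂) * algebraMap B R₂ ϖ = 0)
  · refine ⟨⟨rt p 0 E, Algebra.subset_adjoin ⟨0, rfl⟩⟩, Subtype.ext ?_⟩
    exact hE.symm
  · refine ⟨⟨rt p 0 E', Algebra.subset_adjoin ⟨0, rfl⟩⟩, Subtype.ext ?_⟩
    exact hE'.symm
  · intro x₁ x₂ F G lam lam' k h0 hlam hFG H₁ H₂
    exact glue p h ϖ hϖ e m R₁ R₂ E E' hE hE' hEE x₁ x₂ F G lam lam' k h0 hlam hFG H₁ H₂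

end core

end MERGE

theorem m_MERGE (h : StUF.{u}) : StMERGE.{u} := fun p _ B _ _ _ ϖ hϖ e m he =>
  MERGE.merge h p B ϖ hϖ e m he

end Pool.Agent.Helper44.SPL
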