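import Pool.Agent.Helper44.SPL.St
import Pool.Agent.Helper44.SPL.Bas
import Pool.Agent.Helper44.SPL.M_MERGE

/-!
# CELLS: gluing over the sign patterns of finitely many thresholds
-/

set_option autoImplicit false

namespace Pool.Agent.Helper44.SPL

universe u

namespace CELLSb

open MERGE

theorem combine (p : ℕ) [hp : Fact p.Prime] {B : Type u} [CommRing B] [CharP B p] [PerfectRing B p]
    (ϖ : B) (F G : (B → ℝ) → B) (lam' : ℝ) (k : ℕ) (x : B)
    (hx : ∀ v, IsMs ϖ v → v (G v * x - rt p (k + 1) ϖ * (rt p (k + 1) ϖ * F v)) ≤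
      (1 / 2 : ℝ) ^ lam' * v (G v)) :
    ∃ y : B, ∀ v, IsMs ϖ v → v (G v * y - rt p k ϖ * F v) ≤ (1 / 2 : ℝ) ^ lam' * v (G v) := by
  refine ⟨rt p (k + 1) ϖ ^ (p - 2) * x, fun v hv => ?_⟩
  have h2 : rt p k ϖ = rt p (k + 1) ϖ ^ (p - 2) * (rt p (k + 1) ϖ * rt p (k + 1) ϖ) := by
    have h3 := rt_rt p k 1 ϖ
    rw [pow_one] at h3
    rw [← h3, ← pow_two, ← pow_add, Nat.sub_add_cancel hp.out.two_le]
  have e : G v * (rt p (k + 1) ϖ ^ (p - 2) * x) - rt p k ϖ * F v =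
      rt p (k + 1) ϖ ^ (p - 2) * (G v * x - rt p (k + 1) ϖ * (rt p (k + 1) ϖ * F v)) := by
    rw [h2]
    ring
  rw [e, hv.mul]
  calc v (rt p (k + 1) ϖ ^ (p - 2)) * v (G v * x - rt p (k + 1) ϖ * (rt p (k + 1) ϖ * F v))
      ≤ 1 * v (G v * x - rt p (k + 1) ϖ * (rt p (k + 1) ϖ * F v)) :=
        mul_le_mul_of_nonneg_right (hv.le_one _) (hv.nonneg _)
    _ ≤ _ := by rw [one_mul]; exact hx v hv

theorem base (hM : StMERGE.{u}) (hU : StUF.{u}) (p : ℕ) [hp : Fact p.Prime] (B : Type u)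
    [CommRing B] [CharP B p] [PerfectRing B p] (ϖ : B) (hϖ : ϖ ∈ nonZeroDivisors B)
    (F G : (B → ℝ) → B) (lam lam' : ℝ) (h0 : 0 < lam') (h1 : lam' < lam)
    (hFG : ∀ v, IsMs ϖ v → v (F v) ≤ v (G v) ∧ v (G v) ≠ 0)
    (a b : B) (N : ℕ) (hab : ∀ v, IsMs ϖ v → v a ≤ v b ∧ (1 / 2 : ℝ) ^ N ≤ v b ∧
      v (F v * b - a * G v) ≤ (1 / 2 : ℝ) ^ lam * (v (G v) * v b)) (k : ℕ) :
    ∃ x : B, ∀ v, IsMs ϖ v → v (G v * x - rt p k ϖ * F v) ≤ (1 / 2 : ℝ) ^ lam' * v (G v) := by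
  by_cases hb : b = 0
  · refine ⟨0, fun v hv => ?_⟩
    have := (hab v hv).2.1
    rw [hb, hv.zero] at this
    exact absurd this (not_le.mpr (by positivity))
  obtain ⟨B₁, _, _, _, i₁, B₂, _, _, _, i₂, hϖ₁, hϖ₂, hd₁, hd₂, hglue⟩ :=
    hM p B ϖ hϖ b (N + 1) hb
  have hr1 : ∀ v, IsMs ϖ v → ∀ y : B, v y ≤ 1 := fun v hv y => hv.le_one y
  -- the element of `B₂`
  obtain ⟨c, hc⟩ := hd₂
  have hcd : c ∈ nonZeroDivisors B₂ := by
    have h2 : i₂ b * c ∈ nonZeroDivisors B₂ := by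
      rw [← hc]
      exact pow_mem hϖ₂ _
    exact (mul_mem_nonZeroDivisors.mp h2).2
  have hdiv : rt p (k + 1) (i₂ ϖ) ^ (p ^ (k + 1) * (N + 1) - 1) ∣ i₂ a * c := by
    refine hU p B₂ (i₂ ϖ) hϖ₂ (i₂ a * c) ((N + 1 : ℕ) : ℝ) ?_ _ (k + 1) ?_
    · intro w hw
      have h2 := (hab _ (hw.comp i₂)).1
      rw [Real.rpow_natCast, ← hw.pi_pow, hc, hw.mul, hw.mul]
      exact mul_le_mul_of_nonneg_right h2 (hw.nonneg _)
    · have hpos : (0 : ℝ) < (p : ℝ) ^ (k + 1) := by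
        have : (0 : ℝ) < p := Nat.cast_pos.mpr hp.out.pos
        positivity
      rw [div_lt_iff₀ hpos]
      have hpos2 : 0 < p ^ (k + 1) * (N + 1) :=
        Nat.mul_pos (pow_pos hp.out.pos _) (Nat.succ_pos _)
      have h3 : ((p ^ (k + 1) * (N + 1) - 1 : ℕ) : ℝ) < ((p ^ (k + 1) * (N + 1) : ℕ) : ℝ) :=
        Nat.cast_lt.mpr (by omega)
      refine h3.trans_le (le_of_eq ?_)
      push_cast
      ring
  obtain ⟨d, hd⟩ := hdiv
  have hbd : i₂ b * d = rt p (k + 1) (i₂ ϖ) * i₂ a := by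
    have hpos2 : 0 < p ^ (k + 1) * (N + 1) :=
      Nat.mul_pos (pow_pos hp.out.pos _) (Nat.succ_pos _)
    have h2 : rt p (k + 1) (i₂ ϖ) * (i₂ a * c) = i₂ b * c * d := by
      rw [hd, ← mul_assoc, ← pow_succ', Nat.sub_add_cancel hpos2, pow_mul, rt_pow, hc]
    have h3 : (i₂ b * d - rt p (k + 1) (i₂ ϖ) * i₂ a) * c = 0 := by
      rw [sub_mul, mul_assoc (rt p (k + 1) (i₂ ϖ)), h2]
      ring
    exact sub_eq_zero.mp ((mul_right_mem_nonZeroDivisors_eq_zero_iff hcd).mp h3)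
  obtain ⟨x, hx⟩ := hglue 0 d (fun v => rt p (k + 1) ϖ * F v) G lam lam' (k + 1) h0 h1
    (fun v hv => ⟨by
      rw [hv.mul]
      calc v (rt p (k + 1) ϖ) * v (F v) ≤ 1 * v (F v) :=
            mul_le_mul_of_nonneg_right (hv.le_one _) (hv.nonneg _)
        _ ≤ v (G v) := by rw [one_mul]; exact (hFG v hv).1, (hFG v hv).2⟩)
    (fun w hw => by
      exfalso
      have h2 := (hab _ (hw.comp i₁)).2.1
      have h3 := hw.le_of_dvd hd₁
      rw [hw.pi_pow] at h3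
      have h4 : (1 / 2 : ℝ) ^ N ≤ (1 / 2 : ℝ) ^ (N + 1) := h2.trans h3
      have h5 : (0 : ℝ) < (1 / 2 : ℝ) ^ N := by positivity
      rw [pow_succ] at h4
      linarith)
    (fun w hw => by
      obtain ⟨h2, h3, h4⟩ := hab _ (hw.comp i₂)
      have hwb : 0 < w (i₂ b) := lt_of_lt_of_le (by positivity) h3
      refine le_of_mul_le_mul_left ?_ hwb
      rw [← hw.mul]
      have e : i₂ b * (i₂ (G (w ∘ i₂)) * d - i₂ (rt p (k + 1) ϖ * F (w ∘ i₂))) =
          -(rt p (k + 1) (i₂ ϖ) * i₂ (F (w ∘ i₂) * b - a * G (w ∘ i₂))) := by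
        rw [map_mul, map_sub, map_mul, map_mul, rt_map p (k + 1) i₂]
        linear_combination (i₂ (G (w ∘ i₂))) * hbd
      rw [e, hw.neg, hw.mul]
      calc w (rt p (k + 1) (i₂ ϖ)) * w (i₂ (F (w ∘ i₂) * b - a * G (w ∘ i₂)))
          ≤ 1 * w (i₂ (F (w ∘ i₂) * b - a * G (w ∘ i₂))) :=
            mul_le_mul_of_nonneg_right (hw.le_one _) (hw.nonneg _)
        _ ≤ (1 / 2 : ℝ) ^ lam * (w (i₂ (G (w ∘ i₂))) * w (i₂ b)) := by
            rw [one_mul]; exact h4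
        _ = _ := by ring)
  exact combine p ϖ F G lam' k x hx

theorem cells (hM : StMERGE.{u}) (hU : StUF.{u}) (p : ℕ) [hp : Fact p.Prime] (n : ℕ) :
    ∀ (B : Type u) [CommRing B] [CharP B p] [PerfectRing B p] (ϖ : B), ϖ ∈ nonZeroDivisors B →
    ∀ (e : Fin n → B) (m : Fin n → ℕ)
    (F G : (B → ℝ) → B) (lam lam' : ℝ), 0 < lam' → lam' < lam →
    (∀ v, IsMs ϖ v → v (F v) ≤ v (G v) ∧ v (G v) ≠ 0) →
    (∀ s : Fin n → Bool, ∃ (a b : B) (N : ℕ), ∀ v, IsMs ϖ v →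
      (∀ i, if s i then v (e i) ≤ (1 / 2 : ℝ) ^ m i else (1 / 2 : ℝ) ^ m i ≤ v (e i)) →
      v a ≤ v b ∧ (1 / 2 : ℝ) ^ N ≤ v b ∧
        v (F v * b - a * G v) ≤ (1 / 2 : ℝ) ^ lam * (v (G v) * v b)) →
    ∀ k : ℕ, ∃ x : B, ∀ v, IsMs ϖ v →
      v (G v * x - rt p k ϖ * F v) ≤ (1 / 2 : ℝ) ^ lam' * v (G v) := by
  induction n with
  | zero =>
    intro B _ _ _ ϖ hϖ e m F G lam lam' h0 h1 hFG hs k
    obtain ⟨a, b, N, hab⟩ := hs Fin.elim0
    exact base hM hU p B ϖ hϖ F G lam lam' h0 h1 hFG a b N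
      (fun v hv => hab v hv (fun i => Fin.elim0 i)) k
  | succ n ih =>
    intro B _ _ _ ϖ hϖ e m F G lam lam' h0 h1 hFG hs k
    by_cases he : e 0 = 0
    · refine ih B ϖ hϖ (fun i => e i.succ) (fun i => m i.succ) F G lam lam' h0 h1 hFG ?_ k
      intro s
      obtain ⟨a, b, N, hab⟩ := hs (Fin.cons true s)
      refine ⟨a, b, N, fun v hv hvs => hab v hv fun i => ?_⟩
      refine Fin.cases ?_ (fun j => ?_) i
      · simp only [Fin.cons_zero, if_true]
        rw [he, hv.zero]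
        positivity
      · simp only [Fin.cons_succ]
        exact hvs j
    · obtain ⟨B₁, _, _, _, i₁, B₂, _, _, _, i₂, hϖ₁, hϖ₂, hd₁, hd₂, hglue⟩ :=
        hM p B ϖ hϖ (e 0) (m 0) he
      obtain ⟨lm, hl1, hl2⟩ := exists_between h1
      have hl0 : 0 < lm := h0.trans hl1
      obtain ⟨x₁, hx₁⟩ := ih B₁ (i₁ ϖ) hϖ₁ (fun i => i₁ (e i.succ)) (fun i => m i.succ)
        (fun w => i₁ (F (w ∘ i₁))) (fun w => i₁ (G (w ∘ i₁))) lam lm hl0 hl2
        (fun w hw => hFG _ (hw.comp i₁))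
        (fun s => by
          obtain ⟨a, b, N, hab⟩ := hs (Fin.cons true s)
          refine ⟨i₁ a, i₁ b, N, fun w hw hws => ?_⟩
          have h2 := hab _ (hw.comp i₁) (fun i => by
            refine Fin.cases ?_ (fun j => ?_) i
            · simp only [Fin.cons_zero, if_true]
              have h3 := hw.le_of_dvd hd₁
              rw [hw.pi_pow] at h3
              exact h3
            · simp only [Fin.cons_succ]
              exact hws j)
          refine ⟨h2.1, h2.2.1, ?_⟩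
          have h4 := h2.2.2
          rw [← map_mul, ← map_mul, ← map_sub]
          exact h4) (k + 1)
      obtain ⟨x₂, hx₂⟩ := ih B₂ (i₂ ϖ) hϖ₂ (fun i => i₂ (e i.succ)) (fun i => m i.succ)
        (fun w => i₂ (F (w ∘ i₂))) (fun w => i₂ (G (w ∘ i₂))) lam lm hl0 hl2
        (fun w hw => hFG _ (hw.comp i₂))
        (fun s => by
          obtain ⟨a, b, N, hab⟩ := hs (Fin.cons false s)
          refine ⟨i₂ a, i₂ b, N, fun w hw hws => ?_⟩
          have h2 := hab _ (hw.comp i₂) (fun i => by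
            refine Fin.cases ?_ (fun j => ?_) i
            · simp only [Fin.cons_zero, Bool.false_eq_true, if_false]
              have h3 := hw.le_of_dvd hd₂
              rw [hw.pi_pow] at h3
              exact h3
            · simp only [Fin.cons_succ]
              exact hws j)
          refine ⟨h2.1, h2.2.1, ?_⟩
          have h4 := h2.2.2
          rw [← map_mul, ← map_mul, ← map_sub]
          exact h4) (k + 1)
      obtain ⟨x, hx⟩ := hglue x₁ x₂ (fun v => rt p (k + 1) ϖ * F v) G lm lam' (k + 1) h0 hl1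
        (fun v hv => ⟨by
          rw [hv.mul]
          calc v (rt p (k + 1) ϖ) * v (F v) ≤ 1 * v (F v) :=
                mul_le_mul_of_nonneg_right (hv.le_one _) (hv.nonneg _)
            _ ≤ v (G v) := by rw [one_mul]; exact (hFG v hv).1, (hFG v hv).2⟩)
        (fun w hw => by
          have := hx₁ w hw
          rw [map_mul, rt_map p (k + 1) i₁]
          exact this)
        (fun w hw => by
          have := hx₂ w hw
          rw [map_mul, rt_map p (k + 1) i₂]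
          exact this)
      exact combine p ϖ F G lam' k x hx

end CELLSb

theorem m_CELLSb (hM : StMERGE.{u}) (hU : StUF.{u}) : StCELLS.{u} :=
  fun p _ n => CELLSb.cells hM hU p n

end Pool.Agent.Helper44.SPL
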