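import Mathlib
import Pool.Agent.Helper44.SPL.St

/-!
# Splinters in mixed characteristic: module CONN (idempotents of the closed fibre lift)
-/

set_option autoImplicit false

namespace Pool.Agent.Helper44.SPL

open Polynomial

universe u

namespace CONNaux

lemma lift_idem {R : Type*} [CommRing R] (J : Ideal R) (e : R) (he : e ^ 2 - e ∈ J) (n : ℕ) :
    ∃ f : R, f - e ∈ J ∧ f ^ 2 - f ∈ J ^ (2 ^ n) := by
  induction n with
  | zero => exact ⟨e, by simp, by simpa using he⟩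
  | succ n ih =>
    obtain ⟨f, h1, h2⟩ := ih
    refine ⟨3 * f ^ 2 - 2 * f ^ 3, ?_, ?_⟩
    · have h3 : f ^ 2 - f ∈ J := Ideal.pow_le_self (by positivity) h2
      have h4 : 3 * f ^ 2 - 2 * f ^ 3 - e = -(2 * f - 1) * (f ^ 2 - f) + (f - e) := by ring
      rw [h4]
      exact J.add_mem (J.mul_mem_left _ h3) h1
    · have h4 : (3 * f ^ 2 - 2 * f ^ 3) ^ 2 - (3 * f ^ 2 - 2 * f ^ 3) =
          -((3 - 2 * f) * (2 * f + 1)) * ((f ^ 2 - f) * (f ^ 2 - f)) := by ring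
      rw [h4, pow_succ 2 n, mul_two, pow_add]
      exact Ideal.mul_mem_left _ _ (Ideal.mul_mem_mul h2 h2)

lemma idem_close {R : Type*} [CommRing R] (J : Ideal R) (k : ℕ) (f g : R)
    (hf : f ^ 2 - f ∈ J ^ k) (hg : g ^ 2 - g ∈ J ^ k) (h : f - g ∈ J) : f - g ∈ J ^ k := by
  have h3 : (f - g) ^ 3 - (f - g) ∈ J ^ k := by
    have : (f - g) ^ 3 - (f - g) =
        (f + 1 - 3 * g) * (f ^ 2 - f) + (3 * f - (g + 1)) * (g ^ 2 - g) := by ring
    rw [this]
    exact Ideal.add_mem _ (Ideal.mul_mem_left _ _ hf) (Ideal.mul_mem_left _ _ hg)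
  have key : ∀ j : ℕ, f - g ∈ J ^ (min (j + 1) k) := by
    intro j
    induction j with
    | zero =>
      refine Ideal.pow_le_pow_right (min_le_left _ _) ?_
      simpa using h
    | succ j ih =>
      have e1 : f - g = (f - g) * ((f - g) * (f - g)) - ((f - g) ^ 3 - (f - g)) := by ring
      rw [e1]
      refine Ideal.sub_mem _ ?_ (Ideal.pow_le_pow_right (min_le_right _ _) h3)
      have e2 : (f - g) * ((f - g) * (f - g)) ∈ J ^ (min (j + 1) k) * J :=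
        Ideal.mul_mem_mul ih (J.mul_mem_left _ h)
      rw [← pow_succ] at e2
      exact Ideal.pow_le_pow_right (by omega) e2
  have := key k
  rwa [min_eq_right (by omega)] at this

variable {Ω : Type u} [Field Ω]

lemma inter_le (A : Subring Ω) (hA : IC A) (X : Ω) (x : Ω)
    (h1 : x ∈ icl ((A : Set Ω) ∪ {X})) (h2 : x ∈ icl ((A : Set Ω) ∪ {X⁻¹})) : x ∈ A := by
  have h3 : x ∈ icl (A : Set Ω) := by
    unfold icl at *
    rw [← iInf_valuationSubring_superset] at *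
    rw [Subring.mem_iInf] at *
    rintro ⟨V, hV⟩
    rcases V.mem_or_inv_mem X with h | h
    · exact h1 ⟨V, Set.union_subset hV (Set.singleton_subset_iff.2 h)⟩
    · exact h2 ⟨V, Set.union_subset hV (Set.singleton_subset_iff.2 h)⟩
  rw [hA] at h3
  exact h3

/-- sums over a finite set are in the extended ideal. -/
lemma mem_map {A₀ D : Subring Ω} (h : A₀ ≤ D) (n₀ : Finset Ω) (t : Finset Ω)
    (ht : ∀ a ∈ t, a ∈ n₀) (hA : ∀ a ∈ n₀, a ∈ A₀) (c : Ω → Ω) (hc : ∀ a ∈ t, c a ∈ D) (x : Ω)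
    (hx : x ∈ D) (hs : ∑ a ∈ t, c a * a = x) :
    (⟨x, hx⟩ : D) ∈ (Ideal.span {a : A₀ | (a : Ω) ∈ n₀}).map (Subring.inclusion h) := by
  classical
  have e : (⟨x, hx⟩ : D) = ∑ a : t, (⟨c a.1, hc a.1 a.2⟩ : D) *
      Subring.inclusion h ⟨a.1, hA a.1 (ht a.1 a.2)⟩ := by
    apply Subtype.ext
    simp only [AddSubmonoidClass.coe_finsetSum, MulMemClass.coe_mul, Subring.coe_inclusion]
    rw [← hs, ← Finset.sum_coe_sort t (fun a => c a * a)]
  rw [e]
  refine Ideal.sum_mem _ fun a _ => Ideal.mul_mem_left _ _ (Ideal.mem_map_of_mem _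
    (Ideal.subset_span ?_))
  exact ht a.1 a.2

lemma map_le {A A₀ D D' : Subring Ω} (h : A₀ ≤ D) (h' : D ≤ D') (n₀ : Finset Ω)
    (hn : ∀ a ∈ n₀, a ∈ nu A) (y : D)
    (hy : y ∈ (Ideal.span {a : A₀ | (a : Ω) ∈ n₀}).map (Subring.inclusion h)) :
    (y : Ω) ∈ ext (nu A) D' := by
  rw [Ideal.map_span] at hy
  induction hy using Submodule.span_induction with
  | mem x hx =>
    obtain ⟨a, ha, rfl⟩ := hx
    exact Submodule.subset_span (hn _ ha)
  | zero => exact Submodule.zero_mem _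
  | add x y _ _ hx hy =>
    push_cast
    exact Submodule.add_mem _ hx hy
  | smul d x _ hx =>
    have : ((d • x : D) : Ω) = (⟨d, h' d.2⟩ : D') • (x : Ω) := rfl
    rw [this]
    exact Submodule.smul_mem _ _ hx


lemma mem_map' {A₀ D : Subring Ω} (h : A₀ ≤ D) (n₀ : Finset Ω) (t : Finset Ω)
    (ht : ∀ a ∈ t, a ∈ n₀) (hA : ∀ a ∈ n₀, a ∈ A₀) (c : Ω → Ω) (hc : ∀ a ∈ t, c a ∈ D) (x : D)
    (hs : ∑ a ∈ t, c a * a = (x : Ω)) :
    x ∈ (Ideal.span {a : A₀ | (a : Ω) ∈ n₀}).map (Subring.inclusion h) :=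
  mem_map h n₀ t ht hA c hc x x.2 hs

end CONNaux

open CONNaux in
theorem m_CONN (h1 : StAR.{u}) (h2 : StLEV.{u}) : StCONN.{u} := by
  classical
  intro Ω _ _ A hloc hIC X hX e₁ he₁ e₂ he₂ hs₁ hs₂ hs₃
  obtain ⟨f₁, t₁, ht₁, -, hf₁⟩ := Submodule.mem_span_iff_exists_finset_subset.1 hs₁
  obtain ⟨f₂, t₂, ht₂, -, hf₂⟩ := Submodule.mem_span_iff_exists_finset_subset.1 hs₂
  obtain ⟨f₃, t₃, ht₃, -, hf₃⟩ := Submodule.mem_span_iff_exists_finset_subset.1 hs₃
  have hn : ∀ a ∈ t₁ ∪ t₂ ∪ t₃, a ∈ nu A := by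
    intro a ha
    rcases Finset.mem_union.1 ha with ha | ha
    · rcases Finset.mem_union.1 ha with ha | ha
      · exact ht₁ ha
      · exact ht₂ ha
    · exact ht₃ ha
  obtain ⟨A₀, D₁, D₂, D₁₂, hA₀, hnoe, h01, h02, h13, h23, hD₁, hD₂, hn₀, ha₁, ha₂, ha₃, G, hG,
    hfin⟩ := h2 Ω A X hX (t₁ ∪ t₂ ∪ t₃) (insert e₁ (t₁.image fun a => (f₁ a : Ω)))
      (insert e₂ (t₂.image fun a => (f₂ a : Ω))) (t₃.image fun a => (f₃ a : Ω))
      (fun x hx => (hn x hx).1)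
      (by
        intro x hx
        rcases Finset.mem_insert.1 hx with rfl | hx
        · exact he₁
        · obtain ⟨a, -, rfl⟩ := Finset.mem_image.1 hx
          exact (f₁ a).2)
      (by
        intro x hx
        rcases Finset.mem_insert.1 hx with rfl | hx
        · exact he₂
        · obtain ⟨a, -, rfl⟩ := Finset.mem_image.1 hx
          exact (f₂ a).2)
      (by
        intro x hx
        obtain ⟨a, -, rfl⟩ := Finset.mem_image.1 hx
        exact (f₃ a).2)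
  have h03 : A₀ ≤ D₁₂ := h01.trans h13
  have E₁ : e₁ ∈ D₁ := ha₁ _ (Finset.mem_insert_self _ _)
  have E₂ : e₂ ∈ D₂ := ha₂ _ (Finset.mem_insert_self _ _)
  set I : Ideal A₀ := Ideal.span {a : A₀ | (a : Ω) ∈ t₁ ∪ t₂ ∪ t₃} with hI
  have m1 : (⟨e₁, E₁⟩ : D₁) ^ 2 - ⟨e₁, E₁⟩ ∈ I.map (Subring.inclusion h01) := by
    refine mem_map' h01 _ t₁ (fun a ha => by simp [ha]) hn₀ (fun a => (f₁ a : Ω))
      (fun a ha => ha₁ _ (Finset.mem_insert_of_mem (Finset.mem_image_of_mem _ ha))) _ ?_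
    push_cast
    rw [← hf₁]
    rfl
  have m2 : (⟨e₂, E₂⟩ : D₂) ^ 2 - ⟨e₂, E₂⟩ ∈ I.map (Subring.inclusion h02) := by
    refine mem_map' h02 _ t₂ (fun a ha => by simp [ha]) hn₀ (fun a => (f₂ a : Ω))
      (fun a ha => ha₂ _ (Finset.mem_insert_of_mem (Finset.mem_image_of_mem _ ha))) _ ?_
    push_cast
    rw [← hf₂]
    rfl
  have m3 : Subring.inclusion h13 (⟨e₁, E₁⟩ : D₁) - Subring.inclusion h23 (⟨e₂, E₂⟩ : D₂) ∈
      I.map (Subring.inclusion h03) := by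
    refine mem_map' h03 _ t₃ (fun a ha => by simp [ha]) hn₀ (fun a => (f₃ a : Ω))
      (fun a ha => ha₃ _ (Finset.mem_image_of_mem _ ha)) _ ?_
    push_cast
    rw [Subring.coe_inclusion, Subring.coe_inclusion]
    rw [← hf₃]
    rfl
  let _ : Algebra A₀ D₁₂ := (Subring.inclusion h03).toAlgebra
  let N : Submodule A₀ D₁₂ :=
    { carrier := {x | ∃ x₁ ∈ D₁, ∃ x₂ ∈ D₂, (x : Ω) = x₁ + x₂}
      add_mem' := by
        rintro x y ⟨x₁, hx₁, x₂, hx₂, hx⟩ ⟨y₁, hy₁, y₂, hy₂, hy⟩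
        refine ⟨x₁ + y₁, D₁.add_mem hx₁ hy₁, x₂ + y₂, D₂.add_mem hx₂ hy₂, ?_⟩
        push_cast
        rw [hx, hy]
        ring
      zero_mem' := ⟨0, D₁.zero_mem, 0, D₂.zero_mem, by simp⟩
      smul_mem' := by
        rintro r x ⟨x₁, hx₁, x₂, hx₂, hx⟩
        refine ⟨r * x₁, D₁.mul_mem (h01 r.2) hx₁, r * x₂, D₂.mul_mem (h02 r.2) hx₂, ?_⟩
        have : ((r • x : D₁₂) : Ω) = (r : Ω) * (x : Ω) := rfl
        rw [this, hx]
        ring }
  have hfinite : Module.Finite A₀ (D₁₂ ⧸ N) := by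
    let φ : D₁₂ →ₗ[A₀] Ω :=
      { toFun := fun x => (x : Ω)
        map_add' := fun x y => rfl
        map_smul' := fun r x => rfl }
    refine ⟨⟨(G.attach.image fun x => (⟨x.1, hG x.1 x.2⟩ : D₁₂)).image N.mkQ, ?_⟩⟩
    rw [eq_top_iff]
    rintro y -
    obtain ⟨x, rfl⟩ := N.mkQ_surjective y
    obtain ⟨x₁, hx₁, x₂, hx₂, hx⟩ := hfin x x.2
    have hGi : (G : Set Ω) = φ '' ((G.attach.image fun x => (⟨x.1, hG x.1 x.2⟩ : D₁₂)) : Set D₁₂) := by
      ext z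
      constructor
      · intro hz
        exact ⟨⟨z, hG z hz⟩, Finset.mem_coe.2 (Finset.mem_image.2
          ⟨⟨z, hz⟩, Finset.mem_attach _ _, rfl⟩), rfl⟩
      · rintro ⟨a, ha, rfl⟩
        obtain ⟨b, -, rfl⟩ := Finset.mem_image.1 (Finset.mem_coe.1 ha)
        exact b.2
    rw [hGi, Submodule.span_image] at hx
    obtain ⟨w, hw, hw'⟩ := hx
    have hw2 : (w : Ω) = x - x₁ - x₂ := hw'
    have hxw : N.mkQ x = N.mkQ w := by
      rw [Submodule.mkQ_apply, Submodule.mkQ_apply, Submodule.Quotient.eq]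
      refine ⟨x₁, hx₁, x₂, hx₂, ?_⟩
      push_cast
      rw [hw2]
      ring
    rw [hxw, Finset.coe_image, Submodule.span_image]
    exact Submodule.mem_map_of_mem hw
  obtain ⟨c, hc⟩ := h1 A₀ D₁₂ N hfinite I
  obtain ⟨f, hf1, hf2⟩ := lift_idem _ _ m1 (1 + c)
  obtain ⟨g, hg1, hg2⟩ := lift_idem _ _ m2 (1 + c)
  have map1 : ∀ (y : D₁) (k : ℕ), y ∈ (I.map (Subring.inclusion h01)) ^ k →
      Subring.inclusion h13 y ∈ (I.map (Subring.inclusion h03)) ^ k := by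
    intro y k hy
    have h := Ideal.mem_map_of_mem (Subring.inclusion h13) hy
    rw [Ideal.map_pow, Ideal.map_map] at h
    exact h
  have map2 : ∀ (y : D₂) (k : ℕ), y ∈ (I.map (Subring.inclusion h02)) ^ k →
      Subring.inclusion h23 y ∈ (I.map (Subring.inclusion h03)) ^ k := by
    intro y k hy
    have h := Ideal.mem_map_of_mem (Subring.inclusion h23) hy
    rw [Ideal.map_pow, Ideal.map_map] at h
    exact h
  have hpow : (I.map (Subring.inclusion h03)) ^ (2 ^ (1 + c)) ≤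
      (I.map (Subring.inclusion h03)) ^ (1 + c) :=
    Ideal.pow_le_pow_right Nat.lt_two_pow_self.le
  have hd : Subring.inclusion h13 f - Subring.inclusion h23 g ∈
      (I.map (Subring.inclusion h03)) ^ (1 + c) := by
    refine idem_close _ _ _ _ ?_ ?_ ?_
    · have := hpow (map1 _ _ hf2)
      simpa only [map_sub, map_pow] using this
    · have := hpow (map2 _ _ hg2)
      simpa only [map_sub, map_pow] using this
    · have q1 := map1 _ 1 (by rw [pow_one]; exact hf1)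
      have q2 := map2 _ 1 (by rw [pow_one]; exact hg1)
      rw [pow_one, map_sub] at q1 q2
      have : Subring.inclusion h13 f - Subring.inclusion h23 g =
          (Subring.inclusion h13 f - Subring.inclusion h13 ⟨e₁, E₁⟩) +
          (Subring.inclusion h13 ⟨e₁, E₁⟩ - Subring.inclusion h23 ⟨e₂, E₂⟩) -
          (Subring.inclusion h23 g - Subring.inclusion h23 ⟨e₂, E₂⟩) := by ring
      rw [this]
      exact Ideal.sub_mem _ (Ideal.add_mem _ q1 m3) q2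
  have hmem : Subring.inclusion h13 f - Subring.inclusion h23 g ∈ I ^ 1 • N := by
    refine hc 1 ⟨⟨f, f.2, -g, D₂.neg_mem g.2, ?_⟩, ?_⟩
    · push_cast
      rw [Subring.coe_inclusion, Subring.coe_inclusion]
      ring
    · rw [SetLike.mem_coe, Ideal.smul_top_eq_map, Submodule.restrictScalars_mem, Ideal.map_pow]
      exact hd
  have hex : ∃ y₁ : D₁, y₁ ∈ I.map (Subring.inclusion h01) ∧ ∃ y₂ : D₂,
      y₂ ∈ I.map (Subring.inclusion h02) ∧
      ((Subring.inclusion h13 f - Subring.inclusion h23 g : D₁₂) : Ω) = y₁ + y₂ := by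
    rw [pow_one] at hmem
    refine Submodule.smul_induction_on (p := fun x : D₁₂ => ∃ y₁ : D₁,
      y₁ ∈ I.map (Subring.inclusion h01) ∧ ∃ y₂ : D₂,
      y₂ ∈ I.map (Subring.inclusion h02) ∧ (x : Ω) = y₁ + y₂) hmem ?_ ?_
    · rintro r hr x ⟨x₁, hx₁, x₂, hx₂, hx⟩
      refine ⟨⟨x₁, hx₁⟩ * Subring.inclusion h01 r, Ideal.mul_mem_left _ _
        (Ideal.mem_map_of_mem _ hr), ⟨x₂, hx₂⟩ * Subring.inclusion h02 r, Ideal.mul_mem_left _ _
        (Ideal.mem_map_of_mem _ hr), ?_⟩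
      have e : ((r • x : D₁₂) : Ω) = (r : Ω) * (x : Ω) := rfl
      rw [e, hx]
      push_cast
      rw [Subring.coe_inclusion, Subring.coe_inclusion]
      ring
    · rintro x y ⟨x₁, hx₁, x₂, hx₂, hx⟩ ⟨y₁, hy₁, y₂, hy₂, hy⟩
      refine ⟨x₁ + y₁, Ideal.add_mem _ hx₁ hy₁, x₂ + y₂, Ideal.add_mem _ hx₂ hy₂, ?_⟩
      push_cast
      rw [hx, hy]
      ring
  obtain ⟨y₁, hy₁, y₂, hy₂, hy⟩ := hex
  push_cast at hy
  rw [Subring.coe_inclusion, Subring.coe_inclusion] at hy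
  have he : (f : Ω) - y₁ = g + y₂ := by linear_combination hy
  refine ⟨f - y₁, ?_, ?_, ?_⟩
  · refine inter_le A hIC X _ (hD₁ (f - y₁).2) ?_
    rw [he]
    exact hD₂ (g + y₂).2
  · have e : e₁ - ((f : Ω) - y₁) = ((y₁ - (f - ⟨e₁, E₁⟩) : D₁) : Ω) := by
      push_cast
      ring
    rw [e]
    exact map_le h01 hD₁ _ hn _ (Ideal.sub_mem _ hy₁ hf1)
  · have e : e₂ - ((f : Ω) - y₁) = ((-y₂ - (g - ⟨e₂, E₂⟩) : D₂) : Ω) := by
      push_cast
      rw [he]
      ring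
    rw [e]
    exact map_le h02 hD₂ _ hn _ (Ideal.sub_mem _ (Ideal.neg_mem_iff _ |>.2 hy₂) hg1)

end Pool.Agent.Helper44.SPL
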