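import Pool.Agent.Helper44.SPL.St

/-! Project SPL, module DAG. -/

set_option autoImplicit false

namespace Pool.Agent.Helper44.SPL

open Polynomial

universe u

section basic

variable {Ω : Type u} [Field Ω]

private theorem DAG_map (A : Subring Ω) (F : A[X]) (x : Ω) :
    (F.map A.subtype).eval x = aeval x F := by
  rw [aeval_def, eval_map]
  rfl

private theorem DAG_mem {s : Set Ω} {x : Ω} : x ∈ icl s ↔
    ∃ P : Polynomial Ω, P.Monic ∧ (∀ n, P.coeff n ∈ Subring.closure s) ∧ P.eval x = 0 := by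
  have h0 : x ∈ icl s ↔ IsIntegral (Subring.closure s) x := Iff.rfl
  rw [h0]
  constructor
  · rintro ⟨F, hF, hx⟩
    refine ⟨F.map (Subring.closure s).subtype, hF.map _, fun n => ?_, ?_⟩
    · rw [coeff_map]
      exact (F.coeff n).2
    · rw [eval_map]
      exact hx
  · rintro ⟨P, hP, hc, hx⟩
    have hc' : (↑P.coeffs : Set Ω) ⊆ (Subring.closure s : Set Ω) := by
      intro a ha
      obtain ⟨n, -, rfl⟩ := mem_coeffs_iff.mp (Finset.mem_coe.mp ha)
      exact hc n
    refine ⟨P.toSubring _ hc', (monic_toSubring P _ hc').mpr hP, ?_⟩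
    have h1 := map_toSubring P (Subring.closure s) hc'
    rw [← h1, eval_map] at hx
    exact hx

private theorem DAG_alg (A : Subring Ω) (x : Ω) : (∃ F : A[X], F ≠ 0 ∧ aeval x F = 0) ↔
    ∃ P : Polynomial Ω, P ≠ 0 ∧ (∀ n, P.coeff n ∈ A) ∧ P.eval x = 0 := by
  constructor
  · rintro ⟨F, hF, hx⟩
    refine ⟨F.map A.subtype, ?_, fun n => ?_, ?_⟩
    · rw [Ne, Polynomial.map_eq_zero_iff A.subtype_injective]
      exact hF
    · rw [coeff_map]
      exact (F.coeff n).2
    · rw [DAG_map]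
      exact hx
  · rintro ⟨P, hP, hc, hx⟩
    have hc' : (↑P.coeffs : Set Ω) ⊆ (A : Set Ω) := by
      intro a ha
      obtain ⟨n, -, rfl⟩ := mem_coeffs_iff.mp (Finset.mem_coe.mp ha)
      exact hc n
    have h1 := map_toSubring P A hc'
    refine ⟨P.toSubring _ hc', ?_, ?_⟩
    · intro h
      rw [h, Polynomial.map_zero] at h1
      exact hP h1.symm
    · rw [← DAG_map, h1]
      exact hx

private theorem DAG_mono {s s' : Set Ω} (h : s ⊆ s') {x : Ω} (hx : x ∈ icl s) : x ∈ icl s' := by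
  rw [DAG_mem] at hx ⊢
  obtain ⟨P, hP, hc, h0⟩ := hx
  exact ⟨P, hP, fun n => Subring.closure_mono h (hc n), h0⟩

private theorem DAG_fin1 (R : Set Ω) (E : Set Ω) {x : Ω} (hx : x ∈ Subring.closure (R ∪ E)) :
    ∃ g : Finset Ω, (g : Set Ω) ⊆ R ∧ x ∈ Subring.closure ((g : Set Ω) ∪ E) := by
  classical
  have hm : ∀ {g h : Finset Ω} {y : Ω}, y ∈ Subring.closure ((g : Set Ω) ∪ E) → g ⊆ h →
      y ∈ Subring.closure ((h : Set Ω) ∪ E) := fun {g h y} hy hgh =>
    Subring.closure_mono (Set.union_subset_union_left _ (Finset.coe_subset.mpr hgh)) hy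
  induction hx using Subring.closure_induction with
  | mem y hy =>
    rcases hy with hy | hy
    · exact ⟨{y}, by simpa using hy, Subring.subset_closure (Or.inl (by simp))⟩
    · exact ⟨∅, by simp, Subring.subset_closure (Or.inr hy)⟩
  | zero => exact ⟨∅, by simp, Subring.zero_mem _⟩
  | one => exact ⟨∅, by simp, Subring.one_mem _⟩
  | add a b _ _ ha hb =>
    obtain ⟨g, hg, hg'⟩ := ha
    obtain ⟨h, hh, hh'⟩ := hb
    refine ⟨g ∪ h, by rw [Finset.coe_union]; exact Set.union_subset hg hh, ?_⟩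
    exact Subring.add_mem _ (hm hg' Finset.subset_union_left) (hm hh' Finset.subset_union_right)
  | neg a _ ha =>
    obtain ⟨g, hg, hg'⟩ := ha
    exact ⟨g, hg, Subring.neg_mem _ hg'⟩
  | mul a b _ _ ha hb =>
    obtain ⟨g, hg, hg'⟩ := ha
    obtain ⟨h, hh, hh'⟩ := hb
    refine ⟨g ∪ h, by rw [Finset.coe_union]; exact Set.union_subset hg hh, ?_⟩
    exact Subring.mul_mem _ (hm hg' Finset.subset_union_left) (hm hh' Finset.subset_union_right)

private theorem DAG_fin (R : Set Ω) (E : Set Ω) {x : Ω} (hx : x ∈ icl (R ∪ E)) :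
    ∃ g : Finset Ω, (g : Set Ω) ⊆ R ∧ x ∈ icl ((g : Set Ω) ∪ E) := by
  classical
  rw [DAG_mem] at hx
  obtain ⟨P, hP, hc, h0⟩ := hx
  choose g hg hg' using fun n => DAG_fin1 R E (hc n)
  refine ⟨(Finset.range (P.natDegree + 1)).biUnion g, ?_, ?_⟩
  · intro y hy
    obtain ⟨n, -, hn⟩ := Finset.mem_biUnion.mp (Finset.mem_coe.mp hy)
    exact hg n (Finset.mem_coe.mpr hn)
  · rw [DAG_mem]
    refine ⟨P, hP, fun n => ?_, h0⟩
    by_cases hn : n ≤ P.natDegree
    · refine Subring.closure_mono (Set.union_subset_union_left _ (Finset.coe_subset.mpr ?_)) (hg' n)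
      exact Finset.subset_biUnion_of_mem g (Finset.mem_range.mpr (by omega))
    · rw [coeff_eq_zero_of_natDegree_lt (by omega)]
      exact Subring.zero_mem _

variable {Ω' : Type u} [Field Ω']

private theorem DAG_push (i : Ω' →+* Ω) (s : Set Ω') {x : Ω'} (hx : x ∈ icl s) :
    i x ∈ icl (i '' s) := by
  rw [DAG_mem] at hx ⊢
  obtain ⟨P, hP, hc, h0⟩ := hx
  refine ⟨P.map i, hP.map i, fun n => ?_, ?_⟩
  · rw [coeff_map, ← RingHom.map_closure]
    exact Subring.mem_map.mpr ⟨_, hc n, rfl⟩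
  · rw [eval_map, eval₂_at_apply, h0, map_zero]

private theorem DAG_pull (i : Ω' →+* Ω) (s : Set Ω') {x : Ω'} (hx : i x ∈ icl (i '' s)) :
    x ∈ icl s := by
  rw [DAG_mem] at hx ⊢
  obtain ⟨P, hP, hc, h0⟩ := hx
  rw [← RingHom.map_closure] at hc
  have hl : P ∈ lifts i := by
    rw [lifts_iff_coeff_lifts]
    intro n
    obtain ⟨y, -, hy⟩ := Subring.mem_map.mp (hc n)
    exact ⟨y, hy⟩
  obtain ⟨Q, hQ, -, hQm⟩ := lifts_and_natDegree_eq_and_monic hl hP
  refine ⟨Q, hQm, fun n => ?_, ?_⟩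
  · obtain ⟨y, hy, hy'⟩ := Subring.mem_map.mp (hc n)
    have : i (Q.coeff n) = i y := by rw [hy', ← hQ, coeff_map]
    rw [i.injective this]
    exact hy
  · rw [← hQ, eval_map, eval₂_at_apply] at h0
    exact i.injective (by rw [h0, map_zero])

private theorem DAG_range [IsAlgClosed Ω'] (i : Ω' →+* Ω) (s : Set Ω') {x : Ω}
    (hx : x ∈ icl (i '' s)) : ∃ y, i y = x := by
  rw [DAG_mem] at hx
  obtain ⟨P, hP, hc, h0⟩ := hx
  rw [← RingHom.map_closure] at hc
  have hl : P ∈ lifts i := by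
    rw [lifts_iff_coeff_lifts]
    intro n
    obtain ⟨y, -, hy⟩ := Subring.mem_map.mp (hc n)
    exact ⟨y, hy⟩
  obtain ⟨Q, hQ, -, hQm⟩ := lifts_and_natDegree_eq_and_monic hl hP
  have h1 : x ∈ P.roots := (mem_roots hP.ne_zero).mpr h0
  rw [← hQ, (IsAlgClosed.splits Q).roots_map i, Multiset.mem_map] at h1
  obtain ⟨y, -, hy⟩ := h1
  exact ⟨y, hy⟩

private theorem DAG_alg_pull (i : Ω' →+* Ω) (s : Set Ω') (x : Ω') :
    (∃ F : (Subring.closure s)[X], F ≠ 0 ∧ aeval x F = 0) ↔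
      ∃ F : (Subring.closure (i '' s))[X], F ≠ 0 ∧ aeval (i x) F = 0 := by
  rw [DAG_alg, DAG_alg]
  constructor
  · rintro ⟨P, hP, hc, h0⟩
    refine ⟨P.map i, ?_, fun n => ?_, ?_⟩
    · rw [Ne, Polynomial.map_eq_zero_iff i.injective]
      exact hP
    · rw [coeff_map, ← RingHom.map_closure]
      exact Subring.mem_map.mpr ⟨_, hc n, rfl⟩
    · rw [eval_map, eval₂_at_apply, h0, map_zero]
  · rintro ⟨P, hP, hc, h0⟩
    rw [← RingHom.map_closure] at hc
    have hl : P ∈ lifts i := by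
      rw [lifts_iff_coeff_lifts]
      intro n
      obtain ⟨y, -, hy⟩ := Subring.mem_map.mp (hc n)
      exact ⟨y, hy⟩
    obtain ⟨Q, hQ⟩ := (mem_lifts P).mp hl
    refine ⟨Q, ?_, fun n => ?_, ?_⟩
    · rintro rfl
      rw [Polynomial.map_zero] at hQ
      exact hP hQ.symm
    · obtain ⟨y, hy, hy'⟩ := Subring.mem_map.mp (hc n)
      have : i (Q.coeff n) = i y := by rw [hy', ← hQ, coeff_map]
      rw [i.injective this]
      exact hy
    · rw [← hQ, eval_map, eval₂_at_apply] at h0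
      exact i.injective (by rw [h0, map_zero])

end basic

/-- the iteration, for finitely generated rings over which `Ω` is algebraic. -/
private theorem DAG_iter (h1 : StFIN.{u}) (h2 : StPW.{u}) (Ω : Type u) [Field Ω] [IsAlgClosed Ω]
    [CharZero Ω] (p : ℕ) [hp : Fact p.Prime] (g : Finset Ω) (t : Ω)
    (ht : Transcendental (Subring.closure (g : Set Ω)) t)
    (hΩ : ∀ x : Ω, ∃ F : (Subring.closure ((g : Set Ω) ∪ {t}))[X], F ≠ 0 ∧ aeval x F = 0)
    (y : Ω) (hy : y ∈ icl ((g : Set Ω) ∪ {t, t⁻¹})) (N : ℕ) :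
    ∃ a ∈ icl ((g : Set Ω) ∪ {t}), ∃ b ∈ icl ((g : Set Ω) ∪ {t⁻¹}),
      (y - a - b) / (p : Ω) ^ N ∈ icl ((g : Set Ω) ∪ {t, t⁻¹}) := by
  obtain ⟨S⟩ := h2 Ω p
  have hp0 : (p : Ω) ≠ 0 := Nat.cast_ne_zero.mpr hp.out.ne_zero
  have hrr : S.pw (1 / 2) * S.pw (1 / 2) = (p : Ω) := by
    rw [← S.add, ← S.one]
    norm_num
  have hr0 : S.pw (1 / 2) ≠ 0 := by
    intro h
    rw [h, mul_zero] at hrr
    exact hp0 hrr.symm
  have hrm : ∀ s : Set Ω, S.pw (1 / 2) ∈ icl s := by
    intro s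
    rw [DAG_mem]
    refine ⟨X ^ 2 - C (p : Ω), monic_X_pow_sub_C _ (by norm_num), fun n => ?_, ?_⟩
    · rw [coeff_sub, coeff_X_pow, coeff_C]
      refine Subring.sub_mem _ ?_ ?_
      · split_ifs
        · exact Subring.one_mem _
        · exact Subring.zero_mem _
      · split_ifs
        · exact natCast_mem _ p
        · exact Subring.zero_mem _
    · rw [eval_sub, eval_pow, eval_X, eval_C, pow_two, hrr, sub_self]
  have key : ∀ n : ℕ, ∃ a ∈ icl ((g : Set Ω) ∪ {t}), ∃ b ∈ icl ((g : Set Ω) ∪ {t⁻¹}),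
      ∃ z ∈ icl ((g : Set Ω) ∪ {t, t⁻¹}), y = a + b + S.pw (1 / 2) ^ n * z := by
    intro n
    induction n with
    | zero => exact ⟨0, Subring.zero_mem _, 0, Subring.zero_mem _, y, hy, by ring⟩
    | succ n ih =>
      obtain ⟨a, ha, b, hb, z, hz, hyz⟩ := ih
      obtain ⟨a', ha', b', hb', hz'⟩ := h1 Ω p S g t ht hΩ z hz (1 / 2) (by norm_num)
      refine ⟨a + S.pw (1 / 2) ^ n * a', Subring.add_mem _ ha (Subring.mul_mem _
        (Subring.pow_mem _ (hrm _) n) ha'), b + S.pw (1 / 2) ^ n * b', Subring.add_mem _ hb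
        (Subring.mul_mem _ (Subring.pow_mem _ (hrm _) n) hb'), (z - a' - b') / S.pw (1 / 2), hz',
        ?_⟩
      rw [hyz]
      field_simp
      ring
  obtain ⟨a, ha, b, hb, z, hz, hyz⟩ := key (2 * N)
  refine ⟨a, ha, b, hb, ?_⟩
  have : (y - a - b) / (p : Ω) ^ N = z := by
    rw [hyz, pow_mul, pow_two, hrr, div_eq_iff (pow_ne_zero _ hp0)]
    ring
  rw [this]
  exact hz

theorem m_DAG (h1 : StFIN.{u}) (h2 : StPW.{u}) : StDAG.{u} := by
  classical
  intro Ω _ _ _ p _ R t ht y hy N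
  obtain ⟨g, hgR, hyg⟩ := DAG_fin (R : Set Ω) {t, t⁻¹} hy
  -- the algebraic closure
  set D := Subring.closure ((g : Set Ω) ∪ {t}) with hD
  letI : Algebra (FractionRing D) Ω := FractionRing.liftAlgebra D Ω
  haveI : IsScalarTower D (FractionRing D) Ω := FractionRing.isScalarTower_liftAlgebra D Ω
  let L := algebraicClosure (FractionRing D) Ω
  haveI : IsAlgClosed L := IsAlgClosure.isAlgClosed (FractionRing D)
  let i : L →+* Ω := algebraMap L Ω
  haveI : CharZero L := (RingHom.charZero_iff i.injective).mpr inferInstance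
  have hDL : ∀ x ∈ D, ∃ y, i y = x := by
    intro x hx
    have : x ∈ L := by
      have h3 : x = algebraMap (FractionRing D) Ω (algebraMap D (FractionRing D) ⟨x, hx⟩) := by
        rw [← IsScalarTower.algebraMap_apply]
        rfl
      rw [h3]
      exact L.algebraMap_mem _
    exact ⟨⟨x, this⟩, rfl⟩
  obtain ⟨t', ht'⟩ := hDL t (Subring.subset_closure (Or.inr rfl))
  have hgr : (g : Set Ω) ⊆ Set.range i := fun x hx =>
    hDL x (Subring.subset_closure (Or.inl hx))
  let g' : Finset L := g.preimage i i.injective.injOn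
  have hg' : i '' (g' : Set L) = (g : Set Ω) := by
    rw [Finset.coe_preimage]
    exact Set.image_preimage_eq_of_subset hgr
  have im1 : i '' ((g' : Set L) ∪ {t'}) = (g : Set Ω) ∪ {t} := by
    rw [Set.image_union, hg', Set.image_singleton, ht']
  have im2 : i '' ((g' : Set L) ∪ {t'⁻¹}) = (g : Set Ω) ∪ {t⁻¹} := by
    rw [Set.image_union, hg', Set.image_singleton, map_inv₀, ht']
  have im3 : i '' ((g' : Set L) ∪ {t', t'⁻¹}) = (g : Set Ω) ∪ {t, t⁻¹} := by
    rw [Set.image_union, hg', Set.image_pair, map_inv₀, ht']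
  have htr : Transcendental (Subring.closure (g' : Set L)) t' := by
    intro halg
    have h3 := (DAG_alg_pull i (g' : Set L) t').mp halg
    rw [hg', ht', DAG_alg] at h3
    obtain ⟨P, hP, hc, h0⟩ := h3
    apply ht
    refine (DAG_alg R t).mpr ⟨P, hP, fun n => ?_, h0⟩
    exact (Subring.closure_le.mpr hgR) (hc n)
  have halg : ∀ x : L, ∃ F : (Subring.closure ((g' : Set L) ∪ {t'}))[X],
      F ≠ 0 ∧ aeval x F = 0 := by
    intro x
    rw [DAG_alg_pull i, im1]
    have h3 : IsAlgebraic (FractionRing D) (i x) := mem_algebraicClosure_iff.mp x.2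
    exact (IsFractionRing.isAlgebraic_iff D (FractionRing D) Ω).mpr h3
  obtain ⟨y', hy'⟩ := DAG_range i ((g' : Set L) ∪ {t', t'⁻¹}) (x := y) (by rw [im3]; exact hyg)
  have hyL : y' ∈ icl ((g' : Set L) ∪ {t', t'⁻¹}) :=
    DAG_pull i _ (by rw [im3, hy']; exact hyg)
  obtain ⟨a, ha, b, hb, hab⟩ := DAG_iter h1 h2 L p g' t' htr halg y' hyL N
  have ha' := DAG_push i _ ha
  have hb' := DAG_push i _ hb
  have hab' := DAG_push i _ hab
  rw [im1] at ha'
  rw [im2] at hb'
  rw [im3, map_div₀, map_sub, map_sub, map_pow, map_natCast, hy'] at hab'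
  exact ⟨i a, DAG_mono (Set.union_subset_union_left _ hgR) ha', i b,
    DAG_mono (Set.union_subset_union_left _ hgR) hb',
    DAG_mono (Set.union_subset_union_left _ hgR) hab'⟩

end Pool.Agent.Helper44.SPL
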