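import Pool.Agent.Helper44.SPL.St3

/-!
# Module DIV
-/

set_option autoImplicit false

namespace Pool.Agent.Helper44.SPL

open Polynomial

universe u

section

variable {K : Type u} [Field K]

private lemma DIV_phiC_X (c : PowerSeries K) :
    phiC c (X : (PowerSeries K)[X]) = PowerSeries.C c + PowerSeries.X := by
  simp [phiC]

private lemma DIV_phiC_C (c a : PowerSeries K) :
    phiC c (C a : (PowerSeries K)[X]) = PowerSeries.C a := by
  simp [phiC]

/-- a constant divisible by `s - a`, `a ∈ τ K⟦τ⟧`, is zero. -/
private lemma DIV_const (a v : PowerSeries K) (ha : PowerSeries.constantCoeff a = 0)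
    (h : (PowerSeries.X - PowerSeries.C a : PowerSeries (PowerSeries K)) ∣ PowerSeries.C v) :
    v = 0 := by
  obtain ⟨q, hq⟩ := h
  have h0 : v = - (a * PowerSeries.coeff 0 q) := by
    have := congrArg (PowerSeries.coeff 0) hq
    simpa [sub_mul] using this
  have hn : ∀ m, PowerSeries.coeff m q = a * PowerSeries.coeff (m + 1) q := by
    intro m
    have := congrArg (PowerSeries.coeff (m + 1)) hq
    rw [PowerSeries.coeff_C, if_neg (by omega), sub_mul, map_sub, PowerSeries.coeff_succ_X_mul,
      PowerSeries.coeff_C_mul] at this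
    exact sub_eq_zero.1 this.symm
  have hpow : ∀ m, PowerSeries.coeff 0 q = a ^ m * PowerSeries.coeff m q := by
    intro m
    induction m with
    | zero => simp
    | succ m ih => rw [ih, hn m, pow_succ]; ring
  have hX : (PowerSeries.X : PowerSeries K) ∣ a := PowerSeries.X_dvd_iff.2 ha
  have hz : PowerSeries.coeff 0 q = 0 := by
    ext m
    rw [map_zero]
    have h1 : (PowerSeries.X : PowerSeries K) ^ (m + 1) ∣ PowerSeries.coeff 0 q := by
      rw [hpow (m + 1)]
      exact (pow_dvd_pow_of_dvd hX _).mul_right _
    exact PowerSeries.X_pow_dvd_iff.1 h1 m (Nat.lt_succ_self m)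
  rw [h0, hz, mul_zero, neg_zero]

private lemma DIV_ne (a : PowerSeries K) :
    (PowerSeries.X - PowerSeries.C a : PowerSeries (PowerSeries K)) ≠ 0 := by
  intro h
  have := congrArg (PowerSeries.coeff 1) h
  simp at this

/-- one linear factor. -/
private lemma DIV_one (c a : PowerSeries K) (ha : PowerSeries.constantCoeff a = 0)
    (E : (PowerSeries K)[X])
    (h : (PowerSeries.X - PowerSeries.C a : PowerSeries (PowerSeries K)) ∣ phiC c E) :
    (X - C (c + a)) ∣ E := by
  rw [dvd_iff_isRoot, IsRoot]
  apply DIV_const a _ ha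
  have e := E.modByMonic_add_div (X - C (c + a))
  rw [modByMonic_X_sub_C_eq_C_eval] at e
  have e2 : phiC c E = PowerSeries.C (E.eval (c + a)) +
      (PowerSeries.X - PowerSeries.C a) * phiC c (E /ₘ (X - C (c + a))) := by
    conv_lhs => rw [← e]
    rw [map_add, map_mul, map_sub, DIV_phiC_C, DIV_phiC_X, DIV_phiC_C, map_add]
    ring
  rw [e2] at h
  exact (dvd_add_left (dvd_mul_right _ _)).1 h

end

theorem m_DIV : StDIV.{u} := by
  intro K _ N c hc ι _ κ a ha
  classical
  suffices H : ∀ S : Finset ι, ∀ E : (PowerSeries K)[X],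
      (∀ k, (∏ i ∈ S.filter (fun i => κ i = k),
        (PowerSeries.X - PowerSeries.C (a i)) : PowerSeries (PowerSeries K)) ∣
        phiC (PowerSeries.C (c k)) E) →
      (∏ i ∈ S, (X - C (PowerSeries.C (c (κ i)) + a i)) : (PowerSeries K)[X]) ∣ E by
    intro E hE
    exact H Finset.univ E hE
  intro S
  induction S using Finset.induction with
  | empty => intro E _; simp
  | insert i S hi ih =>
    intro E hE
    rw [Finset.prod_insert hi]
    have h1 := hE (κ i)
    rw [Finset.filter_insert, if_pos rfl, Finset.prod_insert (by simp [hi])] at h1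
    obtain ⟨E', hE'⟩ := DIV_one (PowerSeries.C (c (κ i))) (a i) (ha i) E
      ((dvd_mul_right _ _).trans h1)
    rw [hE']
    refine mul_dvd_mul_left _ (ih E' (fun k => ?_))
    by_cases hk : κ i = k
    · subst hk
      rw [hE', map_mul, map_sub, DIV_phiC_X, DIV_phiC_C, map_add] at h1
      have e : (PowerSeries.C (PowerSeries.C (c (κ i))) + PowerSeries.X -
          (PowerSeries.C (PowerSeries.C (c (κ i))) + PowerSeries.C (a i)) :
          PowerSeries (PowerSeries K)) = PowerSeries.X - PowerSeries.C (a i) := by ring
      rw [e] at h1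
      exact (mul_dvd_mul_iff_left (DIV_ne (a i))).1 h1
    · have h2 := hE k
      rw [Finset.filter_insert, if_neg hk, hE', map_mul] at h2
      have hu : IsUnit (phiC (PowerSeries.C (c k)) (X - C (PowerSeries.C (c (κ i)) + a i))) := by
        rw [map_sub, DIV_phiC_X, DIV_phiC_C, PowerSeries.isUnit_iff_constantCoeff]
        simp only [map_sub, map_add, PowerSeries.constantCoeff_C, PowerSeries.constantCoeff_X,
          add_zero]
        rw [PowerSeries.isUnit_iff_constantCoeff]
        simp only [map_sub, map_add, PowerSeries.constantCoeff_C, ha, add_zero]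
        rw [isUnit_iff_ne_zero, sub_ne_zero]
        exact fun h => hk (hc h).symm
      exact (hu.dvd_mul_left).1 h2

end Pool.Agent.Helper44.SPL
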