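import Pool.Agent.Helper44.SPL.St5

/-!
# SPL, module ET: étale ascent of splinters
-/

set_option autoImplicit false

namespace Pool.Agent.Helper44.SPL

open TensorProduct

universe u

namespace MET

/-- one prime ideal `P` of `R`: a finite `R`-algebra whose spectrum covers `V (P)`, over which
`T` gets a point -/
theorem onePrime (h1 : StET1.{u}) (h2 : StET2.{u}) (R S T : Type u) [CommRing R] [CommRing S]
    [CommRing T] [Algebra R S] [Algebra S T] (het : Algebra.Etale R S) (hfin : Module.Finite S T)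
    (hsurj : Function.Surjective (PrimeSpectrum.comap (algebraMap S T)))
    (P : Ideal R) (hP : P.IsPrime) :
    ∃ (W : Type u) (_ : CommRing W) (_ : Algebra R W), Module.Finite R W ∧
      Nonempty (T →ₐ[S] S ⊗[R] W) ∧
      ∀ p : Ideal R, p.IsPrime → P ≤ p → ∃ q : Ideal W, q.IsPrime ∧
        q.comap (algebraMap R W) = p := by
  let Ω := AlgebraicClosure (FractionRing (R ⧸ P))
  have hRΩ : ∀ x : R, algebraMap R Ω x = 0 → x ∈ P := by
    intro x hx
    have h3 : algebraMap R Ω x = algebraMap (FractionRing (R ⧸ P)) Ω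
        (algebraMap (R ⧸ P) (FractionRing (R ⧸ P)) (Ideal.Quotient.mk P x)) := by
      rw [IsScalarTower.algebraMap_apply R (FractionRing (R ⧸ P)) Ω,
        IsScalarTower.algebraMap_apply R (R ⧸ P) (FractionRing (R ⧸ P))]
      rfl
    rw [h3, map_eq_zero_iff _ (FaithfulSMul.algebraMap_injective _ _),
      map_eq_zero_iff _ (IsFractionRing.injective _ _), Ideal.Quotient.eq_zero_iff_mem] at hx
    exact hx
  have hint : Algebra.IsIntegral S T := Algebra.IsIntegral.of_finite S T
  obtain ⟨W, hW, hf⟩ := h2 R S T Ω inferInstance hfin (h1 R S T Ω het hint hsurj)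
  refine ⟨W, inferInstance, inferInstance, hW, hf, fun p hp hPp => ?_⟩
  have hintW : Algebra.IsIntegral R W := Algebra.IsIntegral.of_finite R W
  refine Ideal.exists_ideal_over_prime_of_isIntegral_of_isDomain p fun x hx => hPp (hRΩ x ?_)
  have h3 : algebraMap R W x = 0 := hx
  have h4 : algebraMap R Ω x = ((algebraMap R W x : W) : Ω) := rfl
  rw [h4, h3]
  rfl

end MET

theorem m_ET (h1 : StET1.{u}) (h2 : StET2.{u}) : StET.{u} := by
  intro R S _ _ _ het hR
  have hRn : IsNoetherianRing R := hR.1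
  refine ⟨Algebra.FiniteType.isNoetherianRing R S, fun T _ _ hT hsurj => ?_⟩
  have key := MET.onePrime h1 h2 R S T het hT hsurj
  choose W hWc hWa hWf hTf hWq using key
  let ι := {P : Ideal R // P ∈ minimalPrimes R}
  have hprime : ∀ P : ι, P.1.IsPrime := fun P => Ideal.minimalPrimes_isPrime P.2
  let V : ι → Type u := fun P => W P.1 (hprime P)
  let _ : ∀ P : ι, CommRing (V P) := fun P => hWc P.1 (hprime P)
  let _ : ∀ P : ι, Algebra R (V P) := fun P => hWa P.1 (hprime P)
  have hVf : ∀ P : ι, Module.Finite R (V P) := fun P => hWf P.1 (hprime P)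
  have hιf : Finite ι := (minimalPrimes.finite_of_isNoetherianRing R).to_subtype
  let _ : Fintype ι := Fintype.ofFinite ι
  classical
  have hPi : Module.Finite R (∀ P, V P) := inferInstance
  obtain ⟨σ, hσ⟩ := hR.2 (∀ P, V P) hPi fun p => by
    obtain ⟨P, hP, hPp⟩ := Ideal.exists_minimalPrimes_le (I := (⊥ : Ideal R)) (J := p.asIdeal)
      bot_le
    obtain ⟨q, hq, hqp⟩ := hWq P (hprime ⟨P, hP⟩) p.asIdeal p.2 hPp
    refine ⟨PrimeSpectrum.comap (Pi.evalRingHom V ⟨P, hP⟩) ⟨q, hq⟩, ?_⟩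
    apply PrimeSpectrum.ext
    rw [← hqp]
    rfl
  have hf : ∀ P : ι, Nonempty (T →ₐ[S] S ⊗[R] (V P)) := fun P => hTf P.1 (hprime P)
  let f : ∀ P : ι, T →ₐ[S] S ⊗[R] (V P) := fun P => Classical.choice (hf P)
  let ρ : T →ₗ[S] S := ∑ P : ι, (TensorProduct.AlgebraTensorModule.rid R S S).toLinearMap ∘ₗ
    (LinearMap.baseChange S (σ ∘ₗ LinearMap.single R V P)) ∘ₗ (f P).toLinearMap
  refine ⟨ρ, ?_⟩
  have h3 : ∀ P : ι, ((TensorProduct.AlgebraTensorModule.rid R S S).toLinearMap ∘ₗ
      (LinearMap.baseChange S (σ ∘ₗ LinearMap.single R V P)) ∘ₗ (f P).toLinearMap) 1 =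
      algebraMap R S (σ (Pi.single P 1)) := by
    intro P
    show (TensorProduct.AlgebraTensorModule.rid R S S)
      ((LinearMap.baseChange S (σ ∘ₗ LinearMap.single R V P)) (f P 1)) = _
    rw [map_one, Algebra.TensorProduct.one_def, LinearMap.baseChange_tmul,
      TensorProduct.AlgebraTensorModule.rid_tmul, Algebra.algebraMap_eq_smul_one]
    rfl
  show ρ 1 = 1
  rw [LinearMap.sum_apply, Finset.sum_congr rfl fun P _ => h3 P, ← map_sum, ← map_sum]
  have h4 : ∑ P : ι, (Pi.single P (1 : V P) : ∀ P, V P) = 1 :=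
    Finset.univ_sum_single (1 : ∀ P, V P)
  rw [h4, hσ, map_one]

end Pool.Agent.Helper44.SPL
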