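import Pool.Agent.Helper44.SPL.St5

/-! # SPL, module ET1 -/

set_option autoImplicit false

namespace Pool.Agent.Helper44.SPL

open Polynomial TensorProduct

universe u

namespace ET1

/-- a ring homomorphism to an algebraically closed field extends to an integral extension -/
theorem exists_extend {S T Ω : Type u} [CommRing S] [CommRing T] [Field Ω] [IsAlgClosed Ω]
    [Algebra S T] (hint : Algebra.IsIntegral S T)
    (hsurj : Function.Surjective (PrimeSpectrum.comap (algebraMap S T))) (ψ : S →+* Ω) :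
    ∃ φ : T →+* Ω, ∀ s, φ (algebraMap S T s) = ψ s := by
  obtain ⟨P, hP⟩ : ∃ P : Ideal S, P = RingHom.ker ψ := ⟨_, rfl⟩
  have hPp : P.IsPrime := by rw [hP]; exact RingHom.ker_isPrime ψ
  obtain ⟨Q, hQ⟩ := hsurj ⟨P, hPp⟩
  have hQp : Q.asIdeal.IsPrime := Q.isPrime
  have hQP : P = Q.asIdeal.comap (algebraMap S T) := by
    have h := congrArg PrimeSpectrum.asIdeal hQ
    exact h.symm
  have : Q.asIdeal.LiesOver P := ⟨hQP⟩
  have hlift : ∀ a ∈ P, ψ a = 0 := by
    intro a ha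
    rw [hP] at ha
    exact ha
  let _ : Algebra (S ⧸ P) Ω := (Ideal.Quotient.lift P ψ hlift).toAlgebra
  have hinj : Function.Injective (algebraMap (S ⧸ P) Ω) := by
    rw [injective_iff_map_eq_zero]
    intro a ha
    obtain ⟨a, rfl⟩ := Ideal.Quotient.mk_surjective a
    rw [Ideal.Quotient.eq_zero_iff_mem, hP]
    exact ha
  have h1 : FaithfulSMul (S ⧸ P) Ω := (faithfulSMul_iff_algebraMap_injective _ _).2 hinj
  have h2 : Algebra.IsIntegral (S ⧸ P) (T ⧸ Q.asIdeal) := inferInstance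
  have h3 : Function.Injective (algebraMap (S ⧸ P) (T ⧸ Q.asIdeal)) :=
    FaithfulSMul.algebraMap_injective _ _
  have h5 : Module.IsTorsionFree (S ⧸ P) (T ⧸ Q.asIdeal) :=
    Module.isTorsionFree_iff_algebraMap_injective.2 h3
  have h6 : Module.IsTorsionFree (S ⧸ P) Ω :=
    Module.isTorsionFree_iff_algebraMap_injective.2 hinj
  have h7 : Algebra.IsAlgebraic (S ⧸ P) (T ⧸ Q.asIdeal) := Algebra.IsIntegral.isAlgebraic
  let f : (T ⧸ Q.asIdeal) →ₐ[S ⧸ P] Ω := IsAlgClosed.lift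
  refine ⟨f.toRingHom.comp (Ideal.Quotient.mk Q.asIdeal), fun s => ?_⟩
  have h4 : Ideal.Quotient.mk Q.asIdeal (algebraMap S T s) =
      algebraMap (S ⧸ P) (T ⧸ Q.asIdeal) (Ideal.Quotient.mk P s) := rfl
  change f (Ideal.Quotient.mk Q.asIdeal (algebraMap S T s)) = ψ s
  rw [h4, f.commutes]
  rfl

end ET1

theorem m_ET1 : StET1.{u} := by
  intro R S T Ω _ _ _ _ _ _ _ _ hE hint hsurj
  have := hE
  let e := Algebra.FormallyEtale.equivPiOfIsSepClosed Ω (Ω ⊗[R] S)
  have h1 : ∀ p : PrimeSpectrum (Ω ⊗[R] S), ∃ φ : T →+* Ω,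
      ∀ s, φ (algebraMap S T s) = e (1 ⊗ₜ[R] s) p := by
    intro p
    let ψ : S →+* Ω := (Pi.evalRingHom (fun _ : PrimeSpectrum (Ω ⊗[R] S) => Ω) p).comp
      (e.toRingHom.comp (Algebra.TensorProduct.includeRight (R := R) (A := Ω) (B := S)).toRingHom)
    exact ET1.exists_extend hint hsurj ψ
  choose φ hφ using h1
  let c : Ω ⊗[R] S ≃ₐ[R] S ⊗[R] Ω := Algebra.TensorProduct.comm R Ω S
  let F : T →+* S ⊗[R] Ω := c.toRingHom.comp (e.symm.toRingHom.comp (RingHom.pi φ))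
  refine ⟨{ F with commutes' := fun s => ?_ }⟩
  change c (e.symm (fun p => φ p (algebraMap S T s))) = algebraMap S (S ⊗[R] Ω) s
  have h2 : (fun p => φ p (algebraMap S T s)) = e (1 ⊗ₜ[R] s) := funext fun p => hφ p s
  rw [h2, AlgEquiv.symm_apply_apply]
  rfl

end Pool.Agent.Helper44.SPL
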