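import Pool.Agent.Helper44.SPL.St5

/-! Project SPL, module ET2: descent of a map to a finite subalgebra. -/

set_option autoImplicit false

namespace Pool.Agent.Helper44.SPL

open TensorProduct

universe u

namespace ET2

variable {R S Ω : Type u} [CommRing R] [CommRing S] [CommRing Ω] [Algebra R S] [Algebra R Ω]

/-- the map `S ⊗ W → S ⊗ Ω`. -/
noncomputable def incl (S : Type u) [CommRing S] [Algebra R S] (W : Subalgebra R Ω) :
    S ⊗[R] W →ₐ[S] S ⊗[R] Ω :=
  Algebra.TensorProduct.map (AlgHom.id S S) W.val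

theorem exists_fin (y : S ⊗[R] (integralClosure R Ω)) :
    ∃ s : Set Ω, s.Finite ∧ (∀ x ∈ s, IsIntegral R x) ∧ ∀ W : Subalgebra R Ω, s ⊆ W →
      incl S (integralClosure R Ω) y ∈ (incl S W).range := by
  induction y with
  | zero => exact ⟨∅, Set.finite_empty, fun x hx => absurd hx (Set.notMem_empty x),
      fun W _ => by rw [map_zero]; exact Subalgebra.zero_mem _⟩
  | tmul a w =>
    refine ⟨{(w : Ω)}, Set.finite_singleton _, ?_, fun W hW => ?_⟩
    · intro x hx
      rw [Set.mem_singleton_iff] at hx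
      rw [hx]
      exact w.2
    · exact ⟨a ⊗ₜ ⟨(w : Ω), hW (Set.mem_singleton _)⟩, rfl⟩
  | add y z hy hz =>
    obtain ⟨s, h1, h2, h3⟩ := hy
    obtain ⟨t, h4, h5, h6⟩ := hz
    refine ⟨s ∪ t, h1.union h4, ?_, fun W hW => ?_⟩
    · rintro x (hx | hx)
      · exact h2 x hx
      · exact h5 x hx
    · rw [map_add]
      exact Subalgebra.add_mem _ (h3 W (Set.subset_union_left.trans hW))
        (h6 W (Set.subset_union_right.trans hW))

end ET2

theorem m_ET2 : StET2.{u} := by
  intro R S T Ω _ _ _ _ _ _ _ hsm hfin hf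
  obtain ⟨f⟩ := hf
  obtain ⟨G, hG⟩ := hfin.fg_top
  have hsurj := (TensorProduct.toIntegralClosure_bijective_of_smooth
    (R := R) (S := S) (B := Ω)).2
  have hint : ∀ t : T, IsIntegral S (f t) := fun t =>
    (Algebra.IsIntegral.isIntegral (R := S) t).map f
  have key : ∀ t : T, ∃ s : Set Ω, s.Finite ∧ (∀ x ∈ s, IsIntegral R x) ∧
      ∀ W : Subalgebra R Ω, s ⊆ W → f t ∈ (ET2.incl S W).range := by
    intro t
    obtain ⟨y, hy⟩ := hsurj ⟨f t, hint t⟩
    have hy' : ET2.incl S (integralClosure R Ω) y = f t := congrArg Subtype.val hy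
    rw [← hy']
    exact ET2.exists_fin y
  choose s hs1 hs2 hs3 using key
  let U : Set Ω := ⋃ t ∈ G, s t
  have hU : U.Finite := Set.Finite.biUnion G.finite_toSet fun t _ => hs1 t
  have hUi : ∀ x ∈ U, IsIntegral R x := by
    intro x hx
    obtain ⟨t, _, ht⟩ := Set.mem_iUnion₂.1 hx
    exact hs2 t x ht
  have hsU : ∀ t ∈ G, s t ⊆ Algebra.adjoin R U := fun t ht =>
    (Set.subset_biUnion_of_mem (u := fun t => s t) ht).trans Algebra.subset_adjoin
  have hrange : ∀ t : T, f t ∈ (ET2.incl S (Algebra.adjoin R U)).range := by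
    intro t
    have ht : t ∈ Submodule.span S (G : Set T) := by rw [hG]; exact Submodule.mem_top
    induction ht using Submodule.span_induction with
    | mem x hx => exact hs3 x _ (hsU x hx)
    | zero => rw [map_zero]; exact Subalgebra.zero_mem _
    | add x y _ _ hx hy => rw [map_add]; exact Subalgebra.add_mem _ hx hy
    | smul a x _ hx => rw [map_smul]; exact Subalgebra.smul_mem _ hx a
  have hinj : Function.Injective (ET2.incl S (Algebra.adjoin R U)) :=
    Module.Flat.lTensor_preserves_injective_linearMap (M := S)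
      (Algebra.adjoin R U).val.toLinearMap Subtype.val_injective
  exact ⟨Algebra.adjoin R U, Algebra.finite_adjoin_of_finite_of_isIntegral hU hUi,
    ⟨((AlgEquiv.ofInjective _ hinj).symm : _ →ₐ[S] _).comp (f.codRestrict _ hrange)⟩⟩

end Pool.Agent.Helper44.SPL
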