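import Pool.Agent.Helper44.SPL.St

/-! # SPL, module EV -/

set_option autoImplicit false

namespace Pool.Agent.Helper44.SPL

open Polynomial

universe u

namespace EV

variable {Ω : Type u} [Field Ω]

theorem icl_le_val {s : Set Ω} {V : ValuationSubring Ω} (h : ∀ x ∈ s, x ∈ V) {x : Ω}
    (hx : x ∈ icl s) : x ∈ V := by
  have h1 : icl s = ⨅ V : {V : ValuationSubring Ω // s ⊆ V.toSubring}, V.1.toSubring :=
    (iInf_valuationSubring_superset).symm
  rw [h1] at hx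
  have h2 := iInf_le (fun V : {V : ValuationSubring Ω // s ⊆ V.toSubring} => V.1.toSubring)
    ⟨V, h⟩
  exact h2 hx

theorem sub_icl (s : Set Ω) {x : Ω} (hx : x ∈ s) : x ∈ icl s := by
  have h1 : x ∈ Subring.closure s := Subring.subset_closure hx
  exact isIntegral_algebraMap (R := Subring.closure s) (x := ⟨x, h1⟩)

theorem w_neg {A : Type u} [CommRing A] {ϖ : A} {v : A → ℝ} (h : IsMs ϖ v) (a : A) :
    v (-a) = v a := by
  have h1 : v (-1) * v (-1) = 1 := by rw [← h.mul, neg_mul_neg, one_mul, h.one]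
  have h2 : v (-1) = 1 := by
    nlinarith [h.nonneg (-1), h.le_one (-1)]
  rw [← neg_one_mul, h.mul, h2, one_mul]

theorem ne_of_w {D : Subring Ω} {ϖ : D} {w : D → ℝ} (h : IsMs ϖ w) {b : D} (hb : w b ≠ 0) :
    (b : Ω) ≠ 0 := by
  intro h1
  refine hb ?_
  have h2 : b = 0 := Subtype.ext h1
  rw [h2, h.zero]

/-- `Av D w` is a subring -/
def Avr (D : Subring Ω) {ϖ : D} (w : D → ℝ) (h : IsMs ϖ w) : Subring Ω where
  carrier := Av D w
  mul_mem' := by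
    rintro x y ⟨a, b, hb, hab, rfl⟩ ⟨c, d, hd, hcd, rfl⟩
    refine ⟨a * c, b * d, ?_, ?_, ?_⟩
    · rw [h.mul]; exact mul_ne_zero hb hd
    · rw [h.mul, h.mul]; exact mul_le_mul hab hcd (h.nonneg _) (h.nonneg _)
    · push_cast
      exact div_mul_div_comm _ _ _ _
  one_mem' := ⟨1, 1, by rw [h.one]; exact one_ne_zero, le_refl _, by simp⟩
  add_mem' := by
    rintro x y ⟨a, b, hb, hab, rfl⟩ ⟨c, d, hd, hcd, rfl⟩
    refine ⟨a * d + b * c, b * d, ?_, ?_, ?_⟩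
    · rw [h.mul]; exact mul_ne_zero hb hd
    · refine (h.add _ _).trans (max_le ?_ ?_)
      · rw [h.mul, h.mul]; exact mul_le_mul_of_nonneg_right hab (h.nonneg _)
      · rw [h.mul, h.mul]; exact mul_le_mul_of_nonneg_left hcd (h.nonneg _)
    · push_cast
      exact div_add_div _ _ (ne_of_w h hb) (ne_of_w h hd)
  zero_mem' := ⟨0, 1, by rw [h.one]; exact one_ne_zero, by rw [h.zero]; exact h.nonneg _, by simp⟩
  neg_mem' := by
    rintro x ⟨a, b, hb, hab, rfl⟩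
    refine ⟨-a, b, hb, ?_, ?_⟩
    · rw [w_neg h]; exact hab
    · push_cast
      exact (neg_div _ _).symm

theorem le_of_icl {D : Subring Ω} {ϖ : D} {w : D → ℝ} (h : IsMs ϖ w) {s : Set Ω}
    (hs : ∀ x ∈ s, x ∈ Av D w) {d t : D} (ht : w t ≠ 0) (hy : (d : Ω) / (t : Ω) ∈ icl s) :
    w d ≤ w t := by
  by_contra hcon
  rw [not_le] at hcon
  have hd : w d ≠ 0 := ((h.nonneg t).trans_lt hcon).ne'
  have hd0 := ne_of_w h hd
  have ht0 := ne_of_w h ht
  have hyi : ((d : Ω) / (t : Ω))⁻¹ ∈ Avr D w h := by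
    rw [inv_div]
    exact ⟨t, d, hd, hcon.le, rfl⟩
  have hyn : (d : Ω) / (t : Ω) ∉ Avr D w h := by
    rintro ⟨e, f, hf, hef, hdt⟩
    have hf0 := ne_of_w h hf
    rw [div_eq_div_iff ht0 hf0] at hdt
    have h1 : d * f = e * t := Subtype.ext hdt
    have h2 : w d * w f = w e * w t := by rw [← h.mul, h1, h.mul]
    have h3 : 0 < w f := lt_of_le_of_ne (h.nonneg f) hf.symm
    have h4 : 0 < w t := lt_of_le_of_ne (h.nonneg t) ht.symm
    nlinarith
  have hI : Ideal.span {(⟨((d : Ω) / (t : Ω))⁻¹, hyi⟩ : Avr D w h)} ≠ ⊤ := by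
    rw [Ne, Ideal.span_singleton_eq_top]
    intro hu
    obtain ⟨⟨b, hb⟩, hab⟩ := isUnit_iff_exists_inv.1 hu
    have h3 : ((d : Ω) / (t : Ω))⁻¹ * b = 1 := congrArg Subtype.val hab
    refine hyn ?_
    have h5 := eq_inv_of_mul_eq_one_right h3
    rw [inv_inv] at h5
    rw [← h5]
    exact hb
  obtain ⟨V, hV, hVn⟩ := Ideal.image_subset_nonunits_valuationSubring _ hI
  have h6 : (d : Ω) / (t : Ω) ∈ V := icl_le_val (fun x hx => hV (hs x hx)) hy
  have h7 : ((d : Ω) / (t : Ω))⁻¹ ∈ V.nonunits := hVn ⟨_, Ideal.subset_span rfl, rfl⟩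
  have h8 := (V.inv_mem_nonunits_iff.1 h7)
  rcases h8 with h8 | h8
  · exact div_ne_zero hd0 ht0 h8
  · exact h8 h6

section pw

variable {p : ℕ} [Fact p.Prime] [CharZero Ω] (S : RootSys Ω p)

theorem pw_zero : S.pw 0 = 1 := by
  have h1 := S.add 0 1
  rw [zero_add, S.one] at h1
  have hp : (p : Ω) ≠ 0 := Nat.cast_ne_zero.2 (Fact.out : p.Prime).ne_zero
  exact (mul_right_cancel₀ hp (by rw [one_mul]; exact h1)).symm

theorem pw_nsmul (a : ℚ) (n : ℕ) : S.pw (n * a) = S.pw a ^ n := by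
  induction n with
  | zero => rw [Nat.cast_zero, zero_mul, pw_zero, pow_zero]
  | succ n ih =>
    have h1 : ((n + 1 : ℕ) : ℚ) * a = n * a + a := by push_cast; ring
    rw [h1, S.add, ih, pow_succ]

theorem pw_nat (n : ℕ) : S.pw n = (p : Ω) ^ n := by
  have h1 := pw_nsmul S 1 n
  rw [mul_one, S.one] at h1
  exact h1

theorem exists_pow {lam : ℚ} (h : 0 < lam) : ∃ N M : ℕ, 0 < N ∧ (N : ℚ) * lam = M ∧
    S.pw lam ^ N = (p : Ω) ^ M := by
  have h1 : (lam.den : ℚ) * lam = (lam.num.toNat : ℕ) := by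
    have h2 : (0 : ℤ) ≤ lam.num := (Rat.num_pos.2 h).le
    have h3 : ((lam.num.toNat : ℕ) : ℚ) = (lam.num : ℚ) := by
      have h4 : ((lam.num.toNat : ℕ) : ℤ) = lam.num := Int.toNat_of_nonneg h2
      exact_mod_cast congrArg (fun z : ℤ => (z : ℚ)) h4
    rw [h3, mul_comm]
    exact Rat.mul_den_eq_num lam
  refine ⟨lam.den, lam.num.toNat, lam.den_pos, h1, ?_⟩
  rw [← pw_nsmul, h1, pw_nat]

theorem pw_mem_icl {lam : ℚ} (h : 0 < lam) (s : Set Ω) : S.pw lam ∈ icl s := by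
  obtain ⟨N, M, hN, -, h2⟩ := exists_pow S h
  have h3 : IsIntegral (Subring.closure s) (S.pw lam) := by
    refine IsIntegral.of_pow hN ?_
    rw [h2]
    have h4 : (p : Ω) ^ M = algebraMap (Subring.closure s) Ω ((p : Subring.closure s) ^ M) := by
      simp
    rw [h4]
    exact isIntegral_algebraMap
  exact h3

theorem w_pw {D : Subring Ω} {w : D → ℝ} (h : IsMs (p : D) w) {lam : ℚ} (hl : 0 < lam)
    (hm : S.pw lam ∈ D) : w ⟨S.pw lam, hm⟩ = (1 / 2 : ℝ) ^ (lam : ℝ) := by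
  obtain ⟨N, M, hN, h1, h2⟩ := exists_pow S hl
  have hpow : ∀ (x : D) (n : ℕ), w (x ^ n) = w x ^ n := by
    intro x n
    induction n with
    | zero => rw [pow_zero, pow_zero, h.one]
    | succ n ih => rw [pow_succ, pow_succ, h.mul, ih]
  have h3 : (⟨S.pw lam, hm⟩ : D) ^ N = (p : D) ^ M := by
    apply Subtype.ext
    push_cast
    exact h2
  have h4 : w ⟨S.pw lam, hm⟩ ^ N = (1 / 2 : ℝ) ^ M := by
    rw [← hpow, h3, hpow, h.pi]
  have h5 : ((1 / 2 : ℝ) ^ (lam : ℝ)) ^ N = (1 / 2 : ℝ) ^ M := by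
    rw [← Real.rpow_natCast, ← Real.rpow_mul (by norm_num), ← Real.rpow_natCast]
    congr 1
    rw [mul_comm]
    exact_mod_cast h1
  exact (pow_left_inj₀ (h.nonneg _) (by positivity) hN.ne').1 (h4.trans h5.symm)

end pw

end EV

open EV in
theorem m_EV : StEV.{u} := by
  intro Ω _ _ _ p _ S A hA X w hw v hv x a b lam hlam hx hb hy h
  have hAD : ∀ z ∈ A, z ∈ icl ((A : Set Ω) ∪ {X}) := fun z hz => sub_icl _ (Or.inl hz)
  have hpm : S.pw lam ∈ icl ((A : Set Ω) ∪ {X}) := pw_mem_icl S hlam _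
  have hbD := hAD b b.2
  have hwb : w ⟨b, hbD⟩ = v b := hv b b.2 hbD
  have hwp := w_pw S hw hlam hpm
  have hp0 : (0 : ℝ) < (1 / 2 : ℝ) ^ (lam : ℝ) := by positivity
  have hvb : (b : Ω) ≠ 0 := ne_of_w (b := ⟨(b : Ω), hbD⟩) hw (by rw [hwb]; exact hb)
  have hpne : S.pw lam ≠ 0 :=
    ne_of_w (b := ⟨S.pw lam, hpm⟩) hw (by rw [hwp]; exact hp0.ne')
  have ht : w (⟨S.pw lam, hpm⟩ * ⟨b, hbD⟩) = (1 / 2 : ℝ) ^ (lam : ℝ) * v b := by
    rw [hw.mul, hwp, hwb]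
  rw [← ht]
  refine le_of_icl hw (s := Av A v ∪ {X}) ?_ ?_ ?_
  · rintro z (⟨c, d, hd, hcd, rfl⟩ | hz)
    · refine ⟨⟨c, hAD c c.2⟩, ⟨d, hAD d d.2⟩, ?_, ?_, rfl⟩
      · rw [hv d d.2]; exact hd
      · rw [hv d d.2, hv c c.2]; exact hcd
    · rw [Set.mem_singleton_iff.1 hz]
      refine ⟨⟨X, sub_icl _ (Or.inr rfl)⟩, 1, ?_, ?_, ?_⟩
      · rw [hw.one]; exact one_ne_zero
      · rw [hw.one]; exact hw.le_one _
      · simp
  · rw [ht]
    exact mul_ne_zero hp0.ne' hb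
  · have h1 : ((⟨(b : Ω) * x - a, h⟩ : icl ((A : Set Ω) ∪ {X})) : Ω) /
        (((⟨S.pw lam, hpm⟩ : icl ((A : Set Ω) ∪ {X})) * ⟨b, hbD⟩ :
          icl ((A : Set Ω) ∪ {X})) : Ω) = (x - (a : Ω) / (b : Ω)) / S.pw lam := by
      change ((b : Ω) * x - a) / (S.pw lam * b) = (x - (a : Ω) / (b : Ω)) / S.pw lam
      field_simp
    rw [h1]
    exact hy

end Pool.Agent.Helper44.SPL
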