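import Pool.Agent.Helper44.SPL.St

/-!
# Splinters in mixed characteristic: module EXT (extension of seminorms)
-/

set_option autoImplicit false

namespace Pool.Agent.Helper44.SPL

open Polynomial

universe u

namespace EXTaux

lemma sep {x y : ℝ} (hx : 0 ≤ x) (hxy : x < y) (hy : y ≤ 1) :
    ∃ n m : ℕ, x ^ n < (1 / 2 : ℝ) ^ m ∧ (1 / 2 : ℝ) ^ m < y ^ n := by
  have hy0 : 0 < y := lt_of_le_of_lt hx hxy
  obtain ⟨n, hn⟩ := exists_pow_lt_of_lt_one (show (0 : ℝ) < 1 / 2 by norm_num)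
    ((div_lt_one hy0).2 hxy)
  have h1 : x ^ n < 1 / 2 * y ^ n := by
    rw [div_pow, div_lt_iff₀ (pow_pos hy0 n)] at hn
    exact hn
  obtain ⟨m, hm1, hm2⟩ := exists_nat_pow_near_of_lt_one (pow_pos hy0 n)
    (pow_le_one₀ hy0.le hy) (show (0 : ℝ) < 1 / 2 by norm_num)
    (show (1 / 2 : ℝ) < 1 by norm_num)
  refine ⟨n, m + 1, ?_, hm1⟩
  rw [pow_succ]
  linarith

section

variable {A : Type u} [CommRing A] {ϖ : A} {v : A → ℝ}

lemma ms_pow (hv : IsMs ϖ v) (a : A) (n : ℕ) : v (a ^ n) = v a ^ n := by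
  induction n with
  | zero => rw [pow_zero, pow_zero, hv.one]
  | succ n ih => rw [pow_succ, hv.mul, ih, pow_succ]

lemma ms_neg (hv : IsMs ϖ v) (a : A) : v (-a) = v a := by
  have h1 : v (-1) * v (-1) = 1 := by
    rw [← hv.mul, neg_mul_neg, one_mul, hv.one]
  have h2 : v (-1) = 1 := by
    have h3 := hv.nonneg (-1)
    have h4 := hv.le_one (-1)
    nlinarith
  rw [show -a = -1 * a by ring, hv.mul, h2, one_mul]

lemma ms_ne (hv : IsMs ϖ v) {a : A} (h : v a ≠ 0) : a ≠ 0 := by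
  rintro rfl
  exact h hv.zero

end

section

variable {Ω : Type u} [Field Ω]

lemma coe_ne {A : Subring Ω} {ϖ : A} {v : A → ℝ} (hv : IsMs ϖ v) {a : A} (h : v a ≠ 0) :
    (a : Ω) ≠ 0 := by
  intro h1
  exact ms_ne hv h (Subtype.ext h1)

/-- the subring of the fractions `a / b` with `v a ≤ v b ≠ 0` -/
def Rv {A : Subring Ω} {ϖ : A} {v : A → ℝ} (hv : IsMs ϖ v) : Subring Ω where
  carrier := Av A v
  mul_mem' := by
    rintro x y ⟨a, b, hb, hab, rfl⟩ ⟨c, d, hd, hcd, rfl⟩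
    refine ⟨a * c, b * d, ?_, ?_, ?_⟩
    · rw [hv.mul]
      exact mul_ne_zero hb hd
    · rw [hv.mul, hv.mul]
      exact mul_le_mul hab hcd (hv.nonneg _) (hv.nonneg _)
    · push_cast
      rw [div_mul_div_comm]
  one_mem' := ⟨1, 1, by rw [hv.one]; exact one_ne_zero, le_rfl, by simp⟩
  add_mem' := by
    rintro x y ⟨a, b, hb, hab, rfl⟩ ⟨c, d, hd, hcd, rfl⟩
    refine ⟨a * d + b * c, b * d, ?_, ?_, ?_⟩
    · rw [hv.mul]
      exact mul_ne_zero hb hd
    · refine (hv.add _ _).trans (max_le ?_ ?_)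
      · rw [hv.mul, hv.mul]
        exact mul_le_mul_of_nonneg_right hab (hv.nonneg _)
      · rw [hv.mul, hv.mul]
        exact mul_le_mul_of_nonneg_left hcd (hv.nonneg _)
    · push_cast
      rw [div_add_div _ _ (coe_ne hv hb) (coe_ne hv hd)]
  zero_mem' := ⟨0, 1, by rw [hv.one]; exact one_ne_zero, by rw [hv.zero]; exact hv.nonneg _,
    by simp⟩
  neg_mem' := by
    rintro x ⟨a, b, hb, hab, rfl⟩
    refine ⟨-a, b, hb, ?_, ?_⟩
    · rw [ms_neg hv]
      exact hab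
    · push_cast
      rw [neg_div]

lemma mem_Rv {A : Subring Ω} {ϖ : A} {v : A → ℝ} (hv : IsMs ϖ v) (a : A) :
    (a : Ω) ∈ Rv hv :=
  ⟨a, 1, by rw [hv.one]; exact one_ne_zero, by rw [hv.one]; exact hv.le_one a, by simp⟩

/-- a seminorm of a valuation ring which contains the fractions agrees with `v` -/
lemma agree {A : Subring Ω} {p : ℕ} {v : A → ℝ} (hv : IsMs (p : A) v)
    (W : ValuationSubring Ω) (hW : Rv hv ≤ W.toSubring) (w : W → ℝ) (hw : IsMs (p : W) w)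
    (a : A) (h : (a : Ω) ∈ W) : w ⟨a, h⟩ = v a := by
  have hAW : ∀ b : A, (b : Ω) ∈ W := fun b => hW (mem_Rv hv b)
  -- monotonicity
  have hmon : ∀ b c : A, v c ≠ 0 → v b ≤ v c → w ⟨b, hAW b⟩ ≤ w ⟨c, hAW c⟩ := by
    intro b c hc hbc
    have h1 : (b : Ω) / (c : Ω) ∈ W := hW ⟨b, c, hc, hbc, rfl⟩
    have h2 : (⟨b, hAW b⟩ : W) = ⟨(b : Ω) / (c : Ω), h1⟩ * ⟨c, hAW c⟩ := by
      apply Subtype.ext
      show (b : Ω) = (b : Ω) / (c : Ω) * (c : Ω)
      rw [div_mul_cancel₀ _ (coe_ne hv hc)]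
    rw [h2, hw.mul]
    exact mul_le_of_le_one_left (hw.nonneg _) (hw.le_one _)
  have hpw : ∀ (b : A) (n : ℕ), w ⟨(b ^ n : A), hAW _⟩ = w ⟨b, hAW b⟩ ^ n := by
    intro b n
    rw [← ms_pow hw]
    congr 1
  have hpp : ∀ m : ℕ, w ⟨((p : A) ^ m : A), hAW _⟩ = (1 / 2 : ℝ) ^ m := by
    intro m
    rw [hpw]
    have h1 : (⟨((p : A) : Ω), hAW (p : A)⟩ : W) = (p : W) := by
      apply Subtype.ext
      simp
    rw [h1, hw.pi]
  have hvp : ∀ m : ℕ, v ((p : A) ^ m) = (1 / 2 : ℝ) ^ m := fun m => by rw [ms_pow hv, hv.pi]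
  have hp0 : ∀ m : ℕ, (1 / 2 : ℝ) ^ m ≠ 0 := fun m => by positivity
  rcases lt_trichotomy (w ⟨a, h⟩) (v a) with h1 | h1 | h1
  · exfalso
    obtain ⟨n, m, h2, h3⟩ := sep (hw.nonneg _) h1 (hv.le_one a)
    have h4 := hmon ((p : A) ^ m) (a ^ n) (by
        rw [ms_pow hv]
        exact (lt_trans (by positivity) h3).ne') (by
        rw [hvp, ms_pow hv]
        exact h3.le)
    rw [hpp, hpw] at h4
    exact absurd h2 (not_lt.2 h4)
  · exact h1
  · exfalso
    obtain ⟨n, m, h2, h3⟩ := sep (hv.nonneg _) h1 (hw.le_one _)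
    have h4 := hmon (a ^ n) ((p : A) ^ m) (by rw [hvp]; exact hp0 m) (by
        rw [hvp, ms_pow hv]
        exact h2.le)
    rw [hpp, hpw] at h4
    exact absurd h3 (not_lt.2 h4)

/-- the integral closure of a subset of a valuation ring -/
lemma icl_le (s : Set Ω) (W : ValuationSubring Ω) (h : s ⊆ W.toSubring) :
    icl s ≤ W.toSubring := by
  unfold icl
  rw [← iInf_valuationSubring_superset]
  exact iInf_le (fun V : {V : ValuationSubring Ω // s ⊆ V.toSubring} => V.1.toSubring) ⟨W, h⟩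

/-- restriction of seminorms -/
lemma restr {p : ℕ} (D : Subring Ω) (W : ValuationSubring Ω) (hD : D ≤ W.toSubring)
    (w : W → ℝ) (hw : IsMs (p : W) w) :
    IsMs (p : D) (fun d : D => w ⟨d, hD d.2⟩) where
  nonneg := fun a => hw.nonneg _
  zero := hw.zero
  one := hw.one
  mul := fun a b => hw.mul ⟨a, hD a.2⟩ ⟨b, hD b.2⟩
  add := fun a b => hw.add ⟨a, hD a.2⟩ ⟨b, hD b.2⟩
  le_one := fun a => hw.le_one _
  pi := by
    rw [← hw.pi]
    congr 1

end

end EXTaux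

open EXTaux in
theorem m_EXT (h : StV1.{u}) : StEXT.{u} := by
  intro Ω _ _ _ p hp A hA v hv X hX
  have hp0 : (p : Ω) ≠ 0 := Nat.cast_ne_zero.2 hp.out.ne_zero
  -- `p` is not a unit in the ring of fractions
  have hI : Ideal.span {((p : ℕ) : Rv hv)} ≠ ⊤ := by
    intro htop
    rw [Ideal.span_singleton_eq_top] at htop
    obtain ⟨c, hc⟩ := htop.exists_right_inv
    obtain ⟨a, b, hb, hab, hcab⟩ := c.2
    have h1 : (p : Ω) * (c : Ω) = 1 := by
      have := congrArg (Subtype.val) hc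
      simpa using this
    have h2 : (b : Ω) = (p : Ω) * (a : Ω) := by
      rw [hcab, mul_div_assoc', div_eq_one_iff_eq (coe_ne hv hb)] at h1
      exact h1.symm
    have h3 : b = (p : A) * a := by
      apply Subtype.ext
      rw [h2]
      simp
    have h4 : v b = 1 / 2 * v a := by rw [h3, hv.mul, hv.pi]
    have h5 := hv.nonneg b
    have h6 : 0 < v b := lt_of_le_of_ne h5 (Ne.symm hb)
    linarith
  obtain ⟨W, hRW, hIW⟩ := Ideal.image_subset_nonunits_valuationSubring _ hI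
  have hpn : (p : Ω) ∈ W.nonunits := by
    apply hIW
    exact ⟨(p : Rv hv), Ideal.subset_span rfl, by simp⟩
  have hpu : ¬ IsUnit (p : W) := by
    have h1 : ((p : W) : Ω) ∈ W.nonunits := by simpa using hpn
    exact ValuationSubring.coe_mem_nonunits_iff.1 h1
  have hpW : (p : W) ≠ 0 := by
    intro h1
    apply hp0
    have := congrArg Subtype.val h1
    simpa using this
  obtain ⟨w, hw⟩ := h W (p : W) hpW hpu
  have hAW : (A : Set Ω) ⊆ W.toSubring := fun a ha => hRW (mem_Rv hv ⟨a, ha⟩)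
  rcases W.mem_or_inv_mem X with hXW | hXW
  · left
    have hD : icl ((A : Set Ω) ∪ {X}) ≤ W.toSubring := by
      refine icl_le _ W (Set.union_subset hAW ?_)
      rintro _ rfl
      exact hXW
    exact ⟨_, restr _ W hD w hw, fun a ha _ => agree hv W hRW w hw ⟨a, ha⟩ (hAW ha)⟩
  · right
    have hD : icl ((A : Set Ω) ∪ {X⁻¹}) ≤ W.toSubring := by
      refine icl_le _ W (Set.union_subset hAW ?_)
      rintro _ rfl
      exact hXW
    exact ⟨_, restr _ W hD w hw, fun a ha _ => agree hv W hRW w hw ⟨a, ha⟩ (hAW ha)⟩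

end Pool.Agent.Helper44.SPL

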