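import Pool.Agent.Helper44.SPL.St

/-!
# Splinters in mixed characteristic: module FIN (the main theorem, one step)
-/

set_option autoImplicit false

namespace Pool.Agent.Helper44.SPL

open Polynomial

universe u

namespace FINaux

variable {Ω : Type u} [Field Ω]

/-! ### integral closures and valuation subrings -/

lemma icl_le {s : Set Ω} {W : ValuationSubring Ω} (h : s ⊆ (W : Set Ω)) {x : Ω}
    (hx : x ∈ icl s) : x ∈ W := by
  have h1 : icl s = ⨅ V : {V : ValuationSubring Ω // s ⊆ V.toSubring}, V.1.toSubring :=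
    iInf_valuationSubring_superset.symm
  rw [h1, Subring.mem_iInf] at hx
  exact hx ⟨W, h⟩

lemma mem_icl {s : Set Ω} {x : Ω}
    (h : ∀ W : ValuationSubring Ω, s ⊆ (W : Set Ω) → x ∈ W) : x ∈ icl s := by
  have h1 : icl s = ⨅ V : {V : ValuationSubring Ω // s ⊆ V.toSubring}, V.1.toSubring :=
    iInf_valuationSubring_superset.symm
  rw [h1, Subring.mem_iInf]
  exact fun V => h V.1 V.2

lemma sub_icl {s : Set Ω} : s ⊆ (icl s : Set Ω) := fun _ hx => mem_icl fun _ hW => hW hx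

lemma icl_mono {s s' : Set Ω} (h : s ⊆ s') {x : Ω} (hx : x ∈ icl s) : x ∈ icl s' :=
  mem_icl fun _ hW => icl_le (h.trans hW) hx

lemma icl_sub {s : Set Ω} {W : ValuationSubring Ω} (h : s ⊆ (W : Set Ω)) :
    (icl s : Set Ω) ⊆ (W : Set Ω) := fun _ hx => icl_le h hx

lemma ic_icl (s : Set Ω) : IC (icl s) := by
  unfold IC
  ext x
  constructor
  · intro hx
    exact mem_icl fun W hW => icl_le (icl_sub hW) hx
  · intro hx
    exact sub_icl hx

lemma closure_sub {s : Set Ω} {W : ValuationSubring Ω} (h : s ⊆ (W : Set Ω)) :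
    ((Subring.closure s : Subring Ω) : Set Ω) ⊆ (W : Set Ω) :=
  (Subring.closure_le (t := W.toSubring)).2 h

/-! ### powers -/

lemma mem_of_pow {W : ValuationSubring Ω} {x : Ω} {n : ℕ} (hn : 0 < n) (h : x ^ n ∈ W) :
    x ∈ W := by
  rcases W.mem_or_inv_mem x with h1 | h1
  · exact h1
  by_cases hx : x = 0
  · rw [hx]; exact W.zero_mem
  obtain ⟨m, rfl⟩ : ∃ m, n = m + 1 := ⟨n - 1, by omega⟩
  have h2 : x = x ^ (m + 1) * (x⁻¹) ^ m := by
    rw [pow_succ', mul_assoc, ← mul_pow, mul_inv_cancel₀ hx, one_pow, mul_one]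
  rw [h2]
  exact W.mul_mem _ _ h (pow_mem h1 m)

section pw

variable {p : ℕ} (S : RootSys Ω p)

lemma pw_zero (hp : (p : Ω) ≠ 0) : S.pw 0 = 1 := by
  have h1 : S.pw 0 * S.pw 1 = S.pw 1 := by rw [← S.add, zero_add]
  rw [S.one] at h1
  exact mul_right_cancel₀ hp (by rw [h1, one_mul])

lemma pw_ne (hp : (p : Ω) ≠ 0) (c : ℚ) : S.pw c ≠ 0 := by
  intro h
  have h1 : S.pw c * S.pw (-c) = S.pw 0 := by rw [← S.add, add_neg_cancel]
  rw [h, zero_mul, pw_zero S hp] at h1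
  exact zero_ne_one h1

lemma pw_neg (hp : (p : Ω) ≠ 0) (c : ℚ) : S.pw (-c) = (S.pw c)⁻¹ := by
  have h1 : S.pw c * S.pw (-c) = 1 := by rw [← S.add, add_neg_cancel, pw_zero S hp]
  exact eq_inv_of_mul_eq_one_right h1

lemma pw_nat (hp : (p : Ω) ≠ 0) (c : ℚ) (n : ℕ) : S.pw (n * c) = S.pw c ^ n := by
  induction n with
  | zero => simp [pw_zero S hp]
  | succ n ih =>
    rw [pow_succ, ← ih, ← S.add]
    congr 1
    push_cast
    ring

lemma pw_int (hp : (p : Ω) ≠ 0) (m : ℤ) : S.pw m = (p : Ω) ^ m := by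
  rcases m with n | n
  · have h1 := pw_nat S hp 1 n
    rw [mul_one, S.one] at h1
    simpa using h1
  · have h1 := pw_nat S hp 1 (n + 1)
    rw [mul_one, S.one] at h1
    rw [zpow_negSucc, ← h1, ← pw_neg S hp]
    congr 1

lemma pw_den (hp : (p : Ω) ≠ 0) (c : ℚ) : S.pw c ^ c.den = (p : Ω) ^ c.num := by
  rw [← pw_nat S hp, ← pw_int S hp]
  congr 1
  rw [mul_comm]
  exact Rat.mul_den_eq_num c

lemma pw_mem (hp : (p : Ω) ≠ 0) (W : ValuationSubring Ω) {c : ℚ} (hc : 0 ≤ c) : S.pw c ∈ W := by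
  refine mem_of_pow c.den_pos ?_
  rw [pw_den S hp]
  obtain ⟨n, hn⟩ := Int.eq_ofNat_of_zero_le (Rat.num_nonneg.2 hc)
  rw [hn, zpow_natCast]
  exact pow_mem (natCast_mem W p) n

lemma pw_mem' (hp : (p : Ω) ≠ 0) (W : ValuationSubring Ω) (hW : (p : Ω)⁻¹ ∈ W) (c : ℚ) :
    S.pw c ∈ W := by
  refine mem_of_pow c.den_pos ?_
  rw [pw_den S hp]
  rcases c.num with n | n
  · rw [Int.ofNat_eq_natCast, zpow_natCast]
    exact pow_mem (natCast_mem W p) n
  · rw [zpow_negSucc, ← inv_pow]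
    exact pow_mem hW _

end pw

/-! ### the field of algebraic elements -/

section K

/-- the algebraic closure in `Ω` of the field `F` -/
noncomputable def KK (F : Subfield Ω) : Subfield Ω := (algebraicClosure F Ω).toSubfield

lemma isAC' (F : Type u) [Field F] [Algebra F Ω] [IsAlgClosed Ω] :
    IsAlgClosed (algebraicClosure F Ω) := (algebraicClosure.isAlgClosure F Ω).isAlgClosed

lemma alg' (F : Type u) [Field F] [Algebra F Ω] {x : Ω}
    (h : IsAlgebraic (algebraicClosure F Ω) x) : IsAlgebraic F x := h.restrictScalars F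

lemma isAC [IsAlgClosed Ω] (F : Subfield Ω) : IsAlgClosed (KK F) := isAC' F

lemma mem_KK {F : Subfield Ω} {x : Ω} : x ∈ KK F ↔ IsAlgebraic F x :=
  mem_algebraicClosure_iff

lemma F_le_KK (F : Subfield Ω) {x : Ω} (hx : x ∈ F) : x ∈ KK F :=
  mem_KK.2 (isAlgebraic_algebraMap (⟨x, hx⟩ : F))

/-- the elements of the fraction field are algebraic: a general form -/
lemma alg_frac {R F : Type u} [CommRing R] [IsDomain R] [Field F] [Algebra R F] [Algebra F Ω]
    [Algebra R Ω] [IsScalarTower R F Ω] (hi : Function.Injective (algebraMap R F))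
    (h : ∀ z : F, ∃ a b : R, algebraMap R F b ≠ 0 ∧ algebraMap R F b * z = algebraMap R F a)
    {x : Ω} (hx : IsAlgebraic F x) : IsAlgebraic R x := by
  have : Algebra.IsAlgebraic R F := by
    constructor
    intro z
    obtain ⟨a, b, hb, hab⟩ := h z
    refine ⟨C b * X - C a, ?_, ?_⟩
    · intro h0
      have h3 := congrArg (fun f => f.coeff 1) h0
      simp only [coeff_sub, coeff_C_mul, coeff_X_one, mul_one, coeff_zero] at h3
      rw [coeff_C_of_ne_zero one_ne_zero, sub_zero] at h3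
      exact hb (by rw [h3, map_zero])
    · simp only [map_sub, map_mul, aeval_C, aeval_X]
      rw [hab, sub_self]
  have : FaithfulSMul R F := (faithfulSMul_iff_algebraMap_injective R F).2 hi
  exact hx.restrictScalars R

/-- `F` is the field of fractions of `R` -/
structure FR (R : Subring Ω) (F : Subfield Ω) : Prop where
  le : ∀ x ∈ R, x ∈ F
  fr : ∀ z ∈ F, ∃ a ∈ R, ∃ b ∈ R, b ≠ 0 ∧ b * z = a

lemma fr_closure (g : Set Ω) : FR (Subring.closure g) (Subfield.closure g) where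
  le := by
    intro x hx
    exact Subfield.subring_closure_le g hx
  fr := by
    intro z hz
    obtain ⟨a, ha, b, hb, hab⟩ := Subfield.mem_closure_iff.1 hz
    by_cases hb0 : b = 0
    · refine ⟨0, zero_mem _, 1, one_mem _, one_ne_zero, ?_⟩
      rw [← hab, hb0, div_zero, mul_zero]
    · exact ⟨a, ha, b, hb, hb0, by rw [← hab, mul_div_cancel₀ _ hb0]⟩

lemma alg_of_F {R : Subring Ω} {F : Subfield Ω} (hRF : FR R F) {x : Ω}
    (h1 : IsAlgebraic F x) : IsAlgebraic R x := by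
  let i : R →+* F := R.subtype.codRestrict F (fun x => hRF.le x.1 x.2)
  let ia : Algebra R F := i.toAlgebra
  have hm : ∀ a : R, ((algebraMap R F a : F) : Ω) = a := fun a => rfl
  have it : IsScalarTower R F Ω := IsScalarTower.of_algebraMap_eq (fun a => (hm a).symm)
  refine alg_frac (R := R) (F := F) (fun a b hab => Subtype.ext ?_) (fun z => ?_) h1
  · rw [← hm a, ← hm b, hab]
  obtain ⟨a, ha, b, hb, hb0, hab⟩ := hRF.fr z z.2
  refine ⟨⟨a, ha⟩, ⟨b, hb⟩, ?_, ?_⟩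
  · intro h0
    have h3 := hm ⟨b, hb⟩
    rw [h0] at h3
    exact hb0 h3.symm
  · apply Subtype.ext
    rw [Subfield.coe_mul, hm, hm]
    exact hab

lemma trans_KK {R : Subring Ω} {F : Subfield Ω} (hRF : FR R F) {t : Ω}
    (h : Transcendental R t) : Transcendental (KK F) t :=
  fun h1 => h (alg_of_F hRF (alg' F h1))

lemma R_le_KK {R : Subring Ω} {F : Subfield Ω} (hRF : FR R F) : (R : Set Ω) ⊆ (KK F : Set Ω) :=
  fun _ hx => F_le_KK F (hRF.le _ hx)

lemma exists_poly {K : Subfield Ω} {g : Set Ω} (hg : g ⊆ K) {t c : Ω}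
    (hc : c ∈ Subring.closure (g ∪ {t})) : ∃ f : K[X], eval₂ K.subtype t f = c := by
  have h1 : Subring.closure (g ∪ {t}) ≤ (eval₂RingHom K.subtype t).range := by
    refine Subring.closure_le.2 ?_
    rintro x (hx | hx)
    · refine ⟨C ⟨x, hg hx⟩, ?_⟩
      rw [coe_eval₂RingHom, eval₂_C]
      rfl
    · rw [Set.mem_singleton_iff] at hx
      subst hx
      exact ⟨X, by rw [coe_eval₂RingHom, eval₂_X]⟩
  obtain ⟨f, hf⟩ := h1 hc
  exact ⟨f, hf⟩

lemma ev2_eq {R S : Type u} [CommRing R] [CommRing S] (i : R →+* S) (F : R[X][X]) (a b : S) :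
    ev2 i F a b = F.eval₂ (eval₂RingHom i a) b := by
  rw [ev2, eval_map]

lemma ev2_sum {R S : Type u} [CommRing R] [CommRing S] (i : R →+* S) (s : Finset ℕ)
    (f : ℕ → R[X]) (a b : S) :
    ev2 i (∑ k ∈ s, C (f k) * X ^ k) a b = ∑ k ∈ s, eval₂ i a (f k) * b ^ k := by
  rw [ev2_eq, eval₂_finsetSum]
  refine Finset.sum_congr rfl fun k _ => ?_
  rw [eval₂_mul, eval₂_C, eval₂_X_pow, coe_eval₂RingHom]

lemma alg_rel {K : Subfield Ω} {g : Set Ω} (hg : g ⊆ K) {t : Ω}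
    (h : ∀ x : Ω, ∃ F : (Subring.closure (g ∪ {t}))[X], F ≠ 0 ∧ aeval x F = 0) (x : Ω) :
    ∃ F : K[X][X], F ≠ 0 ∧ ev2 K.subtype F t x = 0 := by
  obtain ⟨F, hF, hFx⟩ := h x
  have h1 : ∀ k, ∃ f : K[X], eval₂ K.subtype t f = (F.coeff k : Ω) :=
    fun k => exists_poly hg (F.coeff k).2
  choose f hf using h1
  refine ⟨∑ k ∈ Finset.range (F.natDegree + 1), C (f k) * X ^ k, ?_, ?_⟩
  · intro h0
    have h2 : (∑ k ∈ Finset.range (F.natDegree + 1), C (f k) * X ^ k : K[X][X]).coeff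
        F.natDegree = f F.natDegree := by
      rw [finsetSum_coeff, Finset.sum_eq_single F.natDegree]
      · rw [coeff_C_mul, coeff_X_pow_self, mul_one]
      · intro j _ hj
        rw [coeff_C_mul, coeff_X_pow, if_neg (Ne.symm hj), mul_zero]
      · intro h3
        exact absurd (Finset.mem_range.2 (Nat.lt_succ_self _)) h3
    rw [h0, coeff_zero] at h2
    have h3 := hf F.natDegree
    rw [← h2, eval₂_zero] at h3
    exact hF (leadingCoeff_eq_zero.1 (Subtype.ext h3.symm))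
  · rw [ev2_sum, ← hFx, aeval_eq_sum_range]
    refine Finset.sum_congr rfl fun k _ => ?_
    rw [Algebra.smul_def, hf]
    rfl

end K

/-! ### the relation between `t` and `y` -/

section rel

lemma clear {g : Set Ω} {t : Ω} (ht : t ≠ 0) {c : Ω}
    (hc : c ∈ Subring.closure (g ∪ {t, t⁻¹})) :
    ∃ (N : ℕ) (f : (Subring.closure g)[X]),
      t ^ N * c = eval₂ (Subring.closure g).subtype t f := by
  induction hc using Subring.closure_induction with
  | mem x hx =>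
    rcases hx with hx | hx | hx
    · refine ⟨0, C ⟨x, Subring.subset_closure hx⟩, ?_⟩
      rw [pow_zero, one_mul, eval₂_C]
      rfl
    · subst hx
      exact ⟨0, X, by rw [pow_zero, one_mul, eval₂_X]⟩
    · rw [Set.mem_singleton_iff] at hx
      subst hx
      exact ⟨1, 1, by rw [pow_one, mul_inv_cancel₀ ht, eval₂_one]⟩
  | zero => exact ⟨0, 0, by rw [mul_zero, eval₂_zero]⟩
  | one => exact ⟨0, 1, by rw [pow_zero, one_mul, eval₂_one]⟩
  | add x y _ _ hx hy =>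
    obtain ⟨N, f, hf⟩ := hx
    obtain ⟨M, h, hh⟩ := hy
    refine ⟨N + M, X ^ M * f + X ^ N * h, ?_⟩
    rw [eval₂_add, eval₂_mul, eval₂_mul, eval₂_X_pow, eval₂_X_pow, ← hf, ← hh]
    ring
  | neg x _ hx =>
    obtain ⟨N, f, hf⟩ := hx
    exact ⟨N, -f, by rw [eval₂_neg, ← hf, mul_neg]⟩
  | mul x y _ _ hx hy =>
    obtain ⟨N, f, hf⟩ := hx
    obtain ⟨M, h, hh⟩ := hy
    refine ⟨N + M, f * h, ?_⟩
    rw [eval₂_mul, ← hf, ← hh]
    ring

lemma rel_of_icl {g : Set Ω} {t y : Ω} (ht : t ≠ 0) (hy : y ∈ icl (g ∪ {t, t⁻¹})) :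
    ∃ (d N : ℕ) (f : ℕ → (Subring.closure g)[X]),
      ∑ i ∈ Finset.range d, eval₂ (Subring.closure g).subtype t (f i) * y ^ i +
        t ^ N * y ^ d = 0 := by
  have h1 : IsIntegral (Subring.closure (g ∪ {t, t⁻¹})) y := hy
  obtain ⟨P, hP, hPy⟩ := h1
  have h2 : ∀ i, ∃ (N : ℕ) (f : (Subring.closure g)[X]),
      t ^ N * (P.coeff i : Ω) = eval₂ (Subring.closure g).subtype t f :=
    fun i => clear ht (P.coeff i).2
  choose N f hf using h2
  refine ⟨P.natDegree, ∑ i ∈ Finset.range P.natDegree, N i,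
    fun i => X ^ (∑ i ∈ Finset.range P.natDegree, N i - N i) * f i, ?_⟩
  have h3 : ∑ i ∈ Finset.range P.natDegree, (P.coeff i : Ω) * y ^ i + y ^ P.natDegree = 0 := by
    rw [eval₂_eq_sum_range, Finset.sum_range_succ, hP.coeff_natDegree, map_one, one_mul] at hPy
    exact hPy
  have h4 : ∀ i ∈ Finset.range P.natDegree,
      eval₂ (Subring.closure g).subtype t
        (X ^ (∑ i ∈ Finset.range P.natDegree, N i - N i) * f i) * y ^ i =
      t ^ (∑ i ∈ Finset.range P.natDegree, N i) * ((P.coeff i : Ω) * y ^ i) := by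
    intro i hi
    have h5 : N i ≤ ∑ i ∈ Finset.range P.natDegree, N i :=
      Finset.single_le_sum (f := N) (fun _ _ => Nat.zero_le _) hi
    rw [eval₂_mul, eval₂_X_pow, ← hf, ← mul_assoc (t ^ _), ← pow_add, Nat.sub_add_cancel h5,
      mul_assoc]
  rw [Finset.sum_congr rfl h4, ← Finset.mul_sum, ← mul_add, h3, mul_zero]

lemma icl_of_rel {g : Set Ω} {t z : Ω} (ht : t ≠ 0) {d N : ℕ} {f : ℕ → (Subring.closure g)[X]}
    (h : ∑ i ∈ Finset.range d, eval₂ (Subring.closure g).subtype t (f i) * z ^ i +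
        t ^ N * z ^ d = 0) : z ∈ icl (g ∪ {t, t⁻¹}) := by
  refine mem_icl fun W hW => ?_
  have htW : t ∈ W := hW (Or.inr (Or.inl rfl))
  have htW' : t⁻¹ ∈ W := hW (Or.inr (Or.inr rfl))
  have hgW : (Subring.closure g : Set Ω) ⊆ W :=
    closure_sub (fun x hx => hW (Or.inl hx))
  have hc : ∀ i, eval₂ (Subring.closure g).subtype t (f i) ∈ W := by
    intro i
    rw [eval₂_eq_sum_range]
    exact sum_mem fun k _ => W.mul_mem _ _ (hgW ((f i).coeff k).2) (pow_mem htW k)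
  rcases W.mem_or_inv_mem z with h1 | h1
  · exact h1
  by_cases hz : z = 0
  · rw [hz]; exact W.zero_mem
  rcases Nat.eq_zero_or_pos d with hd | hd
  · exfalso
    rw [hd, Finset.range_zero, Finset.sum_empty, zero_add, pow_zero, mul_one] at h
    exact pow_ne_zero N ht h
  obtain ⟨e, rfl⟩ : ∃ e, d = e + 1 := ⟨d - 1, by omega⟩
  have h2 : z = - ∑ i ∈ Finset.range (e + 1),
      (t⁻¹) ^ N * (eval₂ (Subring.closure g).subtype t (f i) * (z⁻¹) ^ (e - i)) := by
    have h3 : ∑ i ∈ Finset.range (e + 1),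
        (t⁻¹) ^ N * (eval₂ (Subring.closure g).subtype t (f i) * (z⁻¹) ^ (e - i)) =
        (t⁻¹) ^ N * (z⁻¹) ^ e * ∑ i ∈ Finset.range (e + 1),
          eval₂ (Subring.closure g).subtype t (f i) * z ^ i := by
      rw [Finset.mul_sum]
      refine Finset.sum_congr rfl fun i hi => ?_
      have hie : i ≤ e := Nat.lt_succ_iff.1 (Finset.mem_range.1 hi)
      have h4 : (z⁻¹) ^ e * z ^ i = (z⁻¹) ^ (e - i) := by
        have h5 : (z⁻¹) ^ e = (z⁻¹) ^ (e - i) * (z⁻¹) ^ i := by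
          rw [← pow_add, Nat.sub_add_cancel hie]
        rw [h5, mul_assoc, ← mul_pow, inv_mul_cancel₀ hz, one_pow, mul_one]
      rw [← h4]
      ring
    rw [h3, eq_neg_of_add_eq_zero_left h]
    have h6 : (t⁻¹) ^ N * t ^ N = 1 := by rw [← mul_pow, inv_mul_cancel₀ ht, one_pow]
    have h7 : (z⁻¹) ^ e * z ^ (e + 1) = z := by
      rw [pow_succ, ← mul_assoc, ← mul_pow, inv_mul_cancel₀ hz, one_pow, one_mul]
    calc z = ((t⁻¹) ^ N * t ^ N) * ((z⁻¹) ^ e * z ^ (e + 1)) := by rw [h6, h7, one_mul]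
      _ = -((t⁻¹) ^ N * (z⁻¹) ^ e * -(t ^ N * z ^ (e + 1))) := by ring
  rw [h2]
  exact neg_mem (sum_mem fun i _ => W.mul_mem _ _ (pow_mem htW' N)
    (W.mul_mem _ _ (hc i) (pow_mem h1 _)))

/-- the relation as a polynomial over a larger field -/
lemma rel_poly {g : Set Ω} {K : Subfield Ω} (hK : (Subring.closure g : Set Ω) ⊆ K) (d N : ℕ)
    (f : ℕ → (Subring.closure g)[X]) :
    ∃ F : K[X][X], ∀ a b : Ω, ev2 K.subtype F a b =
      ∑ i ∈ Finset.range d, eval₂ (Subring.closure g).subtype a (f i) * b ^ i +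
        a ^ N * b ^ d := by
  let j : Subring.closure g →+* K := (Subring.closure g).subtype.codRestrict K (fun x => hK x.2)
  have hj : ∀ x, ((j x : K) : Ω) = x := fun _ => rfl
  let f' : ℕ → K[X] := fun i => if i < d then (f i).map j else X ^ N
  refine ⟨∑ i ∈ Finset.range (d + 1), C (f' i) * X ^ i, fun a b => ?_⟩
  rw [ev2_sum, Finset.sum_range_succ]
  congr 1
  · refine Finset.sum_congr rfl fun i hi => ?_
    have h1 : f' i = (f i).map j := if_pos (Finset.mem_range.1 hi)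
    rw [h1, eval₂_map]
    congr 2
  · have h1 : f' d = X ^ N := if_neg (lt_irrefl d)
    rw [h1, eval₂_X_pow]

/-- transport of the relation by a homomorphism -/
lemma rel_hom {g : Set Ω} {U : Subring Ω} (hU : (Subring.closure g : Set Ω) ⊆ U)
    (χ : U →+* Ω) (hχ : ∀ (a : Ω) (h : a ∈ U), a ∈ Subring.closure g → χ ⟨a, h⟩ = a)
    {d N : ℕ} {f : ℕ → (Subring.closure g)[X]} {a b : Ω} (ha : a ∈ U) (hb : b ∈ U)
    (h : ∑ i ∈ Finset.range d, eval₂ (Subring.closure g).subtype a (f i) * b ^ i +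
        a ^ N * b ^ d = 0) :
    ∑ i ∈ Finset.range d, eval₂ (Subring.closure g).subtype (χ ⟨a, ha⟩) (f i) *
      (χ ⟨b, hb⟩) ^ i + (χ ⟨a, ha⟩) ^ N * (χ ⟨b, hb⟩) ^ d = 0 := by
  let j : Subring.closure g →+* U := (Subring.closure g).subtype.codRestrict U (fun x => hU x.2)
  have hj : U.subtype.comp j = (Subring.closure g).subtype := by ext x; rfl
  have hj' : χ.comp j = (Subring.closure g).subtype := by
    ext x
    exact hχ x (hU x.2) x.2
  have h1 : ∑ i ∈ Finset.range d, eval₂ j (⟨a, ha⟩ : U) (f i) * (⟨b, hb⟩ : U) ^ i +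
      (⟨a, ha⟩ : U) ^ N * (⟨b, hb⟩ : U) ^ d = 0 := by
    apply Subtype.ext
    have h2 : U.subtype (∑ i ∈ Finset.range d, eval₂ j (⟨a, ha⟩ : U) (f i) * (⟨b, hb⟩ : U) ^ i +
      (⟨a, ha⟩ : U) ^ N * (⟨b, hb⟩ : U) ^ d) = 0 := by
      rw [map_add, map_sum, ← h]
      congr 1
      refine Finset.sum_congr rfl fun i _ => ?_
      rw [map_mul, hom_eval₂, hj]
      rfl
    exact h2
  have h3 := congrArg χ h1
  rw [map_add, map_sum, map_zero] at h3
  rw [← h3]
  congr 1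
  · refine Finset.sum_congr rfl fun i _ => ?_
    rw [map_mul, hom_eval₂, hj', map_pow]
  · rw [map_mul, map_pow, map_pow]

end rel

/-! ### the cells -/

section cells

variable {n : ℕ} (p : ℕ) (X : Fin n → Ω) (x : Fin n → Ω)

open Classical in
/-- the part of the defect that does not depend on the cell -/
noncomputable def cor (W : ValuationSubring Ω) : Ω := ∑ q, (if X q ∈ W then 0 else x q)

/-- its value on a cell -/
noncomputable def cor' (s : Fin n → Bool) : Ω := ∑ q, (if s q then 0 else x q)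

variable {X x}

lemma cor_sub {W : ValuationSubring Ω} {s : Fin n → Bool}
    (hx : ∀ q, X q ∈ W → (X q)⁻¹ ∈ W → x q ∈ W) (hs : ∀ q, gens X s q ∈ W) :
    cor' x s - cor X x W ∈ W := by
  rw [cor', cor, ← Finset.sum_sub_distrib]
  refine sum_mem fun q _ => ?_
  have h1 := hs q
  unfold gens at h1
  by_cases hsq : s q = true
  · rw [if_pos hsq] at h1
    rw [if_pos hsq, if_pos h1, sub_self]
    exact W.zero_mem
  · rw [if_neg hsq] at h1
    rw [if_neg hsq]
    by_cases h2 : X q ∈ W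
    · rw [if_pos h2, sub_zero]
      exact hx q h2 h1
    · rw [if_neg h2, sub_self]
      exact W.zero_mem

lemma cor'_sub {W : ValuationSubring Ω} {s s' : Fin n → Bool}
    (hx : ∀ q, X q ∈ W → (X q)⁻¹ ∈ W → x q ∈ W) (hs : ∀ q, gens X s q ∈ W)
    (hs' : ∀ q, gens X s' q ∈ W) : cor' x s - cor' x s' ∈ W := by
  have h1 : cor' x s - cor' x s' = (cor' x s - cor X x W) - (cor' x s' - cor X x W) := by ring
  rw [h1]
  exact sub_mem (cor_sub hx hs) (cor_sub hx hs')

end cells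

end FINaux

open FINaux

/-- the step for one of the two charts -/
lemma FINaux.chart (h5 : StLOC.{u}) (h6 : StTREE.{u}) {Ω : Type u} [Field Ω] [IsAlgClosed Ω]
    [CharZero Ω] (p : ℕ) [Fact p.Prime] (S : RootSys Ω p) (G : Set Ω) {n : ℕ} (X : Fin n → Ω)
    (hX : ∀ q, X q ≠ 0) (E : (Fin n → Bool) → Ω) {mu : ℚ} (hmu : mu < 1)
    (hE : ∀ (s : Fin n → Bool) (W : ValuationSubring Ω), G ⊆ W → (p : Ω)⁻¹ ∉ W →
      (∀ q, gens X s q ∈ W) → E s ∈ W)
    (hE' : ∀ (s s' : Fin n → Bool) (W : ValuationSubring Ω), G ⊆ W →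
      (∀ q, gens X s q ∈ W) → (∀ q, gens X s' q ∈ W) → (E s - E s') / (p : Ω) ∈ W) :
    ∃ (a : Ω) (d : (Fin n → Bool) → Ω), a ∈ icl G ∧
      (∀ (s : Fin n → Bool) (W : ValuationSubring Ω), G ⊆ W → (p : Ω)⁻¹ ∉ W →
        (∀ q, gens X s q ∈ W) → (E s - d s) / (p : Ω) ∈ W) ∧
      ∀ (s : Fin n → Bool) (W : ValuationSubring Ω), G ⊆ W →
        (∀ q, gens X s q ∈ W) → (a - d s) / S.pw mu ∈ W := by
  have hp : (p : Ω) ≠ 0 := Nat.cast_ne_zero.2 (Fact.out : p.Prime).ne_zero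
  have hsub : ∀ (s : Fin n → Bool) (W : ValuationSubring Ω),
      (icl (G ∪ Set.range (gens X s)) : Set Ω) ⊆ W → G ⊆ W ∧ ∀ q, gens X s q ∈ W :=
    fun s W hW => ⟨fun x hx => hW (sub_icl (Or.inl hx)),
      fun q => hW (sub_icl (Or.inr ⟨q, rfl⟩))⟩
  have hsub' : ∀ (s : Fin n → Bool) (W : ValuationSubring Ω), G ⊆ W → (∀ q, gens X s q ∈ W) →
      (icl (G ∪ Set.range (gens X s)) : Set Ω) ⊆ W := by
    intro s W hW hq
    refine icl_sub ?_
    rintro x (hx | ⟨q, rfl⟩)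
    · exact hW hx
    · exact hq q
  have hd : ∀ s : Fin n → Bool, ∃ d ∈ icl (G ∪ Set.range (gens X s)),
      ∀ W : ValuationSubring Ω, (icl (G ∪ Set.range (gens X s)) : Set Ω) ⊆ W →
        (p : Ω)⁻¹ ∉ W → (E s - d) / p ∈ W := by
    intro s
    exact h5 Ω p (icl (G ∪ Set.range (gens X s))) hp (ic_icl _) (E s) fun W hW hpW =>
      hE s W (hsub s W hW).1 hpW (hsub s W hW).2
  choose d hd1 hd2 using hd
  have hGW : ∀ W : ValuationSubring Ω, (icl G : Set Ω) ⊆ W → G ⊆ W :=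
    fun W hW x hx => hW (sub_icl hx)
  obtain ⟨a, ha, ha'⟩ := h6 Ω p S (icl G) (ic_icl _) n X hX d 1 mu hmu
    (fun s W hW hq => hsub' s W (hGW W hW) hq (hd1 s))
    (fun s s' W hW hq hq' => by
      rw [S.one]
      have h1 : d s ∈ W := hsub' s W (hGW W hW) hq (hd1 s)
      have h1' : d s' ∈ W := hsub' s' W (hGW W hW) hq' (hd1 s')
      by_cases hpW : (p : Ω)⁻¹ ∈ W
      · rw [div_eq_mul_inv]
        exact W.mul_mem _ _ (sub_mem h1 h1') hpW
      · have h2 := hd2 s W (hsub' s W (hGW W hW) hq) hpW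
        have h2' := hd2 s' W (hsub' s' W (hGW W hW) hq') hpW
        have h3 := hE' s s' W (hGW W hW) hq hq'
        have h4 : (d s - d s') / (p : Ω) =
            (E s - E s') / p - (E s - d s) / p + (E s' - d s') / p := by ring
        rw [h4]
        exact add_mem (sub_mem h3 h2) h2')
  exact ⟨a, d, ha, fun s W hW hpW hq => hd2 s W (hsub' s W hW hq) hpW,
    fun s W hW hq => ha' s W (icl_sub hW) hq⟩

theorem m_FIN (h1 : StJ.{u}) (h2 : StPL.{u}) (h3 : StMI.{u}) (h4 : StR1.{u}) (h5 : StLOC.{u})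
    (h6 : StTREE.{u}) : StFIN.{u} := by
  classical
  intro Ω _ _ _ p _ S g t ht halg y hy mu hmu
  have hp : (p : Ω) ≠ 0 := Nat.cast_ne_zero.2 (Fact.out : p.Prime).ne_zero
  have ht0 : t ≠ 0 := by
    rintro rfl
    exact ht isAlgebraic_zero
  -- the field
  obtain ⟨K, hKac, hRK, htK⟩ : ∃ K : Subfield Ω, IsAlgClosed K ∧
      (Subring.closure (g : Set Ω) : Set Ω) ⊆ K ∧ Transcendental K t :=
    ⟨KK (Subfield.closure (g : Set Ω)), isAC _, R_le_KK (fr_closure _),
      trans_KK (fr_closure _) ht⟩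
  have hgK : (g : Set Ω) ⊆ K := fun x hx => hRK (Subring.subset_closure hx)
  have halgK := alg_rel hgK halg
  -- the identity
  have hyK : y ∈ icl ((K : Set Ω) ∪ {t, t⁻¹}) :=
    icl_mono (Set.union_subset_union_left _ hgK) hy
  obtain ⟨n, τ, z, w, hτ, hrel, hJ⟩ := h1 Ω K t y p htK halgK hyK
  obtain ⟨d, N, f, hf⟩ := rel_of_icl ht0 hy
  obtain ⟨F, hF⟩ := rel_poly hRK d N f
  have hFq : ∀ q, ∑ i ∈ Finset.range d,
      eval₂ (Subring.closure (g : Set Ω)).subtype (τ q) (f i) * (z q) ^ i +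
        (τ q) ^ N * (z q) ^ d = 0 := by
    intro q
    rw [← hF]
    exact hrel q F (by rw [hF]; exact hf)
  have hz : ∀ q, z q ∈ icl ((g : Set Ω) ∪ {τ q, (τ q)⁻¹}) := fun q => icl_of_rel (hτ q) (hFq q)
  -- the point
  let s₀ : Finset Ω := {t⁻¹, w} ∪ (Finset.univ.image τ ∪ (Finset.univ.image (fun q => (τ q)⁻¹) ∪
    Finset.univ.image z))
  obtain ⟨c, χ, hc, hχK, hχK', hχt⟩ := h2 Ω K t htK halgK s₀
  have hUs : ∀ x ∈ s₀, x ∈ icl ((K : Set Ω) ∪ s₀ ∪ {t}) :=
    fun x hx => sub_icl (Or.inl (Or.inr hx))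
  have hKU : (K : Set Ω) ⊆ icl ((K : Set Ω) ∪ s₀ ∪ {t}) :=
    fun x hx => sub_icl (Or.inl (Or.inl hx))
  have htU : t ∈ icl ((K : Set Ω) ∪ s₀ ∪ {t}) := sub_icl (Or.inr rfl)
  have htU' : t⁻¹ ∈ icl ((K : Set Ω) ∪ s₀ ∪ {t}) := hUs _ (by simp [s₀])
  have hwU : w ∈ icl ((K : Set Ω) ∪ s₀ ∪ {t}) := hUs _ (by simp [s₀])
  have hτU : ∀ q, τ q ∈ icl ((K : Set Ω) ∪ s₀ ∪ {t}) := fun q => hUs _ (by simp [s₀])
  have hτU' : ∀ q, (τ q)⁻¹ ∈ icl ((K : Set Ω) ∪ s₀ ∪ {t}) := fun q => hUs _ (by simp [s₀])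
  have hzU : ∀ q, z q ∈ icl ((K : Set Ω) ∪ s₀ ∪ {t}) := fun q => hUs _ (by simp [s₀])
  have hMI := h3 Ω p S (Subring.closure (g : Set Ω)) K hRK t y htK halgK
    (icl_mono (Set.union_subset_union_left _ Subring.subset_closure) hy) n τ z w hτ
    (fun q => icl_mono (Set.union_subset_union_left _ Subring.subset_closure) (hz q)) hJ
    (icl ((K : Set Ω) ∪ s₀ ∪ {t})) c χ hc (ic_icl _) hKU hχK hχK' htU hτU hτU' hzU hwU htU'
    (hχt htU)
  obtain ⟨σ, hσ⟩ : ∃ σ : Fin n → Ω, ∀ q, χ ⟨τ q, hτU q⟩ = σ q := ⟨_, fun _ => rfl⟩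
  obtain ⟨η, hη⟩ : ∃ η : Fin n → Ω, ∀ q, χ ⟨z q, hzU q⟩ = η q := ⟨_, fun _ => rfl⟩
  obtain ⟨u₀, hu₀⟩ : ∃ u₀ : Ω, χ ⟨w, hwU⟩ = u₀ := ⟨_, rfl⟩
  have hσ0 : ∀ q, σ q ≠ 0 := by
    intro q h0
    have h7 : (⟨τ q, hτU q⟩ : icl ((K : Set Ω) ∪ s₀ ∪ {t})) * ⟨(τ q)⁻¹, hτU' q⟩ = 1 :=
      Subtype.ext (mul_inv_cancel₀ (hτ q))
    have h8 := congrArg χ h7
    rw [map_mul, map_one, hσ, h0, zero_mul] at h8
    exact zero_ne_one h8
  have hη' : ∀ q, η q ∈ icl ((g : Set Ω) ∪ {σ q, (σ q)⁻¹}) := by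
    intro q
    have h7 := rel_hom (g := (g : Set Ω)) (U := icl ((K : Set Ω) ∪ s₀ ∪ {t}))
      (fun x hx => hKU (hRK hx)) χ (fun a h ha => hχK a h (hRK ha)) (hτU q) (hzU q) (hFq q)
    rw [hσ, hη] at h7
    exact icl_of_rel (hσ0 q) h7
  simp only [hσ, hη, hu₀] at hMI
  -- the cells
  let X : Fin (n + n) → Ω := Fin.append τ σ
  have hX : ∀ q, X q ≠ 0 := by
    intro q
    refine Fin.addCases (fun i => ?_) (fun i => ?_) q
    · show Fin.append τ σ (Fin.castAdd n i) ≠ 0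
      rw [Fin.append_left]
      exact hτ i
    · show Fin.append τ σ (Fin.natAdd n i) ≠ 0
      rw [Fin.append_right]
      exact hσ0 i
  have hgl : ∀ (s : Fin (n + n) → Bool) (i : Fin n),
      gens X s (Fin.castAdd n i) = gens τ (fun j => s (Fin.castAdd n j)) i := by
    intro s i
    show (if s (Fin.castAdd n i) then Fin.append τ σ (Fin.castAdd n i) else
      (Fin.append τ σ (Fin.castAdd n i))⁻¹) = _
    rw [Fin.append_left]
    rfl
  have hgr : ∀ (s : Fin (n + n) → Bool) (i : Fin n),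
      gens X s (Fin.natAdd n i) = gens σ (fun j => s (Fin.natAdd n j)) i := by
    intro s i
    show (if s (Fin.natAdd n i) then Fin.append τ σ (Fin.natAdd n i) else
      (Fin.append τ σ (Fin.natAdd n i))⁻¹) = _
    rw [Fin.append_right]
    rfl
  let e : (Fin (n + n) → Bool) → Ω := fun s => w - u₀ +
    (p : Ω) * (cor' η (fun j => s (Fin.natAdd n j)) - cor' z (fun j => s (Fin.castAdd n j)))
  have hzW : ∀ W : ValuationSubring Ω, (g : Set Ω) ⊆ W → ∀ q, τ q ∈ W → (τ q)⁻¹ ∈ W → z q ∈ W := by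
    intro W hW q h7 h8
    refine icl_le ?_ (hz q)
    rintro x (hx | hx | hx)
    · exact hW hx
    · exact hx ▸ h7
    · exact (Set.mem_singleton_iff.1 hx) ▸ h8
  have hηW : ∀ W : ValuationSubring Ω, (g : Set Ω) ⊆ W → ∀ q, σ q ∈ W → (σ q)⁻¹ ∈ W → η q ∈ W := by
    intro W hW q h7 h8
    refine icl_le ?_ (hη' q)
    rintro x (hx | hx | hx)
    · exact hW hx
    · exact hx ▸ h7
    · exact (Set.mem_singleton_iff.1 hx) ▸ h8
  -- differences
  have hdiff : ∀ (s s' : Fin (n + n) → Bool) (W : ValuationSubring Ω), (g : Set Ω) ⊆ W →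
      (∀ q, gens X s q ∈ W) → (∀ q, gens X s' q ∈ W) → (e s - e s') / (p : Ω) ∈ W := by
    intro s s' W hW hq hq'
    have h7 : (e s - e s') / (p : Ω) =
        (cor' η (fun j => s (Fin.natAdd n j)) - cor' η (fun j => s' (Fin.natAdd n j))) -
        (cor' z (fun j => s (Fin.castAdd n j)) - cor' z (fun j => s' (Fin.castAdd n j))) := by
      show (w - u₀ + (p : Ω) * _ - (w - u₀ + (p : Ω) * _)) / (p : Ω) = _
      field_simp
      ring
    rw [h7]
    refine sub_mem (cor'_sub (X := σ) (hηW W hW) (fun q => ?_) (fun q => ?_))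
      (cor'_sub (X := τ) (hzW W hW) (fun q => ?_) (fun q => ?_))
    · rw [← hgr]; exact hq _
    · rw [← hgr]; exact hq' _
    · rw [← hgl]; exact hq _
    · rw [← hgl]; exact hq' _
  -- rank one
  have hrk : ∀ (s : Fin (n + n) → Bool) (W : ValuationSubring Ω), (g : Set Ω) ⊆ W → Rk1 p W →
      (∀ q, gens X s q ∈ W) → e s - (if t ∈ W then 0 else y) ∈ W := by
    intro s W hW hrk hq
    have h7 := hMI W hrk (closure_sub hW)
    have h8 : e s - (if t ∈ W then 0 else y) =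
        (p : Ω) * ((cor' η (fun j => s (Fin.natAdd n j)) - cor σ η W) -
          (cor' z (fun j => s (Fin.castAdd n j)) - cor τ z W)) -
        ((if t ∈ W then 0 else y) + (p : Ω) * ∑ q, (if τ q ∈ W then 0 else z q)
      - w - ((p : Ω) * ∑ q, (if σ q ∈ W then 0 else η q) - u₀)) := by
      show w - u₀ + (p : Ω) * _ - _ = _
      unfold cor
      ring
    rw [h8]
    refine sub_mem (W.mul_mem _ _ (natCast_mem W p) (sub_mem (cor_sub (hηW W hW) (fun q => ?_))
      (cor_sub (hzW W hW) (fun q => ?_)))) h7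
    · rw [← hgr]; exact hq _
    · rw [← hgl]; exact hq _
  have hyW : ∀ W : ValuationSubring Ω, (g : Set Ω) ⊆ W → t ∈ W → t⁻¹ ∈ W → y ∈ W := by
    intro W hW h7 h8
    refine icl_le ?_ hy
    rintro x (hx | hx | hx)
    · exact hW hx
    · exact hx ▸ h7
    · exact (Set.mem_singleton_iff.1 hx) ▸ h8
  -- all valuation rings: the test by rank one
  have halg' : ∀ x : Ω, ∃ F : (Subring.closure ((insert t g : Finset Ω) : Set Ω))[X],
      F ≠ 0 ∧ aeval x F = 0 := by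
    have h7 : ((insert t g : Finset Ω) : Set Ω) = (g : Set Ω) ∪ {t} := by
      rw [Finset.coe_insert, Set.insert_eq, Set.union_comm]
    rw [h7]
    exact halg
  have htest : ∀ (s : Fin (n + n) → Bool) (W : ValuationSubring Ω), (g : Set Ω) ⊆ W →
      (p : Ω)⁻¹ ∉ W → (∀ q, gens X s q ∈ W) → ∀ (θ v : Ω), θ ∈ W →
      (∀ W' : ValuationSubring Ω, (g : Set Ω) ⊆ W' → Rk1 p W' → (∀ q, gens X s q ∈ W') →
        θ ∈ W' → v ∈ W') → v ∈ W := by
    intro s W hW hpW hq θ v hθ hv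
    by_contra hvW
    have hvW' : v⁻¹ ∈ W := (W.mem_or_inv_mem v).resolve_left hvW
    obtain ⟨W₁, hW₁, hW₁z, hW₁n⟩ := h4 Ω p (insert t g) halg' W hpW
      (insert v⁻¹ (insert θ (g ∪ Finset.univ.image (gens X s)))) (by
        intro x hx
        rw [Finset.mem_insert, Finset.mem_insert, Finset.mem_union, Finset.mem_image] at hx
        rcases hx with hx | hx | hx | ⟨q, -, hx⟩
        · rw [hx]; exact hvW'
        · rw [hx]; exact hθ
        · exact hW hx
        · rw [← hx]; exact hq q)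
    have h7 : v ∈ W₁ := hv W₁ (fun x hx => hW₁z x (by
        rw [Finset.mem_insert, Finset.mem_insert, Finset.mem_union]
        exact Or.inr (Or.inr (Or.inl hx)))) hW₁ (fun q => hW₁z _ (by
        rw [Finset.mem_insert, Finset.mem_insert, Finset.mem_union, Finset.mem_image]
        exact Or.inr (Or.inr (Or.inr ⟨q, Finset.mem_univ _, rfl⟩)))) (hW₁z _ (by
        rw [Finset.mem_insert, Finset.mem_insert]
        exact Or.inr (Or.inl rfl)))
    have h8 := hW₁n v⁻¹ (Finset.mem_insert_self _ _) (by rw [inv_inv]; exact hvW)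
    rw [inv_inv] at h8
    exact h8 h7
  -- the two charts
  obtain ⟨a, d₁, ha, hd₁, had₁⟩ := FINaux.chart h5 h6 p S ((g : Set Ω) ∪ {t}) X hX e hmu
    (fun s W hW hpW hq => by
      refine htest s W (fun x hx => hW (Or.inl hx)) hpW hq t (e s) (hW (Or.inr rfl)) ?_
      intro W' hW' hrkW' hq' ht'
      have h7 := hrk s W' hW' hrkW' hq'
      rw [if_pos ht', sub_zero] at h7
      exact h7)
    (fun s s' W hW hq hq' => hdiff s s' W (fun x hx => hW (Or.inl hx)) hq hq')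
  obtain ⟨b, d₂, hb, hd₂, hbd₂⟩ := FINaux.chart h5 h6 p S ((g : Set Ω) ∪ {t⁻¹}) X hX
    (fun s => e s - y) hmu
    (fun s W hW hpW hq => by
      refine htest s W (fun x hx => hW (Or.inl hx)) hpW hq t⁻¹ (e s - y) (hW (Or.inr rfl)) ?_
      intro W' hW' hrkW' hq' ht'
      have h7 := hrk s W' hW' hrkW' hq'
      by_cases h8 : t ∈ W'
      · rw [if_pos h8, sub_zero] at h7
        exact sub_mem h7 (hyW W' hW' h8 ht')
      · rw [if_neg h8] at h7
        exact h7)
    (fun s s' W hW hq hq' => by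
      have h7 := hdiff s s' W (fun x hx => hW (Or.inl hx)) hq hq'
      have h8 : (e s - y - (e s' - y)) / (p : Ω) = (e s - e s') / (p : Ω) := by
        congr 1; ring
      rw [h8]
      exact h7)
  refine ⟨a, ha, -b, neg_mem hb, mem_icl fun W hW => ?_⟩
  have hgW : (g : Set Ω) ⊆ W := fun x hx => hW (Or.inl hx)
  have htW : t ∈ W := hW (Or.inr (Or.inl rfl))
  have htW' : t⁻¹ ∈ W := hW (Or.inr (Or.inr rfl))
  have hG1 : ((g : Set Ω) ∪ {t}) ⊆ W := by
    rintro x (hx | hx)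
    · exact hgW hx
    · exact (Set.mem_singleton_iff.1 hx) ▸ htW
  have hG2 : ((g : Set Ω) ∪ {t⁻¹}) ⊆ W := by
    rintro x (hx | hx)
    · exact hgW hx
    · exact (Set.mem_singleton_iff.1 hx) ▸ htW'
  by_cases hpW : (p : Ω)⁻¹ ∈ W
  · rw [div_eq_mul_inv, ← pw_neg S hp]
    refine W.mul_mem _ _ (sub_mem (sub_mem (hyW W hgW htW htW') (icl_le hG1 ha))
      (neg_mem (icl_le hG2 hb))) (pw_mem' S hp W hpW _)
  · let s : Fin (n + n) → Bool := fun q => decide (X q ∈ W)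
    have hq : ∀ q, gens X s q ∈ W := by
      intro q
      show (if decide (X q ∈ W) = true then X q else (X q)⁻¹) ∈ W
      by_cases h7 : X q ∈ W
      · rw [if_pos (decide_eq_true h7)]
        exact h7
      · rw [if_neg (by rw [decide_eq_true_eq]; exact h7)]
        exact (W.mem_or_inv_mem (X q)).resolve_left h7
    have k1 := had₁ s W hG1 hq
    have k2 := hbd₂ s W hG2 hq
    have k3 := hd₁ s W hG1 hpW hq
    have k4 := hd₂ s W hG2 hpW hq
    have k5 : S.pw (1 - mu) ∈ W := pw_mem S hp W (by linarith)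
    have k6 : (p : Ω) = S.pw mu * S.pw (1 - mu) := by
      rw [← S.add, ← S.one]
      congr 1
      ring
    have k7 : (y - a - -b) / S.pw mu = -((a - d₁ s) / S.pw mu) + (b - d₂ s) / S.pw mu +
        ((e s - d₁ s) / (p : Ω) - (e s - y - d₂ s) / (p : Ω)) * S.pw (1 - mu) := by
      have h7 := pw_ne S hp mu
      have h8 := pw_ne S hp (1 - mu)
      rw [k6]
      field_simp
      ring
    rw [k7]
    exact add_mem (add_mem (neg_mem k1) k2) (W.mul_mem _ _ (sub_mem k3 k4) k5)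

end Pool.Agent.Helper44.SPL
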