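import Pool.Agent.Helper44.SPL.St

/-!
# Module H: global functions on the closed fibre are constant up to nilpotents
-/

set_option autoImplicit false

namespace Pool.Agent.Helper44.SPL

open Polynomial

universe u

namespace MH

section

variable {Ω : Type u} [Field Ω]

theorem sub_icl {s : Set Ω} {a : Ω} (h : a ∈ s) : a ∈ icl s :=
  isIntegral_algebraMap (R := Subring.closure s) (A := Ω)
    (x := ⟨a, Subring.subset_closure h⟩)

theorem icl_mono {s t : Set Ω} (h : s ⊆ t) {a : Ω} (ha : a ∈ icl s) : a ∈ icl t :=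
  IsIntegral.map_of_comp_eq (Subring.inclusion (Subring.closure_mono h)) (RingHom.id Ω) rfl ha

theorem ext_mul {N : Set Ω} {D : Subring Ω} {a n : Ω} (ha : a ∈ D) (hn : n ∈ ext N D) :
    a * n ∈ ext N D := (ext N D).smul_mem ⟨a, ha⟩ hn

theorem aeval_mem {A D : Subring Ω} (hAD : ∀ a ∈ A, a ∈ D) {x : Ω} (hx : x ∈ D) (F : A[X]) :
    aeval x F ∈ D := by
  rw [aeval_eq_sum_range]
  refine sum_mem fun i _ => ?_
  exact D.mul_mem (hAD _ (F.coeff i).2) (D.pow_mem hx i)

theorem aeval_sub_mem {A D : Subring Ω} {N : Set Ω} (hAD : ∀ a ∈ A, a ∈ D) {x y : Ω}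
    (hx : x ∈ D) (hy : y ∈ D) (h : x - y ∈ ext N D) (F : A[X]) :
    aeval x F - aeval y F ∈ ext N D := by
  rw [aeval_eq_sum_range, aeval_eq_sum_range, ← Finset.sum_sub_distrib]
  refine Submodule.sum_mem _ fun i _ => ?_
  obtain ⟨q, hq⟩ := sub_dvd_pow_sub_pow (⟨x, hx⟩ : D) ⟨y, hy⟩ i
  have h1 : x ^ i - y ^ i = (x - y) * q := congrArg Subtype.val hq
  have h2 : F.coeff i • x ^ i - F.coeff i • y ^ i = ((F.coeff i : Ω) * q) * (x - y) := by
    rw [← smul_sub, h1]
    change (F.coeff i : Ω) * ((x - y) * q) = _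
    ring
  rw [h2]
  exact ext_mul (D.mul_mem (hAD _ (F.coeff i).2) q.2) h

theorem nu_iff {A : Subring Ω} (a : A) : (a : Ω) ∈ nu A ↔ ¬ IsUnit a := by
  constructor
  · rintro ⟨-, h⟩ hu
    obtain ⟨b, hb⟩ := hu.exists_right_inv
    have h1 : (a : Ω) * b = 1 := congrArg Subtype.val hb
    rcases h with h | h
    · rw [h, zero_mul] at h1
      exact zero_ne_one h1
    · apply h
      rw [show (a : Ω)⁻¹ = b from inv_eq_of_mul_eq_one_right h1]
      exact b.2
  · intro h
    refine ⟨a.2, ?_⟩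
    by_contra hcon
    push Not at hcon
    exact h (IsUnit.of_mul_eq_one ⟨(a : Ω)⁻¹, hcon.2⟩ (Subtype.ext (mul_inv_cancel₀ hcon.1)))

/-- the polynomial with the given roots -/
noncomputable def gp {A : Subring Ω} (s : Multiset A) : A[X] := (s.map fun c => X - C c).prod

theorem gp_zero {A : Subring Ω} : gp (0 : Multiset A) = 1 := rfl

theorem gp_cons {A : Subring Ω} (c : A) (s : Multiset A) : gp (c ::ₘ s) = (X - C c) * gp s := by
  unfold gp
  rw [Multiset.map_cons, Multiset.prod_cons]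

theorem gp_add {A : Subring Ω} (s t : Multiset A) : gp (s + t) = gp s * gp t := by
  unfold gp
  rw [Multiset.map_add, Multiset.prod_add]

theorem aeval_gp_cons {A : Subring Ω} (x : Ω) (c : A) (s : Multiset A) :
    aeval x (gp (c ::ₘ s)) = (x - c) * aeval x (gp s) := by
  rw [gp_cons, map_mul, map_sub, aeval_X, aeval_C]
  rfl

theorem near {A D : Subring Ω} (hAD : ∀ a ∈ A, a ∈ D) {x : Ω} (hx : x ∈ D) (c₀ : A)
    (s : Multiset A) : (∀ c ∈ s, ((c : Ω) - c₀) ∈ nu A) →
      aeval x (gp s) - (x - c₀) ^ s.card ∈ ext (nu A) D := by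
  induction s using Multiset.induction_on with
  | empty =>
    intro _
    rw [gp_zero, map_one, Multiset.card_zero, pow_zero, sub_self]
    exact Submodule.zero_mem _
  | cons c s ih =>
    intro h
    have h1 := ih fun c hc => h c (Multiset.mem_cons_of_mem hc)
    rw [aeval_gp_cons, Multiset.card_cons, pow_succ]
    have h2 : (x - c) * aeval x (gp s) - (x - c₀) ^ s.card * (x - c₀) =
        (x - c₀) * (aeval x (gp s) - (x - c₀) ^ s.card) -
          aeval x (gp s) * ((c : Ω) - c₀) := by ring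
    rw [h2]
    exact Submodule.sub_mem _ (ext_mul (D.sub_mem hx (hAD _ c₀.2)) h1)
      (ext_mul (aeval_mem hAD hx _) (Submodule.subset_span (h c (Multiset.mem_cons_self c s))))

theorem coprime_gp {A : Subring Ω} {s t : Multiset A}
    (h : ∀ c ∈ s, ∀ d ∈ t, IsUnit (c - d)) : IsCoprime (gp s) (gp t) := by
  induction s using Multiset.induction_on with
  | empty => rw [gp_zero]; exact isCoprime_one_left
  | cons c s ih =>
    rw [gp_cons]
    refine IsCoprime.mul_left ?_ (ih fun c' hc' => h c' (Multiset.mem_cons_of_mem hc'))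
    have h1 := h c (Multiset.mem_cons_self c s)
    clear h ih
    induction t using Multiset.induction_on with
    | empty => rw [gp_zero]; exact isCoprime_one_right
    | cons d t ih =>
      rw [gp_cons]
      exact IsCoprime.mul_right
        (isCoprime_X_sub_C_of_isUnit_sub (h1 d (Multiset.mem_cons_self d t)))
        (ih fun d' hd' => h1 d' (Multiset.mem_cons_of_mem hd'))

/-- a monic polynomial over an integrally closed ring is a product of linear factors -/
theorem exists_gp [IsAlgClosed Ω] {A : Subring Ω} (hA : IC A) {G : A[X]} (hG : G.Monic) :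
    ∃ s : Multiset A, gp s = G := by
  have hinj : Function.Injective (algebraMap A Ω) := Subtype.val_injective
  have hm : (G.map (algebraMap A Ω)).Monic := hG.map _
  have hs := (IsAlgClosed.splits (G.map (algebraMap A Ω))).eq_prod_roots_of_monic hm
  have hr : ∀ r ∈ (G.map (algebraMap A Ω)).roots, r ∈ A := by
    intro r hr
    have h1 : IsIntegral A r := by
      refine ⟨G, hG, ?_⟩
      have h2 := (mem_roots hm.ne_zero).1 hr
      rwa [IsRoot.def, eval_map] at h2
    have h3 : r ∈ icl (A : Set Ω) :=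
      IsIntegral.map_of_comp_eq (R := A) (T := Subring.closure (A : Set Ω))
        (Subring.inclusion (Subring.subset_closure (s := (A : Set Ω)))) (RingHom.id Ω) rfl h1
    rwa [hA] at h3
  refine ⟨(G.map (algebraMap A Ω)).roots.attach.map fun r => ⟨r.1, hr r.1 r.2⟩, ?_⟩
  apply Polynomial.map_injective _ hinj
  refine Eq.trans ?_ hs.symm
  unfold gp
  rw [Polynomial.map_multiset_prod, Multiset.map_map, Multiset.map_map]
  congr 1
  conv_rhs => rw [← Multiset.attach_map_val (G.map (algebraMap A Ω)).roots, Multiset.map_map]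
  refine Multiset.map_congr rfl fun r _ => ?_
  simp only [Function.comp_apply, Polynomial.map_sub, Polynomial.map_X, Polynomial.map_C]
  rfl

end

theorem ind {Ω : Type u} [Field Ω] [IsAlgClosed Ω] (h2 : StCONN.{u}) (A : Subring Ω)
    (hL : IsLocalRing A) (hIC : IC A) (Y : Ω) (hY : Y ≠ 0) {x₁ x₂ : Ω}
    (hx₁ : x₁ ∈ icl ((A : Set Ω) ∪ {Y})) (hx₂ : x₂ ∈ icl ((A : Set Ω) ∪ {Y⁻¹}))
    (hx : x₁ - x₂ ∈ ext (nu A) (icl ((A : Set Ω) ∪ {Y, Y⁻¹}))) :
    ∀ (n : ℕ) (s : Multiset A), s.card = n →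
      aeval x₁ (gp s) ∈ ext (nu A) (icl ((A : Set Ω) ∪ {Y})) →
      aeval x₂ (gp s) ∈ ext (nu A) (icl ((A : Set Ω) ∪ {Y⁻¹})) →
      ∃ c ∈ A, ∃ m : ℕ, 0 < m ∧ (x₁ - c) ^ m ∈ ext (nu A) (icl ((A : Set Ω) ∪ {Y})) ∧
        (x₂ - c) ^ m ∈ ext (nu A) (icl ((A : Set Ω) ∪ {Y⁻¹})) := by
  classical
  have hA1 : ∀ a ∈ A, a ∈ icl ((A : Set Ω) ∪ {Y}) := fun a ha => sub_icl (Or.inl ha)
  have hA2 : ∀ a ∈ A, a ∈ icl ((A : Set Ω) ∪ {Y⁻¹}) := fun a ha => sub_icl (Or.inl ha)
  have hA3 : ∀ a ∈ A, a ∈ icl ((A : Set Ω) ∪ {Y, Y⁻¹}) := fun a ha => sub_icl (Or.inl ha)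
  have hs1 : (A : Set Ω) ∪ {Y} ⊆ (A : Set Ω) ∪ {Y, Y⁻¹} :=
    Set.union_subset_union_right _ (by simp)
  have hs2 : (A : Set Ω) ∪ {Y⁻¹} ⊆ (A : Set Ω) ∪ {Y, Y⁻¹} :=
    Set.union_subset_union_right _ (by simp)
  intro n
  induction n using Nat.strong_induction_on with
  | _ n ih =>
    intro s hsn hP1 hP2
    rcases Multiset.empty_or_exists_mem s with rfl | ⟨c₀, hc₀⟩
    · rw [gp_zero, map_one] at hP1 hP2
      refine ⟨0, A.zero_mem, 1, one_pos, ?_, ?_⟩
      · rw [sub_zero, pow_one, ← mul_one x₁]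
        exact ext_mul hx₁ hP1
      · rw [sub_zero, pow_one, ← mul_one x₂]
        exact ext_mul hx₂ hP2
    by_cases hall : ∀ c ∈ s, ((c : Ω) - c₀) ∈ nu A
    · refine ⟨c₀, c₀.2, s.card, Multiset.card_pos.2 (fun h => by
        rw [h] at hc₀; exact absurd hc₀ (Multiset.notMem_zero _)), ?_, ?_⟩
      · have h3 := Submodule.sub_mem _ hP1 (near hA1 hx₁ c₀ s hall)
        rwa [sub_sub_cancel] at h3
      · have h3 := Submodule.sub_mem _ hP2 (near hA2 hx₂ c₀ s hall)
        rwa [sub_sub_cancel] at h3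
    · push Not at hall
      obtain ⟨c₁, hc₁, hc₁'⟩ := hall
      obtain ⟨s₁, hs₁⟩ : ∃ s₁, s₁ = s.filter fun c : A => ((c : Ω) - c₀) ∈ nu A := ⟨_, rfl⟩
      obtain ⟨s₂, hs₂⟩ : ∃ s₂, s₂ = s.filter fun c : A => ¬ ((c : Ω) - c₀) ∈ nu A := ⟨_, rfl⟩
      have hadd : s₁ + s₂ = s := by
        rw [hs₁, hs₂]
        exact Multiset.filter_add_not _ s
      have hcard : s₁.card + s₂.card = n := by
        rw [← Multiset.card_add, hadd, hsn]
      have hm1 : c₀ ∈ s₁ := by
        rw [hs₁, Multiset.mem_filter]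
        refine ⟨hc₀, ?_⟩
        rw [sub_self]
        exact ⟨A.zero_mem, Or.inl rfl⟩
      have hm2 : c₁ ∈ s₂ := by
        rw [hs₂, Multiset.mem_filter]
        exact ⟨hc₁, hc₁'⟩
      have hp1 : 0 < s₁.card := Multiset.card_pos_iff_exists_mem.2 ⟨c₀, hm1⟩
      have hp2 : 0 < s₂.card := Multiset.card_pos_iff_exists_mem.2 ⟨c₁, hm2⟩
      have hco : IsCoprime (gp s₁) (gp s₂) := by
        refine coprime_gp fun c hc d hd => ?_
        rw [hs₁, Multiset.mem_filter] at hc
        rw [hs₂, Multiset.mem_filter] at hd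
        have h3 : c - c₀ ∈ nonunits A := (nu_iff (c - c₀)).1 hc.2
        by_contra h4
        have h5 : -(c - d) ∈ nonunits A := fun h => h4 (by
          have := h.neg
          rwa [neg_neg] at this)
        have h6 := IsLocalRing.nonunits_add h3 h5
        have h7 : c - c₀ + -(c - d) = d - c₀ := by ring
        rw [h7] at h6
        exact hd.2 ((nu_iff (d - c₀)).2 h6)
      obtain ⟨a₁, a₂, hab⟩ := hco
      have hprod : gp s₁ * gp s₂ = gp s := by rw [← gp_add, hadd]
      have hid : ∀ x : Ω, aeval x (a₁ * gp s₁) + aeval x (a₂ * gp s₂) = 1 := by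
        intro x
        rw [← map_add, hab, map_one]
      have hpr : ∀ x : Ω, aeval x (gp s₁) * aeval x (gp s₂) = aeval x (gp s) := by
        intro x
        rw [← map_mul, hprod]
      have key : ∀ (D : Subring Ω) (x : Ω), (∀ a ∈ A, a ∈ D) → x ∈ D →
          aeval x (gp s) ∈ ext (nu A) D →
          (aeval x (a₁ * gp s₁)) ^ 2 - aeval x (a₁ * gp s₁) ∈ ext (nu A) D := by
        intro D x hAD hxD hP
        have h3 := hid x
        have h4 := hpr x
        have h5 : (aeval x (a₁ * gp s₁)) ^ 2 - aeval x (a₁ * gp s₁) =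
            (-(aeval x a₁ * aeval x a₂)) * aeval x (gp s) := by
          rw [← h4]
          simp only [map_mul] at h3 ⊢
          linear_combination (aeval x a₁ * aeval x (gp s₁)) * h3
        rw [h5]
        exact ext_mul (D.neg_mem (D.mul_mem (aeval_mem hAD hxD _) (aeval_mem hAD hxD _))) hP
      obtain ⟨e, heA, he1, he2⟩ := h2 Ω A hL hIC Y hY (aeval x₁ (a₁ * gp s₁))
        (aeval_mem hA1 hx₁ _) (aeval x₂ (a₁ * gp s₁)) (aeval_mem hA2 hx₂ _)
        (key _ _ hA1 hx₁ hP1) (key _ _ hA2 hx₂ hP2)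
        (aeval_sub_mem hA3 (icl_mono hs1 hx₁) (icl_mono hs2 hx₂) hx _)
      rcases IsLocalRing.isUnit_or_isUnit_one_sub_self (⟨e, heA⟩ : A) with hu | hu
      · obtain ⟨f, hf⟩ := hu.exists_left_inv
        have hf' : (f : Ω) * e = 1 := congrArg Subtype.val hf
        have key2 : ∀ (D : Subring Ω) (x : Ω), (∀ a ∈ A, a ∈ D) → x ∈ D →
            aeval x (gp s) ∈ ext (nu A) D → aeval x (a₁ * gp s₁) - e ∈ ext (nu A) D →
            aeval x (gp s₂) ∈ ext (nu A) D := by
          intro D x hAD hxD hP he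
          have h4 := hpr x
          have h5 : aeval x (gp s₂) = (f : Ω) * (aeval x a₁ * aeval x (gp s) -
              aeval x (gp s₂) * (aeval x (a₁ * gp s₁) - e)) := by
            rw [← h4, map_mul]
            linear_combination (-aeval x (gp s₂)) * hf'
          rw [h5]
          exact ext_mul (hAD _ f.2) (Submodule.sub_mem _ (ext_mul (aeval_mem hAD hxD _) hP)
            (ext_mul (aeval_mem hAD hxD _) he))
        exact ih s₂.card (by omega) s₂ rfl (key2 _ _ hA1 hx₁ hP1 he1)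
          (key2 _ _ hA2 hx₂ hP2 he2)
      · obtain ⟨f, hf⟩ := hu.exists_left_inv
        have hf' : (f : Ω) * (1 - e) = 1 := congrArg Subtype.val hf
        have key2 : ∀ (D : Subring Ω) (x : Ω), (∀ a ∈ A, a ∈ D) → x ∈ D →
            aeval x (gp s) ∈ ext (nu A) D → aeval x (a₁ * gp s₁) - e ∈ ext (nu A) D →
            aeval x (gp s₁) ∈ ext (nu A) D := by
          intro D x hAD hxD hP he
          have h3 := hid x
          have h4 := hpr x
          have h5 : aeval x (gp s₁) = (f : Ω) * (aeval x a₂ * aeval x (gp s) +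
              aeval x (gp s₁) * (aeval x (a₁ * gp s₁) - e)) := by
            rw [← h4]
            simp only [map_mul] at h3 ⊢
            linear_combination (-aeval x (gp s₁)) * hf' - (f : Ω) * aeval x (gp s₁) * h3
          rw [h5]
          exact ext_mul (hAD _ f.2) (Submodule.add_mem _ (ext_mul (aeval_mem hAD hxD _) hP)
            (ext_mul (aeval_mem hAD hxD _) he))
        exact ih s₁.card (by omega) s₁ rfl (key2 _ _ hA1 hx₁ hP1 he1)
          (key2 _ _ hA2 hx₂ hP2 he2)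

end MH

theorem m_H (h1 : StHPOL.{u}) (h2 : StCONN.{u}) : StH.{u} := by
  intro Ω _ _ A hL hIC Y hY x₁ hx₁ x₂ hx₂ hx
  obtain ⟨G, hG, hG1, hG2⟩ := h1 Ω A hL hIC Y hY x₁ hx₁ x₂ hx₂ hx
  obtain ⟨s, hs⟩ := MH.exists_gp hIC hG
  rw [← hs] at hG1 hG2
  exact MH.ind h2 A hL hIC Y hY hx₁ hx₂ hx s.card s rfl hG1 hG2

end Pool.Agent.Helper44.SPL
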