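import Pool.Agent.Helper44.SPL.St
import Pool.Agent.Helper44.SPL.Bas

/-!
# Module H0: exactness of `H^0` for the projective line over any integrally closed `A`
-/

set_option autoImplicit false

namespace Pool.Agent.Helper44.SPL

open Polynomial

universe u

section H0

variable {Ω : Type u} [Field Ω]

/-- the elements with a denominator in `A`. -/
def H0E (A D : Subring Ω) (hAD : A ≤ D) : Subring Ω where
  carrier := {x | ∃ r ∈ A, r ≠ 0 ∧ r * x ∈ D}
  mul_mem' := by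
    rintro x y ⟨r, hr, hr0, hx⟩ ⟨r', hr', hr0', hy⟩
    refine ⟨r * r', A.mul_mem hr hr', mul_ne_zero hr0 hr0', ?_⟩
    have : r * r' * (x * y) = (r * x) * (r' * y) := by ring
    rw [this]
    exact D.mul_mem hx hy
  one_mem' := ⟨1, A.one_mem, one_ne_zero, by rw [mul_one]; exact D.one_mem⟩
  add_mem' := by
    rintro x y ⟨r, hr, hr0, hx⟩ ⟨r', hr', hr0', hy⟩
    refine ⟨r * r', A.mul_mem hr hr', mul_ne_zero hr0 hr0', ?_⟩
    have : r * r' * (x + y) = r' * (r * x) + r * (r' * y) := by ring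
    rw [this]
    exact D.add_mem (D.mul_mem (hAD hr') hx) (D.mul_mem (hAD hr) hy)
  zero_mem' := ⟨1, A.one_mem, one_ne_zero, by rw [mul_zero]; exact D.zero_mem⟩
  neg_mem' := by
    rintro x ⟨r, hr, hr0, hx⟩
    exact ⟨r, hr, hr0, by rw [mul_neg]; exact D.neg_mem hx⟩

theorem H0_common (A D : Subring Ω) (hAD : A ≤ D) (s : Finset ℕ) (g : ℕ → Ω)
    (hg : ∀ i ∈ s, ∃ r ∈ A, r ≠ 0 ∧ r * g i ∈ D) :
    ∃ r ∈ A, r ≠ 0 ∧ ∀ i ∈ s, r * g i ∈ D := by
  classical
  induction s using Finset.induction_on with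
  | empty => exact ⟨1, A.one_mem, one_ne_zero, by simp⟩
  | insert a s ha ih =>
    obtain ⟨r, hr, hr0, h1⟩ := ih fun i hi => hg i (Finset.mem_insert_of_mem hi)
    obtain ⟨r', hr', hr0', h2⟩ := hg a (Finset.mem_insert_self a s)
    refine ⟨r * r', A.mul_mem hr hr', mul_ne_zero hr0 hr0', fun i hi => ?_⟩
    rcases Finset.mem_insert.mp hi with rfl | hi
    · rw [mul_assoc]; exact D.mul_mem (hAD hr) h2
    · rw [mul_comm r r', mul_assoc]; exact D.mul_mem (hAD hr') (h1 i hi)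

theorem H0_IC (A D : Subring Ω) (hAD : A ≤ D) (hD : IC D) : IC (H0E A D hAD) := by
  apply IC_of_isIntegral
  rintro x ⟨f, hf, hfx⟩
  obtain ⟨r, hr, hr0, h1⟩ := H0_common A D hAD (Finset.range (f.natDegree + 1))
    (fun i => (f.coeff i : Ω)) (fun i _ => (f.coeff i).2)
  refine ⟨r, hr, hr0, ?_⟩
  apply hD.mem_of_isIntegral
  -- the scaled polynomial
  let g : Polynomial Ω := (f.map (H0E A D hAD).subtype).scaleRoots r
  have hfm : (f.map (H0E A D hAD).subtype).Monic := hf.map _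
  have hgm : g.Monic := (monic_scaleRoots_iff _).mpr hfm
  have hdeg : (f.map (H0E A D hAD).subtype).natDegree = f.natDegree := hf.natDegree_map _
  have hgD : ∀ i, g.coeff i ∈ D := by
    intro i
    simp only [g, coeff_scaleRoots, hdeg, coeff_map]
    rcases lt_trichotomy i f.natDegree with hi | hi | hi
    · obtain ⟨k, hk⟩ : ∃ k, f.natDegree - i = k + 1 := ⟨f.natDegree - i - 1, by omega⟩
      rw [hk, pow_succ]
      have : (H0E A D hAD).subtype (f.coeff i) * (r ^ k * r) =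
          r ^ k * (r * (f.coeff i : Ω)) := by
        rw [Subring.coe_subtype]; ring
      rw [this]
      exact D.mul_mem (D.pow_mem (hAD hr) k) (h1 i (Finset.mem_range.mpr (by omega)))
    · subst hi
      rw [tsub_self, pow_zero, mul_one, hf.coeff_natDegree, map_one]
      exact D.one_mem
    · rw [coeff_eq_zero_of_natDegree_lt hi, map_zero, zero_mul]
      exact D.zero_mem
  have hlift : g ∈ Polynomial.lifts D.subtype := by
    rw [Polynomial.lifts_iff_coeff_lifts]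
    exact fun i => ⟨⟨_, hgD i⟩, rfl⟩
  obtain ⟨g', hg', -, hg'm⟩ := Polynomial.lifts_and_natDegree_eq_and_monic hlift hgm
  refine ⟨g', hg'm, ?_⟩
  change eval₂ D.subtype (r * x) g' = 0
  rw [eval₂_eq_eval_map, hg']
  have h3 : eval₂ (RingHom.id Ω) (r * x) g = 0 := by
    have h4 : eval₂ (RingHom.id Ω) x (f.map (H0E A D hAD).subtype) = 0 := by
      rw [eval₂_map]
      exact hfx
    have h5 := scaleRoots_eval₂_eq_zero (RingHom.id Ω) (s := r) h4
    exact h5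
  rw [eval₂_id] at h3
  exact h3

theorem H0_den (A : Subring Ω) (t x : Ω) (K : Subfield Ω)
    (hK : ∀ y ∈ K, ∃ r ∈ A, r ≠ 0 ∧ r * y ∈ A)
    (hx : x ∈ icl ((K.toSubring : Set Ω) ∪ {t})) :
    ∃ r ∈ A, r ≠ 0 ∧ r * x ∈ icl ((A : Set Ω) ∪ {t}) := by
  have hAD : A ≤ icl ((A : Set Ω) ∪ {t}) := fun y hy => mem_icl_left hy
  have h1 : icl ((K.toSubring : Set Ω) ∪ {t}) ≤ H0E A (icl ((A : Set Ω) ∪ {t})) hAD := by
    apply icl_le (H0_IC _ _ _ (IC_icl _))
    rintro y (hy | hy)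
    · obtain ⟨r, hr, hr0, h2⟩ := hK y hy
      exact ⟨r, hr, hr0, hAD h2⟩
    · rw [Set.mem_singleton_iff.mp hy]
      exact ⟨1, A.one_mem, one_ne_zero, by rw [one_mul]; exact X_mem_icl _ _⟩
  exact h1 hx

theorem H0_frac (A : Subring Ω) : ∀ y ∈ Subfield.closure (A : Set Ω),
    ∃ r ∈ A, r ≠ 0 ∧ r * y ∈ A := by
  intro y hy
  rw [Subfield.mem_closure_iff] at hy
  obtain ⟨a, ha, b, hb, rfl⟩ := hy
  rw [Subring.closure_eq] at ha hb
  by_cases hb0 : b = 0
  · exact ⟨1, A.one_mem, one_ne_zero, by rw [hb0, div_zero, mul_zero]; exact A.zero_mem⟩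
  · exact ⟨b, hb, hb0, by rw [mul_div_cancel₀ _ hb0]; exact ha⟩

/-- the prime of `icl (K, t)` generated by the kernel of the section `s`. -/
theorem H0_prime (A : Subring Ω) (t : Ω) (K : Subfield Ω)
    (hK : ∀ y ∈ K, ∃ r ∈ A, r ≠ 0 ∧ r * y ∈ A)
    (s : icl ((A : Set Ω) ∪ {t}) →+* A)
    (hs : ∀ (a : Ω) (h : a ∈ A) (h' : a ∈ icl ((A : Set Ω) ∪ {t})), s ⟨a, h'⟩ = ⟨a, h⟩) :
    ∃ P : Ideal (icl ((K.toSubring : Set Ω) ∪ {t})), P.IsPrime ∧
      ∀ (x : icl ((A : Set Ω) ∪ {t})) (h : (x : Ω) ∈ icl ((K.toSubring : Set Ω) ∪ {t})),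
        s x = 0 → ⟨x, h⟩ ∈ P := by
  have hAD : ∀ r ∈ A, r ∈ icl ((A : Set Ω) ∪ {t}) := fun y hy => mem_icl_left hy
  let D := icl ((A : Set Ω) ∪ {t})
  let E := icl ((K.toSubring : Set Ω) ∪ {t})
  -- multiplicativity over `A`
  have hsm : ∀ (r : Ω) (hr : r ∈ A) (x : Ω) (hx : x ∈ D) (hrx : r * x ∈ D),
      (s ⟨r * x, hrx⟩ : Ω) = r * (s ⟨x, hx⟩ : Ω) := by
    intro r hr x hx hrx
    have : (⟨r * x, hrx⟩ : D) = ⟨r, hAD r hr⟩ * ⟨x, hx⟩ := rfl
    rw [this, map_mul, hs r hr]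
    rfl
  let P : Ideal E :=
    { carrier := {x | ∃ r ∈ A, r ≠ 0 ∧ ∃ h : r * (x : Ω) ∈ D, s ⟨r * x, h⟩ = 0}
      add_mem' := by
        rintro x y ⟨r, hr, hr0, hx, hx'⟩ ⟨r', hr', hr0', hy, hy'⟩
        have e : r * r' * ((x + y : E) : Ω) = r' * (r * (x : Ω)) + r * (r' * (y : Ω)) := by
          push_cast; ring
        have hm1 : r' * (r * (x : Ω)) ∈ D := D.mul_mem (hAD _ hr') hx
        have hm2 : r * (r' * (y : Ω)) ∈ D := D.mul_mem (hAD _ hr) hy
        have hm : r * r' * ((x + y : E) : Ω) ∈ D := by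
          rw [e]; exact D.add_mem hm1 hm2
        refine ⟨r * r', A.mul_mem hr hr', mul_ne_zero hr0 hr0', hm, ?_⟩
        have e2 : (⟨r * r' * ((x + y : E) : Ω), hm⟩ : D) =
            ⟨r' * (r * (x : Ω)), hm1⟩ + ⟨r * (r' * (y : Ω)), hm2⟩ := Subtype.ext e
        rw [e2, map_add]
        apply Subtype.ext
        rw [Subring.coe_add, hsm r' hr' _ hx hm1, hsm r hr _ hy hm2, hx', hy']
        simp
      zero_mem' := ⟨1, A.one_mem, one_ne_zero, by
        have h0 : (1 : Ω) * ((0 : E) : Ω) = 0 := by simp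
        refine ⟨by rw [h0]; exact D.zero_mem, ?_⟩
        have : (⟨1 * ((0 : E) : Ω), by rw [h0]; exact D.zero_mem⟩ : D) = 0 := Subtype.ext h0
        rw [this, map_zero]⟩
      smul_mem' := by
        rintro c x ⟨r, hr, hr0, hx, hx'⟩
        obtain ⟨r', hr', hr0', hc⟩ := H0_den A t c K hK c.2
        have e : r * r' * ((c • x : E) : Ω) = (r' * (c : Ω)) * (r * (x : Ω)) := by
          rw [smul_eq_mul]; push_cast; ring
        have hm : r * r' * ((c • x : E) : Ω) ∈ D := by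
          rw [e]; exact D.mul_mem hc hx
        refine ⟨r * r', A.mul_mem hr hr', mul_ne_zero hr0 hr0', hm, ?_⟩
        have e2 : (⟨r * r' * ((c • x : E) : Ω), hm⟩ : D) =
            ⟨r' * (c : Ω), hc⟩ * ⟨r * (x : Ω), hx⟩ := Subtype.ext e
        rw [e2, map_mul, hx', mul_zero] }
  refine ⟨P, ⟨?_, ?_⟩, ?_⟩
  · rw [Ideal.ne_top_iff_one]
    rintro ⟨r, hr, hr0, h1, h2⟩
    apply hr0
    have e : r * ((1 : E) : Ω) = r := by push_cast; rw [mul_one]
    have e2 : (⟨r * ((1 : E) : Ω), h1⟩ : D) = ⟨r, hAD r hr⟩ := Subtype.ext e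
    rw [e2, hs r hr] at h2
    exact congrArg Subtype.val h2
  · rintro x y ⟨r, hr, hr0, hxy, hxy'⟩
    obtain ⟨r₁, hr₁, hr₁0, h1⟩ := H0_den A t x K hK x.2
    obtain ⟨r₂, hr₂, hr₂0, h2⟩ := H0_den A t y K hK y.2
    have e : r * ((r₁ * (x : Ω)) * (r₂ * (y : Ω))) = r₁ * r₂ * (r * ((x * y : E) : Ω)) := by
      push_cast; ring
    have hm1 : (r₁ * (x : Ω)) * (r₂ * (y : Ω)) ∈ D := D.mul_mem h1 h2
    have hm2 : r * ((r₁ * (x : Ω)) * (r₂ * (y : Ω))) ∈ D := D.mul_mem (hAD _ hr) hm1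
    have hm3 : r₁ * r₂ * (r * ((x * y : E) : Ω)) ∈ D :=
      D.mul_mem (hAD _ (A.mul_mem hr₁ hr₂)) hxy
    have h3 : (s ⟨_, hm2⟩ : Ω) = (s ⟨_, hm3⟩ : Ω) := by
      congr 2
      exact Subtype.ext e
    rw [hsm r hr _ hm1 hm2, hsm _ (A.mul_mem hr₁ hr₂) _ hxy hm3, hxy'] at h3
    have h4 : (s ⟨_, hm1⟩ : Ω) = 0 := by
      have : r * (s ⟨_, hm1⟩ : Ω) = 0 := by rw [h3]; simp
      exact (mul_eq_zero.mp this).resolve_left hr0
    have h5 : (⟨_, hm1⟩ : D) = ⟨_, h1⟩ * ⟨_, h2⟩ := rfl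
    rw [h5, map_mul, Subring.coe_mul, mul_eq_zero] at h4
    rcases h4 with h4 | h4
    · left
      exact ⟨r₁, hr₁, hr₁0, h1, Subtype.ext h4⟩
    · right
      exact ⟨r₂, hr₂, hr₂0, h2, Subtype.ext h4⟩
  · intro x h hx
    have hm : 1 * (x : Ω) ∈ D := by rw [one_mul]; exact x.2
    refine ⟨1, A.one_mem, one_ne_zero, hm, ?_⟩
    have : (⟨1 * (x : Ω), hm⟩ : D) = x := Subtype.ext (one_mul _)
    rw [this, hx]

theorem m_H0 (h : StHPM.{u}) : StH0.{u} := by
  intro Ω _ _ A hA t ht s hs hs0 π hπ hπ0 a b hb hab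
  let K : Subfield Ω := Subfield.closure (A : Set Ω)
  have hAK : (A : Set Ω) ⊆ K := Subfield.subset_closure
  have hK := H0_frac A
  let T : Subring Ω := K.toSubring
  have hnuT : ∀ x ∈ nu T, x = 0 := by
    rintro x ⟨hx, h0 | h0⟩
    · exact h0
    · exact absurd (K.inv_mem hx) h0
  have hTloc : IsLocalRing T := by
    have : IsField T := Field.toIsField K
    let := this.toField
    infer_instance
  have hTE : T = H0E A A le_rfl := by
    apply le_antisymm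
    · intro x hx
      exact hK x hx
    · rintro x ⟨r, hr, hr0, hx⟩
      have : x = (r * x) / r := by rw [mul_comm, mul_div_cancel_right₀ _ hr0]
      rw [this]
      exact K.div_mem (hAK hx) (hAK hr)
  have hTIC : IC T := by
    rw [hTE]
    exact H0_IC A A le_rfl hA
  have htT : t ∉ T := by
    intro h1
    obtain ⟨r, hr, hr0, h2⟩ := hK t h1
    apply ht
    refine ⟨C ⟨r, hr⟩ * X - C ⟨r * t, h2⟩, ?_, ?_⟩
    · intro h3
      have h4 := congrArg (fun f => coeff f 1) h3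
      simp only [coeff_sub, coeff_C_mul, coeff_X_one, mul_one, coeff_C_succ, sub_zero,
        coeff_zero] at h4
      exact hr0 (congrArg Subtype.val h4)
    · rw [map_sub, map_mul, aeval_C, aeval_C, aeval_X]
      exact sub_self _
  have htT' : t⁻¹ ∉ T := fun h1 => htT (by
    have := K.inv_mem h1
    rwa [inv_inv] at this)
  obtain ⟨P, hP, hPs⟩ := H0_prime A t K hK s hs
  have key : ∀ W : ValuationSubring Ω, (A : Set Ω) ⊆ W →
      ((a : Ω) - (s a : Ω)) / π ∈ icl (((W.toSubring ⊓ T : Subring Ω) : Set Ω) ∪ {t}) ∧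
      (b - (s a : Ω)) / π ∈ icl (((W.toSubring ⊓ T : Subring Ω) : Set Ω) ∪ {t⁻¹}) := by
    intro W hW
    have hAA : (A : Set Ω) ⊆ (W.toSubring ⊓ T : Subring Ω) := fun x hx => ⟨hW hx, hAK hx⟩
    have hPV : PV T (W.toSubring ⊓ T) :=
      { le := inf_le_right
        nu_sub := fun x hx => by rw [hnuT x hx]; exact Subring.zero_mem _
        val := fun x hx => by
          rcases W.mem_or_inv_mem x with h1 | h1
          · exact Or.inl ⟨h1, hx⟩
          · exact Or.inr ⟨h1, K.inv_mem hx⟩ }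
    refine h Ω T (W.toSubring ⊓ T) hTloc hTIC hPV t htT htT' π (hAA hπ)
      (fun h1 => hπ0 (hnuT π h1)) a (icl_mono (Set.union_subset_union_left _ hAA) a.2)
      b (icl_mono (Set.union_subset_union_left _ hAA) hb)
      (icl_mono (Set.union_subset_union_left _ hAA) hab) (s a : Ω) (hAA (s a).2)
      ⟨P, hP, ?_, ⟨0, Subring.zero_mem _, ?_⟩, ?_⟩
    · intro x hx hx0
      have h2 : (⟨x, hx⟩ : icl ((T : Set Ω) ∪ {t})) = 0 := Subtype.ext (hnuT x hx0)
      rw [h2]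
      exact P.zero_mem
    · intro h1
      have h2 := hPs ⟨t, X_mem_icl _ _⟩ (X_mem_icl _ _) (hs0 _)
      have h3 : (⟨t - 0, h1⟩ : icl ((T : Set Ω) ∪ {t})) = ⟨t, X_mem_icl _ _⟩ :=
        Subtype.ext (sub_zero t)
      rw [h3]
      exact h2
    · intro h1
      have h2 : (s a : Ω) ∈ icl ((A : Set Ω) ∪ {t}) := mem_icl_left (s a).2
      exact hPs (a - ⟨(s a : Ω), h2⟩) h1 (by rw [map_sub, hs _ (s a).2, sub_self])
  constructor
  · rw [mem_icl_iff_val]
    intro W hW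
    have h1 := (key W fun x hx => hW (Or.inl hx)).1
    apply icl_le_val (W := W) _ h1
    rintro x (hx | hx)
    · exact hx.1
    · exact hW (Or.inr hx)
  · rw [mem_icl_iff_val]
    intro W hW
    have h1 := (key W fun x hx => hW (Or.inl hx)).2
    apply icl_le_val (W := W) _ h1
    rintro x (hx | hx)
    · exact hx.1
    · exact hW (Or.inr hx)

end H0

end Pool.Agent.Helper44.SPL
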