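import Pool.Agent.Helper44.SPL.St
import Pool.Agent.Helper44.SPL.Bas

/-!
# Module HP
-/

set_option autoImplicit false

namespace Pool.Agent.Helper44.SPL

open Polynomial

universe u

section

variable {Ω : Type u} [Field Ω]

private theorem HP_IC {T A : Subring Ω} (hT : IC T) (hPV : PV T A) : IC A := by
  apply IC_of_val
  intro x hx
  by_contra hxA
  have hxT : x ∈ T := by
    rw [hT.mem_iff_val]
    intro W hW
    exact hx W (fun a ha => hW (hPV.le ha))
  have hinv : x⁻¹ ∈ A := (hPV.val x hxT).resolve_left hxA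
  have hx0 : x ≠ 0 := by
    rintro rfl
    exact hxA A.zero_mem
  have htop : Ideal.span {(⟨x⁻¹, hinv⟩ : A)} ≠ ⊤ := by
    intro h
    rw [Ideal.span_singleton_eq_top] at h
    obtain ⟨b, hb⟩ := h.exists_right_inv
    have h1 : x⁻¹ * (b : Ω) = 1 := congrArg Subtype.val hb
    have h2 : (b : Ω) = x := by
      rw [inv_mul_eq_one₀ hx0] at h1
      exact h1.symm
    exact hxA (h2 ▸ b.2)
  obtain ⟨W, hAW, hW⟩ := Ideal.image_subset_nonunits_valuationSubring (A := A) _ htop
  have h1 : x⁻¹ ∈ W.nonunits := hW ⟨⟨x⁻¹, hinv⟩, Ideal.mem_span_singleton_self _, rfl⟩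
  have h2 : x ∈ W := hx W hAW
  rw [ValuationSubring.mem_nonunits_iff_or] at h1
  rcases h1 with h1 | h1
  · exact inv_ne_zero hx0 h1
  · rw [inv_inv] at h1
    exact h1 h2

private theorem HP_ext (N : Set Ω) (D : Subring Ω) (z : D)
    (hz : z ∈ Ideal.span {d : D | (d : Ω) ∈ N}) : (z : Ω) ∈ ext N D := by
  induction hz using Submodule.span_induction with
  | mem d hd => exact Submodule.subset_span hd
  | zero => exact Submodule.zero_mem _
  | add a b _ _ ha hb => exact Submodule.add_mem _ ha hb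
  | smul c a _ ha => exact Submodule.smul_mem _ c ha

/-- the point `X = 0` of the closed fibre -/
private theorem HP_point [IsAlgClosed Ω] (hS : StSEID.{u}) (T : Subring Ω) (hloc : IsLocalRing T)
    (hT : IC T) (X : Ω) (hX : X ∉ T) (hX' : X⁻¹ ∉ T) :
    ∃ P : Ideal (icl ((T : Set Ω) ∪ {X})), P.IsPrime ∧
      (∀ (a : Ω) (h : a ∈ icl ((T : Set Ω) ∪ {X})), a ∈ nu T → ⟨a, h⟩ ∈ P) ∧
      (⟨X, X_mem_icl _ X⟩ : icl ((T : Set Ω) ∪ {X})) ∈ P := by
  obtain ⟨xd, hxd⟩ : ∃ xd : icl ((T : Set Ω) ∪ {X}), xd = ⟨X, X_mem_icl _ X⟩ := ⟨_, rfl⟩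
  obtain ⟨J, hJ⟩ : ∃ J : Ideal (icl ((T : Set Ω) ∪ {X})),
      J = Ideal.span {d : icl ((T : Set Ω) ∪ {X}) | (d : Ω) ∈ nu T} := ⟨_, rfl⟩
  have hne : J ⊔ Ideal.span {xd} ≠ ⊤ := by
    intro htop
    rw [Ideal.eq_top_iff_one, Submodule.mem_sup] at htop
    obtain ⟨m, hm, y, hy, hmy⟩ := htop
    obtain ⟨d, hd⟩ := Ideal.mem_span_singleton'.1 hy
    obtain ⟨P, hP, hPd⟩ := mem_icl_adjoin_iff.1 d.2
    let ι : T →+* icl ((T : Set Ω) ∪ {X}) :=
      Subring.inclusion (fun a ha => mem_icl_left ha)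
    let Φ : T[X] →+* (icl ((T : Set Ω) ∪ {X}) ⧸ J) :=
      (Ideal.Quotient.mk J).comp (eval₂RingHom ι xd)
    have hcoe : ∀ f : T[X], ((eval₂ ι xd f : icl ((T : Set Ω) ∪ {X})) : Ω) = aeval X f := by
      intro f
      have h1 := Polynomial.hom_eval₂ f ι (icl ((T : Set Ω) ∪ {X})).subtype xd
      have h2 : (icl ((T : Set Ω) ∪ {X})).subtype xd = X := by rw [hxd]; rfl
      rw [h2] at h1
      exact h1
    have hPD : eval₂ (eval₂RingHom ι xd) d P = 0 := by
      apply Subtype.ext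
      have h1 := Polynomial.hom_eval₂ P (eval₂RingHom ι xd) (icl ((T : Set Ω) ∪ {X})).subtype d
      change ((eval₂ (eval₂RingHom ι xd) d P : icl ((T : Set Ω) ∪ {X})) : Ω) = 0
      rw [← hPd]
      unfold ev2
      rw [eval_map]
      refine Eq.trans h1 ?_
      have h3 : (icl ((T : Set Ω) ∪ {X})).subtype.comp (eval₂RingHom ι xd) =
          eval₂RingHom T.subtype X := by
        apply RingHom.ext
        intro f
        exact hcoe f
      rw [h3]
      rfl
    have hunit : Ideal.Quotient.mk J d * Ideal.Quotient.mk J xd = 1 := by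
      rw [← map_mul, hd, ← map_one (Ideal.Quotient.mk J), ← hmy, map_add,
        Ideal.Quotient.eq_zero_iff_mem.2 hm, zero_add]
    have hPQ : eval₂ Φ (Ideal.Quotient.mk J d) P = 0 := by
      have h1 := Polynomial.hom_eval₂ P (eval₂RingHom ι xd) (Ideal.Quotient.mk J) d
      rw [hPD, map_zero] at h1
      exact h1.symm
    let inv : Invertible (Ideal.Quotient.mk J d) := ⟨Ideal.Quotient.mk J xd, by
      rw [mul_comm]; exact hunit, hunit⟩
    have hrev : eval₂ Φ (Ideal.Quotient.mk J xd) P.reverse = 0 :=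
      (@Polynomial.eval₂_reverse_eq_zero_iff _ _ _ _ Φ (Ideal.Quotient.mk J d) inv P).2 hPQ
    have hΦX : Φ (Polynomial.X) = Ideal.Quotient.mk J xd := by
      change Ideal.Quotient.mk J (eval₂ ι xd Polynomial.X) = _
      rw [eval₂_X]
    have hf : Φ (P.reverse.eval Polynomial.X) = 0 := by
      rw [← Polynomial.eval₂_at_apply, hΦX]
      exact hrev
    have hfJ : eval₂ ι xd (P.reverse.eval Polynomial.X) ∈ J :=
      Ideal.Quotient.eq_zero_iff_mem.1 hf
    have hfe : aeval X (P.reverse.eval Polynomial.X) ∈ ext (nu T) (icl ((T : Set Ω) ∪ {X})) := by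
      rw [← hcoe]
      rw [hJ] at hfJ
      exact HP_ext _ _ _ hfJ
    have hco := hS Ω T hloc hT X hX hX' _ hfe 0
    have h1 : (P.reverse.eval Polynomial.X).coeff 0 = 1 := by
      rw [coeff_zero_eq_eval_zero]
      have h2 : eval 0 (P.reverse.eval Polynomial.X) =
          (evalRingHom (0 : T)) (P.reverse.eval Polynomial.X) := rfl
      rw [h2, ← Polynomial.eval₂_at_apply, coe_evalRingHom, eval_X, eval₂_at_zero]
      rw [Polynomial.coeff_zero_reverse, hP.leadingCoeff, map_one]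
    rw [h1] at hco
    exact one_not_mem_nu T hco
  obtain ⟨P, hPm, hPle⟩ := Ideal.exists_le_maximal _ hne
  refine ⟨P, hPm.isPrime, ?_, ?_⟩
  · intro a h ha
    apply hPle
    apply Ideal.mem_sup_left
    rw [hJ]
    exact Ideal.subset_span ha
  · apply hPle
    apply Ideal.mem_sup_right
    rw [← hxd]
    exact Ideal.mem_span_singleton_self _

private theorem HP_root {D : Subring Ω} (P : Ideal D) (hP : P.IsPrime) (x : Ω) (hx : x ∈ D)
    (s : Multiset Ω) (hs : ∀ a ∈ s, a ∈ D) :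
    (∀ h : (s.map fun a => x - a).prod ∈ D, (⟨_, h⟩ : D) ∈ P) →
    ∃ a ∈ s, ∀ h : x - a ∈ D, (⟨x - a, h⟩ : D) ∈ P := by
  induction s using Multiset.induction_on with
  | empty =>
    intro h
    exfalso
    apply hP.ne_top
    rw [Ideal.eq_top_iff_one]
    have h1 := h (by simp)
    have h2 : (⟨((0 : Multiset Ω).map fun a => x - a).prod, by simp⟩ : D) =
        1 := by
      apply Subtype.ext
      simp
    rw [← h2]
    exact h1
  | cons b s ih =>
    intro h
    have hsD : (s.map fun a => x - a).prod ∈ D := by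
      apply Subring.multiset_prod_mem
      intro c hc
      obtain ⟨a, ha, rfl⟩ := Multiset.mem_map.1 hc
      exact D.sub_mem hx (hs a (Multiset.mem_cons_of_mem ha))
    have hbD : x - b ∈ D := D.sub_mem hx (hs b (Multiset.mem_cons_self b s))
    have hprod : ((b ::ₘ s).map fun a => x - a).prod = (x - b) * (s.map fun a => x - a).prod := by
      rw [Multiset.map_cons, Multiset.prod_cons]
    have h1 := h (by rw [hprod]; exact D.mul_mem hbD hsD)
    have h2 : (⟨((b ::ₘ s).map fun a => x - a).prod, by rw [hprod]; exact D.mul_mem hbD hsD⟩ : D) =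
        (⟨x - b, hbD⟩ : D) * ⟨_, hsD⟩ := by
      apply Subtype.ext
      exact hprod
    rw [h2] at h1
    rcases hP.mem_or_mem h1 with h3 | h3
    · exact ⟨b, Multiset.mem_cons_self b s, fun _ => h3⟩
    · obtain ⟨a, ha, haP⟩ := ih (fun a ha => hs a (Multiset.mem_cons_of_mem ha)) (fun _ => h3)
      exact ⟨a, Multiset.mem_cons_of_mem ha, haP⟩

/-- the value at the point `X = 0` of an element of `icl (A, X)` -/
private theorem HP_value [IsAlgClosed Ω] {T A : Subring Ω} (hA : IC A) (hle : A ≤ T) (X : Ω)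
    (P : Ideal (icl ((T : Set Ω) ∪ {X}))) (hP : P.IsPrime)
    (hXP : (⟨X, X_mem_icl _ X⟩ : icl ((T : Set Ω) ∪ {X})) ∈ P) (x : Ω)
    (hx : x ∈ icl ((A : Set Ω) ∪ {X})) :
    ∃ c ∈ A, ∀ h : x - c ∈ icl ((T : Set Ω) ∪ {X}),
      (⟨x - c, h⟩ : icl ((T : Set Ω) ∪ {X})) ∈ P := by
  have hAD : ∀ a ∈ A, a ∈ icl ((T : Set Ω) ∪ {X}) := fun a ha => mem_icl_left (hle ha)
  have hxD : x ∈ icl ((T : Set Ω) ∪ {X}) :=
    icl_mono (Set.union_subset_union_left _ (fun a ha => hle ha)) hx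
  obtain ⟨F, hF, hFx⟩ := mem_icl_adjoin_iff.1 hx
  let ι : A →+* icl ((T : Set Ω) ∪ {X}) := Subring.inclusion hAD
  obtain ⟨xd, hxd⟩ : ∃ xd : icl ((T : Set Ω) ∪ {X}), xd = ⟨X, X_mem_icl _ X⟩ := ⟨_, rfl⟩
  obtain ⟨y, hy⟩ : ∃ y : icl ((T : Set Ω) ∪ {X}), y = ⟨x, hxD⟩ := ⟨_, rfl⟩
  have hFD : eval₂ (eval₂RingHom ι xd) y F = 0 := by
    apply Subtype.ext
    have h1 := Polynomial.hom_eval₂ F (eval₂RingHom ι xd) (icl ((T : Set Ω) ∪ {X})).subtype y
    change ((eval₂ (eval₂RingHom ι xd) y F : icl ((T : Set Ω) ∪ {X})) : Ω) = 0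
    rw [← hFx]
    unfold ev2
    rw [eval_map]
    refine Eq.trans h1 ?_
    have h3 : (icl ((T : Set Ω) ∪ {X})).subtype.comp (eval₂RingHom ι xd) =
        eval₂RingHom A.subtype X := by
      apply RingHom.ext
      intro f
      have h4 := Polynomial.hom_eval₂ f ι (icl ((T : Set Ω) ∪ {X})).subtype xd
      have h5 : (icl ((T : Set Ω) ∪ {X})).subtype xd = X := by rw [hxd]; rfl
      rw [h5] at h4
      exact h4
    rw [h3, hy]
    rfl
  -- the polynomial at `X = 0`
  obtain ⟨G, hG⟩ : ∃ G : A[X], G = F.map (evalRingHom 0) := ⟨_, rfl⟩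
  have hGm : G.Monic := by rw [hG]; exact hF.map _
  have hGP : eval₂ ι y G ∈ P := by
    rw [← Ideal.Quotient.eq_zero_iff_mem]
    have h1 := Polynomial.hom_eval₂ F (eval₂RingHom ι xd) (Ideal.Quotient.mk P) y
    rw [hFD, map_zero] at h1
    have h2 : (Ideal.Quotient.mk P).comp (eval₂RingHom ι xd) =
        ((Ideal.Quotient.mk P).comp ι).comp (evalRingHom 0) := by
      apply Polynomial.ringHom_ext
      · intro a
        simp
      · simp only [RingHom.comp_apply, coe_eval₂RingHom, eval₂_X, coe_evalRingHom, eval_X,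
          map_zero]
        rw [hxd]
        exact Ideal.Quotient.eq_zero_iff_mem.2 hXP
    rw [h2] at h1
    rw [Polynomial.hom_eval₂, hG, eval₂_map]
    exact h1.symm
  have hsplit : (G.map A.subtype) = ((G.map A.subtype).roots.map
      fun a => (Polynomial.X - C a : Polynomial Ω)).prod :=
    (IsAlgClosed.splits (G.map A.subtype)).eq_prod_roots_of_monic (hGm.map _)
  have hroots : ∀ a ∈ (G.map A.subtype).roots, a ∈ A := by
    intro a ha
    have h1 := (mem_roots'.1 ha).2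
    apply hA.mem_of_root hGm
    rw [IsRoot.def, eval_map] at h1
    exact h1
  have hev : ((eval₂ ι y G : icl ((T : Set Ω) ∪ {X})) : Ω) =
      ((G.map A.subtype).roots.map fun a => x - a).prod := by
    have h1 := Polynomial.hom_eval₂ G ι (icl ((T : Set Ω) ∪ {X})).subtype y
    have h2 : eval x (G.map A.subtype) = ((G.map A.subtype).roots.map fun a => x - a).prod := by
      conv_lhs => rw [hsplit]
      rw [eval_multiset_prod, Multiset.map_map]
      simp
    rw [← h2, eval_map]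
    refine Eq.trans h1 ?_
    rw [hy]
    rfl
  obtain ⟨c, hc, hcP⟩ := HP_root P hP x hxD (G.map A.subtype).roots
    (fun a ha => hAD a (hroots a ha)) (by
      intro h
      have h1 : (⟨_, h⟩ : icl ((T : Set Ω) ∪ {X})) = eval₂ ι y G := Subtype.ext hev.symm
      rw [h1]
      exact hGP)
  exact ⟨c, hroots c hc, hcP⟩

end

theorem m_HP (h1 : StHPM.{u}) (h2 : StSEID.{u}) : StHP.{u} := by
  intro Ω _ _ T A hloc hT hPV X hX0 π hπ hπT x₁ hx₁ x₂ hx₂ hd
  have hA : IC A := HP_IC hT hPV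
  by_cases hX : X ∈ A
  · have e1 : icl ((A : Set Ω) ∪ {X}) ≤ A :=
      icl_le hA (Set.union_subset (fun a ha => ha) (by simpa using hX))
    have e2 : icl ((A : Set Ω) ∪ {X, X⁻¹}) ≤ icl ((A : Set Ω) ∪ {X⁻¹}) := by
      apply icl_le (IC_icl _)
      rintro y (hy | hy)
      · exact mem_icl_left hy
      · rcases hy with rfl | hy
        · exact mem_icl_left hX
        · exact subset_icl _ (Or.inr hy)
    refine ⟨x₁, e1 hx₁, ?_, ?_⟩
    · rw [sub_self, zero_div]
      exact Subring.zero_mem _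
    · have e3 : (x₂ - x₁) / π = -((x₁ - x₂) / π) := by ring
      rw [e3]
      exact Subring.neg_mem _ (e2 hd)
  by_cases hX' : X⁻¹ ∈ A
  · have e1 : icl ((A : Set Ω) ∪ {X⁻¹}) ≤ A :=
      icl_le hA (Set.union_subset (fun a ha => ha) (by simpa using hX'))
    have e2 : icl ((A : Set Ω) ∪ {X, X⁻¹}) ≤ icl ((A : Set Ω) ∪ {X}) := by
      apply icl_le (IC_icl _)
      rintro y (hy | hy)
      · exact mem_icl_left hy
      · rcases hy with rfl | hy
        · exact X_mem_icl _ _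
        · rw [Set.mem_singleton_iff.1 hy]
          exact mem_icl_left hX'
    refine ⟨x₂, e1 hx₂, e2 hd, ?_⟩
    rw [sub_self, zero_div]
    exact Subring.zero_mem _
  have hXT : X ∉ T := by
    intro h
    rcases hPV.val X h with h3 | h3
    · exact hX h3
    · exact hX' h3
  have hXT' : X⁻¹ ∉ T := by
    intro h
    rcases hPV.val X⁻¹ h with h3 | h3
    · exact hX' h3
    · rw [inv_inv] at h3
      exact hX h3
  obtain ⟨P, hP, hPnu, hPX⟩ := HP_point h2 T hloc hT X hXT hXT'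
  obtain ⟨c, hc, hcP⟩ := HP_value hA hPV.le X P hP hPX x₁ hx₁
  refine ⟨c, hc, h1 Ω T A hloc hT hPV X hXT hXT' π hπ hπT x₁ hx₁ x₂ hx₂ hd c hc
    ⟨P, hP, hPnu, ⟨0, A.zero_mem, ?_⟩, hcP⟩⟩
  intro h
  have e : (⟨X - 0, h⟩ : icl ((T : Set Ω) ∪ {X})) = ⟨X, X_mem_icl _ X⟩ :=
    Subtype.ext (sub_zero X)
  rw [e]
  exact hPX

end Pool.Agent.Helper44.SPL
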