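import Pool.Agent.Helper95.SPL.F

/-! # Module HPM: the main step of HP -/

set_option autoImplicit false

namespace Pool.Agent.Helper44.SPL

open Polynomial Pool.Agent.Helper95.SPL

universe u

theorem hpm_good_prod {κ : Type u} [Field κ] {V : ValuationSubring κ} {s : κ[X]}
    (l : Multiset κ[X][X]) (h : ∀ μ ∈ l, Good V (μ.scaleRoots s)) :
    Good V (l.prod.scaleRoots s) := by
  induction l using Multiset.induction_on with
  | empty =>
    rw [Multiset.prod_zero, one_scaleRoots]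
    exact good_one
  | cons a l ih =>
    rw [Multiset.prod_cons, mul_scaleRoots_of_noZeroDivisors]
    exact (h a (Multiset.mem_cons_self _ _)).mul
      (ih fun μ hμ => h μ (Multiset.mem_cons_of_mem hμ))

theorem m_HPM (h1 : StH.{u}) (h2 : StLI.{u}) (h3 : StLI2.{u}) (h4 : StMU.{u}) (h5 : StRAD.{u})
    (h6 : StSCALE.{u}) (_h7 : StSEID.{u}) : StHPM.{u} := by
  intro Ω _ _ T A hl hT hPV X hX hX' π hπ hπn x₁ hx₁ x₂ hx₂ hx c hc ⟨P, hP, _, hPξ, hPx⟩
  haveI := hl
  haveI hAl := pv_isLocalRing hPV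
  have hA : IC A := pv_ic hPV hT
  have hle : icl ((A : Set Ω) ∪ {X}) ≤ icl ((T : Set Ω) ∪ {X}) := icl_le_icl hPV.le X
  have hX0 : X ≠ 0 := fun h0 => hX (by rw [h0]; exact T.zero_mem)
  have hy : x₁ - c ∈ icl ((A : Set Ω) ∪ {X}) := sub_mem hx₁ (T_le A X hc)
  have hyT : x₁ - c ∈ icl ((T : Set Ω) ∪ {X}) := hle hy
  obtain ⟨l, hl1, hl2⟩ := h4 Ω T hT X hX hX' (x₁ - c) hyT
  haveI := isAlgClosed_residueField hT
  have hM : l.prod.Monic := by
    have := monic_multiset_prod_of_monic l id (fun μ hμ => (hl1 μ hμ).1)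
    rwa [Multiset.map_id] at this
  -- the second statement follows from the first
  have second : ∀ ρ ∈ T, ρ ∉ nu T → (x₁ - c) / ρ ∈ icl ((A : Set Ω) ∪ {X}) →
      (x₁ - x₂) / ρ ∈ icl ((A : Set Ω) ∪ {X, X⁻¹}) →
      (x₂ - c) / ρ ∈ icl ((A : Set Ω) ∪ {X⁻¹}) := by
    intro ρ hρ hρn h1 h2
    have hρi : ρ⁻¹ ∈ T := inv_mem_of_notMem_nu hρ hρn
    refine h3 Ω T A hl hT hPV X⁻¹ hX' (by rwa [inv_inv]) _ ?_ ?_
    · rw [div_eq_mul_inv]
      exact mul_mem (sub_mem (icl_le_icl hPV.le X⁻¹ hx₂) (T_le T _ (hPV.le hc))) (T_le T _ hρi)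
    · have h5 : (x₂ - c) / ρ = (x₁ - c) / ρ - (x₁ - x₂) / ρ := by ring
      have h6 : ((A : Set Ω) ∪ {X⁻¹, X⁻¹⁻¹}) = ((A : Set Ω) ∪ {X, X⁻¹}) := by
        rw [inv_inv, Set.pair_comm]
      rw [h5, h6]
      refine sub_mem (icl_mono ?_ h1) h2
      exact Set.union_subset_union_right _ (by simp)
  suffices hmain : (x₁ - c) / π ∈ icl ((A : Set Ω) ∪ {X}) from
    ⟨hmain, second π (hPV.le hπ) hπn hmain hx⟩
  by_cases hMX : l.prod = Polynomial.X ^ l.prod.natDegree
  · -- all minimal polynomials are `Z`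
    refine div_mem_of_scale h2 hT hPV hX hX' hyT hM hl2 (hPV.le hπ) hπn ?_
    intro i hi j
    rw [hMX, natDegree_X_pow, coeff_X_pow]
    split_ifs with h7
    · rw [h7, Nat.sub_self, pow_zero, div_one, coeff_one]
      split_ifs
      · exact one_mem _
      · exact zero_mem _
    · rw [coeff_zero, zero_div]
      exact zero_mem _
  · obtain ⟨r, hr0, hV, i₀, hi₀, j₀, hc₀, hcV⟩ := h6 _ (VV hPV) l.prod hM hMX
    obtain ⟨ρ', hρ'⟩ := IsLocalRing.residue_surjective r
    obtain ⟨ρ, hρ⟩ := ρ'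
    have hρn : ρ ∉ nu T := by
      have := residue_ne_zero.mp (hρ'.symm ▸ hr0)
      exact this
    have hρ0 : ρ ≠ 0 := ne_zero_of_notMem_nu hρn
    have hρi : ρ⁻¹ ∈ T := inv_mem_of_notMem_nu hρ hρn
    have hπT := hPV.le hπ
    have hπ0 : IsLocalRing.residue T ⟨π, hπT⟩ ≠ 0 := residue_ne_zero.mpr hπn
    by_cases hρπ : r / IsLocalRing.residue T ⟨π, hπT⟩ ∈ VV hPV
    · refine div_mem_of_scale h2 hT hPV hX hX' hyT hM hl2 hπT hπn ?_
      intro i hi j
      have h7 : (l.prod.coeff i).coeff j /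
          (IsLocalRing.residue T ⟨π, hπT⟩) ^ (l.prod.natDegree - i) =
          (l.prod.coeff i).coeff j / r ^ (l.prod.natDegree - i) *
            (r / IsLocalRing.residue T ⟨π, hπT⟩) ^ (l.prod.natDegree - i) := by
        rw [div_pow]
        field_simp
      rw [h7]
      exact mul_mem (hV i hi j) (pow_mem hρπ _)
    · exfalso
      -- `π / ρ` is in the maximal ideal of `A`
      have hπρT : π * ρ⁻¹ ∈ T := T.mul_mem hπT hρi
      have hres : IsLocalRing.residue T ⟨π * ρ⁻¹, hπρT⟩ =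
          IsLocalRing.residue T ⟨π, hπT⟩ / r := by
        have h7 := residue_inv hρ hρi hρ0
        rw [hρ'] at h7
        rw [div_eq_mul_inv, ← h7, ← map_mul]
        rfl
      have hπρA : π * ρ⁻¹ ∈ A := by
        refine (mem_VV hPV (t := ⟨π * ρ⁻¹, hπρT⟩)).mp ?_
        rw [hres]
        rcases (VV hPV).mem_or_inv_mem (IsLocalRing.residue T ⟨π, hπT⟩ / r) with h7 | h7
        · exact h7
        · rw [inv_div] at h7
          exact absurd h7 hρπ
      have hπρ : π * ρ⁻¹ ∈ nu A := by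
        refine mem_nu_of_VV hPV (t := ⟨π * ρ⁻¹, hπρT⟩) hπρA (Or.inr ?_)
        rw [hres, inv_div]
        exact hρπ
      have hxρ : (x₁ - x₂) / ρ = (x₁ - x₂) / π * (π * ρ⁻¹) := by
        have : π ≠ 0 := ne_zero_of_notMem_nu hπn
        field_simp
      have hAD : A ≤ icl ((A : Set Ω) ∪ {X, X⁻¹}) := fun _ hx => subset_icl _ (Or.inl hx)
      have hxρm : (x₁ - x₂) / ρ ∈ icl ((A : Set Ω) ∪ {X, X⁻¹}) := by
        rw [hxρ]
        exact mul_mem hx (hAD hπρA)
      have hy₁ : (x₁ - c) / ρ ∈ icl ((A : Set Ω) ∪ {X}) := by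
        refine div_mem_of_scale h2 hT hPV hX hX' hyT hM hl2 hρ hρn ?_
        intro i hi j
        rw [hρ']
        exact hV i hi j
      have hy₂ := second ρ hρ hρn hy₁ hxρm
      have hd : (x₁ - c) / ρ - (x₂ - c) / ρ ∈
          ext (nu A) (icl ((A : Set Ω) ∪ {X, X⁻¹})) := by
        have h7 : (x₁ - c) / ρ - (x₂ - c) / ρ =
            (⟨(x₁ - x₂) / π, hx⟩ : icl ((A : Set Ω) ∪ {X, X⁻¹})) • (π * ρ⁻¹) := by
          change _ = (x₁ - x₂) / π * (π * ρ⁻¹)
          rw [← hxρ]; ring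
        rw [h7]
        exact Submodule.smul_mem _ _ (Submodule.subset_span hπρ)
      obtain ⟨c', hc', m, hm, hm₁, _⟩ := h1 Ω A hAl hA X hX0 _ hy₁ _ hy₂ hd
      have hyP : ∀ h : (x₁ - c) / ρ ∈ icl ((T : Set Ω) ∪ {X}),
          (⟨(x₁ - c) / ρ, h⟩ : icl ((T : Set Ω) ∪ {X})) ∈ P := by
        intro h
        have h7 := P.mul_mem_right ⟨ρ⁻¹, T_le T X hρi⟩ (hPx hyT)
        convert h7 using 1
        exact Subtype.ext (div_eq_mul_inv _ _)
      have hcn : c' ∈ nu A := const_mem_nu hT hPV P hPξ hy₁ hyP hc' hm₁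
      have hpow : ((x₁ - c) / ρ) ^ m ∈ ext (nu A) (icl ((A : Set Ω) ∪ {X})) :=
        pow_mem_of_const (T_le A X) hy₁ hcn hm₁
      -- all scaled minimal polynomials are `Z^d` modulo the maximal ideal
      have hgood : ∀ μ ∈ l, Good (VV hPV) (μ.scaleRoots (C r⁻¹)) := by
        intro μ hμ
        obtain ⟨hμm, hμi, q, hq, hF⟩ := hl1 μ hμ
        haveI := hq.prime
        let D := icl ((T : Set Ω) ∪ {X})
        let E := FractionRing (D ⧸ q)
        let e : (D ⧸ q) →+* E := algebraMap (D ⧸ q) E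
        have he : Function.Injective e := IsFractionRing.injective _ _
        obtain ⟨F, hFμ⟩ := Polynomial.map_surjective (mapRingHom (IsLocalRing.residue T))
          (by
            rw [coe_mapRingHom]
            exact Polynomial.map_surjective _ IsLocalRing.residue_surjective) μ
        have hTD : ∀ t : T, T.subtype t ∈ icl ((T : Set Ω) ∪ {X}) := fun t => T_le T X t.2
        have hFm := ev2_mem T.subtype _ hTD F (X_mem T X) hyT
        have hF0 := hF F hFμ hFm
        have hrz : gq q hq (C r) = Ideal.Quotient.mk q ⟨ρ, T_le T X hρ⟩ := by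
          rw [gq, coe_eval₂RingHom, eval₂_C, ← hρ', kap_residue]
        refine good_of_rad h5 (VV hPV) (E := E) (e.comp (gq q hq))
          (he.comp (gq_injective q hq)) hμm hμi hr0
          (z := e (Ideal.Quotient.mk q ⟨_, hle hy₁⟩)) ?_ hm ?_
        · have h7 : (e.comp (gq q hq)) (C r) * e (Ideal.Quotient.mk q ⟨_, hle hy₁⟩) =
              e (Ideal.Quotient.mk q ⟨_, hyT⟩) := by
            rw [RingHom.comp_apply, hrz, ← map_mul, ← map_mul]
            congr 2
            refine Subtype.ext ?_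
            change ρ * ((x₁ - c) / ρ) = x₁ - c
            field_simp
          rw [h7, ← hom_eval₂, ← hFμ, eval₂_gq q hq hyT F hFm,
            Ideal.Quotient.eq_zero_iff_mem.mpr hF0, map_zero]
        · have h8 := span_mem hPV q hq e hpow (hle (pow_mem hy₁ m))
          rw [← map_pow, ← map_pow]
          exact h8
      have hprod := hpm_good_prod l hgood
      have h9 := hprod.coeff (i := i₀) (by rwa [natDegree_scaleRoots]) j₀
      rw [coeff_scaleRoots, ← C_pow, coeff_mul_C, inv_pow, ← div_eq_mul_inv] at h9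
      rcases h9 with h9 | h9
      · rw [div_eq_zero_iff] at h9
        rcases h9 with h9 | h9
        · exact hc₀ h9
        · exact pow_ne_zero _ hr0 h9
      · exact h9 hcV

end Pool.Agent.Helper44.SPL
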