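import Pool.Agent.Helper44.SPL.St

/-!
# Splinters in mixed characteristic: module HPOL
-/

set_option autoImplicit false

namespace Pool.Agent.Helper44.SPL

open Polynomial

universe u

namespace HPOLaux

section

variable {Ω : Type u} [Field Ω]

lemma mem_icl {s : Set Ω} {x : Ω} : x ∈ icl s ↔ IsIntegral (Subring.closure s) x := Iff.rfl

lemma mem_icl_iff {s : Set Ω} {x : Ω} :
    x ∈ icl s ↔ ∀ W : ValuationSubring Ω, s ⊆ W → x ∈ W := by
  unfold icl
  rw [← iInf_valuationSubring_superset, Subring.mem_iInf]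
  constructor
  · intro h W hW
    exact h ⟨W, hW⟩
  · intro h W
    exact h W.1 W.2

lemma sub_icl (s : Set Ω) : s ⊆ icl s := fun x hx => mem_icl_iff.2 fun _ hW => hW hx

lemma icl_mono {s t : Set Ω} (h : s ⊆ t) : icl s ≤ icl t :=
  fun x hx => mem_icl_iff.2 fun W hW => mem_icl_iff.1 hx W (h.trans hW)

lemma closure_le_icl (s : Set Ω) : Subring.closure s ≤ icl s :=
  Subring.closure_le.2 (sub_icl s)

/-- elements of `ext N D` as an ideal of `D`. -/
lemma mem_span_iff {N : Set Ω} {D : Subring Ω} (hN : N ⊆ D) (d : D) :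
    d ∈ Ideal.span ((fun x : D => (x : Ω)) ⁻¹' N) ↔ (d : Ω) ∈ ext N D := by
  have h1 : Submodule.map (Algebra.linearMap D Ω)
      (Submodule.span D ((fun x : D => (x : Ω)) ⁻¹' N)) = ext N D := by
    rw [Submodule.map_span]
    congr 1
    ext x
    constructor
    · rintro ⟨y, hy, rfl⟩
      exact hy
    · intro hx
      exact ⟨⟨x, hN hx⟩, hx, rfl⟩
  rw [← h1]
  constructor
  · intro h
    exact ⟨d, h, rfl⟩
  · rintro ⟨y, hy, hyd⟩
    have : y = d := Subtype.ext hyd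
    rw [← this]
    exact hy

/-- transfer of integrality along a ring homomorphism. -/
lemma transfer {D S : Subring Ω} (hSD : S ≤ D) {x : Ω} (hx : x ∈ D) (hint : IsIntegral S x)
    {Q T : Type u} [CommRing Q] [CommRing T] [Algebra T Q] (φ : D →+* Q)
    (hφ : ∀ (s : Ω) (h : s ∈ S), φ ⟨s, hSD h⟩ ∈ Set.range (algebraMap T Q)) :
    IsIntegral T (φ ⟨x, hx⟩) := by
  obtain ⟨p, hp, hpx⟩ := hint
  set f : S →+* Q := φ.comp (Subring.inclusion hSD) with hf
  have hlift : p.map f ∈ Polynomial.lifts (algebraMap T Q) := by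
    rw [Polynomial.lifts_iff_coeff_lifts]
    intro n
    rw [Polynomial.coeff_map]
    exact hφ (p.coeff n) (p.coeff n).2
  obtain ⟨q, hq1, -, hq3⟩ := Polynomial.lifts_and_natDegree_eq_and_monic hlift (hp.map f)
  refine ⟨q, hq3, ?_⟩
  rw [← Polynomial.eval_map, hq1, Polynomial.eval_map]
  have h2 : eval₂ (Subring.inclusion hSD) (⟨x, hx⟩ : D) p = 0 := by
    apply Subtype.ext
    have h3 : ((eval₂ (Subring.inclusion hSD) (⟨x, hx⟩ : D) p : D) : Ω) =
        eval₂ (D.subtype.comp (Subring.inclusion hSD)) x p := by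
      have := Polynomial.hom_eval₂ p (Subring.inclusion hSD) D.subtype (⟨x, hx⟩ : D)
      exact this
    rw [h3]
    exact hpx
  have h4 := Polynomial.hom_eval₂ p (Subring.inclusion hSD) φ (⟨x, hx⟩ : D)
  rw [h2, map_zero] at h4
  exact h4.symm

/-- clearing denominators in the subring generated by `A` and `X, 1/X`. -/
lemma clear_closure (A : Subring Ω) (X : Ω) (hX : X ≠ 0) (c : Ω)
    (hc : c ∈ Subring.closure ((A : Set Ω) ∪ {X, X⁻¹})) :
    ∃ m : ℕ, ∀ k, m ≤ k → X ^ k * c ∈ icl ((A : Set Ω) ∪ {X}) := by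
  have hXm : X ∈ icl ((A : Set Ω) ∪ {X}) := sub_icl _ (Or.inr rfl)
  induction hc using Subring.closure_induction with
  | mem x hx =>
    rcases hx with hx | hx | hx
    · exact ⟨0, fun k _ => mul_mem (pow_mem hXm k) (sub_icl _ (Or.inl hx))⟩
    · rw [hx]
      exact ⟨0, fun k _ => mul_mem (pow_mem hXm k) hXm⟩
    · refine ⟨1, fun k hk => ?_⟩
      have hx' : x = X⁻¹ := hx
      obtain ⟨j, rfl⟩ : ∃ j, k = j + 1 := ⟨k - 1, by omega⟩
      rw [hx', pow_succ, mul_assoc, mul_inv_cancel₀ hX, mul_one]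
      exact pow_mem hXm j
  | zero => exact ⟨0, fun k _ => by rw [mul_zero]; exact zero_mem _⟩
  | one => exact ⟨0, fun k _ => by rw [mul_one]; exact pow_mem hXm k⟩
  | add x y _ _ hx hy =>
    obtain ⟨m, hm⟩ := hx
    obtain ⟨n, hn⟩ := hy
    refine ⟨max m n, fun k hk => ?_⟩
    rw [mul_add]
    exact add_mem (hm k (le_trans (le_max_left _ _) hk)) (hn k (le_trans (le_max_right _ _) hk))
  | neg x _ hx =>
    obtain ⟨m, hm⟩ := hx
    refine ⟨m, fun k hk => ?_⟩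
    rw [mul_neg]
    exact neg_mem (hm k hk)
  | mul x y _ _ hx hy =>
    obtain ⟨m, hm⟩ := hx
    obtain ⟨n, hn⟩ := hy
    refine ⟨m + n, fun k hk => ?_⟩
    obtain ⟨j, rfl⟩ : ∃ j, k = m + n + j := ⟨k - (m + n), by omega⟩
    have h1 := mul_mem (hm m le_rfl) (hn (n + j) (by omega))
    rwa [show X ^ (m + n + j) * (x * y) = X ^ m * x * (X ^ (n + j) * y) by ring]

/-- clearing denominators in `icl (A, X, 1/X)`. -/
lemma clear_icl (A : Subring Ω) (X : Ω) (hX : X ≠ 0) (d : Ω)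
    (hd : d ∈ icl ((A : Set Ω) ∪ {X, X⁻¹})) :
    ∃ m : ℕ, ∀ k, m ≤ k → X ^ k * d ∈ icl ((A : Set Ω) ∪ {X}) := by
  obtain ⟨p, hp, hpd⟩ := mem_icl.1 hd
  choose M hM using fun i : ℕ => clear_closure A X hX (p.coeff i) (p.coeff i).2
  have hXm : X ∈ icl ((A : Set Ω) ∪ {X}) := sub_icl _ (Or.inr rfl)
  set n := p.natDegree with hn
  refine ⟨(Finset.range n).sup M, fun k hk => ?_⟩
  rw [mem_icl_iff]
  intro W hW
  have hle : icl ((A : Set Ω) ∪ {X}) ≤ W.toSubring := fun x hx => mem_icl_iff.1 hx W hW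
  have hXW : X ∈ W := hW (Or.inr rfl)
  rcases W.mem_or_inv_mem d with hdW | hdW
  · exact mul_mem (pow_mem hXW k) hdW
  · by_cases hd0 : d = 0
    · rw [hd0, mul_zero]
      exact zero_mem _
    have hsum : ∑ i ∈ Finset.range (n + 1), ((p.coeff i : Ω)) * d ^ i = 0 := by
      have h1 := hpd
      rw [Polynomial.eval₂_eq_sum_range] at h1
      exact h1
    rw [Finset.sum_range_succ] at hsum
    have hlead : ((p.coeff n : Ω)) = 1 := by
      have : p.coeff n = 1 := hp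
      rw [this]
      rfl
    rw [hlead, one_mul] at hsum
    rcases Nat.eq_zero_or_pos n with h0 | h0
    · rw [h0] at hsum
      simp at hsum
    · have hd' : X ^ k * d = -∑ i ∈ Finset.range n, (X ^ k * (p.coeff i : Ω)) * (d⁻¹) ^ (n - 1 - i) := by
        have h2 : d ^ n = -∑ i ∈ Finset.range n, ((p.coeff i : Ω)) * d ^ i := by
          linear_combination hsum
        have h3 : d = d ^ n * (d⁻¹) ^ (n - 1) := by
          obtain ⟨j, hj⟩ : ∃ j, n = j + 1 := ⟨n - 1, by omega⟩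
          rw [hj, Nat.add_sub_cancel, pow_succ, mul_comm (d ^ j) d, mul_assoc, ← mul_pow,
            mul_inv_cancel₀ hd0, one_pow, mul_one]
        calc X ^ k * d = X ^ k * (d ^ n * (d⁻¹) ^ (n - 1)) := by rw [← h3]
          _ = _ := by
            rw [h2, neg_mul, mul_neg, Finset.sum_mul, Finset.mul_sum]
            congr 1
            refine Finset.sum_congr rfl fun i hi => ?_
            have hi' : i < n := Finset.mem_range.1 hi
            have h4 : (d⁻¹) ^ (n - 1) = (d⁻¹) ^ i * (d⁻¹) ^ (n - 1 - i) := by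
              rw [← pow_add]
              congr 1
              omega
            rw [h4]
            have h5 : d ^ i * (d⁻¹) ^ i = 1 := by
              rw [← mul_pow, mul_inv_cancel₀ hd0, one_pow]
            linear_combination (X ^ k * (p.coeff i : Ω) * (d⁻¹) ^ (n - 1 - i)) * h5
      rw [hd']
      refine neg_mem (sum_mem fun i hi => mul_mem ?_ (pow_mem hdW _))
      exact hle (hM i k (le_trans (Finset.le_sup hi) hk))

/-- clearing denominators in `N * icl (A, X, 1/X)`. -/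
lemma clear_ext (A : Subring Ω) (X : Ω) (hX : X ≠ 0) (N : Set Ω) (y : Ω)
    (hy : y ∈ ext N (icl ((A : Set Ω) ∪ {X, X⁻¹}))) :
    ∃ m : ℕ, ∀ k, m ≤ k → X ^ k * y ∈ ext N (icl ((A : Set Ω) ∪ {X})) := by
  have hXm : X ∈ icl ((A : Set Ω) ∪ {X}) := sub_icl _ (Or.inr rfl)
  have hsm : ∀ (c : Ω) (z : Ω), c ∈ icl ((A : Set Ω) ∪ {X}) →
      z ∈ ext N (icl ((A : Set Ω) ∪ {X})) → c * z ∈ ext N (icl ((A : Set Ω) ∪ {X})) := by
    intro c z hc hz
    exact Submodule.smul_mem _ (⟨c, hc⟩ : icl ((A : Set Ω) ∪ {X})) hz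
  induction hy using Submodule.span_induction with
  | mem x hx => exact ⟨0, fun k _ => hsm _ _ (pow_mem hXm k) (Submodule.subset_span hx)⟩
  | zero => exact ⟨0, fun k _ => by rw [mul_zero]; exact zero_mem _⟩
  | add x y _ _ hx hy =>
    obtain ⟨m, hm⟩ := hx
    obtain ⟨n, hn⟩ := hy
    refine ⟨max m n, fun k hk => ?_⟩
    rw [mul_add]
    exact add_mem (hm k (le_trans (le_max_left _ _) hk)) (hn k (le_trans (le_max_right _ _) hk))
  | smul d x _ hx =>
    obtain ⟨m, hm⟩ := hx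
    obtain ⟨n, hn⟩ := clear_icl A X hX (d : Ω) d.2
    refine ⟨m + n, fun k hk => ?_⟩
    obtain ⟨j, rfl⟩ : ∃ j, k = m + n + j := ⟨k - (m + n), by omega⟩
    have h1 := hsm _ _ (hn n le_rfl) (hm (m + j) (by omega))
    have h2 : X ^ (m + n + j) * (d • x) = X ^ n * (d : Ω) * (X ^ (m + j) * x) := by
      have : d • x = (d : Ω) * x := rfl
      rw [this]
      ring
    rwa [h2]

/-- the reduction at `X = 0`: a monic polynomial over `A` whose value at `x` is a multiple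
of `X`. -/
lemma red_zero (A : Subring Ω) (X : Ω) (hX : X ≠ 0) (x : Ω) (hx : x ∈ icl ((A : Set Ω) ∪ {X})) :
    ∃ P : A[X], P.Monic ∧ aeval x P / X ∈ icl ((A : Set Ω) ∪ {X}) := by
  set D := icl ((A : Set Ω) ∪ {X}) with hD
  have hAD : A ≤ D := fun a ha => sub_icl _ (Or.inl ha)
  have hXm : X ∈ D := sub_icl _ (Or.inr rfl)
  set J : Ideal D := Ideal.span {(⟨X, hXm⟩ : D)} with hJ
  letI : Algebra A (D ⧸ J) := ((Ideal.Quotient.mk J).comp (Subring.inclusion hAD)).toAlgebra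
  have hS : Subring.closure ((A : Set Ω) ∪ {X}) ≤ D := closure_le_icl _
  have hint : IsIntegral A (Ideal.Quotient.mk J ⟨x, hx⟩) := by
    refine transfer hS hx (mem_icl.1 hx) (Ideal.Quotient.mk J) ?_
    intro s hs
    induction hs using Subring.closure_induction with
    | mem y hy =>
      rcases hy with hy | hy
      · exact ⟨⟨y, hy⟩, rfl⟩
      · refine ⟨0, ?_⟩
        rw [map_zero]
        symm
        rw [Ideal.Quotient.eq_zero_iff_mem]
        have hy' : y = X := hy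
        subst hy'
        exact Ideal.subset_span rfl
    | zero => exact ⟨0, by rw [map_zero]; exact (map_zero (Ideal.Quotient.mk J)).symm⟩
    | one => exact ⟨1, by rw [map_one]; exact (map_one (Ideal.Quotient.mk J)).symm⟩
    | add y z hy hz h1 h2 =>
      obtain ⟨a, ha⟩ := h1
      obtain ⟨b, hb⟩ := h2
      refine ⟨a + b, ?_⟩
      rw [map_add, ha, hb, ← map_add]
      rfl
    | neg y hy h1 =>
      obtain ⟨a, ha⟩ := h1
      refine ⟨-a, ?_⟩
      rw [map_neg, ha, ← map_neg]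
      rfl
    | mul y z hy hz h1 h2 =>
      obtain ⟨a, ha⟩ := h1
      obtain ⟨b, hb⟩ := h2
      refine ⟨a * b, ?_⟩
      rw [map_mul, ha, hb, ← map_mul]
      rfl
  obtain ⟨P, hP, hPx⟩ := hint
  refine ⟨P, hP, ?_⟩
  have h1 := Polynomial.hom_eval₂ P (Subring.inclusion hAD) (Ideal.Quotient.mk J) (⟨x, hx⟩ : D)
  have h2 : Ideal.Quotient.mk J (eval₂ (Subring.inclusion hAD) (⟨x, hx⟩ : D) P) = 0 := by
    rw [h1]
    exact hPx
  rw [Ideal.Quotient.eq_zero_iff_mem, hJ, Ideal.mem_span_singleton'] at h2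
  obtain ⟨e, he⟩ := h2
  have h3 := Polynomial.hom_eval₂ P (Subring.inclusion hAD) D.subtype (⟨x, hx⟩ : D)
  have h4 : aeval x P = (e : Ω) * X := by
    have h5 : (aeval x P : Ω) = eval₂ (D.subtype.comp (Subring.inclusion hAD)) x P := rfl
    rw [h5]
    have h6 : eval₂ (D.subtype.comp (Subring.inclusion hAD)) x P =
        D.subtype (eval₂ (Subring.inclusion hAD) (⟨x, hx⟩ : D) P) := h3.symm
    rw [h6, ← he]
    rfl
  rw [h4, mul_div_assoc, div_self hX, mul_one]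
  exact e.2

/-- half of the conclusion. -/
lemma half (A : Subring Ω) (X : Ω) (hX : X ≠ 0) (N : Set Ω) (x : Ω)
    (hx : x ∈ icl ((A : Set Ω) ∪ {X})) (G : A[X]) (hG : G.Monic)
    (hGx : aeval x G ∈ ext N (icl ((A : Set Ω) ∪ {X, X⁻¹}))) :
    ∃ H : A[X], H.Monic ∧ aeval x (G * H) ∈ ext N (icl ((A : Set Ω) ∪ {X})) := by
  obtain ⟨m, hm⟩ := clear_ext A X hX N _ hGx
  obtain ⟨P, hP, hPx⟩ := red_zero A X hX x hx
  refine ⟨P ^ m, hP.pow m, ?_⟩
  have h1 : aeval x (G * P ^ m) = (aeval x P / X) ^ m * (X ^ m * aeval x G) := by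
    rw [map_mul, map_pow, div_pow]
    field_simp
  rw [h1]
  exact Submodule.smul_mem _ (⟨(aeval x P / X) ^ m, pow_mem hPx m⟩ : icl ((A : Set Ω) ∪ {X}))
    (hm m le_rfl)

lemma aeval_mem (A : Subring Ω) (s : Set Ω) (x : Ω) (hx : x ∈ icl ((A : Set Ω) ∪ s)) (G : A[X]) :
    aeval x G ∈ icl ((A : Set Ω) ∪ s) := by
  rw [Polynomial.aeval_eq_sum_range]
  refine sum_mem fun i _ => ?_
  exact mul_mem (sub_icl _ (Or.inl (G.coeff i).2)) (pow_mem hx i)

end

end HPOLaux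

open HPOLaux in
theorem m_HPOL (h : StINT.{u}) : StHPOL.{u} := by
  intro Ω _ _ A _ _ X hX x₁ hx₁ x₂ hx₂ h12
  have hXs1 : ((A : Set Ω) ∪ {X}) ⊆ ((A : Set Ω) ∪ {X, X⁻¹}) :=
    Set.union_subset_union_right _ (by simp)
  have hXs2 : ((A : Set Ω) ∪ {X⁻¹}) ⊆ ((A : Set Ω) ∪ {X, X⁻¹}) :=
    Set.union_subset_union_right _ (by simp)
  set D := icl ((A : Set Ω) ∪ {X, X⁻¹}) with hD
  have hAD : A ≤ D := fun a ha => sub_icl _ (Or.inl ha)
  have hXm : X ∈ D := sub_icl _ (Or.inr (Or.inl rfl))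
  have hXm' : X⁻¹ ∈ D := sub_icl _ (Or.inr (Or.inr rfl))
  have hN : nu A ⊆ D := fun a ha => hAD ha.1
  set J : Ideal D := Ideal.span ((fun x : D => (x : Ω)) ⁻¹' (nu A)) with hJ
  letI : Algebra A (D ⧸ J) := ((Ideal.Quotient.mk J).comp (Subring.inclusion hAD)).toAlgebra
  have hx₁D : x₁ ∈ D := icl_mono hXs1 hx₁
  have hx₂D : x₂ ∈ D := icl_mono hXs2 hx₂
  have hww : Ideal.Quotient.mk J (⟨X, hXm⟩ : D) * Ideal.Quotient.mk J (⟨X⁻¹, hXm'⟩ : D) = 1 := by
    rw [← map_mul, ← map_one (Ideal.Quotient.mk J)]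
    congr 1
    exact Subtype.ext (mul_inv_cancel₀ hX)
  let w : (D ⧸ J)ˣ := ⟨Ideal.Quotient.mk J (⟨X, hXm⟩ : D), Ideal.Quotient.mk J (⟨X⁻¹, hXm'⟩ : D),
    hww, by rw [mul_comm]; exact hww⟩
  have heq : Ideal.Quotient.mk J (⟨x₁, hx₁D⟩ : D) = Ideal.Quotient.mk J (⟨x₂, hx₂D⟩ : D) := by
    rw [Ideal.Quotient.eq, hJ, mem_span_iff hN]
    exact h12
  have key : ∀ (Y : Ω) (hY : Y ∈ D) (v : D ⧸ J), v = Ideal.Quotient.mk J (⟨Y, hY⟩ : D) →
      ∀ (s : Ω) (hs : s ∈ Subring.closure ((A : Set Ω) ∪ {Y})) (hsD : s ∈ D),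
      Ideal.Quotient.mk J (⟨s, hsD⟩ : D) ∈
        Set.range (algebraMap (Algebra.adjoin A {v}) (D ⧸ J)) := by
    intro Y hY v hv s hs
    have hle : Subring.closure ((A : Set Ω) ∪ {Y}) ≤ D := by
      refine Subring.closure_le.2 ?_
      rintro z (hz | hz)
      · exact hAD hz
      · rw [hz]
        exact hY
    suffices h5 : Ideal.Quotient.mk J (⟨s, hle hs⟩ : D) ∈ Algebra.adjoin A {v} from
      fun hsD => ⟨⟨_, h5⟩, rfl⟩
    induction hs using Subring.closure_induction with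
    | mem y hy =>
      rcases hy with hy | hy
      · exact (Algebra.adjoin A {v}).algebraMap_mem ⟨y, hy⟩
      · have hy' : y = Y := hy
        subst hy'
        rw [← hv]
        exact Algebra.subset_adjoin rfl
    | zero => exact zero_mem _
    | one => exact one_mem _
    | add y z hy hz h1 h2 => exact add_mem h1 h2
    | neg y hy h1 => exact neg_mem h1
    | mul y z hy hz h1 h2 => exact mul_mem h1 h2
  have int1 : IsIntegral (Algebra.adjoin A {(w : D ⧸ J)})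
      (Ideal.Quotient.mk J (⟨x₁, hx₁D⟩ : D)) := by
    have hS : Subring.closure ((A : Set Ω) ∪ {X}) ≤ D :=
      (closure_le_icl _).trans (icl_mono hXs1)
    exact transfer hS hx₁D (mem_icl.1 hx₁) (Ideal.Quotient.mk J)
      fun s hs => key X hXm _ rfl s hs _
  have int2 : IsIntegral (Algebra.adjoin A {((w⁻¹ : (D ⧸ J)ˣ) : D ⧸ J)})
      (Ideal.Quotient.mk J (⟨x₁, hx₁D⟩ : D)) := by
    have hS : Subring.closure ((A : Set Ω) ∪ {X⁻¹}) ≤ D :=
      (closure_le_icl _).trans (icl_mono hXs2)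
    rw [heq]
    exact transfer hS hx₂D (mem_icl.1 hx₂) (Ideal.Quotient.mk J)
      fun s hs => key X⁻¹ hXm' _ rfl s hs _
  obtain ⟨G, hG, hG0⟩ := h A (D ⧸ J) w _ int1 int2
  have hval : ∀ (x : Ω) (hx : x ∈ D),
      Ideal.Quotient.mk J (⟨x, hx⟩ : D) = Ideal.Quotient.mk J (⟨x₁, hx₁D⟩ : D) →
      aeval x G ∈ ext (nu A) D := by
    intro x hx hxx
    have h1 := Polynomial.hom_eval₂ G (Subring.inclusion hAD) (Ideal.Quotient.mk J) (⟨x, hx⟩ : D)
    have h2 : Ideal.Quotient.mk J (eval₂ (Subring.inclusion hAD) (⟨x, hx⟩ : D) G) = 0 := by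
      rw [h1, hxx]
      exact hG0
    rw [Ideal.Quotient.eq_zero_iff_mem, hJ, mem_span_iff hN] at h2
    have h3 := Polynomial.hom_eval₂ G (Subring.inclusion hAD) D.subtype (⟨x, hx⟩ : D)
    have h4 : (aeval x G : Ω) = ((eval₂ (Subring.inclusion hAD) (⟨x, hx⟩ : D) G : D) : Ω) :=
      h3.symm
    rw [h4]
    exact h2
  obtain ⟨H₁, hH₁, h₁⟩ := half A X hX (nu A) x₁ hx₁ G hG (hval x₁ hx₁D rfl)
  have hXi : X⁻¹ ≠ 0 := inv_ne_zero hX
  have hset : ((A : Set Ω) ∪ {X, X⁻¹}) = ((A : Set Ω) ∪ {X⁻¹, X⁻¹⁻¹}) := by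
    rw [inv_inv, Set.pair_comm]
  obtain ⟨H₂, hH₂, h₂⟩ := half A X⁻¹ hXi (nu A) x₂ hx₂ G hG (by
    rw [← hset]
    exact hval x₂ hx₂D heq.symm)
  refine ⟨G * H₁ * H₂, (hG.mul hH₁).mul hH₂, ?_, ?_⟩
  · have h5 : aeval x₁ (G * H₁ * H₂) = aeval x₁ H₂ * aeval x₁ (G * H₁) := by
      rw [map_mul, mul_comm]
    rw [h5]
    exact Submodule.smul_mem _ (⟨aeval x₁ H₂, aeval_mem A {X} x₁ hx₁ H₂⟩ :
      icl ((A : Set Ω) ∪ {X})) h₁
  · have h5 : aeval x₂ (G * H₁ * H₂) = aeval x₂ H₁ * aeval x₂ (G * H₂) := by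
      rw [map_mul, map_mul, map_mul]
      ring
    rw [h5]
    exact Submodule.smul_mem _ (⟨aeval x₂ H₁, aeval_mem A {X⁻¹} x₂ hx₂ H₁⟩ :
      icl ((A : Set Ω) ∪ {X⁻¹})) h₂

end Pool.Agent.Helper44.SPL
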