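import Pool.Agent.Helper44.SPL.St5

/-!
# SPL, module IND: ascent of splinters to filtered colimits of smooth algebras
-/

set_option autoImplicit false

namespace Pool.Agent.Helper44.SPL

open Polynomial TensorProduct

universe u

namespace MIND

/-- base change of lying over -/
theorem range_baseChange (P Q T : Type u) [CommRing P] [CommRing Q] [CommRing T] [Algebra P Q]
    [Algebra P T] [Algebra.IsIntegral P T] (q : PrimeSpectrum Q)
    (hq : RingHom.ker (algebraMap P T) ≤ q.asIdeal.comap (algebraMap P Q)) :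
    q ∈ Set.range (PrimeSpectrum.comap (algebraMap Q (Q ⊗[P] T))) := by
  set p := q.asIdeal.comap (algebraMap P Q) with hp
  have : p.IsPrime := Ideal.comap_isPrime _ _
  obtain ⟨p', -, hp', hpp'⟩ := Ideal.exists_ideal_over_prime_of_isIntegral p (⊥ : Ideal T)
    (by rw [← RingHom.ker_eq_comap_bot]; exact hq)
  let Ω := AlgebraicClosure (FractionRing (Q ⧸ q.asIdeal))
  have hQΩ : ∀ x : Q, algebraMap Q Ω x = 0 ↔ x ∈ q.asIdeal := by
    intro x
    have h1 : algebraMap Q Ω x = algebraMap (FractionRing (Q ⧸ q.asIdeal)) Ω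
        (algebraMap (Q ⧸ q.asIdeal) (FractionRing (Q ⧸ q.asIdeal))
          (Ideal.Quotient.mk q.asIdeal x)) := by
      rw [IsScalarTower.algebraMap_apply Q (FractionRing (Q ⧸ q.asIdeal)) Ω,
        IsScalarTower.algebraMap_apply Q (Q ⧸ q.asIdeal) (FractionRing (Q ⧸ q.asIdeal))]
      rfl
    rw [h1, map_eq_zero_iff _ (FaithfulSMul.algebraMap_injective _ _),
      map_eq_zero_iff _ (IsFractionRing.injective _ _), Ideal.Quotient.eq_zero_iff_mem]
  have hPΩ : ∀ x : P, algebraMap P Ω x = 0 ↔ x ∈ p := by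
    intro x
    rw [IsScalarTower.algebraMap_apply P Q Ω, hQΩ, hp, Ideal.mem_comap]
  let R' := P ⧸ p'.comap (algebraMap P T)
  let i : R' →+* Ω := Ideal.Quotient.lift _ (algebraMap P Ω) fun x hx => by
    rw [hpp'] at hx
    exact (hPΩ x).2 hx
  let _ : Algebra R' Ω := i.toAlgebra
  have hi : Function.Injective i := by
    rw [injective_iff_map_eq_zero]
    intro x hx
    obtain ⟨y, rfl⟩ := Ideal.Quotient.mk_surjective x
    have h1 : i (Ideal.Quotient.mk _ y) = algebraMap P Ω y := rfl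
    rw [h1, hPΩ, ← hpp'] at hx
    exact Ideal.Quotient.eq_zero_iff_mem.2 hx
  have : IsDomain (T ⧸ p') := Ideal.Quotient.isDomain p'
  have : IsDomain R' := by
    have : (p'.comap (algebraMap P T)).IsPrime := Ideal.comap_isPrime _ _
    exact Ideal.Quotient.isDomain _
  have : Algebra.IsIntegral R' (T ⧸ p') := by infer_instance
  have : Algebra.IsAlgebraic R' (T ⧸ p') := by infer_instance
  have : Module.IsTorsionFree R' (T ⧸ p') := by
    rw [Module.isTorsionFree_iff_algebraMap_injective]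
    exact Ideal.algebraMap_quotient_injective
  have : Module.IsTorsionFree R' Ω := by
    rw [Module.isTorsionFree_iff_algebraMap_injective]
    exact hi
  let φ : (T ⧸ p') →ₐ[R'] Ω := IsAlgClosed.lift
  let φ' : T →ₐ[P] Ω :=
    { toRingHom := φ.toRingHom.comp (Ideal.Quotient.mk p')
      commutes' := by
        intro x
        show φ (Ideal.Quotient.mk p' (algebraMap P T x)) = algebraMap P Ω x
        have h1 : Ideal.Quotient.mk p' (algebraMap P T x) =
            algebraMap R' (T ⧸ p') (Ideal.Quotient.mk _ x) := rfl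
        rw [h1, φ.commutes]
        rfl }
  let F : Q ⊗[P] T →ₐ[P] Ω :=
    Algebra.TensorProduct.lift (IsScalarTower.toAlgHom P Q Ω) φ' (fun _ _ => Commute.all _ _)
  refine ⟨PrimeSpectrum.comap F.toRingHom ⊥, ?_⟩
  apply PrimeSpectrum.ext
  apply Ideal.ext
  intro x
  have h1 : F (algebraMap Q (Q ⊗[P] T) x) = algebraMap Q Ω x := by
    rw [Algebra.TensorProduct.algebraMap_apply, Algebra.TensorProduct.lift_tmul, map_one, mul_one]
    rfl
  show F (algebraMap Q (Q ⊗[P] T) x) = 0 ↔ x ∈ q.asIdeal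
  rw [h1, hQΩ]

end MIND

theorem m_IND (h1 : StSM.{u}) (h2 : StINDP.{u}) : StIND.{u} := by
  intro R S _ _ _ hR hS hind
  refine ⟨hS, fun T _ _ hT hsurj => ?_⟩
  obtain ⟨N, c, T', _, _, g, hfin, hg, huniv⟩ := h2 R S T hS hT
  have : IsNoetherianRing R := hR.1
  set P := MvPolynomial (Fin N) R with hPdef
  set I : Ideal P := RingHom.ker (algebraMap P T') with hI
  -- the image of `I` is nilpotent
  have hker : I.map c ≤ nilradical S := by
    rw [Ideal.map_le_iff_le_comap]
    intro x hx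
    have h3 : algebraMap S T (c x) = 0 := by
      rw [← hg, (RingHom.mem_ker).1 hx, map_zero]
    rw [Ideal.mem_comap, nilradical_eq_sInf, Ideal.mem_sInf]
    intro q hq
    obtain ⟨q', hq'⟩ := hsurj ⟨q, hq⟩
    have h4 : q'.asIdeal.comap (algebraMap S T) = q := congrArg PrimeSpectrum.asIdeal hq'
    rw [← h4, Ideal.mem_comap]
    show algebraMap S T (c x) ∈ q'.asIdeal
    rw [h3]
    exact q'.asIdeal.zero_mem
  obtain ⟨n, hn⟩ := IsNoetherianRing.isNilpotent_nilradical S
  have hIn : ∀ x ∈ I ^ n, c x = 0 := by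
    intro x hx
    have h3 : c x ∈ (I ^ n).map c := Ideal.mem_map_of_mem c hx
    rw [Ideal.map_pow] at h3
    have h4 := Ideal.pow_right_mono hker n h3
    rw [hn] at h4
    exact h4
  let f : (P ⧸ I ^ n) →ₐ[R] S := Ideal.Quotient.liftₐ (I ^ n) c hIn
  have : Algebra.FinitePresentation R (P ⧸ I ^ n) :=
    Algebra.FinitePresentation.quotient (IsNoetherian.noetherian (I ^ n))
  obtain ⟨Q, _, _, hsm, g1, h1', hcomp⟩ := hind (P ⧸ I ^ n) inferInstance f
  have hQ : IsSplinter Q := h1 R Q hsm hR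
  let _ : Algebra P Q := (g1.toRingHom.comp (Ideal.Quotient.mk (I ^ n))).toAlgebra
  have hPQ : ∀ x : P, algebraMap P Q x = g1 (Ideal.Quotient.mk (I ^ n) x) := fun _ => rfl
  have : Algebra.IsIntegral P T' := Algebra.IsIntegral.of_finite P T'
  obtain ⟨ρ, hρ⟩ := hQ.2 (Q ⊗[P] T') inferInstance fun q => by
    refine MIND.range_baseChange P Q T' q fun x hx => ?_
    have h3 : algebraMap P Q x ^ n ∈ q.asIdeal := by
      rw [← map_pow, hPQ, Ideal.Quotient.eq_zero_iff_mem.2 (Ideal.pow_mem_pow hx n), map_zero]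
      exact q.asIdeal.zero_mem
    exact q.2.mem_of_pow_mem n h3
  have hc : ∀ x : P, h1' (algebraMap P Q x) = c x := by
    intro x
    rw [hPQ]
    have h3 := DFunLike.congr_fun hcomp (Ideal.Quotient.mk (I ^ n) x)
    exact h3
  let φ : T' →+ S :=
    { toFun := fun y => h1' (ρ ((1 : Q) ⊗ₜ[P] y))
      map_zero' := by rw [TensorProduct.tmul_zero, map_zero, map_zero]
      map_add' := fun y z => by rw [TensorProduct.tmul_add, map_add, map_add] }
  obtain ⟨ψ, hψ⟩ := huniv S φ fun x y => by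
    show h1' (ρ ((1 : Q) ⊗ₜ[P] (x • y))) = c x • h1' (ρ ((1 : Q) ⊗ₜ[P] y))
    have h3 : (1 : Q) ⊗ₜ[P] (x • y) = algebraMap P Q x • ((1 : Q) ⊗ₜ[P] y) := by
      rw [TensorProduct.tmul_smul]
      exact (algebraMap_smul Q x ((1 : Q) ⊗ₜ[P] y)).symm
    rw [h3, map_smul, smul_eq_mul, map_mul, hc, smul_eq_mul]
  refine ⟨ψ, ?_⟩
  rw [← map_one g, hψ]
  show h1' (ρ ((1 : Q) ⊗ₜ[P] (1 : T'))) = 1
  have h3 : (1 : Q) ⊗ₜ[P] (1 : T') = 1 := rfl
  rw [h3, hρ, map_one]

end Pool.Agent.Helper44.SPL
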