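import Pool.Agent.Helper44.SPL.St

/-! Module INT of project SPL: integral over `R[u]` and over `R[1/u]` implies integral over `R`. -/

set_option autoImplicit false

namespace Pool.Agent.Helper44.SPL

open Polynomial

universe u

/-- the generators `u ^ j * x ^ i`, `j ≤ d`, `i < n` -/
private def INT_G {S : Type u} [CommRing S] (u x : S) (d n : ℕ) : Set S :=
  {s | ∃ j ≤ d, ∃ i < n, s = u ^ j * x ^ i}

private theorem INT_mem {S : Type u} [CommRing S] {u x : S} {d n j i : ℕ} (hj : j ≤ d)
    (hi : i < n) : u ^ j * x ^ i ∈ INT_G u x d n := ⟨j, hj, i, hi, rfl⟩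

private theorem INT_mono {S : Type u} [CommRing S] {u x : S} {d d' n : ℕ} (hd : d ≤ d') :
    INT_G u x d n ⊆ INT_G u x d' n := by
  rintro s ⟨j, hj, i, hi, rfl⟩
  exact INT_mem (hj.trans hd) hi

private theorem INT_map {R S : Type u} [CommRing R] [CommRing S] [Algebra R S] (c : S)
    {A B : Set S} (h : ∀ s ∈ A, c * s ∈ Submodule.span R B) {y : S}
    (hy : y ∈ Submodule.span R A) : c * y ∈ Submodule.span R B := by
  have h1 : Submodule.span R A ≤ (Submodule.span R B).comap (LinearMap.mulLeft R c) :=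
    Submodule.span_le.2 fun s hs => by
      rw [SetLike.mem_coe, Submodule.mem_comap]
      exact h s hs
  exact h1 hy

private theorem INT_dir {R S : Type u} [CommRing R] [CommRing S] [Algebra R S] (u x : S)
    (n : ℕ) {y : S} (hy : y ∈ Submodule.span R {s : S | ∃ j, ∃ i < n, s = u ^ j * x ^ i}) :
    ∃ d, y ∈ Submodule.span R (INT_G u x d n) := by
  induction hy using Submodule.span_induction with
  | mem s hs =>
    obtain ⟨j, i, hi, rfl⟩ := hs
    exact ⟨j, Submodule.subset_span (INT_mem le_rfl hi)⟩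
  | zero => exact ⟨0, Submodule.zero_mem _⟩
  | add a b _ _ ha hb =>
    obtain ⟨d, hd⟩ := ha
    obtain ⟨d', hd'⟩ := hb
    exact ⟨max d d', Submodule.add_mem _
      (Submodule.span_mono (INT_mono (le_max_left _ _)) hd)
      (Submodule.span_mono (INT_mono (le_max_right _ _)) hd')⟩
  | smul r a _ ha =>
    obtain ⟨d, hd⟩ := ha
    exact ⟨d, Submodule.smul_mem _ _ hd⟩

private theorem INT_rel {R S : Type u} [CommRing R] [CommRing S] [Algebra R S] (u x : S)
    (h : IsIntegral (Algebra.adjoin R {u}) x) :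
    ∃ d n, x ^ n ∈ Submodule.span R (INT_G u x d n) := by
  obtain ⟨p, hp, hx⟩ := h
  rw [Polynomial.eval₂_eq_sum_range, Finset.sum_range_succ, hp.coeff_natDegree, map_one,
    one_mul] at hx
  have key : x ^ p.natDegree ∈
      Submodule.span R {s : S | ∃ j, ∃ i < p.natDegree, s = u ^ j * x ^ i} := by
    rw [eq_neg_of_add_eq_zero_right hx]
    refine Submodule.neg_mem _ (Submodule.sum_mem _ fun i hi => ?_)
    have hi' := Finset.mem_range.1 hi
    obtain ⟨q, hq⟩ : ∃ q : R[X], aeval u q = ((p.coeff i : Algebra.adjoin R {u}) : S) := by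
      have h1 : ∀ c : S, c ∈ Algebra.adjoin R {u} → ∃ q : R[X], aeval u q = c := by
        intro c hc
        rw [Algebra.adjoin_singleton_eq_range_aeval] at hc
        exact hc
      exact h1 _ (p.coeff i).2
    have h2 : algebraMap (Algebra.adjoin R {u}) S (p.coeff i) = aeval u q := hq.symm
    rw [h2, aeval_eq_sum_range, Finset.sum_mul]
    refine Submodule.sum_mem _ fun j _ => ?_
    rw [smul_mul_assoc]
    exact Submodule.smul_mem _ _ (Submodule.subset_span ⟨j, i, hi', rfl⟩)
  obtain ⟨d, hd⟩ := INT_dir u x _ key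
  exact ⟨d, _, hd⟩

private theorem INT_up {R S : Type u} [CommRing R] [CommRing S] [Algebra R S] {u x : S}
    {d n d' k : ℕ} (h : x ^ n ∈ Submodule.span R (INT_G u x d n)) (hd : d ≤ d') :
    x ^ (k + n) ∈ Submodule.span R (INT_G u x d' (k + n)) := by
  rw [pow_add]
  refine INT_map (x ^ k) ?_ h
  rintro s ⟨j, hj, i, hi, rfl⟩
  have h1 : x ^ k * (u ^ j * x ^ i) = u ^ j * x ^ (k + i) := by ring
  rw [h1]
  exact Submodule.subset_span (INT_mem (hj.trans hd) (by omega))

private theorem INT_fg {R S : Type u} [CommRing R] [CommRing S] [Algebra R S] (u x : S)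
    (d n : ℕ) : (Submodule.span R (INT_G u x d n)).FG := by
  refine Submodule.fg_span ?_
  refine (((Finset.range (d + 1)) ×ˢ (Finset.range n)).finite_toSet.image
    (fun q : ℕ × ℕ => u ^ q.1 * x ^ q.2)).subset ?_
  rintro s ⟨j, hj, i, hi, rfl⟩
  refine ⟨(j, i), ?_, rfl⟩
  rw [Finset.mem_coe, Finset.mem_product, Finset.mem_range, Finset.mem_range]
  exact ⟨by omega, hi⟩

private theorem INT_fin {R S : Type u} [CommRing R] [CommRing S] [Algebra R S] (x : S)
    (N : Submodule R S) (hN : N.FG) (h1 : (1 : S) ∈ N) (h : ∀ y ∈ N, x * y ∈ N) :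
    IsIntegral R x := by
  have : Module.Finite R N := Module.Finite.iff_fg.2 hN
  obtain ⟨p, hp, hp'⟩ := LinearMap.exists_monic_and_aeval_eq_zero R
    ((LinearMap.mulLeft R x).restrict h)
  refine ⟨p, hp, ?_⟩
  have h2 : ∀ (q : R[X]) (y : N),
      ((aeval ((LinearMap.mulLeft R x).restrict h) q y : N) : S) = aeval x q * (y : S) := by
    intro q
    induction q using Polynomial.induction_on' with
    | add a b ha hb =>
      intro y
      rw [map_add, map_add, LinearMap.add_apply, Submodule.coe_add, ha, hb, add_mul]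
    | monomial n a =>
      intro y
      rw [aeval_monomial, aeval_monomial]
      have h3 : ∀ (m : ℕ) (z : N),
          (((((LinearMap.mulLeft R x).restrict h) ^ m) z : N) : S) = x ^ m * (z : S) := by
        intro m
        induction m with
        | zero => intro z; simp
        | succ m ih =>
          intro z
          rw [pow_succ, Module.End.mul_apply, ih]
          change x ^ m * (x * (z : S)) = _
          ring
      rw [Module.End.mul_apply, Module.algebraMap_end_apply, Submodule.coe_smul, h3,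
        Algebra.smul_def, mul_assoc]
  have h4 := h2 p ⟨1, h1⟩
  rw [hp', LinearMap.zero_apply, Submodule.coe_zero, mul_one] at h4
  rw [← Polynomial.aeval_def]
  exact h4.symm

theorem m_INT : StINT.{u} := by
  intro R S _ _ _ w x h1 h2
  obtain ⟨d₁, n₁, hr₁⟩ := INT_rel (R := R) _ _ h1
  obtain ⟨d₂, n₂, hr₂⟩ := INT_rel (R := R) _ _ h2
  set u : S := (w : S) with hu
  set t : S := ((w⁻¹ : Sˣ) : S) with ht
  have hut : u * t = 1 := by rw [hu, ht]; exact w.mul_inv
  obtain ⟨d, hd⟩ : ∃ d, d = d₁ + d₂ := ⟨_, rfl⟩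
  obtain ⟨n, hn⟩ : ∃ n, n = n₁ + n₂ + 1 := ⟨_, rfl⟩
  have r₁ : x ^ n ∈ Submodule.span R (INT_G u x d n) := by
    have h3 := INT_up (d' := d) (k := n₂ + 1) hr₁ (by omega)
    have h4 : n₂ + 1 + n₁ = n := by omega
    rw [h4] at h3
    exact h3
  have r₂ : x ^ n ∈ Submodule.span R (INT_G t x d n) := by
    have h3 := INT_up (d' := d) (k := n₁ + 1) hr₂ (by omega)
    have h4 : n₁ + 1 + n₂ = n := by omega
    rw [h4] at h3
    exact h3
  have r₂' : u ^ d * x ^ n ∈ Submodule.span R (INT_G u x d n) := by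
    refine INT_map (u ^ d) ?_ r₂
    rintro s ⟨j, hj, i, hi, rfl⟩
    obtain ⟨e, rfl⟩ := Nat.exists_eq_add_of_le hj
    have h3 : u ^ (j + e) * (t ^ j * x ^ i) = u ^ e * x ^ i := by
      have h4 : u ^ j * t ^ j = 1 := by rw [← mul_pow, hut, one_pow]
      calc u ^ (j + e) * (t ^ j * x ^ i) = (u ^ j * t ^ j) * (u ^ e * x ^ i) := by ring
        _ = u ^ e * x ^ i := by rw [h4, one_mul]
    rw [h3]
    exact Submodule.subset_span (INT_mem (by omega) hi)
  refine INT_fin x _ (INT_fg (R := R) u x (2 * d) n) ?_ ?_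
  · refine Submodule.subset_span ⟨0, by omega, 0, by omega, ?_⟩
    simp
  · intro y hy
    refine INT_map x ?_ hy
    rintro s ⟨j, hj, i, hi, rfl⟩
    have h3 : x * (u ^ j * x ^ i) = u ^ j * x ^ (i + 1) := by ring
    rw [h3]
    rcases Nat.lt_or_ge (i + 1) n with h | h
    · exact Submodule.subset_span (INT_mem hj h)
    have h5 : i + 1 = n := by omega
    rw [h5]
    rcases Nat.lt_or_ge j d with h' | h'
    · refine INT_map (u ^ j) ?_ r₁
      rintro s ⟨a, ha, b, hb, rfl⟩
      have h6 : u ^ j * (u ^ a * x ^ b) = u ^ (j + a) * x ^ b := by ring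
      rw [h6]
      exact Submodule.subset_span (INT_mem (by omega) hb)
    · obtain ⟨e, rfl⟩ := Nat.exists_eq_add_of_le h'
      have h6 : u ^ (d + e) * x ^ n = u ^ e * (u ^ d * x ^ n) := by ring
      rw [h6]
      refine INT_map (u ^ e) ?_ r₂'
      rintro s ⟨a, ha, b, hb, rfl⟩
      have h7 : u ^ e * (u ^ a * x ^ b) = u ^ (e + a) * x ^ b := by ring
      rw [h7]
      exact Submodule.subset_span (INT_mem (by omega) hb)

end Pool.Agent.Helper44.SPL
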