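import Pool.Agent.Helper44.SPL.Defs

/-!
# Block J: the `p`-divisibility identity

`K` is an algebraically closed field of characteristic zero, `f ∈ K[T][Z]` monic irreducible of
degree `n` in `Z` (in Lean: `f : K[X][X]`, the inner variable is `T`, the outer one is `Z`).
`R = K⟦τ⟧`, and `R⟦X⟧` is `K⟦s, τ⟧` with outer variable `s = T - c`.
-/

set_option autoImplicit false

namespace Pool.Agent.Helper44.SPL

open Polynomial

universe u

section

variable {A : Type u} [CommRing A]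

/-- the norm of `G(θ)`, `θ` a root of the monic polynomial `f` of degree `n`: the resultant. -/
noncomputable def Nm (n : ℕ) (f G : A[X]) : A := resultant f G n n

/-- `Tr (H(θ) adj G(θ))`: the derivative of the norm at `G` in the direction `H`. -/
noncomputable def dNm (n : ℕ) (f G H : A[X]) : A :=
  (resultant (f.map C) (G.map C + C X * H.map C) n n : A[X]).coeff 1

/-- `T ↦ c + s`. -/
noncomputable def phiC (c : A) : A[X] →+* PowerSeries A :=
  Polynomial.eval₂RingHom PowerSeries.C (PowerSeries.C c + PowerSeries.X)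

/-- `lam c r G = G(c + s, r(s))`. -/
noncomputable def lam (c : A) (r : PowerSeries A) (G : A[X][X]) : PowerSeries A :=
  (G.map (phiC c)).eval r

/-- The base change of a polynomial in two variables. -/
noncomputable def bc {B : Type u} [CommRing B] (i : A →+* B) (F : A[X][X]) : B[X][X] :=
  F.map (mapRingHom i)

/-- derivative in the inner variable `T` -/
noncomputable def dT (G : A[X][X]) : A[X][X] := ∑ j ∈ Finset.range (G.natDegree + 1),
  monomial j (derivative (G.coeff j))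

/-- `δ D(G)`, where `D = d/dT` on `A[T][Z]/f`, `b f_Z = δ` modulo `f`:
`δ G_T - b f_T G_Z`. -/
noncomputable def Dd (f b : A[X][X]) (δ : A[X]) (G : A[X][X]) : A[X][X] :=
  C δ * dT G - b * dT f * derivative G

end

/-- NM: the algebra of `Nm` and `dNm`. -/
def StNM : Prop := ∀ (A : Type u) [CommRing A] (n : ℕ) (r : Fin n → A) (G H : A[X]),
  G.natDegree ≤ n → H.natDegree ≤ n →
  Nm n (∏ i, (X - C (r i))) G = ∏ i, G.eval (r i) ∧
  dNm n (∏ i, (X - C (r i))) G H = ∑ i, H.eval (r i) * ∏ j ∈ Finset.univ.erase i, G.eval (r j)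

/-- NMAP: base change and scaling for `Nm` and `dNm`. -/
def StNMAP : Prop := ∀ (A B : Type u) [CommRing A] [CommRing B] (i : A →+* B) (n : ℕ)
  (f G H : A[X]) (l : A), f.Monic → f.natDegree = n → G.natDegree ≤ n → H.natDegree ≤ n →
  i (Nm n f G) = Nm n (f.map i) (G.map i) ∧
  i (dNm n f G H) = dNm n (f.map i) (G.map i) (H.map i) ∧
  Nm n f (C l * G) = l ^ n * Nm n f G ∧ dNm n f (C l * G) (C l * H) = l ^ n * dNm n f G H

/-- NDEG: the weighted degree bound. -/
def StNDEG : Prop := ∀ (A : Type u) [CommRing A] (n e D : ℕ) (f G : A[X][X]), f.Monic →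
  f.natDegree = n → (∀ j ≤ n, (f.coeff j).natDegree ≤ e * (n - j)) → G.natDegree < n →
  e * n ≤ D → (∀ j < n, (G.coeff j).natDegree ≤ D - e * j) → (Nm n f G).natDegree ≤ n * D

/-- JL: local expansions at an unramified point `c`. -/
def StJL : Prop := ∀ (K : Type u) [Field K] [IsAlgClosed K] (n : ℕ) (f : K[X][X]), f.Monic →
  f.natDegree = n → ∀ c : K, (f.map (evalRingHom c)).Separable →
  ∃ r : Fin n → PowerSeries K, f.map (phiC c) = ∏ i, (X - C (r i)) ∧
    Function.Injective (fun i => PowerSeries.constantCoeff (r i))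

/-- JS: surjectivity of the jets. `N` points `c k` with local roots `r k i`. -/
def StJS : Prop := ∀ (K : Type u) [Field K] (n N : ℕ) (c : Fin N → K), Function.Injective c →
  ∀ (r : Fin N → Fin n → PowerSeries K),
  (∀ k, Function.Injective (fun i => PowerSeries.constantCoeff (r k i))) →
  (∃ f : K[X][X], f.Monic ∧ f.natDegree = n ∧ ∀ k, f.map (phiC (c k)) = ∏ i, (X - C (r k i))) →
  ∀ (e : Fin N → ℕ) (g : Fin N → Fin n → PowerSeries K),
  ∃ φ : K[X][X], (φ = 0 ∨ φ.natDegree < n) ∧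
    (∀ j, (φ.coeff j = 0 ∨ (φ.coeff j).natDegree < ∑ k, e k)) ∧
    ∀ k i, (PowerSeries.X : PowerSeries K) ^ e k ∣ lam (c k) (r k i) φ - g k i

/-- the polynomial `W = (T - c_0) ∏_{k ≥ 1} (T - c_k)^p`. -/
noncomputable def WW {K : Type u} [Field K] (p N : ℕ) (c : Fin (N + 1) → K) : K[X] :=
  (X - C (c 0)) * ∏ k : Fin N, (X - C (c k.succ)) ^ p

/-- J2: the recursion. `G ≡ W` modulo `τ`; `lam_{k,i} G` is divisible by `(s - a_{k,i})^p` for
`k ≥ 1`, by `s - τ` at `(0, i₀)` and by `s` at `(0, i)`, `i ≠ i₀`. -/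
def StJ2 : Prop := ∀ (K : Type u) [Field K] [CharZero K] (p : ℕ), p.Prime → ∀ (n N e : ℕ)
  (f : K[X][X]), f.Monic → f.natDegree = n → e * n ≤ N → ∀ c : Fin (N + 1) → K,
  Function.Injective c → ∀ r : Fin (N + 1) → Fin n → PowerSeries K,
  (∀ k, f.map (phiC (c k)) = ∏ i, (X - C (r k i))) →
  (∀ k, Function.Injective (fun i => PowerSeries.constantCoeff (r k i))) → ∀ i₀ : Fin n,
  ∃ (G : (PowerSeries K)[X][X]) (a : Fin N → Fin n → PowerSeries K),
    G.natDegree < n ∧ (∀ j < n, (G.coeff j).natDegree ≤ p * N + 1 - e * j) ∧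
    bc PowerSeries.constantCoeff G = C (WW p N c) ∧
    (∀ k i, PowerSeries.constantCoeff (a k i) = 0) ∧
    (∀ k i, (PowerSeries.X - PowerSeries.C (a k i)) ^ p ∣
      lam (PowerSeries.C (c k.succ)) (PowerSeries.map PowerSeries.C (r k.succ i)) G) ∧
    (PowerSeries.X - PowerSeries.C (PowerSeries.X : PowerSeries K)) ∣
      lam (PowerSeries.C (c 0)) (PowerSeries.map PowerSeries.C (r 0 i₀)) G ∧
    ∀ i, i ≠ i₀ → (PowerSeries.X : PowerSeries (PowerSeries K)) ∣
      lam (PowerSeries.C (c 0)) (PowerSeries.map PowerSeries.C (r 0 i)) G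

/-- DIV: a polynomial `E` over `K⟦τ⟧` that is locally divisible at all `c k` by the product of the
linear factors `s - a i`, `κ i = k` (`a i ∈ τ K⟦τ⟧`), is divisible by `∏ (T - c_{κ i} - a i)`. Proof:
remainder `ρ` of degree `< |ι|`; if nonzero write `ρ = τ^j ρ'`, `ρ' ≢ 0` modulo `τ`; `τ` is a
nonzerodivisor modulo the local products; modulo `τ`: `∏ (T - c_k)^{d_k}` divides `ρ'`. -/
def StDIV : Prop := ∀ (K : Type u) [Field K] (N : ℕ) (c : Fin N → K), Function.Injective c →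
  ∀ (ι : Type) [Fintype ι] (κ : ι → Fin N) (a : ι → PowerSeries K),
  (∀ i, PowerSeries.constantCoeff (a i) = 0) → ∀ E : (PowerSeries K)[X],
  (∀ k, (∏ i ∈ Finset.univ.filter (fun i => κ i = k),
    (PowerSeries.X - PowerSeries.C (a i)) : PowerSeries (PowerSeries K)) ∣
    phiC (PowerSeries.C (c k)) E) →
  (∏ i, (X - C (PowerSeries.C (c (κ i)) + a i)) : (PowerSeries K)[X]) ∣ E

/-- The index set of the zeros: `nq` points with multiplicity `p`, the moving point, and
`m` constant points. -/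
abbrev ZI (p nq m : ℕ) := (Fin nq × Fin p) ⊕ (Unit ⊕ Fin m)

/-- The list of zeros with values in `B`. -/
def zz {B : Type u} {p : ℕ} {I J : Type} (tq θq : I → B) (tx θx : B) (cs ζs : J → B) :
    (I × Fin p) ⊕ (Unit ⊕ J) → B × B :=
  Sum.elim (fun i => (tq i.1, θq i.1)) (Sum.elim (fun _ => (tx, θx)) (fun i => (cs i, ζs i)))

/-- The two identities of the norm and of the trace, over a `K`-algebra `B` (via `ι`):
`N(G) = c ∏ (T - t_i)` and
`Tr (y D(G) adj G) = c ∑_i y(t_i,θ_i) ∏_{j ≠ i} (T - t_j) + N(G) Λ`, `y = δ Y`. -/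
def Ident {K B : Type u} [Field K] [CommRing B] (ι : K →+* B) (n : ℕ)
    (f b Y : K[X][X]) (δ : K[X]) (G : B[X][X]) (cc : B) {I : Type} [Fintype I] [DecidableEq I]
    (z : I → B × B) (Λ : B[X]) : Prop :=
  Nm n (bc ι f) G = C cc * ∏ i, (X - C (z i).1) ∧
  dNm n (bc ι f) G ((bc ι Y * Dd (bc ι f) (bc ι b) (δ.map ι) G) %ₘ bc ι f) =
    C cc * ∑ i, C (ev2 ι (C δ * Y) (z i).1 (z i).2) *
      ∏ j ∈ Finset.univ.erase i, (X - C (z j).1) + Nm n (bc ι f) G * Λ

/-- J3: the norm formula for the `G` of J2. -/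
def StJ3 : Prop := ∀ (K : Type u) [Field K] [CharZero K] (p : ℕ), p.Prime → ∀ (n N e : ℕ)
  (f : K[X][X]), f.Monic → f.natDegree = n → e * n ≤ N →
  (∀ j ≤ n, (f.coeff j).natDegree ≤ e * (n - j)) → ∀ c : Fin (N + 1) → K,
  Function.Injective c → ∀ r : Fin (N + 1) → Fin n → PowerSeries K,
  (∀ k, f.map (phiC (c k)) = ∏ i, (X - C (r k i))) →
  (∀ k, Function.Injective (fun i => PowerSeries.constantCoeff (r k i))) → ∀ i₀ : Fin n,
  ∀ (G : (PowerSeries K)[X][X]) (a : Fin N → Fin n → PowerSeries K),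
    G.natDegree < n → (∀ j < n, (G.coeff j).natDegree ≤ p * N + 1 - e * j) →
    bc PowerSeries.constantCoeff G = C (WW p N c) →
    (∀ k i, PowerSeries.constantCoeff (a k i) = 0) →
    (∀ k i, (PowerSeries.X - PowerSeries.C (a k i)) ^ p ∣
      lam (PowerSeries.C (c k.succ)) (PowerSeries.map PowerSeries.C (r k.succ i)) G) →
    (PowerSeries.X - PowerSeries.C (PowerSeries.X : PowerSeries K)) ∣
      lam (PowerSeries.C (c 0)) (PowerSeries.map PowerSeries.C (r 0 i₀)) G →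
    (∀ i, i ≠ i₀ → (PowerSeries.X : PowerSeries (PowerSeries K)) ∣
      lam (PowerSeries.C (c 0)) (PowerSeries.map PowerSeries.C (r 0 i)) G) →
    ∃ cc : PowerSeries K, IsUnit cc ∧ Nm n (bc PowerSeries.C f) G =
      C cc * ((∏ k, ∏ i, (X - C (PowerSeries.C (c k.succ) + a k i)) ^ p) *
        (X - C (PowerSeries.C (c 0) + PowerSeries.X)) * (X - C (PowerSeries.C (c 0))) ^ (n - 1))

/-- J4: the trace formula for the `G` of J2, J3. The `θ`-coordinates of the zeros are the Hensel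
roots: `θ k i ≡ r k.succ i (0)`, `f (t k i, θ k i) = 0`. -/
def StJ4 : Prop := ∀ (K : Type u) [Field K] [CharZero K] (p : ℕ), p.Prime → ∀ (n N e : ℕ)
  (f b Y : K[X][X]) (δ : K[X]), f.Monic → f.natDegree = n → f ∣ b * derivative f - C δ →
  e * n ≤ N → ∀ c : Fin (N + 1) → K,
  Function.Injective c → ∀ r : Fin (N + 1) → Fin n → PowerSeries K,
  (∀ k, f.map (phiC (c k)) = ∏ i, (X - C (r k i))) →
  (∀ k, Function.Injective (fun i => PowerSeries.constantCoeff (r k i))) → ∀ i₀ : Fin n,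
  ∀ (G : (PowerSeries K)[X][X]) (a : Fin N → Fin n → PowerSeries K),
    G.natDegree < n →
    bc PowerSeries.constantCoeff G = C (WW p N c) →
    (∀ k i, PowerSeries.constantCoeff (a k i) = 0) →
    (∀ k i, (PowerSeries.X - PowerSeries.C (a k i)) ^ p ∣
      lam (PowerSeries.C (c k.succ)) (PowerSeries.map PowerSeries.C (r k.succ i)) G) →
    (PowerSeries.X - PowerSeries.C (PowerSeries.X : PowerSeries K)) ∣
      lam (PowerSeries.C (c 0)) (PowerSeries.map PowerSeries.C (r 0 i₀)) G →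
    (∀ i, i ≠ i₀ → (PowerSeries.X : PowerSeries (PowerSeries K)) ∣
      lam (PowerSeries.C (c 0)) (PowerSeries.map PowerSeries.C (r 0 i)) G) →
    ∀ cc : PowerSeries K, IsUnit cc → Nm n (bc PowerSeries.C f) G =
      C cc * ((∏ k, ∏ i, (X - C (PowerSeries.C (c k.succ) + a k i)) ^ p) *
        (X - C (PowerSeries.C (c 0) + PowerSeries.X)) * (X - C (PowerSeries.C (c 0))) ^ (n - 1)) →
    ∀ (θ : Fin N → Fin n → PowerSeries K) (θx : PowerSeries K),
    (∀ k i, ev2 PowerSeries.C f (PowerSeries.C (c k.succ) + a k i) (θ k i) = 0 ∧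
      PowerSeries.constantCoeff (θ k i) = PowerSeries.constantCoeff (r k.succ i)) →
    ev2 PowerSeries.C f (PowerSeries.C (c 0) + PowerSeries.X) θx = 0 →
    PowerSeries.constantCoeff θx = PowerSeries.constantCoeff (r 0 i₀) →
    ∃ Λ : (PowerSeries K)[X], Ident PowerSeries.C n f b Y δ G cc
      (zz (p := p) (I := Fin N × Fin n) (J := {i : Fin n // i ≠ i₀})
        (fun q => PowerSeries.C (c q.1.succ) + a q.1 q.2) (fun q => θ q.1 q.2)
        (PowerSeries.C (c 0) + PowerSeries.X) θx (fun _ => PowerSeries.C (c 0))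
        (fun i => PowerSeries.C (PowerSeries.constantCoeff (r 0 i)))) Λ

/-- JR: the identities over `K⟦τ⟧`. `b f_Z = δ` modulo `f`; `δ ≠ 0`. -/
def StJR : Prop := ∀ (K : Type u) [Field K] [IsAlgClosed K] [CharZero K] (p : ℕ)
  [Fact p.Prime] (n : ℕ) (f b Y : K[X][X]) (δ : K[X]), f.Monic → f.natDegree = n → 0 < n →
  δ ≠ 0 → f ∣ b * derivative f - C δ →
  ∃ (nq m : ℕ) (tq θq : Fin nq → PowerSeries K) (c₀ : K) (θx : PowerSeries K)
    (cs ζs : Fin m → K) (G : (PowerSeries K)[X][X]) (cc : PowerSeries K)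
    (Λ : (PowerSeries K)[X]),
    c₀ ≠ 0 ∧ G.natDegree < n ∧ IsUnit cc ∧
    ev2 PowerSeries.C f (PowerSeries.C c₀ + PowerSeries.X) θx = 0 ∧
    (∀ q, ev2 PowerSeries.C f (tq q) (θq q) = 0 ∧ PowerSeries.constantCoeff (tq q) ≠ 0) ∧
    Ident PowerSeries.C n f b Y δ G cc
      (zz (p := p) (I := Fin nq) (J := Fin m) tq θq (PowerSeries.C c₀ + PowerSeries.X) θx
        (fun i => PowerSeries.C (cs i)) (fun i => PowerSeries.C (ζs i))) Λ

/-- JT: transfer to `Ω`: the `L`-algebra, `L = K(t, θ)`, generated in `K((τ))` by the finitely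
many coefficients has an `L`-homomorphism to `Ω`. -/
def StJT : Prop := ∀ (Ω : Type u) [Field Ω] [IsAlgClosed Ω] [CharZero Ω] (K : Subfield Ω)
  [IsAlgClosed K] (p : ℕ) [Fact p.Prime] (n : ℕ) (f b Y : K[X][X]) (δ : K[X]), f.Monic →
  f.natDegree = n → 0 < n → Irreducible f → δ ≠ 0 → f ∣ b * derivative f - C δ →
  ∀ t θ : Ω, Transcendental K t → ev2 K.subtype f t θ = 0 →
  ∃ (nq m : ℕ) (tq θq : Fin nq → Ω) (cs ζs : Fin m → K) (G : Polynomial (Polynomial Ω)) (cc : Ω) (Λ : Polynomial Ω),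
    G.natDegree < n ∧ cc ≠ 0 ∧ (∀ q, ev2 K.subtype f (tq q) (θq q) = 0 ∧ tq q ≠ 0) ∧
    Ident K.subtype n f b Y δ G cc
      (zz (p := p) (I := Fin nq) (J := Fin m) tq θq t θ (fun i => (cs i : Ω)) (fun i => (ζs i : Ω))) Λ

/-- JP: the local analysis at a valuation subring `P ⊇ K`. -/
def StJP : Prop := ∀ (Ω : Type u) [Field Ω] [IsAlgClosed Ω] [CharZero Ω] (K : Subfield Ω)
  [IsAlgClosed K] (t : Ω), Transcendental K t →
  (∀ x : Ω, ∃ F : K[X][X], F ≠ 0 ∧ ev2 K.subtype F t x = 0) →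
  ∀ (n : ℕ) (f b Y : K[X][X]) (δ : K[X]), f.Monic → f.natDegree = n → 0 < n →
  Irreducible f → ∀ (G : Polynomial (Polynomial Ω)) (cc : Ω) (I : Type) [Fintype I]
  [DecidableEq I] (z : I → Ω × Ω) (Λ : Polynomial Ω),
  G.natDegree < n → cc ≠ 0 →
  Ident K.subtype n f b Y δ G cc z Λ →
  ∀ P : ValuationSubring Ω, (K : Set Ω) ⊆ P → ∀ k : ℕ,
  Λ.coeff k - (open Classical in ∑ i, if (z i).1 ∈ P then 0 else
    ev2 K.subtype (C δ * Y) (z i).1 (z i).2 / (z i).1 ^ (k + 1)) ∈ P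

end Pool.Agent.Helper44.SPL
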