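import Pool.Agent.Helper44.SPL.St
import Pool.Agent.Helper44.SPL.St3

/-!
# Block J: assembly of the `p`-divisibility identity
-/

set_option autoImplicit false

namespace Pool.Agent.Helper44.SPL

open Polynomial

universe u

section

/-- evaluation `T ↦ a`, `Z ↦ b` as a ring homomorphism. -/
noncomputable def J_e {R S : Type u} [CommRing R] [CommRing S] (i : R →+* S) (a b : S) :
    R[X][X] →+* S :=
  (evalRingHom b).comp (mapRingHom (Polynomial.eval₂RingHom i a))

theorem J_e_eq {R S : Type u} [CommRing R] [CommRing S] (i : R →+* S) (F : R[X][X]) (a b : S) :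
    ev2 i F a b = J_e i a b F := rfl

theorem J_e_C {R S : Type u} [CommRing R] [CommRing S] (i : R →+* S) (g : R[X]) (a b : S) :
    J_e i a b (C g) = eval₂ i a g := by
  simp [J_e]

theorem J_e_X {R S : Type u} [CommRing R] [CommRing S] (i : R →+* S) (a b : S) :
    J_e i a b X = b := by
  simp [J_e]

theorem J_e_eval {R S : Type u} [CommRing R] [CommRing S] (i : R →+* S) (F : R[X][X]) (a b : S) :
    J_e i a b F = eval₂ (Polynomial.eval₂RingHom i a) b F := by
  simp [J_e, eval_map]

theorem J_integral {R : Type u} [CommRing R] {S : Type u} [Field S] (φ : R →+* S) (x : R)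
    (hx : φ x ≠ 0) (y : S)
    (hy : IsIntegral (Subring.closure (Set.range φ ∪ {(φ x)⁻¹})) y) :
    ∃ m : ℕ, φ.IsIntegralElem ((φ x) ^ m * y) := by
  letI : Algebra R S := φ.toAlgebra
  have hu : IsUnit (φ x) := isUnit_iff_ne_zero.mpr hx
  letI : Algebra (Localization.Away x) S := (IsLocalization.Away.lift x hu).toAlgebra
  have hal : ∀ r : R, algebraMap (Localization.Away x) S (algebraMap R (Localization.Away x) r) = φ r := by
    intro r
    exact IsLocalization.Away.lift_eq x hu r
  haveI : IsScalarTower R (Localization.Away x) S := IsScalarTower.of_algebraMap_eq (fun r => (hal r).symm)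
  have hle : Subring.closure (Set.range φ ∪ {(φ x)⁻¹}) ≤ (integralClosure (Localization.Away x) S).toSubring := by
    rw [Subring.closure_le]
    rintro z (⟨r, rfl⟩ | hz)
    · rw [← hal r]
      exact (integralClosure (Localization.Away x) S).algebraMap_mem _
    · rw [Set.mem_singleton_iff] at hz
      have h1 : algebraMap (Localization.Away x) S (IsLocalization.Away.invSelf x) = (φ x)⁻¹ := by
        have h2 := IsLocalization.Away.mul_invSelf (S := Localization.Away x) x
        have h3 := congrArg (algebraMap (Localization.Away x) S) h2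
        rw [map_mul, hal, map_one] at h3
        exact eq_inv_of_mul_eq_one_right h3
      rw [hz, ← h1]
      exact (integralClosure (Localization.Away x) S).algebraMap_mem _
  have hy2 : IsIntegral (integralClosure (Localization.Away x) S) y := by
    obtain ⟨p, hp, hp0⟩ := hy
    refine ⟨p.map (Subring.inclusion hle), hp.map _, ?_⟩
    rw [Polynomial.eval₂_map]
    exact hp0
  have hy3 : IsIntegral (Localization.Away x) y := isIntegral_trans (R := Localization.Away x) y hy2
  obtain ⟨⟨_, m, rfl⟩, hm⟩ := hy3.exists_multiple_integral_of_isLocalization (Submonoid.powers x) y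
  refine ⟨m, ?_⟩
  have : ((⟨x ^ m, m, rfl⟩ : Submonoid.powers x) • y) = (φ x) ^ m * y := by
    rw [Submonoid.smul_def, Algebra.smul_def]
    change φ (x ^ m) * y = _
    rw [map_pow]
  rw [← this]
  exact hm

theorem J_minpoly {Ω : Type u} [Field Ω] (K : Subfield Ω) (t θ : Ω) (ht : Transcendental K t)
    (hθ : (Polynomial.eval₂RingHom K.subtype t).IsIntegralElem θ) :
    ∃ f : K[X][X], f.Monic ∧ Irreducible f ∧ ev2 K.subtype f t θ = 0 ∧
      ∀ F : K[X][X], ev2 K.subtype F t θ = 0 → f ∣ F := by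
  have hinj : Function.Injective (Polynomial.eval₂RingHom K.subtype t) := by
    rw [injective_iff_map_eq_zero]
    intro a ha
    by_contra hne
    exact ht ⟨a, hne, ha⟩
  letI : Algebra K[X] Ω := (Polynomial.eval₂RingHom K.subtype t).toAlgebra
  haveI : IsDomain Ω := inferInstance
  haveI : FaithfulSMul K[X] Ω := (faithfulSMul_iff_algebraMap_injective K[X] Ω).mpr hinj
  haveI : Module.IsTorsionFree K[X] Ω := inferInstance
  have hi : IsIntegral K[X] θ := hθ
  have hev : ∀ F : K[X][X], ev2 K.subtype F t θ = aeval θ F := by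
    intro F
    unfold ev2
    rw [eval_map]
    rfl
  refine ⟨minpoly K[X] θ, minpoly.monic hi, minpoly.irreducible hi, ?_, ?_⟩
  · rw [hev]
    exact minpoly.aeval _ _
  · intro F hF
    rw [hev] at hF
    exact minpoly.isIntegrallyClosed_dvd hi hF

theorem J_bezout {K : Type u} [Field K] [CharZero K] (f : K[X][X]) (hf : f.Monic)
    (hirr : Irreducible f) : ∃ (b : K[X][X]) (δ : K[X]), δ ≠ 0 ∧ f ∣ b * derivative f - C δ := by
  have hm : Irreducible (f.map (algebraMap K[X] (FractionRing K[X]))) :=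
    (hf.irreducible_iff_irreducible_map_fraction_map).mp hirr
  haveI : CharZero (FractionRing K[X]) := inferInstance
  have hs : (f.map (algebraMap K[X] (FractionRing K[X]))).Separable := hm.separable
  obtain ⟨a', b', hab⟩ := hs
  obtain ⟨d1, h1⟩ := IsLocalization.integerNormalization_map_to_map (nonZeroDivisors K[X]) a'
  obtain ⟨d2, h2⟩ := IsLocalization.integerNormalization_map_to_map (nonZeroDivisors K[X]) b'
  set a1 := IsLocalization.integerNormalization (nonZeroDivisors K[X]) a'
  set b1 := IsLocalization.integerNormalization (nonZeroDivisors K[X]) b'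
  have hd1 : (d1 : K[X]) ≠ 0 := nonZeroDivisors.ne_zero d1.2
  have hd2 : (d2 : K[X]) ≠ 0 := nonZeroDivisors.ne_zero d2.2
  refine ⟨C (d1 : K[X]) * b1, (d1 : K[X]) * d2, mul_ne_zero hd1 hd2, ?_⟩
  refine ⟨-(C (d2 : K[X]) * a1), ?_⟩
  apply Polynomial.map_injective (algebraMap K[X] (FractionRing K[X]))
    (IsFractionRing.injective K[X] (FractionRing K[X]))
  have e1 : (b1.map (algebraMap K[X] (FractionRing K[X])))
      = C (algebraMap K[X] (FractionRing K[X]) d2) * b' := by
    rw [h2, ← algebraMap_smul (FractionRing K[X]) (d2 : K[X]) b', smul_eq_C_mul]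
  have e2 : (a1.map (algebraMap K[X] (FractionRing K[X])))
      = C (algebraMap K[X] (FractionRing K[X]) d1) * a' := by
    rw [h1, ← algebraMap_smul (FractionRing K[X]) (d1 : K[X]) a', smul_eq_C_mul]
  rw [Polynomial.map_sub, Polynomial.map_mul, Polynomial.map_mul, Polynomial.map_mul,
    Polynomial.map_neg, Polynomial.map_mul, e1, e2, ← Polynomial.derivative_map, Polynomial.map_C,
    Polynomial.map_C, Polynomial.map_C, map_mul, C_mul]
  linear_combination (C (algebraMap K[X] (FractionRing K[X]) d1)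
    * C (algebraMap K[X] (FractionRing K[X]) d2)) * hab

theorem J_split {K : Type u} [Field K] (δ : K[X]) (hδ : δ ≠ 0) (m : ℕ) :
    ∃ (a : ℕ) (δ1 A B : K[X]), δ = X ^ a * δ1 ∧ A * X ^ m + B * δ1 = 1 := by
  have hf : FiniteMultiplicity (X : K[X]) δ := by
    have := finiteMultiplicity_X_sub_C (0 : K) hδ
    simpa using this
  obtain ⟨δ1, h1, h2⟩ := hf.exists_eq_pow_mul_and_not_dvd
  have hc : IsCoprime ((X : K[X]) ^ m) δ1 :=
    ((Polynomial.irreducible_X.coprime_iff_not_dvd).mpr h2).pow_left
  obtain ⟨A, B, hAB⟩ := hc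
  exact ⟨_, δ1, A, B, h1, hAB⟩

theorem J_sub {Ω : Type u} [Field Ω] (K : Subfield Ω) (f : K[X][X]) (t θ : Ω)
    (hmin : ∀ F : K[X][X], ev2 K.subtype F t θ = 0 → f ∣ F) (ht : t ≠ 0) (m : ℕ)
    (x z : Ω) (hx : x ≠ 0) (hf : ev2 K.subtype f x z = 0) (F : K[X][X])
    (hF : ev2 K.subtype F t (θ / t ^ m) = 0) : ev2 K.subtype F x (z / x ^ m) = 0 := by
  have key : ∀ x z : Ω, x ≠ 0 → ev2 K.subtype (scaleRoots F ((X : K[X]) ^ m)) x z
      = (x ^ m) ^ F.natDegree * ev2 K.subtype F x (z / x ^ m) := by
    intro x z hx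
    rw [J_e_eq, J_e_eq, J_e_eval, J_e_eval]
    have h := scaleRoots_eval₂_mul (p := F) (Polynomial.eval₂RingHom K.subtype x) (z / x ^ m) ((X : K[X]) ^ m)
    have e : (Polynomial.eval₂RingHom K.subtype x) ((X : K[X]) ^ m) = x ^ m := by
      rw [map_pow]
      simp
    rw [e, mul_div_cancel₀ _ (pow_ne_zero m hx)] at h
    exact h
  obtain ⟨g, hg⟩ := hmin (scaleRoots F ((X : K[X]) ^ m)) (by rw [key t θ ht, hF, mul_zero])
  have h2 := key x z hx
  rw [hg, J_e_eq, map_mul, ← J_e_eq, hf, zero_mul] at h2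
  have := mul_eq_zero.mp h2.symm
  rcases this with h | h
  · exact absurd h (pow_ne_zero _ (pow_ne_zero _ hx))
  · exact h

theorem J_P {Ω : Type u} [Field Ω] (K : Subfield Ω) (P : ValuationSubring Ω) (hK : (K : Set Ω) ⊆ P)
    (x z : Ω) (hx : x ∈ P) (f : K[X][X]) (hf : f.Monic) (hz : ev2 K.subtype f x z = 0) (g : K[X]) :
    eval₂ K.subtype x g * z ∈ P := by
  have hg : ∀ g : K[X], eval₂ K.subtype x g ∈ P := by
    intro g
    rw [eval₂_eq_sum_range]
    refine sum_mem ?_
    intro i _
    exact mul_mem (hK (g.coeff i).2) (pow_mem hx i)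
  have hzP : z ∈ P := by
    let ψ : K[X] →+* P := (Polynomial.eval₂RingHom K.subtype x).codRestrict P (fun g => hg g)
    have hint : IsIntegral P z := by
      refine ⟨f.map ψ, hf.map _, ?_⟩
      rw [eval₂_map]
      have : (algebraMap P Ω).comp ψ = Polynomial.eval₂RingHom K.subtype x := by
        ext <;> rfl
      rw [this, ← J_e_eval]
      exact hz
    obtain ⟨y, hy⟩ := IsIntegrallyClosed.isIntegral_iff.mp hint
    rw [← hy]
    exact y.2
  exact mul_mem (hg g) hzP

theorem m_J (h1 : StJT.{u}) (h2 : StJP.{u}) : StJ.{u} := by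
  classical
  intro Ω _ _ _ K _ t y p _ htr halg hy
  have ht0 : t ≠ 0 := by
    intro h
    apply htr
    rw [h]
    exact isAlgebraic_zero
  -- integrality
  have hphiX : (Polynomial.eval₂RingHom K.subtype t) X = t := by simp
  have hint : ∃ m : ℕ, (Polynomial.eval₂RingHom K.subtype t).IsIntegralElem (t ^ m * y) := by
    have h := J_integral (Polynomial.eval₂RingHom K.subtype t) X (by rw [hphiX]; exact ht0) y ?_
    · rw [hphiX] at h
      exact h
    · rw [hphiX]
      have hy' : IsIntegral (Subring.closure ((K : Set Ω) ∪ {t, t⁻¹})) y := hy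
      have hle : Subring.closure ((K : Set Ω) ∪ {t, t⁻¹}) ≤ Subring.closure
          (Set.range (Polynomial.eval₂RingHom K.subtype t) ∪ {t⁻¹}) := by
        rw [Subring.closure_le]
        rintro z (hz | hz)
        · apply Subring.subset_closure
          left
          exact ⟨C ⟨z, hz⟩, by simp⟩
        · rcases hz with rfl | hz
          · apply Subring.subset_closure
            left
            exact ⟨X, by simp⟩
          · apply Subring.subset_closure
            right
            exact hz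
      obtain ⟨q, hq, hq0⟩ := hy'
      refine ⟨q.map (Subring.inclusion hle), hq.map _, ?_⟩
      rw [Polynomial.eval₂_map]
      exact hq0
  obtain ⟨m0, hm0⟩ := hint
  obtain ⟨m, hm1, θ, hθy, hθ⟩ : ∃ m : ℕ, 1 ≤ m ∧ ∃ θ : Ω, θ = t ^ m * y ∧
      (Polynomial.eval₂RingHom K.subtype t).IsIntegralElem θ := by
    refine ⟨m0 + 1, Nat.succ_pos _, _, rfl, ?_⟩
    have : t ^ (m0 + 1) * y = (Polynomial.eval₂RingHom K.subtype t) X * (t ^ m0 * y) := by
      rw [hphiX, pow_succ]
      ring
    rw [this]
    exact RingHom.IsIntegralElem.mul _ (RingHom.isIntegralElem_map _) hm0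
  have hyθ : y = θ / t ^ m := by
    rw [hθy, mul_div_cancel_left₀ _ (pow_ne_zero m ht0)]
  obtain ⟨f, hfm, hfi, hf0, hfd⟩ := J_minpoly K t θ htr hθ
  have hn : 0 < f.natDegree := by
    rw [Nat.pos_iff_ne_zero]
    intro h
    rw [hfm.natDegree_eq_zero] at h
    rw [h] at hfi
    exact not_irreducible_one hfi
  obtain ⟨b, δ, hδ, hb⟩ := J_bezout f hfm hfi
  obtain ⟨a, δ1, A, B, hδ1, hAB⟩ := J_split δ hδ m
  obtain ⟨nq, m', tq, θq, cs, ζs, G, cc, Λ, hG, hcc, hq, hid⟩ :=
    h1 Ω K p f.natDegree f b (C B * X) δ hfm rfl hn hfi hδ hb t θ htr hf0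
  -- the value of the trace function
  have hval : ∀ x z : Ω, ev2 K.subtype (C δ * (C B * X)) x z
      = eval₂ K.subtype x δ * (eval₂ K.subtype x B * z) := by
    intro x z
    rw [J_e_eq, map_mul, map_mul, J_e_C, J_e_C, J_e_X]
  have hsplit : ∀ x z : Ω, x ≠ 0 → z / x ^ m = eval₂ K.subtype x A * z
      + ev2 K.subtype (C δ * (C B * X)) x z / x ^ (m + a - 1 + 1) := by
    intro x z hx
    rw [hval]
    have e1 : m + a - 1 + 1 = m + a := by omega
    have e2 : eval₂ K.subtype x δ = x ^ a * eval₂ K.subtype x δ1 := by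
      rw [hδ1, eval₂_mul, eval₂_pow, eval₂_X]
    have e3 : eval₂ K.subtype x A * x ^ m + eval₂ K.subtype x B * eval₂ K.subtype x δ1 = 1 := by
      have := congrArg (eval₂ K.subtype x) hAB
      rw [eval₂_add, eval₂_mul, eval₂_mul, eval₂_pow, eval₂_X, eval₂_one] at this
      exact this
    rw [e1, e2, pow_add]
    have hxm : x ^ m ≠ 0 := pow_ne_zero m hx
    have hxa : x ^ a ≠ 0 := pow_ne_zero a hx
    field_simp
    linear_combination (-z) * e3
  refine ⟨nq, tq, fun q => θq q / tq q ^ m, Λ.coeff (m + a - 1) + eval₂ K.subtype t A * θ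
    + (p : Ω) * ∑ q, eval₂ K.subtype (tq q) A * θq q, fun q => (hq q).2, ?_, ?_⟩
  · intro q F hF
    rw [hyθ] at hF
    exact J_sub K f t θ hfd ht0 m (tq q) (θq q) (hq q).2 (hq q).1 F hF
  · intro P hKP
    have hP := h2 Ω K t htr halg f.natDegree f b (C B * X) δ hfm rfl hn hfi G cc _ _ Λ hG hcc hid P hKP
      (m + a - 1)
    rw [Fintype.sum_sum_type, Fintype.sum_prod_type, Fintype.sum_sum_type] at hP
    simp only [zz, Sum.elim_inl, Sum.elim_inr, Finset.sum_const, Finset.card_univ, Fintype.card_fin,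
      Finset.univ_unique, Finset.card_singleton, Nat.cast_one, one_mul, nsmul_eq_mul] at hP
    have hcs : ∀ i : Fin m', (cs i : Ω) ∈ P := fun i => hKP (cs i).2
    simp only [hcs, if_true, Finset.sum_const_zero, add_zero] at hP
    rw [← Finset.mul_sum] at hP
    -- local corrections
    have hloc : ∀ x z : Ω, ev2 K.subtype f x z = 0 → x ≠ 0 →
        (if x ∈ P then 0 else z / x ^ m) - eval₂ K.subtype x A * z
          - (if x ∈ P then 0 else ev2 K.subtype (C δ * (C B * X)) x z / x ^ (m + a - 1 + 1)) ∈ P := by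
      intro x z hfx hx
      by_cases hxP : x ∈ P
      · simp only [hxP, if_true, sub_zero, zero_sub]
        exact neg_mem (J_P K P hKP x z hxP f hfm hfx A)
      · simp only [hxP, if_false]
        rw [hsplit x z hx]
        have : eval₂ K.subtype x A * z + ev2 K.subtype (C δ * (C B * X)) x z / x ^ (m + a - 1 + 1)
          - eval₂ K.subtype x A * z - ev2 K.subtype (C δ * (C B * X)) x z / x ^ (m + a - 1 + 1) = 0 := by
          ring
        rw [this]
        exact zero_mem P
    have hL0 := hloc t θ hf0 ht0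
    have hLq : ∑ q, ((if tq q ∈ P then 0 else θq q / tq q ^ m) - eval₂ K.subtype (tq q) A * θq q
          - (if tq q ∈ P then 0 else
            ev2 K.subtype (C δ * (C B * X)) (tq q) (θq q) / (tq q) ^ (m + a - 1 + 1))) ∈ P :=
      sum_mem (fun q _ => hloc _ _ (hq q).1 (hq q).2)
    have hpP : (p : Ω) ∈ P := natCast_mem P p
    have hfin := sub_mem (add_mem hL0 (mul_mem hpP hLq)) hP
    rw [Finset.sum_sub_distrib, Finset.sum_sub_distrib] at hfin
    rw [hyθ]
    have e : (if t ∈ P then 0 else θ / t ^ m) + (p : Ω) * ∑ q, (if tq q ∈ P then 0 else θq q / tq q ^ m)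
        - (Λ.coeff (m + a - 1) + eval₂ K.subtype t A * θ
          + (p : Ω) * ∑ q, eval₂ K.subtype (tq q) A * θq q)
      = (if t ∈ P then 0 else θ / t ^ m) - eval₂ K.subtype t A * θ
          - (if t ∈ P then 0 else ev2 K.subtype (C δ * (C B * X)) t θ / t ^ (m + a - 1 + 1))
        + (p : Ω) * (∑ q, (if tq q ∈ P then 0 else θq q / tq q ^ m)
          - ∑ q, eval₂ K.subtype (tq q) A * θq q
          - ∑ q, (if tq q ∈ P then 0 else
            ev2 K.subtype (C δ * (C B * X)) (tq q) (θq q) / (tq q) ^ (m + a - 1 + 1)))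
        - (Λ.coeff (m + a - 1) - ((p : Ω) * ∑ q, (if tq q ∈ P then 0 else
            ev2 K.subtype (C δ * (C B * X)) (tq q) (θq q) / (tq q) ^ (m + a - 1 + 1))
          + (if t ∈ P then 0 else ev2 K.subtype (C δ * (C B * X)) t θ / t ^ (m + a - 1 + 1)))) := by
      ring
    rw [e]
    exact hfin

end

end Pool.Agent.Helper44.SPL
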