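import Pool.Agent.Helper44.SPL.St3

/-!
# SPL, module J2: the recursion in `τ`
-/

set_option autoImplicit false

namespace Pool.Agent.Helper44.SPL

open Polynomial

universe u

namespace J2aux

section gen

variable {A : Type u} [CommRing A]

lemma phiC_C (c x : A) : phiC c (C x) = PowerSeries.C x := by simp [phiC]

lemma phiC_X (c : A) : phiC c X = PowerSeries.C c + PowerSeries.X := by simp [phiC]

lemma lam_C (c : A) (r : PowerSeries A) (W : A[X]) : lam c r (C W) = phiC c W := by simp [lam]

lemma lam_add (c : A) (r : PowerSeries A) (F G : A[X][X]) :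
    lam c r (F + G) = lam c r F + lam c r G := by simp [lam]

lemma lam_sub (c : A) (r : PowerSeries A) (F G : A[X][X]) :
    lam c r (F - G) = lam c r F - lam c r G := by simp [lam]

lemma lam_mul (c : A) (r : PowerSeries A) (F G : A[X][X]) :
    lam c r (F * G) = lam c r F * lam c r G := by simp [lam]

lemma lam_bc {B : Type u} [CommRing B] (i : A →+* B) (c : A) (r : PowerSeries A) (F : A[X][X]) :
    lam (i c) (PowerSeries.map i r) (bc i F) = PowerSeries.map i (lam c r F) := by
  have h : (phiC (i c)).comp (mapRingHom i) = (PowerSeries.map i).comp (phiC c) := by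
    ext x
    · simp [phiC]
    · simp [phiC]
  unfold lam bc
  rw [Polynomial.map_map, h, ← Polynomial.map_map, Polynomial.eval_map, Polynomial.eval₂_at_apply]

lemma bc_add {B : Type u} [CommRing B] (i : A →+* B) (F G : A[X][X]) :
    bc i (F + G) = bc i F + bc i G := by simp [bc]

lemma bc_sub {B : Type u} [CommRing B] (i : A →+* B) (F G : A[X][X]) :
    bc i (F - G) = bc i F - bc i G := by simp [bc]

lemma bc_mul {B : Type u} [CommRing B] (i : A →+* B) (F G : A[X][X]) :
    bc i (F * G) = bc i F * bc i G := by simp [bc]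

lemma bc_coeff {B : Type u} [CommRing B] (i : A →+* B) (F : A[X][X]) (j l : ℕ) :
    ((bc i F).coeff j).coeff l = i ((F.coeff j).coeff l) := by simp [bc]

lemma C_dvd_iff (x : A) (F : PowerSeries A) :
    PowerSeries.C x ∣ F ↔ ∀ i, x ∣ PowerSeries.coeff i F := by
  constructor
  · rintro ⟨G, rfl⟩ i
    rw [PowerSeries.coeff_C_mul]
    exact dvd_mul_right _ _
  · intro h
    choose g hg using h
    refine ⟨PowerSeries.mk g, ?_⟩
    ext i
    rw [PowerSeries.coeff_C_mul, PowerSeries.coeff_mk, ← hg i]

end gen

variable {K : Type u} [Field K]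

lemma CX_dvd (E : PowerSeries (PowerSeries K))
    (h : PowerSeries.map PowerSeries.constantCoeff E = 0) :
    PowerSeries.C (PowerSeries.X : PowerSeries K) ∣ E := by
  rw [C_dvd_iff]
  intro i
  rw [PowerSeries.X_dvd_iff]
  have := congrArg (PowerSeries.coeff i) h
  simpa using this

/-- the limit of a sequence -/
noncomputable def lim (y : ℕ → PowerSeries K) : PowerSeries K :=
  PowerSeries.mk fun m => PowerSeries.coeff m (y (m + 1))

lemma lim_spec (y : ℕ → PowerSeries K)
    (hy : ∀ m, (PowerSeries.X : PowerSeries K) ^ (m + 1) ∣ y (m + 1) - y m) (m : ℕ) :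
    (PowerSeries.X : PowerSeries K) ^ m ∣ lim y - y m := by
  rw [PowerSeries.X_pow_dvd_iff]
  intro j hj
  have key : ∀ k, PowerSeries.coeff j (y (j + 1 + k)) = PowerSeries.coeff j (y (j + 1)) := by
    intro k
    induction k with
    | zero => rfl
    | succ k ih =>
      have := (PowerSeries.X_pow_dvd_iff.1 (hy (j + 1 + k))) j (by omega)
      rw [map_sub, sub_eq_zero] at this
      rw [← ih, ← this]
      rfl
  obtain ⟨k, rfl⟩ : ∃ k, m = j + 1 + k := ⟨m - (j + 1), by omega⟩
  rw [map_sub, key k, lim, PowerSeries.coeff_mk, sub_self]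

lemma lim_const (y : PowerSeries K) : lim (fun _ => y) = y := by
  ext m
  simp [lim]

/-- the limit, one variable more -/
noncomputable def lim2 (y : ℕ → PowerSeries (PowerSeries K)) : PowerSeries (PowerSeries K) :=
  PowerSeries.mk fun i => lim fun m => PowerSeries.coeff i (y m)

lemma lim2_spec (y : ℕ → PowerSeries (PowerSeries K))
    (hy : ∀ m, PowerSeries.C ((PowerSeries.X : PowerSeries K) ^ (m + 1)) ∣ y (m + 1) - y m)
    (m : ℕ) : PowerSeries.C ((PowerSeries.X : PowerSeries K) ^ m) ∣ lim2 y - y m := by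
  rw [C_dvd_iff]
  intro i
  rw [map_sub, lim2, PowerSeries.coeff_mk]
  refine lim_spec (fun m => PowerSeries.coeff i (y m)) (fun k => ?_) m
  have := (C_dvd_iff _ _).1 (hy k) i
  rwa [map_sub] at this

lemma eq_zero_of_dvd (F : PowerSeries (PowerSeries K))
    (h : ∀ m, PowerSeries.C ((PowerSeries.X : PowerSeries K) ^ m) ∣ F) : F = 0 := by
  ext i j
  have := (C_dvd_iff _ _).1 (h (j + 1)) i
  have := (PowerSeries.X_pow_dvd_iff.1 this) j (by omega)
  simpa using this

/-- the states of the recursion -/
structure St0 (K : Type u) [Field K] (N n : ℕ) where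
  /-- the polynomial -/
  G : (PowerSeries K)[X][X]
  /-- the zeros -/
  a : Fin (N + 1) → Fin n → PowerSeries K
  /-- the cofactors -/
  w : Fin (N + 1) → Fin n → PowerSeries (PowerSeries K)

/-- the multiplicities -/
def mu (p N : ℕ) (k : Fin (N + 1)) : ℕ := if k = 0 then 1 else p

/-- the invariant of the recursion -/
structure Good {N n : ℕ} (p e : ℕ) (c : Fin (N + 1) → K) (r : Fin (N + 1) → Fin n → PowerSeries K)
    (i₀ : Fin n) (w : Fin (N + 1) → PowerSeries K) (m : ℕ) (x : St0 K N n) : Prop where
  deg : ∀ j l, (n ≤ j ∨ p * N + 1 - e * j < l) → (x.G.coeff j).coeff l = 0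
  red : bc PowerSeries.constantCoeff x.G = C (WW p N c)
  a0 : ∀ k i, PowerSeries.constantCoeff (x.a k i) = 0
  w0 : ∀ k i, PowerSeries.map PowerSeries.constantCoeff (x.w k i) = w k
  ax : ∀ i, x.a 0 i = if i = i₀ then PowerSeries.X else 0
  eq : ∀ k i, PowerSeries.C ((PowerSeries.X : PowerSeries K) ^ m) ∣
    lam (PowerSeries.C (c k)) (PowerSeries.map PowerSeries.C (r k i)) x.G -
      (PowerSeries.X - PowerSeries.C (x.a k i)) ^ mu p N k * x.w k i

/-- congruence of states -/
structure Cong {N n : ℕ} (m : ℕ) (x y : St0 K N n) : Prop where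
  G : C (C ((PowerSeries.X : PowerSeries K) ^ m)) ∣ y.G - x.G
  a : ∀ k i, (PowerSeries.X : PowerSeries K) ^ m ∣ y.a k i - x.a k i
  w : ∀ k i, PowerSeries.C ((PowerSeries.X : PowerSeries K) ^ m) ∣ y.w k i - x.w k i

/-- the reduction modulo `τ` of the local problem -/
lemma local_step [CharZero K] {p N : ℕ} (hp : 0 < p) (k : Fin (N + 1)) (w g : PowerSeries K)
    (hw : PowerSeries.constantCoeff w ≠ 0)
    (hg : (PowerSeries.X : PowerSeries K) ^ (if k = 0 then 1 else p - 1) ∣ g) :
    ∃ (α : K) (v : PowerSeries K), (k = 0 → α = 0) ∧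
      g + (mu p N k : PowerSeries K) * PowerSeries.X ^ (mu p N k - 1) * PowerSeries.C α * w -
        PowerSeries.X ^ mu p N k * v = 0 := by
  unfold mu
  by_cases hk : k = 0
  · simp only [hk, if_true] at hg ⊢
    obtain ⟨v, hv⟩ := hg
    refine ⟨0, v, fun _ => rfl, ?_⟩
    rw [hv]
    simp
  · simp only [hk, if_false] at hg ⊢
    obtain ⟨h, hh⟩ := hg
    have hpK : (p : K) ≠ 0 := by exact_mod_cast hp.ne'
    set α : K := - PowerSeries.constantCoeff h / ((p : K) * PowerSeries.constantCoeff w) with hα
    have h0 : PowerSeries.constantCoeff (h + (p : PowerSeries K) * PowerSeries.C α * w) = 0 := by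
      simp only [map_add, map_mul, map_natCast, PowerSeries.constantCoeff_C]
      rw [hα]
      field_simp
      ring
    obtain ⟨v, hv⟩ := PowerSeries.X_dvd_iff.2 h0
    refine ⟨α, v, fun h => absurd h (by simp), ?_⟩
    obtain ⟨q, rfl⟩ : ∃ q, p = q + 1 := ⟨p - 1, by omega⟩
    rw [hh, Nat.add_sub_cancel]
    have : (PowerSeries.X : PowerSeries K) ^ (q + 1) * v
        = PowerSeries.X ^ q * (PowerSeries.X * v) := by ring
    rw [this, ← hv]
    ring


lemma bc_CC {B : Type u} [CommRing B] {A : Type u} [CommRing A] (i : A →+* B) (x : A) :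
    bc i (C (C x)) = C (C (i x)) := by simp [bc]

lemma lam_CC {A : Type u} [CommRing A] (c : A) (r : PowerSeries A) (x : A) :
    lam c r (C (C x)) = PowerSeries.C x := by rw [lam_C, phiC_C]

lemma map_bracket (M : ℕ) (E L Y B W z T Y' V : PowerSeries (PowerSeries K))
    (hY : PowerSeries.map PowerSeries.constantCoeff Y = PowerSeries.X)
    (hT : PowerSeries.map PowerSeries.constantCoeff T = 0)
    (hY' : PowerSeries.map PowerSeries.constantCoeff Y' = PowerSeries.X) :
    PowerSeries.map PowerSeries.constantCoeff (E + L + (M : PowerSeries (PowerSeries K)) *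
      Y ^ (M - 1) * B * W - z * T * B ^ 2 * W - Y' ^ M * V) =
    PowerSeries.map PowerSeries.constantCoeff E + PowerSeries.map PowerSeries.constantCoeff L +
      (M : PowerSeries K) * PowerSeries.X ^ (M - 1) *
        PowerSeries.map PowerSeries.constantCoeff B *
        PowerSeries.map PowerSeries.constantCoeff W -
      PowerSeries.X ^ M * PowerSeries.map PowerSeries.constantCoeff V := by
  simp only [map_sub, map_add, map_mul, map_pow, map_natCast, hY, hT, hY']
  ring

/-- one step of the recursion -/
lemma step [CharZero K] (hJS : StJS.{u}) {n N p e : ℕ} (hp : 0 < p)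
    (f : K[X][X]) (hf : f.Monic) (hfn : f.natDegree = n) (hN : e * n ≤ N)
    (c : Fin (N + 1) → K) (hc : Function.Injective c) (r : Fin (N + 1) → Fin n → PowerSeries K)
    (hr : ∀ k, f.map (phiC (c k)) = ∏ i, (X - C (r k i)))
    (hr' : ∀ k, Function.Injective (fun i => PowerSeries.constantCoeff (r k i))) (i₀ : Fin n)
    (w : Fin (N + 1) → PowerSeries K) (hw : ∀ k, PowerSeries.constantCoeff (w k) ≠ 0) (m : ℕ)
    (x : St0 K N n) (hx : Good p e c r i₀ w (m + 1) x) :
    ∃ y : St0 K N n, Good p e c r i₀ w (m + 2) y ∧ Cong (m + 1) x y := by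
  classical
  -- the error
  have hE := hx.eq
  choose E hE using hE
  obtain ⟨φ, hφ1, hφ2, hφ3⟩ := hJS K n (N + 1) c hc r hr' ⟨f, hf, hfn, hr⟩
    (fun k => if k = 0 then 1 else p - 1)
    (fun k i => - PowerSeries.map PowerSeries.constantCoeff (E k i))
  have hloc : ∀ k i, ∃ (α : K) (v : PowerSeries K), (k = 0 → α = 0) ∧
      (lam (c k) (r k i) φ + PowerSeries.map PowerSeries.constantCoeff (E k i)) +
        (mu p N k : PowerSeries K) * PowerSeries.X ^ (mu p N k - 1) * PowerSeries.C α * w k -
        PowerSeries.X ^ mu p N k * v = 0 := by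
    intro k i
    refine local_step hp k (w k) _ (hw k) ?_
    have := hφ3 k i
    rwa [sub_neg_eq_add] at this
  choose α v hα hv using hloc
  -- the sum of the exponents
  have hsum : ∑ k : Fin (N + 1), (if k = 0 then 1 else p - 1) = N * (p - 1) + 1 := by
    rw [Fin.sum_univ_succ]
    simp [Fin.succ_ne_zero, add_comm]
  have hφdeg : ∀ j l, (n ≤ j ∨ p * N + 1 - e * j < l) → (φ.coeff j).coeff l = 0 := by
    intro j l hjl
    by_cases hj : n ≤ j
    · have : φ.coeff j = 0 := by
        rcases hφ1 with h | h
        · simp [h]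
        · exact coeff_eq_zero_of_natDegree_lt (by omega)
      simp [this]
    · push Not at hj
      have hl : p * N + 1 - e * j < l := by
        rcases hjl with h | h
        · omega
        · exact h
      rcases hφ2 j with h | h
      · simp [h]
      · refine coeff_eq_zero_of_natDegree_lt ?_
        rw [hsum] at h
        have h1 : e * j ≤ N := le_trans (Nat.mul_le_mul_left e hj.le) hN
        have h2 : p * N = N * (p - 1) + N := by
          obtain ⟨q, rfl⟩ : ∃ q, p = q + 1 := ⟨p - 1, by omega⟩
          rw [Nat.add_sub_cancel]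
          ring
        omega
  set τ : PowerSeries K := PowerSeries.X with hτ
  refine ⟨⟨x.G + C (C (τ ^ (m + 1))) * bc PowerSeries.C φ,
    fun k i => x.a k i + τ ^ (m + 1) * PowerSeries.C (α k i),
    fun k i => x.w k i + PowerSeries.C (τ ^ (m + 1)) * PowerSeries.map PowerSeries.C (v k i)⟩,
    ⟨?_, ?_, ?_, ?_, ?_, ?_⟩, ⟨?_, ?_, ?_⟩⟩
  · intro j l hjl
    have h1 := hx.deg j l hjl
    have h2 := hφdeg j l hjl
    simp only [coeff_add, h1, zero_add]
    rw [coeff_C_mul, coeff_C_mul, bc_coeff, h2]
    simp
  · dsimp only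
    rw [bc_add, bc_mul, bc_CC, hx.red]
    simp [hτ]
  · intro k i
    simp [hx.a0 k i, hτ]
  · intro k i
    have : PowerSeries.map PowerSeries.constantCoeff (PowerSeries.C (τ ^ (m + 1))) = 0 := by
      rw [PowerSeries.map_C]
      simp [hτ]
    rw [map_add, map_mul, this, hx.w0 k i]
    simp
  · intro i
    dsimp only
    rw [hx.ax i, hα 0 i rfl]
    simp [hτ]
  · intro k i
    dsimp only
    rw [lam_add, lam_mul, lam_CC]
    have h1 : lam (PowerSeries.C (c k)) (PowerSeries.map PowerSeries.C (r k i))
        (bc PowerSeries.C φ) = PowerSeries.map PowerSeries.C (lam (c k) (r k i) φ) :=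
      lam_bc _ _ _ _
    rw [h1]
    obtain ⟨z, hz⟩ := powAddExpansion (PowerSeries.X - PowerSeries.C (x.a k i))
      (- (PowerSeries.C (τ ^ (m + 1)) * PowerSeries.C (PowerSeries.C (α k i)))) (mu p N k)
    have h2 : (PowerSeries.X - PowerSeries.C (x.a k i + τ ^ (m + 1) * PowerSeries.C (α k i)) :
        PowerSeries (PowerSeries K)) = (PowerSeries.X - PowerSeries.C (x.a k i)) +
        (- (PowerSeries.C (τ ^ (m + 1)) * PowerSeries.C (PowerSeries.C (α k i)))) := by
      rw [map_add, map_mul]
      ring
    set Y : PowerSeries (PowerSeries K) := PowerSeries.X - PowerSeries.C (x.a k i) with hY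
    set M := mu p N k with hM
    have h3 : lam (PowerSeries.C (c k)) (PowerSeries.map PowerSeries.C (r k i)) x.G +
        PowerSeries.C (τ ^ (m + 1)) * PowerSeries.map PowerSeries.C (lam (c k) (r k i) φ) -
        (PowerSeries.X - PowerSeries.C (x.a k i + τ ^ (m + 1) * PowerSeries.C (α k i))) ^ M *
        (x.w k i + PowerSeries.C (τ ^ (m + 1)) * PowerSeries.map PowerSeries.C (v k i)) =
        PowerSeries.C (τ ^ (m + 1)) * (E k i +
          PowerSeries.map PowerSeries.C (lam (c k) (r k i) φ) +
          (M : PowerSeries (PowerSeries K)) * Y ^ (M - 1) *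
            PowerSeries.C (PowerSeries.C (α k i)) * x.w k i -
          z * PowerSeries.C (τ ^ (m + 1)) * PowerSeries.C (PowerSeries.C (α k i)) ^ 2 * x.w k i -
          (PowerSeries.X - PowerSeries.C (x.a k i + τ ^ (m + 1) * PowerSeries.C (α k i))) ^ M *
            PowerSeries.map PowerSeries.C (v k i)) := by
      have h4 := hE k i
      rw [sub_eq_iff_eq_add] at h4
      rw [h4, mul_add ((PowerSeries.X - PowerSeries.C (x.a k i + τ ^ (m + 1) *
        PowerSeries.C (α k i))) ^ M) (x.w k i)]
      have h5 : (PowerSeries.X - PowerSeries.C (x.a k i + τ ^ (m + 1) * PowerSeries.C (α k i)) :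
        PowerSeries (PowerSeries K)) ^ M * x.w k i =
        (Y ^ M + ↑M * Y ^ (M - 1) * -(PowerSeries.C (τ ^ (m + 1)) *
          PowerSeries.C (PowerSeries.C (α k i))) + z * (-(PowerSeries.C (τ ^ (m + 1)) *
          PowerSeries.C (PowerSeries.C (α k i)))) ^ 2) * x.w k i := by
        rw [h2, hz]
      rw [h5]
      ring
    rw [h3]
    have h6 : (PowerSeries.C (τ ^ (m + 2)) : PowerSeries (PowerSeries K)) =
        PowerSeries.C (τ ^ (m + 1)) * PowerSeries.C τ := by
      rw [← map_mul, ← pow_succ]
    rw [h6]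
    refine mul_dvd_mul_left _ (CX_dvd _ ?_)
    have h7 : PowerSeries.map PowerSeries.constantCoeff (PowerSeries.C (τ ^ (m + 1))) = 0 := by
      rw [PowerSeries.map_C]
      simp [hτ]
    have h8 : ∀ g : PowerSeries K, PowerSeries.map PowerSeries.constantCoeff
        (PowerSeries.map PowerSeries.C g) = g := by
      intro g
      ext i
      simp
    have h9 : PowerSeries.map PowerSeries.constantCoeff Y = PowerSeries.X := by
      rw [hY, map_sub, PowerSeries.map_C, hx.a0 k i]
      simp
    have h10 : PowerSeries.map PowerSeries.constantCoeff (PowerSeries.X - PowerSeries.C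
        (x.a k i + τ ^ (m + 1) * PowerSeries.C (α k i))) = PowerSeries.X := by
      rw [map_sub, PowerSeries.map_C, map_add, hx.a0 k i]
      simp [hτ]
    have h11 : PowerSeries.map PowerSeries.constantCoeff (PowerSeries.C (PowerSeries.C (α k i))) =
        PowerSeries.C (α k i) := by
      rw [PowerSeries.map_C]
      simp
    rw [map_bracket M (E k i) _ Y _ (x.w k i) z _ _ _ h9 h7 h10, h8, h8, h11, hx.w0 k i]
    have h12 := hv k i
    rw [← hM] at h12
    linear_combination h12
  · exact ⟨bc PowerSeries.C φ, by dsimp only; ring⟩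
  · intro k i
    dsimp only
    rw [add_sub_cancel_left]
    exact dvd_mul_right _ _
  · intro k i
    dsimp only
    rw [add_sub_cancel_left]
    exact dvd_mul_right _ _

/-- the local form of `W` -/
lemma WW_local {p N : ℕ} (c : Fin (N + 1) → K) (hc : Function.Injective c) (k : Fin (N + 1)) :
    ∃ w : PowerSeries K, PowerSeries.constantCoeff w ≠ 0 ∧
      phiC (c k) (WW p N c) = PowerSeries.X ^ mu p N k * w := by
  have h1 : ∀ x : K, phiC (c k) (X - C x) = PowerSeries.X + PowerSeries.C (c k - x) := by
    intro x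
    rw [map_sub, phiC_X, phiC_C, map_sub]
    ring
  have h2 : ∀ x : K, PowerSeries.constantCoeff (PowerSeries.X + PowerSeries.C (c k - x)) =
      c k - x := by
    intro x
    simp
  unfold WW mu
  rw [map_mul, map_prod, h1]
  simp only [map_pow, h1]
  by_cases hk : k = 0
  · subst hk
    refine ⟨∏ k : Fin N, (PowerSeries.X + PowerSeries.C (c 0 - c k.succ)) ^ p, ?_, ?_⟩
    · rw [map_prod]
      refine Finset.prod_ne_zero_iff.2 fun l _ => ?_
      rw [map_pow, h2]
      refine pow_ne_zero _ (sub_ne_zero.2 fun h => ?_)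
      exact absurd (hc h).symm (Fin.succ_ne_zero l)
    · simp
  · obtain ⟨l, rfl⟩ := Fin.exists_succ_eq.2 hk
    classical
    refine ⟨(PowerSeries.X + PowerSeries.C (c l.succ - c 0)) *
      ∏ k ∈ Finset.univ.erase l, (PowerSeries.X + PowerSeries.C (c l.succ - c k.succ)) ^ p, ?_, ?_⟩
    · rw [map_mul, map_prod, h2]
      refine mul_ne_zero (sub_ne_zero.2 fun h => hk (hc h)) ?_
      refine Finset.prod_ne_zero_iff.2 fun j hj => ?_
      rw [map_pow, h2]
      refine pow_ne_zero _ (sub_ne_zero.2 fun h => ?_)
      exact (Finset.ne_of_mem_erase hj) (Fin.succ_injective _ (hc h)).symm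
    · rw [← Finset.mul_prod_erase Finset.univ _ (Finset.mem_univ l)]
      simp only [hk, if_false, sub_self, map_zero, add_zero]
      ring

lemma WW_natDegree {p N : ℕ} (c : Fin (N + 1) → K) : (WW p N c).natDegree = p * N + 1 := by
  unfold WW
  rw [natDegree_mul (X_sub_C_ne_zero _)
    (Finset.prod_ne_zero_iff.2 fun l _ => pow_ne_zero _ (X_sub_C_ne_zero _)),
    natDegree_prod _ _ fun l _ => pow_ne_zero _ (X_sub_C_ne_zero _)]
  simp [natDegree_pow]
  ring

/-- the coefficients of a limit polynomial -/
lemma exists_limG (g : ℕ → (PowerSeries K)[X][X]) (n D : ℕ)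
    (hg : ∀ m j l, (n ≤ j ∨ D < l) → ((g m).coeff j).coeff l = 0) :
    ∃ G : (PowerSeries K)[X][X], ∀ j l,
      (G.coeff j).coeff l = lim fun m => ((g m).coeff j).coeff l := by
  refine ⟨∑ j ∈ Finset.range n, monomial j (∑ l ∈ Finset.range (D + 1), monomial l
    (lim fun m => ((g m).coeff j).coeff l)), fun j l => ?_⟩
  rw [finsetSum_coeff]
  simp only [coeff_monomial]
  by_cases hj : j < n
  · rw [Finset.sum_eq_single j (fun b _ hb => if_neg hb)
      (fun h => absurd (Finset.mem_range.2 hj) h), if_pos rfl, finsetSum_coeff]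
    simp only [coeff_monomial]
    by_cases hl : l < D + 1
    · rw [Finset.sum_eq_single l (fun b _ hb => if_neg hb)
        (fun h => absurd (Finset.mem_range.2 hl) h), if_pos rfl]
    · rw [Finset.sum_eq_zero fun b hb => if_neg fun h => hl (by
        have := Finset.mem_range.1 hb
        omega)]
      have : (fun m => ((g m).coeff j).coeff l) = fun _ => 0 := by
        funext m
        exact hg m j l (Or.inr (by omega))
      rw [this, lim_const]
  · rw [Finset.sum_eq_zero fun b hb => if_neg fun h => hj (by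
        have := Finset.mem_range.1 hb
        omega)]
    have : (fun m => ((g m).coeff j).coeff l) = fun _ => 0 := by
      funext m
      exact hg m j l (Or.inl (by omega))
    rw [this, lim_const, coeff_zero]

lemma CC_dvd_iff {A : Type u} [CommRing A] (x : A) (F : A[X][X]) :
    C (C x) ∣ F ↔ ∀ j l, x ∣ (F.coeff j).coeff l := by
  rw [C_dvd_iff_dvd_coeff]
  simp only [C_dvd_iff_dvd_coeff]

end J2aux

open J2aux in
/-- **Module J2.** -/
theorem m_J2 (h : StJS.{u}) : StJ2.{u} := by
  intro K _ _ p hp n N e f hf hfn hN c hc r hr hr' i₀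
  classical
  have hn : 0 < n := lt_of_le_of_lt (Nat.zero_le _) i₀.2
  have hW := WW_local (p := p) c hc
  choose w hw0 hw using hW
  set τ : PowerSeries K := PowerSeries.X with hτ
  -- the initial state
  have init : ∃ x : St0 K N n, Good p e c r i₀ w 1 x := by
    refine ⟨⟨C ((WW p N c).map PowerSeries.C), fun k i => if k = 0 ∧ i = i₀ then τ else 0,
      fun k i => PowerSeries.map PowerSeries.C (w k)⟩, ⟨?_, ?_, ?_, ?_, ?_, ?_⟩⟩
    · intro j l hjl
      dsimp only
      rw [coeff_C]
      split_ifs with hj
      · subst hj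
        rw [coeff_map, coeff_eq_zero_of_natDegree_lt, map_zero]
        rw [WW_natDegree]
        rcases hjl with h | h
        · omega
        · simpa using h
      · simp
    · dsimp only
      rw [bc, map_C, coe_mapRingHom, map_map]
      congr 1
      ext l
      simp
    · intro k i
      dsimp only
      split_ifs <;> simp [hτ]
    · intro k i
      ext l
      simp
    · intro i
      simp [hτ]
    · intro k i
      dsimp only
      have h1 : C ((WW p N c).map PowerSeries.C) = bc PowerSeries.C (C (WW p N c)) := by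
        simp [bc]
      rw [h1, lam_bc, lam_C, hw k]
      rw [pow_one]
      refine CX_dvd _ ?_
      have h8 : ∀ g : PowerSeries K, PowerSeries.map PowerSeries.constantCoeff
          (PowerSeries.map PowerSeries.C g) = g := by
        intro g
        ext i
        simp
      rw [map_sub, h8, map_mul, h8, map_pow, map_sub, PowerSeries.map_C]
      have h9 : PowerSeries.constantCoeff (if k = 0 ∧ i = i₀ then τ else 0) = 0 := by
        split_ifs <;> simp [hτ]
      rw [h9]
      simp [hτ]
  obtain ⟨x₀, hx₀⟩ := init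
  have hstep := fun (m : ℕ) (x : St0 K N n) (hx : Good p e c r i₀ w (m + 1) x) =>
    step h hp.pos f hf hfn hN c hc r hr hr' i₀ w hw0 m x hx
  choose! F hF1 hF2 using hstep
  set x : ℕ → St0 K N n := fun m => Nat.rec x₀ (fun m x => F m x) m with hx
  have hgood : ∀ m, Good p e c r i₀ w (m + 1) (x m) := by
    intro m
    induction m with
    | zero => exact hx₀
    | succ m ih => exact hF1 m _ ih
  have hcong : ∀ m, Cong (m + 1) (x m) (x (m + 1)) := fun m => hF2 m _ (hgood m)
  obtain ⟨G, hG⟩ := exists_limG (fun m => (x m).G) n (p * N + 1) fun m j l hjl =>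
    (hgood m).deg j l (by omega)
  set a : Fin (N + 1) → Fin n → PowerSeries K := fun k i => lim fun m => (x m).a k i with ha
  set v : Fin (N + 1) → Fin n → PowerSeries (PowerSeries K) :=
    fun k i => lim2 fun m => (x m).w k i with hv
  have cG : ∀ m, C (C (τ ^ m)) ∣ G - (x m).G := by
    intro m
    rw [CC_dvd_iff]
    intro j l
    rw [coeff_sub, coeff_sub, hG j l]
    refine lim_spec (fun m => ((x m).G.coeff j).coeff l) (fun m => ?_) m
    have := (CC_dvd_iff _ _).1 (hcong m).G j l
    rwa [coeff_sub, coeff_sub] at this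
  have ca : ∀ m k i, τ ^ m ∣ a k i - (x m).a k i := by
    intro m k i
    exact lim_spec (fun m => (x m).a k i) (fun m => (hcong m).a k i) m
  have cv : ∀ m k i, PowerSeries.C (τ ^ m) ∣ v k i - (x m).w k i := by
    intro m k i
    exact lim2_spec (fun m => (x m).w k i) (fun m => (hcong m).w k i) m
  -- the main identity
  have main : ∀ k i, lam (PowerSeries.C (c k)) (PowerSeries.map PowerSeries.C (r k i)) G =
      (PowerSeries.X - PowerSeries.C (a k i)) ^ mu p N k * v k i := by
    intro k i
    rw [← sub_eq_zero]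
    refine eq_zero_of_dvd _ fun m => ?_
    have e1 : PowerSeries.C (τ ^ m) ∣ lam (PowerSeries.C (c k)) (PowerSeries.map PowerSeries.C
        (r k i)) G - lam (PowerSeries.C (c k)) (PowerSeries.map PowerSeries.C (r k i))
        (x m).G := by
      obtain ⟨H, hH⟩ := cG m
      rw [← lam_sub, hH, lam_mul, lam_CC]
      exact dvd_mul_right _ _
    have e2 : PowerSeries.C (τ ^ m) ∣
        lam (PowerSeries.C (c k)) (PowerSeries.map PowerSeries.C (r k i)) (x m).G -
          (PowerSeries.X - PowerSeries.C ((x m).a k i)) ^ mu p N k * (x m).w k i := by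
      refine dvd_trans ?_ ((hgood m).eq k i)
      rw [← hτ, pow_succ, map_mul]
      exact dvd_mul_right _ _
    have e3 : PowerSeries.C (τ ^ m) ∣ (PowerSeries.X - PowerSeries.C (a k i)) ^ mu p N k -
        (PowerSeries.X - PowerSeries.C ((x m).a k i)) ^ mu p N k := by
      refine dvd_trans ?_ (sub_dvd_pow_sub_pow _ _ _)
      have : (PowerSeries.X - PowerSeries.C (a k i)) - (PowerSeries.X - PowerSeries.C ((x m).a k i))
          = - PowerSeries.C (a k i - (x m).a k i) := by
        rw [map_sub]
        ring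
      rw [this, dvd_neg]
      exact map_dvd _ (ca m k i)
    have e4 := cv m k i
    have e5 : lam (PowerSeries.C (c k)) (PowerSeries.map PowerSeries.C (r k i)) G -
        (PowerSeries.X - PowerSeries.C (a k i)) ^ mu p N k * v k i =
        (lam (PowerSeries.C (c k)) (PowerSeries.map PowerSeries.C (r k i)) G -
          lam (PowerSeries.C (c k)) (PowerSeries.map PowerSeries.C (r k i)) (x m).G) +
        (lam (PowerSeries.C (c k)) (PowerSeries.map PowerSeries.C (r k i)) (x m).G -
          (PowerSeries.X - PowerSeries.C ((x m).a k i)) ^ mu p N k * (x m).w k i) -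
        ((PowerSeries.X - PowerSeries.C (a k i)) ^ mu p N k -
          (PowerSeries.X - PowerSeries.C ((x m).a k i)) ^ mu p N k) * (x m).w k i -
        (PowerSeries.X - PowerSeries.C (a k i)) ^ mu p N k * (v k i - (x m).w k i) := by
      ring
    rw [e5]
    exact dvd_sub (dvd_sub (dvd_add e1 e2) (Dvd.dvd.mul_right e3 _)) (Dvd.dvd.mul_left e4 _)
  refine ⟨G, fun k i => a k.succ i, ?_, ?_, ?_, ?_, ?_, ?_, ?_⟩
  · by_contra hcon
    push Not at hcon
    have h0 : G ≠ 0 := by
      rintro rfl
      simp at hcon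
      omega
    have h1 : G.leadingCoeff ≠ 0 := leadingCoeff_ne_zero.2 h0
    refine h1 ?_
    ext l
    rw [leadingCoeff, hG]
    have : (fun m => ((x m).G.coeff G.natDegree).coeff l) = fun _ => 0 := by
      funext m
      exact (hgood m).deg _ l (Or.inl hcon)
    rw [this, lim_const, coeff_zero]
  · intro j hj
    rw [natDegree_le_iff_coeff_eq_zero]
    intro l hl
    rw [hG]
    have : (fun m => ((x m).G.coeff j).coeff l) = fun _ => 0 := by
      funext m
      exact (hgood m).deg _ l (Or.inr hl)
    rw [this, lim_const]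
  · obtain ⟨H, hH⟩ := cG 1
    have h1 := (hgood 1).red
    have hH' := congrArg (bc PowerSeries.constantCoeff) hH
    rw [bc_sub, bc_mul, bc_CC, h1, pow_one] at hH'
    have h2 : PowerSeries.constantCoeff τ = 0 := by simp [hτ]
    rw [h2, map_zero, map_zero, zero_mul] at hH'
    exact sub_eq_zero.1 hH'
  · intro k i
    have h1 := ca 1 k.succ i
    rw [pow_one, hτ, PowerSeries.X_dvd_iff, map_sub, (hgood 1).a0, sub_zero] at h1
    exact h1
  · intro k i
    rw [main k.succ i]
    have : mu p N k.succ = p := if_neg (Fin.succ_ne_zero k)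
    rw [this]
    exact dvd_mul_right _ _
  · rw [main 0 i₀]
    have h1 : mu p N 0 = 1 := if_pos rfl
    have h2 : a 0 i₀ = τ := by
      have : (fun m => (x m).a 0 i₀) = fun _ => τ := by
        funext m
        rw [(hgood m).ax, if_pos rfl]
      rw [ha]
      dsimp only
      rw [this, lim_const]
    rw [h1, h2, pow_one]
    exact dvd_mul_right _ _
  · intro i hi
    rw [main 0 i]
    have h1 : mu p N 0 = 1 := if_pos rfl
    have h2 : a 0 i = 0 := by
      have : (fun m => (x m).a 0 i) = fun _ => 0 := by
        funext m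
        rw [(hgood m).ax, if_neg hi]
      rw [ha]
      dsimp only
      rw [this, lim_const]
    rw [h1, h2, pow_one, map_zero, sub_zero]
    exact dvd_mul_right _ _

end Pool.Agent.Helper44.SPL
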