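import Pool.Agent.Helper44.SPL.St3

/-!
# Module J3: the norm formula for the `G` of J2
-/

set_option autoImplicit false

namespace Pool.Agent.Helper44.SPL

open Polynomial

universe u

section

variable {K : Type u} [Field K]

lemma J3_phiC_X {A : Type u} [CommRing A] (c : A) :
    phiC c (X : A[X]) = PowerSeries.C c + PowerSeries.X := by
  simp [phiC]

lemma J3_phiC_C {A : Type u} [CommRing A] (c a : A) :
    phiC c (C a : A[X]) = PowerSeries.C a := by
  simp [phiC]

/-- compatibility of `phiC` with the base change `K → K⟦τ⟧`. -/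
lemma J3_phiC_comp (c : K) :
    (phiC (PowerSeries.C c : PowerSeries K)).comp
        (mapRingHom (PowerSeries.C : K →+* PowerSeries K)) =
      (PowerSeries.map (PowerSeries.C : K →+* PowerSeries K)).comp (phiC c) := by
  apply Polynomial.ringHom_ext
  · intro a
    simp [J3_phiC_C]
  · simp [J3_phiC_X]

lemma J3_map_phiC (c : K) (f : K[X][X]) :
    (bc (PowerSeries.C : K →+* PowerSeries K) f).map (phiC (PowerSeries.C c)) =
      (f.map (phiC c)).map (PowerSeries.map (PowerSeries.C : K →+* PowerSeries K)) := by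
  unfold bc
  rw [Polynomial.map_map, Polynomial.map_map, J3_phiC_comp]

lemma J3_bc_monic {A B : Type u} [CommRing A] [CommRing B] (i : A →+* B) {f : A[X][X]}
    (hf : f.Monic) : (bc i f).Monic := hf.map _

lemma J3_bc_natDegree {A B : Type u} [CommRing A] [CommRing B] [Nontrivial B] (i : A →+* B)
    {f : A[X][X]} (hf : f.Monic) : (bc i f).natDegree = f.natDegree := hf.natDegree_map _

/-- the norm, locally. -/
lemma J3_local (h1 : StNM.{u}) (h2 : StNMAP.{u}) {n : ℕ} {f : K[X][X]} (hf : f.Monic)
    (hn : f.natDegree = n) (c : K) (r : Fin n → PowerSeries K)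
    (hr : f.map (phiC c) = ∏ i, (X - C (r i))) (G : (PowerSeries K)[X][X])
    (hG : G.natDegree < n) :
    phiC (PowerSeries.C c) (Nm n (bc PowerSeries.C f) G) =
      ∏ i, lam (PowerSeries.C c) (PowerSeries.map PowerSeries.C (r i)) G := by
  have hFm := J3_bc_monic (PowerSeries.C : K →+* PowerSeries K) hf
  have hFn : (bc (PowerSeries.C : K →+* PowerSeries K) f).natDegree = n := by
    rw [J3_bc_natDegree _ hf, hn]
  have a1 := (h2 _ _ (phiC (PowerSeries.C c : PowerSeries K)) n (bc PowerSeries.C f) G 0 1
    hFm hFn hG.le (by simp)).1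
  rw [a1, J3_map_phiC, hr]
  have e : (∏ i, (X - C (r i))).map (PowerSeries.map (PowerSeries.C : K →+* PowerSeries K)) =
      ∏ i, (X - C (PowerSeries.map PowerSeries.C (r i))) := by
    rw [Polynomial.map_prod]
    simp
  rw [e]
  have a2 := (h1 _ n (fun i => PowerSeries.map (PowerSeries.C : K →+* PowerSeries K) (r i))
    (G.map (phiC (PowerSeries.C c))) 0 ((natDegree_map_le).trans hG.le) (by simp)).1
  rw [a2]
  rfl

end

theorem m_J3 (h1 : StNM.{u}) (h2 : StNMAP.{u}) (h3 : StNDEG.{u}) (h4 : StDIV.{u}) :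
    StJ3.{u} := by
  intro K _ _ p hp n N e f hf hn heN hdeg c hc r hr hinj i₀ G a hG hGd hGW ha hda hdx hd0
  classical
  have hn0 : 0 < n := lt_of_le_of_lt (Nat.zero_le _) i₀.2
  set F : (PowerSeries K)[X][X] := bc (PowerSeries.C : K →+* PowerSeries K) f with hF
  have hFm : F.Monic := J3_bc_monic _ hf
  have hFn : F.natDegree = n := by rw [hF, J3_bc_natDegree _ hf, hn]
  -- degree
  have hND : (Nm n F G).natDegree ≤ n * (p * N + 1) := by
    refine h3 (PowerSeries K) n e (p * N + 1) F G hFm hFn ?_ hG ?_ hGd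
    · intro j hj
      have : F.coeff j = mapRingHom (PowerSeries.C : K →+* PowerSeries K) (f.coeff j) := by
        simp [hF, bc]
      rw [this, coe_mapRingHom]
      exact (natDegree_map_le).trans (hdeg j hj)
    · have := hp.one_lt
      nlinarith
  -- the index type of the zeros
  let ι := (Fin N × Fin n) × Fin p ⊕ (Unit ⊕ {i : Fin n // i ≠ i₀})
  let κ : ι → Fin (N + 1) := Sum.elim (fun q => q.1.1.succ) (fun _ => 0)
  let b : ι → PowerSeries K := Sum.elim (fun q => a q.1.1 q.1.2)
    (Sum.elim (fun _ => PowerSeries.X) (fun _ => 0))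
  have hb : ∀ i, PowerSeries.constantCoeff (b i) = 0 := by
    rintro (q | (_ | i))
    · exact ha _ _
    · simp [b]
    · simp [b]
  have hloc := fun k => J3_local h1 h2 hf hn (c k) (r k) (hr k) G hG
  have hdiv : (∏ i, (X - C (PowerSeries.C (c (κ i)) + b i)) : (PowerSeries K)[X]) ∣ Nm n F G := by
    refine h4 K (N + 1) c hc ι κ b hb (Nm n F G) ?_
    intro k
    rw [hloc k]
    refine Fin.cases ?_ (fun k' => ?_) k
    · -- at c 0
      have e1 : (∏ i ∈ Finset.univ.filter (fun i => κ i = 0),
          (PowerSeries.X - PowerSeries.C (b i)) : PowerSeries (PowerSeries K)) =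
          (PowerSeries.X - PowerSeries.C (PowerSeries.X : PowerSeries K)) *
            ∏ _i : {i : Fin n // i ≠ i₀}, (PowerSeries.X : PowerSeries (PowerSeries K)) := by
        rw [Finset.prod_filter, Fintype.prod_sum_type, Fintype.prod_sum_type]
        simp [κ, b, Fin.succ_ne_zero]
      rw [e1, Fintype.prod_eq_mul_prod_subtype_ne
        (fun i => lam (PowerSeries.C (c 0)) (PowerSeries.map PowerSeries.C (r 0 i)) G) i₀]
      apply mul_dvd_mul
      · exact hdx
      · exact Finset.prod_dvd_prod_of_dvd _ _ (fun i _ => hd0 i.1 i.2)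
    · have e1 : (∏ i ∈ Finset.univ.filter (fun i => κ i = k'.succ),
          (PowerSeries.X - PowerSeries.C (b i)) : PowerSeries (PowerSeries K)) =
          ∏ i : Fin n, (PowerSeries.X - PowerSeries.C (a k' i)) ^ p := by
        rw [Finset.prod_filter, Fintype.prod_sum_type, Fintype.prod_prod_type,
          Fintype.prod_prod_type, Fintype.prod_sum_type]
        simp only [κ, b, Sum.elim_inl, Sum.elim_inr, Fin.succ_inj]
        rw [Finset.prod_eq_single k']
        · simp [(Fin.succ_ne_zero k').symm]
        · intro k'' _ hk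
          simp [hk]
        · simp
      rw [e1]
      exact Finset.prod_dvd_prod_of_dvd _ _ (fun i _ => hda k' i)
  set P : (PowerSeries K)[X] := ∏ i, (X - C (PowerSeries.C (c (κ i)) + b i)) with hP
  have hPm : P.Monic := monic_prod_of_monic _ _ (fun i _ => monic_X_sub_C _)
  have hcard : Fintype.card {i : Fin n // i ≠ i₀} = n - 1 := by
    rw [Fintype.card_subtype_compl]; simp
  have hPd : P.natDegree = n * (p * N + 1) := by
    rw [hP, natDegree_prod_of_monic _ _ (fun i _ => monic_X_sub_C _)]
    simp only [natDegree_X_sub_C, Finset.sum_const, Finset.card_univ, smul_eq_mul, mul_one]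
    simp only [ι, Fintype.card_sum, Fintype.card_prod, Fintype.card_fin, hcard, Fintype.card_unit]
    obtain ⟨m, rfl⟩ : ∃ m, n = m + 1 := ⟨n - 1, by omega⟩
    simp only [Nat.add_sub_cancel]
    ring
  obtain ⟨Q, hQ⟩ := hdiv
  have hQd : Q.natDegree = 0 := by
    by_cases hQ0 : Q = 0
    · rw [hQ0]; simp
    · have := hPm.natDegree_mul' hQ0
      rw [← hQ, hPd] at this
      omega
  obtain ⟨cc, hcc⟩ : ∃ cc : PowerSeries K, Q = C cc := ⟨Q.coeff 0, eq_C_of_natDegree_eq_zero hQd⟩
  rw [hcc] at hQ
  -- `cc` is a unit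
  have hred : (Nm n F G).map (PowerSeries.constantCoeff : PowerSeries K →+* K) = WW p N c ^ n := by
    have a1 := (h2 _ _ (mapRingHom (PowerSeries.constantCoeff : PowerSeries K →+* K)) n F G 0 1
      hFm hFn hG.le (by simp)).1
    have a2 : F.map (mapRingHom (PowerSeries.constantCoeff : PowerSeries K →+* K)) = f := by
      rw [hF]; unfold bc
      rw [Polynomial.map_map]
      have : (mapRingHom (PowerSeries.constantCoeff : PowerSeries K →+* K)).comp
          (mapRingHom (PowerSeries.C : K →+* PowerSeries K)) = RingHom.id _ := by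
        apply Polynomial.ringHom_ext
        · intro x; simp
        · simp
      rw [this, Polynomial.map_id]
    have a3 : G.map (mapRingHom (PowerSeries.constantCoeff : PowerSeries K →+* K))
        = C (WW p N c) := hGW
    rw [coe_mapRingHom, a2, a3] at a1
    rw [a1]
    unfold Nm
    rw [resultant_C_right, ← hn]
    have : f.coeff f.natDegree = 1 := hf.coeff_natDegree
    rw [this, one_pow, one_mul]
  have hWne : WW p N c ^ n ≠ 0 := by
    apply pow_ne_zero
    unfold WW
    apply mul_ne_zero (X_sub_C_ne_zero _)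
    exact Finset.prod_ne_zero_iff.2 (fun k _ => pow_ne_zero _ (X_sub_C_ne_zero _))
  have hunit : IsUnit cc := by
    rw [PowerSeries.isUnit_iff_constantCoeff, isUnit_iff_ne_zero]
    intro h0
    apply hWne
    rw [← hred, hQ, Polynomial.map_mul, map_C]
    have : (PowerSeries.constantCoeff : PowerSeries K →+* K) cc = 0 := h0
    rw [this, map_zero, mul_zero]
  refine ⟨cc, hunit, ?_⟩
  rw [hQ, mul_comm]
  congr 1
  rw [hP]
  rw [Fintype.prod_sum_type, Fintype.prod_prod_type, Fintype.prod_prod_type, Fintype.prod_sum_type]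
  simp only [κ, b, Sum.elim_inl, Sum.elim_inr, Finset.prod_const, Finset.card_univ,
    Fintype.card_fin, hcard, Fintype.card_unit, pow_one, add_zero]
  rw [mul_assoc]

end Pool.Agent.Helper44.SPL
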