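import Pool.Agent.Helper93.SPL.LocLem2

/-!
# J4: the trace formula
-/

set_option autoImplicit false

namespace Pool.Agent.Helper44.SPL

open Polynomial Pool.Agent.Helper93.SPL

universe u

namespace J4

variable {K : Type u} [Field K]

/-- `lam` of `Dd`: `δ · d/ds`. -/
theorem lam_Dd {A : Type u} [CommRing A] (f b : A[X][X]) (δ : A[X]) (c : A)
    (r : PowerSeries A) (hf : lam c r f = 0) (hb : f ∣ b * derivative f - C δ) (G : A[X][X]) :
    lam c r (Dd f b δ G) = phiC c δ * ds (lam c r G) := by
  have h1 := ds_lam c r f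
  rw [hf, map_zero] at h1
  have h2 : lam c r b * lam c r (derivative f) = phiC c δ := by
    obtain ⟨q, hq⟩ := hb
    have := congrArg (lam c r) hq
    rw [lam_sub, lam_mul, lam_mul, hf, zero_mul, lam_C, sub_eq_zero] at this
    exact this
  unfold Dd
  rw [lam_sub, lam_mul, lam_mul, lam_mul, lam_C, ds_lam, ← h2]
  linear_combination (lam c r b * lam c r (derivative G)) * h1

theorem dT_bc {A B : Type u} [CommRing A] [CommRing B] (i : A →+* B) (F : A[X][X]) :
    bc i (dT F) = dT (bc i F) := by
  ext1 j
  rw [dT_coeff]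
  simp [bc, dT_coeff, Polynomial.derivative_map]

/-- the index set of the zeros -/
abbrev Z (p n N : ℕ) (i₀ : Fin n) := (Fin N × Fin n) × Fin p ⊕ (Unit ⊕ {i : Fin n // i ≠ i₀})

/-- the point below a zero -/
def kap {p n N : ℕ} {i₀ : Fin n} : Z p n N i₀ → Fin (N + 1) :=
  Sum.elim (fun q => q.1.1.succ) (fun _ => 0)

/-- the root near a zero -/
def pie {p n N : ℕ} {i₀ : Fin n} : Z p n N i₀ → Fin n :=
  Sum.elim (fun q => q.1.2) (Sum.elim (fun _ => i₀) (fun i => i.1))

/-- the displacement of a zero -/
noncomputable def aa {p n N : ℕ} {i₀ : Fin n} (a : Fin N → Fin n → PowerSeries K) :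
    Z p n N i₀ → PowerSeries K :=
  Sum.elim (fun q => a q.1.1 q.1.2) (Sum.elim (fun _ => PowerSeries.X) (fun _ => 0))

theorem prod_fib {p n N : ℕ} {i₀ : Fin n} {S : Type u} [CommRing S] (g : Fin N → Fin n → S)
    (g1 g2 : S) (k : Fin (N + 1)) (i : Fin n) :
    ∏ z ∈ (Finset.univ.filter (fun z : Z p n N i₀ => kap z = k)).filter (fun z => pie z = i),
      (Sum.elim (fun q : (Fin N × Fin n) × Fin p => g q.1.1 q.1.2)
        (Sum.elim (fun _ : Unit => g1) (fun _ : {i : Fin n // i ≠ i₀} => g2)) z : S) =
      Fin.cases (if i = i₀ then g1 else g2) (fun j => g j i ^ p) k := by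
  classical
  rw [Finset.filter_filter, Finset.prod_filter, Fintype.prod_sum_type, Fintype.prod_sum_type]
  refine Fin.cases ?_ (fun j => ?_) k
  · simp only [kap, pie, Sum.elim_inl, Sum.elim_inr, Fin.cases_zero, true_and]
    rw [Finset.prod_eq_one (s := (Finset.univ : Finset ((Fin N × Fin n) × Fin p)))
      (fun q _ => if_neg (fun h => Fin.succ_ne_zero _ h.1)), one_mul]
    by_cases hi : i = i₀
    · subst hi
      simp only [Finset.univ_unique, Finset.prod_singleton, if_true]
      rw [Finset.prod_eq_one, mul_one]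
      intro x _
      exact if_neg x.2
    · rw [if_neg hi]
      simp only [Finset.univ_unique, Finset.prod_singleton]
      rw [if_neg (fun h => hi h.symm), one_mul, Finset.prod_eq_single ⟨i, hi⟩]
      · simp
      · intro b _ hb
        apply if_neg
        intro h
        exact hb (Subtype.ext h)
      · intro h; exact absurd (Finset.mem_univ _) h
  · simp only [kap, pie, Sum.elim_inl, Sum.elim_inr, Fin.cases_succ]
    have e1 : ∀ x : Unit, (if (0 : Fin (N + 1)) = j.succ ∧ i₀ = i then g1 else (1 : S)) = 1 :=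
      fun _ => if_neg (fun h => Fin.succ_ne_zero j h.1.symm)
    have e2 : ∀ x : {i : Fin n // i ≠ i₀},
        (if (0 : Fin (N + 1)) = j.succ ∧ x.1 = i then g2 else (1 : S)) = 1 :=
      fun _ => if_neg (fun h => Fin.succ_ne_zero j h.1.symm)
    rw [Finset.prod_eq_one (fun x _ => e1 x), Finset.prod_eq_one (fun x _ => e2 x), mul_one,
      mul_one, Fintype.prod_prod_type, Fintype.prod_eq_single (j, i)]
    · simp
    · rintro ⟨j', i'⟩ h
      apply Finset.prod_eq_one
      intro m _
      apply if_neg
      rintro ⟨h1, h2⟩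
      exact h (Prod.ext (Fin.succ_injective _ h1) h2)

theorem X_sub_C_ne {A : Type u} [CommRing A] [Nontrivial A] (a : A) :
    (PowerSeries.X - PowerSeries.C a : PowerSeries A) ≠ 0 := by
  intro h
  have := congrArg (PowerSeries.coeff 1) h
  simp at this

theorem ds_X_sub_C {A : Type u} [CommRing A] (a : A) :
    ds (PowerSeries.X - PowerSeries.C a : PowerSeries A) = 1 := by
  simp

theorem bc_dvd {A B : Type u} [CommRing A] [CommRing B] (i : A →+* B) (f b : A[X][X])
    (δ : A[X]) (hb : f ∣ b * derivative f - C δ) :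
    bc i f ∣ bc i b * derivative (bc i f) - C (δ.map i) := by
  have h := Polynomial.map_dvd (mapRingHom i) hb
  have e : (b * derivative f - C δ).map (mapRingHom i) =
      bc i b * derivative (bc i f) - C (δ.map i) := by
    simp [bc, Polynomial.derivative_map]
  rw [← e]
  exact h

end J4

open J4 in
theorem m_J4 (h1 : StNM.{u}) (h2 : StNMAP.{u}) (h3 : StDIV.{u}) : StJ4.{u} := by
  intro K _ _ p hp n N e f b Y δ hfm hfn hb hen c hc r hr hinj i₀ G a hG hG0 ha hd1 hd2 hd3 cc
    hcc hNm θ θx hθ hθx hθx0
  classical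
  set zf : Z p n N i₀ → PowerSeries K × PowerSeries K :=
    zz (p := p) (I := Fin N × Fin n) (J := {i : Fin n // i ≠ i₀})
        (fun q => PowerSeries.C (c q.1.succ) + a q.1 q.2) (fun q => θ q.1 q.2)
        (PowerSeries.C (c 0) + PowerSeries.X) θx (fun _ => PowerSeries.C (c 0))
        (fun i => PowerSeries.C (PowerSeries.constantCoeff (r 0 i))) with hzf
  have hz1 : ∀ z, (zf z).1 = PowerSeries.C (c (kap z)) + aa a z := by
    rintro (q | (x | i)) <;> simp [hzf, zz, kap, aa]
  have hNG : C cc * ∏ z, (X - C (zf z).1) = Nm n (bc PowerSeries.C f) G := by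
    rw [hNm, Fintype.prod_sum_type, Fintype.prod_sum_type, Fintype.prod_prod_type,
      Fintype.prod_prod_type]
    simp only [hzf, zz, Sum.elim_inl, Sum.elim_inr, Finset.prod_const, Finset.card_univ,
      Fintype.card_fin, Finset.univ_unique, Fintype.card_subtype_compl,
      Fintype.card_unique, mul_assoc, Finset.card_singleton, pow_one]
  -- the zeros are zeros of f, near the roots
  have hzero : ∀ z, ev2 PowerSeries.C f (PowerSeries.C (c (kap z)) + aa a z) (zf z).2 = 0 ∧
      PowerSeries.constantCoeff (zf z).2 = PowerSeries.constantCoeff (r (kap z) (pie z)) := by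
    rintro (q | (x | i))
    · exact hθ q.1.1 q.1.2
    · exact ⟨hθx, hθx0⟩
    · constructor
      · simp only [hzf, zz, kap, aa, Sum.elim_inr, add_zero]
        have e1 : lam (c 0) (r 0 i.1) f = 0 := by
          rw [lam, hr 0, Polynomial.eval_prod]
          apply Finset.prod_eq_zero (Finset.mem_univ i.1)
          simp
        have e2 : bc (RingHom.id K) f = f := by
          unfold bc
          rw [mapRingHom_id, Polynomial.map_id]
        have e3 := lam_bc (RingHom.id K) (c 0) (r 0 i.1) f
        rw [e2, RingHom.comp_id] at e3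
        simp only [RingHom.id_apply] at e3
        rw [e1] at e3
        have e4 := congrArg PowerSeries.constantCoeff e3
        rw [ev2_hom] at e4
        have e5 := congrArg (PowerSeries.C (R := K)) e4
        rw [ev2_hom] at e5
        rw [map_zero, map_zero] at e5
        have e6 : (PowerSeries.C (R := K)).comp
            ((PowerSeries.constantCoeff (R := K)).comp (PowerSeries.C (R := K))) =
            PowerSeries.C := by
          ext x; simp
        rw [e6] at e5
        simp only [map_add, PowerSeries.constantCoeff_C, PowerSeries.constantCoeff_X,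
          add_zero] at e5
        simpa using e5.symm
      · simp [hzf, zz, kap, pie]
  set fR := bc (PowerSeries.C (R := K)) f with hfR
  set bR := bc (PowerSeries.C (R := K)) b with hbR
  set YR := bc (PowerSeries.C (R := K)) Y with hYR
  set δR := δ.map (PowerSeries.C (R := K)) with hδR
  have hfRm : fR.Monic := hfm.map _
  have hfRn : fR.natDegree = n := by
    rw [hfR, bc, hfm.natDegree_map, hfn]
  have hbR2 : fR ∣ bR * derivative fR - C δR := bc_dvd _ f b δ hb
  set H := (YR * Dd fR bR δR G) %ₘ fR with hH
  have hHn : H.natDegree ≤ n := by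
    rw [← hfRn]; exact Polynomial.natDegree_modByMonic_le _ hfRm
  set E := dNm n fR G H - C cc * ∑ z, C (ev2 PowerSeries.C (C δ * Y) (zf z).1 (zf z).2) *
      ∏ z' ∈ Finset.univ.erase z, (X - C (zf z').1) with hE
  have key : ∀ k : Fin (N + 1), (∏ z ∈ Finset.univ.filter (fun z : Z p n N i₀ => kap z = k),
      (PowerSeries.X - PowerSeries.C (aa a z)) : PowerSeries (PowerSeries K)) ∣
      phiC (PowerSeries.C (c k)) E := by
    intro k
    set φ := phiC (PowerSeries.C (c k) : PowerSeries K) with hφ
    set T := Finset.univ.filter (fun z : Z p n N i₀ => kap z = k) with hT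
    have hlin : ∀ z ∈ T, φ (X - C (zf z).1) = PowerSeries.X - PowerSeries.C (aa a z) := by
      intro z hz
      rw [hT, Finset.mem_filter] at hz
      rw [map_sub, hφ, phiC_X, phiC_C, hz1, hz.2, map_add]
      ring
    have hmap : fR.map φ = ∏ i, (X - C (PowerSeries.map PowerSeries.C (r k i))) := by
      rw [hfR, hφ, bc_map, hr k, Polynomial.map_prod]
      simp
    have hlf : ∀ i, lam (PowerSeries.C (c k)) (PowerSeries.map PowerSeries.C (r k i)) fR = 0 := by
      intro i
      rw [lam, ← hφ, hmap, Polynomial.eval_prod]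
      apply Finset.prod_eq_zero (Finset.mem_univ i)
      simp
    have hGm : (G.map φ).natDegree ≤ n := (Polynomial.natDegree_map_le).trans hG.le
    have hHm : (H.map φ).natDegree ≤ n := (Polynomial.natDegree_map_le).trans hHn
    obtain ⟨m1, m2, -, -⟩ := h2 _ _ φ n fR G H 0 hfRm hfRn hG.le hHn
    rw [hmap] at m1 m2
    obtain ⟨n1, n2⟩ := h1 _ n (fun i => PowerSeries.map PowerSeries.C (r k i)) (G.map φ)
      (H.map φ) hGm hHm
    rw [n1] at m1
    rw [n2] at m2
    set L : Fin n → PowerSeries (PowerSeries K) := fun i =>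
      lam (PowerSeries.C (c k)) (PowerSeries.map PowerSeries.C (r k i)) G with hL
    set y : Fin n → PowerSeries (PowerSeries K) := fun i =>
      lam (PowerSeries.C (c k)) (PowerSeries.map PowerSeries.C (r k i))
        (bc PowerSeries.C (C δ * Y)) with hy
    have hHe : ∀ i, (H.map φ).eval (PowerSeries.map PowerSeries.C (r k i)) =
        y i * ds (L i) := by
      intro i
      have e1 : (H.map φ).eval (PowerSeries.map PowerSeries.C (r k i)) =
          lam (PowerSeries.C (c k)) (PowerSeries.map PowerSeries.C (r k i)) H := rfl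
      rw [e1, hH, Polynomial.modByMonic_eq_sub_mul_div _ fR, lam_sub, lam_mul, lam_mul, hlf,
        zero_mul, sub_zero, lam_Dd fR bR δR _ _ (hlf i) hbR2]
      have e2 : bc (PowerSeries.C (R := K)) (C δ * Y) = C δR * YR := by
        simp [bc, hδR, hYR]
      rw [hy]
      simp only
      rw [e2, lam_mul, lam_C]
      ring
    have hm2 : φ (dNm n fR G H) = ∑ i, y i * ds (L i) * ∏ l ∈ Finset.univ.erase i, L l := by
      rw [m2]
      apply Finset.sum_congr rfl
      intro i _
      rw [hHe]
      rfl
    have hm1 : φ (Nm n fR G) = ∏ i, L i := m1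
    have hφE : φ E = (∑ i, y i * ds (L i) * ∏ l ∈ Finset.univ.erase i, L l) -
        PowerSeries.C cc * ∑ z, PowerSeries.C (ev2 PowerSeries.C (C δ * Y) (zf z).1 (zf z).2) *
          ∏ z' ∈ Finset.univ.erase z, φ (X - C (zf z').1) := by
      rw [hE, map_sub, hm2, map_mul, map_sum]
      simp only [map_mul, map_prod]
      simp only [hφ, phiC_C]
    rw [← Finset.prod_congr rfl hlin, hφE]
    apply local_lem2 (fun x => ds x) (by simp)
      (fun a b => by simp [Derivation.leibniz]) T pie
      (fun z => φ (X - C (zf z).1)) _ L y _ _ _ _ _ _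
    · intro z hz
      rw [hlin z hz, ds_X_sub_C]
    · intro i
      have e1 : ∏ z ∈ T.filter (fun z => pie z = i), φ (X - C (zf z).1) = _ :=
        (Finset.prod_congr rfl (fun z hz => by
          rw [hlin z (Finset.mem_filter.1 hz).1]
          rcases z with (q | (x | i))
          · rfl
          · rfl
          · simp [aa])).trans (prod_fib (p := p) (i₀ := i₀) (fun j i =>
            (PowerSeries.X - PowerSeries.C (a j i) : PowerSeries (PowerSeries K)))
            (PowerSeries.X - PowerSeries.C PowerSeries.X) PowerSeries.X k i)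
      rw [e1]
      have e2 : ∀ k : Fin (N + 1), (Fin.cases (motive := fun _ => PowerSeries (PowerSeries K))
          (if i = i₀ then PowerSeries.X - PowerSeries.C PowerSeries.X else PowerSeries.X)
          (fun j => (PowerSeries.X - PowerSeries.C (a j i)) ^ p) k) ∣
          lam (PowerSeries.C (c k)) (PowerSeries.map PowerSeries.C (r k i)) G := by
        intro k
        refine Fin.cases ?_ (fun j => ?_) k
        · simp only [Fin.cases_zero]
          split_ifs with hi
          · rw [hi]; exact hd2
          · exact hd3 i hi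
        · simp only [Fin.cases_succ]
          exact hd1 j i
      exact e2 k
    · intro z hz
      rw [hlin z hz]
      have hzk : kap z = k := (Finset.mem_filter.1 hz).2
      rw [hy]
      simp only
      rw [lam_bc, ev2_hom]
      apply ev2_dvd
      · rw [hz1, hzk, map_add]
        exact ⟨1, by ring⟩
      · have h5 := hzero z
        rw [hzk] at h5
        exact root_dvd f (c k) (r k) (hr k) (hinj k) (aa a z) (zf z).2 h5.1 (pie z) h5.2
    · rw [← hm1, ← hNG, map_mul, map_prod, hφ, phiC_C]
    · rw [Finset.prod_ne_zero_iff]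
      intro z hz
      rw [hlin z hz]
      exact X_sub_C_ne _
  have haa : ∀ z : Z p n N i₀, PowerSeries.constantCoeff (aa a z) = 0 := by
    rintro (q | (x | i))
    · exact ha _ _
    · simp [aa]
    · simp [aa]
  obtain ⟨Λ', hΛ'⟩ := h3 K (N + 1) c hc (Z p n N i₀) kap (aa a) haa E key
  obtain ⟨u, hu⟩ := hcc
  refine ⟨C (↑u⁻¹ : PowerSeries K) * Λ', hNG.symm, ?_⟩
  rw [← hNG]
  have e7 : ∏ z, (X - C (zf z).1) = ∏ z : Z p n N i₀, (X - C (PowerSeries.C (c (kap z)) + aa a z)) :=
    Finset.prod_congr rfl (fun z _ => by rw [hz1])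
  have e8 : C cc * (C (↑u⁻¹ : PowerSeries K)) = 1 := by
    rw [← C_mul, ← hu, Units.mul_inv, C_1]
  have e9 : dNm n fR G H = C cc * ∑ z, C (ev2 PowerSeries.C (C δ * Y) (zf z).1 (zf z).2) *
      ∏ z' ∈ Finset.univ.erase z, (X - C (zf z').1) + E := by rw [hE]; ring
  rw [e9, hΛ', ← e7]
  linear_combination (-(∏ z, (X - C (zf z).1)) * Λ') * e8

end Pool.Agent.Helper44.SPL
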