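import Pool.Agent.Helper44.SPL.St3

/-!
# Module JL: local expansions at an unramified point
-/

set_option autoImplicit false

namespace Pool.Agent.Helper44.SPL

open Polynomial

universe u

private lemma JL_comp {K : Type u} [Field K] (c : K) :
    (PowerSeries.constantCoeff : PowerSeries K →+* K).comp (phiC c) = evalRingHom c := by
  apply Polynomial.ringHom_ext
  · intro a; simp [phiC]
  · simp [phiC]

private lemma JL_hensel {K : Type u} [Field K] (F : (PowerSeries K)[X]) (hF : F.Monic) (z : K)
    (h0 : (F.map (PowerSeries.constantCoeff : PowerSeries K →+* K)).eval z = 0)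
    (h1 : (derivative (F.map (PowerSeries.constantCoeff : PowerSeries K →+* K))).eval z ≠ 0) :
    ∃ r : PowerSeries K, F.eval r = 0 ∧ PowerSeries.constantCoeff r = z := by
  have hc : ∀ G : (PowerSeries K)[X], PowerSeries.constantCoeff (G.eval (PowerSeries.C z)) =
      (G.map (PowerSeries.constantCoeff : PowerSeries K →+* K)).eval z := by
    intro G
    rw [← Polynomial.eval₂_hom (PowerSeries.constantCoeff : PowerSeries K →+* K), eval_map,
      PowerSeries.constantCoeff_C]
  have hI := (inferInstance : HenselianRing (PowerSeries K)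
    (Ideal.span {(PowerSeries.X : PowerSeries K)}))
  obtain ⟨r, hr, hr'⟩ := hI.is_henselian F hF (PowerSeries.C z)
    (by
      rw [Ideal.mem_span_singleton, PowerSeries.X_dvd_iff, hc, h0])
    (by
      apply IsUnit.map
      rw [PowerSeries.isUnit_iff_constantCoeff, hc, isUnit_iff_ne_zero, ← derivative_map]
      exact h1)
  refine ⟨r, hr, ?_⟩
  rw [Ideal.mem_span_singleton, PowerSeries.X_dvd_iff, map_sub, PowerSeries.constantCoeff_C,
    sub_eq_zero] at hr'
  exact hr'

theorem m_JL : StJL.{u} := by
  intro K _ _ n f hf hn c hsep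
  classical
  set g := f.map (evalRingHom c) with hg
  have hgm : g.Monic := hf.map _
  have hgn : g.natDegree = n := by rw [hg, hf.natDegree_map, hn]
  have hnd : g.roots.Nodup := nodup_roots hsep
  have hcard : g.roots.toFinset.card = n := by
    rw [Multiset.toFinset_card_of_nodup hnd, ← hgn]
    exact (splits_iff_card_roots.1 (IsAlgClosed.splits g))
  let eq := Finset.equivFinOfCardEq hcard
  let z : Fin n → K := fun i => (eq.symm i : K)
  have hz : ∀ i, g.eval (z i) = 0 := by
    intro i
    have h2 := (eq.symm i).2
    rw [Multiset.mem_toFinset, mem_roots hgm.ne_zero] at h2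
    exact h2
  have hzi : Function.Injective z := fun i j h => eq.symm.injective (Subtype.ext h)
  have hz' : ∀ i, (derivative g).eval (z i) ≠ 0 := by
    intro i h
    exact (hsep.eval₂_derivative_ne_zero (RingHom.id K) (x := z i) (by simpa using hz i))
      (by simpa using h)
  set F := f.map (phiC c) with hFdef
  have hFm : F.Monic := hf.map _
  have hFg : F.map (PowerSeries.constantCoeff : PowerSeries K →+* K) = g := by
    rw [hFdef, Polynomial.map_map, JL_comp]
  have hex : ∀ i, ∃ r : PowerSeries K, F.eval r = 0 ∧ PowerSeries.constantCoeff r = z i := by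
    intro i
    apply JL_hensel F hFm
    · rw [hFg]; exact hz i
    · rw [hFg]; exact hz' i
  choose r hr hrz using hex
  refine ⟨r, ?_, ?_⟩
  · have hdvd : (∏ i, (X - C (r i))) ∣ F := by
      apply Finset.prod_dvd_of_coprime
      · intro i _ j _ hij
        apply isCoprime_X_sub_C_of_isUnit_sub
        rw [PowerSeries.isUnit_iff_constantCoeff, map_sub, hrz, hrz, isUnit_iff_ne_zero,
          sub_ne_zero]
        exact fun h => hij (hzi h)
      · intro i _
        rw [dvd_iff_isRoot]
        exact hr i
    have hPm : (∏ i, (X - C (r i))).Monic := monic_prod_of_monic _ _ (fun i _ => monic_X_sub_C _)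
    refine eq_of_monic_of_dvd_of_natDegree_le hPm hFm hdvd ?_
    rw [hFdef, hf.natDegree_map, hn, natDegree_prod_of_monic _ _ (fun i _ => monic_X_sub_C _)]
    simp
  · intro i j h
    simp only [hrz] at h
    exact hzi h

end Pool.Agent.Helper44.SPL
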