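import Pool.Agent.Helper44.SPL.St3

set_option autoImplicit false

namespace Pool.Agent.Helper44.SPL

open Polynomial

universe u

private theorem JR_subst {K : Type u} [Field K] (a : PowerSeries K)
    (ha : PowerSeries.constantCoeff a = 0) :
    ∃ φ : PowerSeries K →+* PowerSeries K, φ PowerSeries.X = a ∧
      (∀ c : K, φ (PowerSeries.C c) = PowerSeries.C c) ∧
      ∀ g, PowerSeries.constantCoeff (φ g) = PowerSeries.constantCoeff g := by
  have hs : PowerSeries.HasSubst a := PowerSeries.HasSubst.of_constantCoeff_zero' ha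
  obtain ⟨φ, hφ⟩ : ∃ φ : PowerSeries K →+* PowerSeries K,
      φ = ((PowerSeries.substAlgHom (R := K) hs : PowerSeries K →ₐ[K] PowerSeries K) :
        PowerSeries K →+* PowerSeries K) := ⟨_, rfl⟩
  have h1 : φ PowerSeries.X = a := by
    rw [hφ]
    exact PowerSeries.substAlgHom_X hs
  have h2 : ∀ c : K, φ (PowerSeries.C c) = PowerSeries.C c := by
    intro c
    rw [hφ]
    exact (PowerSeries.substAlgHom (R := K) hs : PowerSeries K →ₐ[K] PowerSeries K).commutes c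
  refine ⟨φ, h1, h2, fun g => ?_⟩
  obtain ⟨h, hg⟩ : ∃ h, g = h * PowerSeries.X + PowerSeries.C (PowerSeries.constantCoeff g) :=
    ⟨_, PowerSeries.eq_shift_mul_X_add_const g⟩
  rw [hg, map_add, map_mul, h1, h2, map_add, map_mul, ha, mul_zero, map_add, map_mul,
    PowerSeries.constantCoeff_X, mul_zero]

private theorem JR_root {K : Type u} [Field K] {n : ℕ} {f : K[X][X]} {c : K}
    {r : Fin n → PowerSeries K} (h : f.map (phiC c) = ∏ i, (X - C (r i))) (i : Fin n) :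
    (f.map (phiC c)).eval (r i) = 0 := by
  rw [h, eval_prod]
  exact Finset.prod_eq_zero (Finset.mem_univ i) (by simp)

private theorem JR_ev {K : Type u} [Field K] {n : ℕ} {f : K[X][X]} {c : K}
    {r : Fin n → PowerSeries K} (h : f.map (phiC c) = ∏ i, (X - C (r i))) (i : Fin n)
    (a : PowerSeries K) (φ : PowerSeries K →+* PowerSeries K) (h1 : φ PowerSeries.X = a)
    (h2 : ∀ c : K, φ (PowerSeries.C c) = PowerSeries.C c) :
    ev2 PowerSeries.C f (PowerSeries.C c + a) (φ (r i)) = 0 := by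
  have h3 := JR_root h i
  rw [eval_map] at h3
  have h4 := congrArg φ h3
  rw [hom_eval₂, map_zero] at h4
  unfold ev2
  rw [eval_map]
  have h5 : φ.comp (phiC c) = eval₂RingHom PowerSeries.C (PowerSeries.C c + a) := by
    apply Polynomial.ringHom_ext
    · intro x
      simp [phiC, h2]
    · simp [phiC, h1, h2]
  rw [← h5]
  exact h4

private theorem JR_sep {K : Type u} [Field K] {f b : K[X][X]} {δ : K[X]}
    (h : f ∣ b * derivative f - C δ) (c : K) (hc : δ.eval c ≠ 0) :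
    (f.map (evalRingHom c)).Separable := by
  obtain ⟨q, hq⟩ := h
  have h1 := congrArg (Polynomial.map (evalRingHom c)) hq
  rw [Polynomial.map_sub, Polynomial.map_mul, Polynomial.map_mul, map_C, ← derivative_map,
    coe_evalRingHom] at h1
  have h2 : (C ((δ.eval c)⁻¹) : K[X]) * C (δ.eval c) = 1 := by
    rw [← C_mul, inv_mul_cancel₀ hc, C_1]
  refine ⟨-(C ((δ.eval c)⁻¹)) * q.map (evalRingHom c), C ((δ.eval c)⁻¹) * b.map (evalRingHom c), ?_⟩
  linear_combination C ((δ.eval c)⁻¹) * h1 + h2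

private theorem JR_points {K : Type u} [Field K] [CharZero K] (δ : K[X]) (hδ : δ ≠ 0) (N : ℕ) :
    ∃ c : Fin (N + 1) → K, Function.Injective c ∧ ∀ k, c k ≠ 0 ∧ δ.eval (c k) ≠ 0 := by
  have hXδ : X * δ ≠ 0 := mul_ne_zero X_ne_zero hδ
  have hfin : Set.Finite {x : K | IsRoot (X * δ) x} := Polynomial.finite_setOfPred_isRoot hXδ
  have hinf := hfin.infinite_compl
  have hinf' : Infinite ↥({x : K | IsRoot (X * δ) x}ᶜ) := hinf.to_subtype
  refine ⟨fun k => (Infinite.natEmbedding ↥({x : K | IsRoot (X * δ) x}ᶜ) k.val : K), ?_, ?_⟩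
  · intro k l hkl
    have h1 := Subtype.ext hkl
    exact Fin.ext ((Infinite.natEmbedding _).injective h1)
  · intro k
    have h1 := (Infinite.natEmbedding ↥({x : K | IsRoot (X * δ) x}ᶜ) k.val).2
    have h2 : ¬ IsRoot (X * δ)
      (Infinite.natEmbedding ↥({x : K | IsRoot (X * δ) x}ᶜ) k.val : K) := h1
    rw [IsRoot.def, eval_mul, eval_X, mul_eq_zero, not_or] at h2
    exact h2

private theorem JR_reindex {K B : Type u} [Field K] [CommRing B] (ι : K →+* B) (n : ℕ)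
    (f b Y : K[X][X]) (δ : K[X]) (G : B[X][X]) (cc : B) {I I' : Type} [Fintype I] [DecidableEq I]
    [Fintype I'] [DecidableEq I'] (σ : I' ≃ I) (z : I → B × B) (Λ : B[X])
    (h : Ident ι n f b Y δ G cc z Λ) : Ident ι n f b Y δ G cc (fun i => z (σ i)) Λ := by
  obtain ⟨h1, h2⟩ := h
  have hin : ∀ i : I', ∏ j ∈ Finset.univ.erase i, (X - C (z (σ j)).1) =
      ∏ j ∈ Finset.univ.erase (σ i), (X - C (z j).1) := by
    intro i
    refine Finset.prod_equiv σ ?_ ?_
    · intro j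
      simp
    · intro j _
      rfl
  refine ⟨?_, ?_⟩
  · rw [h1]
    congr 1
    exact (Equiv.prod_comp σ (fun i => X - C (z i).1)).symm
  · rw [h2]
    simp only [hin]
    congr 2
    exact (Equiv.sum_comp σ (fun i => C (ev2 ι (C δ * Y) (z i).1 (z i).2) *
      ∏ j ∈ Finset.univ.erase i, (X - C (z j).1))).symm

private theorem JR_re2 {K B : Type u} [Field K] [CommRing B] (ι : K →+* B) (n p : ℕ)
    (f b Y : K[X][X]) (δ : K[X]) (G : B[X][X]) (cc : B) {I I' J J' : Type} [Fintype I]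
    [DecidableEq I] [Fintype I'] [DecidableEq I'] [Fintype J] [DecidableEq J] [Fintype J']
    [DecidableEq J'] (e1 : I' ≃ I) (e2 : J' ≃ J) (tq θq : I → B) (tx θx : B) (cs ζs : J → B)
    (Λ : B[X]) (h : Ident ι n f b Y δ G cc (zz (p := p) tq θq tx θx cs ζs) Λ) :
    Ident ι n f b Y δ G cc (zz (p := p) (fun q => tq (e1 q)) (fun q => θq (e1 q)) tx θx
      (fun i => cs (e2 i)) (fun i => ζs (e2 i))) Λ := by
  obtain ⟨σ, hσ⟩ : ∃ σ : ((I' × Fin p) ⊕ (Unit ⊕ J')) ≃ ((I × Fin p) ⊕ (Unit ⊕ J)),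
      σ = Equiv.sumCongr (Equiv.prodCongr e1 (Equiv.refl (Fin p)))
        (Equiv.sumCongr (Equiv.refl Unit) e2) := ⟨_, rfl⟩
  have h5 := JR_reindex ι n f b Y δ G cc σ _ Λ h
  have h6 : (fun i => zz (p := p) tq θq tx θx cs ζs (σ i)) =
      zz (p := p) (fun q => tq (e1 q)) (fun q => θq (e1 q)) tx θx
      (fun i => cs (e2 i)) (fun i => ζs (e2 i)) := by
    funext i
    rw [hσ]
    rcases i with i | i | i <;> rfl
  rw [h6] at h5
  exact h5

theorem m_JR (h1 : StJL.{u}) (h2 : StJ2.{u}) (h3 : StJ3.{u}) (h4 : StJ4.{u}) : StJR.{u} := by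
  intro K _ _ _ p hp n f b Y δ hf hn hn0 hδ hfb
  -- the weight
  obtain ⟨e, he⟩ : ∃ e : ℕ, ∀ j ≤ n, (f.coeff j).natDegree ≤ e * (n - j) := by
    refine ⟨(Finset.range (n + 1)).sup (fun j => (f.coeff j).natDegree), fun j hj => ?_⟩
    rcases Nat.lt_or_ge j n with hjn | hjn
    · have h5 : (f.coeff j).natDegree ≤ (Finset.range (n + 1)).sup (fun j => (f.coeff j).natDegree) :=
        Finset.le_sup (f := fun j => (f.coeff j).natDegree) (Finset.mem_range.2 (by omega))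
      exact h5.trans (Nat.le_mul_of_pos_right _ (by omega))
    · have hjn' : j = n := le_antisymm hj hjn
      have h5 : f.coeff j = 1 := by rw [hjn', ← hn]; exact hf.coeff_natDegree
      rw [h5, natDegree_one]
      exact Nat.zero_le _
  obtain ⟨N, hN⟩ : ∃ N : ℕ, N = e * n + 1 := ⟨_, rfl⟩
  have hNe : e * n ≤ N := by omega
  obtain ⟨c, hc, hc0⟩ := JR_points δ hδ N
  choose r hr hrinj using fun k => h1 K n f hf hn (c k) (JR_sep hfb (c k) (hc0 k).2)
  obtain ⟨i₀, hi₀⟩ : ∃ i₀ : Fin n, i₀ = ⟨0, hn0⟩ := ⟨_, rfl⟩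
  obtain ⟨G, a, hG1, hG2, hG3, ha, hGa, hGx, hG0⟩ :=
    h2 K p hp.out n N e f hf hn hNe c hc r hr hrinj i₀
  obtain ⟨cc, hcc, hNm⟩ := h3 K p hp.out n N e f hf hn hNe he c hc r hr hrinj i₀ G a hG1 hG2 hG3 ha
    hGa hGx hG0
  choose φ hφ1 hφ2 hφ3 using fun (k : Fin N) (i : Fin n) => JR_subst (a k i) (ha k i)
  have hθ : ∀ k i, ev2 PowerSeries.C f (PowerSeries.C (c k.succ) + a k i) (φ k i (r k.succ i)) = 0 ∧
      PowerSeries.constantCoeff (φ k i (r k.succ i)) = PowerSeries.constantCoeff (r k.succ i) :=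
    fun k i => ⟨JR_ev (hr k.succ) i (a k i) (φ k i) (hφ1 k i) (hφ2 k i), hφ3 k i _⟩
  have hθx : ev2 PowerSeries.C f (PowerSeries.C (c 0) + PowerSeries.X) (r 0 i₀) = 0 :=
    JR_root (hr 0) i₀
  obtain ⟨Λ, hΛ⟩ := h4 K p hp.out n N e f b Y δ hf hn hfb hNe c hc r hr hrinj i₀ G a hG1 hG3 ha
    hGa hGx hG0 cc hcc hNm (fun k i => φ k i (r k.succ i)) (r 0 i₀) hθ hθx rfl
  -- reindexing
  obtain ⟨e1⟩ : Nonempty (Fin (N * n) ≃ Fin N × Fin n) := ⟨finProdFinEquiv.symm⟩
  obtain ⟨e2⟩ : Nonempty (Fin (Fintype.card {i : Fin n // i ≠ i₀}) ≃ {i : Fin n // i ≠ i₀}) :=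
    ⟨(Fintype.equivFin _).symm⟩
  refine ⟨N * n, Fintype.card {i : Fin n // i ≠ i₀},
    fun q => PowerSeries.C (c (e1 q).1.succ) + a (e1 q).1 (e1 q).2,
    fun q => φ (e1 q).1 (e1 q).2 (r (e1 q).1.succ (e1 q).2), c 0, r 0 i₀, fun _ => c 0,
    fun i => PowerSeries.constantCoeff (r 0 (e2 i)), G, cc, Λ, (hc0 0).1, hG1, hcc, hθx, ?_, ?_⟩
  · intro q
    refine ⟨(hθ (e1 q).1 (e1 q).2).1, ?_⟩
    rw [map_add, ha, add_zero, PowerSeries.constantCoeff_C]
    exact (hc0 _).1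
  · exact JR_re2 PowerSeries.C n p f b Y δ G cc e1 e2
      (fun q => PowerSeries.C (c q.1.succ) + a q.1 q.2) (fun q => φ q.1 q.2 (r q.1.succ q.2))
      (PowerSeries.C (c 0) + PowerSeries.X) (r 0 i₀) (fun _ => PowerSeries.C (c 0))
      (fun i => PowerSeries.C (PowerSeries.constantCoeff (r 0 i))) Λ hΛ

end Pool.Agent.Helper44.SPL
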