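import Pool.Agent.Helper44.SPL.St3

/-! Module JS of project SPL: surjectivity of the jets. -/

set_option autoImplicit false

namespace Pool.Agent.Helper44.SPL

open Polynomial

universe u

/-- approximation of power series at several points by one polynomial of bounded degree. -/
private theorem JS_one {K : Type u} [Field K] (N : ℕ) (c : Fin N → K)
    (hc : Function.Injective c) (e : Fin N → ℕ) (a : Fin N → PowerSeries K) :
    ∃ p : K[X], (p = 0 ∨ p.natDegree < ∑ k, e k) ∧
      ∀ k, (PowerSeries.X : PowerSeries K) ^ e k ∣ phiC (c k) p - a k := by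
  classical
  have hphi : ∀ (k : Fin N) (u : K[X]),
      (PowerSeries.X : PowerSeries K) ^ e k ∣ phiC (c k) ((X - C (c k)) ^ e k * u) := by
    intro k u
    have h1 : phiC (c k) (X - C (c k)) = PowerSeries.X := by
      simp [phiC]
    rw [map_mul, map_pow, h1]
    exact dvd_mul_right _ _
  -- local solutions
  have hloc : ∀ k, ∃ t : K[X], (PowerSeries.X : PowerSeries K) ^ e k ∣ phiC (c k) t - a k := by
    intro k
    refine ⟨((PowerSeries.trunc (e k) (a k)).comp (X - C (c k))), ?_⟩
    have h1 : phiC (c k) ((PowerSeries.trunc (e k) (a k)).comp (X - C (c k)))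
        = ((PowerSeries.trunc (e k) (a k) : K[X]) : PowerSeries K) := by
      have h2 : (phiC (c k)).comp (compRingHom (X - C (c k))) = Polynomial.coeToPowerSeries.ringHom := by
        apply Polynomial.ringHom_ext
        · intro x
          simp [phiC]
        · simp [phiC]
      exact congrArg (fun f => f (PowerSeries.trunc (e k) (a k))) h2
    rw [h1, PowerSeries.X_pow_dvd_iff]
    intro m hm
    rw [map_sub, Polynomial.coeff_coe, PowerSeries.coeff_trunc, if_pos hm, sub_self]
  choose t ht using hloc
  -- Chinese remainder theorem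
  have hcop : Pairwise (Function.onFun IsCoprime (fun k => Ideal.span {(X - C (c k)) ^ e k})) := by
    intro i j hij
    simp only [Function.onFun]
    rw [Ideal.isCoprime_span_singleton_iff]
    exact (isCoprime_X_sub_C_of_isUnit_sub
      (sub_ne_zero.2 (fun h => hij (hc h))).isUnit).pow
  obtain ⟨q, hq⟩ := Ideal.exists_forall_sub_mem_ideal hcop t
  set W : K[X] := ∏ k, (X - C (c k)) ^ e k with hW
  have hWm : W.Monic := monic_prod_of_monic _ _ fun k _ => (monic_X_sub_C _).pow _
  have hWd : W.natDegree = ∑ k, e k := by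
    rw [hW, natDegree_prod_of_monic _ _ fun k _ => (monic_X_sub_C _).pow _]
    refine Finset.sum_congr rfl fun k _ => ?_
    rw [(monic_X_sub_C _).natDegree_pow, natDegree_X_sub_C, mul_one]
  refine ⟨q %ₘ W, ?_, fun k => ?_⟩
  · by_cases h0 : q %ₘ W = 0
    · exact Or.inl h0
    · right
      rw [← hWd]
      exact natDegree_lt_natDegree h0 (degree_modByMonic_lt _ hWm)
  · have h1 : q %ₘ W = q - W * (q /ₘ W) := by
      have := modByMonic_add_div q W
      linear_combination this
    obtain ⟨u, hu⟩ : (X - C (c k)) ^ e k ∣ W := by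
      rw [hW]
      exact Finset.dvd_prod_of_mem _ (Finset.mem_univ k)
    obtain ⟨v, hv⟩ := Ideal.mem_span_singleton.1 (hq k)
    have h2 : q %ₘ W = t k + (X - C (c k)) ^ e k * (v - u * (q /ₘ W)) := by
      rw [h1, hu]
      linear_combination hv
    have h3 : phiC (c k) (q %ₘ W) - a k = (phiC (c k) (t k) - a k)
        + phiC (c k) ((X - C (c k)) ^ e k * (v - u * (q /ₘ W))) := by
      rw [h2, map_add]
      ring
    rw [h3]
    exact dvd_add (ht k) (hphi k _)

theorem m_JS : StJS.{u} := by
  intro K _ n N c hc r hr _ e g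
  classical
  -- interpolation over the power series ring
  have hint : ∀ k, ∃ a : Fin n → PowerSeries K, ∀ i, ∑ j, a j * r k i ^ (j : ℕ) = g k i := by
    intro k
    have hdet : IsUnit (Matrix.vandermonde (r k)).det := by
      rw [Matrix.det_vandermonde]
      refine IsUnit.prod_univ_iff.2 fun i => IsUnit.prod_iff.2 fun j hj => ?_
      rw [PowerSeries.isUnit_iff_constantCoeff, map_sub]
      refine (sub_ne_zero.2 fun h => ?_).isUnit
      have := hr k h
      rw [Finset.mem_Ioi] at hj
      exact hj.ne this.symm
    refine ⟨(Matrix.vandermonde (r k))⁻¹.mulVec (g k), fun i => ?_⟩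
    have h1 : (Matrix.vandermonde (r k)).mulVec ((Matrix.vandermonde (r k))⁻¹.mulVec (g k)) = g k := by
      rw [Matrix.mulVec_mulVec, Matrix.mul_nonsing_inv _ hdet, Matrix.one_mulVec]
    have h2 := congrFun h1 i
    rw [Matrix.mulVec, dotProduct] at h2
    rw [← h2]
    refine Finset.sum_congr rfl fun j _ => ?_
    rw [Matrix.vandermonde_apply, mul_comm]
  choose a ha using hint
  choose p hp1 hp2 using fun j : Fin n => JS_one N c hc e (fun k => a k j)
  refine ⟨∑ j : Fin n, C (p j) * X ^ (j : ℕ), ?_, ?_, ?_⟩
  · rcases Nat.eq_zero_or_pos n with h | h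
    · subst h
      exact Or.inl (by simp)
    · right
      refine lt_of_le_of_lt (natDegree_sum_le_of_forall_le (n := n - 1) _ _ fun j _ => ?_) (by omega)
      exact (natDegree_C_mul_X_pow_le _ _).trans (by have := j.2; omega)
  · intro j
    rw [finsetSum_coeff]
    simp only [coeff_C_mul_X_pow]
    by_cases hj : j < n
    · have : ∑ x : Fin n, (if j = (x : ℕ) then p x else 0) = p ⟨j, hj⟩ := by
        rw [Finset.sum_eq_single ⟨j, hj⟩]
        · simp
        · intro b _ hb
          rw [if_neg]
          intro h
          exact hb (Fin.ext h.symm)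
        · simp
      rw [this]
      exact hp1 _
    · left
      refine Finset.sum_eq_zero fun x _ => ?_
      rw [if_neg]
      intro h
      exact hj (h ▸ x.2)
  · intro k i
    have h1 : lam (c k) (r k i) (∑ j : Fin n, C (p j) * X ^ (j : ℕ))
        = ∑ j : Fin n, phiC (c k) (p j) * r k i ^ (j : ℕ) := by
      unfold lam
      rw [Polynomial.map_sum, eval_finsetSum]
      refine Finset.sum_congr rfl fun j _ => ?_
      simp
    rw [h1, ← ha k i, ← Finset.sum_sub_distrib]
    refine Finset.dvd_sum fun j _ => ?_
    rw [← sub_mul]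
    exact Dvd.dvd.mul_right (hp2 j k) _

end Pool.Agent.Helper44.SPL
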