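import Pool.Agent.Helper44.SPL.St3

/-!
# Module JT: transfer of the identities from `K⟦τ⟧` to `Ω`
-/

set_option autoImplicit false

namespace Pool.Agent.Helper44.SPL

open Polynomial

universe u

namespace JT

/-- Nullstellensatz: a homomorphism from a finitely generated `L`-subalgebra of `F` to `Ω`. -/
theorem exists_hom {L F Ω : Type u} [Field L] [Field F] [Field Ω] [IsAlgClosed Ω]
    (a : L →+* F) (b : L →+* Ω) (S : Set F) (hS : S.Finite) :
    ∃ (B : Subring F) (h : B →+* Ω), (∀ x, a x ∈ B) ∧ S ⊆ B ∧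
      ∀ (x : L) (hx : a x ∈ B), h ⟨a x, hx⟩ = b x := by
  let := a.toAlgebra
  let := b.toAlgebra
  have hfg : Algebra.FiniteType L (Algebra.adjoin L S) := by
    rw [← Subalgebra.fg_iff_finiteType]
    have := Subalgebra.fg_adjoin_finset (R := L) hS.toFinset
    rwa [Set.Finite.coe_toFinset] at this
  obtain ⟨m, hm⟩ := Ideal.exists_maximal (Algebra.adjoin L S)
  let := Ideal.Quotient.field m
  have hfin := finite_of_finite_type_of_isJacobsonRing L (Algebra.adjoin L S ⧸ m)
  have hint : Algebra.IsAlgebraic L (Algebra.adjoin L S ⧸ m) := inferInstance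
  let g : (Algebra.adjoin L S ⧸ m) →ₐ[L] Ω := IsAlgClosed.lift
  let h : Algebra.adjoin L S →ₐ[L] Ω := g.comp (Ideal.Quotient.mkₐ L m)
  refine ⟨(Algebra.adjoin L S).toSubring, h.toRingHom, ?_, ?_, ?_⟩
  · intro x
    exact (Algebra.adjoin L S).algebraMap_mem x
  · exact Algebra.subset_adjoin
  · intro x hx
    exact h.commutes x

theorem lift_inj {K S : Type u} [Field K] [CommRing S] [IsDomain S] (i : K →+* S)
    (f : K[X][X]) (hf : f.Monic) (hirr : Irreducible f) (a b : S)
    (ha : ∀ P : K[X], P.eval₂ i a = 0 → P = 0) (hb : f.eval₂ (eval₂RingHom i a) b = 0) :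
    Function.Injective (AdjoinRoot.lift (eval₂RingHom i a) b hb) := by
  have hp : Prime f := hirr.prime
  have : IsDomain (AdjoinRoot f) := AdjoinRoot.isDomain_of_prime hp
  have : Algebra.IsIntegral K[X] (AdjoinRoot f) := by
    have := hf.finite_adjoinRoot
    infer_instance
  rw [RingHom.injective_iff_ker_eq_bot]
  apply Ideal.eq_bot_of_comap_eq_bot (R := K[X])
  rw [eq_bot_iff]
  intro P hP
  rw [Ideal.mem_comap, RingHom.mem_ker] at hP
  rw [AdjoinRoot.algebraMap_eq, AdjoinRoot.lift_of] at hP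
  exact ha P hP

section nat

variable {K B B' : Type u} [Field K] [CommRing B] [CommRing B']

theorem coeff_dT (G : B[X][X]) (j : ℕ) : (dT G).coeff j = derivative (G.coeff j) := by
  unfold dT
  rw [finsetSum_coeff]
  simp only [coeff_monomial]
  rw [Finset.sum_ite_eq']
  split_ifs with h
  · rfl
  · rw [Finset.mem_range, not_lt] at h
    rw [coeff_eq_zero_of_natDegree_lt (by omega), derivative_zero]

theorem bc_dT (i : B →+* B') (G : B[X][X]) : bc i (dT G) = dT (bc i G) := by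
  ext1 j
  rw [coeff_dT]
  unfold bc
  rw [coeff_map, coeff_map, coeff_dT, coe_mapRingHom, derivative_map]

theorem bc_bc (ι : K →+* B) (i : B →+* B') (F : K[X][X]) :
    (bc ι F).map (mapRingHom i) = bc (i.comp ι) F := by
  unfold bc
  rw [Polynomial.map_map, mapRingHom_comp]

theorem bc_Dd (i : B →+* B') (f b G : B[X][X]) (δ : B[X]) :
    (Dd f b δ G).map (mapRingHom i) =
      Dd (f.map (mapRingHom i)) (b.map (mapRingHom i)) (δ.map i) (G.map (mapRingHom i)) := by
  have h1 := bc_dT i G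
  have h2 := bc_dT i f
  unfold bc at h1 h2
  unfold Dd
  rw [Polynomial.map_sub, Polynomial.map_mul, Polynomial.map_mul, Polynomial.map_mul, h1, h2,
    map_C, coe_mapRingHom, derivative_map]

theorem ev2_nat (ι : K →+* B) (i : B →+* B') (F : K[X][X]) (a b : B) :
    i (ev2 ι F a b) = ev2 (i.comp ι) F (i a) (i b) := by
  unfold ev2
  rw [eval_map, eval_map, Polynomial.hom_eval₂]
  congr 1
  ext x
  · simp
  · simp

variable {n : ℕ} {f b Y : K[X][X]} {δ : K[X]} {G : B[X][X]} {I : Type} [Fintype I]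
  [DecidableEq I] {z : I → B × B} {Λ : B[X]} {ι : K →+* B} {cc : B}

/-- the two sides of the second identity under base change -/
theorem sides (h2 : StNMAP.{u}) [Nontrivial B] (i : B →+* B') (hf : f.Monic)
    (hfn : f.natDegree = n) (hG : G.natDegree ≤ n) :
    (Nm n (bc ι f) G).map i = Nm n (bc (i.comp ι) f) (G.map (mapRingHom i)) ∧
    (dNm n (bc ι f) G ((bc ι Y * Dd (bc ι f) (bc ι b) (δ.map ι) G) %ₘ bc ι f)).map i =
    dNm n (bc (i.comp ι) f) (G.map (mapRingHom i)) ((bc (i.comp ι) Y *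
      Dd (bc (i.comp ι) f) (bc (i.comp ι) b) (δ.map (i.comp ι)) (G.map (mapRingHom i))) %ₘ
        bc (i.comp ι) f) := by
  have hfm : (bc ι f).Monic := hf.map _
  have hfd : (bc ι f).natDegree = n := by
    unfold bc
    rw [hf.natDegree_map, hfn]
  have hH : ((bc ι Y * Dd (bc ι f) (bc ι b) (δ.map ι) G) %ₘ bc ι f).natDegree ≤ n := by
    rw [← hfd]
    exact natDegree_modByMonic_le _ hfm
  obtain ⟨e1, e2, -, -⟩ := h2 B[X] B'[X] (mapRingHom i) n (bc ι f) G _ 1 hfm hfd hG hH
  refine ⟨?_, ?_⟩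
  · rw [← coe_mapRingHom, e1, bc_bc]
  · rw [← coe_mapRingHom, e2, bc_bc, map_modByMonic _ hfm, Polynomial.map_mul, bc_Dd, bc_bc,
      bc_bc, bc_bc, Polynomial.map_map]

theorem side2 (i : B →+* B') :
    (C cc * ∑ k, C (ev2 ι (C δ * Y) (z k).1 (z k).2) *
      ∏ j ∈ Finset.univ.erase k, (X - C (z j).1) + Nm n (bc ι f) G * Λ : B[X]).map i =
    C (i cc) * ∑ k, C (ev2 (i.comp ι) (C δ * Y) (i (z k).1) (i (z k).2)) *
      ∏ j ∈ Finset.univ.erase k, (X - C (i (z j).1)) + (Nm n (bc ι f) G).map i * Λ.map i := by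
  have e : ∀ k, ev2 (i.comp ι) (C δ * Y) (i (z k).1) (i (z k).2) =
      i (ev2 ι (C δ * Y) (z k).1 (z k).2) := fun k => (ev2_nat ι i _ _ _).symm
  simp only [Polynomial.map_add, Polynomial.map_mul, Polynomial.map_sum, map_C,
    Polynomial.map_prod, Polynomial.map_sub, map_X, e]

theorem Ident.map (h2 : StNMAP.{u}) [Nontrivial B] (i : B →+* B') (hf : f.Monic)
    (hfn : f.natDegree = n) (hG : G.natDegree ≤ n)
    (h : Ident ι n f b Y δ G cc z Λ) :
    Ident (i.comp ι) n f b Y δ (G.map (mapRingHom i)) (i cc)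
      (fun k => (i (z k).1, i (z k).2)) (Λ.map i) := by
  obtain ⟨e1, e2⟩ := h
  obtain ⟨s1, s2⟩ := sides (b := b) (Y := Y) (δ := δ) (ι := ι) h2 i hf hfn hG
  have e1' := congrArg (Polynomial.map i) e1
  have e2' := congrArg (Polynomial.map i) e2
  rw [s1] at e1'
  rw [s2, side2, s1] at e2'
  refine ⟨?_, e2'⟩
  rw [e1']
  simp only [Polynomial.map_mul, map_C, Polynomial.map_prod, Polynomial.map_sub, map_X]

theorem Ident.of_map (h2 : StNMAP.{u}) [Nontrivial B] (i : B →+* B')
    (hi : Function.Injective i) (hf : f.Monic)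
    (hfn : f.natDegree = n) (hG : G.natDegree ≤ n)
    (h : Ident (i.comp ι) n f b Y δ (G.map (mapRingHom i)) (i cc)
      (fun k => (i (z k).1, i (z k).2)) (Λ.map i)) :
    Ident ι n f b Y δ G cc z Λ := by
  obtain ⟨e1, e2⟩ := h
  obtain ⟨s1, s2⟩ := sides (b := b) (Y := Y) (δ := δ) (ι := ι) h2 i hf hfn hG
  refine ⟨?_, ?_⟩
  · apply Polynomial.map_injective i hi
    rw [s1, e1]
    simp only [Polynomial.map_mul, map_C, Polynomial.map_prod, Polynomial.map_sub, map_X]
  · apply Polynomial.map_injective i hi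
    rw [s2, side2, s1, e2]

end nat

theorem zz_map {B B' : Type u} {p : ℕ} {I J : Type} (g : B → B') (tq θq : I → B) (tx θx : B)
    (cs ζs : J → B) : (fun k => (g (zz (p := p) tq θq tx θx cs ζs k).1,
      g (zz (p := p) tq θq tx θx cs ζs k).2)) =
    zz (p := p) (fun i => g (tq i)) (fun i => g (θq i)) (g tx) (g θx) (fun i => g (cs i))
      (fun i => g (ζs i)) := by
  funext k
  rcases k with k | k | k <;> rfl

theorem fin_coeff {R : Type u} [CommRing R] (p : R[X]) : (Set.range p.coeff).Finite := by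
  apply ((p.support.finite_toSet.image p.coeff).insert 0).subset
  rintro _ ⟨k, rfl⟩
  by_cases h : p.coeff k = 0
  · left
    exact h
  · right
    exact ⟨k, mem_support_iff.mpr h, rfl⟩

theorem fin_coeff2 {R : Type u} [CommRing R] (G : R[X][X]) :
    (⋃ q ∈ Set.range G.coeff, Set.range q.coeff).Finite :=
  (fin_coeff G).biUnion (fun q _ => fin_coeff q)

theorem lift_poly {F : Type u} [Field F] (B : Subring F) (P : F[X])
    (h : ∀ k, P.coeff k ∈ B) : ∃ Q : B[X], Q.map B.subtype = P := by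
  have : P ∈ Polynomial.lifts B.subtype := by
    rw [Polynomial.lifts_iff_coeff_lifts]
    intro k
    exact ⟨⟨_, h k⟩, rfl⟩
  exact this

theorem lift_poly2 {F : Type u} [Field F] (B : Subring F) (P : F[X][X])
    (h : ∀ k l, (P.coeff k).coeff l ∈ B) : ∃ Q : B[X][X], Q.map (mapRingHom B.subtype) = P := by
  have : P ∈ Polynomial.lifts (mapRingHom B.subtype) := by
    rw [Polynomial.lifts_iff_coeff_lifts]
    intro k
    obtain ⟨Q, hQ⟩ := lift_poly B (P.coeff k) (h k)
    exact ⟨Q, hQ⟩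
  exact this

theorem ps_transc {K : Type u} [Field K] (c : K) (P : K[X])
    (h : P.eval₂ PowerSeries.C (PowerSeries.C c + PowerSeries.X) = 0) : P = 0 := by
  have e : P.eval₂ PowerSeries.C (PowerSeries.C c + PowerSeries.X) =
      ((P.comp (C c + X) : K[X]) : PowerSeries K) := by
    have : ((P.comp (C c + X) : K[X]) : PowerSeries K) =
        Polynomial.coeToPowerSeries.ringHom (P.comp (C c + X)) := rfl
    rw [this, Polynomial.comp, Polynomial.hom_eval₂]
    congr 1
    · ext1 x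
      simp
    · simp
  rw [e] at h
  have h3 : P.comp (C c + X) = 0 := Polynomial.coe_injective K (by rw [h, Polynomial.coe_zero])
  rwa [add_comm, comp_X_add_C_eq_zero_iff] at h3

end JT

open JT in
/-- Module JT -/
theorem m_JT (h1 : StJR.{u}) (h2 : StNMAP.{u}) : StJT.{u} := by
  intro Ω _ _ _ K _ p _ n f b Y δ hf hfn hn hirr hδ hdiv t θ ht hθ
  obtain ⟨nq, m, tq, θq, c₀, θx, cs, ζs, G, cc, Λ, hc₀, hG, hcc, hθx, hq, hid⟩ :=
    h1 K p n f b Y δ hf hfn hn hδ hdiv
  let F := FractionRing (PowerSeries K)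
  let j : PowerSeries K →+* F := algebraMap _ _
  have hj : Function.Injective j := IsFractionRing.injective (PowerSeries K) F
  have hp : Prime f := hirr.prime
  have hdom : IsDomain (AdjoinRoot f) := AdjoinRoot.isDomain_of_prime hp
  have hbΩ : f.eval₂ (eval₂RingHom K.subtype t) θ = 0 := by
    rw [eval₂_eq_eval_map]
    exact hθ
  have hbR : f.eval₂ (eval₂RingHom PowerSeries.C (PowerSeries.C c₀ + PowerSeries.X)) θx = 0 := by
    rw [eval₂_eq_eval_map]
    exact hθx
  have ha1 := lift_inj PowerSeries.C f hf hirr (PowerSeries.C c₀ + PowerSeries.X) θx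
    (fun P hP => ps_transc c₀ P hP) hbR
  have ha2 := lift_inj K.subtype f hf hirr t θ
    (fun P hP => (transcendental_iff.mp ht) P hP) hbΩ
  set a1 := AdjoinRoot.lift (eval₂RingHom PowerSeries.C (PowerSeries.C c₀ + PowerSeries.X)) θx hbR
    with ha1d
  set a2 := AdjoinRoot.lift (eval₂RingHom K.subtype t) θ hbΩ with ha2d
  let L := FractionRing (AdjoinRoot f)
  have hja : Function.Injective (j.comp a1) := hj.comp ha1
  let aF : L →+* F := IsFractionRing.lift hja
  let aΩ : L →+* Ω := IsFractionRing.lift ha2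
  have haF : ∀ x, aF (algebraMap (AdjoinRoot f) L x) = j (a1 x) := fun x =>
    IsFractionRing.lift_algebraMap hja x
  have haΩ : ∀ x, aΩ (algebraMap (AdjoinRoot f) L x) = a2 x := fun x =>
    IsFractionRing.lift_algebraMap ha2 x
  let S : Set F := (j '' (⋃ q ∈ Set.range G.coeff, Set.range q.coeff)) ∪
    ((j '' Set.range Λ.coeff) ∪ (Set.range (fun q => j (tq q)) ∪
      (Set.range (fun q => (j (tq q))⁻¹) ∪ (Set.range (fun q => j (θq q)) ∪
        {j cc, (j cc)⁻¹}))))
  have hS : S.Finite := by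
    refine ((fin_coeff2 G).image j).union (((fin_coeff Λ).image j).union
      ((Set.finite_range _).union ((Set.finite_range _).union
      ((Set.finite_range _).union (Set.toFinite _)))))
  obtain ⟨B, h, hB1, hB2, hB3⟩ := exists_hom aF aΩ S hS
  -- the constants
  let k0 : K →+* L := (algebraMap (AdjoinRoot f) L).comp ((AdjoinRoot.of f).comp C)
  let ιB : K →+* B := (aF.comp k0).codRestrict B (fun x => hB1 _)
  have hιF : B.subtype.comp ιB = j.comp PowerSeries.C := by
    ext1 x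
    change aF (algebraMap (AdjoinRoot f) L (AdjoinRoot.of f (C x))) = j (PowerSeries.C x)
    rw [haF, ha1d, AdjoinRoot.lift_of, coe_eval₂RingHom, eval₂_C]
  have hιΩ : h.comp ιB = K.subtype := by
    ext1 x
    change h ⟨aF (k0 x), _⟩ = x
    rw [hB3]
    change aΩ (algebraMap (AdjoinRoot f) L (AdjoinRoot.of f (C x))) = x
    rw [haΩ, ha2d, AdjoinRoot.lift_of, coe_eval₂RingHom, eval₂_C]
    rfl
  -- the points
  let tB : B := ⟨aF (algebraMap (AdjoinRoot f) L (AdjoinRoot.of f X)), hB1 _⟩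
  let θB : B := ⟨aF (algebraMap (AdjoinRoot f) L (AdjoinRoot.root f)), hB1 _⟩
  have htF : B.subtype tB = j (PowerSeries.C c₀ + PowerSeries.X) := by
    change aF (algebraMap (AdjoinRoot f) L (AdjoinRoot.of f X)) = _
    rw [haF, ha1d, AdjoinRoot.lift_of, coe_eval₂RingHom, eval₂_X]
  have htΩ : h tB = t := by
    change h ⟨aF (algebraMap (AdjoinRoot f) L (AdjoinRoot.of f X)), _⟩ = t
    rw [hB3, haΩ, ha2d, AdjoinRoot.lift_of, coe_eval₂RingHom, eval₂_X]
  have hθF : B.subtype θB = j θx := by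
    change aF (algebraMap (AdjoinRoot f) L (AdjoinRoot.root f)) = _
    rw [haF, ha1d, AdjoinRoot.lift_root]
  have hθΩ : h θB = θ := by
    change h ⟨aF (algebraMap (AdjoinRoot f) L (AdjoinRoot.root f)), _⟩ = θ
    rw [hB3, haΩ, ha2d, AdjoinRoot.lift_root]
  -- the generators
  have m1 : ∀ k l, j ((G.coeff k).coeff l) ∈ B := by
    intro k l
    apply hB2
    left
    refine ⟨_, ?_, rfl⟩
    simp only [Set.mem_iUnion]
    exact ⟨G.coeff k, ⟨k, rfl⟩, ⟨l, rfl⟩⟩
  have m2 : ∀ k, j (Λ.coeff k) ∈ B := fun k => hB2 (Or.inr (Or.inl ⟨_, ⟨k, rfl⟩, rfl⟩))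
  have m3 : ∀ q, j (tq q) ∈ B := fun q => hB2 (Or.inr (Or.inr (Or.inl ⟨q, rfl⟩)))
  have m4 : ∀ q, (j (tq q))⁻¹ ∈ B := fun q => hB2 (Or.inr (Or.inr (Or.inr (Or.inl ⟨q, rfl⟩))))
  have m5 : ∀ q, j (θq q) ∈ B := fun q =>
    hB2 (Or.inr (Or.inr (Or.inr (Or.inr (Or.inl ⟨q, rfl⟩)))))
  have m6 : j cc ∈ B := hB2 (Or.inr (Or.inr (Or.inr (Or.inr (Or.inr (Or.inl rfl))))))
  have m7 : (j cc)⁻¹ ∈ B := hB2 (Or.inr (Or.inr (Or.inr (Or.inr (Or.inr (Or.inr rfl))))))
  obtain ⟨GB, hGB⟩ := lift_poly2 B (G.map (mapRingHom j)) (fun k l => by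
    rw [coeff_map, coe_mapRingHom, coeff_map]
    exact m1 k l)
  obtain ⟨ΛB, hΛB⟩ := lift_poly B (Λ.map j) (fun k => by
    rw [coeff_map]
    exact m2 k)
  have hBi : Function.Injective B.subtype := B.subtype_injective
  have hGBn : GB.natDegree < n := by
    have e : (GB.map (mapRingHom B.subtype)).natDegree = GB.natDegree :=
      natDegree_map_eq_of_injective (Polynomial.map_injective _ hBi) GB
    rw [← e, hGB]
    exact lt_of_le_of_lt natDegree_map_le hG
  let tqB : Fin nq → B := fun q => ⟨j (tq q), m3 q⟩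
  let θqB : Fin nq → B := fun q => ⟨j (θq q), m5 q⟩
  let ccB : B := ⟨j cc, m6⟩
  -- the identity over `B`
  have hidF := Ident.map h2 j hf hfn hG.le hid
  have hidB : Ident ιB n f b Y δ GB ccB (zz (p := p) (I := Fin nq) (J := Fin m) tqB θqB tB θB
      (fun i => ιB (cs i)) (fun i => ιB (ζs i))) ΛB := by
    apply Ident.of_map h2 B.subtype hBi hf hfn hGBn.le
    rw [zz_map] at hidF ⊢
    have e1 : ∀ x, B.subtype (ιB x) = j (PowerSeries.C x) := fun x => RingHom.congr_fun hιF x
    rw [hιF, hGB, hΛB, htF, hθF]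
    simp only [e1]
    exact hidF
  have hidΩ := Ident.map h2 h hf hfn hGBn.le hidB
  have e2 : ∀ x, h (ιB x) = (x : Ω) := fun x => RingHom.congr_fun hιΩ x
  rw [zz_map, hιΩ, htΩ, hθΩ] at hidΩ
  simp only [e2] at hidΩ
  refine ⟨nq, m, fun q => h (tqB q), fun q => h (θqB q), cs, ζs, GB.map (mapRingHom h), h ccB,
    ΛB.map h, lt_of_le_of_lt natDegree_map_le hGBn, ?_, ?_, hidΩ⟩
  · intro h0
    have hne : j cc ≠ 0 := fun h3 => hcc.ne_zero (hj (by rw [h3, map_zero]))
    have e3 : ccB * ⟨(j cc)⁻¹, m7⟩ = 1 := Subtype.ext (mul_inv_cancel₀ hne)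
    have e4 := congrArg h e3
    rw [map_mul, h0, zero_mul, map_one] at e4
    exact zero_ne_one e4
  · intro q
    obtain ⟨hq1, hq2⟩ := hq q
    refine ⟨?_, ?_⟩
    · have e5 : ev2 ιB f (tqB q) (θqB q) = 0 := by
        apply hBi
        rw [ev2_nat, hιF, map_zero]
        change ev2 (j.comp PowerSeries.C) f (j (tq q)) (j (θq q)) = 0
        rw [← ev2_nat, hq1, map_zero]
      have e6 := congrArg h e5
      rwa [ev2_nat, hιΩ, map_zero] at e6
    · intro h0'
      have h0 : h (tqB q) = 0 := h0'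
      have hne : j (tq q) ≠ 0 := fun h3 => hq2 (by
        have : tq q = 0 := hj (by rw [h3, map_zero])
        rw [this, map_zero])
      have e3 : tqB q * ⟨(j (tq q))⁻¹, m4 q⟩ = 1 := Subtype.ext (mul_inv_cancel₀ hne)
      have e4 := congrArg h e3
      rw [map_mul, h0, zero_mul, map_one] at e4
      exact zero_ne_one e4

end Pool.Agent.Helper44.SPL
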