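import Pool.Agent.Helper44.SPL.St

/-!
# SPL, module LEV: finite levels
-/

set_option autoImplicit false

namespace Pool.Agent.Helper44.SPL

open Polynomial

universe u

section lev

variable {Ω : Type u} [Field Ω]

theorem lev_int {T : Subring Ω} {q : Polynomial Ω} {x : Ω} (hq : q.Monic) (hc : ∀ i, q.coeff i ∈ T)
    (hx : q.eval x = 0) : IsIntegral T x := by
  have hc' : (↑q.coeffs : Set Ω) ⊆ T := by
    intro a ha
    rw [Finset.mem_coe, Polynomial.mem_coeffs_iff] at ha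
    obtain ⟨i, -, rfl⟩ := ha
    exact hc i
  refine ⟨q.toSubring T hc', (Polynomial.monic_toSubring q T hc').2 hq, ?_⟩
  rw [← Polynomial.eval_map]
  have h1 : (q.toSubring T hc').map (algebraMap T Ω) = q := Polynomial.map_toSubring q T hc'
  rw [h1, hx]

theorem lev_of_int {T : Subring Ω} {x : Ω} (h : IsIntegral T x) :
    ∃ q : Polynomial Ω, q.Monic ∧ (∀ i, q.coeff i ∈ T) ∧ q.eval x = 0 := by
  obtain ⟨p, hp, hx⟩ := h
  refine ⟨p.map (algebraMap T Ω), hp.map _, fun i => ?_, ?_⟩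
  · rw [Polynomial.coeff_map]
    exact (p.coeff i).2
  · rw [Polynomial.eval_map]
    exact hx

theorem lev_mem_icl {s : Set Ω} {x : Ω} : x ∈ icl s ↔ IsIntegral (Subring.closure s) x := Iff.rfl

theorem lev_closure_le {s : Set Ω} : Subring.closure s ≤ icl s := by
  intro x hx
  rw [lev_mem_icl]
  exact isIntegral_algebraMap (R := Subring.closure s) (x := ⟨x, hx⟩)

theorem lev_mono {s t : Set Ω} (h : s ⊆ t) : icl s ≤ icl t := by
  intro x hx
  rw [lev_mem_icl] at hx ⊢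
  obtain ⟨q, hq, hc, hx⟩ := lev_of_int hx
  exact lev_int hq (fun i => Subring.closure_mono h (hc i)) hx

/-- an element of the subring generated by `A` and `t` lies in the subring generated by finitely
many elements of `A` and `t` -/
theorem lev_fin {A : Subring Ω} {t : Set Ω} {y : Ω} (hy : y ∈ Subring.closure ((A : Set Ω) ∪ t)) :
    ∃ s : Finset Ω, (∀ a ∈ s, a ∈ A) ∧ y ∈ Subring.closure ((s : Set Ω) ∪ t) := by
  classical
  have hun : ∀ s s' : Finset Ω, (∀ a ∈ s, a ∈ A) → (∀ a ∈ s', a ∈ A) → ∀ a ∈ s ∪ s', a ∈ A := by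
    intro s s' h h' a ha
    rcases Finset.mem_union.1 ha with h1 | h1
    · exact h a h1
    · exact h' a h1
  have hl : ∀ s s' : Finset Ω, Subring.closure ((s : Set Ω) ∪ t) ≤
      Subring.closure (((s ∪ s' : Finset Ω) : Set Ω) ∪ t) := by
    intro s s'
    refine Subring.closure_mono (Set.union_subset_union_left _ ?_)
    rw [Finset.coe_union]
    exact Set.subset_union_left
  have hr : ∀ s s' : Finset Ω, Subring.closure ((s' : Set Ω) ∪ t) ≤
      Subring.closure (((s ∪ s' : Finset Ω) : Set Ω) ∪ t) := by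
    intro s s'
    refine Subring.closure_mono (Set.union_subset_union_left _ ?_)
    rw [Finset.coe_union]
    exact Set.subset_union_right
  induction hy using Subring.closure_induction with
  | mem y h =>
    rcases h with h | h
    · refine ⟨{y}, fun a ha => ?_, Subring.subset_closure (Or.inl (by simp))⟩
      rw [Finset.mem_singleton] at ha
      rw [ha]
      exact h
    · exact ⟨∅, fun a ha => absurd ha (Finset.notMem_empty a), Subring.subset_closure (Or.inr h)⟩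
  | zero => exact ⟨∅, fun a ha => absurd ha (Finset.notMem_empty a), zero_mem _⟩
  | one => exact ⟨∅, fun a ha => absurd ha (Finset.notMem_empty a), one_mem _⟩
  | add x y _ _ hx hy =>
    obtain ⟨s, hs, hx⟩ := hx
    obtain ⟨s', hs', hy⟩ := hy
    exact ⟨s ∪ s', hun s s' hs hs', add_mem (hl s s' hx) (hr s s' hy)⟩
  | neg x _ hx =>
    obtain ⟨s, hs, hx⟩ := hx
    exact ⟨s, hs, neg_mem hx⟩
  | mul x y _ _ hx hy =>
    obtain ⟨s, hs, hx⟩ := hx
    obtain ⟨s', hs', hy⟩ := hy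
    exact ⟨s ∪ s', hun s s' hs hs', mul_mem (hl s s' hx) (hr s s' hy)⟩

theorem lev_desc {A : Subring Ω} {t : Set Ω} {x : Ω} (hx : x ∈ icl ((A : Set Ω) ∪ t)) :
    ∃ s : Finset Ω, (∀ a ∈ s, a ∈ A) ∧ x ∈ icl ((s : Set Ω) ∪ t) := by
  classical
  rw [lev_mem_icl] at hx
  obtain ⟨q, hq, hc, hx⟩ := lev_of_int hx
  choose f hf hf' using fun i => lev_fin (hc i)
  refine ⟨q.support.biUnion f, fun a ha => ?_, ?_⟩
  · obtain ⟨i, -, hi⟩ := Finset.mem_biUnion.1 ha
    exact hf i a hi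
  · rw [lev_mem_icl]
    refine lev_int hq (fun i => ?_) hx
    by_cases hi : i ∈ q.support
    · refine Subring.closure_mono (Set.union_subset_union_left _ ?_) (hf' i)
      intro a ha
      exact Finset.mem_coe.2 (Finset.mem_biUnion.2 ⟨i, hi, ha⟩)
    · rw [Polynomial.notMem_support_iff.1 hi]
      exact zero_mem _

/-- the version for finitely many elements -/
theorem lev_desc' {A : Subring Ω} {t : Set Ω} (a : Finset Ω)
    (ha : ∀ x ∈ a, x ∈ icl ((A : Set Ω) ∪ t)) :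
    ∃ s : Finset Ω, (∀ y ∈ s, y ∈ A) ∧ ∀ x ∈ a, x ∈ icl ((s : Set Ω) ∪ t) := by
  classical
  have h : ∀ x, ∃ s : Finset Ω, (∀ y ∈ s, y ∈ A) ∧ (x ∈ a → x ∈ icl ((s : Set Ω) ∪ t)) := by
    intro x
    by_cases hx : x ∈ a
    · obtain ⟨s, hs, hs'⟩ := lev_desc (ha x hx)
      exact ⟨s, hs, fun _ => hs'⟩
    · exact ⟨∅, fun y hy => absurd hy (Finset.notMem_empty y), fun h => absurd h hx⟩
  choose f hf hf' using h
  refine ⟨a.biUnion f, fun y hy => ?_, fun x hx => ?_⟩
  · obtain ⟨x, -, hx⟩ := Finset.mem_biUnion.1 hy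
    exact hf x y hx
  · refine lev_mono (Set.union_subset_union_left _ ?_) (hf' x hx)
    intro y hy
    exact Finset.mem_coe.2 (Finset.mem_biUnion.2 ⟨x, hx, hy⟩)

theorem lev_pow_mem {D : Subring Ω} {w x : Ω} (hw : w ∈ D) {k l : ℕ} (hkl : k ≤ l)
    (h : w ^ k * x ∈ D) : w ^ l * x ∈ D := by
  have h1 : w ^ l * x = w ^ (l - k) * (w ^ k * x) := by
    rw [← mul_assoc, ← pow_add, Nat.sub_add_cancel hkl]
  rw [h1]
  exact mul_mem (pow_mem hw _) h

/-- elements that come into `D` after multiplication by a power of `w ∈ D` form a ring -/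
theorem lev_loc {D : Subring Ω} {w : Ω} (hw : w ∈ D) {s : Set Ω}
    (hs : ∀ x ∈ s, ∃ k : ℕ, w ^ k * x ∈ D) {x : Ω} (hx : x ∈ Subring.closure s) :
    ∃ k : ℕ, w ^ k * x ∈ D := by
  induction hx using Subring.closure_induction with
  | mem x h => exact hs x h
  | zero => exact ⟨0, by simp⟩
  | one => exact ⟨0, by simp⟩
  | add x y _ _ hx hy =>
    obtain ⟨k, hk⟩ := hx
    obtain ⟨l, hl⟩ := hy
    refine ⟨max k l, ?_⟩
    rw [mul_add]
    exact add_mem (lev_pow_mem hw (le_max_left _ _) hk) (lev_pow_mem hw (le_max_right _ _) hl)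
  | neg x _ hx =>
    obtain ⟨k, hk⟩ := hx
    refine ⟨k, ?_⟩
    rw [mul_neg]
    exact neg_mem hk
  | mul x y _ _ hx hy =>
    obtain ⟨k, hk⟩ := hx
    obtain ⟨l, hl⟩ := hy
    refine ⟨k + l, ?_⟩
    have h1 : w ^ (k + l) * (x * y) = (w ^ k * x) * (w ^ l * y) := by ring
    rw [h1]
    exact mul_mem hk hl

/-- clearing denominators in an integral equation -/
theorem lev_scale {S : Set Ω} {w : Ω} (hw0 : w ≠ 0) {y : Ω} (hy : y ∈ icl (S ∪ {w, w⁻¹})) :
    ∃ m : ℕ, w ^ m * y ∈ icl (S ∪ {w}) := by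
  rw [lev_mem_icl] at hy
  obtain ⟨q, hq, hc, hx⟩ := lev_of_int hy
  have hw : w ∈ Subring.closure (S ∪ {w}) := Subring.subset_closure (Or.inr rfl)
  have h1 : ∀ i, ∃ k : ℕ, w ^ k * q.coeff i ∈ Subring.closure (S ∪ {w}) := by
    intro i
    refine lev_loc hw ?_ (hc i)
    rintro x (h | h | h)
    · exact ⟨0, by rw [pow_zero, one_mul]; exact Subring.subset_closure (Or.inl h)⟩
    · exact ⟨0, by rw [pow_zero, one_mul, h]; exact hw⟩
    · refine ⟨1, ?_⟩
      rw [pow_one, Set.mem_singleton_iff.1 h, mul_inv_cancel₀ hw0]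
      exact one_mem _
  choose k hk using h1
  refine ⟨(Finset.range (q.natDegree + 1)).sup k, ?_⟩
  set m := (Finset.range (q.natDegree + 1)).sup k with hm
  rw [lev_mem_icl]
  refine lev_int (q := q.scaleRoots (w ^ m)) ((Polynomial.monic_scaleRoots_iff _).2 hq)
    (fun i => ?_) ?_
  · rw [Polynomial.coeff_scaleRoots]
    by_cases hi : i < q.natDegree
    · have h2 : w ^ m * q.coeff i ∈ Subring.closure (S ∪ {w}) := by
        refine lev_pow_mem hw ?_ (hk i)
        rw [hm]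
        exact Finset.le_sup (f := k) (Finset.mem_range.2 (by omega))
      obtain ⟨j, hj⟩ := Nat.exists_eq_add_of_lt hi
      have h3 : q.coeff i * (w ^ m) ^ (q.natDegree - i) = (w ^ m) ^ j * (w ^ m * q.coeff i) := by
        have h4 : q.natDegree - i = j + 1 := by omega
        rw [h4, pow_succ]
        ring
      rw [h3]
      exact mul_mem (pow_mem (pow_mem hw _) _) h2
    · rcases (not_lt.1 hi).eq_or_lt with h5 | h5
      · rw [← h5, Nat.sub_self, pow_zero, mul_one, Polynomial.coeff_natDegree, hq.leadingCoeff]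
        exact one_mem _
      · rw [Polynomial.coeff_eq_zero_of_natDegree_lt h5, zero_mul]
        exact zero_mem _
  · have h6 : aeval (algebraMap Ω Ω (w ^ m) * y) (q.scaleRoots (w ^ m)) = 0 :=
      Polynomial.scaleRoots_aeval_eq_zero (by rw [Polynomial.coe_aeval_eq_eval]; exact hx)
    rw [Polynomial.coe_aeval_eq_eval] at h6
    exact h6

theorem lev_scale' {S : Set Ω} {w : Ω} (hw0 : w ≠ 0) (a : Finset Ω)
    (ha : ∀ y ∈ a, y ∈ icl (S ∪ {w, w⁻¹})) : ∃ m : ℕ, ∀ y ∈ a, w ^ m * y ∈ icl (S ∪ {w}) := by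
  have h : ∀ y, ∃ m : ℕ, y ∈ a → w ^ m * y ∈ icl (S ∪ {w}) := by
    intro y
    by_cases hy : y ∈ a
    · obtain ⟨m, hm⟩ := lev_scale hw0 (ha y hy)
      exact ⟨m, fun _ => hm⟩
    · exact ⟨0, fun h => absurd h hy⟩
  choose k hk using h
  refine ⟨a.sup k, fun y hy => ?_⟩
  have hw : w ∈ icl (S ∪ {w}) :=
    lev_closure_le (s := S ∪ {w}) (Subring.subset_closure (Or.inr (Set.mem_singleton w)))
  exact lev_pow_mem hw (Finset.le_sup (f := k) hy) (hk y hy)

/-- the ring `D` generated by `S`, `w` and finitely many elements which are integral over these: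
generated by finitely many elements as a module over the ring generated by `S` and `w` -/
theorem lev_ring (S : Set Ω) (w : Ω) (b : Finset Ω) (hb : ∀ x ∈ b, x ∈ icl (S ∪ {w})) :
    ∃ D : Subring Ω, D = Subring.closure (S ∪ {w} ∪ (b : Set Ω)) ∧
      ∃ G : Finset Ω, (∀ g ∈ G, g ∈ D) ∧
        ∀ d ∈ D, d ∈ Submodule.span (Subring.closure (S ∪ {w})) (G : Set Ω) := by
  obtain ⟨G, hG⟩ := fg_adjoin_of_finite (R := Subring.closure (S ∪ {w})) b.finite_toSet
    (fun x hx => hb x (Finset.mem_coe.1 hx))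
  have h1 : (Algebra.adjoin (Subring.closure (S ∪ {w})) (b : Set Ω)).toSubring =
      Subring.closure (S ∪ {w} ∪ (b : Set Ω)) := by
    rw [Algebra.adjoin_eq_ring_closure]
    refine le_antisymm (Subring.closure_le.2 ?_) (Subring.closure_le.2 ?_)
    · rintro x (⟨y, rfl⟩ | h)
      · exact Subring.closure_mono Set.subset_union_left y.2
      · exact Subring.subset_closure (Or.inr h)
    · rintro x (h | h)
      · exact Subring.subset_closure (Or.inl ⟨⟨x, Subring.subset_closure h⟩, rfl⟩)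
      · exact Subring.subset_closure (Or.inr h)
  refine ⟨_, rfl, G, fun g hg => ?_, fun d hd => ?_⟩
  · have h2 : g ∈ (Algebra.adjoin (Subring.closure (S ∪ {w})) (b : Set Ω)).toSubmodule := by
      rw [← hG]
      exact Submodule.subset_span hg
    rw [← h1]
    exact h2
  · rw [← h1] at hd
    rw [hG]
    exact hd

/-- elements of the ring generated by `S` and `w` are polynomials in `w` -/
theorem lev_poly {S : Set Ω} {w r : Ω} (hr : r ∈ Subring.closure (S ∪ {w})) :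
    ∃ f : (Subring.closure S)[X], aeval w f = r := by
  induction hr using Subring.closure_induction with
  | mem x h =>
    rcases h with h | h
    · refine ⟨C ⟨x, Subring.subset_closure h⟩, ?_⟩
      rw [Polynomial.aeval_C]
      rfl
    · refine ⟨X, ?_⟩
      rw [Polynomial.aeval_X, Set.mem_singleton_iff.1 h]
  | zero => exact ⟨0, by simp⟩
  | one => exact ⟨1, by simp⟩
  | add x y _ _ hx hy =>
    obtain ⟨f, rfl⟩ := hx
    obtain ⟨g, rfl⟩ := hy
    exact ⟨f + g, by simp⟩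
  | neg x _ hx =>
    obtain ⟨f, rfl⟩ := hx
    exact ⟨-f, by simp⟩
  | mul x y _ _ hx hy =>
    obtain ⟨f, rfl⟩ := hx
    obtain ⟨g, rfl⟩ := hy
    exact ⟨f * g, by simp⟩

end lev

theorem m_LEV : StLEV.{u} := by
  classical
  intro Ω _ A w hw0 n₀ a₁ a₂ a₁₂ hn₀ ha₁ ha₂ ha₁₂
  obtain ⟨s₁, hs₁, hs₁'⟩ := lev_desc' a₁ ha₁
  obtain ⟨s₂, hs₂, hs₂'⟩ := lev_desc' a₂ ha₂
  obtain ⟨s₃, hs₃, hs₃'⟩ := lev_desc' a₁₂ ha₁₂
  obtain ⟨S, hS⟩ : ∃ S : Finset Ω, S = n₀ ∪ (s₁ ∪ (s₂ ∪ s₃)) := ⟨_, rfl⟩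
  have hSA : ∀ x ∈ S, x ∈ A := by
    intro x hx
    rw [hS] at hx
    simp only [Finset.mem_union] at hx
    rcases hx with h | h | h | h
    · exact hn₀ x h
    · exact hs₁ x h
    · exact hs₂ x h
    · exact hs₃ x h
  have hn₀S : ∀ x ∈ n₀, x ∈ S := fun x hx => by rw [hS]; simp [hx]
  have hw0' : w⁻¹ ≠ 0 := inv_ne_zero hw0
  have e₁ : ∀ x ∈ a₁, x ∈ icl ((S : Set Ω) ∪ {w}) := fun x hx =>
    lev_mono (Set.union_subset_union_left _ (fun y hy => by
      rw [Finset.mem_coe] at hy ⊢; rw [hS]; simp [hy])) (hs₁' x hx)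
  have e₂ : ∀ x ∈ a₂, x ∈ icl ((S : Set Ω) ∪ {w⁻¹}) := fun x hx =>
    lev_mono (Set.union_subset_union_left _ (fun y hy => by
      rw [Finset.mem_coe] at hy ⊢; rw [hS]; simp [hy])) (hs₂' x hx)
  have e₃ : ∀ x ∈ a₁₂, x ∈ icl ((S : Set Ω) ∪ {w, w⁻¹}) := fun x hx =>
    lev_mono (Set.union_subset_union_left _ (fun y hy => by
      rw [Finset.mem_coe] at hy ⊢; rw [hS]; simp [hy])) (hs₃' x hx)
  have hsub₁ : (S : Set Ω) ∪ {w} ⊆ (S : Set Ω) ∪ {w, w⁻¹} :=
    Set.union_subset_union_right _ (by simp)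
  have hsub₂ : (S : Set Ω) ∪ {w⁻¹} ⊆ (S : Set Ω) ∪ {w, w⁻¹} :=
    Set.union_subset_union_right _ (by simp)
  have hpair : (S : Set Ω) ∪ {w, w⁻¹} = (S : Set Ω) ∪ {w⁻¹, w⁻¹⁻¹} := by
    rw [inv_inv, Set.pair_comm]
  obtain ⟨m₁, hm₁⟩ := lev_scale' hw0 (S := (S : Set Ω)) (a₂ ∪ a₁₂) (fun y hy => by
    rcases Finset.mem_union.1 hy with h | h
    · exact lev_mono hsub₂ (e₂ y h)
    · exact e₃ y h)
  obtain ⟨m₂, hm₂⟩ := lev_scale' hw0' (S := (S : Set Ω)) (a₁ ∪ a₁₂) (fun y hy => by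
    rw [← hpair]
    rcases Finset.mem_union.1 hy with h | h
    · exact lev_mono hsub₁ (e₁ y h)
    · exact e₃ y h)
  obtain ⟨D₁, hD₁, G₁, hG₁, hG₁'⟩ := lev_ring (S : Set Ω) w
    (a₁ ∪ (a₂ ∪ a₁₂).image (fun y => w ^ m₁ * y)) (fun x hx => by
      rcases Finset.mem_union.1 hx with h | h
      · exact e₁ x h
      · obtain ⟨y, hy, rfl⟩ := Finset.mem_image.1 h
        exact hm₁ y hy)
  obtain ⟨D₂, hD₂, G₂, hG₂, hG₂'⟩ := lev_ring (S : Set Ω) w⁻¹
    (a₂ ∪ (a₁ ∪ a₁₂).image (fun y => w⁻¹ ^ m₂ * y)) (fun x hx => by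
      rcases Finset.mem_union.1 hx with h | h
      · exact e₂ x h
      · obtain ⟨y, hy, rfl⟩ := Finset.mem_image.1 h
        exact hm₂ y hy)
  obtain ⟨D, hD⟩ : ∃ D : Subring Ω, D = Subring.closure
    ((S : Set Ω) ∪ {w, w⁻¹} ∪ ((a₁ ∪ (a₂ ∪ a₁₂) : Finset Ω) : Set Ω)) := ⟨_, rfl⟩
  have hSD : ∀ x ∈ S, x ∈ D := fun x hx => by
    rw [hD]; exact Subring.subset_closure (Or.inl (Or.inl hx))
  have hwD : w ∈ D := by rw [hD]; exact Subring.subset_closure (Or.inl (Or.inr (by simp)))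
  have hwD' : w⁻¹ ∈ D := by rw [hD]; exact Subring.subset_closure (Or.inl (Or.inr (by simp)))
  have haD : ∀ x ∈ a₁ ∪ (a₂ ∪ a₁₂), x ∈ D := fun x hx => by
    rw [hD]; exact Subring.subset_closure (Or.inr hx)
  have hwD₁ : w ∈ D₁ := by rw [hD₁]; exact Subring.subset_closure (Or.inl (Or.inr rfl))
  have hwD₂ : w⁻¹ ∈ D₂ := by rw [hD₂]; exact Subring.subset_closure (Or.inl (Or.inr rfl))
  have hSD₁ : ∀ x ∈ S, x ∈ D₁ := fun x hx => by
    rw [hD₁]; exact Subring.subset_closure (Or.inl (Or.inl hx))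
  have hSD₂ : ∀ x ∈ S, x ∈ D₂ := fun x hx => by
    rw [hD₂]; exact Subring.subset_closure (Or.inl (Or.inl hx))
  have hD₁D : D₁ ≤ D := by
    rw [hD₁]
    refine Subring.closure_le.2 ?_
    rintro x ((h | h) | h)
    · exact hSD x h
    · rw [Set.mem_singleton_iff.1 h]; exact hwD
    · rw [Finset.mem_coe] at h
      rcases Finset.mem_union.1 h with h | h
      · exact haD x (Finset.mem_union_left _ h)
      · obtain ⟨y, hy, rfl⟩ := Finset.mem_image.1 h
        exact mul_mem (pow_mem hwD _) (haD y (Finset.mem_union_right _ hy))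
  have hD₂D : D₂ ≤ D := by
    rw [hD₂]
    refine Subring.closure_le.2 ?_
    rintro x ((h | h) | h)
    · exact hSD x h
    · rw [Set.mem_singleton_iff.1 h]; exact hwD'
    · rw [Finset.mem_coe] at h
      rcases Finset.mem_union.1 h with h | h
      · exact haD x (Finset.mem_union_right _ (Finset.mem_union_left _ h))
      · obtain ⟨y, hy, rfl⟩ := Finset.mem_image.1 h
        refine mul_mem (pow_mem hwD' _) (haD y ?_)
        rcases Finset.mem_union.1 hy with h | h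
        · exact Finset.mem_union_left _ h
        · exact Finset.mem_union_right _ (Finset.mem_union_right _ h)
  have ha₁D₁ : ∀ x ∈ a₁, x ∈ D₁ := fun x hx => by
    rw [hD₁]
    exact Subring.subset_closure (Or.inr (Finset.mem_coe.2 (Finset.mem_union_left _ hx)))
  have ha₂D₂ : ∀ x ∈ a₂, x ∈ D₂ := fun x hx => by
    rw [hD₂]
    exact Subring.subset_closure (Or.inr (Finset.mem_coe.2 (Finset.mem_union_left _ hx)))
  -- every element of `D` comes into `D₁` and `D₂`
  have hloc₁ : ∀ x ∈ D, ∃ k : ℕ, w ^ k * x ∈ D₁ := by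
    intro x hx
    rw [hD] at hx
    refine lev_loc hwD₁ ?_ hx
    rintro y ((h | h | h) | h)
    · exact ⟨0, by rw [pow_zero, one_mul]; exact hSD₁ y h⟩
    · exact ⟨0, by rw [pow_zero, one_mul, h]; exact hwD₁⟩
    · refine ⟨1, ?_⟩
      rw [Set.mem_singleton_iff.1 h, pow_one, mul_inv_cancel₀ hw0]
      exact one_mem _
    · rw [Finset.mem_coe] at h
      rcases Finset.mem_union.1 h with h | h
      · exact ⟨0, by rw [pow_zero, one_mul]; exact ha₁D₁ y h⟩
      · refine ⟨m₁, ?_⟩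
        rw [hD₁]
        exact Subring.subset_closure (Or.inr (Finset.mem_coe.2 (Finset.mem_union_right _
          (Finset.mem_image.2 ⟨y, h, rfl⟩))))
  have hloc₂ : ∀ x ∈ D, ∃ k : ℕ, w⁻¹ ^ k * x ∈ D₂ := by
    intro x hx
    rw [hD] at hx
    refine lev_loc hwD₂ ?_ hx
    rintro y ((h | h | h) | h)
    · exact ⟨0, by rw [pow_zero, one_mul]; exact hSD₂ y h⟩
    · refine ⟨1, ?_⟩
      rw [h, pow_one, inv_mul_cancel₀ hw0]
      exact one_mem _
    · exact ⟨0, by rw [pow_zero, one_mul, Set.mem_singleton_iff.1 h]; exact hwD₂⟩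
    · rw [Finset.mem_coe] at h
      have himg : ∀ z ∈ a₁ ∪ a₁₂, ∃ k : ℕ, w⁻¹ ^ k * z ∈ D₂ := by
        intro z hz
        refine ⟨m₂, ?_⟩
        rw [hD₂]
        exact Subring.subset_closure (Or.inr (Finset.mem_coe.2 (Finset.mem_union_right _
          (Finset.mem_image.2 ⟨z, hz, rfl⟩))))
      rcases Finset.mem_union.1 h with h | h
      · exact himg y (Finset.mem_union_left _ h)
      · rcases Finset.mem_union.1 h with h | h
        · exact ⟨0, by rw [pow_zero, one_mul]; exact ha₂D₂ y h⟩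
        · exact himg y (Finset.mem_union_right _ h)
  -- the finite set of generators
  have hK : ∃ K : ℕ, ∀ g ∈ G₁, w⁻¹ ^ K * g ∈ D₂ := by
    have h : ∀ g, ∃ k : ℕ, g ∈ G₁ → w⁻¹ ^ k * g ∈ D₂ := by
      intro g
      by_cases hg : g ∈ G₁
      · obtain ⟨k, hk⟩ := hloc₂ g (hD₁D (hG₁ g hg))
        exact ⟨k, fun _ => hk⟩
      · exact ⟨0, fun h => absurd h hg⟩
    choose k hk using h
    exact ⟨G₁.sup k, fun g hg => lev_pow_mem hwD₂ (Finset.le_sup (f := k) hg) (hk g hg)⟩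
  obtain ⟨K, hK⟩ := hK
  obtain ⟨G, hG⟩ : ∃ G : Finset Ω, G = (Finset.range K ×ˢ G₁).image
    (fun q : ℕ × Ω => w⁻¹ ^ q.1 * q.2) := ⟨_, rfl⟩
  have hGD : ∀ x ∈ G, x ∈ D := by
    intro x hx
    rw [hG] at hx
    obtain ⟨q, hq, rfl⟩ := Finset.mem_image.1 hx
    exact mul_mem (pow_mem hwD' _) (hD₁D (hG₁ _ (Finset.mem_product.1 hq).2))
  have hA₀D₁ : Subring.closure (S : Set Ω) ≤ D₁ := Subring.closure_le.2 (fun x hx => hSD₁ x hx)
  have hA₀D₂ : Subring.closure (S : Set Ω) ≤ D₂ := Subring.closure_le.2 (fun x hx => hSD₂ x hx)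
  -- the predicate
  let Q : Ω → Prop := fun x => ∃ x₁ ∈ D₁, ∃ x₂ ∈ D₂,
    x - x₁ - x₂ ∈ Submodule.span (Subring.closure (S : Set Ω)) (G : Set Ω)
  have Qadd : ∀ x y, Q x → Q y → Q (x + y) := by
    rintro x y ⟨x₁, hx₁, x₂, hx₂, hx⟩ ⟨y₁, hy₁, y₂, hy₂, hy⟩
    refine ⟨x₁ + y₁, add_mem hx₁ hy₁, x₂ + y₂, add_mem hx₂ hy₂, ?_⟩
    have h : x + y - (x₁ + y₁) - (x₂ + y₂) = (x - x₁ - x₂) + (y - y₁ - y₂) := by ring
    rw [h]
    exact add_mem hx hy
  have Qzero : Q 0 := ⟨0, zero_mem _, 0, zero_mem _, by simp⟩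
  have Qsmul : ∀ (a : Subring.closure (S : Set Ω)) (x : Ω), Q x → Q ((a : Ω) * x) := by
    rintro a x ⟨x₁, hx₁, x₂, hx₂, hx⟩
    refine ⟨a * x₁, mul_mem (hA₀D₁ a.2) hx₁, a * x₂, mul_mem (hA₀D₂ a.2) hx₂, ?_⟩
    have h : (a : Ω) * x - a * x₁ - a * x₂ = a • (x - x₁ - x₂) := by
      rw [Subring.smul_def, smul_eq_mul]
      ring
    rw [h]
    exact Submodule.smul_mem _ _ hx
  have Qmon : ∀ (j i : ℕ), ∀ g ∈ G₁, Q (w⁻¹ ^ j * (w ^ i * g)) := by
    intro j i g hg
    rcases le_or_gt j i with h | h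
    · refine ⟨w⁻¹ ^ j * (w ^ i * g), ?_, 0, zero_mem _, by simp⟩
      have h1 : w⁻¹ ^ j * (w ^ i * g) = w ^ (i - j) * g := by
        obtain ⟨l, rfl⟩ := Nat.exists_eq_add_of_le h
        rw [Nat.add_sub_cancel_left, pow_add, inv_pow, ← mul_assoc, ← mul_assoc,
          inv_mul_cancel₀ (pow_ne_zero _ hw0), one_mul]
      rw [h1]
      exact mul_mem (pow_mem hwD₁ _) (hG₁ g hg)
    · have h1 : w⁻¹ ^ j * (w ^ i * g) = w⁻¹ ^ (j - i) * g := by
        obtain ⟨l, rfl⟩ := Nat.exists_eq_add_of_le h.le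
        rw [Nat.add_sub_cancel_left, pow_add, mul_comm (w⁻¹ ^ i) (w⁻¹ ^ l), mul_assoc,
          ← mul_assoc (w⁻¹ ^ i), ← mul_pow, inv_mul_cancel₀ hw0, one_pow, one_mul]
      rw [h1]
      rcases le_or_gt K (j - i) with h2 | h2
      · exact ⟨0, zero_mem _, _, lev_pow_mem hwD₂ h2 (hK g hg), by simp⟩
      · refine ⟨0, zero_mem _, 0, zero_mem _, ?_⟩
        rw [sub_zero, sub_zero]
        refine Submodule.subset_span ?_
        rw [Finset.mem_coe, hG]
        exact Finset.mem_image.2 ⟨(j - i, g), Finset.mem_product.2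
          ⟨Finset.mem_range.2 h2, hg⟩, rfl⟩
  have Qpol : ∀ (j : ℕ) (f : (Subring.closure (S : Set Ω))[X]), ∀ g ∈ G₁,
      Q (w⁻¹ ^ j * (aeval w f * g)) := by
    intro j f g hg
    induction f using Polynomial.induction_on' with
    | add f f' hf hf' =>
      have h : w⁻¹ ^ j * (aeval w (f + f') * g) =
          w⁻¹ ^ j * (aeval w f * g) + w⁻¹ ^ j * (aeval w f' * g) := by
        rw [map_add]
        ring
      rw [h]
      exact Qadd _ _ hf hf'
    | monomial i a =>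
      have h : w⁻¹ ^ j * (aeval w (monomial i a) * g) = (a : Ω) * (w⁻¹ ^ j * (w ^ i * g)) := by
        rw [Polynomial.aeval_monomial]
        have h' : algebraMap (Subring.closure (S : Set Ω)) Ω a = (a : Ω) := rfl
        rw [h']
        ring
      rw [h]
      exact Qsmul a _ (Qmon j i g hg)
  have Qspan : ∀ (j : ℕ), ∀ d ∈ Submodule.span (Subring.closure ((S : Set Ω) ∪ {w}))
      (G₁ : Set Ω), ∀ r ∈ Subring.closure ((S : Set Ω) ∪ {w}), Q (w⁻¹ ^ j * (r * d)) := by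
    intro j d hd
    induction hd using Submodule.span_induction with
    | mem g hg =>
      intro r hr
      obtain ⟨f, rfl⟩ := lev_poly hr
      exact Qpol j f g hg
    | zero =>
      intro r _
      rw [mul_zero, mul_zero]
      exact Qzero
    | add x y _ _ hx hy =>
      intro r hr
      have h : w⁻¹ ^ j * (r * (x + y)) = w⁻¹ ^ j * (r * x) + w⁻¹ ^ j * (r * y) := by ring
      rw [h]
      exact Qadd _ _ (hx r hr) (hy r hr)
    | smul a x _ hx =>
      intro r hr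
      have h : w⁻¹ ^ j * (r * (a • x)) = w⁻¹ ^ j * ((r * a) * x) := by
        rw [Subring.smul_def, smul_eq_mul]
        ring
      rw [h]
      exact hx _ (mul_mem hr a.2)
  refine ⟨Subring.closure (S : Set Ω), D₁, D₂, D, Subring.closure_le.2 (fun x hx => hSA x hx),
    is_noetherian_subring_closure _ S.finite_toSet, hA₀D₁, hA₀D₂, hD₁D, hD₂D, ?_, ?_,
    fun x hx => Subring.subset_closure (hn₀S x hx), ha₁D₁, ha₂D₂,
    fun x hx => haD x (Finset.mem_union_right _ (Finset.mem_union_right _ hx)), G, hGD, ?_⟩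
  · have hle : icl ((S : Set Ω) ∪ {w}) ≤ icl ((A : Set Ω) ∪ {w}) :=
      lev_mono (Set.union_subset_union_left _ (fun x hx => hSA x hx))
    rw [hD₁]
    refine Subring.closure_le.2 ?_
    rintro x (h | h)
    · exact hle (lev_closure_le (Subring.subset_closure h))
    · rw [Finset.mem_coe] at h
      rcases Finset.mem_union.1 h with h | h
      · exact hle (e₁ x h)
      · obtain ⟨y, hy, rfl⟩ := Finset.mem_image.1 h
        exact hle (hm₁ y hy)
  · have hle : icl ((S : Set Ω) ∪ {w⁻¹}) ≤ icl ((A : Set Ω) ∪ {w⁻¹}) :=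
      lev_mono (Set.union_subset_union_left _ (fun x hx => hSA x hx))
    rw [hD₂]
    refine Subring.closure_le.2 ?_
    rintro x (h | h)
    · exact hle (lev_closure_le (Subring.subset_closure h))
    · rw [Finset.mem_coe] at h
      rcases Finset.mem_union.1 h with h | h
      · exact hle (e₂ x h)
      · obtain ⟨y, hy, rfl⟩ := Finset.mem_image.1 h
        exact hle (hm₂ y hy)
  · intro x hx
    obtain ⟨k, hk⟩ := hloc₁ x hx
    have h := Qspan k _ (hG₁' _ hk) 1 (one_mem _)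
    have h1 : w⁻¹ ^ k * (1 * (w ^ k * x)) = x := by
      rw [one_mul, ← mul_assoc, ← mul_pow, inv_mul_cancel₀ hw0, one_pow, one_mul]
    rw [h1] at h
    exact h

end Pool.Agent.Helper44.SPL
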