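import Pool.Agent.Helper44.SPL.St

/-!
# Module LG
-/

set_option autoImplicit false

namespace Pool.Agent.Helper44.SPL

universe u

private theorem LG_ker (p : ℕ) [Fact p.Prime] {O : Type u} [CommRing O] [CharP O p]
    [PerfectRing O p] (x : WittVector p O) (h : x.coeff 0 = 0) :
    ∃ t, x = (p : WittVector p O) * t := by
  have h1 : WittVector.verschiebung (x.shift 1) = x := by
    have h2 := WittVector.verschiebung_shift x 0 (by
      intro i hi
      have : i = 0 := by omega
      rw [this]
      exact h)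
    have h3 : x.shift 0 = x := by
      ext n
      rw [WittVector.shift_coeff, Nat.zero_add]
    rw [h3] at h2
    exact h2
  obtain ⟨t, ht⟩ := (WittVector.frobenius_bijective p O).2 (x.shift 1)
  refine ⟨t, ?_⟩
  rw [mul_comm, ← WittVector.verschiebung_frobenius, ht, h1]

private theorem LG_coeff_p_mul (p : ℕ) [Fact p.Prime] {O : Type u} [CommRing O] [CharP O p]
    (x : WittVector p O) : ((p : WittVector p O) * x).coeff 0 = 0 := by
  rw [mul_comm]
  exact WittVector.mul_charP_coeff_zero x

private theorem LG_step (p : ℕ) [Fact p.Prime] {O : Type u} [CommRing O] [IsDomain O]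
    [CharP O p] [PerfectRing O p] (ϖ : O) (hϖ : ϖ ≠ 0) (z : WittVector p O)
    (h : ∀ M : ℕ, ∃ x y : WittVector p O, WittVector.teichmuller p ϖ * z =
      ((p : WittVector p O) - WittVector.teichmuller p ϖ) * x + (p : WittVector p O) ^ M * y) :
    ∀ M : ℕ, ∃ x y : WittVector p O, z =
      ((p : WittVector p O) - WittVector.teichmuller p ϖ) * x + (p : WittVector p O) ^ M * y := by
  intro M
  obtain ⟨x, y, hxy⟩ := h (M + 1)
  have e1 : WittVector.teichmuller p ϖ * (z + x) =
      (p : WittVector p O) * (x + (p : WittVector p O) ^ M * y) := by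
    rw [mul_add, hxy]
    ring
  have e2 : (z + x).coeff 0 = 0 := by
    have e3 := congrArg (fun w : WittVector p O => w.coeff 0) e1
    simp only [LG_coeff_p_mul] at e3
    rw [WittVector.mul_coeff_zero, WittVector.teichmuller_coeff_zero] at e3
    exact (mul_eq_zero.1 e3).resolve_left hϖ
  obtain ⟨t, ht⟩ := LG_ker p (z + x) e2
  have hp : (p : WittVector p O) ≠ 0 := WittVector.p_nonzero p O
  have e4 : WittVector.teichmuller p ϖ * t = x + (p : WittVector p O) ^ M * y := by
    apply mul_left_cancel₀ hp
    rw [← e1, ht]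
    ring
  refine ⟨t, y, ?_⟩
  linear_combination ht + e4

private theorem LG_descent (p : ℕ) [Fact p.Prime] {O : Type u} [CommRing O] [IsDomain O]
    [CharP O p] [PerfectRing O p] (ϖ : O) (hϖ : ϖ ≠ 0) (j : ℕ) : ∀ z : WittVector p O,
    (∀ M : ℕ, ∃ x y : WittVector p O, WittVector.teichmuller p ϖ ^ j * z =
      ((p : WittVector p O) - WittVector.teichmuller p ϖ) * x + (p : WittVector p O) ^ M * y) →
    ∀ M : ℕ, ∃ x y : WittVector p O, z =
      ((p : WittVector p O) - WittVector.teichmuller p ϖ) * x + (p : WittVector p O) ^ M * y := by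
  induction j with
  | zero =>
    intro z h
    simpa only [pow_zero, one_mul] using h
  | succ j ih =>
    intro z h
    apply LG_step p ϖ hϖ z
    apply ih
    intro M
    obtain ⟨x, y, hxy⟩ := h M
    refine ⟨x, y, ?_⟩
    rw [← hxy]
    ring

theorem m_LG : StLG.{u} := by
  intro p _ O _ _ _ _ ϖ v hv hdvd a b c h
  by_contra hcon
  push Not at hcon
  have hca : v a < v c := lt_of_le_of_lt (le_max_left _ _) hcon
  have hcb : v b < v c := lt_of_le_of_lt (le_max_right _ _) hcon
  have hc0 : 0 < v c := lt_of_le_of_lt (hv.nonneg a) hca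
  have hϖ : ϖ ≠ 0 := by
    intro h0
    have := hv.pi
    rw [h0, hv.zero] at this
    norm_num at this
  have hpow : ∀ j : ℕ, v (ϖ ^ j) = (1 / 2 : ℝ) ^ j := by
    intro j
    induction j with
    | zero => rw [pow_zero, pow_zero, hv.one]
    | succ j ih => rw [pow_succ, hv.mul, ih, hv.pi, pow_succ]
  obtain ⟨j, hj1, hj2⟩ := exists_nat_pow_near_of_lt_one hc0 (hv.le_one c)
    (by norm_num : (0 : ℝ) < 1 / 2) (by norm_num)
  obtain ⟨c', hc'⟩ := hdvd c (ϖ ^ j) (by rw [hpow]; exact hj2)
  obtain ⟨a', ha'⟩ := hdvd a c hca.le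
  obtain ⟨b', hb'⟩ := hdvd b c hcb.le
  have hvc' : 1 / 2 < v c' := by
    have h1 : v c = (1 / 2 : ℝ) ^ j * v c' := by rw [hc', hv.mul, hpow]
    rw [h1, pow_succ] at hj1
    exact lt_of_mul_lt_mul_left hj1 (by positivity)
  have hva' : v a' < 1 := by
    have h1 : v a = v c * v a' := by rw [ha', hv.mul]
    rw [h1] at hca
    by_contra h2
    push Not at h2
    have := mul_le_mul_of_nonneg_left h2 hc0.le
    linarith
  have hvb' : v b' < 1 := by
    have h1 : v b = v c * v b' := by rw [hb', hv.mul]
    rw [h1] at hcb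
    by_contra h2
    push Not at h2
    have := mul_le_mul_of_nonneg_left h2 hc0.le
    linarith
  have hu : 1 ≤ v (1 - a' - b') := by
    have h1 : v 1 ≤ max (v (1 - a' - b')) (v (a' + b')) := by
      have h2 := hv.add (1 - a' - b') (a' + b')
      have h3 : 1 - a' - b' + (a' + b') = 1 := by ring
      rw [h3] at h2
      exact h2
    rw [hv.one] at h1
    rcases le_max_iff.1 h1 with h2 | h2
    · exact h2
    · have h3 := hv.add a' b'
      have h4 := max_lt hva' hvb'
      linarith
  have hdes := LG_descent p ϖ hϖ j (WittVector.teichmuller p c' *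
    (1 - WittVector.teichmuller p a' - WittVector.teichmuller p b')) (by
      intro M
      obtain ⟨x, y, hxy⟩ := h M
      refine ⟨x, y, ?_⟩
      rw [← hxy, ha', hb', map_mul, map_mul, hc', map_mul, map_pow]
      ring)
  obtain ⟨x, y, hxy⟩ := hdes 1
  have e1 : c' * (1 - a' - b') = ϖ * (-(x.coeff 0)) := by
    have e2 := congrArg (WittVector.constantCoeff (p := p) (R := O)) hxy
    rw [map_mul, map_sub, map_sub, map_one, map_add, map_mul, map_sub, map_mul, map_pow,
      map_natCast, CharP.cast_eq_zero] at e2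
    have t : ∀ w : O, WittVector.constantCoeff (WittVector.teichmuller p w) = w := fun w =>
      WittVector.teichmuller_coeff_zero p w
    rw [t, t, t, t] at e2
    have t2 : WittVector.constantCoeff x = x.coeff 0 := rfl
    rw [t2] at e2
    rw [e2]
    ring
  have e3 : v (c' * (1 - a' - b')) ≤ 1 / 2 := by
    rw [e1, hv.mul, hv.pi]
    have := hv.le_one (-(x.coeff 0))
    linarith
  rw [hv.mul] at e3
  have e4 : v c' * 1 ≤ v c' * v (1 - a' - b') := mul_le_mul_of_nonneg_left hu (hv.nonneg _)
  linarith

end Pool.Agent.Helper44.SPL
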