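import Pool.Agent.Helper44.SPL.St

/-! Project SPL, module LI: a criterion for integrality over `A[X]`. -/

set_option autoImplicit false

namespace Pool.Agent.Helper44.SPL

open Polynomial

universe u

private theorem LI_sub {Ω : Type u} [Field Ω] (s : Set Ω) {x : Ω} (hx : x ∈ s) : x ∈ icl s := by
  have h1 : x ∈ Subring.closure s := Subring.subset_closure hx
  exact isIntegral_algebraMap (R := Subring.closure s) (A := Ω) (x := ⟨x, h1⟩)

private theorem LI_trans {Ω : Type u} [Field Ω] (s : Set Ω) {x : Ω}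
    (hx : IsIntegral (icl s) x) : x ∈ icl s := by
  have h1 : IsIntegral (integralClosure (Subring.closure s) Ω) x := hx
  exact isIntegral_trans (R := Subring.closure s) (A := integralClosure (Subring.closure s) Ω) x h1

private theorem LI_min {Ω : Type u} [Field Ω] (s t : Set Ω) (h : ∀ x ∈ s, x ∈ icl t) :
    icl s ≤ icl t := by
  intro x hx
  have h1 : Subring.closure s ≤ icl t := Subring.closure_le.2 h
  obtain ⟨f, hf, hfx⟩ := (hx : IsIntegral (Subring.closure s) x)
  apply LI_trans
  refine ⟨f.map (Subring.inclusion h1), hf.map _, ?_⟩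
  rw [eval₂_map]
  exact hfx

private theorem LI_monic {Ω : Type u} [Field Ω] (s : Set Ω) (F : Polynomial Ω) (hm : F.Monic)
    (hF : ∀ i, F.coeff i ∈ icl s) (b : Ω) (hb : F.eval b = 0) : b ∈ icl s := by
  have h1 : F ∈ Polynomial.lifts (icl s).subtype := by
    rw [Polynomial.lifts_iff_coeff_lifts]
    intro n
    exact ⟨⟨F.coeff n, hF n⟩, rfl⟩
  obtain ⟨G, hG, -, hGm⟩ := Polynomial.lifts_and_natDegree_eq_and_monic h1 hm
  apply LI_trans
  refine ⟨G, hGm, ?_⟩
  have h2 : eval₂ (algebraMap (icl s) Ω) b G = (G.map (icl s).subtype).eval b := by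
    rw [eval_map]
    rfl
  rw [h2, hG, hb]

private theorem LI_eval {Ω : Type u} [Field Ω] (R : Subring Ω) (F : Polynomial Ω)
    (hF : ∀ i, F.coeff i ∈ R) (b : Ω) (hb : b ∈ R) : F.eval b ∈ R := by
  rw [eval_eq_sum_range]
  exact R.sum_mem fun i _ => R.mul_mem (hF i) (R.pow_mem hb i)

private theorem LI_ev {Ω : Type u} [Field Ω] (A R : Subring Ω) (hA : A ≤ R) (b : Ω) (hb : b ∈ R)
    (f : A[X]) : eval₂ A.subtype b f ∈ R := by
  rw [eval₂_eq_sum_range]
  exact R.sum_mem fun i _ => R.mul_mem (hA (f.coeff i).2) (R.pow_mem hb i)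

private theorem LI_nu {Ω : Type u} [Field Ω] (T : Subring Ω) [IsLocalRing T] (c : T) :
    (c : Ω) ∈ nu T ↔ c ∈ IsLocalRing.maximalIdeal T := by
  rw [IsLocalRing.mem_maximalIdeal, mem_nonunits_iff]
  constructor
  · rintro ⟨-, h⟩ hu
    obtain ⟨d, hd⟩ := hu.exists_right_inv
    have hd' : (c : Ω) * (d : Ω) = 1 := by
      have := congrArg (Subtype.val) hd
      simpa using this
    rcases h with h | h
    · rw [h, zero_mul] at hd'
      exact zero_ne_one hd'
    · apply h
      rw [← eq_inv_of_mul_eq_one_right hd']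
      exact d.2
  · intro hu
    refine ⟨c.2, ?_⟩
    by_contra hcon
    push Not at hcon
    apply hu
    refine IsUnit.of_mul_eq_one ⟨(c : Ω)⁻¹, hcon.2⟩ ?_
    apply Subtype.ext
    simp only [Subring.coe_mul, Subring.coe_one]
    exact mul_inv_cancel₀ hcon.1

theorem m_LI (h1 : StNI.{u}) (_h2 : StSEID.{u}) : StLI.{u} := by
  intro Ω _ _ T A hT hIC hPV X hX hX' u hu M hM hq
  have hTl : IsLocalRing T := hT
  set D := icl ((T : Set Ω) ∪ {X}) with hD
  set E := icl ((A : Set Ω) ∪ {X}) with hE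
  have hTD : T ≤ D := fun x hx => LI_sub _ (Or.inl hx)
  have hXD : X ∈ D := LI_sub _ (Or.inr rfl)
  have hAE : A ≤ E := fun x hx => LI_sub _ (Or.inl hx)
  have hXE : X ∈ E := LI_sub _ (Or.inr rfl)
  have hED : E ≤ D := by
    apply LI_min
    rintro x (hx | hx)
    · exact hTD (hPV.le hx)
    · rw [Set.mem_singleton_iff] at hx
      rw [hx]
      exact hXD
  -- the multiplicative set of denominators
  have hP1 : (1 : Ω) ∈ A ∧ (1 : Ω) ∉ nu T := by
    refine ⟨A.one_mem, ?_⟩
    rintro ⟨-, h | h⟩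
    · exact one_ne_zero h
    · rw [inv_one] at h
      exact h T.one_mem
  have hPmul : ∀ s t : Ω, s ∈ A → s ∉ nu T → t ∈ A → t ∉ nu T → s * t ∈ A ∧ s * t ∉ nu T := by
    intro s t hs hs' ht ht'
    refine ⟨A.mul_mem hs ht, fun hst => ?_⟩
    have e1 := (LI_nu T ⟨s * t, hPV.le (A.mul_mem hs ht)⟩).1 hst
    have e2 : (⟨s * t, hPV.le (A.mul_mem hs ht)⟩ : T) = ⟨s, hPV.le hs⟩ * ⟨t, hPV.le ht⟩ := rfl
    rw [e2] at e1
    rcases (IsLocalRing.maximalIdeal.isMaximal T).isPrime.mem_or_mem e1 with h | h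
    · exact hs' ((LI_nu T ⟨s, hPV.le hs⟩).2 h)
    · exact ht' ((LI_nu T ⟨t, hPV.le ht⟩).2 h)
  -- elements with a denominator
  let D' : Subring Ω :=
    { carrier := {d | ∃ s, s ∈ A ∧ s ∉ nu T ∧ s * d ∈ E}
      mul_mem' := by
        rintro a b ⟨s, hs, hs', hsa⟩ ⟨t, ht, ht', htb⟩
        obtain ⟨h3, h4⟩ := hPmul s t hs hs' ht ht'
        refine ⟨s * t, h3, h4, ?_⟩
        have : s * t * (a * b) = (s * a) * (t * b) := by ring
        rw [this]
        exact E.mul_mem hsa htb
      one_mem' := ⟨1, hP1.1, hP1.2, by rw [one_mul]; exact E.one_mem⟩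
      add_mem' := by
        rintro a b ⟨s, hs, hs', hsa⟩ ⟨t, ht, ht', htb⟩
        obtain ⟨h3, h4⟩ := hPmul s t hs hs' ht ht'
        refine ⟨s * t, h3, h4, ?_⟩
        have : s * t * (a + b) = t * (s * a) + s * (t * b) := by ring
        rw [this]
        exact E.add_mem (E.mul_mem (hAE ht) hsa) (E.mul_mem (hAE hs) htb)
      zero_mem' := ⟨1, hP1.1, hP1.2, by rw [mul_zero]; exact E.zero_mem⟩
      neg_mem' := by
        rintro a ⟨s, hs, hs', hsa⟩
        refine ⟨s, hs, hs', ?_⟩
        rw [mul_neg]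
        exact E.neg_mem hsa }
  have hTD' : ∀ c ∈ T, c ∈ D' := by
    intro c hc
    by_cases hcA : c ∈ A
    · exact ⟨1, hP1.1, hP1.2, by rw [one_mul]; exact hAE hcA⟩
    · have hc0 : c ≠ 0 := fun h => hcA (h ▸ A.zero_mem)
      have hcn : c ∉ nu T := fun h => hcA (hPV.nu_sub h)
      have hci : c⁻¹ ∈ A := (hPV.val c hc).resolve_left hcA
      refine ⟨c⁻¹, hci, ?_, ?_⟩
      · rintro ⟨-, h | h⟩
        · exact inv_ne_zero hc0 h
        · rw [inv_inv] at h
          exact h hc
      · rw [inv_mul_cancel₀ hc0]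
        exact E.one_mem
  have hXD' : X ∈ D' := ⟨1, hP1.1, hP1.2, by rw [one_mul]; exact hXE⟩
  have hcl : Subring.closure ((T : Set Ω) ∪ {X}) ≤ D' := by
    rw [Subring.closure_le]
    rintro x (hx | hx)
    · exact hTD' x hx
    · rw [Set.mem_singleton_iff] at hx
      rw [hx]
      exact hXD'
  -- every element of `D` has a denominator
  have hden : ∀ d ∈ D, ∃ s, s ∈ A ∧ s ∉ nu T ∧ s * d ∈ E := by
    intro d hd
    obtain ⟨f, hf, hfd⟩ := (hd : IsIntegral (Subring.closure ((T : Set Ω) ∪ {X})) d)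
    have hcom : ∀ t : Finset ℕ, ∃ s, s ∈ A ∧ s ∉ nu T ∧
        ∀ i ∈ t, s * (f.coeff i : Ω) ∈ E := by
      intro t
      induction t using Finset.induction_on with
      | empty => exact ⟨1, hP1.1, hP1.2, fun i hi => absurd hi (Finset.notMem_empty i)⟩
      | insert j t _ ih =>
        obtain ⟨s, hs, hs', hst⟩ := ih
        obtain ⟨r, hr, hr', hrj⟩ := hcl (f.coeff j).2
        obtain ⟨h3, h4⟩ := hPmul s r hs hs' hr hr'
        refine ⟨s * r, h3, h4, fun i hi => ?_⟩
        rcases Finset.mem_insert.1 hi with h | h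
        · rw [h, mul_assoc]
          exact E.mul_mem (hAE hs) hrj
        · have : s * r * (f.coeff i : Ω) = r * (s * (f.coeff i : Ω)) := by ring
          rw [this]
          exact E.mul_mem (hAE hr) (hst i h)
    obtain ⟨s, hs, hs', hst⟩ := hcom (Finset.range f.natDegree)
    refine ⟨s, hs, hs', ?_⟩
    set g := f.map (Subring.closure ((T : Set Ω) ∪ {X})).subtype with hg
    have hgm : g.Monic := hf.map _
    have hgd : g.natDegree = f.natDegree := hf.natDegree_map _
    have hgd0 : g.eval d = 0 := by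
      rw [hg, eval_map]
      exact hfd
    refine LI_monic _ (g.scaleRoots s) ((monic_scaleRoots_iff s).2 hgm) (fun i => ?_) (s * d) ?_
    · rw [coeff_scaleRoots]
      rcases lt_trichotomy i g.natDegree with h | h | h
      · obtain ⟨k, hk⟩ := Nat.exists_eq_add_of_lt h
        have h5 : g.natDegree - i = k + 1 := by omega
        rw [h5, pow_succ', ← mul_assoc, mul_comm (g.coeff i) s]
        refine E.mul_mem ?_ (E.pow_mem (hAE hs) k)
        rw [hg, coeff_map]
        exact hst i (Finset.mem_range.2 (by omega))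
      · rw [h, hgm.coeff_natDegree, Nat.sub_self, pow_zero, one_mul]
        exact E.one_mem
      · rw [coeff_eq_zero_of_natDegree_lt h, zero_mul]
        exact E.zero_mem
    · have h6 := scaleRoots_eval₂_mul (p := g) (f := RingHom.id Ω) (r := d) (s := s)
      simp only [RingHom.id_apply, eval₂_id] at h6
      rw [h6, hgd0, mul_zero]
  -- the extension of `nu T` is contained in `E`
  have hinv : ∀ s ∈ A, s ∉ nu T → s ≠ 0 ∧ s⁻¹ ∈ T := by
    intro s hs hs'
    by_contra hcon
    apply hs'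
    refine ⟨hPV.le hs, ?_⟩
    by_contra hcon2
    push Not at hcon2
    exact hcon hcon2
  have hext' : ∀ z ∈ ext (nu T) D, ∀ d ∈ D, d * z ∈ E := by
    intro z hz
    induction hz using Submodule.span_induction with
    | mem n hn =>
      intro d hd
      obtain ⟨s, hs, hs', hsd⟩ := hden d hd
      obtain ⟨hs0, hsi⟩ := hinv s hs hs'
      have e1 : (⟨n, hn.1⟩ : T) * ⟨s⁻¹, hsi⟩ ∈ IsLocalRing.maximalIdeal T :=
        Ideal.mul_mem_right _ _ ((LI_nu T ⟨n, hn.1⟩).1 hn)
      have e2 := (LI_nu T _).2 e1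
      have e3 : n * s⁻¹ ∈ A := hPV.nu_sub e2
      have e4 : d * n = (s * d) * (n * s⁻¹) := by
        field_simp
      rw [e4]
      exact E.mul_mem hsd (hAE e3)
    | zero => intro d _; rw [mul_zero]; exact E.zero_mem
    | add x y _ _ hx hy => intro d hd; rw [mul_add]; exact E.add_mem (hx d hd) (hy d hd)
    | smul c x _ hx =>
      intro d hd
      have e1 : d * (c • x) = (d * (c : Ω)) * x := by
        rw [mul_assoc]
        rfl
      rw [e1]
      exact hx _ (D.mul_mem hd c.2)
  have hext : ∀ z ∈ ext (nu T) D, z ∈ E := by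
    intro z hz
    have := hext' z hz 1 D.one_mem
    rwa [one_mul] at this
  -- the value of `M`
  set F : Polynomial Ω := M.map (Polynomial.eval₂RingHom A.subtype X) with hF
  set w : Ω := ev2 A.subtype M X u with hw
  have hwF : w = F.eval u := rfl
  have hFE : ∀ i, F.coeff i ∈ E := by
    intro i
    rw [hF, coeff_map]
    exact LI_ev A E hAE X hXE _
  have hwD : w ∈ D := by
    rw [hwF]
    exact LI_eval D F (fun i => hED (hFE i)) u hu
  -- some power of `w` is in `nu T D`
  let I : Ideal D := (Submodule.span D (nu T)).comap (Algebra.linearMap D Ω)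
  have hI : ∀ x : D, x ∈ I ↔ (x : Ω) ∈ ext (nu T) D := fun x => Iff.rfl
  have hmp : (IsLocalRing.maximalIdeal T).IsPrime := (IsLocalRing.maximalIdeal.isMaximal T).isPrime
  have hpr : ((IsLocalRing.maximalIdeal T).map (C : T →+* T[X])).IsPrime :=
    Ideal.isPrime_map_C_of_isPrime
  have hgauss : ∀ f g : T[X], (∃ i, (f.coeff i : Ω) ∉ nu T) → (∃ i, (g.coeff i : Ω) ∉ nu T) →
      ∃ i, ((f * g).coeff i : Ω) ∉ nu T := by
    intro f g hf hg
    by_contra hcon
    push Not at hcon
    have e1 : f * g ∈ (IsLocalRing.maximalIdeal T).map (C : T →+* T[X]) := by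
      rw [Ideal.mem_map_C_iff]
      exact fun n => (LI_nu T _).1 (hcon n)
    rcases hpr.mem_or_mem e1 with h | h
    · rw [Ideal.mem_map_C_iff] at h
      obtain ⟨i, hi⟩ := hf
      exact hi ((LI_nu T _).2 (h i))
    · rw [Ideal.mem_map_C_iff] at h
      obtain ⟨i, hi⟩ := hg
      exact hi ((LI_nu T _).2 (h i))
  let S : Submonoid D :=
    { carrier := {x | ∃ (f : T[X]) (N : ℕ), (∃ i, (f.coeff i : Ω) ∉ nu T) ∧
        (x : Ω) = aeval X f * w ^ N}
      mul_mem' := by
        rintro a b ⟨f, N, hf, ha⟩ ⟨g, N', hg, hb⟩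
        refine ⟨f * g, N + N', hgauss f g hf hg, ?_⟩
        rw [Subring.coe_mul, ha, hb, map_mul, pow_add]
        ring
      one_mem' := by
        refine ⟨1, 0, ⟨0, ?_⟩, by simp⟩
        rw [coeff_one_zero]
        exact hP1.2 }
  have hTX : ∀ f : T[X], aeval X f ∈ D := fun f => LI_ev T D hTD X hXD f
  have hpow : ∃ N' : ℕ, w ^ N' ∈ ext (nu T) D := by
    by_cases hdis : Disjoint (I : Set D) (S : Set D)
    · exfalso
      obtain ⟨q, hqp, hIq, hqS⟩ := Ideal.exists_le_prime_disjoint I S hdis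
      have hgen : Gen T D X q := by
        refine ⟨hqp, fun f h => ⟨fun hfq => ?_, fun hc => ?_⟩⟩
        · by_contra hcon
          push Not at hcon
          have e1 : (⟨aeval X f, h⟩ : D) ∈ S := ⟨f, 0, hcon, by simp⟩
          exact Set.disjoint_left.1 hqS hfq e1
        · apply hIq
          rw [hI]
          show aeval X f ∈ ext (nu T) D
          rw [aeval_eq_sum_range]
          refine Submodule.sum_mem _ fun i _ => ?_
          have e2 : f.coeff i • X ^ i = (⟨X ^ i, D.pow_mem hXD i⟩ : D) • ((f.coeff i : T) : Ω) := by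
            show (f.coeff i : Ω) * X ^ i = X ^ i * (f.coeff i : Ω)
            ring
          rw [e2]
          exact Submodule.smul_mem _ _ (Submodule.subset_span (hc i))
      have e3 := hq q hgen hwD
      have e4 : (⟨w, hwD⟩ : D) ∈ S := by
        refine ⟨1, 1, ⟨0, ?_⟩, by simp⟩
        rw [coeff_one_zero]
        exact hP1.2
      exact Set.disjoint_left.1 hqS e3 e4
    · rw [Set.not_disjoint_iff] at hdis
      obtain ⟨x, hxI, f, N, hf, hx⟩ := hdis
      have e1 : aeval X f * w ^ N ∈ ext (nu T) D := by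
        rw [← hx]
        exact hxI
      exact h1 Ω T hTl hIC X hX hX' w hwD f N hf e1
  obtain ⟨N, hN⟩ := hpow
  have hwE : w ^ N ∈ E := hext _ hN
  have hend : (1 : Ω) ∈ ext (nu T) D → u ∈ E := by
    intro h
    have := hext' 1 h u hu
    rwa [mul_one] at this
  rcases Nat.eq_zero_or_pos N with hN0 | hN0
  · rw [hN0, pow_zero] at hN
    exact hend hN
  have hwE' : w ∈ E := by
    apply LI_monic _ (Polynomial.X ^ N - C (w ^ N)) (monic_X_pow_sub_C _ hN0.ne') (fun i => ?_) w
      (by simp)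
    rw [coeff_sub, coeff_X_pow, coeff_C]
    refine E.sub_mem ?_ ?_
    · split_ifs
      · exact E.one_mem
      · exact E.zero_mem
    · split_ifs
      · exact hwE
      · exact E.zero_mem
  by_cases hdeg : M.natDegree = 0
  · have e1 : M = 1 := hM.natDegree_eq_zero.1 hdeg
    have e2 : w = 1 := by
      rw [hwF, hF, e1, Polynomial.map_one, eval_one]
    rw [e2, one_pow] at hN
    exact hend hN
  · have hFm : F.Monic := hM.map _
    have hFd : F.natDegree = M.natDegree := hM.natDegree_map _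
    apply LI_monic _ (F - C w) (hFm.sub_of_left ?_) (fun i => ?_) u (by
      rw [eval_sub, eval_C, ← hwF, sub_self])
    · refine lt_of_le_of_lt degree_C_le ?_
      rw [← natDegree_pos_iff_degree_pos, hFd]
      exact Nat.pos_of_ne_zero hdeg
    · rw [coeff_sub, coeff_C]
      refine E.sub_mem (hFE i) ?_
      split_ifs
      · exact hwE'
      · exact E.zero_mem

end Pool.Agent.Helper44.SPL
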