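import Pool.Agent.Helper44.SPL.St

/-! # Module LI2 -/

set_option autoImplicit false

namespace Pool.Agent.Helper44.SPL

open Polynomial

universe u

/-- a monic irreducible polynomial in a prime with trivial contraction divides all elements -/
private theorem LI2_dvd0 {R S : Type u} [CommRing R] [IsDomain R] [IsIntegrallyClosed R]
    [CommRing S] [IsDomain S] [Algebra R S] (hinj : Function.Injective (algebraMap R S)) (z : S)
    (μ : R[X]) (hμ : μ.Monic) (hi : Irreducible μ) (h1 : aeval z μ = 0) (F : R[X])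
    (h2 : aeval z F = 0) : μ ∣ F := by
  have : FaithfulSMul R S := (faithfulSMul_iff_algebraMap_injective _ _).2 hinj
  have hz : IsIntegral R z := ⟨μ, hμ, h1⟩
  have h3 : minpoly R z ∣ μ := minpoly.isIntegrallyClosed_dvd hz h1
  have h4 : minpoly R z ∣ F := minpoly.isIntegrallyClosed_dvd hz h2
  exact ((minpoly.irreducible hz).dvd_symm hi h3).trans h4

private theorem LI2_dvd {κ : Type u} [Field κ] (P : Ideal κ[X][X]) [P.IsPrime]
    (hC : ∀ c : κ[X], C c ∈ P → c = 0) (μ : κ[X][X]) (hμ : μ.Monic) (hi : Irreducible μ)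
    (hμP : μ ∈ P) (F : κ[X][X]) (hF : F ∈ P) : μ ∣ F := by
  have hev : ∀ G : κ[X][X], G ∈ P → aeval (Ideal.Quotient.mk P X : κ[X][X] ⧸ P) G = 0 := by
    intro G hG
    have h1 : aeval (Ideal.Quotient.mk P X : κ[X][X] ⧸ P) G
        = (Ideal.Quotient.mkₐ κ[X] P) (aeval X G) := by
      rw [← Polynomial.aeval_algHom_apply]
      rfl
    rw [h1, aeval_X_left_apply]
    exact Ideal.Quotient.eq_zero_iff_mem.2 hG
  refine LI2_dvd0 (R := κ[X]) (S := κ[X][X] ⧸ P) ?_ _ μ hμ hi (hev μ hμP) F (hev F hF)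
  rw [injective_iff_map_eq_zero]
  intro c hc
  apply hC
  rw [← Ideal.Quotient.eq_zero_iff_mem]
  exact hc

/-- cancel a constant from a multiple of a monic polynomial -/
private theorem LI2_cancel {R : Type u} [CommRing R] [IsDomain R] (c : R) (hc : c ≠ 0) (p q : R[X])
    (hq : q.Monic) (h : q ∣ p * C c) : q ∣ p := by
  rw [mul_comm, ← smul_eq_C_mul, ← modByMonic_eq_zero_iff_dvd hq, smul_modByMonic,
    smul_eq_zero] at h
  rw [← modByMonic_eq_zero_iff_dvd hq]
  exact h.resolve_left hc

/-- the scaled divisor divides the integral normalization -/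
private theorem LI2_scale {R S : Type u} [CommRing R] [IsDomain R] [CommRing S] [IsDomain S]
    (f : R →+* S) (F : R[X]) (c : S) (hc : c ≠ 0) (hlc : f F.leadingCoeff = c) (μ : S[X])
    (hμ : μ.Monic) (hd : μ ∣ F.map f) : μ.scaleRoots c ∣ (integralNormalization F).map f := by
  have h1 : integralNormalization F * C F.leadingCoeff = scaleRoots F F.leadingCoeff :=
    integralNormalization_mul_C_leadingCoeff F
  have h2 : μ.scaleRoots c ∣ (F.map f).scaleRoots c := scaleRoots_dvd _ _ hd
  have h3 : (F.map f).scaleRoots c = (integralNormalization F).map f * C c := by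
    rw [← hlc, ← map_scaleRoots _ _ _ (by rw [hlc]; exact hc), ← h1, Polynomial.map_mul, map_C]
  rw [h3] at h2
  exact LI2_cancel c hc _ _ ((monic_scaleRoots_iff _).2 hμ) h2

attribute [local instance] Polynomial.algebra in
/-- integrality of coefficients -/
private theorem LI2_int {κ : Type u} [Field κ] (V : ValuationSubring κ) (G : V[X][X])
    (hG : G.Monic) (μ : κ[X][X]) (hμ : μ.Monic) (hd : μ ∣ G.map (mapRingHom V.subtype))
    (i j : ℕ) : (μ.coeff i).coeff j ∈ V := by
  have h5 : IsIntegral V[X] (μ.coeff i) := isIntegral_coeff_of_dvd G _ hG hμ hd i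
  have h6 : IsIntegral V ((μ.coeff i).coeff j) := h5.coeff _
  obtain ⟨y, hy⟩ := IsIntegrallyClosed.isIntegral_iff.1 h6
  rw [← hy]
  exact y.2

/-- monic divisors of polynomials with leading coefficient `X ^ N` over `V[X]` -/
private theorem LI2_coeff {κ : Type u} [Field κ] (V : ValuationSubring κ) (N : ℕ)
    (F : V[X][X]) (hF : F.leadingCoeff = X ^ N) (μ : κ[X][X]) (hμ : μ.Monic)
    (hd : μ ∣ F.map (mapRingHom V.subtype)) (i j : ℕ) : (μ.coeff i).coeff j ∈ V := by
  have hX : (X ^ N : κ[X]) ≠ 0 := pow_ne_zero _ X_ne_zero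
  have hlc : mapRingHom V.subtype F.leadingCoeff = X ^ N := by
    rw [hF]; simp
  have hF0 : F ≠ 0 := by
    intro h
    rw [h, leadingCoeff_zero] at hF
    exact pow_ne_zero N (X_ne_zero (R := V)) hF.symm
  have h4 := LI2_scale (mapRingHom V.subtype) F (X ^ N) hX hlc μ hμ hd
  have h6 := LI2_int V _ (monic_integralNormalization hF0) _ ((monic_scaleRoots_iff _).2 hμ) h4 i
    (j + N * (μ.natDegree - i))
  rwa [coeff_scaleRoots, ← pow_mul, coeff_mul_X_pow] at h6

section

variable {Ω : Type u} [Field Ω]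

private theorem LI2_subset (s : Set Ω) : s ⊆ icl s := by
  intro x hx
  exact isIntegral_algebraMap (R := Subring.closure s) (A := Ω)
    (x := ⟨x, Subring.subset_closure hx⟩)

/-- elements of the subring generated by `A`, `t`, `1/t` -/
private theorem LI2_loc (A : Subring Ω) (t : Ω) (ht : t ≠ 0) (s : Ω)
    (hs : s ∈ Subring.closure ((A : Set Ω) ∪ {t, t⁻¹})) :
    ∃ (N : ℕ) (f : A[X]), t ^ N * s = eval₂ A.subtype t f := by
  induction hs using Subring.closure_induction with
  | mem x hx =>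
    rcases hx with hx | hx | hx
    · exact ⟨0, C ⟨x, hx⟩, by simp⟩
    · exact ⟨0, Polynomial.X, by simp [hx]⟩
    · have hx' : x = t⁻¹ := hx
      exact ⟨1, 1, by rw [hx', pow_one, mul_inv_cancel₀ ht, eval₂_one]⟩
  | zero => exact ⟨0, 0, by simp⟩
  | one => exact ⟨0, 1, by simp⟩
  | add x y _ _ hx hy =>
    obtain ⟨N, f, hf⟩ := hx
    obtain ⟨K, g, hg⟩ := hy
    refine ⟨N + K, Polynomial.X ^ K * f + Polynomial.X ^ N * g, ?_⟩
    rw [eval₂_add, eval₂_mul, eval₂_mul, eval₂_X_pow, eval₂_X_pow, ← hf, ← hg]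
    ring
  | neg x _ hx =>
    obtain ⟨N, f, hf⟩ := hx
    refine ⟨N, -f, ?_⟩
    rw [eval₂_neg, ← hf]
    ring
  | mul x y _ _ hx hy =>
    obtain ⟨N, f, hf⟩ := hx
    obtain ⟨K, g, hg⟩ := hy
    refine ⟨N + K, f * g, ?_⟩
    rw [eval₂_mul, ← hf, ← hg]
    ring

private theorem LI2_poly (A : Subring Ω) (t : Ω) (ht : t ≠ 0) (y : Ω)
    (hy : y ∈ icl ((A : Set Ω) ∪ {t, t⁻¹})) :
    ∃ (N : ℕ) (F : A[X][X]), F.leadingCoeff = Polynomial.X ^ N ∧ ev2 A.subtype F t y = 0 := by
  obtain ⟨P, hP, hP0⟩ := hy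
  choose Nf ff hff using fun i => LI2_loc A t ht (P.coeff i : Ω) (P.coeff i).2
  set n := P.natDegree with hn
  set N := ∑ i ∈ Finset.range n, Nf i with hN
  let g : ℕ → A[X] := fun i => if i = n then Polynomial.X ^ N else
    Polynomial.X ^ (N - Nf i) * ff i
  let F : A[X][X] := ∑ i ∈ Finset.range (n + 1), C (g i) * Polynomial.X ^ i
  have hFc : ∀ j, F.coeff j = if j ∈ Finset.range (n + 1) then g j else 0 := by
    intro j
    simp only [F, finsetSum_coeff, coeff_C_mul_X_pow]
    rw [Finset.sum_ite_eq]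
  have hgn : g n = Polynomial.X ^ N := if_pos rfl
  have hX : (Polynomial.X ^ N : A[X]) ≠ 0 := pow_ne_zero _ X_ne_zero
  have hFn : F.coeff n = Polynomial.X ^ N := by
    rw [hFc, if_pos (Finset.mem_range.2 (Nat.lt_succ_self n)), hgn]
  have hdeg : F.natDegree = n := by
    apply natDegree_eq_of_le_of_coeff_ne_zero
    · rw [natDegree_le_iff_coeff_eq_zero]
      intro j hj
      rw [hFc, if_neg]
      rw [Finset.mem_range]
      omega
    · rw [hFn]; exact hX
  refine ⟨N, F, ?_, ?_⟩
  · rw [leadingCoeff, hdeg, hFn]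
  · have hg : ∀ i ∈ Finset.range (n + 1), eval₂ A.subtype t (g i) = t ^ N * (P.coeff i : Ω) := by
      intro i hi
      by_cases h : i = n
      · rw [h, hgn, eval₂_X_pow, hn, coeff_natDegree, hP.leadingCoeff]
        simp
      · have hi' : i ∈ Finset.range n := by
          rw [Finset.mem_range] at hi ⊢
          omega
        have hle : Nf i ≤ N := Finset.single_le_sum (f := Nf) (fun _ _ => Nat.zero_le _) hi'
        simp only [g, if_neg h]
        rw [eval₂_mul, eval₂_X_pow, ← hff, ← mul_assoc, ← pow_add, Nat.sub_add_cancel hle]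
    have h1 : ev2 A.subtype F t y = ∑ i ∈ Finset.range (n + 1), eval₂ A.subtype t (g i) * y ^ i := by
      simp only [ev2, F, Polynomial.map_sum, Polynomial.eval_finsetSum, Polynomial.map_mul, map_C,
        Polynomial.map_pow, map_X, eval_mul, eval_C, eval_pow, eval_X, coe_eval₂RingHom]
    rw [h1, Finset.sum_congr rfl fun i hi => by rw [hg i hi, mul_assoc], ← Finset.mul_sum]
    have h2 : eval₂ (algebraMap (Subring.closure ((A : Set Ω) ∪ {t, t⁻¹})) Ω) y P
        = ∑ i ∈ Finset.range (n + 1), (P.coeff i : Ω) * y ^ i := by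
      rw [eval₂_eq_sum_range]
      rfl
    rw [← h2, hP0, mul_zero]

private theorem LI2_nu (T : Subring Ω) [IsLocalRing T] (a : T) :
    (a : Ω) ∈ nu T ↔ IsLocalRing.residue T a = 0 := by
  rw [IsLocalRing.residue_eq_zero_iff, IsLocalRing.mem_maximalIdeal, mem_nonunits_iff]
  constructor
  · rintro ⟨-, h⟩ hu
    obtain ⟨b, hb⟩ := hu.exists_right_inv
    have hb' : (a : Ω) * (b : Ω) = 1 := by
      have := congrArg (Subtype.val) hb
      simpa using this
    rcases h with h | h
    · rw [h, zero_mul] at hb'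
      exact zero_ne_one hb'
    · apply h
      rw [inv_eq_of_mul_eq_one_right hb']
      exact b.2
  · intro h
    refine ⟨a.2, ?_⟩
    by_contra h2
    push Not at h2
    apply h
    refine IsUnit.of_mul_eq_one (⟨(a : Ω)⁻¹, h2.2⟩ : T) ?_
    apply Subtype.ext
    exact mul_inv_cancel₀ h2.1

/-- evaluation as a ring homomorphism to `icl (T, t)` -/
private noncomputable def LI2_ev (T : Subring Ω) (t y : Ω) : T[X][X] →+* Ω :=
  (evalRingHom y).comp (mapRingHom (eval₂RingHom T.subtype t))

private theorem LI2_ev_mem (T : Subring Ω) (t y : Ω) (hy : y ∈ icl ((T : Set Ω) ∪ {t}))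
    (F : T[X][X]) : LI2_ev T t y F ∈ icl ((T : Set Ω) ∪ {t}) := by
  have hT : ∀ a : T, (a : Ω) ∈ icl ((T : Set Ω) ∪ {t}) := fun a =>
    LI2_subset _ (Or.inl a.2)
  have ht : t ∈ icl ((T : Set Ω) ∪ {t}) := LI2_subset _ (Or.inr rfl)
  have h1 : LI2_ev T t y F = eval y (F.map (eval₂RingHom T.subtype t)) := rfl
  rw [h1, eval_eq_sum_range]
  refine Subring.sum_mem _ fun i _ => Subring.mul_mem _ ?_ (Subring.pow_mem _ hy _)
  rw [coeff_map, coe_eval₂RingHom, eval₂_eq_sum_range]
  exact Subring.sum_mem _ fun j _ => Subring.mul_mem _ (hT _) (Subring.pow_mem _ ht _)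

/-- the valuation ring of the residue field -/
private noncomputable def LI2_rho (T A : Subring Ω) [IsLocalRing T] (h : A ≤ T) :
    A →+* IsLocalRing.ResidueField T :=
  (IsLocalRing.residue T).comp (Subring.inclusion h)

private noncomputable def LI2_V (T A : Subring Ω) [IsLocalRing T] (h : PV T A) :
    ValuationSubring (IsLocalRing.ResidueField T) where
  toSubring := (LI2_rho T A h.le).range
  mem_or_inv_mem' := by
    intro x
    obtain ⟨a, rfl⟩ := IsLocalRing.residue_surjective x
    rcases h.val a a.2 with h1 | h1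
    · left
      exact ⟨⟨a, h1⟩, rfl⟩
    · by_cases h2 : IsLocalRing.residue T a = 0
      · left
        exact ⟨0, by rw [map_zero, h2]⟩
      · right
        have ha : (a : Ω) ≠ 0 := by
          intro h3
          apply h2
          have : a = 0 := Subtype.ext h3
          rw [this, map_zero]
        refine ⟨⟨(a : Ω)⁻¹, h1⟩, ?_⟩
        apply eq_inv_of_mul_eq_one_left
        have : IsLocalRing.residue T (⟨(a : Ω)⁻¹, h.le h1⟩ * a) = 1 := by
          have h3 : (⟨(a : Ω)⁻¹, h.le h1⟩ * a : T) = 1 := Subtype.ext (inv_mul_cancel₀ ha)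
          rw [h3, map_one]
        rw [map_mul] at this
        exact this

/-- the coefficients of the minimal polynomial at a generic prime are in `V[X]` -/
private theorem LI2_main (T A : Subring Ω) [IsLocalRing T] (h : PV T A) (t y : Ω)
    (hy : y ∈ icl ((T : Set Ω) ∪ {t})) (N : ℕ) (F : A[X][X])
    (hF : F.leadingCoeff = Polynomial.X ^ N) (hF0 : ev2 A.subtype F t y = 0)
    (μ : (IsLocalRing.ResidueField T)[X][X]) (hμ : μ.Monic) (hi : Irreducible μ)
    (q : Ideal (icl ((T : Set Ω) ∪ {t}))) (hq : Gen T (icl ((T : Set Ω) ∪ {t})) t q)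
    (hμq : ∀ G : T[X][X], G.map (mapRingHom (IsLocalRing.residue T)) = μ →
      ∀ h : ev2 T.subtype G t y ∈ icl ((T : Set Ω) ∪ {t}),
        (⟨ev2 T.subtype G t y, h⟩ : icl ((T : Set Ω) ∪ {t})) ∈ q) (i j : ℕ) :
    (μ.coeff i).coeff j ∈ LI2_V T A h := by
  let φ : T[X][X] →+* icl ((T : Set Ω) ∪ {t}) :=
    (LI2_ev T t y).codRestrict _ (LI2_ev_mem T t y hy)
  let red : T[X][X] →+* (IsLocalRing.ResidueField T)[X][X] :=
    mapRingHom (mapRingHom (IsLocalRing.residue T))
  have hred : Function.Surjective red :=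
    map_surjective _ (map_surjective _ IsLocalRing.residue_surjective)
  have := hq.prime
  have hP' : (q.comap φ).IsPrime := Ideal.comap_isPrime φ q
  have hCm : ∀ f : T[X], φ (C f) ∈ q ↔ ∀ i, (f.coeff i : Ω) ∈ nu T := by
    intro f
    have e1 : (φ (C f) : Ω) = aeval t f := by
      show LI2_ev T t y (C f) = aeval t f
      simp [LI2_ev, aeval_def]
      rfl
    have e2 : aeval t f ∈ icl ((T : Set Ω) ∪ {t}) := by
      rw [← e1]; exact (φ (C f)).2
    have e3 : φ (C f) = ⟨aeval t f, e2⟩ := Subtype.ext e1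
    rw [e3]
    exact hq.iff f e2
  have hker : RingHom.ker red ≤ q.comap φ := by
    intro G hG
    rw [RingHom.mem_ker] at hG
    rw [Ideal.mem_comap]
    have h1 : G = ∑ i ∈ Finset.range (G.natDegree + 1), C (G.coeff i) * Polynomial.X ^ i :=
      G.as_sum_range_C_mul_X_pow
    rw [h1, map_sum]
    refine Ideal.sum_mem _ fun i _ => ?_
    rw [map_mul]
    refine Ideal.mul_mem_right _ _ ?_
    rw [hCm]
    intro j
    rw [LI2_nu]
    have h2 : ((red G).coeff i).coeff j = IsLocalRing.residue T ((G.coeff i).coeff j) := by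
      simp [red]
    rw [← h2, hG]
    simp
  have hPr : ((q.comap φ).map red).IsPrime := Ideal.map_isPrime_of_surjective hred hker
  have hmem : ∀ G : T[X][X], red G ∈ (q.comap φ).map red → φ G ∈ q := by
    intro G hG
    have h1 : G ∈ Ideal.comap red ((q.comap φ).map red) := hG
    rw [Ideal.comap_map_of_surjective red hred] at h1
    have h2 : q.comap φ ⊔ Ideal.comap red ⊥ ≤ q.comap φ := sup_le le_rfl hker
    exact h2 h1
  have hC : ∀ c : (IsLocalRing.ResidueField T)[X], C c ∈ (q.comap φ).map red → c = 0 := by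
    intro c hc
    obtain ⟨f, rfl⟩ := map_surjective _ IsLocalRing.residue_surjective c
    have h1 : C (f.map (IsLocalRing.residue T)) = red (C f) := by simp [red]
    rw [h1] at hc
    have h2 := (hCm f).1 (hmem _ hc)
    ext j
    rw [coeff_map, coeff_zero]
    exact (LI2_nu T _).1 (h2 j)
  have hμP : μ ∈ (q.comap φ).map red := by
    obtain ⟨G, hG⟩ := hred μ
    rw [← hG]
    apply Ideal.mem_map_of_mem
    rw [Ideal.mem_comap]
    exact hμq G hG (φ G).2
  let FT : T[X][X] := F.map (mapRingHom (Subring.inclusion h.le))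
  have hFT0 : φ FT = 0 := by
    apply Subtype.ext
    show LI2_ev T t y FT = 0
    rw [← hF0]
    have e1 : LI2_ev T t y FT = eval y (FT.map (eval₂RingHom T.subtype t)) := rfl
    rw [e1]
    simp only [FT, ev2, Polynomial.map_map]
    congr 2
    ext a
    · simp
    · simp
  have hFP : red FT ∈ (q.comap φ).map red := by
    apply Ideal.mem_map_of_mem
    rw [Ideal.mem_comap, hFT0]
    exact Ideal.zero_mem _
  have hdvd := LI2_dvd _ hC μ hμ hi hμP _ hFP
  let ρV : A →+* LI2_V T A h := (LI2_rho T A h.le).codRestrict (LI2_V T A h) fun a => ⟨a, rfl⟩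
  have hred2 : red FT = (F.map (mapRingHom ρV)).map (mapRingHom (LI2_V T A h).subtype) := by
    simp only [red, FT, coe_mapRingHom, Polynomial.map_map]
    congr 1
    ext a
    · simp [LI2_rho, ρV]
    · simp
  rw [hred2] at hdvd
  have hlc : (F.map (mapRingHom ρV)).leadingCoeff = Polynomial.X ^ N := by
    rw [leadingCoeff_map_of_leadingCoeff_ne_zero, hF]
    · simp
    · rw [hF]
      simp
  exact LI2_coeff (LI2_V T A h) N _ hlc μ hμ hdvd i j

end

theorem m_LI2 (h1 : StMU.{u}) (h2 : StLI.{u}) (_h3 : StRAD.{u}) : StLI2.{u} := by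
  intro Ω _ _ T A hloc hIC hPV t ht ht' y hy hy2
  have : IsLocalRing T := hloc
  have ht0 : t ≠ 0 := by
    rintro rfl
    exact ht T.zero_mem
  obtain ⟨N, F, hF, hF0⟩ := LI2_poly A t ht0 y hy2
  obtain ⟨l, hl1, hl2⟩ := h1 Ω T hIC t ht ht' y hy
  have hlift : l.prod ∈ lifts (mapRingHom (LI2_rho T A hPV.le)) := by
    refine multiset_prod_mem _ fun μ hμ => ?_
    obtain ⟨hm, hi, q, hq, hμq⟩ := hl1 μ hμ
    rw [lifts_iff_coeff_lifts]
    intro i
    have h3 : μ.coeff i ∈ lifts (LI2_rho T A hPV.le) := by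
      rw [lifts_iff_coeff_lifts]
      intro j
      exact LI2_main T A hPV t y hy N F hF hF0 μ hm hi q hq hμq i j
    rw [mem_lifts] at h3
    exact h3
  have hmon : l.prod.Monic := by
    have h3 := monic_multiset_prod_of_monic l id (fun μ hμ => (hl1 μ hμ).1)
    rwa [Multiset.map_id] at h3
  obtain ⟨M, hM, -, hMm⟩ := lifts_and_natDegree_eq_and_monic hlift hmon
  refine h2 Ω T A hloc hIC hPV t ht ht' y hy M hMm fun q hq h => ?_
  have h4 : (M.map (mapRingHom (Subring.inclusion hPV.le))).map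
      (mapRingHom (IsLocalRing.residue T)) = l.prod := by
    rw [← hM, Polynomial.map_map]
    congr 1
    ext a
    · simp [LI2_rho]
    · simp
  have h5 : ev2 T.subtype (M.map (mapRingHom (Subring.inclusion hPV.le))) t y
      = ev2 A.subtype M t y := by
    simp only [ev2, Polynomial.map_map]
    congr 2
    ext a
    · simp
    · simp
  have h6 := hl2 q hq _ h4 (by rw [h5]; exact h)
  have h7 : (⟨ev2 T.subtype (M.map (mapRingHom (Subring.inclusion hPV.le))) t y,
      by rw [h5]; exact h⟩ : icl ((T : Set Ω) ∪ {t})) = ⟨ev2 A.subtype M t y, h⟩ :=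
    Subtype.ext h5
  rw [h7] at h6
  exact h6

end Pool.Agent.Helper44.SPL
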