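import Pool.Agent.Helper44.SPL.St
import Pool.Agent.Helper44.SPL.Bas

/-!
# SPL, module LOC
-/

set_option autoImplicit false

namespace Pool.Agent.Helper44.SPL

open Polynomial

universe u

theorem m_LOC : StLOC.{u} := by
  intro Ω _ p D hp hD e he
  by_cases he0 : e = 0
  · refine ⟨0, D.zero_mem, fun W _ _ => ?_⟩
    rw [he0, sub_zero, zero_div]
    exact W.zero_mem
  have hi0 : e⁻¹ ≠ 0 := inv_ne_zero he0
  -- the ring `D[1/e]`
  obtain ⟨B, hB⟩ : ∃ B : Subring Ω, B = (Polynomial.eval₂RingHom D.subtype e⁻¹).range := ⟨_, rfl⟩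
  have hDB : ∀ x ∈ D, x ∈ B := fun x hx => by
    rw [hB]
    exact ⟨C ⟨x, hx⟩, by simp⟩
  have heB : e⁻¹ ∈ B := by
    rw [hB]
    exact ⟨X, by simp⟩
  have hpB : (p : Ω) ∈ B := hDB _ (natCast_mem D p)
  have htop : Ideal.span {(⟨(p : Ω), hpB⟩ : B), ⟨e⁻¹, heB⟩} = ⊤ := by
    by_contra hne
    obtain ⟨W, hBW, hW⟩ := Ideal.image_subset_nonunits_valuationSubring (A := B) _ hne
    have h1 : (p : Ω) ∈ W.nonunits :=
      hW ⟨⟨(p : Ω), hpB⟩, Ideal.subset_span (by simp), rfl⟩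
    have h2 : e⁻¹ ∈ W.nonunits := hW ⟨⟨e⁻¹, heB⟩, Ideal.subset_span (by simp), rfl⟩
    have h3 : (p : Ω)⁻¹ ∉ W := by
      have h : ((p : Ω)⁻¹)⁻¹ ∈ W.nonunits := by rwa [inv_inv]
      rcases W.inv_mem_nonunits_iff.mp h with h4 | h4
      · exact absurd h4 (inv_ne_zero hp)
      · exact h4
    have h5 : e ∉ W := by
      rcases W.inv_mem_nonunits_iff.mp h2 with h4 | h4
      · exact absurd h4 he0
      · exact h4
    exact h5 (he W (fun x hx => hBW (hDB x hx)) h3)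
  have h1 : (1 : B) ∈ Ideal.span {(⟨(p : Ω), hpB⟩ : B), ⟨e⁻¹, heB⟩} := by
    rw [htop]
    exact Submodule.mem_top
  obtain ⟨a, b, hab⟩ := Ideal.mem_span_pair.1 h1
  have ha : (a : Ω) ∈ (Polynomial.eval₂RingHom D.subtype e⁻¹).range := hB ▸ a.2
  have hb : (b : Ω) ∈ (Polynomial.eval₂RingHom D.subtype e⁻¹).range := hB ▸ b.2
  obtain ⟨f, hf⟩ := ha
  have hab' : (a : Ω) * p + b * e⁻¹ = 1 := congrArg Subtype.val hab
  -- the constant coefficient
  have hc : (1 - (p : Ω) * (f.coeff 0 : D)) * e ∈ D := by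
    rw [hD.mem_iff_val]
    intro W hW
    by_cases heW : e ∈ W
    · exact W.mul_mem _ _ (sub_mem W.one_mem
        (W.mul_mem _ _ (natCast_mem W p) (hW (f.coeff 0).2))) heW
    · have hiW : e⁻¹ ∈ W := (W.mem_or_inv_mem e).resolve_left heW
      have hBW : ∀ x ∈ B, x ∈ W := by
        intro x hx
        rw [hB] at hx
        obtain ⟨g, rfl⟩ := hx
        show Polynomial.eval₂ D.subtype e⁻¹ g ∈ W
        rw [Polynomial.eval₂_eq_sum_range]
        exact W.toSubring.sum_mem fun i _ => W.mul_mem _ _ (hW (g.coeff i).2)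
          (pow_mem hiW i)
      have hf' : (a : Ω) = Polynomial.eval₂ D.subtype e⁻¹ f.divX * e⁻¹ + (f.coeff 0 : D) := by
        have h2 := congrArg (Polynomial.eval₂ D.subtype e⁻¹) (Polynomial.divX_mul_X_add f)
        rw [Polynomial.eval₂_add, Polynomial.eval₂_mul, Polynomial.eval₂_X,
          Polynomial.eval₂_C] at h2
        rw [← hf]
        exact h2.symm
      have hq : Polynomial.eval₂ D.subtype e⁻¹ f.divX ∈ W := hBW _ (by
        rw [hB]
        exact ⟨f.divX, rfl⟩)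
      have hkey : (1 - (p : Ω) * (f.coeff 0 : D)) * e =
          p * Polynomial.eval₂ D.subtype e⁻¹ f.divX + b := by
        rw [← hab', hf']
        have h3 : e⁻¹ * e = 1 := inv_mul_cancel₀ he0
        linear_combination (Polynomial.eval₂ D.subtype e⁻¹ f.divX * p + b) * h3
      rw [hkey]
      exact W.add_mem _ _ (W.mul_mem _ _ (natCast_mem W p) hq) (hBW _ b.2)
  refine ⟨_, hc, fun W hW hpW => ?_⟩
  have h2 : (e - (1 - (p : Ω) * (f.coeff 0 : D)) * e) / p = (f.coeff 0 : D) * e := by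
    rw [div_eq_iff hp]
    ring
  rw [h2]
  exact W.mul_mem _ _ (hW (f.coeff 0).2) (he W hW hpW)

end Pool.Agent.Helper44.SPL
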