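import Pool.Agent.Helper44.SPL.St

/-!
# Project SPL, module MI: integrality of the identity of J over rank one valuation rings
-/

set_option autoImplicit false

namespace Pool.Agent.Helper44.SPL

open Polynomial

universe u

section modMI

variable {Ω : Type u} [Field Ω]

private theorem MI_vc (s : Set Ω) (x : Ω) :
    x ∈ icl s ↔ ∀ W : ValuationSubring Ω, s ⊆ W → x ∈ W := by
  unfold icl
  rw [← iInf_valuationSubring_superset]
  constructor
  · intro h W hW
    exact (Subring.mem_iInf.1 h) ⟨W, hW⟩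
  · intro h
    exact Subring.mem_iInf.2 fun V => h V.1 V.2

private theorem MI_sub (s : Set Ω) : s ⊆ icl s := fun x hx => (MI_vc s x).2 fun _ hW => hW hx

private theorem MI_le {s : Set Ω} {W : ValuationSubring Ω} (h : s ⊆ W) :
    (icl s : Set Ω) ⊆ W := fun x hx => (MI_vc s x).1 hx W h

private theorem MI_IC {A : Subring Ω}
    (h : ∀ x, (∀ W : ValuationSubring Ω, (A : Set Ω) ⊆ W → x ∈ W) → x ∈ A) : IC A := by
  unfold IC
  apply le_antisymm
  · intro x hx
    exact h x ((MI_vc _ x).1 hx)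
  · intro x hx
    exact MI_sub _ hx

private theorem MI_IC_icl (s : Set Ω) : IC (icl s) := by
  refine MI_IC fun x hx => (MI_vc s x).2 fun W hW => hx W (MI_le hW)

private theorem MI_IC_val (W : ValuationSubring Ω) : IC W.toSubring :=
  MI_IC fun _ hx => hx W fun _ h => h

private theorem MI_le_IC {s : Set Ω} {A : Subring Ω} (hA : IC A) (h : s ⊆ A) : icl s ≤ A := by
  intro x hx
  have h1 : x ∈ icl (A : Set Ω) :=
    (MI_vc _ x).2 fun W hW => (MI_vc s x).1 hx W (h.trans hW)
  rw [hA] at h1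
  exact h1

private theorem MI_mem {A : Subring Ω} (hA : IC A) {x : Ω} {n : ℕ} (hn : 0 < n)
    (h : x ^ n ∈ A) : x ∈ A := by
  have h1 : x ∈ icl (A : Set Ω) := by
    show IsIntegral (Subring.closure (A : Set Ω)) x
    refine IsIntegral.of_pow hn ?_
    have e : x ^ n = algebraMap (Subring.closure (A : Set Ω)) Ω
        ⟨x ^ n, Subring.subset_closure h⟩ := rfl
    rw [e]
    exact isIntegral_algebraMap
  rw [hA] at h1
  exact h1

/-! ### rational powers of `p` -/

variable {p : ℕ}

private theorem MI_one_ne [CharZero Ω] (hp : p.Prime) (S : RootSys Ω p) : S.pw 1 ≠ 0 := by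
  rw [S.one]
  exact_mod_cast hp.ne_zero

private theorem MI_zero [CharZero Ω] (hp : p.Prime) (S : RootSys Ω p) : S.pw 0 = 1 := by
  have h := S.add 1 0
  rw [add_zero] at h
  exact (mul_left_cancel₀ (MI_one_ne hp S) (by rw [mul_one]; exact h)).symm

private theorem MI_ne [CharZero Ω] (hp : p.Prime) (S : RootSys Ω p) (a : ℚ) : S.pw a ≠ 0 := by
  intro h
  have h1 := S.add a (-a)
  rw [add_neg_cancel, MI_zero hp S, h, zero_mul] at h1
  exact one_ne_zero h1

private theorem MI_psub [CharZero Ω] (hp : p.Prime) (S : RootSys Ω p) (a b : ℚ) :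
    S.pw (a - b) = S.pw a / S.pw b := by
  rw [eq_div_iff (MI_ne hp S b), ← S.add, sub_add_cancel]

private theorem MI_nsmul [CharZero Ω] (hp : p.Prime) (S : RootSys Ω p) (a : ℚ) (n : ℕ) :
    S.pw (n * a) = S.pw a ^ n := by
  induction n with
  | zero => simp [MI_zero hp S]
  | succ n ih =>
    rw [pow_succ, ← ih, ← S.add]
    congr 1
    push_cast
    ring

private theorem MI_nat [CharZero Ω] (hp : p.Prime) (S : RootSys Ω p) (n : ℕ) :
    S.pw n = (p : Ω) ^ n := by
  have h := MI_nsmul hp S 1 n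
  rw [mul_one, S.one] at h
  exact h

private theorem MI_pw_mem [CharZero Ω] (hp : p.Prime) (S : RootSys Ω p) {A : Subring Ω}
    (hA : IC A) (t : ℚ) (ht : 0 ≤ t) : S.pw t ∈ A := by
  refine MI_mem hA (n := t.den) t.den_pos ?_
  have e : S.pw t ^ t.den = (p : Ω) ^ t.num.toNat := by
    rw [← MI_nsmul hp S, ← MI_nat hp S]
    congr 1
    have h1 : (t.den : ℚ) * t = t.num := Rat.den_mul_eq_num t
    have h2 : ((t.num.toNat : ℤ) : ℚ) = (t.num : ℚ) := by
      rw [Int.toNat_of_nonneg (Rat.num_nonneg.2 ht)]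
    rw [h1, ← h2]
    push_cast
    rfl
  rw [e]
  exact pow_mem (natCast_mem A p) _

/-! ### denominators -/

private theorem MI_den {V : Subring Ω} {Ks G : Set Ω} {ϖ : Ω} (hϖ : ϖ ∈ V)
    (h : ∀ x ∈ Ks, ∃ n : ℕ, ϖ ^ n * x ∈ V) {E : Ω} (hE : E ∈ icl (Ks ∪ G)) :
    ∃ N : ℕ, ϖ ^ N * E ∈ icl ((V : Set Ω) ∪ G) := by
  set T : Subring Ω := Subring.closure ((V : Set Ω) ∪ G) with hT
  have hVT : ∀ x ∈ V, x ∈ T := fun x hx => Subring.subset_closure (Or.inl hx)
  have hϖT : ϖ ∈ T := hVT _ hϖ
  have up : ∀ (x : Ω) (n m : ℕ), n ≤ m → ϖ ^ n * x ∈ T → ϖ ^ m * x ∈ T := by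
    intro x n m hnm hx
    obtain ⟨k, rfl⟩ := Nat.exists_eq_add_of_le hnm
    have e : ϖ ^ (n + k) * x = ϖ ^ k * (ϖ ^ n * x) := by ring
    rw [e]
    exact mul_mem (pow_mem hϖT k) hx
  have h1 : ∀ x ∈ Subring.closure (Ks ∪ G), ∃ n : ℕ, ϖ ^ n * x ∈ T := by
    intro x hx
    induction hx using Subring.closure_induction with
    | mem x hx =>
      rcases hx with hx | hx
      · obtain ⟨n, hn⟩ := h x hx
        exact ⟨n, hVT _ hn⟩
      · refine ⟨0, ?_⟩
        rw [pow_zero, one_mul]
        exact Subring.subset_closure (Or.inr hx)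
    | zero => exact ⟨0, by rw [mul_zero]; exact T.zero_mem⟩
    | one => exact ⟨0, by rw [pow_zero, one_mul]; exact T.one_mem⟩
    | add x y _ _ hx hy =>
      obtain ⟨n, hn⟩ := hx
      obtain ⟨m, hm⟩ := hy
      refine ⟨n + m, ?_⟩
      rw [mul_add]
      exact T.add_mem (up x n _ (Nat.le_add_right _ _) hn) (up y m _ (Nat.le_add_left _ _) hm)
    | neg x _ hx =>
      obtain ⟨n, hn⟩ := hx
      refine ⟨n, ?_⟩
      rw [mul_neg]
      exact T.neg_mem hn
    | mul x y _ _ hx hy =>
      obtain ⟨n, hn⟩ := hx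
      obtain ⟨m, hm⟩ := hy
      refine ⟨n + m, ?_⟩
      have e : ϖ ^ (n + m) * (x * y) = (ϖ ^ n * x) * (ϖ ^ m * y) := by ring
      rw [e]
      exact T.mul_mem hn hm
  have hE' : IsIntegral (Subring.closure (Ks ∪ G)) E := hE
  obtain ⟨P, hP, hPE⟩ := hE'
  choose n hn using fun c : Subring.closure (Ks ∪ G) => h1 c.1 c.2
  set d := P.natDegree with hd
  set N := ∑ i ∈ Finset.range d, n (P.coeff i) with hN
  have hNi : ∀ i < d, ϖ ^ N * (P.coeff i : Ω) ∈ T := fun i hi =>
    up _ _ _ (Finset.single_le_sum (f := fun i => n (P.coeff i)) (fun _ _ => Nat.zero_le _)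
      (Finset.mem_range.2 hi)) (hn (P.coeff i))
  have hNd : ∀ i : Fin d, ϖ ^ (N * (d - i)) * (P.coeff i : Ω) ∈ T := by
    intro i
    refine up _ _ _ ?_ (hNi i i.2)
    have : 1 ≤ d - i := by have := i.2; omega
    exact Nat.le_mul_of_pos_right _ this
  refine ⟨N, ?_⟩
  show IsIntegral T (ϖ ^ N * E)
  refine ⟨X ^ d + ∑ i : Fin d, C (⟨ϖ ^ (N * (d - i)) * (P.coeff i : Ω), hNd i⟩ : T) * X ^ (i : ℕ),
    monic_X_pow_add (degree_sum_fin_lt _), ?_⟩
  have hPE' : E ^ d + ∑ i : Fin d, (P.coeff i : Ω) * E ^ (i : ℕ) = 0 := by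
    rw [eval₂_eq_sum_range, ← hd, Finset.sum_range_succ, Finset.sum_range] at hPE
    have hc : P.coeff d = 1 := hP
    rw [hc, map_one, one_mul] at hPE
    rw [add_comm]
    exact hPE
  have e : eval₂ (algebraMap T Ω) (ϖ ^ N * E) (X ^ d +
      ∑ i : Fin d, C (⟨ϖ ^ (N * (d - i)) * (P.coeff i : Ω), hNd i⟩ : T) * X ^ (i : ℕ)) =
      ϖ ^ (N * d) * (E ^ d + ∑ i : Fin d, (P.coeff i : Ω) * E ^ (i : ℕ)) := by
    rw [eval₂_add, eval₂_finsetSum, mul_add, Finset.mul_sum]
    congr 1
    · rw [eval₂_X_pow, mul_pow, ← pow_mul]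
    · refine Finset.sum_congr rfl fun i _ => ?_
      rw [eval₂_mul, eval₂_C, eval₂_X_pow]
      show (ϖ ^ (N * (d - i)) * (P.coeff i : Ω)) * (ϖ ^ N * E) ^ (i : ℕ) = _
      have hi : N * d = N * (d - i) + N * i := by
        rw [← Nat.mul_add, Nat.sub_add_cancel i.2.le]
      rw [hi, pow_add, mul_pow, ← pow_mul]
      ring
  rw [e, hPE', mul_zero]

/-- images of integral elements -/
private theorem MI_img {U V : Subring Ω} (hV : IC V) (χ : U →+* Ω) {s : Set Ω}
    (hs : s ⊆ U) (hχ : ∀ (x : Ω) (h : x ∈ s), χ ⟨x, hs h⟩ ∈ V) {x : Ω} (hx : x ∈ icl s)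
    (hxU : x ∈ U) : χ ⟨x, hxU⟩ ∈ V := by
  have hcl : ∀ c ∈ Subring.closure s, ∃ h : c ∈ U, χ ⟨c, h⟩ ∈ V := by
    have h1 : Subring.closure s ≤ Subring.map U.subtype (Subring.comap χ V) := by
      rw [Subring.closure_le]
      intro a ha
      exact ⟨⟨a, hs ha⟩, hχ a ha, rfl⟩
    intro c hc
    obtain ⟨u, hu, rfl⟩ := h1 hc
    exact ⟨u.2, hu⟩
  have hx' : IsIntegral (Subring.closure s) x := hx
  obtain ⟨P, hP, hPx⟩ := hx'
  let j : Subring.closure s →+* U :=
    (Subring.closure s).subtype.codRestrict U fun c => (hcl c.1 c.2).1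
  have hj : U.subtype.comp j = algebraMap (Subring.closure s) Ω := rfl
  have e1 : eval₂ j ⟨x, hxU⟩ P = 0 := by
    apply Subtype.ext
    have h2 := hom_eval₂ P j U.subtype ⟨x, hxU⟩
    rw [hj] at h2
    show U.subtype (eval₂ j ⟨x, hxU⟩ P) = 0
    rw [h2]
    exact hPx
  have e2 : eval₂ (χ.comp j) (χ ⟨x, hxU⟩) P = 0 := by
    rw [← hom_eval₂, e1, map_zero]
  let k : Subring.closure s →+* Subring.closure (V : Set Ω) :=
    (χ.comp j).codRestrict _ fun c => Subring.subset_closure (hcl c.1 c.2).2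
  have hk : (algebraMap (Subring.closure (V : Set Ω)) Ω).comp k = χ.comp j := rfl
  have h3 : χ ⟨x, hxU⟩ ∈ icl (V : Set Ω) := by
    show IsIntegral (Subring.closure (V : Set Ω)) (χ ⟨x, hxU⟩)
    refine ⟨P.map k, hP.map k, ?_⟩
    rw [eval₂_map, hk]
    exact e2
  rw [hV] at h3
  exact h3

end modMI

theorem m_MI (h1 : StTREE.{u}) (h2 : StH0.{u}) (h3 : StS0.{u}) : StMI.{u} := by
  classical
  intro Ω _ _ _ p hp S R K _ hRK t y htr halg hy n τ z w hτ0 hz HJ U c₀ χ hc₀ hU hKU hχK hχm
    ht hτU hτU' hzU hwU htU' hχt W hW hRW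
  have hpp : p.Prime := hp.out
  -- the valuation ring `V` of `K`
  set V : Subring Ω := W.toSubring ⊓ K.toSubring with hVdef
  have hVW : ∀ x ∈ V, x ∈ W := fun x hx => hx.1
  have hVK : ∀ x ∈ V, x ∈ K := fun x hx => hx.2
  have hRV : ∀ x ∈ R, x ∈ V := fun x hx => ⟨hRW hx, hRK hx⟩
  have hpV : (p : Ω) ∈ V := natCast_mem V p
  have hICV : IC V := by
    refine MI_IC fun x hx => ⟨hx W fun v hv => hVW v hv, ?_⟩
    have hxK : x ∈ icl (K : Set Ω) := (MI_vc _ x).2 fun P hP => hx P fun v hv => hP (hVK v hv)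
    have hxi : IsIntegral (Subring.closure (K : Set Ω)) x := hxK
    have hint : IsIntegral K x := by
      obtain ⟨P, hP, hPx⟩ := hxi
      have hle : Subring.closure (K : Set Ω) ≤ K.toSubring := Subring.closure_le.2 fun a ha => ha
      let i : Subring.closure (K : Set Ω) →+* K :=
        (Subring.closure (K : Set Ω)).subtype.codRestrict K fun c => hle c.2
      refine ⟨P.map i, hP.map i, ?_⟩
      rw [eval₂_map]
      exact hPx
    have := minpoly.mem_range_of_degree_eq_one K x
      (IsAlgClosed.degree_eq_one_of_irreducible K (minpoly.irreducible hint))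
    obtain ⟨k, hk⟩ := this
    show x ∈ K
    rw [← hk]
    exact k.2
  have hden : ∀ x ∈ (K : Set Ω), ∃ n : ℕ, (p : Ω) ^ n * x ∈ V := by
    intro x hx
    obtain ⟨n, hn⟩ := hW.2.1 x
    exact ⟨n, hn, K.mul_mem (pow_mem (natCast_mem K p) n) hx⟩
  -- the constant
  set κ : Ω := (p : Ω) * ∑ q, (if χ ⟨τ q, hτU q⟩ ∈ W then 0 else χ ⟨z q, hzU q⟩) -
    χ ⟨w, hwU⟩ with hκdef
  have hκ : κ ∈ K := by
    refine K.sub_mem (K.mul_mem (natCast_mem K p) (K.sum_mem fun q _ => ?_)) (hχm _)
    split_ifs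
    · exact K.zero_mem
    · exact hχm _
  -- the cells
  let tt : Bool → Ω := fun b => if b then t else t⁻¹
  let E : Bool → (Fin n → Bool) → Ω := fun b s =>
    (if b then 0 else y) + (p : Ω) * ∑ q, (if s q then 0 else z q) - w - κ
  let G : Bool → (Fin n → Bool) → Set Ω := fun b s => {tt b} ∪ Set.range (gens τ s)
  have hyW : ∀ P : ValuationSubring Ω, (R : Set Ω) ⊆ P → t ∈ P → t⁻¹ ∈ P → y ∈ P := by
    intro P hP a b
    refine (MI_vc _ y).1 hy P ?_
    rintro x (hx | hx)
    · exact hP hx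
    · rcases hx with rfl | hx
      · exact a
      · rw [Set.mem_singleton_iff.1 hx]
        exact b
  have hzW : ∀ (q : Fin n) (P : ValuationSubring Ω), (R : Set Ω) ⊆ P → τ q ∈ P → (τ q)⁻¹ ∈ P →
      z q ∈ P := by
    intro q P hP a b
    refine (MI_vc _ (z q)).1 (hz q) P ?_
    rintro x (hx | hx)
    · exact hP hx
    · rcases hx with rfl | hx
      · exact a
      · rw [Set.mem_singleton_iff.1 hx]
        exact b
  -- claim A
  have hA : ∀ b s, E b s ∈ icl ((K : Set Ω) ∪ G b s) := by
    intro b s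
    refine (MI_vc _ _).2 fun P hP => ?_
    have hPK : (K : Set Ω) ⊆ P := fun x hx => hP (Or.inl hx)
    have hPR : (R : Set Ω) ⊆ P := fun x hx => hPK (hRK hx)
    have hPt : tt b ∈ P := hP (Or.inr (Or.inl rfl))
    have hPg : ∀ q, gens τ s q ∈ P := fun q => hP (Or.inr (Or.inr ⟨q, rfl⟩))
    have hJ := HJ P hPK
    have hd1 : (if b then 0 else y) - (if t ∈ P then 0 else y) ∈ P := by
      cases b with
      | true =>
        have : t ∈ P := hPt
        rw [if_pos this]
        simp [P.zero_mem]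
      | false =>
        have hti : t⁻¹ ∈ P := hPt
        by_cases htP : t ∈ P
        · rw [if_pos htP]
          simpa using hyW P hPR htP hti
        · rw [if_neg htP]
          simp [P.zero_mem]
    have hd2 : (∑ q, (if s q then 0 else z q)) - (∑ q, (if τ q ∈ P then 0 else z q)) ∈ P := by
      rw [← Finset.sum_sub_distrib]
      refine sum_mem fun q _ => ?_
      have hg := hPg q
      unfold gens at hg
      cases hsq : s q with
      | true =>
        rw [hsq] at hg
        have hg' : τ q ∈ P := by simpa using hg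
        rw [if_pos hg']
        simp [P.zero_mem]
      | false =>
        rw [hsq] at hg
        have hg' : (τ q)⁻¹ ∈ P := by simpa using hg
        by_cases hqP : τ q ∈ P
        · rw [if_pos hqP]
          simpa using hzW q P hPR hqP hg'
        · rw [if_neg hqP]
          simp [P.zero_mem]
    have e : E b s = ((if t ∈ P then 0 else y) + (p : Ω) * ∑ q, (if τ q ∈ P then 0 else z q) - w) +
        ((if b then 0 else y) - (if t ∈ P then 0 else y)) +
        (p : Ω) * ((∑ q, (if s q then 0 else z q)) - (∑ q, (if τ q ∈ P then 0 else z q))) - κ := by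
      show (if b then 0 else y) + (p : Ω) * ∑ q, (if s q then 0 else z q) - w - κ = _
      ring
    rw [e]
    exact sub_mem (P.add_mem _ _ (P.add_mem _ _ hJ hd1)
      (P.mul_mem _ _ (natCast_mem P p) hd2)) (hPK hκ)
  -- claim B
  have hB : ∃ N : ℕ, 1 ≤ N ∧ ∀ b s, (p : Ω) ^ N * E b s ∈ icl ((V : Set Ω) ∪ G b s) := by
    choose N' hN' using fun (b : Bool) (s : Fin n → Bool) => MI_den (G := G b s) hpV hden (hA b s)
    refine ⟨(∑ b, ∑ s, N' b s) + 1, Nat.le_add_left _ _, fun b s => ?_⟩
    have hle : N' b s ≤ (∑ b, ∑ s, N' b s) + 1 := by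
      have a1 : N' b s ≤ ∑ s, N' b s :=
        Finset.single_le_sum (f := fun s => N' b s) (fun _ _ => Nat.zero_le _) (Finset.mem_univ s)
      have a2 : ∑ s, N' b s ≤ ∑ b, ∑ s, N' b s :=
        Finset.single_le_sum (f := fun b => ∑ s, N' b s) (fun _ _ => Nat.zero_le _)
          (Finset.mem_univ b)
      omega
    obtain ⟨k, hk⟩ := Nat.exists_eq_add_of_le hle
    rw [hk]
    have e : (p : Ω) ^ (N' b s + k) * E b s = (p : Ω) ^ k * ((p : Ω) ^ N' b s * E b s) := by ring
    rw [e]
    exact mul_mem (pow_mem (natCast_mem _ p) k) (hN' b s)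
  obtain ⟨N, hN1, hB⟩ := hB
  -- transcendence
  have htrV : Transcendental V t := by
    rintro ⟨f, hf0, hft⟩
    let i : V →+* K := V.subtype.codRestrict K fun v => hVK v.1 v.2
    have hi : Function.Injective i := fun a b hab => by
      apply Subtype.ext
      exact congrArg (fun k : K => (k : Ω)) hab
    refine htr ⟨f.map i, (Polynomial.map_ne_zero_iff hi).2 hf0, ?_⟩
    rw [aeval_def, eval₂_map]
    exact hft
  -- the main estimate
  set EW : Ω := (if t ∈ W then 0 else y) + (p : Ω) * ∑ q, (if τ q ∈ W then 0 else z q) - w - κ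
    with hEW
  have main : ∀ del : ℚ, 0 < del → del ≤ 1 → S.pw del * EW ∈ W := by
    intro del hdel hdel1
    set mu : ℚ := N - del with hmu
    have hN1' : (1 : ℚ) ≤ N := by exact_mod_cast hN1
    have hmu0 : 0 ≤ mu := by linarith
    have hmuN : mu < N := by linarith
    have hπ0 : S.pw mu ≠ 0 := MI_ne hpp S mu
    have hπV : S.pw mu ∈ V := MI_pw_mem hpp S hICV mu hmu0
    have hdel' : ∀ x : Ω, (p : Ω) ^ N * x / S.pw mu = S.pw del * x := by
      intro x
      have : S.pw del = S.pw N / S.pw mu := by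
        rw [← MI_psub hpp S]
        congr 1
        rw [hmu]
        ring
      rw [this, MI_nat hpp S N]
      ring
    -- TREE
    have hT : ∀ b, ∃ a ∈ icl ((V : Set Ω) ∪ {tt b}), ∀ (s : Fin n → Bool)
        (P : ValuationSubring Ω), (icl ((V : Set Ω) ∪ {tt b}) : Set Ω) ⊆ P →
        (∀ q, gens τ s q ∈ P) → (a - (p : Ω) ^ N * E b s) / S.pw mu ∈ P := by
      intro b
      refine h1 Ω p S (icl ((V : Set Ω) ∪ {tt b})) (MI_IC_icl _) n τ hτ0
        (fun s => (p : Ω) ^ N * E b s) N mu hmuN ?_ ?_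
      · intro s P hP hg
        refine MI_le ?_ (hB b s)
        rintro x (hx | hx | ⟨q, rfl⟩)
        · exact hP (MI_sub _ (Or.inl hx))
        · exact hP (MI_sub _ (Or.inr hx))
        · exact hg q
      · intro s s' P hP hg hg'
        have hPR : (R : Set Ω) ⊆ P := fun x hx => hP (MI_sub _ (Or.inl (hRV x hx)))
        rw [MI_nat hpp S N]
        have hp0 : ((p : Ω) ^ N) ≠ 0 := pow_ne_zero _ (by exact_mod_cast hpp.ne_zero)
        have e : ((p : Ω) ^ N * E b s - (p : Ω) ^ N * E b s') / (p : Ω) ^ N =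
            (p : Ω) * ∑ q, ((if s q then 0 else z q) - (if s' q then 0 else z q)) := by
          rw [← mul_sub, mul_div_cancel_left₀ _ hp0, Finset.sum_sub_distrib]
          show ((if b then 0 else y) + (p : Ω) * ∑ q, (if s q then 0 else z q) - w - κ) -
            ((if b then 0 else y) + (p : Ω) * ∑ q, (if s' q then 0 else z q) - w - κ) = _
          ring
        show ((p : Ω) ^ N * E b s - (p : Ω) ^ N * E b s') / (p : Ω) ^ N ∈ P
        rw [e]
        refine P.mul_mem _ _ (natCast_mem P p) (sum_mem fun q _ => ?_)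
        have g1 := hg q
        have g2 := hg' q
        unfold gens at g1 g2
        cases e1 : s q <;> cases e2 : s' q <;> rw [e1] at g1 <;> rw [e2] at g2
        · simp [P.zero_mem]
        · have := hzW q P hPR (by simpa using g2) (by simpa using g1)
          simpa using this
        · have := hzW q P hPR (by simpa using g1) (by simpa using g2)
          simpa using this
        · simp [P.zero_mem]
    obtain ⟨at', hat, hTt⟩ := hT true
    obtain ⟨af, haf, hTf⟩ := hT false
    -- H0
    obtain ⟨sc, hsc1, hsc2⟩ := h3 Ω V hICV t htrV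
    have hdiff : (at' - af) / S.pw mu ∈ icl ((V : Set Ω) ∪ {t, t⁻¹}) := by
      refine (MI_vc _ _).2 fun P hP => ?_
      have hPV : (V : Set Ω) ⊆ P := fun x hx => hP (Or.inl hx)
      have hPR : (R : Set Ω) ⊆ P := fun x hx => hPV (hRV x hx)
      have hPt : t ∈ P := hP (Or.inr (Or.inl rfl))
      have hPt' : t⁻¹ ∈ P := hP (Or.inr (Or.inr rfl))
      let s : Fin n → Bool := fun q => decide (τ q ∈ P)
      have hg : ∀ q, gens τ s q ∈ P := by
        intro q
        unfold gens
        by_cases hq : τ q ∈ P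
        · simp [s, hq]
        · have := (P.mem_or_inv_mem (τ q)).resolve_left hq
          simpa [s, hq] using this
      have a1 := hTt s P (MI_le (by
        rintro x (hx | hx)
        · exact hPV hx
        · rw [Set.mem_singleton_iff.1 hx]; exact hPt)) hg
      have a2 := hTf s P (MI_le (by
        rintro x (hx | hx)
        · exact hPV hx
        · rw [Set.mem_singleton_iff.1 hx]; exact hPt')) hg
      have a3 : S.pw del * y ∈ P := P.mul_mem _ _
        (MI_pw_mem hpp S (MI_IC_val P) del hdel.le) (hyW P hPR hPt hPt')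
      have e : (at' - af) / S.pw mu = (at' - (p : Ω) ^ N * E true s) / S.pw mu -
          (af - (p : Ω) ^ N * E false s) / S.pw mu - S.pw del * y := by
        rw [← hdel' y]
        have : E true s = E false s - y := by
          show (if (true : Bool) = true then 0 else y) +
              (p : Ω) * ∑ q, (if s q then 0 else z q) - w - κ =
            ((if (false : Bool) = true then 0 else y) +
              (p : Ω) * ∑ q, (if s q then 0 else z q) - w - κ) - y
          simp
          ring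
        rw [this]
        field_simp
        ring
      rw [e]
      exact sub_mem (sub_mem a1 a2) a3
    obtain ⟨k1, k2⟩ := h2 Ω V hICV t htrV sc hsc1 hsc2 (S.pw mu) hπV hπ0 ⟨at', hat⟩ af haf hdiff
    set c : Ω := (sc ⟨at', hat⟩ : Ω) with hc
    have hcV : c ∈ V := (sc ⟨at', hat⟩).2
    -- claim F
    have hF : ∀ (b : Bool) (s : Fin n → Bool) (P : ValuationSubring Ω), (V : Set Ω) ⊆ P →
        tt b ∈ P → (∀ q, gens τ s q ∈ P) → ((p : Ω) ^ N * E b s - c) / S.pw mu ∈ P := by
      intro b s P hPV hPt hg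
      have hle : (icl ((V : Set Ω) ∪ {tt b}) : Set Ω) ⊆ P := MI_le (by
        rintro x (hx | hx)
        · exact hPV hx
        · rw [Set.mem_singleton_iff.1 hx]; exact hPt)
      cases b with
      | true =>
        have a1 := hTt s P hle hg
        have a2 : (at' - c) / S.pw mu ∈ P := hle k1
        have e : ((p : Ω) ^ N * E true s - c) / S.pw mu =
            (at' - c) / S.pw mu - (at' - (p : Ω) ^ N * E true s) / S.pw mu := by
          ring
        rw [e]
        exact sub_mem a2 a1
      | false =>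
        have a1 := hTf s P hle hg
        have a2 : (af - c) / S.pw mu ∈ P := hle k2
        have e : ((p : Ω) ^ N * E false s - c) / S.pw mu =
            (af - c) / S.pw mu - (af - (p : Ω) ^ N * E false s) / S.pw mu := by
          ring
        rw [e]
        exact sub_mem a2 a1
    -- claim G
    have hG : c / S.pw mu ∈ V := by
      let s : Fin n → Bool := fun q => decide (χ ⟨τ q, hτU q⟩ ∈ W)
      set x : Ω := ((p : Ω) ^ N * E true s - c) / S.pw mu with hx
      have hxD : x ∈ icl ((V : Set Ω) ∪ G true s) := by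
        refine (MI_vc _ _).2 fun P hP => hF true s P (fun v hv => hP (Or.inl hv))
          (hP (Or.inr (Or.inl rfl))) fun q => hP (Or.inr (Or.inr ⟨q, rfl⟩))
      have hsU : (V : Set Ω) ∪ G true s ⊆ U := by
        rintro v (hv | hv | ⟨q, rfl⟩)
        · exact hKU (hVK v hv)
        · rw [Set.mem_singleton_iff.1 hv]
          exact ht
        · unfold gens
          split_ifs
          · exact hτU q
          · exact hτU' q
      have hxU : x ∈ U := MI_le_IC hU hsU hxD
      have hπU : S.pw mu ∈ U := hKU (hVK _ hπV)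
      have hcU : c ∈ U := hKU (hVK _ hcV)
      have hκU : κ ∈ U := hKU hκ
      have hχx : χ ⟨x, hxU⟩ ∈ V := by
        refine MI_img hICV χ hsU ?_ hxD hxU
        intro v hv
        rcases hv with hv | hv | ⟨q, rfl⟩
        · rw [hχK v _ (hVK v hv)]
          exact hv
        · have hvt : v = t := Set.mem_singleton_iff.1 hv
          subst hvt
          rw [hχt]
          exact natCast_mem V c₀
        · have hτv : χ ⟨τ q, hτU q⟩ * χ ⟨(τ q)⁻¹, hτU' q⟩ = 1 := by
            rw [← map_mul, ← map_one χ]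
            congr 1
            apply Subtype.ext
            exact mul_inv_cancel₀ (hτ0 q)
          by_cases hq : χ ⟨τ q, hτU q⟩ ∈ W
          · have e : gens τ s q = τ q := by simp [gens, s, hq]
            have e' : (⟨gens τ s q, hsU (Or.inr (Or.inr ⟨q, rfl⟩))⟩ : U) = ⟨τ q, hτU q⟩ :=
              Subtype.ext e
            show χ ⟨gens τ s q, _⟩ ∈ V
            rw [e']
            exact ⟨hq, hχm _⟩
          · have e : gens τ s q = (τ q)⁻¹ := by simp [gens, s, hq]
            have e' : (⟨gens τ s q, hsU (Or.inr (Or.inr ⟨q, rfl⟩))⟩ : U) =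
                ⟨(τ q)⁻¹, hτU' q⟩ := Subtype.ext e
            show χ ⟨gens τ s q, _⟩ ∈ V
            rw [e']
            refine ⟨?_, hχm _⟩
            have h5 := (W.mem_or_inv_mem (χ ⟨τ q, hτU q⟩)).resolve_left hq
            rw [inv_eq_of_mul_eq_one_right hτv] at h5
            exact h5
      -- computation of `χ x`
      let EU : U := (p : U) * ∑ q, (if s q then 0 else ⟨z q, hzU q⟩) - ⟨w, hwU⟩ - ⟨κ, hκU⟩
      have hEU : (EU : Ω) = E true s := by
        show (((p : U) * ∑ q, (if s q then 0 else (⟨z q, hzU q⟩ : U)) - ⟨w, hwU⟩ -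
          ⟨κ, hκU⟩ : U) : Ω) = (if (true : Bool) = true then 0 else y) +
          (p : Ω) * ∑ q, (if s q then 0 else z q) - w - κ
        have hs : (∑ q, ((if s q then 0 else (⟨z q, hzU q⟩ : U) : U) : Ω)) =
            ∑ q, (if s q then 0 else z q) :=
          Finset.sum_congr rfl fun q _ => by split_ifs <;> rfl
        push_cast
        rw [if_pos rfl, zero_add, ← hs]
      have hχE : χ EU = 0 := by
        show χ ((p : U) * ∑ q, (if s q then 0 else (⟨z q, hzU q⟩ : U)) - ⟨w, hwU⟩ -
          ⟨κ, hκU⟩) = 0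
        rw [map_sub, map_sub, map_mul, map_natCast, map_sum, hχK κ hκU hκ, hκdef, sub_eq_zero]
        congr 2
        refine Finset.sum_congr rfl fun q _ => ?_
        by_cases hq : χ ⟨τ q, hτU q⟩ ∈ W
        · simp [s, hq]
        · simp [s, hq]
      have hrel : (⟨S.pw mu, hπU⟩ : U) * ⟨x, hxU⟩ = (p : U) ^ N * EU - ⟨c, hcU⟩ := by
        apply Subtype.ext
        push_cast
        rw [hEU, hx]
        field_simp
      have hrel' := congrArg χ hrel
      rw [map_mul, map_sub, map_mul, hχE, mul_zero, zero_sub, hχK _ hπU (hVK _ hπV),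
        hχK _ hcU (hVK _ hcV)] at hrel'
      have e : c / S.pw mu = -χ ⟨x, hxU⟩ := by
        rw [div_eq_iff hπ0]
        linear_combination hrel'
      rw [e]
      exact V.neg_mem hχx
    -- conclusion for `W`
    let s : Fin n → Bool := fun q => decide (τ q ∈ W)
    have hg : ∀ q, gens τ s q ∈ W := by
      intro q
      unfold gens
      by_cases hq : τ q ∈ W
      · simp [s, hq]
      · have := (W.mem_or_inv_mem (τ q)).resolve_left hq
        simpa [s, hq] using this
    have htW : tt (decide (t ∈ W)) ∈ W := by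
      by_cases hq : t ∈ W
      · simp [tt, hq]
      · have := (W.mem_or_inv_mem t).resolve_left hq
        simpa [tt, hq] using this
    have a1 := hF (decide (t ∈ W)) s W (fun v hv => hVW v hv) htW hg
    have a2 := hVW _ hG
    have eE : E (decide (t ∈ W)) s = EW := by
      show (if decide (t ∈ W) = true then 0 else y) +
        (p : Ω) * ∑ q, (if s q then 0 else z q) - w - κ = EW
      rw [hEW]
      congr 2
      congr 1
      · by_cases hq : t ∈ W <;> simp [hq]
      · congr 1
        refine Finset.sum_congr rfl fun q _ => ?_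
        by_cases hq : τ q ∈ W <;> simp [s, hq]
    rw [eE] at a1
    have e : S.pw del * EW = ((p : Ω) ^ N * EW - c) / S.pw mu + c / S.pw mu := by
      rw [← hdel' EW]
      ring
    rw [e]
    exact W.add_mem _ _ a1 a2
  -- rank one
  have hfin : EW ∈ W := by
    by_contra hcon
    have hinv : EW⁻¹ ∈ W := (W.mem_or_inv_mem EW).resolve_left hcon
    have hinv' : (EW⁻¹)⁻¹ ∉ W := by rw [inv_inv]; exact hcon
    obtain ⟨m, hm⟩ := hW.2.2 EW⁻¹ hinv hinv'
    have hE0 : EW ≠ 0 := fun h => hcon (h ▸ W.zero_mem)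
    have hp0 : (p : Ω) ≠ 0 := by exact_mod_cast hpp.ne_zero
    have hm1 : (0 : ℚ) < 1 / (m + 1) := by positivity
    have hm2 : (1 : ℚ) / (m + 1) ≤ 1 := by
      rw [div_le_one (by positivity)]
      have : (0 : ℚ) ≤ m := Nat.cast_nonneg m
      linarith
    have h5 := main _ hm1 hm2
    have h6 : (S.pw (1 / (m + 1)) * EW) ^ (m + 1) ∈ W := pow_mem h5 _
    have h7 : (S.pw (1 / (m + 1)) * EW) ^ (m + 1) = (p : Ω) * EW ^ (m + 1) := by
      rw [mul_pow, ← MI_nsmul hpp S]
      have : ((m + 1 : ℕ) : ℚ) * (1 / (m + 1)) = 1 := by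
        push_cast
        field_simp
      rw [this, S.one]
    rw [h7] at h6
    have h8 : EW = ((p : Ω) * EW ^ (m + 1)) * (EW⁻¹ ^ m / (p : Ω)) := by
      rw [inv_pow, pow_succ]
      field_simp
    apply hcon
    rw [h8]
    exact W.mul_mem _ _ h6 hm
  have e : (if t ∈ W then 0 else y) + (p : Ω) * ∑ q, (if τ q ∈ W then 0 else z q) - w -
      ((p : Ω) * ∑ q, (if χ ⟨τ q, hτU q⟩ ∈ W then 0 else χ ⟨z q, hzU q⟩) - χ ⟨w, hwU⟩) = EW := by
    rw [hEW]
  convert hfin using 1

end Pool.Agent.Helper44.SPL
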