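import Pool.Agent.Helper44.SPL.St

/-! Module MU of project SPL: the finitely many minimal polynomials at the generic primes. -/

set_option autoImplicit false

namespace Pool.Agent.Helper44.SPL

open Polynomial

universe u

/-- a monic polynomial over a domain is a product of monic irreducible polynomials. -/
private theorem MU_fac {R : Type u} [CommRing R] [IsDomain R] : ∀ (n : ℕ) (P : R[X]), P.Monic →
    P.natDegree ≤ n → ∃ s : Multiset R[X], (∀ μ ∈ s, μ.Monic ∧ Irreducible μ) ∧ s.prod = P := by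
  intro n
  induction n with
  | zero =>
    intro P hP hn
    refine ⟨0, by simp, ?_⟩
    rw [Multiset.prod_zero]
    exact (hP.natDegree_eq_zero.1 (Nat.le_zero.1 hn)).symm
  | succ n ih =>
    intro P hP hn
    by_cases h1 : P = 1
    · exact ⟨0, by simp, by rw [Multiset.prod_zero, h1]⟩
    by_cases hirr : Irreducible P
    · exact ⟨{P}, fun μ hμ => by rw [Multiset.mem_singleton] at hμ; subst hμ; exact ⟨hP, hirr⟩,
        Multiset.prod_singleton P⟩
    · rw [hP.irreducible_iff_natDegree] at hirr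
      push Not at hirr
      obtain ⟨f, g, hf, hg, hfg, hf0, hg0⟩ := hirr h1
      have hdeg : P.natDegree = f.natDegree + g.natDegree := by rw [← hfg, hf.natDegree_mul hg]
      obtain ⟨s, hs, hsf⟩ := ih f hf (by omega)
      obtain ⟨t, ht, htg⟩ := ih g hg (by omega)
      refine ⟨s + t, fun μ hμ => ?_, by rw [Multiset.prod_add, hsf, htg, hfg]⟩
      rcases Multiset.mem_add.1 hμ with h | h
      · exact hs μ h
      · exact ht μ h

section

variable {Ω : Type u} [Field Ω]

private theorem MU_sub (s : Set Ω) : s ⊆ icl s := fun x hx => by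
  have : IsIntegral (Subring.closure s) x :=
    isIntegral_algebraMap (R := Subring.closure s) (x := ⟨x, Subring.subset_closure hx⟩)
  exact this

private theorem MU_le (T : Subring Ω) (X : Ω) : T ≤ icl ((T : Set Ω) ∪ {X}) := fun _ hx =>
  MU_sub _ (Or.inl hx)

private theorem MU_memX (T : Subring Ω) (X : Ω) : X ∈ icl ((T : Set Ω) ∪ {X}) :=
  MU_sub _ (Or.inr rfl)

/-- evaluation with values in `icl (T, X)`. -/
private noncomputable def MU_phi (T : Subring Ω) (X y : Ω) (hy : y ∈ icl ((T : Set Ω) ∪ {X})) :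
    T[X][X] →+* icl ((T : Set Ω) ∪ {X}) :=
  eval₂RingHom (eval₂RingHom (Subring.inclusion (MU_le T X)) ⟨X, MU_memX T X⟩) ⟨y, hy⟩

private theorem MU_phi_coe (T : Subring Ω) (X y : Ω) (hy : y ∈ icl ((T : Set Ω) ∪ {X}))
    (F : T[X][X]) : (MU_phi T X y hy F : Ω) = ev2 T.subtype F X y := by
  have h : (icl ((T : Set Ω) ∪ {X})).subtype.comp (MU_phi T X y hy)
      = (evalRingHom y).comp (mapRingHom (eval₂RingHom T.subtype X)) := by
    apply Polynomial.ringHom_ext
    · intro a
      simp only [MU_phi, RingHom.comp_apply, coe_eval₂RingHom, eval₂_C, coe_mapRingHom, map_C,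
        coe_evalRingHom, eval_C]
      rw [hom_eval₂]
      rfl
    · simp [MU_phi]
  exact congrArg (fun f => f F) h

private theorem MU_pol (T : Subring Ω) (X y : Ω) (hy : y ∈ icl ((T : Set Ω) ∪ {X})) :
    ∃ P : T[X][X], P.Monic ∧ MU_phi T X y hy P = 0 := by
  set g : T[X] →+* Ω := eval₂RingHom T.subtype X with hg
  have hcl : Subring.closure ((T : Set Ω) ∪ {X}) ≤ g.range := by
    rw [Subring.closure_le]
    rintro x (hx | hx)
    · exact ⟨C ⟨x, hx⟩, by simp [hg]⟩
    · rw [Set.mem_singleton_iff] at hx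
      subst hx
      exact ⟨Polynomial.X, by simp [hg]⟩
  have hyi : IsIntegral (Subring.closure ((T : Set Ω) ∪ {X})) y := hy
  obtain ⟨p, hp, hpy⟩ := hyi
  set j : Subring.closure ((T : Set Ω) ∪ {X}) →+* g.range := Subring.inclusion hcl with hj
  have hsurj : Function.Surjective g.rangeRestrict := g.rangeRestrict_surjective
  obtain ⟨P, hP1, -, hP3⟩ := lifts_and_natDegree_eq_and_monic (f := g.rangeRestrict) (p := p.map j)
    ((mem_lifts _).2 (Polynomial.map_surjective _ hsurj _)) (hp.map j)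
  refine ⟨P, hP3, ?_⟩
  apply Subtype.ext
  rw [MU_phi_coe]
  have e1 : ev2 T.subtype P X y = eval₂ g y P := by
    rw [ev2, eval_map]
  have e2 : eval₂ g y P = eval₂ g.range.subtype y (P.map g.rangeRestrict) := by
    rw [eval₂_map]
    rfl
  rw [e1, e2, hP1, eval₂_map]
  exact hpy

private theorem MU_psi (T : Subring Ω) [IsLocalRing T] (X y : Ω)
    (hy : y ∈ icl ((T : Set Ω) ∪ {X})) (q : Ideal (icl ((T : Set Ω) ∪ {X})))
    (hq : Gen T (icl ((T : Set Ω) ∪ {X})) X q) :
    ∃ ψ : (IsLocalRing.ResidueField T)[X][X] →+* (icl ((T : Set Ω) ∪ {X})) ⧸ q,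
      ∀ F : T[X][X], ψ (F.map (mapRingHom (IsLocalRing.residue T)))
        = Ideal.Quotient.mk q (MU_phi T X y hy F) := by
  have hker : ∀ a ∈ IsLocalRing.maximalIdeal T,
      ((Ideal.Quotient.mk q).comp (Subring.inclusion (MU_le T X))) a = 0 := by
    intro a ha
    rw [RingHom.comp_apply, Ideal.Quotient.eq_zero_iff_mem]
    have hnu : (a : Ω) ∈ nu T := by
      refine ⟨a.2, ?_⟩
      by_contra hcon
      push Not at hcon
      obtain ⟨h0, hinv⟩ := hcon
      have hu : IsUnit a := by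
        refine IsUnit.of_mul_eq_one ⟨(a : Ω)⁻¹, hinv⟩ ?_
        apply Subtype.ext
        show (a : Ω) * (a : Ω)⁻¹ = 1
        exact mul_inv_cancel₀ h0
      exact (IsLocalRing.mem_maximalIdeal a).1 ha hu
    have hae : aeval X (C a : T[X]) = (a : Ω) := by
      rw [aeval_C]
      rfl
    have hmem : aeval X (C a : T[X]) ∈ icl ((T : Set Ω) ∪ {X}) := by
      rw [hae]
      exact MU_le T X a.2
    have h1 := (hq.iff (C a) hmem).2 (fun i => by
      rw [coeff_C]
      split_ifs with h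
      · exact hnu
      · exact ⟨T.zero_mem, Or.inl rfl⟩)
    have h2 : (⟨aeval X (C a : T[X]), hmem⟩ : icl ((T : Set Ω) ∪ {X})) = Subring.inclusion (MU_le T X) a := by
      apply Subtype.ext
      exact hae
    rw [← h2]
    exact h1
  let r : IsLocalRing.ResidueField T →+* icl ((T : Set Ω) ∪ {X}) ⧸ q :=
    Ideal.Quotient.lift (IsLocalRing.maximalIdeal T)
      ((Ideal.Quotient.mk q).comp (Subring.inclusion (MU_le T X))) hker
  have hr : ∀ a : T, r (IsLocalRing.residue T a)
      = Ideal.Quotient.mk q (Subring.inclusion (MU_le T X) a) := fun a => rfl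
  refine ⟨eval₂RingHom (eval₂RingHom r (Ideal.Quotient.mk q ⟨X, MU_memX T X⟩))
    (Ideal.Quotient.mk q ⟨y, hy⟩), fun F => ?_⟩
  have h : (eval₂RingHom (eval₂RingHom r (Ideal.Quotient.mk q ⟨X, MU_memX T X⟩))
    (Ideal.Quotient.mk q ⟨y, hy⟩)).comp (mapRingHom (mapRingHom (IsLocalRing.residue T)))
      = (Ideal.Quotient.mk q).comp (MU_phi T X y hy) := by
    apply Polynomial.ringHom_ext
    · intro a
      simp only [MU_phi, RingHom.comp_apply, coe_eval₂RingHom, coe_mapRingHom, map_C, eval₂_C]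
      rw [eval₂_map, hom_eval₂]
      congr 1
    · simp only [MU_phi, RingHom.comp_apply, coe_eval₂RingHom, coe_mapRingHom, map_X, eval₂_X]
  exact congrArg (fun f => f F) h

end

theorem m_MU (_h : StSEID.{u}) : StMU.{u} := by
  intro Ω _ _ T _ _ X _ _ y hy
  classical
  obtain ⟨P, hP, hP0⟩ := MU_pol T X y hy
  obtain ⟨s, hs, hsP⟩ := MU_fac _ (P.map (mapRingHom (IsLocalRing.residue T))) (hP.map _) le_rfl
  have hkey : ∀ q : Ideal (icl ((T : Set Ω) ∪ {X})), ∀ ψ : (IsLocalRing.ResidueField T)[X][X] →+*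
      (icl ((T : Set Ω) ∪ {X})) ⧸ q, (∀ F : T[X][X],
        ψ (F.map (mapRingHom (IsLocalRing.residue T))) = Ideal.Quotient.mk q (MU_phi T X y hy F)) →
      ∀ G : (IsLocalRing.ResidueField T)[X][X], ψ G = 0 →
      ∀ F : T[X][X], F.map (mapRingHom (IsLocalRing.residue T)) = G →
        ∀ h : ev2 T.subtype F X y ∈ icl ((T : Set Ω) ∪ {X}),
          (⟨ev2 T.subtype F X y, h⟩ : icl ((T : Set Ω) ∪ {X})) ∈ q := by
    intro q ψ hψ G hG F hF h
    have h1 := hψ F
    rw [hF, hG] at h1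
    have h2 := Ideal.Quotient.eq_zero_iff_mem.1 h1.symm
    have h3 : (⟨ev2 T.subtype F X y, h⟩ : icl ((T : Set Ω) ∪ {X})) = MU_phi T X y hy F := by
      apply Subtype.ext
      exact (MU_phi_coe T X y hy F).symm
    rw [h3]
    exact h2
  refine ⟨s.filter (fun μ => ∃ q : Ideal (icl ((T : Set Ω) ∪ {X})),
      Gen T (icl ((T : Set Ω) ∪ {X})) X q ∧
      ∀ F : T[X][X], F.map (mapRingHom (IsLocalRing.residue T)) = μ →
        ∀ h : ev2 T.subtype F X y ∈ icl ((T : Set Ω) ∪ {X}),
          (⟨ev2 T.subtype F X y, h⟩ : icl ((T : Set Ω) ∪ {X})) ∈ q), ?_, ?_⟩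
  · intro μ hμ
    rw [Multiset.mem_filter] at hμ
    exact ⟨(hs μ hμ.1).1, (hs μ hμ.1).2, hμ.2⟩
  · intro q hq
    obtain ⟨ψ, hψ⟩ := MU_psi T X y hy q hq
    have := hq.prime
    have : IsDomain ((icl ((T : Set Ω) ∪ {X})) ⧸ q) := Ideal.Quotient.isDomain q
    have h1 : ψ s.prod = 0 := by
      rw [hsP, hψ, hP0, map_zero]
    rw [map_multiset_prod, Multiset.prod_eq_zero_iff, Multiset.mem_map] at h1
    obtain ⟨μ, hμ, hμ0⟩ := h1
    have h2 : μ ∈ s.filter (fun μ => ∃ q : Ideal (icl ((T : Set Ω) ∪ {X})),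
      Gen T (icl ((T : Set Ω) ∪ {X})) X q ∧
      ∀ F : T[X][X], F.map (mapRingHom (IsLocalRing.residue T)) = μ →
        ∀ h : ev2 T.subtype F X y ∈ icl ((T : Set Ω) ∪ {X}),
          (⟨ev2 T.subtype F X y, h⟩ : icl ((T : Set Ω) ∪ {X})) ∈ q) := by
      rw [Multiset.mem_filter]
      exact ⟨hμ, q, hq, hkey q ψ hψ μ hμ0⟩
    refine hkey q ψ hψ _ ?_
    rw [map_multiset_prod, Multiset.prod_eq_zero_iff, Multiset.mem_map]
    exact ⟨μ, h2, hμ0⟩

end Pool.Agent.Helper44.SPL
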