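import Pool.Agent.Helper44.SPL.St3

/-!
# Module NDEG: the weighted degree bound for the norm
-/

set_option autoImplicit false

namespace Pool.Agent.Helper44.SPL

open Polynomial

universe u

/-- degree of a determinant with weights: if `deg M i j + w i ≤ v j` for all nonzero entries. -/
lemma NDEG_det {A : Type u} [CommRing A] {ι : Type} [Fintype ι] [DecidableEq ι]
    (M : Matrix ι ι A[X]) (w v : ι → ℕ) (D : ℕ)
    (h : ∀ i j, M i j ≠ 0 → (M i j).natDegree + w i ≤ v j) (hD : ∑ j, v j ≤ D + ∑ i, w i) :
    M.det.natDegree ≤ D := by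
  rw [Matrix.det_apply]
  refine natDegree_sum_le_of_forall_le _ _ (fun σ _ => ?_)
  refine (natDegree_smul_le _ _).trans ?_
  by_cases hz : ∃ j, M (σ j) j = 0
  · obtain ⟨j, hj⟩ := hz
    have : ∏ i, M (σ i) i = 0 := Finset.prod_eq_zero (Finset.mem_univ j) hj
    rw [this]
    simp
  · push Not at hz
    refine (natDegree_prod_le _ _).trans ?_
    have h1 : ∑ j, ((M (σ j) j).natDegree + w (σ j)) ≤ ∑ j, v j :=
      Finset.sum_le_sum (fun j _ => h _ _ (hz j))
    rw [Finset.sum_add_distrib, Equiv.sum_comp σ w] at h1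
    omega

theorem m_NDEG : StNDEG.{u} := by
  intro A _ n e D f G hf hn hfd hG heD hGd
  unfold Nm resultant
  refine NDEG_det (sylvester f G n n) (fun i => e * (i : ℕ))
    (fun j => Fin.addCases (fun j₁ : Fin n => D + e * (j₁ : ℕ))
      (fun j₁ : Fin n => e * n + e * (j₁ : ℕ)) j) (n * D) ?_ ?_
  · intro i j
    refine Fin.addCases (fun j₁ => ?_) (fun j₁ => ?_) j
    · simp only [sylvester, Matrix.of_apply, Fin.addCases_left]
      split_ifs with hij
      · intro hne
        obtain ⟨hij1, hij2⟩ := hij
        have hlt : (i : ℕ) - j₁ < n := by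
          by_contra hcon
          apply hne
          exact coeff_eq_zero_of_natDegree_lt (by omega)
        have h1 := hGd _ hlt
        have h2 : e * ((i : ℕ) - j₁) ≤ e * n := Nat.mul_le_mul_left e hlt.le
        have h3 : e * (i : ℕ) = e * ((i : ℕ) - j₁) + e * (j₁ : ℕ) := by
          rw [← Nat.mul_add]; congr 1; omega
        omega
      · intro hne; exact absurd rfl hne
    · simp only [sylvester, Matrix.of_apply, Fin.addCases_right]
      split_ifs with hij
      · intro _
        obtain ⟨hij1, hij2⟩ := hij
        have h1 := hfd ((i : ℕ) - j₁) (by omega)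
        have h3 : e * (i : ℕ) = e * ((i : ℕ) - j₁) + e * (j₁ : ℕ) := by
          rw [← Nat.mul_add]; congr 1; omega
        have h4 : e * (n - ((i : ℕ) - j₁)) + e * ((i : ℕ) - j₁) = e * n := by
          rw [← Nat.mul_add]; congr 1; omega
        omega
      · intro hne; exact absurd rfl hne
  · rw [Fin.sum_univ_add]
    simp only [Fin.addCases_left, Fin.addCases_right, Finset.sum_add_distrib, Finset.sum_const,
      Finset.card_univ, Fintype.card_fin, smul_eq_mul]
    have e1 : ∑ i : Fin (n + n), e * (i : ℕ) = ∑ j : Fin n, e * (j : ℕ) +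
        ∑ j : Fin n, (e * n + e * (j : ℕ)) := by
      rw [Fin.sum_univ_add]
      congr 1
      refine Finset.sum_congr rfl (fun j _ => ?_)
      simp only [Fin.val_natAdd]
      ring
    rw [e1]
    simp only [Finset.sum_add_distrib, Finset.sum_const, Finset.card_univ, Fintype.card_fin,
      smul_eq_mul]
    omega

end Pool.Agent.Helper44.SPL
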