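import Pool.Agent.Helper44.SPL.St

/-! Module NI of project SPL: torsion freeness of the reduced closed fibre over `κ[X]`. -/

set_option autoImplicit false

namespace Pool.Agent.Helper44.SPL

open Polynomial

universe u

private theorem NI_sub {Ω : Type u} [Field Ω] {s : Set Ω} {x : Ω} (hx : x ∈ s) : x ∈ icl s := by
  have h : x ∈ Subring.closure s := Subring.subset_closure hx
  exact isIntegral_algebraMap (R := Subring.closure s) (A := Ω) (x := ⟨x, h⟩)

private theorem NI_int {Ω : Type u} [Field Ω] {T : Subring Ω} (hT : IC T) {r : Ω}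
    (h : IsIntegral T r) : r ∈ T := by
  have h1 : ∀ S : Subring Ω, S = T → IsIntegral S r := by
    rintro S rfl
    exact h
  have h2 : r ∈ icl (T : Set Ω) := h1 _ (Subring.closure_eq T)
  rw [hT] at h2
  exact h2

private theorem NI_mul {Ω : Type u} [Field Ω] {N : Set Ω} {D : Subring Ω} {d y : Ω} (hd : d ∈ D)
    (hy : y ∈ ext N D) : d * y ∈ ext N D :=
  Submodule.smul_mem (ext N D) (⟨d, hd⟩ : D) hy

private theorem NI_ind (h : StNI0.{u}) {Ω : Type u} [Field Ω] [IsAlgClosed Ω] {T : Subring Ω}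
    (hl : IsLocalRing T) (hT : IC T) {X : Ω} (hX : X ∉ T) (hX' : X⁻¹ ∉ T) (s : Multiset Ω) :
    (∀ ξ ∈ s, ξ ∈ T) → ∀ (m : ℕ) (g : Ω), g ∈ icl ((T : Set Ω) ∪ {X}) →
      (s.map (X - ·)).prod ^ m * g ∈ ext (nu T) (icl ((T : Set Ω) ∪ {X})) →
      ∃ N' : ℕ, g ^ N' ∈ ext (nu T) (icl ((T : Set Ω) ∪ {X})) := by
  have hXD : X ∈ icl ((T : Set Ω) ∪ {X}) := NI_sub (Or.inr rfl)
  have hTD : ∀ x ∈ T, x ∈ icl ((T : Set Ω) ∪ {X}) := fun x hx => NI_sub (Or.inl hx)
  induction s using Multiset.induction_on with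
  | empty =>
    intro _ m g _ h1
    refine ⟨1, ?_⟩
    simpa using h1
  | cons ξ s ih =>
    intro hs m g hg h1
    have hξ : ξ ∈ T := hs ξ (Multiset.mem_cons_self _ _)
    have hs' : ∀ η ∈ s, η ∈ T := fun η hη => hs η (Multiset.mem_cons_of_mem hη)
    have hP : (s.map (X - ·)).prod ∈ icl ((T : Set Ω) ∪ {X}) := by
      refine Subring.multiset_prod_mem _ _ fun a ha => ?_
      obtain ⟨η, hη, rfl⟩ := Multiset.mem_map.1 ha
      exact Subring.sub_mem _ hXD (hTD η (hs' η hη))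
    have h2 : (X - ξ) ^ m * ((s.map (X - ·)).prod ^ m * g) ∈
        ext (nu T) (icl ((T : Set Ω) ∪ {X})) := by
      rw [Multiset.map_cons, Multiset.prod_cons, mul_pow, mul_assoc] at h1
      exact h1
    obtain ⟨N', hN'⟩ := h Ω T hl hT X hX hX' _
      (Subring.mul_mem _ (Subring.pow_mem _ hP m) hg) ξ hξ m h2
    rw [mul_pow, ← pow_mul] at hN'
    obtain ⟨N'', hN''⟩ := ih hs' (m * N') (g ^ N') (Subring.pow_mem _ hg N') hN'
    exact ⟨N' * N'', by rw [pow_mul]; exact hN''⟩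

theorem m_NI (h : StNI0.{u}) : StNI.{u} := by
  intro Ω _ _ T hl hT X hX hX' g hg f N hf hfg
  classical
  have hXD : X ∈ icl ((T : Set Ω) ∪ {X}) := NI_sub (Or.inr rfl)
  have hTD : ∀ x ∈ T, x ∈ icl ((T : Set Ω) ∪ {X}) := fun x hx => NI_sub (Or.inl hx)
  -- the last coefficient which is a unit
  obtain ⟨i₀, hi₀⟩ := hf
  have hne : ((Finset.range (f.natDegree + 1)).filter
      (fun i => (f.coeff i : Ω) ∉ nu T)).Nonempty := by
    refine ⟨i₀, Finset.mem_filter.2 ⟨?_, hi₀⟩⟩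
    by_contra hcon
    rw [Finset.mem_range, not_lt] at hcon
    apply hi₀
    rw [Polynomial.coeff_eq_zero_of_natDegree_lt (by omega)]
    exact ⟨Subring.zero_mem _, Or.inl rfl⟩
  obtain ⟨e, he⟩ : ∃ e, e = ((Finset.range (f.natDegree + 1)).filter
      (fun i => (f.coeff i : Ω) ∉ nu T)).max' hne := ⟨_, rfl⟩
  have he1 := Finset.max'_mem _ hne
  rw [← he, Finset.mem_filter, Finset.mem_range] at he1
  obtain ⟨hen, hea⟩ := he1
  have hmax : ∀ i, e < i → i < f.natDegree + 1 → (f.coeff i : Ω) ∈ nu T := by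
    intro i hi hi'
    by_contra hcon
    have h0 : i ∈ (Finset.range (f.natDegree + 1)).filter
        (fun i => (f.coeff i : Ω) ∉ nu T) := Finset.mem_filter.2 ⟨Finset.mem_range.2 hi', hcon⟩
    have h1 := Finset.le_max' _ i h0
    rw [← he] at h1
    omega
  obtain ⟨a, ha⟩ : ∃ a : T, a = f.coeff e := ⟨_, rfl⟩
  have ha0 : (a : Ω) ≠ 0 := by
    intro h0
    apply hea
    rw [← ha, h0]
    exact ⟨Subring.zero_mem _, Or.inl rfl⟩
  have hai : (a : Ω)⁻¹ ∈ T := by
    by_contra hcon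
    apply hea
    rw [← ha]
    exact ⟨a.2, Or.inr hcon⟩
  -- the monic polynomial
  obtain ⟨P, hP⟩ : ∃ P : T[X], P = Polynomial.X ^ e +
      ∑ i : Fin e, C ((⟨(a : Ω)⁻¹, hai⟩ : T) * f.coeff i) * Polynomial.X ^ (i : ℕ) := ⟨_, rfl⟩
  have hPm : P.Monic := by
    rw [hP]
    exact monic_X_pow_add (degree_sum_fin_lt _)
  have hPX : aeval X P = X ^ e +
      ∑ i ∈ Finset.range e, ((a : Ω)⁻¹ * (f.coeff i : Ω)) * X ^ i := by
    rw [hP, map_add, map_pow, aeval_X, map_sum, Finset.sum_range]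
    congr 1
    refine Finset.sum_congr rfl fun i _ => ?_
    rw [map_mul, aeval_C, map_pow, aeval_X]
    rfl
  have hsplit : aeval X f = (a : Ω) * aeval X P +
      ∑ i ∈ Finset.Ico (e + 1) (f.natDegree + 1), (f.coeff i : Ω) * X ^ i := by
    have h1 : aeval X f = ∑ i ∈ Finset.range (f.natDegree + 1), (f.coeff i : Ω) * X ^ i := by
      rw [aeval_eq_sum_range]
      exact Finset.sum_congr rfl fun i _ => by rw [Algebra.smul_def]; rfl
    rw [h1, ← Finset.sum_range_add_sum_Ico _ (show e + 1 ≤ f.natDegree + 1 by omega)]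
    congr 1
    rw [Finset.sum_range_succ, hPX, mul_add, Finset.mul_sum, ← ha, add_comm]
    congr 1
    refine Finset.sum_congr rfl fun i _ => ?_
    rw [← mul_assoc, ← mul_assoc, mul_inv_cancel₀ ha0, one_mul]
  have hgN : g ^ N ∈ icl ((T : Set Ω) ∪ {X}) := Subring.pow_mem _ hg N
  have hrest : (∑ i ∈ Finset.Ico (e + 1) (f.natDegree + 1), (f.coeff i : Ω) * X ^ i) * g ^ N ∈
      ext (nu T) (icl ((T : Set Ω) ∪ {X})) := by
    rw [Finset.sum_mul]
    refine Submodule.sum_mem _ fun i hi => ?_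
    rw [Finset.mem_Ico] at hi
    have h1 : (f.coeff i : Ω) * X ^ i * g ^ N = (X ^ i * g ^ N) * (f.coeff i : Ω) := by ring
    rw [h1]
    exact NI_mul (Subring.mul_mem _ (Subring.pow_mem _ hXD i) hgN)
      (Submodule.subset_span (hmax i (by omega) hi.2))
  have hmain : aeval X P * g ^ N ∈ ext (nu T) (icl ((T : Set Ω) ∪ {X})) := by
    have h1 : aeval X P * g ^ N = (a : Ω)⁻¹ * (aeval X f * g ^ N -
        (∑ i ∈ Finset.Ico (e + 1) (f.natDegree + 1), (f.coeff i : Ω) * X ^ i) * g ^ N) := by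
      rw [hsplit]
      field_simp
      ring
    rw [h1]
    exact NI_mul (hTD _ hai) (Submodule.sub_mem _ hfg hrest)
  -- the roots
  have hroots : aeval X P = ((P.aroots Ω).map (X - ·)).prod :=
    (IsAlgClosed.splits (P.map (algebraMap T Ω))).aeval_eq_prod_aroots_of_monic hPm X
  have hrT : ∀ r ∈ P.aroots Ω, r ∈ T := by
    intro r hr
    refine NI_int hT ⟨P, hPm, ?_⟩
    have h1 := (Polynomial.mem_aroots.1 hr).2
    rw [aeval_def] at h1
    exact h1
  obtain ⟨N', hN'⟩ := NI_ind h hl hT hX hX' (P.aroots Ω) hrT 1 (g ^ N) hgN (by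
    rw [pow_one, ← hroots]
    exact hmain)
  exact ⟨N * N', by rw [pow_mul]; exact hN'⟩

end Pool.Agent.Helper44.SPL
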