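import Pool.Agent.Helper44.SPL.St3

/-!
# Module NM: the algebra of `Nm` and `dNm`
-/

set_option autoImplicit false

namespace Pool.Agent.Helper44.SPL

open Polynomial

universe u

lemma NM_prod {A : Type u} [CommRing A] (n : ℕ) (r : Fin n → A) (G : A[X])
    (hG : G.natDegree ≤ n) : Nm n (∏ i, (X - C (r i))) G = ∏ i, G.eval (r i) := by
  nontriviality A
  unfold Nm
  have h1 : (∏ i ∈ (Finset.univ : Finset (Fin n)), (X - C (r i))).natDegree = n := by
    rw [natDegree_prod_of_monic _ _ (fun i _ => monic_X_sub_C _)]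
    simp
  have h2 := resultant_prod_left (Finset.univ : Finset (Fin n)) (fun i => X - C (r i)) G n
    (by simp) hG
  rw [h1] at h2
  rw [h2]
  refine Finset.prod_congr rfl (fun i _ => ?_)
  rw [natDegree_X_sub_C, resultant_X_sub_C_left _ _ _ hG]

/-- the coefficient of `X` in a product of linear polynomials. -/
lemma NM_coeff_one {A : Type u} [CommRing A] {ι : Type} [DecidableEq ι] (s : Finset ι)
    (g h : ι → A) : (∏ i ∈ s, (C (g i) + X * C (h i))).coeff 0 = ∏ i ∈ s, g i ∧
      (∏ i ∈ s, (C (g i) + X * C (h i))).coeff 1 = ∑ i ∈ s, h i * ∏ j ∈ s.erase i, g j := by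
  induction s using Finset.induction with
  | empty => simp [coeff_one]
  | insert a s ha ih =>
    rw [Finset.prod_insert ha, Finset.prod_insert ha, Finset.sum_insert ha,
      Finset.erase_insert ha]
    constructor
    · rw [mul_coeff_zero, ih.1]; simp
    · rw [coeff_mul, Finset.Nat.sum_antidiagonal_eq_sum_range_succ_mk]
      simp only [Finset.sum_range_succ, Finset.sum_range_zero, zero_add, tsub_zero, tsub_self]
      rw [ih.1, ih.2]
      have e0 : (C (g a) + X * C (h a)).coeff 0 = g a := by simp
      have e1 : (C (g a) + X * C (h a)).coeff 1 = h a := by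
        simp [coeff_C]
      rw [e0, e1, Finset.mul_sum, add_comm]
      congr 1
      refine Finset.sum_congr rfl (fun i hi => ?_)
      have hia : i ≠ a := fun h => ha (h ▸ hi)
      rw [Finset.erase_insert_of_ne (Ne.symm hia), Finset.prod_insert (by simp [ha])]
      ring

theorem m_NM : StNM.{u} := by
  intro A _ n r G H hG hH
  refine ⟨NM_prod n r G hG, ?_⟩
  unfold dNm
  have e1 : (∏ i, (X - C (r i))).map (C : A →+* A[X]) = ∏ i, (X - C (C (r i))) := by
    rw [Polynomial.map_prod]; simp
  have hd : (G.map (C : A →+* A[X]) + C X * H.map (C : A →+* A[X])).natDegree ≤ n := by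
    refine (natDegree_add_le _ _).trans (max_le (natDegree_map_le.trans hG) ?_)
    exact (natDegree_C_mul_le _ _).trans (natDegree_map_le.trans hH)
  have e2 := NM_prod n (fun i => (C (r i) : A[X])) _ hd
  unfold Nm at e2
  rw [e1, e2]
  have e3 : ∀ i, (G.map (C : A →+* A[X]) + C X * H.map (C : A →+* A[X])).eval (C (r i))
      = C (G.eval (r i)) + X * C (H.eval (r i)) := by
    intro i
    rw [eval_add, eval_mul, eval_C, eval_map, eval₂_hom, eval_map, eval₂_hom]
  simp only [e3]
  exact (NM_coeff_one Finset.univ _ _).2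

end Pool.Agent.Helper44.SPL
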