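import Pool.Agent.Helper44.SPL.St3

/-!
# Module NMAP: base change and scaling for `Nm` and `dNm`
-/

set_option autoImplicit false

namespace Pool.Agent.Helper44.SPL

open Polynomial

universe u

theorem m_NMAP : StNMAP.{u} := by
  intro A B _ _ i n f G H l _ _ _ _
  refine ⟨?_, ?_, ?_, ?_⟩
  · unfold Nm
    rw [resultant_map_map]
  · unfold dNm
    have hC : (mapRingHom i).comp (C : A →+* A[X]) = (C : B →+* B[X]).comp i := by
      ext x; simp
    have e1 : (f.map i).map (C : B →+* B[X]) = (f.map (C : A →+* A[X])).map (mapRingHom i) := by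
      rw [Polynomial.map_map, Polynomial.map_map, hC]
    have e2 : (G.map i).map (C : B →+* B[X]) + C X * (H.map i).map (C : B →+* B[X]) =
        (G.map (C : A →+* A[X]) + C X * H.map (C : A →+* A[X])).map (mapRingHom i) := by
      rw [Polynomial.map_add, Polynomial.map_mul, Polynomial.map_map, Polynomial.map_map,
        Polynomial.map_map, Polynomial.map_map, hC, map_C]
      simp
    rw [e1, e2, resultant_map_map, coe_mapRingHom, coeff_map]
  · unfold Nm
    rw [resultant_C_mul_right]
  · unfold dNm
    have e : (C l * G).map (C : A →+* A[X]) + C X * (C l * H).map (C : A →+* A[X]) =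
        C (C l) * (G.map (C : A →+* A[X]) + C X * H.map (C : A →+* A[X])) := by
      rw [Polynomial.map_mul, Polynomial.map_mul, map_C]
      ring
    rw [e, resultant_C_mul_right, ← C_pow, coeff_C_mul]

end Pool.Agent.Helper44.SPL
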