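import Pool.Agent.Helper44.SPL.St

set_option autoImplicit false

namespace Pool.Agent.Helper44.SPL

universe u

section PA_aux

variable {B : Type u} [CommRing B] {ϖ : B} {w : B → ℝ}

private theorem PA_neg (hw : IsMs ϖ w) (x : B) : w (-x) = w x := by
  have h1 : w (-1) * w (-1) = 1 := by rw [← hw.mul, neg_mul_neg, one_mul, hw.one]
  have h2 : w (-1) = 1 := by
    have h3 := hw.nonneg (-1)
    nlinarith
  have h4 : -x = -1 * x := by ring
  rw [h4, hw.mul, h2, one_mul]

private theorem PA_comm (hw : IsMs ϖ w) (x y : B) : w (x - y) = w (y - x) := by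
  rw [← PA_neg hw (x - y), neg_sub]

private theorem PA_tri (hw : IsMs ϖ w) (x y z : B) {c : ℝ} (h1 : w (x - y) ≤ c)
    (h2 : w (y - z) ≤ c) : w (x - z) ≤ c := by
  have h3 := hw.add (x - y) (y - z)
  rw [sub_add_sub_cancel] at h3
  exact h3.trans (max_le h1 h2)

end PA_aux

theorem m_PA (h1 : StPF.{u}) (h2 : StTILT.{u}) : StPA.{u} := by
  intro Ω _ _ _ p _ S A hA F G lam lam' hl0 hll hl1 hFG hloc k h
  by_cases hp : (p : Ω)⁻¹ ∈ A
  · -- no seminorms
    refine ⟨0, fun v hv => ?_⟩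
    exfalso
    have hp0 : (p : Ω) ≠ 0 := by
      have := (Fact.out : p.Prime).ne_zero
      exact_mod_cast this
    have h3 : ((p : A) * ⟨(p : Ω)⁻¹, hp⟩ : A) = 1 := by
      apply Subtype.ext
      push_cast
      exact mul_inv_cancel₀ hp0
    have h4 := hv.mul (p : A) ⟨(p : Ω)⁻¹, hp⟩
    rw [h3, hv.one, hv.pi] at h4
    have h5 := hv.le_one ⟨(p : Ω)⁻¹, hp⟩
    linarith
  obtain ⟨B, iB, iC, iP, ϖ, fl, hϖ, T1, T2, T3, T4, T5, T6, T7⟩ := h2 Ω p S A hA hp
  have hhalf : ∀ s : ℝ, s ≤ 1 → (1 / 2 : ℝ) ≤ (1 / 2 : ℝ) ^ s := by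
    intro s hs
    calc (1 / 2 : ℝ) = (1 / 2 : ℝ) ^ (1 : ℝ) := (Real.rpow_one _).symm
      _ ≤ (1 / 2 : ℝ) ^ s :=
        Real.rpow_le_rpow_of_exponent_ge (by norm_num) (by norm_num) hs
  have hlam := hhalf lam hl1
  have hlam' := hhalf lam' (by linarith)
  -- the data on `B`
  have hglue := h1 p B ϖ hϖ (fun w => fl (F (fun a => w (fl a)))) (fun w => fl (G (fun a => w (fl a))))
    lam lam' hl0 hll (by
      intro w hw
      exact hFG _ (T1 w hw)) (by
      intro w₀ hw₀
      obtain ⟨U, hU, hU0, hUv⟩ := hloc (fun a => w₀ (fl a)) (T1 w₀ hw₀)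
      refine ⟨(fun (w : B → ℝ) (a : A) => w (fl a)) ⁻¹' U,
        hU.preimage (continuous_pi fun a => continuous_apply (fl a)), hU0, ?_⟩
      intro w hwU hw
      have hv := T1 w hw
      obtain ⟨g1, g2, g3⟩ := hUv (fun a => w (fl a)) hwU hv
      refine ⟨g1, g2, ?_⟩
      have g4 := (hFG _ hv).1
      obtain ⟨v, hvdef⟩ : ∃ v : A → ℝ, v = fun a => w (fl a) := ⟨_, rfl⟩
      obtain ⟨v₀, hv₀def⟩ : ∃ v₀ : A → ℝ, v₀ = fun a => w₀ (fl a) := ⟨_, rfl⟩
      have hva : ∀ a, w (fl a) = v a := fun a => by rw [hvdef]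
      simp only [← hvdef, ← hv₀def] at g1 g2 g3 g4 hv ⊢
      simp only [hva] at g1 g3 g4
      have n1 := hv.nonneg (G v)
      have n2 := hv.nonneg (G v₀)
      have n3 := hv.nonneg (F v)
      have n4 := hv.nonneg (F v₀)
      have hprod : 0 ≤ v (G v) * v (G v₀) := mul_nonneg n1 n2
      have m1 : v (F v) * v (G v₀) ≤ v (G v) * v (G v₀) := mul_le_mul_of_nonneg_right g4 n2
      have m2 : v (F v₀) * v (G v) ≤ v (G v) * v (G v₀) := by
        rw [mul_comm (v (G v))]; exact mul_le_mul_of_nonneg_right g1 n1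
      have hc : 1 / 2 * (v (G v) * v (G v₀)) ≤ (1 / 2 : ℝ) ^ lam * (v (G v) * v (G v₀)) :=
        mul_le_mul_of_nonneg_right hlam hprod
      rw [hva (G v), hva (G v₀)]
      refine PA_tri hw _ (fl (F v * G v₀)) _ ?_ ?_
      · rw [PA_comm hw]
        have := T5 w hw (F v) (G v₀)
        rw [hva, hva] at this
        linarith
      · refine PA_tri hw _ (fl (F v₀ * G v)) _ ?_ ?_
        · have := T3 w hw (F v * G v₀) (F v₀ * G v)
          rw [hva, hva, hva] at this
          refine this.trans (max_le g3 ?_)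
          rw [hv.mul, hv.mul]
          have hmax : max (v (F v) * v (G v₀)) (v (F v₀) * v (G v)) ≤ v (G v) * v (G v₀) :=
            max_le m1 m2
          linarith
        · have := T5 w hw (F v₀) (G v)
          rw [hva, hva] at this
          linarith) k
  obtain ⟨x, hx⟩ := hglue
  obtain ⟨a, ha⟩ := T7 x
  refine ⟨a, fun v hv => ?_⟩
  obtain ⟨w, hw, hwv⟩ := T2 v hv
  have hfun : (fun a => w (fl a)) = v := funext hwv
  have hx' := hx w hw
  simp only [hfun] at hx'
  rw [hwv] at hx'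
  have g4 := (hFG v hv).1
  obtain ⟨q, hq⟩ : ∃ q : A, q = ⟨S.pw (1 / (p : ℚ) ^ k), h⟩ := ⟨_, rfl⟩
  have hT6 := T6 w hw k h
  rw [← hq] at hT6 ⊢
  have n1 := hv.nonneg (G v)
  have n3 := hv.nonneg (F v)
  have hc : 1 / 2 * v (G v) ≤ (1 / 2 : ℝ) ^ lam' * v (G v) := mul_le_mul_of_nonneg_right hlam' n1
  have hqF : v q * v (F v) ≤ v (G v) := by
    calc v q * v (F v) ≤ 1 * v (F v) := mul_le_mul_of_nonneg_right (hv.le_one q) n3
      _ = v (F v) := one_mul _
      _ ≤ v (G v) := g4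
  have hGa : v (G v) * v a ≤ v (G v) := mul_le_of_le_one_right n1 (hv.le_one a)
  have e := T4 w hw (G v * a) (q * F v)
  rw [hwv, hwv, hwv] at e
  refine e.trans (max_le ?_ ?_)
  · refine PA_tri hw _ (fl (G v) * fl a) _ ?_ ?_
    · have := T5 w hw (G v) a
      rw [hwv, hwv] at this
      linarith
    · refine PA_tri hw _ (fl (G v) * x) _ ?_ ?_
      · have e1 : fl (G v) * fl a - fl (G v) * x = fl (G v) * (fl a - x) := by ring
        rw [e1, hw.mul, hwv, PA_comm hw]
        have e2 := mul_le_mul_of_nonneg_left (ha w hw) n1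
        linarith
      · refine PA_tri hw _ (rt p k ϖ * fl (F v)) _ hx' ?_
        refine PA_tri hw _ (fl q * fl (F v)) _ ?_ ?_
        · have e1 : rt p k ϖ * fl (F v) - fl q * fl (F v) = (rt p k ϖ - fl q) * fl (F v) := by ring
          rw [e1, hw.mul, hwv, PA_comm hw]
          have e2 : w (fl q - rt p k ϖ) ≤ 1 / 2 := by
            have e3 := hw.le_one (rt p k ϖ)
            linarith
          have e4 := mul_le_mul_of_nonneg_right e2 n3
          linarith
        · rw [PA_comm hw]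
          have := T5 w hw q (F v)
          rw [hwv, hwv] at this
          linarith
  · rw [hv.mul, hv.mul]
    have hmax : max (v (G v) * v a) (v q * v (F v)) ≤ v (G v) := max_le hGa hqF
    linarith

end Pool.Agent.Helper44.SPL
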