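import Pool.Agent.Helper44.SPL.St
import Pool.Agent.Helper44.SPL.Bas

/-!
# PF: gluing on `M(B)` for a perfect ring `B`
-/

set_option autoImplicit false

namespace Pool.Agent.Helper44.SPL

universe u

/-- an open half space -/
theorem isOpen_halfSpace {B : Type u} (b : Bool) (x : B) (c : ℝ) :
    IsOpen {v : B → ℝ | if b then v x < c else c < v x} := by
  cases b
  · simpa using isOpen_lt continuous_const (continuous_apply x)
  · simpa using isOpen_lt (continuous_apply x) continuous_const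

/-- a closed half space -/
theorem isClosed_halfSpace {B : Type u} (b : Bool) (x : B) (c : ℝ) :
    IsClosed {v : B → ℝ | if b then v x ≤ c else c ≤ v x} := by
  cases b
  · simpa using isClosed_le continuous_const (continuous_apply x)
  · simpa using isClosed_le (continuous_apply x) continuous_const

theorem m_PF (h1 : StTHR.{u}) (h2 : StCELLS.{u}) : StPF.{u} := by
  classical
  intro p hp B _ _ _ ϖ hϖ F G lam lam' hl hll hFG hloc k
  -- local thresholds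
  have hthr : ∀ v₀ : {v : B → ℝ // IsMs ϖ v}, ∃ (n : ℕ) (e : Fin n → B) (m : Fin n → ℕ)
      (s : Fin n → Bool),
      (∀ i, if s i then v₀.1 (e i) < (1 / 2 : ℝ) ^ m i else (1 / 2 : ℝ) ^ m i < v₀.1 (e i)) ∧
      ∀ v, IsMs ϖ v →
      (∀ i, if s i then v (e i) ≤ (1 / 2 : ℝ) ^ m i else (1 / 2 : ℝ) ^ m i ≤ v (e i)) →
        v (F v₀.1) ≤ v (G v₀.1) ∧ v (G v₀.1) ≠ 0 ∧
        v (F v * G v₀.1 - F v₀.1 * G v) ≤ (1 / 2 : ℝ) ^ lam * (v (G v) * v (G v₀.1)) := by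
    rintro ⟨v₀, hv₀⟩
    obtain ⟨U, hU, hvU, hUv⟩ := hloc v₀ hv₀
    obtain ⟨n, e, m, s, hs, hcl⟩ := h1 p B ϖ v₀ hv₀ U hU hvU
    exact ⟨n, e, m, s, hs, fun v hv hi => hUv v (hcl v hv hi) hv⟩
  choose n e m s hs hcl using hthr
  -- the open cells cover `M(B)`
  let N : {v : B → ℝ // IsMs ϖ v} → Set (B → ℝ) := fun v₀ =>
    {v | ∀ i, if s v₀ i then v (e v₀ i) < (1 / 2 : ℝ) ^ m v₀ i
      else (1 / 2 : ℝ) ^ m v₀ i < v (e v₀ i)}
  have hNo : ∀ v₀, IsOpen (N v₀) := by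
    intro v₀
    have e1 : N v₀ = ⋂ i, {v | if s v₀ i then v (e v₀ i) < (1 / 2 : ℝ) ^ m v₀ i
      else (1 / 2 : ℝ) ^ m v₀ i < v (e v₀ i)} := by
      ext v
      simp only [N, Set.mem_iInter, Set.mem_ofPred_eq]
    rw [e1]
    exact isOpen_iInter_of_finite fun i => isOpen_halfSpace _ _ _
  obtain ⟨T, hT⟩ := (isCompact_isMs ϖ).elim_finite_subcover N hNo
    (fun v hv => Set.mem_iUnion.mpr ⟨⟨v, hv⟩, hs ⟨v, hv⟩⟩)
  -- all thresholds at once
  let ι := Σ j : T, Fin (n j.1)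
  let φ : ι ≃ Fin (Fintype.card ι) := Fintype.equivFin ι
  refine h2 p (Fintype.card ι) B ϖ hϖ (fun q => e (φ.symm q).1.1 (φ.symm q).2)
    (fun q => m (φ.symm q).1.1 (φ.symm q).2) F G lam lam' hl hll hFG ?_ k
  intro σ
  let Q : ι → Bool → (B → ℝ) → Prop := fun x b w => if b then
    w (e x.1.1 x.2) ≤ (1 / 2 : ℝ) ^ m x.1.1 x.2 else (1 / 2 : ℝ) ^ m x.1.1 x.2 ≤ w (e x.1.1 x.2)
  let K : Set (B → ℝ) := {v | IsMs ϖ v} ∩ {v | ∀ q, if σ q then
    v (e (φ.symm q).1.1 (φ.symm q).2) ≤ (1 / 2 : ℝ) ^ m (φ.symm q).1.1 (φ.symm q).2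
    else (1 / 2 : ℝ) ^ m (φ.symm q).1.1 (φ.symm q).2 ≤ v (e (φ.symm q).1.1 (φ.symm q).2)}
  by_cases hne : K.Nonempty
  · have hKc : IsCompact K := by
      apply (isCompact_isMs ϖ).inter_right
      have e1 : {v : B → ℝ | ∀ q, if σ q then
          v (e (φ.symm q).1.1 (φ.symm q).2) ≤ (1 / 2 : ℝ) ^ m (φ.symm q).1.1 (φ.symm q).2
          else (1 / 2 : ℝ) ^ m (φ.symm q).1.1 (φ.symm q).2 ≤
            v (e (φ.symm q).1.1 (φ.symm q).2)} =
          ⋂ q, {v : B → ℝ | if σ q then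
          v (e (φ.symm q).1.1 (φ.symm q).2) ≤ (1 / 2 : ℝ) ^ m (φ.symm q).1.1 (φ.symm q).2
          else (1 / 2 : ℝ) ^ m (φ.symm q).1.1 (φ.symm q).2 ≤
            v (e (φ.symm q).1.1 (φ.symm q).2)} := by
        ext v
        simp only [Set.mem_iInter, Set.mem_ofPred_eq]
      rw [e1]
      exact isClosed_iInter fun q => isClosed_halfSpace _ _ _
    obtain ⟨v, hv, hvs⟩ := id hne
    obtain ⟨j, hj, hvj⟩ : ∃ j, j ∈ T ∧ v ∈ N j := by
      have := hT hv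
      simpa only [Set.mem_iUnion, exists_prop] using this
    have hagree : ∀ i : Fin (n j), σ (φ ⟨⟨j, hj⟩, i⟩) = s j i := by
      intro i
      have h3 : Q (φ.symm (φ ⟨⟨j, hj⟩, i⟩)) (σ (φ ⟨⟨j, hj⟩, i⟩)) v := hvs (φ ⟨⟨j, hj⟩, i⟩)
      have h4 := hvj i
      rw [Equiv.symm_apply_apply] at h3
      change (if σ (φ ⟨⟨j, hj⟩, i⟩) then v (e j i) ≤ (1 / 2 : ℝ) ^ m j i
        else (1 / 2 : ℝ) ^ m j i ≤ v (e j i)) at h3
      cases h5 : σ (φ ⟨⟨j, hj⟩, i⟩) <;> cases h6 : s j i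
      · rfl
      · rw [h5] at h3
        rw [h6] at h4
        simp only [Bool.false_eq_true, if_false, if_true] at h3 h4
        exact absurd h4 (not_lt.mpr h3)
      · rw [h5] at h3
        rw [h6] at h4
        simp only [Bool.false_eq_true, if_false, if_true] at h3 h4
        exact absurd h4 (not_lt.mpr h3)
      · rfl
    have hK : ∀ w ∈ K, w (F j.1) ≤ w (G j.1) ∧ w (G j.1) ≠ 0 ∧
        w (F w * G j.1 - F j.1 * G w) ≤ (1 / 2 : ℝ) ^ lam * (w (G w) * w (G j.1)) := by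
      rintro w ⟨hw, hws⟩
      apply hcl j w hw
      intro i
      have h3 : Q (φ.symm (φ ⟨⟨j, hj⟩, i⟩)) (σ (φ ⟨⟨j, hj⟩, i⟩)) w := hws (φ ⟨⟨j, hj⟩, i⟩)
      rw [Equiv.symm_apply_apply, hagree] at h3
      exact h3
    obtain ⟨v', hv', hmin⟩ := hKc.exists_isMinOn hne
      (f := fun v : B → ℝ => v (G j.1)) (continuous_apply _).continuousOn
    have hpos : 0 < v' (G j.1) :=
      lt_of_le_of_ne (hv'.1.nonneg _) (Ne.symm (hK v' hv').2.1)
    obtain ⟨N', hN'⟩ := exists_pow_lt_of_lt_one hpos (by norm_num : (1 / 2 : ℝ) < 1)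
    refine ⟨F j.1, G j.1, N', fun w hw hwi => ?_⟩
    have hwK : w ∈ K := ⟨hw, hwi⟩
    have h3 := hK w hwK
    exact ⟨h3.1, hN'.le.trans (hmin hwK), h3.2.2⟩
  · exact ⟨0, 0, 0, fun v hv hvi => absurd ⟨v, hv, hvi⟩ hne⟩

end Pool.Agent.Helper44.SPL
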