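import Pool.Agent.Helper44.SPL.M_HPOL

/-!
# Splinters in mixed characteristic: module PL
-/

set_option autoImplicit false

namespace Pool.Agent.Helper44.SPL

open Polynomial

universe u

namespace PLaux

open HPOLaux

/-- an integral element over an algebraically closed field. -/
lemma mem_range_of_int {K L : Type u} [Field K] [IsAlgClosed K] [Field L] [Algebra K L] {x : L}
    (hx : IsIntegral K x) : x ∈ (algebraMap K L).range :=
  minpoly.mem_range_of_degree_eq_one K x
    (IsAlgClosed.degree_eq_one_of_irreducible K (minpoly.irreducible hx))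

section

variable {Ω : Type u} [Field Ω]

/-- elements of the subring generated by `K` and `t`. -/
lemma closure_eq (K : Subfield Ω) (t : Ω) (b : Ω)
    (hb : b ∈ Subring.closure ((K : Set Ω) ∪ {t})) : ∃ B : K[X], b = aeval t B := by
  induction hb using Subring.closure_induction with
  | mem x hx =>
    rcases hx with hx | hx
    · exact ⟨C ⟨x, hx⟩, by rw [aeval_C]; rfl⟩
    · have hx' : x = t := hx
      exact ⟨X, by rw [aeval_X, hx']⟩
  | zero => exact ⟨0, by rw [map_zero]⟩
  | one => exact ⟨1, by rw [map_one]⟩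
  | add x y _ _ h1 h2 =>
    obtain ⟨A, rfl⟩ := h1
    obtain ⟨B, rfl⟩ := h2
    exact ⟨A + B, by rw [map_add]⟩
  | neg x _ h1 =>
    obtain ⟨A, rfl⟩ := h1
    exact ⟨-A, by rw [map_neg]⟩
  | mul x y _ _ h1 h2 =>
    obtain ⟨A, rfl⟩ := h1
    obtain ⟨B, rfl⟩ := h2
    exact ⟨A * B, by rw [map_mul]⟩

/-- a valuation subring over `K[t]` with `t - c` in the maximal ideal. -/
lemma exists_val (K : Subfield Ω) (t : Ω) (ht : Transcendental K t) (c : K) :
    ∃ W : ValuationSubring Ω, (K : Set Ω) ⊆ W ∧ t ∈ W ∧ t - (c : Ω) ∈ W.nonunits := by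
  set A := Subring.closure ((K : Set Ω) ∪ {t}) with hA
  have hKA : ∀ a ∈ K, a ∈ A := fun a ha => Subring.subset_closure (Or.inl ha)
  have htA : t ∈ A := Subring.subset_closure (Or.inr rfl)
  have htc : t - (c : Ω) ∈ A := sub_mem htA (hKA _ c.2)
  have hI : Ideal.span {(⟨t - c, htc⟩ : A)} ≠ ⊤ := by
    intro h
    rw [Ideal.span_singleton_eq_top] at h
    obtain ⟨b, hb⟩ := h.exists_right_inv
    obtain ⟨B, hB⟩ := closure_eq K t (b : Ω) b.2
    have h1 : (t - (c : Ω)) * (b : Ω) = 1 := congrArg (fun x : A => (x : Ω)) hb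
    have h2 : aeval t ((X - C c) * B - 1) = 0 := by
      rw [map_sub, map_mul, map_sub, aeval_X, aeval_C, map_one, ← hB]
      have h3 : (algebraMap K Ω) c = (c : Ω) := rfl
      rw [h3, h1, sub_self]
    have h4 : (X - C c) * B - 1 = 0 := by
      by_contra hne
      exact ht ⟨_, hne, h2⟩
    have h5 := congrArg (Polynomial.eval c) h4
    simp at h5
  obtain ⟨W, hW1, hW2⟩ := Ideal.image_subset_nonunits_valuationSubring _ hI
  refine ⟨W, fun a ha => hW1 (hKA a ha), hW1 htA, hW2 ⟨⟨t - c, htc⟩, ?_, rfl⟩⟩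
  exact Ideal.subset_span rfl

end

end PLaux

open HPOLaux PLaux in
theorem m_PL : StPL.{u} := by
  intro Ω _ _ _ K _ t ht hF s
  choose F hF0 hFx using hF
  -- the exceptional polynomial
  set P : K[X] := ∏ x ∈ s, (F x).leadingCoeff with hP
  have hP0 : P ≠ 0 := Finset.prod_ne_zero_iff.2 fun x _ => leadingCoeff_ne_zero.2 (hF0 x)
  obtain ⟨c, hc0, hcP⟩ : ∃ c : ℕ, 0 < c ∧ P.eval (c : K) ≠ 0 := by
    by_contra hcon
    push Not at hcon
    apply hP0
    apply Polynomial.eq_zero_of_infinite_isRoot
    refine Set.Infinite.mono (s := Set.range fun n : ℕ => ((n + 1 : ℕ) : K)) ?_ ?_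
    · rintro _ ⟨n, rfl⟩
      exact hcon (n + 1) (Nat.succ_pos n)
    · refine Set.infinite_range_of_injective fun a b hab => ?_
      have : a + 1 = b + 1 := Nat.cast_injective (R := K) hab
      omega
  have hlc : ∀ x ∈ s, (F x).leadingCoeff.eval (c : K) ≠ 0 := by
    intro x hx h
    apply hcP
    rw [hP, Polynomial.eval_prod]
    exact Finset.prod_eq_zero hx h
  obtain ⟨W, hKW, htW, htc⟩ := exists_val K t ht (c : K)
  -- the residue field
  let φK : K →+* W :=
    { toFun := fun a => ⟨a, hKW a.2⟩
      map_one' := rfl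
      map_mul' := fun _ _ => rfl
      map_zero' := rfl
      map_add' := fun _ _ => rfl }
  let κ : K →+* IsLocalRing.ResidueField W := (IsLocalRing.residue W).comp φK
  let φ : K[X] →+* W := eval₂RingHom φK ⟨t, htW⟩
  have hres : IsLocalRing.residue W ⟨t, htW⟩ = κ (c : K) := by
    have h1 : IsLocalRing.residue W (⟨t, htW⟩ - φK (c : K)) = 0 := by
      rw [IsLocalRing.residue_eq_zero_iff]
      have htc' : t - ((c : K) : Ω) ∈ (W.nonunits : Set Ω) := htc
      rw [← ValuationSubring.image_maximalIdeal] at htc'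
      obtain ⟨y, hy, hyt⟩ := htc'
      have : y = ⟨t, htW⟩ - φK (c : K) := Subtype.ext hyt
      rw [← this]
      exact hy
    rw [map_sub, sub_eq_zero] at h1
    exact h1
  have hφ : (IsLocalRing.residue W).comp φ = κ.comp (evalRingHom (c : K)) := by
    refine Polynomial.ringHom_ext (fun a => ?_) ?_
    · simp [φ, κ]
    · simp only [RingHom.comp_apply, φ, coe_eval₂RingHom, eval₂_X, coe_evalRingHom, eval_X]
      exact hres
  have hφval : ∀ q : K[X], ((φ q : W) : Ω) = eval₂ K.subtype t q := by
    intro q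
    have := Polynomial.hom_eval₂ q φK W.subtype (⟨t, htW⟩ : W)
    exact this
  have hFeval : ∀ (x : Ω) (hx : x ∈ W), ((F x).map φ).eval (⟨x, hx⟩ : W) = 0 := by
    intro x hx
    apply Subtype.ext
    have h1 : W.subtype (((F x).map φ).eval (⟨x, hx⟩ : W)) =
        (((F x).map φ).map W.subtype).eval x := by
      rw [Polynomial.eval_map, Polynomial.eval_map, Polynomial.hom_eval₂, Polynomial.eval₂_map]
      rfl
    have h2 : ((F x).map φ).map W.subtype = (F x).map (eval₂RingHom K.subtype t) := by
      rw [Polynomial.map_map]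
      congr 1
      refine RingHom.ext fun q => ?_
      exact hφval q
    have h3 : W.subtype (((F x).map φ).eval (⟨x, hx⟩ : W)) = 0 := by
      rw [h1, h2]
      exact hFx x
    exact h3
  -- `s` is contained in `W`
  have hsW : ∀ x ∈ s, x ∈ W := by
    intro x hx
    have hunit : IsUnit (φ (F x).leadingCoeff) := by
      by_contra hnu
      have h1 : IsLocalRing.residue W (φ (F x).leadingCoeff) = 0 := by
        rw [IsLocalRing.residue_eq_zero_iff]
        exact (IsLocalRing.mem_maximalIdeal _).2 hnu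
      have h2 := RingHom.congr_fun hφ (F x).leadingCoeff
      rw [RingHom.comp_apply, h1, RingHom.comp_apply] at h2
      exact hlc x hx ((map_eq_zero κ).1 h2.symm)
    obtain ⟨g, hg⟩ := hunit.exists_right_inv
    have hg' : eval₂ K.subtype t (F x).leadingCoeff * (g : Ω) = 1 := by
      rw [← hφval]
      exact congrArg (fun z : W => (z : Ω)) hg
    rcases W.mem_or_inv_mem x with h | h
    · exact h
    by_cases hx0 : x = 0
    · rw [hx0]
      exact zero_mem _
    set n := (F x).natDegree with hn
    have hsum : ∑ i ∈ Finset.range (n + 1), eval₂ K.subtype t ((F x).coeff i) * x ^ i = 0 := by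
      have h1 := hFx x
      unfold ev2 at h1
      rw [Polynomial.eval_map, Polynomial.eval₂_eq_sum_range] at h1
      exact h1
    rw [Finset.sum_range_succ] at hsum
    have hlead : (F x).coeff n = (F x).leadingCoeff := rfl
    rw [hlead] at hsum
    rcases Nat.eq_zero_or_pos n with h0 | h0
    · rw [h0] at hsum
      simp only [Finset.range_zero, Finset.sum_empty, pow_zero, mul_one, zero_add] at hsum
      rw [hsum, zero_mul] at hg'
      exact absurd hg' zero_ne_one
    · have hxx : x = -∑ i ∈ Finset.range n,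
          ((g : Ω) * eval₂ K.subtype t ((F x).coeff i)) * (x⁻¹) ^ (n - 1 - i) := by
        have h2 : x ^ n = -∑ i ∈ Finset.range n,
            (g : Ω) * (eval₂ K.subtype t ((F x).coeff i) * x ^ i) := by
          rw [← Finset.mul_sum]
          linear_combination (g : Ω) * hsum - x ^ n * hg'
        have h3 : x = x ^ n * (x⁻¹) ^ (n - 1) := by
          obtain ⟨j, hj⟩ : ∃ j, n = j + 1 := ⟨n - 1, by omega⟩
          rw [hj, Nat.add_sub_cancel, pow_succ, mul_comm (x ^ j) x, mul_assoc, ← mul_pow,
            mul_inv_cancel₀ hx0, one_pow, mul_one]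
        calc x = x ^ n * (x⁻¹) ^ (n - 1) := h3
          _ = _ := by
            rw [h2, neg_mul, Finset.sum_mul]
            congr 1
            refine Finset.sum_congr rfl fun i hi => ?_
            have hi' : i < n := Finset.mem_range.1 hi
            have h4 : (x⁻¹) ^ (n - 1) = (x⁻¹) ^ i * (x⁻¹) ^ (n - 1 - i) := by
              rw [← pow_add]
              congr 1
              omega
            rw [h4]
            have h5 : x ^ i * (x⁻¹) ^ i = 1 := by
              rw [← mul_pow, mul_inv_cancel₀ hx0, one_pow]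
            linear_combination
              ((g : Ω) * eval₂ K.subtype t ((F x).coeff i) * (x⁻¹) ^ (n - 1 - i)) * h5
      rw [hxx]
      refine neg_mem (sum_mem fun i _ => mul_mem (mul_mem g.2 ?_) (pow_mem h _))
      rw [← hφval]
      exact (φ _).2
  -- the residues of `s`
  let _ : Algebra K (IsLocalRing.ResidueField W) := κ.toAlgebra
  have hsK : ∀ (x : Ω) (_ : x ∈ s) (hxW : x ∈ W),
      IsLocalRing.residue W ⟨x, hxW⟩ ∈ κ.range := by
    intro x hx hxW
    apply mem_range_of_int (K := K)
    rw [← isAlgebraic_iff_isIntegral]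
    refine ⟨(F x).map (evalRingHom (c : K)), ?_, ?_⟩
    · intro h
      have h1 := congrArg (fun q : K[X] => q.coeff (F x).natDegree) h
      simp only [coeff_map, coeff_zero] at h1
      exact hlc x hx h1
    · have h1 : IsLocalRing.residue W (((F x).map φ).eval (⟨x, hxW⟩ : W)) = 0 := by
        rw [hFeval x hxW, map_zero]
      rw [Polynomial.eval_map, Polynomial.hom_eval₂, hφ, ← Polynomial.eval₂_map] at h1
      exact h1
  have hsub : ((K : Set Ω) ∪ s ∪ {t}) ⊆ W := by
    rintro x ((hx | hx) | hx)
    · exact hKW hx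
    · exact hsW x hx
    · rw [hx]
      exact htW
  have hle : icl ((K : Set Ω) ∪ s ∪ {t}) ≤ W.toSubring := fun x hx => mem_icl_iff.1 hx W hsub
  let ι : icl ((K : Set Ω) ∪ s ∪ {t}) →+* W := Subring.inclusion hle
  let f : icl ((K : Set Ω) ∪ s ∪ {t}) →+* IsLocalRing.ResidueField W :=
    (IsLocalRing.residue W).comp ι
  have hclo : Subring.closure ((K : Set Ω) ∪ s ∪ {t}) ≤ icl ((K : Set Ω) ∪ s ∪ {t}) :=
    closure_le_icl _
  have hclosure : ∀ (y : Ω) (hy : y ∈ Subring.closure ((K : Set Ω) ∪ s ∪ {t})),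
      f ⟨y, hclo hy⟩ ∈ Set.range (algebraMap K (IsLocalRing.ResidueField W)) := by
    intro y hy
    suffices h : f ⟨y, hclo hy⟩ ∈ κ.range from h
    induction hy using Subring.closure_induction with
    | mem x hx =>
      rcases hx with (hx | hx) | hx
      · exact ⟨⟨x, hx⟩, rfl⟩
      · exact hsK x hx _
      · have hx' : x = t := hx
        subst hx'
        exact ⟨(c : K), hres.symm⟩
    | zero => exact zero_mem _
    | one => exact one_mem _
    | add x y _ _ h1 h2 => exact add_mem h1 h2
    | neg x _ h1 => exact neg_mem h1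
    | mul x y _ _ h1 h2 => exact mul_mem h1 h2
  have hf : ∀ x, f x ∈ κ.range := by
    intro x
    have h1 : IsIntegral K (f x) := transfer hclo x.2 (mem_icl.1 x.2) f hclosure
    exact mem_range_of_int (K := K) h1
  let ψ : icl ((K : Set Ω) ∪ s ∪ {t}) →+* κ.range := f.codRestrict κ.range hf
  let e : K ≃+* κ.range := RingEquiv.ofBijective κ.rangeRestrict
    ⟨fun a b hab => κ.injective (congrArg Subtype.val hab), κ.rangeRestrict_surjective⟩
  refine ⟨c, K.subtype.comp ((e.symm : κ.range →+* K).comp ψ), hc0, ?_, ?_, ?_⟩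
  · intro a h ha
    have h1 : e.symm (ψ ⟨a, h⟩) = ⟨a, ha⟩ := by
      rw [RingEquiv.symm_apply_eq]
      exact Subtype.ext rfl
    change K.subtype (e.symm (ψ ⟨a, h⟩)) = a
    rw [h1]
    rfl
  · intro x
    exact (e.symm (ψ x)).2
  · intro h
    have h1 : e.symm (ψ ⟨t, h⟩) = (c : K) := by
      rw [RingEquiv.symm_apply_eq]
      exact Subtype.ext hres
    change K.subtype (e.symm (ψ ⟨t, h⟩)) = (c : Ω)
    rw [h1]
    exact map_natCast K.subtype c

end Pool.Agent.Helper44.SPL
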