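import Pool.Agent.Helper44.SPL.St

/-! Project SPL, module PW: rational powers of `p` in an algebraically closed field. -/

set_option autoImplicit false

namespace Pool.Agent.Helper44.SPL

universe u

theorem m_PW : StPW.{u} := by
  intro Ω _ _ _ p _
  have hp : (p : Ω) ≠ 0 := Nat.cast_ne_zero.2 (Fact.out : p.Prime).ne_zero
  have hdiv : ∀ {n : ℕ}, n ≠ 0 → Function.Surjective (fun x : Additive Ωˣ => n • x) := by
    intro n hn x
    obtain ⟨z, hz⟩ := IsAlgClosed.exists_pow_nat_eq (((Additive.toMul x : Ωˣ)) : Ω)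
      (Nat.pos_of_ne_zero hn)
    have hz0 : z ≠ 0 := by
      rintro rfl
      rw [zero_pow hn] at hz
      exact (Additive.toMul x : Ωˣ).ne_zero hz.symm
    refine ⟨Additive.ofMul (Units.mk0 z hz0), ?_⟩
    apply Additive.toMul.injective
    apply Units.ext
    simp only [toMul_nsmul, toMul_ofMul, Units.val_pow_eq_pow_val, Units.val_mk0]
    exact hz
  let d1 : DivisibleBy (Additive Ωˣ) ℕ := divisibleByOfSMulRightSurj (Additive Ωˣ) ℕ hdiv
  let d2 : DivisibleBy (Additive Ωˣ) ℤ := AddGroup.divisibleByIntOfDivisibleByNat (Additive Ωˣ)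
  have hB : Module.Baer ℤ (Additive Ωˣ) := Module.Baer.of_divisible (Additive Ωˣ)
  obtain ⟨h, hh⟩ := hB.extension_property_addMonoidHom (Int.castAddHom ℚ) Int.cast_injective
    (zmultiplesHom (Additive Ωˣ) (Additive.ofMul (Units.mk0 (p : Ω) hp)))
  refine ⟨⟨fun q => ((Additive.toMul (h q) : Ωˣ) : Ω), fun a b => ?_, ?_⟩⟩
  · rw [map_add, toMul_add, Units.val_mul]
  · have h1 := DFunLike.congr_fun hh 1
    simp only [AddMonoidHom.comp_apply, Int.coe_castAddHom, Int.cast_one, zmultiplesHom_apply,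
      one_smul] at h1
    rw [h1]
    rfl

end Pool.Agent.Helper44.SPL
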