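import Mathlib
import Pool.Agent.Helper44.SPL.St
import Pool.Agent.Helper44.SPL.Bas

set_option autoImplicit false

namespace Pool.Agent.Helper44.SPL

open Polynomial

universe u

namespace R1aux

/-- A valuation subring whose centre on `A` is exactly the prime `P`. -/
theorem exists_centre {Ω : Type u} [Field Ω] (A : Subring Ω) (P : Ideal A) [P.IsPrime] :
    ∃ W : ValuationSubring Ω, (A : Set Ω) ⊆ W ∧
      ∀ a : A, (a ∈ P ↔ ((a : Ω) = 0 ∨ (a : Ω)⁻¹ ∉ W)) := by
  let R : Subring Ω := (LocalSubring.ofPrime A P).toSubring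
  haveI : IsLocalRing R := (LocalSubring.ofPrime A P).isLocalRing
  obtain ⟨W, hRW, hW⟩ := exists_dominating R
  have hAR : A ≤ R := LocalSubring.le_ofPrime A P
  refine ⟨W, fun a ha => hRW (hAR ha), ?_⟩
  intro a
  have hloc : IsUnit (algebraMap A R a) ↔ a ∈ P.primeCompl :=
    IsLocalization.AtPrime.isUnit_to_map_iff R P a
  have hval : ((algebraMap A R a : R) : Ω) = a := rfl
  constructor
  · intro ha
    have h1 : ¬ IsUnit (algebraMap A R a) := fun h => (hloc.mp h) ha
    have h2 : ((algebraMap A R a : R) : Ω) ∈ nu R := mem_nu_iff_not_isUnit.mpr h1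
    exact hW _ h2
  · intro h
    by_contra ha
    obtain ⟨u, hu⟩ := hloc.mpr ha
    have h2 : (a : Ω) * ((u⁻¹ : Rˣ) : R) = 1 := by
      rw [← hval, ← hu]
      exact_mod_cast congrArg (fun z : R => (z : Ω)) (Units.mul_inv u)
    rcases h with h | h
    · rw [h, zero_mul] at h2
      exact zero_ne_one h2
    · apply h
      rw [← eq_inv_of_mul_eq_one_right h2]
      exact hRW ((u⁻¹ : Rˣ) : R).2

/-- In a domain, a prime of height at most one: `x ∈ q` is in the radical of `y` locally. -/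
theorem height_one_rad {T : Type u} [CommRing T] [IsDomain T] (q : Ideal T) [hq : q.IsPrime]
    (hht : q.height ≤ 1) (x y : T) (hx : x ∈ q) (hy : y ≠ 0) :
    ∃ s : T, s ∉ q ∧ ∃ k : ℕ, y ∣ s * x ^ k := by
  classical
  by_contra hcon
  push Not at hcon
  let M : Submonoid T :=
    { carrier := {z | ∃ s : T, s ∉ q ∧ ∃ k : ℕ, z = s * x ^ k}
      mul_mem' := by
        rintro _ _ ⟨s, hs, k, rfl⟩ ⟨t, ht, l, rfl⟩
        exact ⟨s * t, hq.mul_notMem hs ht, k + l, by ring⟩
      one_mem' := ⟨1, fun h => hq.ne_top ((Ideal.eq_top_iff_one q).mpr h), 0, by simp⟩ }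
  have hdis : Disjoint ((Ideal.span {y} : Ideal T) : Set T) (M : Set T) := by
    rw [Set.disjoint_left]
    rintro z hz ⟨s, hs, k, rfl⟩
    exact hcon s hs k (Ideal.mem_span_singleton.mp hz)
  obtain ⟨q', hq'p, hq', hdis'⟩ := Ideal.exists_le_prime_disjoint _ _ hdis
  have h1 : q' ≤ q := by
    intro z hz
    by_contra hzq
    exact Set.disjoint_left.mp hdis' hz ⟨z, hzq, 0, by simp⟩
  have h2 : x ∉ q' := by
    intro hxq
    refine Set.disjoint_left.mp hdis' hxq ⟨1, fun h => hq.ne_top ((Ideal.eq_top_iff_one q).mpr h), 1, by simp⟩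
  have h3 : q' < q := lt_of_le_of_ne h1 (fun h => h2 (h ▸ hx))
  have h4 : q' ≠ ⊥ := by
    intro h
    apply hy
    have : y ∈ q' := hq' (Ideal.mem_span_singleton_self y)
    rw [h] at this
    simpa using this
  have h5 : q'.height + 1 ≤ q.height := Ideal.height_add_one_le_of_lt_of_isPrime h3
  have h6 : q'.height = 0 := by
    have h7 : q'.height + 1 ≤ 0 + 1 := h5.trans (by simpa using hht)
    have h8 := (ENat.add_le_add_iff_right (by simp)).mp h7
    exact nonpos_iff_eq_zero.mp h8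
  exact h4 (Ideal.height_eq_zero_iff_eq_bot.mp h6)

/-- among finitely many elements of a valuation subring, one divides all the others -/
theorem exists_min {Ω : Type u} [Field Ω] (W : ValuationSubring Ω) (S : Finset Ω)
    (h : ∃ x ∈ S, x ≠ 0) : ∃ f ∈ S, f ≠ 0 ∧ ∀ x ∈ S, x / f ∈ W := by
  classical
  obtain ⟨x, hx, hx0⟩ := h
  obtain ⟨f, hf, hmax⟩ := S.exists_max_image (fun z => W.valuation z) ⟨x, hx⟩
  have hf0 : f ≠ 0 := by
    intro h0
    have h1 := hmax x hx
    rw [h0, map_zero] at h1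
    exact hx0 ((Valuation.zero_iff _).mp (le_zero_iff.mp h1))
  refine ⟨f, hf, hf0, fun y hy => ?_⟩
  rw [← W.valuation_le_one_iff, map_div₀]
  exact div_le_one_of_le₀ (hmax y hy) zero_le

/-- elements of the form `x` or `x⁻¹` in `W` -/
theorem algebraic_swap {Ω : Type u} [Field Ω] (g : Finset Ω)
    (hg : ∀ x : Ω, ∃ F : (Subring.closure (g : Set Ω))[X], F ≠ 0 ∧ aeval x F = 0)
    (T : Subring Ω) (hT : ∀ x ∈ g, x ∈ T ∨ x⁻¹ ∈ T) (b : Ω) :
    ∃ F : T[X], F ≠ 0 ∧ aeval b F = 0 := by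
  classical
  -- the field of fractions of `T` contains `g`
  let K : Subfield Ω := Subfield.closure (T : Set Ω)
  have hgK : Subring.closure (g : Set Ω) ≤ K.toSubring := by
    rw [Subring.closure_le]
    intro x hx
    rcases hT x hx with h | h
    · exact Subfield.subset_closure h
    · have h2 : x⁻¹ ∈ K := Subfield.subset_closure h
      have h3 := K.inv_mem h2
      rwa [inv_inv] at h3
  obtain ⟨F, hF0, hF⟩ := hg b
  have h1 : IsAlgebraic K b := by
    refine ⟨F.map (Subring.inclusion hgK), ?_, ?_⟩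
    · intro h
      exact hF0 (Polynomial.map_injective _ (Subring.inclusion_injective hgK)
        (by rw [h, Polynomial.map_zero]))
    · rw [aeval_def, Polynomial.eval₂_map]
      exact hF
  have hTK : T ≤ K.toSubring := fun x hx => Subfield.subset_closure hx
  letI : Algebra T K := (Subring.inclusion hTK).toAlgebra
  haveI : IsScalarTower T K Ω := IsScalarTower.of_algebraMap_eq fun _ => rfl
  have hinj : Function.Injective (algebraMap T K) := Subring.inclusion_injective hTK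
  haveI : FaithfulSMul T K := (faithfulSMul_iff_algebraMap_injective T K).mpr hinj
  haveI : IsFractionRing T K := by
    apply IsFractionRing.of_field
    rintro ⟨z, hz⟩
    obtain ⟨y, hy, w, hw, hyw⟩ := Subfield.mem_closure_iff.mp hz
    rw [Subring.closure_eq] at hy hw
    exact ⟨⟨y, hy⟩, ⟨w, hw⟩, Subtype.ext hyw.symm⟩
  exact (IsFractionRing.isAlgebraic_iff T K Ω).mpr h1

/-- The rank one valuation subring of a seminorm with trivial kernel. -/
theorem exists_rk1 {Ω : Type u} [Field Ω] (p : ℕ) (hp0 : (p : Ω) ≠ 0) (W : ValuationSubring Ω)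
    (v : W → ℝ) (hv : IsMs (p : W) v) (hpos : ∀ b : W, b ≠ 0 → 0 < v b) :
    ∃ W₁ : ValuationSubring Ω, Rk1 p W₁ ∧ (∀ x ∈ W, x ∈ W₁) ∧
      ∀ x : W, x ≠ 0 → v x < 1 → (x : Ω)⁻¹ ∉ W₁ := by
  classical
  let W₁ : ValuationSubring Ω :=
    { carrier := {x | ∃ a b : W, b ≠ 0 ∧ v a ≤ v b ∧ x * (b : Ω) = a}
      mul_mem' := by
        rintro x y ⟨a, b, hb, hab, h⟩ ⟨c, d, hd, hcd, h'⟩
        refine ⟨a * c, b * d, mul_ne_zero hb hd, ?_, ?_⟩
        · rw [hv.mul, hv.mul]
          exact mul_le_mul hab hcd (hv.nonneg _) (hv.nonneg _)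
        · push_cast
          rw [← h, ← h']
          ring
      one_mem' := ⟨1, 1, one_ne_zero, le_rfl, by simp⟩
      add_mem' := by
        rintro x y ⟨a, b, hb, hab, h⟩ ⟨c, d, hd, hcd, h'⟩
        refine ⟨a * d + c * b, b * d, mul_ne_zero hb hd, ?_, ?_⟩
        · refine (hv.add _ _).trans (max_le ?_ ?_)
          · rw [hv.mul, hv.mul]
            exact mul_le_mul_of_nonneg_right hab (hv.nonneg _)
          · rw [hv.mul, hv.mul, mul_comm (v b)]
            exact mul_le_mul_of_nonneg_right hcd (hv.nonneg _)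
        · push_cast
          rw [← h, ← h']
          ring
      zero_mem' := ⟨0, 1, one_ne_zero, by rw [hv.zero]; exact hv.nonneg _, by simp⟩
      neg_mem' := by
        rintro x ⟨a, b, hb, hab, h⟩
        refine ⟨-a, b, hb, by rw [hv.neg]; exact hab, ?_⟩
        push_cast
        rw [← h]
        ring
      mem_or_inv_mem' := by
        intro x
        rcases W.mem_or_inv_mem x with h | h
        · exact Or.inl ⟨⟨x, h⟩, 1, one_ne_zero, by rw [hv.one]; exact hv.le_one _, by simp⟩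
        · exact Or.inr ⟨⟨x⁻¹, h⟩, 1, one_ne_zero, by rw [hv.one]; exact hv.le_one _, by simp⟩ }
  have hmem : ∀ x, x ∈ W₁ ↔ ∃ a b : W, b ≠ 0 ∧ v a ≤ v b ∧ x * (b : Ω) = a := fun x => Iff.rfl
  have hWW : ∀ x ∈ W, x ∈ W₁ := fun x h =>
    (hmem x).mpr ⟨⟨x, h⟩, 1, one_ne_zero, by rw [hv.one]; exact hv.le_one _, by simp⟩
  have hinv : ∀ x : W, x ≠ 0 → v x < 1 → (x : Ω)⁻¹ ∉ W₁ := by
    intro x hx hvx h
    obtain ⟨a, b, hb, hab, h⟩ := (hmem _).mp h
    have hx' : (x : Ω) ≠ 0 := fun h => hx (Subtype.ext h)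
    have h1 : b = a * x := by
      apply Subtype.ext
      push_cast
      rw [← h]
      field_simp
    have ha0 : a ≠ 0 := fun h0 => hb (by rw [h1, h0, zero_mul])
    rw [h1, hv.mul] at hab
    nlinarith [hpos a ha0]
  have hpW : (p : Ω) = ((p : W) : Ω) := by simp
  have hp0W : (p : W) ≠ 0 := fun h => hp0 (by rw [hpW, h]; rfl)
  refine ⟨W₁, ⟨?_, ?_, ?_⟩, hWW, hinv⟩
  · rw [hpW]
    apply hinv _ hp0W
    rw [hv.pi]
    norm_num
  · intro x
    rcases W.mem_or_inv_mem x with h | h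
    · exact ⟨0, by rw [pow_zero, one_mul]; exact hWW x h⟩
    · by_cases hx0 : x = 0
      · exact ⟨0, by rw [hx0, mul_zero]; exact W₁.zero_mem⟩
      have hy0 : (⟨x⁻¹, h⟩ : W) ≠ 0 := fun h0 => inv_ne_zero hx0 (congrArg Subtype.val h0)
      obtain ⟨n, hn⟩ := exists_pow_lt_of_lt_one (hpos _ hy0) (by norm_num : (1 / 2 : ℝ) < 1)
      refine ⟨n, (hmem _).mpr ⟨(p : W) ^ n, ⟨x⁻¹, h⟩, hy0, ?_, ?_⟩⟩
      · rw [hv.pi_pow]
        exact hn.le
      · push_cast
        rw [mul_assoc, mul_inv_cancel₀ hx0, mul_one]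
  · intro x hx hxinv
    obtain ⟨a, b, hb, hab, h⟩ := (hmem x).mp hx
    have hx0 : x ≠ 0 := by
      intro h0
      apply hxinv
      rw [h0, inv_zero]
      exact W₁.zero_mem
    have hb' : (b : Ω) ≠ 0 := fun h => hb (Subtype.ext h)
    have ha0 : a ≠ 0 := by
      intro h0
      rw [h0] at h
      exact mul_ne_zero hx0 hb' (by simpa using h)
    have hlt : v a < v b := by
      refine lt_of_le_of_ne hab fun heq => hxinv ((hmem _).mpr ⟨b, a, ha0, heq.ge, ?_⟩)
      rw [← h]
      field_simp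
    have hvb := hpos b hb
    obtain ⟨n, hn⟩ := exists_pow_lt_of_lt_one (by norm_num : (0 : ℝ) < 1 / 2)
      ((div_lt_one hvb).mpr hlt)
    refine ⟨n, (hmem _).mpr ⟨a ^ n, (p : W) * b ^ n, mul_ne_zero hp0W (pow_ne_zero _ hb), ?_, ?_⟩⟩
    · rw [hv.mul, hv.pi, hv.pow, hv.pow]
      rw [div_pow, div_lt_iff₀ (pow_pos hvb n)] at hn
      exact hn.le
    · push_cast
      rw [← h, mul_pow]
      field_simp

theorem noeth_closure {Ω : Type u} [Field Ω] (s : Finset Ω) :
    IsNoetherianRing (Subring.closure (s : Set Ω)) := by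
  have h1 : IsNoetherianRing (Algebra.adjoin ℤ (s : Set Ω)) := by
    haveI : Algebra.FiniteType ℤ (Algebra.adjoin ℤ (s : Set Ω)) :=
      (Subalgebra.fg_iff_finiteType _).mp ⟨s, rfl⟩
    exact Algebra.FiniteType.isNoetherianRing ℤ _
  have h2 : Subring.closure (s : Set Ω) = (Algebra.adjoin ℤ (s : Set Ω)).toSubring := by
    apply le_antisymm
    · rw [Subring.closure_le]
      exact Algebra.subset_adjoin
    · intro x hx
      have hx' : x ∈ Algebra.adjoin ℤ (s : Set Ω) := hx
      clear hx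
      induction hx' using Algebra.adjoin_induction with
      | mem x hx => exact Subring.subset_closure hx
      | algebraMap r =>
        rw [eq_intCast]
        exact intCast_mem _ r
      | add x y _ _ hx hy => exact add_mem hx hy
      | mul x y _ _ hx hy => exact mul_mem hx hy
  rw [h2]
  exact h1

end R1aux

open R1aux in
theorem m_R1 (h : StV1.{u}) : StR1.{u} := by
  classical
  intro Ω _ _ p _ g hg W hpW z hz
  have hp0 : (p : Ω) ≠ 0 := p_ne_zero
  let z' : Finset Ω := z ∪ g.image (fun x => if x ∈ W then x else x⁻¹)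
  have hz'W : ∀ x ∈ z', x ∈ W := by
    intro x hx
    rcases Finset.mem_union.mp hx with hx | hx
    · exact hz x hx
    · obtain ⟨y, _, rfl⟩ := Finset.mem_image.mp hx
      split_ifs with hy
      · exact hy
      · exact (W.mem_or_inv_mem y).resolve_left hy
  have hgz' : ∀ x ∈ g, x ∈ z' ∨ x⁻¹ ∈ z' := by
    intro x hx
    by_cases hxW : x ∈ W
    · left
      exact Finset.mem_union_right _ (Finset.mem_image.mpr ⟨x, hx, by simp [hxW]⟩)
    · right
      exact Finset.mem_union_right _ (Finset.mem_image.mpr ⟨x, hx, by simp [hxW]⟩)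
  let A₀ : Subring Ω := Subring.closure (z' : Set Ω)
  haveI : IsNoetherianRing A₀ := noeth_closure z'
  have hA₀W : A₀ ≤ W.toSubring := Subring.closure_le.mpr fun x hx => hz'W x hx
  let n : Ideal A₀ := (IsLocalRing.maximalIdeal W).comap (Subring.inclusion hA₀W)
  have hn : ∀ a : A₀, a ∈ n ↔ W.valuation a < 1 := fun a =>
    W.valuation_lt_one_iff (Subring.inclusion hA₀W a)
  have hpval : W.valuation (p : Ω) < 1 := by
    rw [← not_le]
    intro h1
    apply hpW
    rw [← W.valuation_le_one_iff, map_inv₀]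
    exact inv_le_one_of_one_le₀ h1
  obtain ⟨S, hS⟩ := (isNoetherianRing_iff_ideal_fg A₀).mp inferInstance n
  let S' : Finset Ω := S.image (fun a : A₀ => (a : Ω))
  have hSn : ∀ a ∈ S, a ∈ n := fun a ha => by rw [← hS]; exact Ideal.subset_span ha
  have hne : ∃ x ∈ S', x ≠ 0 := by
    by_contra hcon
    push Not at hcon
    have h1 : n ≤ ⊥ := by
      rw [← hS, Ideal.span_le]
      intro a ha
      have := hcon a (Finset.mem_image.mpr ⟨a, ha, rfl⟩)
      exact Subtype.ext this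
    have h2 : (p : A₀) ∈ n := (hn _).mpr (by simpa using hpval)
    have h3 : (p : A₀) = 0 := by simpa using h1 h2
    apply hp0
    have h4 := congrArg (fun a : A₀ => (a : Ω)) h3
    simpa using h4
  obtain ⟨f, hf, hf0, hfd⟩ := exists_min W S' hne
  let w : Finset Ω := z' ∪ S'.image (fun x => x / f)
  let T : Subring Ω := Subring.closure (w : Set Ω)
  haveI : IsNoetherianRing T := noeth_closure w
  have hTW : T ≤ W.toSubring := by
    apply Subring.closure_le.mpr
    intro x hx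
    rcases Finset.mem_union.mp (Finset.mem_coe.mp hx) with hx | hx
    · exact hz'W x hx
    · obtain ⟨y, hy, rfl⟩ := Finset.mem_image.mp hx
      exact hfd y hy
  have hA₀T : A₀ ≤ T := Subring.closure_mono fun x hx =>
    Finset.mem_coe.mpr (Finset.mem_union_left _ (Finset.mem_coe.mp hx))
  have hS'A₀ : ∀ x ∈ S', x ∈ A₀ := by
    intro x hx
    obtain ⟨a, _, rfl⟩ := Finset.mem_image.mp hx
    exact a.2
  have hS'val : ∀ x ∈ S', W.valuation x < 1 := by
    intro x hx
    obtain ⟨a, ha, rfl⟩ := Finset.mem_image.mp hx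
    exact (hn a).mp (hSn a ha)
  let f' : T := ⟨f, hA₀T (hS'A₀ f hf)⟩
  have hf'0 : f' ≠ 0 := fun h0 => hf0 (congrArg Subtype.val h0)
  let n₁ : Ideal T := (IsLocalRing.maximalIdeal W).comap (Subring.inclusion hTW)
  have hn₁ : ∀ a : T, a ∈ n₁ ↔ W.valuation a < 1 := fun a =>
    W.valuation_lt_one_iff (Subring.inclusion hTW a)
  haveI : n₁.IsPrime := Ideal.IsPrime.comap _
  have hfn₁ : Ideal.span {f'} ≤ n₁ := by
    rw [Ideal.span_singleton_le_iff_mem, hn₁]
    exact hS'val f hf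
  obtain ⟨q, hq, hqn⟩ := Ideal.exists_minimalPrimes_le hfn₁
  haveI hqp : q.IsPrime := hq.1.1
  have hht : q.height ≤ 1 := Ideal.height_le_one_of_isPrincipal_of_mem_minimalPrimes _ q hq
  have hfq : f' ∈ q := hq.1.2 (Ideal.mem_span_singleton_self f')
  have hnq : n ≤ q.comap (Subring.inclusion hA₀T) := by
    rw [← hS, Ideal.span_le]
    intro a ha
    have haS' : (a : Ω) ∈ S' := Finset.mem_image.mpr ⟨a, ha, rfl⟩
    have h1 : (a : Ω) / f ∈ T := Subring.subset_closure (Finset.mem_coe.mpr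
      (Finset.mem_union_right _ (Finset.mem_image.mpr ⟨a, haS', rfl⟩)))
    have h2 : Subring.inclusion hA₀T a = f' * ⟨(a : Ω) / f, h1⟩ := by
      apply Subtype.ext
      change (a : Ω) = f * ((a : Ω) / f)
      rw [mul_div_cancel₀ _ hf0]
    change Subring.inclusion hA₀T a ∈ q
    rw [h2]
    exact q.mul_mem_right _ hfq
  have hpq : (p : T) ∈ q := by
    have h2 : (p : A₀) ∈ n := (hn _).mpr (by simpa using hpval)
    have h3 := hnq h2
    simpa using h3
  obtain ⟨W₂, hTW₂, hW₂⟩ := exists_centre T q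
  have hpT0 : (p : T) ≠ 0 := by
    intro h0
    apply hp0
    have h4 := congrArg (fun a : T => (a : Ω)) h0
    simpa using h4
  have hpW₂ : (p : Ω)⁻¹ ∉ W₂ := by
    have h1 := (hW₂ (p : T)).mp hpq
    rcases h1 with h1 | h1
    · exact absurd (by simpa using h1) hp0
    · simpa using h1
  have hpW₂0 : (p : W₂) ≠ 0 := by
    intro h0
    apply hp0
    have h4 := congrArg (fun a : W₂ => (a : Ω)) h0
    simpa using h4
  have hpW₂u : ¬ IsUnit (p : W₂) := by
    rintro ⟨u, hu⟩
    apply hpW₂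
    have h2 : (p : Ω) * ((u⁻¹ : W₂ˣ) : W₂) = 1 := by
      have h3 : (p : Ω) = ((p : W₂) : Ω) := by simp
      rw [h3, ← hu]
      exact_mod_cast congrArg (fun z : W₂ => (z : Ω)) (Units.mul_inv u)
    rw [← eq_inv_of_mul_eq_one_right h2]
    exact ((u⁻¹ : W₂ˣ) : W₂).2
  obtain ⟨v, hv⟩ := h W₂ (p : W₂) hpW₂0 hpW₂u
  let i : T →+* W₂ := Subring.inclusion (show T ≤ W₂.toSubring from hTW₂)
  have hi : ∀ a : T, ((i a : W₂) : Ω) = a := fun a => rfl
  have hunit : ∀ s : T, s ∉ q → v (i s) = 1 := by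
    intro s hs
    apply hv.unit
    have h1 := mt (hW₂ s).mpr hs
    push Not at h1
    refine IsUnit.of_mul_eq_one (⟨(s : Ω)⁻¹, h1.2⟩ : W₂) ?_
    apply Subtype.ext
    change (s : Ω) * (s : Ω)⁻¹ = 1
    exact mul_inv_cancel₀ h1.1
  have hposT : ∀ y : T, y ≠ 0 → 0 < v (i y) := by
    intro y hy
    obtain ⟨s, hs, k, t, hst⟩ := height_one_rad q hht (p : T) y hpq hy
    have h1 : v (i s) * v (i (p : T)) ^ k = v (i y) * v (i t) := by
      rw [← hv.pow, ← hv.mul, ← hv.mul, ← map_pow, ← map_mul, ← map_mul, hst]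
    rw [hunit s hs, map_natCast, hv.pi, one_mul] at h1
    have h2 : 0 < v (i y) * v (i t) := by rw [← h1]; positivity
    rcases (hv.nonneg (i y)).lt_or_eq with h3 | h3
    · exact h3
    · rw [← h3, zero_mul] at h2
      exact absurd h2 (lt_irrefl _)
  have hgT : ∀ x ∈ g, x ∈ T ∨ x⁻¹ ∈ T := by
    intro x hx
    rcases hgz' x hx with h1 | h1
    · exact Or.inl (Subring.subset_closure (Finset.mem_coe.mpr (Finset.mem_union_left _ h1)))
    · exact Or.inr (Subring.subset_closure (Finset.mem_coe.mpr (Finset.mem_union_left _ h1)))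
  have hpos : ∀ b : W₂, b ≠ 0 → 0 < v b := by
    intro b hb
    have hbΩ : (b : Ω) ≠ 0 := fun h0 => hb (Subtype.ext h0)
    obtain ⟨F, hF0, hF⟩ := algebraic_swap g hg T hgT (b : Ω)
    have halg : IsAlgebraic T (b : Ω) := ⟨F, hF0, hF⟩
    obtain ⟨Q, hQ0, hQ⟩ := halg.exists_nonzero_coeff_and_aeval_eq_zero
      (mem_nonZeroDivisors_of_ne_zero hbΩ)
    have hev : ∀ G : T[X], ((eval₂ i b G : W₂) : Ω) = aeval (b : Ω) G := by
      intro G
      rw [aeval_def]
      exact Polynomial.hom_eval₂ G i W₂.subtype b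
    have h1 : b * eval₂ i b (divX Q) + i (Q.coeff 0) = 0 := by
      apply Subtype.ext
      have h2 : eval₂ i b Q = b * eval₂ i b (divX Q) + i (Q.coeff 0) := by
        conv_lhs => rw [← divX_mul_X_add Q]
        rw [eval₂_add, eval₂_mul, eval₂_X, eval₂_C, mul_comm]
      rw [← h2, hev, hQ]
      rfl
    have h3 : b ∣ i (Q.coeff 0) := ⟨-eval₂ i b (divX Q), by linear_combination h1⟩
    exact lt_of_lt_of_le (hposT _ hQ0) (hv.le_of_dvd h3)
  obtain ⟨W₁, hRk, hWW, hinv⟩ := exists_rk1 p hp0 W₂ v hv hpos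
  refine ⟨W₁, hRk, ?_, ?_⟩
  · intro x hx
    exact hWW x (hTW₂ (Subring.subset_closure (Finset.mem_coe.mpr
      (Finset.mem_union_left _ (Finset.mem_union_left _ hx)))))
  · intro x hx hxW
    have hx0 : x ≠ 0 := by
      intro h0
      apply hxW
      rw [h0, inv_zero]
      exact W.zero_mem
    have hxA₀ : x ∈ A₀ := Subring.subset_closure (Finset.mem_coe.mpr (Finset.mem_union_left _ hx))
    have hxn : (⟨x, hxA₀⟩ : A₀) ∈ n := by
      rw [hn]
      change W.valuation x < 1
      rw [← not_le]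
      intro h1
      apply hxW
      rw [← W.valuation_le_one_iff, map_inv₀]
      exact inv_le_one_of_one_le₀ h1
    have hxq : (⟨x, hA₀T hxA₀⟩ : T) ∈ q := hnq hxn
    have hxT0 : (⟨x, hA₀T hxA₀⟩ : T) ≠ 0 := fun h0 => hx0 (congrArg Subtype.val h0)
    have hlt : v (i ⟨x, hA₀T hxA₀⟩) < 1 := by
      obtain ⟨s, hs, k, t, hst⟩ := height_one_rad q hht _ (p : T) hxq hpT0
      have h1 : v (i s) * v (i ⟨x, hA₀T hxA₀⟩) ^ k = v (i (p : T)) * v (i t) := by
        rw [← hv.pow, ← hv.mul, ← hv.mul, ← map_pow, ← map_mul, ← map_mul, hst]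
      rw [hunit s hs, map_natCast, hv.pi, one_mul] at h1
      refine lt_of_le_of_ne (hv.le_one _) fun h2 => ?_
      rw [h2, one_pow] at h1
      have := hv.le_one (i t)
      linarith
    have hix0 : i ⟨x, hA₀T hxA₀⟩ ≠ 0 := fun h0 => hx0 (congrArg Subtype.val h0)
    exact hinv _ hix0 hlt

end Pool.Agent.Helper44.SPL
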