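import Pool.Agent.Helper44.SPL.St

/-! Module RAD of project SPL: minimal polynomials of elements of the radical of an extended prime. -/

set_option autoImplicit false

namespace Pool.Agent.Helper44.SPL

open Polynomial

universe u

theorem m_RAD : StRAD.{u} := by
  intro S E _ _ _ _ _ hinj P hP z m hm hz
  have hfs : FaithfulSMul S E := (faithfulSMul_iff_algebraMap_injective S E).2 hinj
  -- lift to the integral closure
  have hlift : ∀ x ∈ Submodule.span (integralClosure S E) (algebraMap S E '' (P : Set S)),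
      ∃ c : integralClosure S E, c ∈ P.map (algebraMap S (integralClosure S E)) ∧ (c : E) = x := by
    intro x hx
    induction hx using Submodule.span_induction with
    | mem x h =>
      obtain ⟨a, ha, rfl⟩ := h
      exact ⟨algebraMap S _ a, Ideal.mem_map_of_mem _ ha, rfl⟩
    | zero => exact ⟨0, Ideal.zero_mem _, rfl⟩
    | add x y _ _ h1 h2 =>
      obtain ⟨c, hc, rfl⟩ := h1
      obtain ⟨d, hd, rfl⟩ := h2
      exact ⟨c + d, Ideal.add_mem _ hc hd, rfl⟩
    | smul a x _ h =>
      obtain ⟨c, hc, rfl⟩ := h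
      exact ⟨a * c, Ideal.mul_mem_left _ _ hc, rfl⟩
  obtain ⟨c, hc, hcz⟩ := hlift _ hz
  obtain ⟨f, hfm, hfa, hf⟩ := exists_monic_aeval_eq_zero_forall_mem_of_mem_map hc
  have hfz : aeval (z ^ m) f = 0 := by
    rw [← hcz]
    rw [Subalgebra.aeval_coe, hfa]
    rfl
  have hgm : (expand S m f).Monic := hfm.expand hm
  have hgz : aeval z (expand S m f) = 0 := by
    rw [expand_aeval, hfz]
  have hint : IsIntegral S z := ⟨expand S m f, hgm, hgz⟩
  refine ⟨hint, fun i hi => ?_⟩
  have h1 := Polynomial.coeff_mem_radical_span_coeff_of_dvd _ _ hgm (minpoly.monic hint)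
    (minpoly.isIntegrallyClosed_dvd hint hgz) i hi.ne
  have h2 : (Ideal.span { a | ∃ j, j < (expand S m f).natDegree ∧ (expand S m f).coeff j = a }).radical
      ≤ P := by
    rw [Ideal.IsPrime.radical_le_iff hP, Ideal.span_le]
    rintro a ⟨j, hj, rfl⟩
    rw [natDegree_expand] at hj
    rw [coeff_expand hm]
    split_ifs with hd
    · obtain ⟨k, rfl⟩ := hd
      rw [Nat.mul_div_cancel_left _ hm]
      refine hf k ?_
      rintro rfl
      rw [mul_comm] at hj
      exact lt_irrefl _ hj
    · exact P.zero_mem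
  exact h2 h1

end Pool.Agent.Helper44.SPL
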