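import Pool.Agent.Helper44.SPL.St

/-!
# SPL, module S0: sections over the point zero
-/

set_option autoImplicit false

namespace Pool.Agent.Helper44.SPL

open Polynomial

universe u

section s0

variable {Ω : Type u} [Field Ω]

theorem s0_root [IsAlgClosed Ω] {A : Subring Ω} (hA : IC A) (G : Polynomial A) (hG : G.Monic)
    (hd : G.natDegree ≠ 0) : ∃ a : A, G.eval a = 0 := by
  have h1 : (G.map (algebraMap A Ω)).degree ≠ 0 := by
    rw [hG.degree_map]
    intro h
    exact hd (Polynomial.natDegree_eq_of_degree_eq_some h)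
  obtain ⟨ω, hω⟩ := IsAlgClosed.exists_root (G.map (algebraMap A Ω)) h1
  have h2 : ω ∈ icl (A : Set Ω) := by
    show IsIntegral (Subring.closure (A : Set Ω)) ω
    rw [Subring.closure_eq]
    refine ⟨G, hG, ?_⟩
    rw [← Polynomial.eval_map]
    exact hω
  have h3 : icl (A : Set Ω) = A := hA
  rw [h3] at h2
  refine ⟨⟨ω, h2⟩, ?_⟩
  have h4 : ((G.eval ⟨ω, h2⟩ : A) : Ω) = (G.map (algebraMap A Ω)).eval ω := by
    rw [Polynomial.eval_map, Polynomial.eval₂_eq_eval_map]
    have h5 := Polynomial.eval_map_apply (f := algebraMap A Ω) (p := G) (⟨ω, h2⟩ : A)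
    exact h5.symm
  have h6 : (G.map (algebraMap A Ω)).eval ω = 0 := hω
  rw [h6] at h4
  exact Subtype.ext h4

/-- a domain which is integral over an integrally closed `A` is equal to `A` -/
theorem s0_surj [IsAlgClosed Ω] {A : Subring Ω} (hA : IC A) {E : Type u} [CommRing E] [IsDomain E]
    (j : A →+* E) (x : E) : ∀ (n : ℕ) (G : Polynomial A), G.natDegree = n → G.Monic →
      G.eval₂ j x = 0 → ∃ a, j a = x := by
  intro n
  induction n with
  | zero =>
    intro G hn hG h
    rw [hG.natDegree_eq_zero.1 hn, Polynomial.eval₂_one] at h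
    exact absurd h one_ne_zero
  | succ n ih =>
    intro G hn hG h
    obtain ⟨a, ha⟩ := s0_root hA G hG (by omega)
    obtain ⟨G', rfl⟩ := Polynomial.dvd_iff_isRoot.2 (show G.IsRoot a from ha)
    have hG' : G'.Monic := (Polynomial.monic_X_sub_C a).of_mul_monic_left hG
    rw [Polynomial.eval₂_mul, Polynomial.eval₂_sub, Polynomial.eval₂_X, Polynomial.eval₂_C] at h
    rcases mul_eq_zero.1 h with h | h
    · exact ⟨a, (sub_eq_zero.1 h).symm⟩
    · refine ih G' ?_ hG' h
      rw [(Polynomial.monic_X_sub_C a).natDegree_mul hG', Polynomial.natDegree_X_sub_C] at hn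
      omega

end s0

theorem m_S0 : StS0.{u} := by
  intro Ω _ _ A hA t ht
  have hA' : ∀ a ∈ A, a ∈ icl ((A : Set Ω) ∪ {t}) := fun a ha =>
    isIntegral_algebraMap (R := Subring.closure ((A : Set Ω) ∪ {t}))
      (x := ⟨a, Subring.subset_closure (Or.inl ha)⟩)
  have ht' : t ∈ icl ((A : Set Ω) ∪ {t}) :=
    isIntegral_algebraMap (R := Subring.closure ((A : Set Ω) ∪ {t}))
      (x := ⟨t, Subring.subset_closure (Or.inr rfl)⟩)
  let i : Polynomial A →+* icl ((A : Set Ω) ∪ {t}) :=
    Polynomial.eval₂RingHom (Subring.inclusion hA') ⟨t, ht'⟩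
  have hi : ∀ f, ((i f : icl ((A : Set Ω) ∪ {t})) : Ω) = aeval t f := by
    intro f
    show (icl ((A : Set Ω) ∪ {t})).subtype (Polynomial.eval₂ _ _ f) = _
    rw [Polynomial.hom_eval₂]
    rfl
  have hinj : Function.Injective i := by
    intro f g h
    refine (transcendental_iff_injective.1 ht) ?_
    rw [← hi, ← hi, h]
  have hint : i.IsIntegral := by
    intro x
    obtain ⟨q, hq, hx⟩ := x.2
    -- lift the coefficients
    have hlift : ∀ r ∈ Subring.closure ((A : Set Ω) ∪ {t}), ∃ f : Polynomial A, aeval t f = r := by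
      intro r hr
      induction hr using Subring.closure_induction with
      | mem x h =>
        rcases h with h | h
        · exact ⟨C ⟨x, h⟩, by rw [Polynomial.aeval_C]; rfl⟩
        · exact ⟨X, by rw [Polynomial.aeval_X, Set.mem_singleton_iff.1 h]⟩
      | zero => exact ⟨0, by simp⟩
      | one => exact ⟨1, by simp⟩
      | add x y _ _ hx hy =>
        obtain ⟨f, rfl⟩ := hx
        obtain ⟨g, rfl⟩ := hy
        exact ⟨f + g, by simp⟩
      | neg x _ hx =>
        obtain ⟨f, rfl⟩ := hx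
        exact ⟨-f, by simp⟩
      | mul x y _ _ hx hy =>
        obtain ⟨f, rfl⟩ := hx
        obtain ⟨g, rfl⟩ := hy
        exact ⟨f * g, by simp⟩
    have hQ : q.map (algebraMap (Subring.closure ((A : Set Ω) ∪ {t})) Ω) ∈
        Polynomial.lifts (aeval (R := A) t).toRingHom := by
      rw [Polynomial.lifts_iff_coeff_lifts]
      intro k
      rw [Polynomial.coeff_map]
      obtain ⟨f, hf⟩ := hlift _ (q.coeff k).2
      exact ⟨f, hf⟩
    obtain ⟨F, hF, -, hFm⟩ := Polynomial.lifts_and_natDegree_eq_and_monic hQ (hq.map _)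
    refine ⟨F, hFm, ?_⟩
    have h1 : (((F.eval₂ i x : icl ((A : Set Ω) ∪ {t}))) : Ω) =
        (F.map (aeval (R := A) t).toRingHom).eval (x : Ω) := by
      show (icl ((A : Set Ω) ∪ {t})).subtype (Polynomial.eval₂ _ _ F) = _
      rw [Polynomial.hom_eval₂, Polynomial.eval_map]
      have h2 : (icl ((A : Set Ω) ∪ {t})).subtype.comp i = (aeval (R := A) t).toRingHom :=
        RingHom.ext hi
      rw [h2]
      rfl
    rw [hF, Polynomial.eval_map] at h1
    exact Subtype.ext (h1.trans hx)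
  let _ : Algebra (Polynomial A) (icl ((A : Set Ω) ∪ {t})) := i.toAlgebra
  have _ : Algebra.IsIntegral (Polynomial A) (icl ((A : Set Ω) ∪ {t})) := ⟨hint⟩
  have hPr : (RingHom.ker (Polynomial.evalRingHom (0 : A))).IsPrime := RingHom.ker_isPrime _
  obtain ⟨P, hP, hPc⟩ := Ideal.exists_ideal_over_prime_of_isIntegral_of_isDomain
    (S := icl ((A : Set Ω) ∪ {t})) (RingHom.ker (Polynomial.evalRingHom (0 : A))) (by
      have h0 : RingHom.ker (algebraMap (Polynomial A) (icl ((A : Set Ω) ∪ {t}))) = ⊥ :=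
        (RingHom.injective_iff_ker_eq_bot _).1 hinj
      rw [h0]
      exact bot_le)
  have hmem : ∀ f : Polynomial A, i f ∈ P ↔ f.eval 0 = 0 := by
    intro f
    have h1 : i f ∈ P ↔ f ∈ P.comap (algebraMap (Polynomial A) (icl ((A : Set Ω) ∪ {t}))) :=
      Iff.rfl
    rw [h1, hPc, RingHom.mem_ker]
    rfl
  let j : A →+* (icl ((A : Set Ω) ∪ {t}) ⧸ P) :=
    (Ideal.Quotient.mk P).comp (i.comp Polynomial.C)
  have hj : ∀ f : Polynomial A, Ideal.Quotient.mk P (i f) = j (f.eval 0) := by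
    intro f
    show Ideal.Quotient.mk P (i f) = Ideal.Quotient.mk P (i (Polynomial.C (f.eval 0)))
    rw [Ideal.Quotient.eq, ← map_sub, hmem]
    simp
  have hjinj : Function.Injective j := by
    rw [injective_iff_map_eq_zero]
    intro a ha
    have h1 : Ideal.Quotient.mk P (i (Polynomial.C a)) = 0 := ha
    rw [Ideal.Quotient.eq_zero_iff_mem, hmem] at h1
    simpa using h1
  have hjsurj : Function.Surjective j := by
    intro y
    obtain ⟨x, rfl⟩ := Ideal.Quotient.mk_surjective y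
    obtain ⟨F, hF, hx⟩ := hint x
    refine s0_surj hA j _ _ (F.map (Polynomial.evalRingHom (0 : A))) rfl (hF.map _) ?_
    rw [Polynomial.eval₂_map]
    have h2 : j.comp (Polynomial.evalRingHom (0 : A)) = (Ideal.Quotient.mk P).comp i :=
      RingHom.ext fun f => (hj f).symm
    rw [h2, ← Polynomial.hom_eval₂, hx, map_zero]
  let e : A ≃+* (icl ((A : Set Ω) ∪ {t}) ⧸ P) := RingEquiv.ofBijective j ⟨hjinj, hjsurj⟩
  refine ⟨e.symm.toRingHom.comp (Ideal.Quotient.mk P), fun a h h' => ?_, fun h => ?_⟩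
  · show e.symm (Ideal.Quotient.mk P ⟨a, h'⟩) = ⟨a, h⟩
    rw [RingEquiv.symm_apply_eq]
    show Ideal.Quotient.mk P ⟨a, h'⟩ = Ideal.Quotient.mk P (i (Polynomial.C ⟨a, h⟩))
    have h1 : i (Polynomial.C ⟨a, h⟩) = ⟨a, h'⟩ := by
      refine Subtype.ext ?_
      rw [hi, Polynomial.aeval_C]
      rfl
    rw [h1]
  · show e.symm (Ideal.Quotient.mk P ⟨t, h⟩) = 0
    have h1 : i Polynomial.X = ⟨t, h⟩ := by
      refine Subtype.ext ?_
      rw [hi, Polynomial.aeval_X]
    rw [← h1, Ideal.Quotient.eq_zero_iff_mem.2 ((hmem _).2 (by simp)), map_zero]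

end Pool.Agent.Helper44.SPL
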