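import Pool.Agent.Helper44.SPL.St

/-!
# SPL, module SCALE: normalisation of a monic polynomial by a scalar
-/

set_option autoImplicit false

namespace Pool.Agent.Helper44.SPL

open Polynomial

universe u

theorem m_SCALE : StSCALE.{u} := by
  classical
  intro κ _ _ V M hM hne
  set n := M.natDegree with hn
  -- roots
  have hr : ∀ i j : ℕ, ∃ r : κ, i < n → r ^ (n - i) = (M.coeff i).coeff j := by
    intro i j
    by_cases hi : i < n
    · obtain ⟨z, hz⟩ := IsAlgClosed.exists_pow_nat_eq ((M.coeff i).coeff j) (Nat.sub_pos_of_lt hi)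
      exact ⟨z, fun _ => hz⟩
    · exact ⟨0, fun h => absurd h hi⟩
  choose r hr using hr
  -- a nonzero coefficient
  have hex : ∃ i < n, ∃ j, (M.coeff i).coeff j ≠ 0 := by
    by_contra hcon
    push Not at hcon
    refine hne (Polynomial.ext fun i => ?_)
    rw [Polynomial.coeff_X_pow]
    rcases lt_trichotomy i n with h | h | h
    · rw [if_neg h.ne]
      exact Polynomial.ext fun j => by rw [hcon i h j, Polynomial.coeff_zero]
    · rw [if_pos h, h, hn]
      exact hM
    · rw [if_neg h.ne']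
      exact Polynomial.coeff_eq_zero_of_natDegree_lt h
  set N := (Finset.range n).sup (fun i => (M.coeff i).natDegree) + 1 with hN
  have hNj : ∀ i < n, ∀ j, (M.coeff i).coeff j ≠ 0 → j < N := by
    intro i hi j hj
    have h1 : (M.coeff i).natDegree ≤ (Finset.range n).sup (fun i => (M.coeff i).natDegree) :=
      Finset.le_sup (f := fun i => (M.coeff i).natDegree) (Finset.mem_range.2 hi)
    have h2 := Polynomial.le_natDegree_of_ne_zero hj
    omega
  set S : Finset (ℕ × ℕ) := (Finset.range n ×ˢ Finset.range N).filter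
    (fun x => (M.coeff x.1).coeff x.2 ≠ 0) with hS
  have hSm : ∀ x : ℕ × ℕ, x ∈ S ↔ x.1 < n ∧ (M.coeff x.1).coeff x.2 ≠ 0 := by
    intro x
    rw [hS, Finset.mem_filter, Finset.mem_product, Finset.mem_range, Finset.mem_range]
    exact ⟨fun h => ⟨h.1.1, h.2⟩, fun h => ⟨⟨h.1, hNj _ h.1 _ h.2⟩, h.2⟩⟩
  have hSne : S.Nonempty := by
    obtain ⟨i, hi, j, hj⟩ := hex
    exact ⟨(i, j), (hSm _).2 ⟨hi, hj⟩⟩
  obtain ⟨⟨i₀, j₀⟩, h0, hmax⟩ := Finset.exists_max_image S (fun x => V.valuation (r x.1 x.2)) hSne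
  obtain ⟨hi0, hj0⟩ := (hSm _).1 h0
  dsimp only at hi0 hj0 hmax
  set ρ := r i₀ j₀ with hρ
  have hρpow : ρ ^ (n - i₀) = (M.coeff i₀).coeff j₀ := hr i₀ j₀ hi0
  have hρ0 : ρ ≠ 0 := by
    intro h
    rw [h, zero_pow (Nat.sub_ne_zero_of_lt hi0)] at hρpow
    exact hj0 hρpow.symm
  refine ⟨ρ, hρ0, ?_, i₀, hi0, j₀, hj0, ?_⟩
  · intro i hi j
    rcases hi.lt_or_eq with h | h
    · by_cases hc : (M.coeff i).coeff j = 0
      · rw [hc, zero_div]
        exact V.zero_mem
      · have h1 : V.valuation (r i j) ≤ V.valuation ρ := hmax (i, j) ((hSm _).2 ⟨h, hc⟩)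
        have h2 : r i j / ρ ∈ V := by
          rw [← V.valuation_le_one_iff, map_div₀]
          exact div_le_one_of_le₀ h1 zero_le
        rw [← hr i j h, ← div_pow]
        exact V.pow_mem h2 _
    · rw [h, Nat.sub_self, pow_zero, div_one]
      have h1 : M.coeff n = 1 := hM
      rw [h1, Polynomial.coeff_one]
      split_ifs
      · exact V.one_mem
      · exact V.zero_mem
  · rw [← hρpow, div_self (pow_ne_zero _ hρ0), inv_one]
    exact V.one_mem

end Pool.Agent.Helper44.SPL
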