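import Pool.Agent.Helper44.SPL.St

/-!
# Module SEID: Seidenberg's lemma
-/

set_option autoImplicit false

namespace Pool.Agent.Helper44.SPL

open Polynomial

universe u

namespace SEID

variable {Ω : Type u} [Field Ω]

theorem mem_icl {s : Set Ω} {x : Ω} : x ∈ icl s ↔ IsIntegral (Subring.closure s) x := Iff.rfl

theorem mem_of_isIntegral {T : Subring Ω} (hT : IC T) {x : Ω} (hx : IsIntegral T x) : x ∈ T := by
  have h1 : x ∈ icl (T : Set Ω) := by
    rw [mem_icl]
    obtain ⟨p, hp, hpx⟩ := hx
    have hle : ∀ a : T, (a : Ω) ∈ Subring.closure (T : Set Ω) := fun a =>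
      Subring.subset_closure a.2
    let j : T →+* Subring.closure (T : Set Ω) := T.subtype.codRestrict _ hle
    refine ⟨p.map j, hp.map j, ?_⟩
    rw [eval₂_map]
    exact hpx
  have h2 : icl (T : Set Ω) = T := hT
  rwa [h2] at h1

/-- A relation with a unit coefficient puts `X` or `1/X` into `T`. -/
theorem unit_coeff {T : Subring Ω} (hl : IsLocalRing T) (hT : IC T) {X : Ω} :
    ∀ (n : ℕ) (f : T[X]), f.natDegree ≤ n → aeval X f = 0 → (∃ i, IsUnit (f.coeff i)) →
      X ∈ T ∨ X⁻¹ ∈ T := by
  intro n
  induction n with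
  | zero =>
    intro f hf h0 hu
    obtain ⟨i, hi⟩ := hu
    have h1 : f = C (f.coeff 0) := eq_C_of_natDegree_le_zero hf
    rw [h1, aeval_C] at h0
    have h2 : f.coeff 0 = 0 := by
      have : ((f.coeff 0 : T) : Ω) = 0 := h0
      exact Subtype.ext this
    rw [h1, coeff_C] at hi
    split_ifs at hi
    · rw [h2] at hi
      exact absurd rfl (hi.ne_zero)
    · exact absurd rfl (hi.ne_zero)
  | succ n ih =>
    intro f hf h0 hu
    by_cases hdeg : f.natDegree ≤ n
    · exact ih f hdeg h0 hu
    have hd : f.natDegree = n + 1 := by omega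
    set a := f.leadingCoeff with ha
    have hint : IsIntegral T (a • X) := isIntegral_leadingCoeff_smul f X h0
    have hb : a • X ∈ T := mem_of_isIntegral hT hint
    by_cases hau : IsUnit a
    · left
      obtain ⟨c, hc⟩ := hau.exists_left_inv
      have h1 : (c : Ω) * (a • X) = X := by
        have h2 : (c : Ω) * (a : Ω) = 1 := by
          have := congrArg (Subtype.val) hc
          simpa using this
        rw [Subring.smul_def, smul_eq_mul, ← mul_assoc, h2, one_mul]
      rw [← h1]
      exact T.mul_mem c.2 hb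
    · -- lower the degree
      set b : T := ⟨a • X, hb⟩ with hbdef
      set g : T[X] := f.eraseLead + C b * Polynomial.X ^ n with hg
      have hcoefflt : ∀ i, i < n → g.coeff i = f.coeff i := by
        intro i hi
        rw [hg, coeff_add, coeff_C_mul_X_pow, if_neg (by omega), add_zero,
          eraseLead_coeff_of_ne _ (by omega)]
      have hcoeffn : g.coeff n = f.coeff n + b := by
        rw [hg, coeff_add, coeff_C_mul_X_pow, if_pos rfl, eraseLead_coeff_of_ne _ (by omega)]
      have hgd : g.natDegree ≤ n := by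
        rw [hg]
        apply (natDegree_add_le _ _).trans
        apply max_le
        · have := eraseLead_natDegree_le f
          omega
        · exact (natDegree_C_mul_X_pow_le _ _)
      have hgX : aeval X g = 0 := by
        have h1 : f.eraseLead + monomial f.natDegree f.leadingCoeff = f :=
          eraseLead_add_monomial_natDegree_leadingCoeff f
        have h2 : aeval X f.eraseLead + (a : Ω) * X ^ (n + 1) = 0 := by
          rw [← h0]
          conv_rhs => rw [← h1]
          rw [map_add, aeval_monomial, hd]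
          rfl
        rw [hg, map_add, map_mul, aeval_C, map_pow, aeval_X]
        have h3 : algebraMap T Ω b = (a : Ω) * X := rfl
        rw [h3, mul_assoc, ← pow_succ']
        exact h2
      by_cases hgu : ∃ i, IsUnit (g.coeff i)
      · exact ih g hgd hgX hgu
      · push Not at hgu
        obtain ⟨i, hi⟩ := hu
        have hin : i = n := by
          have h1 : ¬ i < n := fun h => hgu i (by rw [hcoefflt i h]; exact hi)
          have h2 : i ≠ n + 1 := by
            intro h
            apply hau
            rw [ha, leadingCoeff, hd, ← h]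
            exact hi
          have h3 : ¬ n + 1 < i := by
            intro h
            rw [coeff_eq_zero_of_natDegree_lt (by omega)] at hi
            exact absurd rfl hi.ne_zero
          omega
        subst hin
        have hbu : IsUnit b := by
          have h1 := hgu i
          rw [hcoeffn] at h1
          by_contra hb'
          have h2 : b ∈ nonunits T := hb'
          have h3 : f.coeff i + b ∈ nonunits T := h1
          have h4 : f.coeff i + b + (-b) ∈ nonunits T := by
            apply IsLocalRing.nonunits_add h3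
            rw [mem_nonunits_iff, IsUnit.neg_iff]
            exact h2
          rw [add_neg_cancel_right] at h4
          exact h4 hi
        right
        obtain ⟨c, hc⟩ := hbu.exists_left_inv
        have h1 : (c : Ω) * ((a : Ω) * X) = 1 := by
          have := congrArg (Subtype.val) hc
          simpa [hbdef, Subring.smul_def] using this
        have h2 : X⁻¹ = (c : Ω) * (a : Ω) := by
          apply inv_eq_of_mul_eq_one_right
          rw [mul_comm, mul_assoc]
          exact h1
        rw [h2]
        exact T.mul_mem c.2 a.2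

theorem mem_nu_iff {T : Subring Ω} (a : T) : (a : Ω) ∈ nu T ↔ ¬ IsUnit a := by
  unfold nu
  rw [Set.mem_setOf_eq]
  constructor
  · rintro ⟨-, h | h⟩ hu
    · have : a = 0 := Subtype.ext h
      rw [this] at hu
      exact absurd rfl hu.ne_zero
    · obtain ⟨c, hc⟩ := hu.exists_left_inv
      apply h
      have h1 : (c : Ω) * (a : Ω) = 1 := by
        have := congrArg (Subtype.val) hc
        simpa using this
      have h2 : (a : Ω)⁻¹ = (c : Ω) := inv_eq_of_mul_eq_one_right (by rw [mul_comm]; exact h1)
      rw [h2]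
      exact c.2
  · intro hu
    refine ⟨a.2, ?_⟩
    by_contra hcon
    push Not at hcon
    obtain ⟨h0, hi⟩ := hcon
    apply hu
    refine IsUnit.of_mul_eq_one (⟨(a : Ω)⁻¹, hi⟩ : T) ?_
    apply Subtype.ext
    simpa using mul_inv_cancel₀ h0

end SEID

open SEID in
theorem m_SEID : StSEID.{u} := by
  intro Ω _ T hl hT X hX hX' f hf i
  -- the ring homomorphism from polynomials
  set D : Subring Ω := icl ((T : Set Ω) ∪ {X}) with hD
  have hcl : Subring.closure ((T : Set Ω) ∪ {X}) ≤ D := by
    intro x hx
    rw [hD, mem_icl]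
    exact isIntegral_algebraMap (R := Subring.closure ((T : Set Ω) ∪ {X})) (A := Ω) (x := ⟨x, hx⟩)
  have hφcl : ∀ g : T[X], aeval X g ∈ Subring.closure ((T : Set Ω) ∪ {X}) := by
    intro g
    rw [aeval_eq_sum_range]
    apply Subring.sum_mem
    intro j _
    rw [Subring.smul_def, smul_eq_mul]
    apply Subring.mul_mem
    · exact Subring.subset_closure (Set.mem_union_left _ (g.coeff j).2)
    · have hXm : X ∈ (T : Set Ω) ∪ {X} := Set.mem_union_right _ (Set.mem_singleton X)
      exact Subring.pow_mem _ (Subring.subset_closure hXm) j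
  let φ : T[X] →+* Ω := (aeval X : T[X] →ₐ[T] Ω).toRingHom
  let ψ : T[X] →+* D := φ.codRestrict D (fun g => hcl (hφcl g))
  letI : Algebra T[X] D := ψ.toAlgebra
  have halg : ∀ g : T[X], ((algebraMap T[X] D g : D) : Ω) = aeval X g := fun g => rfl
  -- the range of `φ` contains the closure
  have hsurj : ∀ x ∈ Subring.closure ((T : Set Ω) ∪ {X}), ∃ g : T[X], aeval X g = x := by
    intro x hx
    have h1 : Subring.closure ((T : Set Ω) ∪ {X}) ≤ φ.range := by
      rw [Subring.closure_le]
      rintro y (hy | hy)
      · exact ⟨C ⟨y, hy⟩, by simp only [φ, AlgHom.toRingHom_eq_coe, RingHom.coe_coe, aeval_C]; rfl⟩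
      · exact ⟨Polynomial.X, by rw [Set.mem_singleton_iff.1 hy]; simp [φ]⟩
    exact h1 hx
  -- integrality
  haveI : Algebra.IsIntegral T[X] D := by
    constructor
    intro d
    have hd : IsIntegral (Subring.closure ((T : Set Ω) ∪ {X})) (d : Ω) := d.2
    obtain ⟨p, hp, hpx⟩ := hd
    -- lift the coefficients
    let ρ : T[X] →+* Subring.closure ((T : Set Ω) ∪ {X}) := φ.codRestrict _ hφcl
    have hρ : Function.Surjective ρ := by
      rintro ⟨x, hx⟩
      obtain ⟨g, hg⟩ := hsurj x hx
      exact ⟨g, Subtype.ext hg⟩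
    have hlift : p ∈ lifts ρ := by
      rw [lifts_iff_coeff_lifts]
      intro n
      obtain ⟨g, hg⟩ := hρ (p.coeff n)
      exact ⟨g, hg⟩
    obtain ⟨q, hq1, -, hq3⟩ := lifts_and_degree_eq_and_monic hlift hp
    refine ⟨q, hq3, ?_⟩
    apply Subtype.ext
    have h1 : ((eval₂ (algebraMap T[X] D) d q : D) : Ω) =
        eval₂ (D.subtype.comp (algebraMap T[X] D)) (d : Ω) q := by
      exact Polynomial.hom_eval₂ q (algebraMap T[X] D) D.subtype d
    rw [h1]
    rw [← hq1, eval₂_map] at hpx
    exact hpx
  -- the prime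
  haveI := hl
  set P : Ideal T[X] := Ideal.map (C : T →+* T[X]) (IsLocalRing.maximalIdeal T) with hP
  haveI : P.IsPrime := Ideal.isPrime_map_C_of_isPrime
  have hker : RingHom.ker (algebraMap T[X] D) ≤ P := by
    intro g hg
    rw [RingHom.mem_ker] at hg
    have hg' : aeval X g = 0 := by rw [← halg, hg]; rfl
    rw [hP, Ideal.mem_map_C_iff]
    intro n
    rw [IsLocalRing.mem_maximalIdeal]
    intro hu
    rcases unit_coeff hl hT g.natDegree g le_rfl hg' ⟨n, hu⟩ with h | h
    · exact hX h
    · exact hX' h
  obtain ⟨Q, hQ, hQP⟩ :=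
    Ideal.exists_ideal_over_prime_of_isIntegral_of_isDomain (S := D) P hker
  -- elements of `nu T · D` are in `Q`
  have hmem : ∀ x ∈ ext (nu T) D, ∃ h : x ∈ D, (⟨x, h⟩ : D) ∈ Q := by
    intro x hx
    refine Submodule.span_induction ?_ ?_ ?_ ?_ hx
    · intro a ha
      have haT : a ∈ T := ha.1
      have h1 : (C ⟨a, haT⟩ : T[X]) ∈ P := by
        rw [hP]
        apply Ideal.mem_map_of_mem
        rw [IsLocalRing.mem_maximalIdeal]
        exact (mem_nu_iff ⟨a, haT⟩).1 ha
      rw [← hQP, Ideal.mem_comap] at h1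
      have h2 : ((algebraMap T[X] D (C ⟨a, haT⟩) : D) : Ω) = a := by
        rw [halg, aeval_C]; rfl
      have h3 : a ∈ D := h2 ▸ (algebraMap T[X] D (C ⟨a, haT⟩)).2
      refine ⟨h3, ?_⟩
      have h4 : (⟨a, h3⟩ : D) = algebraMap T[X] D (C ⟨a, haT⟩) := Subtype.ext h2.symm
      rw [h4]; exact h1
    · exact ⟨D.zero_mem, Q.zero_mem⟩
    · rintro x y - - ⟨hx, hx'⟩ ⟨hy, hy'⟩
      exact ⟨D.add_mem hx hy, Q.add_mem hx' hy'⟩
    · rintro d x - ⟨hx, hx'⟩
      exact ⟨D.mul_mem d.2 hx, Q.mul_mem_left d hx'⟩
  obtain ⟨h1, h2⟩ := hmem _ hf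
  have h3 : f ∈ P := by
    rw [← hQP, Ideal.mem_comap]
    have : (⟨aeval X f, h1⟩ : D) = algebraMap T[X] D f := rfl
    rw [← this]; exact h2
  rw [hP, Ideal.mem_map_C_iff] at h3
  have h4 := h3 i
  rw [IsLocalRing.mem_maximalIdeal] at h4
  exact (mem_nu_iff _).2 h4

end Pool.Agent.Helper44.SPL
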