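import Pool.Agent.Helper44.SPL.St5

/-!
# SM: smooth ascent
-/

set_option autoImplicit false

namespace Pool.Agent.Helper44.SPL

open Polynomial

universe u

namespace SMaux

theorem equiv {A B : Type u} [CommRing A] [CommRing B] (e : A ≃+* B) (h : IsSplinter A) :
    IsSplinter B := by
  obtain ⟨hN, h⟩ := h
  refine ⟨isNoetherianRing_of_ringEquiv A e, ?_⟩
  intro T _ _ hfin hsur
  letI : Algebra A T := ((algebraMap B T).comp (e : A →+* B)).toAlgebra
  have hal : ∀ a : A, algebraMap A T a = algebraMap B T (e a) := fun a => rfl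
  have hfin' : Module.Finite A T := by
    obtain ⟨s, hs⟩ := hfin
    refine ⟨s, ?_⟩
    rw [eq_top_iff]
    intro x _
    have hx : x ∈ Submodule.span B (s : Set T) := by rw [hs]; trivial
    refine Submodule.span_induction (p := fun x _ => x ∈ Submodule.span A (s : Set T))
      ?_ ?_ ?_ ?_ hx
    · intro x hx
      exact Submodule.subset_span hx
    · exact zero_mem _
    · intro x y _ _ hx hy
      exact add_mem hx hy
    · intro b x _ hx
      have : b • x = (e.symm b) • x := by
        rw [Algebra.smul_def, Algebra.smul_def, hal, e.apply_symm_apply]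
      rw [this]
      exact Submodule.smul_mem _ _ hx
  have hsur' : Function.Surjective (PrimeSpectrum.comap (algebraMap A T)) := by
    intro P
    obtain ⟨Q, hQ⟩ := hsur (PrimeSpectrum.comap (e.symm : B →+* A) P)
    refine ⟨Q, ?_⟩
    have h1 : (algebraMap A T) = (algebraMap B T).comp (e : A →+* B) := rfl
    rw [h1, PrimeSpectrum.comap_comp_apply, hQ, ← PrimeSpectrum.comap_comp_apply]
    have h2 : (e.symm : B →+* A).comp (e : A →+* B) = RingHom.id A := by
      ext a
      simp
    rw [h2]
    simp
  obtain ⟨ρ, hρ⟩ := h T hfin' hsur'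
  refine ⟨{ toFun := fun x => e (ρ x), map_add' := ?_, map_smul' := ?_ }, ?_⟩
  · intro x y
    rw [map_add, map_add]
  · intro b x
    have : b • x = (e.symm b) • x := by
      rw [Algebra.smul_def, Algebra.smul_def, hal, e.apply_symm_apply]
    rw [this, map_smul]
    simp
  · change e (ρ 1) = 1
    rw [hρ, map_one]

theorem mv (h1 : StMAIN.{u}) (R : Type u) [CommRing R] (hR : IsSplinter R) (n : ℕ) :
    IsSplinter (MvPolynomial (Fin n) R) := by
  induction n with
  | zero => exact equiv (MvPolynomial.isEmptyRingEquiv R (Fin 0)).symm hR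
  | succ n ih =>
    exact equiv (MvPolynomial.finSuccEquiv R n).toRingEquiv.symm (h1 _ ih)

end SMaux

theorem m_SM (h1 : StMAIN.{u}) (h2 : StET.{u}) (h3 : StZAR.{u}) : StSM.{u} := by
  intro R S _ _ _ hsm hR
  haveI := hR.1
  haveI : IsNoetherianRing S := Algebra.FiniteType.isNoetherianRing R S
  refine h3 S inferInstance ?_
  intro m hm
  haveI := hm.isPrime
  obtain ⟨f, hf, n, inst, _, het⟩ :=
    Algebra.IsSmoothAt.exists_isStandardEtale_mvPolynomial (R := R) (p := m)
  refine ⟨f, hf, ?_⟩
  exact h2 (MvPolynomial (Fin n) R) (Localization.Away f) inferInstance (SMaux.mv h1 R hR n)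

end Pool.Agent.Helper44.SPL
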