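import Pool.Agent.Helper44.SPL.StT

/-! # Module TA: the kernel of Fontaine's map -/

set_option autoImplicit false

namespace Pool.Agent.Helper44.SPL

universe u

/-- the value of `thN` at a Teichmüller representative -/
private theorem TA_teich {A : Type u} [CommRing A] (p : ℕ) [Fact p.Prime]
    [CharP (A ⧸ Ideal.span {(p : A)}) p] (b : Bt A p) (n : ℕ) (a : A)
    (ha : qt A p n b = Ideal.Quotient.mk _ a) :
    thN A p n (WittVector.teichmuller p b) = Ideal.Quotient.mk _ (a ^ p ^ n) := by
  have h2 : qt A p 0 ((((frobeniusEquiv (Bt A p) p).symm ^ n : Bt A p ≃+* Bt A p).toRingHom) b)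
      = Ideal.Quotient.mk _ a := by
    have h1 : (((frobeniusEquiv (Bt A p) p).symm ^ n : Bt A p ≃+* Bt A p).toRingHom) b
        = ((frobeniusEquiv (Bt A p) p).symm)^[n] b := by
      have h3 : ∀ (m : ℕ) (e : Bt A p ≃+* Bt A p) (c : Bt A p), (e ^ m) c = e^[m] c := by
        intro m e c
        induction m with
        | zero => rfl
        | succ m ih =>
          rw [pow_succ', Function.iterate_succ_apply', ← ih]
          rfl
      exact h3 n _ b
    rw [h1]
    have h4 := Perfection.coeff_iterate_symm_frobeniusEquiv b 0 n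
    rw [zero_add] at h4
    exact h4.trans ha
  unfold thN
  rw [RingHom.comp_apply, RingHom.comp_apply, WittVector.map_teichmuller,
    WittVector.map_teichmuller, h2, ← WittVector.map_teichmuller,
    WittVector.ghostComponentModPPow_map_mk, WittVector.ghostComponent_teichmuller]

/-- the maps `thN` are compatible -/
private theorem TA_compat {A : Type u} [CommRing A] (p : ℕ) [Fact p.Prime]
    [CharP (A ⧸ Ideal.span {(p : A)}) p] (n : ℕ) :
    (Ideal.Quotient.factorPowSucc (Ideal.span {(p : A)}) (n + 1)).comp (thN A p (n + 1))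
      = thN A p n := by
  apply WittVector.eq_of_apply_teichmuller_eq
  · refine ⟨n + 1, ?_⟩
    have h : ((p : ℕ) : A ⧸ (Ideal.span {(p : A)}) ^ (n + 1))
        = Ideal.Quotient.mk ((Ideal.span {(p : A)}) ^ (n + 1)) (p : A) := by
      rw [map_natCast]
    rw [h, ← map_pow, Ideal.Quotient.eq_zero_iff_mem]
    exact Ideal.pow_mem_pow (Ideal.mem_span_singleton_self _) _
  · intro b
    obtain ⟨a, ha⟩ := Ideal.Quotient.mk_surjective (qt A p (n + 1) b)
    obtain ⟨a', ha'⟩ := Ideal.Quotient.mk_surjective (qt A p n b)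
    rw [RingHom.comp_apply, TA_teich p b (n + 1) a ha.symm, TA_teich p b n a' ha'.symm]
    have h1 : qt A p (n + 1) b ^ p = qt A p n b := Perfection.coeff_pow_p b n
    have h2 : (p : A) ∣ a ^ p - a' := by
      rw [← Ideal.mem_span_singleton, ← Ideal.Quotient.eq, map_pow, ha, ha', h1]
    have h3 := dvd_sub_pow_of_dvd_sub h2 n
    rw [← pow_mul, ← pow_succ'] at h3
    change Ideal.Quotient.mk _ (a ^ p ^ (n + 1)) = Ideal.Quotient.mk _ (a' ^ p ^ n)
    rw [Ideal.Quotient.eq, Ideal.span_singleton_pow, Ideal.mem_span_singleton]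
    exact h3

private theorem TA_step {A : Type u} [CommRing A] (p : ℕ) [Fact p.Prime]
    [CharP (A ⧸ Ideal.span {(p : A)}) p] (hp : (p : A) ∈ nonZeroDivisors A)
    (w : WittVector p (Bt A p)) (hw : ∀ n, thN A p n ((p : WittVector p (Bt A p)) * w) = 0)
    (n : ℕ) : thN A p n w = 0 := by
  obtain ⟨a, ha⟩ := Ideal.Quotient.mk_surjective (thN A p (n + 1) w)
  have h1 := hw (n + 1)
  rw [map_mul, map_natCast, ← ha, ← map_natCast (Ideal.Quotient.mk _) p, ← map_mul,
    Ideal.Quotient.eq_zero_iff_mem, Ideal.span_singleton_pow, Ideal.mem_span_singleton] at h1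
  obtain ⟨c, hc⟩ := h1
  have h2 : a = (p : A) ^ (n + 1) * c := by
    have h3 : (a - (p : A) ^ (n + 1) * c) * (p : A) = 0 := by
      linear_combination hc
    exact sub_eq_zero.mp (hp.2 _ h3)
  rw [← TA_compat p n, RingHom.comp_apply, ← ha]
  change Ideal.Quotient.mk _ a = 0
  rw [Ideal.Quotient.eq_zero_iff_mem, Ideal.span_singleton_pow, Ideal.mem_span_singleton]
  exact ⟨c, h2⟩

theorem m_TA (h : StTB.{u}) : StTA.{u} := by
  intro A _ p _ _ hp ϖ hϖ hker z hz M
  have hxi : ∀ n, thN A p n ((p : WittVector p (Bt A p)) - WittVector.teichmuller p ϖ) = 0 := by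
    intro n
    rw [map_sub, map_natCast, h A p (p : A) ϖ hϖ n, map_natCast, sub_self]
  induction M generalizing z with
  | zero => exact ⟨0, z, by ring⟩
  | succ M ih =>
    obtain ⟨z', hz'⟩ := WittVector.dvd_sub_sum_teichmuller_iterateFrobeniusEquiv_coeff z 0
    have hz1 : z = WittVector.teichmuller p (z.coeff 0) + (p : WittVector p (Bt A p)) * z' := by
      have h1 : (Finset.Iic 0 : Finset ℕ) = {0} := rfl
      rw [h1, Finset.sum_singleton] at hz'
      simp only [pow_zero, mul_one, zero_add, pow_one] at hz'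
      have h2 : z - WittVector.teichmuller p (z.coeff 0) = (p : WittVector p (Bt A p)) * z' := hz'
      linear_combination h2
    have h0 : qt A p 0 (z.coeff 0) = 0 := by
      obtain ⟨a, ha⟩ := Ideal.Quotient.mk_surjective (qt A p 0 (z.coeff 0))
      obtain ⟨c, hc⟩ := Ideal.Quotient.mk_surjective (thN A p 0 z')
      have h1 := hz 0
      rw [hz1, map_add, map_mul, TA_teich p _ 0 a ha.symm, map_natCast, ← hc,
        ← map_natCast (Ideal.Quotient.mk _) p, ← map_mul, ← map_add,
        Ideal.Quotient.eq_zero_iff_mem, Ideal.span_singleton_pow, Ideal.mem_span_singleton,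
        pow_zero, pow_one, pow_one] at h1
      rw [← ha, Ideal.Quotient.eq_zero_iff_mem, Ideal.mem_span_singleton]
      exact (dvd_add_left (Dvd.intro _ rfl)).mp h1
    obtain ⟨z₁, hz₁⟩ := hker _ h0
    obtain ⟨x, y, hxy⟩ := ih (WittVector.teichmuller p z₁ + z') (by
      apply TA_step p hp
      intro n
      have h1 : (p : WittVector p (Bt A p)) * (WittVector.teichmuller p z₁ + z')
          = z + ((p : WittVector p (Bt A p)) - WittVector.teichmuller p ϖ) *
            WittVector.teichmuller p z₁ := by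
        rw [hz₁, map_mul] at hz1
        linear_combination -hz1
      rw [h1, map_add, map_mul, hz n, hxi n, zero_mul, zero_add])
    refine ⟨-WittVector.teichmuller p z₁ + p * x, y, ?_⟩
    rw [hz₁, map_mul] at hz1
    linear_combination hz1 + (p : WittVector p (Bt A p)) * hxy

end Pool.Agent.Helper44.SPL
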