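import Pool.Agent.Helper44.SPL.StT

/-!
# Module TC: the tilt of an integrally closed subring
-/

set_option autoImplicit false

namespace Pool.Agent.Helper44.SPL

open Polynomial

universe u

namespace TC

set_option linter.unusedSectionVars false

section root

variable {Ω : Type u} [Field Ω] {A : Subring Ω}

/-- roots of elements of `A` are in `A` -/
theorem root_mem (hA : IC A) {x : Ω} {N : ℕ} (hN : 0 < N) (hx : x ^ N ∈ A) : x ∈ A := by
  have h1 : IsIntegral (Subring.closure (A : Set Ω)) (x ^ N) :=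
    isIntegral_algebraMap (R := Subring.closure (A : Set Ω)) (x := ⟨x ^ N, Subring.subset_closure hx⟩)
  have h2 : x ∈ icl (A : Set Ω) := IsIntegral.of_pow hN h1
  rwa [hA] at h2

theorem exists_root [IsAlgClosed Ω] (hA : IC A) {p : ℕ} (hp : 0 < p) (a : A) : ∃ y : A, y ^ p = a := by
  obtain ⟨z, hz⟩ := IsAlgClosed.exists_pow_nat_eq (a : Ω) hp
  refine ⟨⟨z, root_mem hA hp (by rw [hz]; exact a.2)⟩, Subtype.ext ?_⟩
  rw [Subring.coe_pow]
  exact hz

theorem exists_seq [IsAlgClosed Ω] (hA : IC A) {p : ℕ} (hp : 0 < p) (a : A) :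
    ∃ x : ℕ → A, x 0 = a ∧ ∀ k, x (k + 1) ^ p = x k := by
  choose r hr using fun a : A => exists_root hA hp a
  exact ⟨fun k => Nat.rec a (fun _ y => r y) k, rfl, fun k => hr _⟩

theorem dvd_of_pow (hA : IC A) {x y : A} {N : ℕ} (hN : 0 < N) (hy : y ≠ 0) (h : y ^ N ∣ x ^ N) : y ∣ x := by
  obtain ⟨c, hc⟩ := h
  have hy' : (y : Ω) ≠ 0 := fun h0 => hy (Subtype.ext h0)
  have hc' : (x : Ω) ^ N = (y : Ω) ^ N * (c : Ω) := by
    have := congrArg (Subtype.val : A → Ω) hc
    simpa using this
  have h1 : ((x : Ω) / y) ^ N ∈ A := by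
    rw [div_pow, hc', mul_div_cancel_left₀ _ (pow_ne_zero N hy')]
    exact c.2
  refine ⟨⟨(x : Ω) / y, root_mem hA hN h1⟩, Subtype.ext ?_⟩
  rw [Subring.coe_mul]
  field_simp

end root

section seq

variable {R : Type u} [CommRing R]

theorem pow_seq {p : ℕ} {x : ℕ → R} (h : ∀ k, x (k + 1) ^ p = x k) (k : ℕ) : x k ^ p ^ k = x 0 := by
  induction k with
  | zero => rw [pow_zero, pow_one]
  | succ k ih => rw [pow_succ', pow_mul, h, ih]

end seq

section main

variable {A : Type u} [CommRing A] {p : ℕ} [Fact p.Prime] [CharP (A ⧸ Ideal.span {(p : A)}) p]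

/-- the class modulo `p` -/
theorem mk_eq {x y : A} : (Ideal.Quotient.mk (Ideal.span {(p : A)}) x = Ideal.Quotient.mk _ y) ↔ (p : A) ∣ x - y := by
  rw [Ideal.Quotient.eq, Ideal.mem_span_singleton]

theorem mk_zero {x : A} : (Ideal.Quotient.mk (Ideal.span {(p : A)}) x = 0) ↔ (p : A) ∣ x := by
  rw [Ideal.Quotient.eq_zero_iff_mem, Ideal.mem_span_singleton]

/-- an element of the tilt from a sequence in `A` -/
noncomputable def el (x : ℕ → A) (h : ∀ k, (p : A) ∣ x (k + 1) ^ p - x k) : Bt A p :=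
  ⟨fun k => Ideal.Quotient.mk _ (x k), fun k => by
    rw [← map_pow]
    exact mk_eq.2 (h k)⟩

theorem qt_el (x : ℕ → A) (h : ∀ k, (p : A) ∣ x (k + 1) ^ p - x k) (k : ℕ) :
    qt A p k (el x h) = Ideal.Quotient.mk _ (x k) := rfl

theorem qt_pow (b : Bt A p) (k : ℕ) : (qt A p (k + 1) b) ^ p = qt A p k b := Perfection.coeff_pow_p' b k

theorem qt_pow_pow (b : Bt A p) (k : ℕ) : (qt A p k b) ^ p ^ k = qt A p 0 b :=
  pow_seq (x := fun k => qt A p k b) (fun k => qt_pow b k) k

theorem ext_qt {b b' : Bt A p} (h : ∀ k, qt A p k b = qt A p k b') : b = b' := Perfection.ext h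

theorem pow_congr {x y π : A} (hπ : (p : A) ∣ π ^ p) (h : π ∣ x - y) : (p : A) ∣ x ^ p - y ^ p := by
  obtain ⟨z, hz⟩ := h
  have h1 : x = y + π * z := by rw [← hz]; ring
  rw [← mk_eq (p := p), h1, map_pow, map_add, map_mul, add_pow_char, mul_pow, ← map_pow _ π, mk_zero.2 hπ, zero_mul,
    add_zero, map_pow]

end main

end TC

open TC in
/-- TC -/
theorem m_TC : StTC.{u} := by
  intro Ω _ _ _ p hpf A hA hchar
  have hp : p.Prime := hpf.out
  have hp0 : 0 < p := hp.pos
  have hpA : (p : A) ≠ 0 := by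
    intro h
    have h1 := congrArg (Subtype.val : A → Ω) h
    simp only [Subring.coe_natCast, ZeroMemClass.coe_zero, Nat.cast_eq_zero] at h1
    omega
  refine ⟨?_, ?_, ?_, ?_⟩
  · intro a
    obtain ⟨x, hx0, hx⟩ := exists_seq hA hp0 a
    exact ⟨el x fun k => by rw [hx k, sub_self]; exact dvd_zero _, x, hx0, hx, fun k => rfl⟩
  · rintro a b b' ⟨x, hx0, hx, hxb⟩ ⟨x', hx0', hx', hxb'⟩
    by_cases ha : a = 0
    · have h1 : ∀ k, x k = 0 := fun k => by
        have h2 := pow_seq hx k
        rw [hx0, ha] at h2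
        exact (pow_eq_zero_iff (pow_pos hp0 k).ne').1 h2
      have h1' : ∀ k, x' k = 0 := fun k => by
        have h2 := pow_seq hx' k
        rw [hx0', ha] at h2
        exact (pow_eq_zero_iff (pow_pos hp0 k).ne').1 h2
      refine ⟨1, ?_, ?_⟩
      · rw [Units.val_one, map_one]
      · rw [Units.val_one, one_mul]
        exact ext_qt fun k => by rw [hxb, hxb', h1, h1']
    · have hxk : ∀ k, x k ≠ 0 := fun k h => ha (by rw [← hx0, ← pow_seq hx k, h, zero_pow (pow_pos hp0 k).ne'])
      have hxk' : ∀ k, x' k ≠ 0 := fun k h => ha (by rw [← hx0', ← pow_seq hx' k, h, zero_pow (pow_pos hp0 k).ne'])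
      have hd : ∀ k, ∃ e, x' k = x k * e := fun k =>
        dvd_of_pow hA (pow_pos hp0 k) (hxk k) (by rw [pow_seq hx, pow_seq hx', hx0, hx0'])
      have hd' : ∀ k, ∃ e, x k = x' k * e := fun k =>
        dvd_of_pow hA (pow_pos hp0 k) (hxk' k) (by rw [pow_seq hx, pow_seq hx', hx0, hx0'])
      choose e he using hd
      choose d hd using hd'
      have he1 : ∀ k, e (k + 1) ^ p = e k := by
        intro k
        apply mul_left_cancel₀ (hxk k)
        rw [← he k, ← hx' k, he (k + 1), mul_pow, hx k]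
      have hd1 : ∀ k, d (k + 1) ^ p = d k := by
        intro k
        apply mul_left_cancel₀ (hxk' k)
        rw [← hd k, ← hx k, hd (k + 1), mul_pow, hx' k]
      have hed : ∀ k, e k * d k = 1 := by
        intro k
        apply mul_left_cancel₀ (hxk k)
        rw [← mul_assoc, ← he k, ← hd k, mul_one]
      have he0 : e 0 = 1 := by
        apply mul_left_cancel₀ (hxk 0)
        rw [← he 0, hx0, hx0', mul_one]
      let E : Bt A p := el e fun k => by rw [he1 k, sub_self]; exact dvd_zero _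
      let D : Bt A p := el d fun k => by rw [hd1 k, sub_self]; exact dvd_zero _
      have hED : E * D = 1 := ext_qt fun k => by
        rw [map_mul, map_one, qt_el, qt_el, ← map_mul, hed, map_one]
      refine ⟨⟨E, D, hED, by rw [mul_comm]; exact hED⟩, ?_, ?_⟩
      · show qt A p 0 E = 1
        rw [qt_el, he0, map_one]
      · show b' = E * b
        refine ext_qt fun k => ?_
        rw [map_mul, qt_el, hxb', hxb, ← map_mul, he k, mul_comm]
  · rintro a a' b b' ⟨x, hx0, hx, hxb⟩ ⟨x', hx0', hx', hxb'⟩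
    refine ⟨fun k => x k * x' k, ?_, fun k => ?_, fun k => ?_⟩
    · show x 0 * x' 0 = a * a'
      rw [hx0, hx0']
    · show (x (k + 1) * x' (k + 1)) ^ p = x k * x' k
      rw [mul_pow, hx, hx']
    · rw [map_mul, hxb, hxb', ← map_mul]
  · rintro ϖ ⟨P, hP0, hP, hPϖ⟩
    have hPk : ∀ k, P k ≠ 0 := fun k h => hpA (by rw [← hP0, ← pow_seq hP k, h, zero_pow (pow_pos hp0 k).ne'])
    have hQ : ∀ k, ∃ Q, (p : A) = P k * Q := fun k => by
      refine ⟨P k ^ (p ^ k - 1), ?_⟩
      rw [← pow_succ', Nat.sub_add_cancel (pow_pos hp0 k), pow_seq hP, hP0]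
    choose Q hQ using hQ
    have hQp : ∀ k, (p : A) ∣ Q (k + 1) ^ p := by
      intro k
      have h1 : Q (k + 1) ^ p = (p : A) ^ (p - 1) * Q k := by
        apply mul_left_cancel₀ (hPk k)
        calc P k * Q (k + 1) ^ p = (P (k + 1) * Q (k + 1)) ^ p := by rw [mul_pow, hP k]
          _ = (p : A) ^ p := by rw [← hQ (k + 1)]
          _ = (p : A) ^ (p - 1) * (p : A) := by rw [← pow_succ, Nat.sub_add_cancel hp0]
          _ = (p : A) ^ (p - 1) * (P k * Q k) := by rw [← hQ k]
          _ = P k * ((p : A) ^ (p - 1) * Q k) := by ring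
      rw [h1]
      have h2 : p - 1 ≠ 0 := by
        have := hp.two_le
        omega
      exact (dvd_pow_self _ h2).mul_right _
    constructor
    · have hz : ∀ b : Bt A p, b * ϖ = 0 → b = 0 := by
        intro b hb
        have h1 : ∀ k, ∃ c, qt A p k b = Ideal.Quotient.mk _ (Q k * c) := by
          intro k
          obtain ⟨y, hy⟩ := Ideal.Quotient.mk_surjective (qt A p k b)
          have h2 := congrArg (qt A p k) hb
          rw [map_mul, map_zero, hPϖ, ← hy, ← map_mul, mk_zero] at h2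
          obtain ⟨c, hc⟩ := h2
          refine ⟨c, ?_⟩
          rw [← hy]
          congr 1
          apply mul_left_cancel₀ (hPk k)
          rw [mul_comm (P k) y, hc]
          conv_lhs => rw [hQ k]
          ring
        refine ext_qt fun k => ?_
        obtain ⟨c, hc⟩ := h1 (k + 1)
        rw [map_zero, ← qt_pow, hc, ← map_pow, mk_zero, mul_pow]
        exact (hQp k).mul_right _
      rw [mem_nonZeroDivisors_iff_right]
      exact hz
    · intro b hb
      have hlift : ∀ k, ∃ y, Ideal.Quotient.mk _ y = qt A p k b := fun k => Ideal.Quotient.mk_surjective _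
      choose y hy using hlift
      have hc : ∀ k, ∃ c, y k = P k * c := by
        intro k
        refine dvd_of_pow hA (pow_pos hp0 k) (hPk k) ?_
        rw [pow_seq hP, hP0]
        apply mk_zero.1
        rw [map_pow, hy, qt_pow_pow, hb]
      choose c hc using hc
      have hcc : ∀ k, Q k ∣ c (k + 1) ^ p - c k := by
        intro k
        have h1 : (p : A) ∣ y (k + 1) ^ p - y k := by
          apply mk_eq.1
          rw [map_pow, hy, hy, qt_pow]
        obtain ⟨d, hd⟩ := h1
        refine ⟨d, ?_⟩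
        apply mul_left_cancel₀ (hPk k)
        rw [← mul_assoc, ← hQ k, ← hd, hc (k + 1), hc k, mul_pow, hP k]
        ring
      let C : Bt A p := el (fun k => c (k + 1) ^ p) fun k => pow_congr (hQp k) (hcc (k + 1))
      refine ⟨C, ext_qt fun k => ?_⟩
      rw [map_mul, hPϖ, qt_el, ← map_mul, ← hP k, ← mul_pow, ← hc (k + 1), map_pow, hy, qt_pow]

end Pool.Agent.Helper44.SPL
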