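import Pool.Agent.Helper44.SPL.StT
import Pool.Agent.Helper44.SPL.Bas

/-!
# TD: from a seminorm of the tilt to a seminorm of `A`
-/

set_option autoImplicit false

namespace Pool.Agent.Helper44.SPL

open Polynomial

universe u

open scoped NNReal

/-- the valuation given by a seminorm -/
noncomputable def TDval {B : Type u} [CommRing B] {ϖ : B} {w : B → ℝ} (h : IsMs ϖ w) :
    Valuation B ℝ≥0 where
  toFun b := ⟨w b, h.nonneg b⟩
  map_zero' := NNReal.eq h.zero
  map_one' := NNReal.eq h.one
  map_mul' a b := NNReal.eq (h.mul a b)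
  map_add_le_max' a b := by
    rcases le_max_iff.1 (h.add a b) with h1 | h1
    · exact le_max_iff.2 (Or.inl h1)
    · exact le_max_iff.2 (Or.inr h1)

theorem TDval_apply {B : Type u} [CommRing B] {ϖ : B} {w : B → ℝ} (h : IsMs ϖ w) (b : B) :
    (TDval h b : ℝ) = w b := rfl

/-- the unit ball of the fraction field of `B / ker w` -/
theorem TD_ball (p : ℕ) [hp : Fact p.Prime] (B : Type u) [CommRing B] [CharP B p]
    [PerfectRing B p] (ϖ : B) (w : B → ℝ) (h : IsMs ϖ w) :
    ∃ (O : Type u) (_ : CommRing O) (_ : IsDomain O) (_ : CharP O p) (_ : PerfectRing O p)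
      (f : B →+* O) (v : O → ℝ), IsMs (f ϖ) v ∧ (∀ x y : O, v x ≤ v y → y ∣ x) ∧
        ∀ b, v (f b) = w b := by
  classical
  set W : Valuation B ℝ≥0 := TDval h with hW
  set Q := B ⧸ W.supp with hQ
  have hprime : W.supp.IsPrime := inferInstance
  have hdom : IsDomain Q := Ideal.Quotient.isDomain _
  set WQ : Valuation Q ℝ≥0 := W.onQuot le_rfl with hWQ
  have hsupp : WQ.supp = ⊥ := W.supp_quot_supp
  let K := FractionRing Q
  have hS : nonZeroDivisors Q ≤ WQ.supp.primeCompl := by
    intro x hx hx'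
    have hx1 : x ∈ WQ.supp := hx'
    rw [hsupp, Ideal.mem_bot] at hx1
    exact nonZeroDivisors.ne_zero hx hx1
  let WK : Valuation K ℝ≥0 := WQ.extendToLocalization hS K
  have hWK : ∀ b : B, WK (algebraMap Q K (Ideal.Quotient.mk _ b)) = W b := by
    intro b
    exact Valuation.extendToLocalization_apply_map_apply _ _ _ _
  let O := WK.integer
  have hpK : (p : K) = 0 := by
    have h1 : (algebraMap Q K (Ideal.Quotient.mk _ (p : B))) = 0 := by
      rw [CharP.cast_eq_zero, map_zero, map_zero]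
    rwa [map_natCast, map_natCast] at h1
  have hchK : CharP K p := (CharP.charP_iff_prime_eq_zero hp.out).2 hpK
  have hchO : CharP O p := by
    refine (CharP.charP_iff_prime_eq_zero hp.out).2 ?_
    apply Subtype.ext
    exact hpK
  have hpow : ∀ (x y : K), y ^ p = x → x ∈ WK.integer → y ∈ WK.integer := by
    intro x y hxy hx
    rw [Valuation.mem_integer_iff] at hx ⊢
    rw [← hxy, map_pow] at hx
    exact (pow_le_one_iff hp.out.ne_zero).1 hx
  have hperf : PerfectRing O p := by
    refine PerfectRing.ofSurjective O p fun x => ?_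
    obtain ⟨a, b, hb, hab⟩ := IsFractionRing.div_surjective (A := Q) (x : K)
    obtain ⟨a, rfl⟩ := Ideal.Quotient.mk_surjective a
    obtain ⟨b, rfl⟩ := Ideal.Quotient.mk_surjective b
    obtain ⟨a', rfl⟩ := (PerfectRing.bijective_frobenius (R := B) (p := p)).2 a
    obtain ⟨b', rfl⟩ := (PerfectRing.bijective_frobenius (R := B) (p := p)).2 b
    have hy : (algebraMap Q K (Ideal.Quotient.mk _ a') /
        algebraMap Q K (Ideal.Quotient.mk _ b')) ^ p = (x : K) := by
      rw [← hab, div_pow, ← map_pow, ← map_pow, ← map_pow, ← map_pow]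
    refine ⟨⟨_, hpow _ _ hy x.2⟩, Subtype.ext ?_⟩
    exact hy
  let f₀ : B →+* K := (algebraMap Q K).comp (Ideal.Quotient.mk _)
  have hf₀ : ∀ b, f₀ b ∈ WK.integer := by
    intro b
    rw [Valuation.mem_integer_iff]
    have h1 : WK (f₀ b) = W b := hWK b
    rw [h1, ← NNReal.coe_le_coe]
    exact h.le_one b
  let f : B →+* O := f₀.codRestrict WK.integer hf₀
  have hv : ∀ b, (WK (f b : K) : ℝ) = w b := by
    intro b
    have h1 : WK (f₀ b) = W b := hWK b
    have h2 : (f b : K) = f₀ b := rfl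
    rw [h2, h1]
    rfl
  refine ⟨O, inferInstance, inferInstance, hchO, hperf, f, fun x => (WK (x : K) : ℝ),
    ⟨fun a => NNReal.coe_nonneg _, ?_, ?_, ?_, ?_, ?_, ?_⟩, ?_, hv⟩
  · simp
  · simp
  · intro a b
    simp
  · intro a b
    have h1 := WK.map_add (a : K) (b : K)
    rw [← NNReal.coe_le_coe, NNReal.coe_max] at h1
    exact h1
  · intro a
    have h1 : WK (a : K) ≤ 1 := a.2
    exact_mod_cast h1
  · rw [hv, h.pi]
  · intro x y hxy
    have hxy : (WK (x : K) : ℝ) ≤ (WK (y : K) : ℝ) := hxy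
    rw [NNReal.coe_le_coe] at hxy
    by_cases hy : (y : K) = 0
    · have h1 : WK (x : K) = 0 := by
        rw [hy, map_zero] at hxy
        exact le_antisymm hxy zero_le
      have h2 : (x : K) = 0 := (WK.zero_iff).1 h1
      have h3 : x = 0 := Subtype.ext h2
      rw [h3]
      exact dvd_zero y
    · have hy' : WK (y : K) ≠ 0 := WK.ne_zero_iff.2 hy
      have h1 : (x : K) / (y : K) ∈ WK.integer := by
        rw [Valuation.mem_integer_iff, map_div₀]
        exact div_le_one_of_le₀ hxy zero_le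
      refine ⟨⟨_, h1⟩, Subtype.ext ?_⟩
      change (x : K) = (y : K) * ((x : K) / (y : K))
      rw [mul_div_cancel₀ _ hy]

theorem m_TD (h1 : StTA.{u}) (h2 : StTB.{u}) (h3 : StTC.{u}) (h4 : StLG.{u}) : StTD.{u} := by
  intro Ω _ _ _ p hp A hA _ ϖ hϖ w hw a a' b b' c hb hb' hc
  obtain ⟨-, -, -, h5⟩ := h3 Ω p A hA
  obtain ⟨-, hker⟩ := h5 ϖ hϖ
  have hpA : (p : A) ∈ nonZeroDivisors A := by
    refine mem_nonZeroDivisors_of_ne_zero ?_
    intro h6
    have h7 : ((p : A) : Ω) = 0 := by rw [h6]; rfl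
    have h8 : (p : Ω) = 0 := by simpa using h7
    exact hp.out.ne_zero (by exact_mod_cast h8)
  set z : WittVector p (Bt A p) := WittVector.teichmuller p c - WittVector.teichmuller p b -
    WittVector.teichmuller p b' with hz
  have hz0 : ∀ n, thN A p n z = 0 := by
    intro n
    rw [hz, map_sub, map_sub, h2 A p (a + a') c hc n, h2 A p a b hb n, h2 A p a' b' hb' n,
      map_add]
    ring
  have hM := h1 A p hpA ϖ hϖ hker z hz0
  obtain ⟨O, _, _, _, _, f, v, hv, hdiv, hf⟩ := TD_ball p (Bt A p) ϖ w hw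
  have h6 := h4 p O (f ϖ) v hv hdiv (f b) (f b') (f c) ?_
  · rwa [hf, hf, hf] at h6
  intro M
  obtain ⟨x, y, hxy⟩ := hM M
  refine ⟨WittVector.map f x, WittVector.map f y, ?_⟩
  have h7 := congrArg (WittVector.map f) hxy
  rw [hz] at h7
  simp only [map_sub, map_add, map_mul, map_pow, map_natCast, WittVector.map_teichmuller] at h7
  exact h7

end Pool.Agent.Helper44.SPL
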