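import Pool.Agent.Helper44.SPL.StT

/-!
# SPL, module TE: from a seminorm of `A` to a seminorm of the tilt
-/

set_option autoImplicit false

namespace Pool.Agent.Helper44.SPL

open Polynomial

universe u

private theorem te_max_pow {a b : ℝ} (ha : 0 ≤ a) (hb : 0 ≤ b) (n : ℕ) :
    (max a b) ^ n = max (a ^ n) (b ^ n) := by
  rcases le_total a b with h | h
  · rw [max_eq_right h, max_eq_right (pow_le_pow_left₀ ha h n)]
  · rw [max_eq_left h, max_eq_left (pow_le_pow_left₀ hb h n)]

private theorem te_close {x y e : ℝ} (hx : 0 ≤ x) (hy : 0 ≤ y) (he : 0 ≤ e)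
    (h : max x e = max y e) : |x - y| ≤ e := by
  rw [abs_le]
  rcases le_total x e with h1 | h1
  · rw [max_eq_right h1] at h
    have h2 : y ≤ e := by rw [h]; exact le_max_left _ _
    constructor <;> linarith
  · rw [max_eq_left h1] at h
    rcases le_total y e with h2 | h2
    · rw [max_eq_right h2] at h
      constructor <;> linarith
    · rw [max_eq_left h2] at h
      constructor <;> linarith

theorem m_TE : StTE.{u} := by
  intro A _ p _ _ ϖ hϖ v hv
  have hp : p.Prime := Fact.out
  have hp1 : 1 ≤ p := hp.one_lt.le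
  set I : Ideal A := Ideal.span {(p : A)} with hI
  -- powers
  have hvpow : ∀ (a : A) (n : ℕ), v (a ^ n) = v a ^ n := by
    intro a n
    induction n with
    | zero => rw [pow_zero, pow_zero, hv.one]
    | succ n ih => rw [pow_succ, pow_succ, hv.mul, ih]
  -- truncated values only depend on the class modulo `p`
  have htr : ∀ a a' : A, Ideal.Quotient.mk I a = Ideal.Quotient.mk I a' →
      max (v a) (1 / 2) = max (v a') (1 / 2) := by
    have h1 : ∀ a a' : A, Ideal.Quotient.mk I a = Ideal.Quotient.mk I a' →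
        max (v a) (1 / 2) ≤ max (v a') (1 / 2) := by
      intro a a' h
      rw [Ideal.Quotient.eq, hI, Ideal.mem_span_singleton] at h
      obtain ⟨c, hc⟩ := h
      have h2 : a = a' + p * c := by rw [← hc]; ring
      refine max_le ?_ (le_max_right _ _)
      rw [h2]
      refine (hv.add _ _).trans (max_le_max le_rfl ?_)
      rw [hv.mul, hv.pi]
      have := hv.le_one c
      linarith
    exact fun a a' h => le_antisymm (h1 a a' h) (h1 a' a h.symm)
  -- lifts
  have hlift : ∀ (b : Bt A p) (k : ℕ), ∃ a : A, Ideal.Quotient.mk I a = qt A p k b := fun b k =>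
    Ideal.Quotient.mk_surjective _
  choose l hl using hlift
  set e : ℕ → ℝ := fun k => (1 / 2) ^ p ^ k with he
  have he0 : ∀ k, 0 < e k := fun k => by positivity
  have hanti : ∀ j k, k ≤ j → e j ≤ e k := fun j k hjk =>
    pow_le_pow_of_le_one (by norm_num) (by norm_num) (Nat.pow_le_pow_right hp1 hjk)
  have hlim : Filter.Tendsto e Filter.atTop (nhds 0) :=
    (tendsto_pow_atTop_nhds_zero_of_lt_one (by norm_num) (by norm_num)).comp
      (tendsto_pow_atTop_atTop_of_one_lt hp.one_lt)
  set t : Bt A p → ℕ → ℝ := fun b k => (max (v (l b k)) (1 / 2)) ^ p ^ k with ht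
  have ht1 : ∀ b k, t b k = max (v (l b k) ^ p ^ k) (e k) := fun b k =>
    te_max_pow (hv.nonneg _) (by norm_num) _
  have ht2 : ∀ b k (a : A), Ideal.Quotient.mk I a = qt A p k b →
      max (v a ^ p ^ k) (e k) = t b k := by
    intro b k a ha
    rw [ht, he]
    dsimp only
    rw [← te_max_pow (hv.nonneg _) (by norm_num), htr a (l b k) (ha.trans (hl b k).symm)]
  have hstep : ∀ b k, t b k = max (t b (k + 1)) (e k) := by
    intro b k
    have h1 : Ideal.Quotient.mk I ((l b (k + 1)) ^ p) = qt A p k b := by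
      rw [map_pow, hl]
      exact Perfection.coeff_pow_p' b k
    rw [← ht2 b k _ h1, ht1 b (k + 1), hvpow, ← pow_mul, ← pow_succ', max_assoc,
      max_eq_right (hanti (k + 1) k (Nat.le_succ k))]
  have hjk : ∀ b k j, t b k = max (t b (k + j)) (e k) := by
    intro b k j
    induction j with
    | zero =>
      rw [add_zero]
      refine (max_eq_left ?_).symm
      rw [ht1]
      exact le_max_right _ _
    | succ j ih =>
      rw [ih, hstep b (k + j), max_assoc, max_eq_right (hanti (k + j) k (Nat.le_add_right k j)),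
        ← add_assoc]
  have hex : ∀ b, ∃ w : ℝ, 0 ≤ w ∧ ∀ k, t b k = max w (e k) := by
    intro b
    have hant : Antitone (t b) := antitone_nat_of_succ_le fun k => by
      rw [hstep b k]
      exact le_max_left _ _
    have ht0 : ∀ k, 0 ≤ t b k := fun k => by
      rw [ht1]
      exact (he0 k).le.trans (le_max_right _ _)
    have hbdd : BddBelow (Set.range (t b)) := ⟨0, by
      rintro _ ⟨k, rfl⟩
      exact ht0 k⟩
    have hconv := tendsto_atTop_ciInf hant hbdd
    refine ⟨⨅ k, t b k, le_ciInf ht0, fun k => ?_⟩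
    have h1 : Filter.Tendsto (fun j => max (t b (k + j)) (e k)) Filter.atTop
        (nhds (max (⨅ k, t b k) (e k))) := by
      refine Filter.Tendsto.max ?_ tendsto_const_nhds
      have h2 := (Filter.tendsto_add_atTop_iff_nat k).2 hconv
      refine h2.congr fun j => ?_
      rw [add_comm]
    have h3 : Filter.Tendsto (fun j => max (t b (k + j)) (e k)) Filter.atTop (nhds (t b k)) := by
      refine tendsto_const_nhds.congr fun j => ?_
      exact hjk b k j
    exact tendsto_nhds_unique h3 h1
  choose w hw0 hw using hex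
  -- the key estimate
  have hK : ∀ b k (a : A), Ideal.Quotient.mk I a = qt A p k b → |v a ^ p ^ k - w b| ≤ e k := by
    intro b k a ha
    refine te_close (pow_nonneg (hv.nonneg _) _) (hw0 b) (he0 k).le ?_
    rw [ht2 b k a ha, hw b k]
  -- comparison of limits
  have hle : ∀ x y C : ℝ, (∀ k, x ≤ y + C * e k) → x ≤ y := by
    intro x y C h
    have h1 : Filter.Tendsto (fun k => y + C * e k) Filter.atTop (nhds (y + C * 0)) :=
      tendsto_const_nhds.add (hlim.const_mul C)
    rw [mul_zero, add_zero] at h1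
    exact ge_of_tendsto' h1 h
  have heq : ∀ x y C : ℝ, (∀ k, |x - y| ≤ C * e k) → x = y := by
    intro x y C h
    refine le_antisymm (hle x y C fun k => ?_) (hle y x C fun k => ?_)
    · have := (abs_le.1 (h k)).2
      linarith
    · have := (abs_le.1 (h k)).1
      linarith
  have hfl : ∀ (a : A) (b : Bt A p), IsFl a b → w b = v a := by
    rintro a b ⟨x, hx0, hx1, hx2⟩
    refine heq _ _ 1 fun k => ?_
    have h1 : ∀ k, x k ^ p ^ k = a := by
      intro k
      induction k with
      | zero => rw [pow_zero, pow_one, hx0]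
      | succ k ih => rw [pow_succ', pow_mul, hx1, ih]
    have h2 := hK b k (x k) (hx2 k).symm
    rw [← hvpow, h1, abs_sub_comm] at h2
    rw [one_mul]
    exact h2
  have hw1 : ∀ b, w b ≤ 1 := by
    intro b
    refine hle _ _ 1 fun k => ?_
    have h1 := (abs_le.1 (hK b k _ (hl b k))).1
    have h2 : v (l b k) ^ p ^ k ≤ 1 := pow_le_one₀ (hv.nonneg _) (hv.le_one _)
    linarith
  refine ⟨w, ⟨hw0, ?_, ?_, ?_, ?_, hw1, ?_⟩, hfl⟩
  · refine heq _ _ 1 fun k => ?_
    have h1 := hK 0 k 0 (by rw [map_zero, map_zero])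
    have h2 : p ^ k ≠ 0 := pow_ne_zero _ hp.ne_zero
    rw [hv.zero, zero_pow h2, abs_sub_comm] at h1
    rw [one_mul]
    exact h1
  · refine heq _ _ 1 fun k => ?_
    have h1 := hK 1 k 1 (by rw [map_one, map_one])
    rw [hv.one, one_pow, abs_sub_comm] at h1
    rw [one_mul]
    exact h1
  · intro b c
    refine heq _ _ 3 fun k => ?_
    have h1 := hK (b * c) k (l b k * l c k) (by rw [map_mul, map_mul, hl, hl])
    have h2 := hK b k _ (hl b k)
    have h3 := hK c k _ (hl c k)
    rw [hv.mul, mul_pow] at h1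
    set β := v (l b k) ^ p ^ k with hβ
    set γ := v (l c k) ^ p ^ k with hγ
    have hβ0 : 0 ≤ β := pow_nonneg (hv.nonneg _) _
    have hβ1 : β ≤ 1 := pow_le_one₀ (hv.nonneg _) (hv.le_one _)
    have h4 : |β * γ - w b * w c| ≤ 2 * e k := by
      have e1 : β * γ - w b * w c = β * (γ - w c) + (β - w b) * w c := by ring
      rw [e1]
      refine (abs_add_le _ _).trans ?_
      rw [abs_mul, abs_mul, abs_of_nonneg hβ0, abs_of_nonneg (hw0 c)]
      have h5 := mul_le_mul hβ1 h3 (abs_nonneg _) zero_le_one
      have h6 := mul_le_mul h2 (hw1 c) (hw0 c) (he0 k).le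
      linarith
    have e2 : w (b * c) - w b * w c = -(β * γ - w (b * c)) + (β * γ - w b * w c) := by ring
    rw [e2]
    refine (abs_add_le _ _).trans ?_
    rw [abs_neg]
    linarith
  · intro b c
    refine hle _ _ 2 fun k => ?_
    have h1 := (abs_le.1 (hK (b + c) k (l b k + l c k) (by rw [map_add, map_add, hl, hl]))).1
    have h2 := (abs_le.1 (hK b k _ (hl b k))).2
    have h3 := (abs_le.1 (hK c k _ (hl c k))).2
    have h4 : v (l b k + l c k) ^ p ^ k ≤ max (v (l b k) ^ p ^ k) (v (l c k) ^ p ^ k) := by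
      rw [← te_max_pow (hv.nonneg _) (hv.nonneg _)]
      exact pow_le_pow_left₀ (hv.nonneg _) (hv.add _ _) _
    have h5 : max (v (l b k) ^ p ^ k) (v (l c k) ^ p ^ k) ≤ max (w b) (w c) + e k := by
      refine max_le ?_ ?_
      · have := le_max_left (w b) (w c)
        linarith
      · have := le_max_right (w b) (w c)
        linarith
    linarith
  · rw [hfl _ _ hϖ, hv.pi]

end Pool.Agent.Helper44.SPL
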