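import Pool.Agent.Helper44.SPL.St

/-! Module THR of project SPL: thresholds generate the topology of the space of seminorms. -/

set_option autoImplicit false

namespace Pool.Agent.Helper44.SPL

universe u

private theorem THR_pow {A : Type u} [CommRing A] {ϖ : A} {v : A → ℝ} (hv : IsMs ϖ v) (b : A)
    (n : ℕ) : v (b ^ n) = v b ^ n := by
  induction n with
  | zero => simp [hv.one]
  | succ n ih => rw [pow_succ, hv.mul, ih, pow_succ]

private theorem THR_num (a c : ℝ) (ha : 0 < a) (ha1 : a < 1) (hac : a < c) :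
    ∃ n m : ℕ, 0 < n ∧ a ^ n < (1 / 2 : ℝ) ^ m ∧ (1 / 2 : ℝ) ^ m < c ^ n := by
  have hc : 0 < c := ha.trans hac
  have hL : 0 < Real.log 2 := Real.log_pos (by norm_num)
  have h1 : max 0 (-Real.log c / Real.log 2) < -Real.log a / Real.log 2 := by
    apply max_lt
    · exact div_pos (by have := Real.log_neg ha ha1; linarith) hL
    · have := Real.log_lt_log ha hac
      exact div_lt_div_of_pos_right (by linarith) hL
  obtain ⟨q, hq1, hq2⟩ := exists_rat_btwn h1
  have hq0 : (0 : ℝ) < q := (le_max_left _ _).trans_lt hq1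
  have hqc : -Real.log c / Real.log 2 < q := (le_max_right _ _).trans_lt hq1
  have hq0' : 0 < q := by exact_mod_cast hq0
  have hnum : 0 < q.num := Rat.num_pos.2 hq0'
  obtain ⟨m, hm⟩ := Int.eq_ofNat_of_zero_le hnum.le
  have hden : (0 : ℝ) < q.den := by exact_mod_cast q.den_pos
  have hqe : (q : ℝ) = m / q.den := by
    rw [Rat.cast_def, hm]
    simp
  have hlog : Real.log ((1 / 2 : ℝ) ^ m) = -(m * Real.log 2) := by
    rw [Real.log_pow, one_div, Real.log_inv]
    ring
  refine ⟨q.den, m, q.den_pos, ?_, ?_⟩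
  · rw [← Real.log_lt_log_iff (by positivity) (by positivity), hlog, Real.log_pow]
    rw [hqe, div_lt_div_iff₀ hden hL] at hq2
    linarith
  · rw [← Real.log_lt_log_iff (by positivity) (by positivity), hlog, Real.log_pow]
    rw [hqe, div_lt_div_iff₀ hL hden] at hqc
    linarith

/-- the threshold property, with lists. -/
private def THR_P {B : Type u} [CommRing B] (ϖ : B) (v₀ : B → ℝ) (U : Set (B → ℝ)) : Prop :=
  ∃ l : List (B × ℕ × Bool),
    (∀ t ∈ l, if t.2.2 then v₀ t.1 < (1 / 2 : ℝ) ^ t.2.1 else (1 / 2 : ℝ) ^ t.2.1 < v₀ t.1) ∧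
    ∀ v, IsMs ϖ v →
      (∀ t ∈ l, if t.2.2 then v t.1 ≤ (1 / 2 : ℝ) ^ t.2.1 else (1 / 2 : ℝ) ^ t.2.1 ≤ v t.1) → v ∈ U

private theorem THR_triv {B : Type u} [CommRing B] (ϖ : B) (v₀ : B → ℝ) (U : Set (B → ℝ))
    (h : ∀ v, IsMs ϖ v → v ∈ U) : THR_P ϖ v₀ U :=
  ⟨[], by simp, fun v hv _ => h v hv⟩

private theorem THR_inter {B : Type u} [CommRing B] {ϖ : B} {v₀ : B → ℝ} {U V : Set (B → ℝ)}
    (hU : THR_P ϖ v₀ U) (hV : THR_P ϖ v₀ V) : THR_P ϖ v₀ (U ∩ V) := by
  obtain ⟨l, h1, h2⟩ := hU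
  obtain ⟨l', h1', h2'⟩ := hV
  refine ⟨l ++ l', fun t ht => ?_, fun v hv h => ⟨h2 v hv fun t ht => h t ?_, h2' v hv fun t ht => h t ?_⟩⟩
  · rcases List.mem_append.1 ht with ht | ht
    · exact h1 t ht
    · exact h1' t ht
  · exact List.mem_append.2 (Or.inl ht)
  · exact List.mem_append.2 (Or.inr ht)

private theorem THR_mono {B : Type u} [CommRing B] {ϖ : B} {v₀ : B → ℝ} {U V : Set (B → ℝ)}
    (hU : THR_P ϖ v₀ U) (h : U ⊆ V) : THR_P ϖ v₀ V := by
  obtain ⟨l, h1, h2⟩ := hU
  exact ⟨l, h1, fun v hv hl => h (h2 v hv hl)⟩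

private theorem THR_lo {B : Type u} [CommRing B] {ϖ : B} {v₀ : B → ℝ} (h₀ : IsMs ϖ v₀) (b : B)
    (α : ℝ) (hα : α < v₀ b) : THR_P ϖ v₀ {v | α < v b} := by
  rcases lt_or_ge α 0 with h | h
  · exact THR_triv ϖ v₀ _ fun v hv => h.trans_le (hv.nonneg b)
  · have hb : 0 < v₀ b := h.trans_lt hα
    have ha : 0 < max α (v₀ b / 2) := (half_pos hb).trans_le (le_max_right _ _)
    have hac : max α (v₀ b / 2) < v₀ b := max_lt hα (half_lt_self hb)
    obtain ⟨n, m, hn, h1, h2⟩ := THR_num _ _ ha (hac.trans_le (h₀.le_one b)) hac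
    refine ⟨[(b ^ n, m, false)], fun t ht => ?_, fun v hv hl => ?_⟩
    · rw [List.mem_singleton] at ht
      subst ht
      simp only [Bool.false_eq_true, if_false]
      rw [THR_pow h₀]
      exact h2
    · have h3 := hl _ (List.mem_singleton.2 rfl)
      simp only [Bool.false_eq_true, if_false] at h3
      rw [THR_pow hv] at h3
      have h4 := lt_of_pow_lt_pow_left₀ n (hv.nonneg b) (h1.trans_le h3)
      exact (le_max_left _ _).trans_lt h4

private theorem THR_hi {B : Type u} [CommRing B] {ϖ : B} {v₀ : B → ℝ} (h₀ : IsMs ϖ v₀) (b : B)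
    (β : ℝ) (hβ : v₀ b < β) : THR_P ϖ v₀ {v | v b < β} := by
  have hβ0 : 0 < β := (h₀.nonneg b).trans_lt hβ
  rcases eq_or_lt_of_le (h₀.le_one b) with h | h
  · exact THR_triv ϖ v₀ _ fun v hv => (hv.le_one b).trans_lt (h ▸ hβ)
  · rcases eq_or_lt_of_le (h₀.nonneg b) with h' | h'
    · obtain ⟨m, hm⟩ := exists_pow_lt_of_lt_one hβ0 (show (1 / 2 : ℝ) < 1 by norm_num)
      refine ⟨[(b, m, true)], fun t ht => ?_, fun v hv hl => ?_⟩
      · rw [List.mem_singleton] at ht
        subst ht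
        simp only [if_true]
        rw [← h']
        positivity
      · have h3 := hl _ (List.mem_singleton.2 rfl)
        simp only [if_true] at h3
        exact h3.trans_lt hm
    · obtain ⟨n, m, hn, h1, h2⟩ := THR_num _ _ h' h hβ
      refine ⟨[(b ^ n, m, true)], fun t ht => ?_, fun v hv hl => ?_⟩
      · rw [List.mem_singleton] at ht
        subst ht
        simp only [if_true]
        rw [THR_pow h₀]
        exact h1
      · have h3 := hl _ (List.mem_singleton.2 rfl)
        simp only [if_true] at h3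
        rw [THR_pow hv] at h3
        exact lt_of_pow_lt_pow_left₀ n hβ0.le (h3.trans_lt h2)

theorem m_THR : StTHR.{u} := by
  intro p _ B _ _ _ ϖ v₀ h₀ U hU hv₀
  have key : THR_P ϖ v₀ U := by
    obtain ⟨I, w, hw, hsub⟩ := isOpen_pi_iff.1 hU v₀ hv₀
    refine THR_mono ?_ hsub
    classical
    have hI : ∀ J : Finset B, J ⊆ I → THR_P ϖ v₀ ((J : Set B).pi w) := by
      intro J
      induction J using Finset.induction_on with
      | empty => exact fun _ => THR_triv ϖ v₀ _ fun v _ => by simp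
      | insert b J hb ih =>
        intro hJ
        have hbI : b ∈ I := hJ (Finset.mem_insert_self _ _)
        have h1 := ih ((Finset.subset_insert _ _).trans hJ)
        obtain ⟨ε, hε, hball⟩ := Metric.isOpen_iff.1 (hw b hbI).1 (v₀ b) (hw b hbI).2
        have h2 := THR_inter (THR_lo h₀ b (v₀ b - ε) (by linarith))
          (THR_hi h₀ b (v₀ b + ε) (by linarith))
        refine THR_mono (THR_inter h1 h2) ?_
        rintro v ⟨hv1, hv2, hv3⟩ c hc
        rw [Finset.mem_coe, Finset.mem_insert] at hc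
        rcases hc with hc | hc
        · subst hc
          apply hball
          rw [Metric.mem_ball, Real.dist_eq, abs_lt]
          simp only [Set.mem_ofPred_eq] at hv2 hv3
          constructor <;> linarith
        · exact hv1 c hc
    exact hI I (Finset.Subset.refl I)
  obtain ⟨l, h1, h2⟩ := key
  refine ⟨l.length, fun i => (l.get i).1, fun i => (l.get i).2.1, fun i => (l.get i).2.2,
    fun i => h1 _ (List.get_mem l i), fun v hv hl => h2 v hv fun t ht => ?_⟩
  obtain ⟨i, hi⟩ := List.get_of_mem ht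
  rw [← hi]
  exact hl i

end Pool.Agent.Helper44.SPL
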