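import Pool.Agent.Helper44.SPL.StT

/-!
# Splinters in mixed characteristic: module TILT (assembly of the sub-modules of the tilt)
-/

set_option autoImplicit false

namespace Pool.Agent.Helper44.SPL

open Polynomial

universe u

namespace TILTaux

section seminorm

variable {A : Type u} [CommRing A] {ϖ : A} {v : A → ℝ}

lemma ms_pow (hv : IsMs ϖ v) (a : A) (n : ℕ) : v (a ^ n) = v a ^ n := by
  induction n with
  | zero => rw [pow_zero, pow_zero, hv.one]
  | succ n ih => rw [pow_succ, hv.mul, ih, pow_succ]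

lemma ms_neg (hv : IsMs ϖ v) (a : A) : v (-a) = v a := by
  have h1 : v (-1) * v (-1) = 1 := by
    rw [← hv.mul, neg_mul_neg, one_mul, hv.one]
  have h2 : v (-1) = 1 := by
    have h3 := hv.nonneg (-1)
    have h4 := hv.le_one (-1)
    nlinarith
  rw [show -a = -1 * a by ring, hv.mul, h2, one_mul]

lemma ms_sub (hv : IsMs ϖ v) (a b : A) : v (a - b) ≤ max (v a) (v b) := by
  have := hv.add a (-b)
  rwa [ms_neg hv, ← sub_eq_add_neg] at this

lemma ms_unit (hv : IsMs ϖ v) (e : Aˣ) : v (e : A) = 1 := by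
  have h1 : v (e : A) * v ((e⁻¹ : Aˣ) : A) = 1 := by
    rw [← hv.mul, Units.mul_inv, hv.one]
  have h2 := hv.le_one (e : A)
  have h3 := hv.le_one ((e⁻¹ : Aˣ) : A)
  have h4 := hv.nonneg (e : A)
  have h5 := hv.nonneg ((e⁻¹ : Aˣ) : A)
  nlinarith

lemma ms_dvd (hv : IsMs ϖ v) {a : A} (h : ϖ ∣ a) : v a ≤ 1 / 2 := by
  obtain ⟨c, rfl⟩ := h
  rw [hv.mul, hv.pi]
  have h1 := hv.le_one c
  linarith

lemma ms_sum (hv : IsMs ϖ v) {ι : Type*} (s : Finset ι) (f : ι → A) (r : ℝ) (hr : 0 ≤ r)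
    (h : ∀ i ∈ s, v (f i) ≤ r) : v (∑ i ∈ s, f i) ≤ r := by
  classical
  induction s using Finset.induction_on with
  | empty => rw [Finset.sum_empty, hv.zero]; exact hr
  | insert i s hi ih =>
    rw [Finset.sum_insert hi]
    refine (hv.add _ _).trans (max_le (h i (Finset.mem_insert_self i s)) ?_)
    exact ih fun j hj => h j (Finset.mem_insert_of_mem hj)

/-- `(x - y)^n - (x^n - y^n)` for `n = p^k` -/
lemma ms_frob {p : ℕ} (hp : p.Prime) {v : A → ℝ} (hv : IsMs (p : A) v) (x y : A) (k : ℕ) :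
    v ((x - y) ^ p ^ k - (x ^ p ^ k - y ^ p ^ k)) ≤
      1 / 2 * max (v (x ^ p ^ k)) (v (y ^ p ^ k)) := by
  have hr0 : 0 ≤ max (v x) (v y) := le_max_of_le_left (hv.nonneg x)
  have hmax : max (v (x ^ p ^ k)) (v (y ^ p ^ k)) = max (v x) (v y) ^ p ^ k := by
    rw [ms_pow hv, ms_pow hv]
    rcases le_total (v x) (v y) with h | h
    · rw [max_eq_right h, max_eq_right (pow_le_pow_left₀ (hv.nonneg _) h _)]
    · rw [max_eq_left h, max_eq_left (pow_le_pow_left₀ (hv.nonneg _) h _)]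
  have h1 := add_pow_prime_pow_eq' hp (x - y) y k
  rw [sub_add_cancel] at h1
  obtain ⟨T, hS⟩ : ∃ T, (∑ j ∈ Finset.Ioo 0 (p ^ k),
    (x - y) ^ j * y ^ (p ^ k - j) * (((p ^ k).choose j / p : ℕ) : A)) = T := ⟨_, rfl⟩
  rw [hS] at h1
  have hT : v T ≤ max (v x) (v y) ^ p ^ k := by
    rw [← hS]
    refine ms_sum hv _ _ _ (pow_nonneg hr0 _) ?_
    intro j hj
    rw [Finset.mem_Ioo] at hj
    rw [hv.mul, hv.mul, ms_pow hv, ms_pow hv]
    have e1 : v (x - y) ^ j ≤ max (v x) (v y) ^ j :=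
      pow_le_pow_left₀ (hv.nonneg _) (ms_sub hv x y) _
    have e2 : v y ^ (p ^ k - j) ≤ max (v x) (v y) ^ (p ^ k - j) :=
      pow_le_pow_left₀ (hv.nonneg _) (le_max_right _ _) _
    have e3 : v (x - y) ^ j * v y ^ (p ^ k - j) ≤
        max (v x) (v y) ^ j * max (v x) (v y) ^ (p ^ k - j) :=
      mul_le_mul e1 e2 (pow_nonneg (hv.nonneg _) _) (pow_nonneg hr0 _)
    have e4 : max (v x) (v y) ^ j * max (v x) (v y) ^ (p ^ k - j) = max (v x) (v y) ^ p ^ k := by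
      rw [← pow_add, Nat.add_sub_cancel' hj.2.le]
    rw [e4] at e3
    refine le_trans (mul_le_of_le_one_right ?_ (hv.le_one _)) e3
    exact mul_nonneg (pow_nonneg (hv.nonneg _) _) (pow_nonneg (hv.nonneg _) _)
  have h2 : (x - y) ^ p ^ k - (x ^ p ^ k - y ^ p ^ k) = -((p : A) * T) := by
    rw [h1]
    ring
  rw [h2, ms_neg hv, hv.mul, hv.pi, hmax]
  linarith

end seminorm

lemma le_of_lim {p : ℕ} (hp : p.Prime) {W M : ℝ} (hM : 0 ≤ M)
    (h : ∀ k : ℕ, W ≤ max M ((1 / 2 : ℝ) ^ p ^ k)) : W ≤ M := by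
  by_contra hlt
  rw [not_le] at hlt
  have hW : 0 < W := lt_of_le_of_lt hM hlt
  obtain ⟨n, hn⟩ := exists_pow_lt_of_lt_one hW (show (1 / 2 : ℝ) < 1 by norm_num)
  have h1 := h n
  rw [le_max_iff] at h1
  rcases h1 with h1 | h1
  · exact absurd h1 (not_le.2 hlt)
  · have h2 : (1 / 2 : ℝ) ^ p ^ n ≤ (1 / 2 : ℝ) ^ n :=
      pow_le_pow_of_le_one (by norm_num) (by norm_num) (Nat.lt_pow_self hp.one_lt).le
    linarith

section tilt

variable {A : Type u} [CommRing A] {p : ℕ} [Fact p.Prime]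
  [CharP (A ⧸ Ideal.span {(p : A)}) p]

lemma qt_rt (k j : ℕ) (b : Bt A p) : qt A p j (rt p k b) = qt A p (j + k) b :=
  Perfection.coeff_iterate_symm_frobeniusEquiv b j k

lemma rt_pow (k : ℕ) (b : Bt A p) : rt p k b ^ p ^ k = b := by
  apply Perfection.ext
  intro n
  change qt A p n (rt p k b ^ p ^ k) = qt A p n b
  rw [map_pow, qt_rt]
  exact Perfection.coeffMonoidHom_pow_p_pow' b n k

lemma rt_sub (k : ℕ) (b c : Bt A p) : rt p k (b - c) = rt p k b - rt p k c := by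
  apply Perfection.ext
  intro n
  change qt A p n (rt p k (b - c)) = qt A p n (rt p k b - rt p k c)
  rw [map_sub, qt_rt, qt_rt, qt_rt, map_sub]

lemma isFl_rt {x : ℕ → A} {b : Bt A p} (hx : ∀ k, x (k + 1) ^ p = x k)
    (hb : ∀ k, qt A p k b = Ideal.Quotient.mk _ (x k)) (k : ℕ) : IsFl (x k) (rt p k b) :=
  ⟨fun j => x (j + k), by simp, fun j => by
    have := hx (j + k)
    rwa [show j + k + 1 = j + 1 + k by ring] at this, fun j => by rw [qt_rt, hb]⟩

omit [Fact p.Prime] [CharP (A ⧸ Ideal.span {(p : A)}) p] in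
lemma pow_comp {x : ℕ → A} (hx : ∀ k, x (k + 1) ^ p = x k) (k : ℕ) : x k ^ p ^ k = x 0 := by
  induction k with
  | zero => simp
  | succ k ih => rw [pow_succ', pow_mul, hx, ih]

lemma isFl_zero : IsFl (0 : A) (0 : Bt A p) :=
  ⟨fun _ => 0, rfl, fun _ => zero_pow (Fact.out : p.Prime).ne_zero, fun k => by simp⟩

lemma isFl_one : IsFl (1 : A) (1 : Bt A p) :=
  ⟨fun _ => 1, rfl, fun _ => one_pow _, fun k => by simp⟩

lemma qt_isFl {a : A} {b : Bt A p} (h : IsFl a b) :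
    qt A p 0 b = Ideal.Quotient.mk _ a := by
  obtain ⟨x, h0, -, h2⟩ := h
  rw [h2, h0]

end tilt

section main

variable {A : Type u} [CommRing A] {p : ℕ} [hp : Fact p.Prime]
  [CharP (A ⧸ Ideal.span {(p : A)}) p] {ϖ : Bt A p} {fl : A → Bt A p}

variable (hfl : ∀ a, IsFl a (fl a))
  (hu : ∀ (a : A) (b b' : Bt A p), IsFl a b → IsFl a b' →
    ∃ ε : (Bt A p)ˣ, qt A p 0 ε = 1 ∧ b' = ε * b)
  (hk : ∀ b : Bt A p, qt A p 0 b = 0 → ϖ ∣ b)
  {w : Bt A p → ℝ} (hw : IsMs ϖ w)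

include hu hw in
lemma fl_eq {a : A} {b b' : Bt A p} (h : IsFl a b) (h' : IsFl a b') : w b = w b' := by
  obtain ⟨e, -, he⟩ := hu a b b' h h'
  rw [he, hw.mul, ms_unit hw, one_mul]

include hu hk hw in
lemma fl_sub {a : A} {b b' : Bt A p} (h : IsFl a b) (h' : IsFl a b') :
    w (b' - b) ≤ 1 / 2 * w b := by
  obtain ⟨e, he, he'⟩ := hu a b b' h h'
  have h1 : b' - b = ((e : Bt A p) - 1) * b := by rw [he']; ring
  have h2 : w ((e : Bt A p) - 1) ≤ 1 / 2 := by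
    apply ms_dvd hw
    apply hk
    rw [map_sub, he, map_one, sub_self]
  rw [h1, hw.mul]
  exact mul_le_mul_of_nonneg_right h2 (hw.nonneg b)

include hk hw in
lemma close_a {a b : A} {α β γ : Bt A p} (ha : IsFl a α) (hb : IsFl b β)
    (hc : IsFl (a - b) γ) : w (α - β - γ) ≤ 1 / 2 := by
  apply ms_dvd hw
  apply hk
  rw [map_sub, map_sub, qt_isFl ha, qt_isFl hb, qt_isFl hc, map_sub, sub_self]

include hk hw in
lemma close_b {a b : A} {α β γ : Bt A p} (ha : IsFl a α) (hb : IsFl b β)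
    (hc : IsFl (a - b) γ) : w (α - β) ≤ max (w γ) (1 / 2) := by
  have h1 := hw.add (α - β - γ) γ
  rw [sub_add_cancel] at h1
  refine h1.trans (max_le ?_ (le_max_left _ _))
  exact (close_a hk hw ha hb hc).trans (le_max_right _ _)

include hk hw in
lemma close_c {a b : A} {α β γ : Bt A p} (ha : IsFl a α) (hb : IsFl b β)
    (hc : IsFl (a - b) γ) : w γ ≤ max (w (α - β)) (1 / 2) := by
  have h1 := ms_sub hw (α - β) (α - β - γ)
  rw [sub_sub_cancel] at h1
  exact h1.trans (max_le_max le_rfl (close_a hk hw ha hb hc))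

lemma pow_max {a b : ℝ} (ha : 0 ≤ a) (hb : 0 ≤ b) (n : ℕ) :
    max a b ^ n = max (a ^ n) (b ^ n) := by
  rcases le_total a b with h | h
  · rw [max_eq_right h, max_eq_right (pow_le_pow_left₀ ha h _)]
  · rw [max_eq_left h, max_eq_left (pow_le_pow_left₀ hb h _)]

include hfl hk hw in
lemma T4a (hv : IsMs (p : A) (fun a => w (fl a))) (x y : A) :
    w (fl x - fl y) ≤ max (w (fl (x - y))) (1 / 2 * max (w (fl x)) (w (fl y))) := by
  have hM : 0 ≤ max (w (fl (x - y))) (1 / 2 * max (w (fl x)) (w (fl y))) :=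
    le_max_of_le_left (hw.nonneg _)
  refine le_of_lim hp.out hM ?_
  intro k
  obtain ⟨X, hX0, hX1, hX2⟩ := hfl x
  obtain ⟨Y, hY0, hY1, hY2⟩ := hfl y
  have hfx : IsFl (X k) (rt p k (fl x)) := isFl_rt hX1 hX2 k
  have hfy : IsFl (Y k) (rt p k (fl y)) := isFl_rt hY1 hY2 k
  have hXk : X k ^ p ^ k = x := by rw [pow_comp hX1, hX0]
  have hYk : Y k ^ p ^ k = y := by rw [pow_comp hY1, hY0]
  have h1 : w (fl x - fl y) = w (rt p k (fl x) - rt p k (fl y)) ^ p ^ k := by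
    rw [← rt_sub, ← ms_pow hw, rt_pow]
  have h2 : w (rt p k (fl x) - rt p k (fl y)) ≤ max (w (fl (X k - Y k))) (1 / 2) :=
    close_b hk hw hfx hfy (hfl _)
  have h3 : w (fl (X k - Y k)) ^ p ^ k ≤
      max (w (fl (x - y))) (1 / 2 * max (w (fl x)) (w (fl y))) := by
    have e1 : w (fl (X k - Y k)) ^ p ^ k = w (fl ((X k - Y k) ^ p ^ k)) :=
      (ms_pow hv (X k - Y k) (p ^ k)).symm
    have e2 := ms_frob hp.out hv (X k) (Y k) k
    have e3 := hv.add ((X k - Y k) ^ p ^ k - (X k ^ p ^ k - Y k ^ p ^ k))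
      (X k ^ p ^ k - Y k ^ p ^ k)
    rw [hXk, hYk] at e2 e3
    rw [sub_add_cancel] at e3
    rw [e1]
    refine le_trans e3 (max_le (le_max_of_le_right e2) (le_max_left _ _))
  rw [h1]
  refine (pow_le_pow_left₀ (hw.nonneg _) h2 _).trans ?_
  rw [pow_max (hw.nonneg _) (by norm_num)]
  exact max_le_max h3 le_rfl

include hfl hk hw in
lemma T4b (hv : IsMs (p : A) (fun a => w (fl a))) (x y : A) :
    w (fl (x - y)) ≤ max (w (fl x - fl y)) (1 / 2 * max (w (fl x)) (w (fl y))) := by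
  have hM : 0 ≤ max (w (fl x - fl y)) (1 / 2 * max (w (fl x)) (w (fl y))) :=
    le_max_of_le_left (hw.nonneg _)
  refine le_of_lim hp.out hM ?_
  intro k
  obtain ⟨X, hX0, hX1, hX2⟩ := hfl x
  obtain ⟨Y, hY0, hY1, hY2⟩ := hfl y
  have hfx : IsFl (X k) (rt p k (fl x)) := isFl_rt hX1 hX2 k
  have hfy : IsFl (Y k) (rt p k (fl y)) := isFl_rt hY1 hY2 k
  have hXk : X k ^ p ^ k = x := by rw [pow_comp hX1, hX0]
  have hYk : Y k ^ p ^ k = y := by rw [pow_comp hY1, hY0]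
  have h1 : w (fl x - fl y) = w (rt p k (fl x) - rt p k (fl y)) ^ p ^ k := by
    rw [← rt_sub, ← ms_pow hw, rt_pow]
  have h2 : w (fl (X k - Y k)) ≤ max (w (rt p k (fl x) - rt p k (fl y))) (1 / 2) :=
    close_c hk hw hfx hfy (hfl _)
  have h3 : w (fl (X k - Y k)) ^ p ^ k ≤ max (w (fl x - fl y)) ((1 / 2 : ℝ) ^ p ^ k) := by
    refine (pow_le_pow_left₀ (hw.nonneg _) h2 _).trans ?_
    rw [pow_max (hw.nonneg _) (by norm_num), ← h1]
  have e1 : w (fl (X k - Y k)) ^ p ^ k = w (fl ((X k - Y k) ^ p ^ k)) :=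
    (ms_pow hv (X k - Y k) (p ^ k)).symm
  have e2 := ms_frob hp.out hv (X k) (Y k) k
  have e3 := ms_sub hv ((X k - Y k) ^ p ^ k)
    ((X k - Y k) ^ p ^ k - (X k ^ p ^ k - Y k ^ p ^ k))
  rw [hXk, hYk] at e2 e3
  rw [sub_sub_cancel] at e3
  rw [e1] at h3
  refine le_trans e3 (max_le (le_trans h3 (max_le_max (le_max_left _ _) le_rfl)) ?_)
  exact le_max_of_le_left (le_max_of_le_right e2)

end main

section roots

variable {Ω : Type u} [Field Ω] {p : ℕ}

lemma mem_IC {A : Subring Ω} (hA : IC A) {x : Ω} {n : ℕ} (hn : 0 < n) {a : Ω} (ha : a ∈ A)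
    (h : x ^ n = a) : x ∈ A := by
  have h1 : x ∈ icl (A : Set Ω) := by
    change IsIntegral (Subring.closure (A : Set Ω)) x
    refine IsIntegral.of_pow hn ?_
    rw [h]
    exact isIntegral_algebraMap (x := (⟨a, Subring.subset_closure ha⟩ :
      Subring.closure (A : Set Ω)))
  rwa [hA] at h1

lemma pw_nat [CharZero Ω] (hp : p.Prime) (S : RootSys Ω p) (a : ℚ) (n : ℕ) :
    S.pw (n * a) = S.pw a ^ n := by
  have h0 : S.pw 0 = 1 := by
    have h1 := S.add 0 1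
    rw [zero_add, S.one] at h1
    have h2 : (p : Ω) ≠ 0 := Nat.cast_ne_zero.2 hp.ne_zero
    exact (mul_left_eq_self₀.1 h1.symm).resolve_right h2
  induction n with
  | zero => rw [Nat.cast_zero, zero_mul, h0, pow_zero]
  | succ n ih => rw [Nat.cast_succ, add_mul, one_mul, S.add, ih, pow_succ]

lemma pw_root [CharZero Ω] (hp : p.Prime) (S : RootSys Ω p) (k : ℕ) :
    S.pw (1 / (p : ℚ) ^ (k + 1)) ^ p = S.pw (1 / (p : ℚ) ^ k) := by
  rw [← pw_nat hp S]
  have h2 : (p : ℚ) ≠ 0 := Nat.cast_ne_zero.2 hp.ne_zero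
  congr 1
  rw [pow_succ]
  field_simp

lemma pw_mem [CharZero Ω] (hp : p.Prime) (S : RootSys Ω p) {A : Subring Ω} (hA : IC A)
    (k : ℕ) : S.pw (1 / (p : ℚ) ^ k) ∈ A := by
  induction k with
  | zero =>
    rw [pow_zero, div_one, S.one]
    exact natCast_mem A p
  | succ k ih => exact mem_IC hA hp.pos ih (pw_root hp S k)

end roots

end TILTaux

open TILTaux in
theorem m_TILT (h1 : StTC.{u}) (h2 : StTD.{u}) (h3 : StTE.{u}) : StTILT.{u} := by
  intro Ω _ _ _ p hp S A hA hpA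
  have hnu : (p : A) ∈ nonunits A := by
    intro hun
    obtain ⟨c, hc⟩ := hun.exists_right_inv
    have h4 : (p : Ω) * (c : Ω) = 1 := by
      have := congrArg (Subtype.val) hc
      simpa using this
    apply hpA
    rw [← eq_inv_of_mul_eq_one_right h4]
    exact c.2
  have : CharP (A ⧸ Ideal.span {(p : A)}) p := CharP.quotient A p hnu
  obtain ⟨c1, c2, c3, c4⟩ := h1 Ω p A hA
  choose fl hfl using c1
  -- the element `ϖ`
  let xs : ℕ → A := fun k => ⟨S.pw (1 / (p : ℚ) ^ k), pw_mem hp.out S hA k⟩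
  have hX : ∀ k, xs (k + 1) ^ p = xs k := fun k => Subtype.ext (by
    have := pw_root hp.out S k
    simpa [xs] using this)
  have hX0 : xs 0 = (p : A) := Subtype.ext (by
    simp [xs, S.one])
  let ϖ : Bt A p := ⟨fun k => Ideal.Quotient.mk _ (xs k), fun k => by rw [← map_pow, hX]⟩
  have hϖ : ∀ k, qt A p k ϖ = Ideal.Quotient.mk _ (xs k) := fun k => rfl
  have hfp : IsFl (p : A) ϖ := ⟨xs, hX0, hX, hϖ⟩
  obtain ⟨d1, d2⟩ := c4 ϖ hfp
  have hms : ∀ w, IsMs ϖ w → IsMs (p : A) (fun a => w (fl a)) := by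
    intro w hw
    refine ⟨fun a => hw.nonneg _, ?_, ?_, ?_, ?_, fun a => hw.le_one _, ?_⟩
    · change w (fl 0) = 0
      rw [fl_eq c2 hw (hfl 0) isFl_zero, hw.zero]
    · change w (fl 1) = 1
      rw [fl_eq c2 hw (hfl 1) isFl_one, hw.one]
    · intro a b
      change w (fl (a * b)) = w (fl a) * w (fl b)
      rw [fl_eq c2 hw (hfl (a * b)) (c3 a b _ _ (hfl a) (hfl b)), hw.mul]
    · intro a b
      exact h2 Ω p A hA ϖ hfp w hw a b _ _ _ (hfl a) (hfl b) (hfl (a + b))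
    · rw [fl_eq c2 hw (hfl _) hfp, hw.pi]
  refine ⟨Bt A p, inferInstance, inferInstance, inferInstance, ϖ, fl, d1, hms, ?_, ?_, ?_, ?_,
    ?_, ?_⟩
  · intro v hv
    obtain ⟨w, hw, hwv⟩ := h3 A p ϖ hfp v hv
    exact ⟨w, hw, fun a => hwv a _ (hfl a)⟩
  · intro w hw x y
    exact T4a hfl d2 hw (hms w hw) x y
  · intro w hw x y
    exact T4b hfl d2 hw (hms w hw) x y
  · intro w hw x y
    have := fl_sub c2 d2 hw (c3 x y _ _ (hfl x) (hfl y)) (hfl (x * y))
    rwa [hw.mul] at this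
  · intro w hw k hk
    have e1 : IsFl (xs k) (rt p k ϖ) := isFl_rt hX hϖ k
    exact fl_sub c2 d2 hw e1 (hfl (xs k))
  · intro x
    obtain ⟨a, ha⟩ := Ideal.Quotient.mk_surjective (qt A p 0 x)
    refine ⟨a, fun w hw => ms_dvd hw (d2 _ ?_)⟩
    rw [map_sub, qt_isFl (hfl a), ha, sub_self]

end Pool.Agent.Helper44.SPL

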