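import Pool.Agent.Helper44.SPL.St
import Pool.Agent.Helper44.SPL.Bas

set_option autoImplicit false

namespace Pool.Agent.Helper44.SPL

universe u

private theorem TREE_div {Ω : Type u} [Field Ω] [CharZero Ω] {p : ℕ} [Fact p.Prime]
    (S : RootSys Ω p) (W : ValuationSubring Ω) {z : Ω} {lam mu : ℚ} (hml : mu ≤ lam)
    (hz : z / S.pw lam ∈ W) : z / S.pw mu ∈ W := by
  have h1 : z / S.pw mu = z / S.pw lam * S.pw (lam - mu) := by
    rw [S.pw_sub]
    have h2 := S.pw_ne_zero lam
    have h3 := S.pw_ne_zero mu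
    field_simp
  rw [h1]
  exact W.mul_mem _ _ hz (S.pw_mem_val W (sub_nonneg.2 hml))

private theorem TREE_gens_zero {Ω : Type u} [Field Ω] {n : ℕ} (X : Fin (n + 1) → Ω) (b : Bool)
    (s : Fin n → Bool) :
    gens X (Fin.cons b s) 0 = if b then X 0 else (X 0)⁻¹ := by
  simp [gens]

private theorem TREE_gens_succ {Ω : Type u} [Field Ω] {n : ℕ} (X : Fin (n + 1) → Ω) (b : Bool)
    (s : Fin n → Bool) (q : Fin n) :
    gens X (Fin.cons b s) q.succ = gens (fun i => X i.succ) s q := by
  simp [gens]

theorem m_TREE (h : StSS.{u}) : StTREE.{u} := by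
  intro Ω _ _ _ p _ S A hA n
  induction n generalizing A with
  | zero =>
    intro X hX x lam mu hml h1 h2
    refine ⟨x (fun q => q.elim0), ?_, ?_⟩
    · rw [hA.mem_iff_val]
      intro W hW
      exact h1 _ W hW fun q => q.elim0
    · intro s W hW hs
      have e : s = fun q => q.elim0 := Subsingleton.elim _ _
      rw [e, sub_self, zero_div]
      exact W.zero_mem
  | succ n ih =>
    intro X hX x lam mu hml h1 h2
    classical
    obtain ⟨ka, hka1, hka2⟩ := exists_between hml
    have hgens : ∀ (b : Bool) (s : Fin n → Bool) (W : ValuationSubring Ω),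
        (if b then X 0 else (X 0)⁻¹) ∈ W → (∀ q, gens (fun i => X i.succ) s q ∈ W) →
        ∀ q, gens X (Fin.cons b s) q ∈ W := by
      intro b s W h3 h4 q
      refine Fin.cases ?_ (fun i => ?_) q
      · rw [TREE_gens_zero]; exact h3
      · rw [TREE_gens_succ]; exact h4 i
    have key : ∀ b : Bool, ∃ a ∈ icl ((A : Set Ω) ∪ {if b then X 0 else (X 0)⁻¹}),
        ∀ (s : Fin n → Bool) (W : ValuationSubring Ω), (A : Set Ω) ⊆ W →
        (if b then X 0 else (X 0)⁻¹) ∈ W → (∀ q, gens (fun i => X i.succ) s q ∈ W) →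
        (a - x (Fin.cons b s)) / S.pw ka ∈ W := by
      intro b
      have hsub : ∀ W : ValuationSubring Ω,
          (icl ((A : Set Ω) ∪ {if b then X 0 else (X 0)⁻¹}) : Set Ω) ⊆ W →
          (A : Set Ω) ⊆ W ∧ (if b then X 0 else (X 0)⁻¹) ∈ W := by
        intro W hW
        exact ⟨fun y hy => hW (mem_icl_left hy), hW (X_mem_icl _ _)⟩
      obtain ⟨a, ha, ha'⟩ := ih (icl ((A : Set Ω) ∪ {if b then X 0 else (X 0)⁻¹})) (IC_icl _)
        (fun i => X i.succ) (fun q => hX _) (fun s => x (Fin.cons b s)) lam ka hka2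
        (by
          intro s W hW hs
          exact h1 _ W (hsub W hW).1 (hgens b s W (hsub W hW).2 hs))
        (by
          intro s s' W hW hs hs'
          exact h2 _ _ W (hsub W hW).1 (hgens b s W (hsub W hW).2 hs)
            (hgens b s' W (hsub W hW).2 hs'))
      refine ⟨a, ha, fun s W hAW hXW hs => ha' s W ?_ hs⟩
      exact icl_le_val (Set.union_subset hAW (Set.singleton_subset_iff.2 hXW))
    obtain ⟨a₁, ha₁, ha₁'⟩ := key true
    obtain ⟨a₂, ha₂, ha₂'⟩ := key false
    simp only [if_true, Bool.false_eq_true, if_false] at ha₁ ha₁' ha₂ ha₂'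
    have hdiff : (a₁ - a₂) / S.pw ka ∈ icl ((A : Set Ω) ∪ {X 0, (X 0)⁻¹}) := by
      rw [mem_icl_iff_val]
      intro W hW
      have hAW : (A : Set Ω) ⊆ W := fun y hy => hW (Or.inl hy)
      have hXW : X 0 ∈ W := hW (Or.inr (Or.inl rfl))
      have hXW' : (X 0)⁻¹ ∈ W := hW (Or.inr (Or.inr rfl))
      have hs : ∀ q, gens (fun i => X i.succ) (fun i : Fin n => decide (X i.succ ∈ W)) q ∈ W := by
        intro q
        unfold gens
        by_cases hq : X q.succ ∈ W
        · simp [hq]
        · have := (W.mem_or_inv_mem (X q.succ)).resolve_left hq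
          simp [hq, this]
      have g1 := ha₁' _ W hAW hXW hs
      have g2 := ha₂' _ W hAW hXW' hs
      have g3 := TREE_div S W hka2.le (h2 _ _ W hAW
        (hgens true _ W (by simpa using hXW) hs) (hgens false _ W (by simpa using hXW') hs))
      have e : (a₁ - a₂) / S.pw ka =
          (a₁ - x (Fin.cons true fun i => decide (X i.succ ∈ W))) / S.pw ka +
          (x (Fin.cons true fun i => decide (X i.succ ∈ W)) -
            x (Fin.cons false fun i => decide (X i.succ ∈ W))) / S.pw ka -
          (a₂ - x (Fin.cons false fun i => decide (X i.succ ∈ W))) / S.pw ka := by ring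
      rw [e]
      exact sub_mem (W.add_mem _ _ g1 g3) g2
    obtain ⟨a, haA, hb₁, hb₂⟩ := h Ω p S A hA (X 0) (hX 0) ka mu hka1 a₁ ha₁ a₂ ha₂ hdiff
    refine ⟨a, haA, ?_⟩
    intro s W hAW hs
    have hcons : Fin.cons (s 0) (fun i : Fin n => s i.succ) = s := Fin.cons_self_tail s
    have hs0 := hs 0
    have hs' : ∀ q, gens (fun i => X i.succ) (fun i : Fin n => s i.succ) q ∈ W := by
      intro q
      have := hs q.succ
      unfold gens at this ⊢
      exact this
    cases hb : s 0 with
    | true =>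
      rw [hb] at hcons
      have hXW : X 0 ∈ W := by
        unfold gens at hs0; rw [hb] at hs0; simpa using hs0
      have g1 := TREE_div S W hka1.le (ha₁' _ W hAW hXW hs')
      rw [hcons] at g1
      have g2 := mem_icl_iff_val.1 hb₁ W (Set.union_subset hAW (Set.singleton_subset_iff.2 hXW))
      have e : (a - x s) / S.pw mu = (a - a₁) / S.pw mu + (a₁ - x s) / S.pw mu := by ring
      rw [e]
      exact W.add_mem _ _ g2 g1
    | false =>
      rw [hb] at hcons
      have hXW : (X 0)⁻¹ ∈ W := by
        unfold gens at hs0; rw [hb] at hs0; simpa using hs0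
      have g1 := TREE_div S W hka1.le (ha₂' _ W hAW hXW hs')
      rw [hcons] at g1
      have g2 := mem_icl_iff_val.1 hb₂ W (Set.union_subset hAW (Set.singleton_subset_iff.2 hXW))
      have e : (a - x s) / S.pw mu = (a - a₂) / S.pw mu + (a₂ - x s) / S.pw mu := by ring
      rw [e]
      exact W.add_mem _ _ g2 g1

end Pool.Agent.Helper44.SPL
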