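import Pool.Agent.Helper44.SPL.St

/-!
# Project SPL, module U: seminorm bounds give divisibility by fractional powers of `p`
-/

set_option autoImplicit false

namespace Pool.Agent.Helper44.SPL

open Polynomial

universe u

section modU

variable {Ω : Type u} [Field Ω]

private theorem U_mem {A : Subring Ω} (hA : IC A) {x : Ω} {n : ℕ} (hn : 0 < n)
    (h : x ^ n ∈ A) : x ∈ A := by
  have h1 : x ∈ icl (A : Set Ω) := by
    show IsIntegral (Subring.closure (A : Set Ω)) x
    refine IsIntegral.of_pow hn ?_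
    have e : x ^ n = algebraMap (Subring.closure (A : Set Ω)) Ω
        ⟨x ^ n, Subring.subset_closure h⟩ := rfl
    rw [e]
    exact isIntegral_algebraMap
  rw [hA] at h1
  exact h1

variable {p : ℕ}

private theorem U_one_ne [CharZero Ω] (hp : p.Prime) (S : RootSys Ω p) : S.pw 1 ≠ 0 := by
  rw [S.one]
  exact_mod_cast hp.ne_zero

private theorem U_zero [CharZero Ω] (hp : p.Prime) (S : RootSys Ω p) : S.pw 0 = 1 := by
  have h := S.add 1 0
  rw [add_zero] at h
  exact (mul_left_cancel₀ (U_one_ne hp S) (by rw [mul_one]; exact h)).symm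

private theorem U_ne [CharZero Ω] (hp : p.Prime) (S : RootSys Ω p) (a : ℚ) : S.pw a ≠ 0 := by
  intro h
  have h1 := S.add a (-a)
  rw [add_neg_cancel, U_zero hp S, h, zero_mul] at h1
  exact one_ne_zero h1

private theorem U_sub [CharZero Ω] (hp : p.Prime) (S : RootSys Ω p) (a b : ℚ) :
    S.pw (a - b) = S.pw a / S.pw b := by
  rw [eq_div_iff (U_ne hp S b), ← S.add, sub_add_cancel]

private theorem U_nsmul [CharZero Ω] (hp : p.Prime) (S : RootSys Ω p) (a : ℚ) (n : ℕ) :
    S.pw (n * a) = S.pw a ^ n := by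
  induction n with
  | zero => simp [U_zero hp S]
  | succ n ih =>
    rw [pow_succ, ← ih, ← S.add]
    congr 1
    push_cast
    ring

private theorem U_nat [CharZero Ω] (hp : p.Prime) (S : RootSys Ω p) (n : ℕ) :
    S.pw n = (p : Ω) ^ n := by
  have h := U_nsmul hp S 1 n
  rw [mul_one, S.one] at h
  exact h

private theorem U_den [CharZero Ω] (hp : p.Prime) (S : RootSys Ω p) (t : ℚ) (ht : 0 ≤ t) :
    S.pw t ^ t.den = (p : Ω) ^ t.num.toNat := by
  rw [← U_nsmul hp S, ← U_nat hp S]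
  congr 1
  have h1 : (t.den : ℚ) * t = t.num := Rat.den_mul_eq_num t
  have h2 : ((t.num.toNat : ℤ) : ℚ) = (t.num : ℚ) := by
    rw [Int.toNat_of_nonneg (Rat.num_nonneg.2 ht)]
  rw [h1, ← h2]
  push_cast
  rfl

private theorem U_pw_mem [CharZero Ω] (hp : p.Prime) (S : RootSys Ω p) {A : Subring Ω}
    (hA : IC A) (t : ℚ) (ht : 0 ≤ t) : S.pw t ∈ A := by
  refine U_mem hA (n := t.den) t.den_pos ?_
  rw [U_den hp S t ht]
  exact pow_mem (natCast_mem A p) _

private theorem U_vpow {B : Type u} [CommRing B] {ϖ : B} {v : B → ℝ} (hv : IsMs ϖ v) (a : B)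
    (n : ℕ) : v (a ^ n) = v a ^ n := by
  induction n with
  | zero => simp [hv.one]
  | succ n ih => rw [pow_succ, pow_succ, hv.mul, ih]

private theorem U_val [CharZero Ω] (hp : p.Prime) (S : RootSys Ω p) {A : Subring Ω}
    (t : ℚ) (ht : 0 ≤ t) (hm : S.pw t ∈ A) {v : A → ℝ} (hv : IsMs (p : A) v) :
    v ⟨S.pw t, hm⟩ = (1 / 2 : ℝ) ^ (t : ℝ) := by
  have e1 : (⟨S.pw t, hm⟩ : A) ^ t.den = (p : A) ^ t.num.toNat := by
    apply Subtype.ext
    push_cast
    exact U_den hp S t ht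
  have e2 : v ⟨S.pw t, hm⟩ ^ t.den = (1 / 2 : ℝ) ^ t.num.toNat := by
    rw [← U_vpow hv, e1, U_vpow hv, hv.pi]
  have e3 : ((1 / 2 : ℝ) ^ (t : ℝ)) ^ t.den = (1 / 2 : ℝ) ^ t.num.toNat := by
    rw [← Real.rpow_natCast, ← Real.rpow_mul (by norm_num), ← Real.rpow_natCast]
    congr 1
    have h1 : (t.den : ℚ) * t = t.num := Rat.den_mul_eq_num t
    have h2 : ((t.num.toNat : ℤ) : ℝ) = (t.num : ℝ) := by
      rw [Int.toNat_of_nonneg (Rat.num_nonneg.2 ht)]
    have h3 : (t : ℝ) * (t.den : ℝ) = (t.num : ℝ) := by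
      have : ((t.den : ℚ) : ℝ) * ((t : ℚ) : ℝ) = ((t.num : ℚ) : ℝ) := by exact_mod_cast h1
      rw [mul_comm]
      exact_mod_cast this
    rw [h3, ← h2]
    push_cast
    rfl
  exact (pow_left_inj₀ (hv.nonneg _) (Real.rpow_nonneg (by norm_num) _) t.den_pos.ne').1
    (e2.trans e3.symm)

end modU

theorem m_U (h : StUG.{u}) : StU.{u} := by
  intro Ω _ _ _ p hp S A hA x lam s hs hv
  have hpp : p.Prime := hp.out
  by_cases hs0 : s < 0
  · have e : (x : Ω) / S.pw s = x * S.pw (-s) := by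
      have h1 : S.pw (0 - s) = S.pw 0 / S.pw s := U_sub hpp S 0 s
      rw [zero_sub, U_zero hpp S] at h1
      rw [h1, mul_one_div]
    rw [e]
    exact mul_mem x.2 (U_pw_mem hpp S hA (-s) (by linarith))
  rw [not_lt] at hs0
  obtain ⟨mu, h1, h2⟩ := exists_between hs
  have hmu : 0 < mu := lt_of_le_of_lt hs0 h1
  have hmem := U_pw_mem hpp S hA mu hmu.le
  obtain ⟨k, hk⟩ := exists_nat_ge mu
  have hk0 : 0 ≤ (k : ℚ) - mu := by linarith
  have hdvd : (⟨S.pw mu, hmem⟩ : A) ∣ (p : A) ^ k := by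
    refine ⟨⟨S.pw (k - mu), U_pw_mem hpp S hA _ hk0⟩, ?_⟩
    apply Subtype.ext
    push_cast
    rw [← S.add, ← U_nat hpp S]
    congr 1
    ring
  have hpne : (p : A) ∈ nonZeroDivisors A := by
    refine mem_nonZeroDivisors_of_ne_zero ?_
    intro h0
    have : ((p : A) : Ω) = 0 := by rw [h0]; rfl
    push_cast at this
    exact hpp.ne_zero (by exact_mod_cast this)
  obtain ⟨N, hN⟩ := h A (p : A) ⟨S.pw mu, hmem⟩ x k hpne hdvd (fun v hv' => by
    rw [U_val hpp S mu hmu.le hmem hv']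
    refine (hv v hv').trans_lt ?_
    exact Real.rpow_lt_rpow_of_exponent_gt (by norm_num) (by norm_num) (by exact_mod_cast h2))
  -- a large exponent
  obtain ⟨m, hm⟩ := exists_nat_ge ((s * N + 1) / (mu - s))
  have hms : 0 < mu - s := by linarith
  rw [div_le_iff₀ hms] at hm
  obtain ⟨y, hy⟩ := hN m
  have hexp : 0 ≤ (m : ℚ) * mu - ((N + m : ℕ) : ℚ) * s := by
    push_cast
    nlinarith
  have hpos : 0 < N + m := by
    by_contra hcon
    have hN0 : N = 0 := by omega
    have hm0 : m = 0 := by omega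
    rw [hN0, hm0] at hm
    norm_num at hm
  refine U_mem hA hpos ?_
  have e : ((x : Ω) / S.pw s) ^ (N + m) =
      (y : Ω) * S.pw ((m : ℚ) * mu - ((N + m : ℕ) : ℚ) * s) := by
    have hy' : (x : Ω) ^ (N + m) = S.pw mu ^ m * y := by
      have := congrArg (fun z : A => (z : Ω)) hy
      simpa using this
    rw [div_pow, hy', U_sub hpp S, U_nsmul hpp S, U_nsmul hpp S]
    ring
  rw [e]
  exact mul_mem y.2 (U_pw_mem hpp S hA _ hexp)

end Pool.Agent.Helper44.SPL
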