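import Pool.Agent.Helper44.SPL.St

/-!
# Project SPL, module UF: seminorm bounds give divisibility, perfect rings
-/

set_option autoImplicit false

namespace Pool.Agent.Helper44.SPL

universe u

section modUF

variable {p : ℕ} [Fact p.Prime] {B : Type u} [CommRing B] [CharP B p] [PerfectRing B p]

private theorem UF_pow (k : ℕ) (b : B) : rt p k b ^ p ^ k = b :=
  iterate_frobeniusEquiv_symm_pow_p_pow B p b k

private theorem UF_pow' (k : ℕ) (b : B) : rt p k (b ^ p ^ k) = b := by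
  induction k with
  | zero => simp [rt]
  | succ k ih =>
    unfold rt at ih ⊢
    rw [Function.iterate_succ_apply, pow_succ, pow_mul, frobeniusEquiv_symm_pow]
    exact ih

private theorem UF_mul (k : ℕ) (a b : B) : rt p k (a * b) = rt p k a * rt p k b :=
  iterate_map_mul (frobeniusEquiv B p).symm k a b

private theorem UF_map_pow (k n : ℕ) (a : B) : rt p k (a ^ n) = rt p k a ^ n :=
  iterate_map_pow (frobeniusEquiv B p).symm k a n

private theorem UF_comp (a b : ℕ) (x : B) : rt p b (rt p a x) = rt p (a + b) x := by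
  unfold rt
  rw [← Function.iterate_add_apply, add_comm]

private theorem UF_add (a b : ℕ) (x : B) : rt p (a + b) x ^ p ^ b = rt p a x := by
  rw [← UF_comp, UF_pow]

omit [Fact p.Prime] [CharP B p] [PerfectRing B p] in
private theorem UF_vpow {ϖ : B} {v : B → ℝ} (hv : IsMs ϖ v) (a : B) (n : ℕ) :
    v (a ^ n) = v a ^ n := by
  induction n with
  | zero => simp [hv.one]
  | succ n ih => rw [pow_succ, pow_succ, hv.mul, ih]

private theorem UF_val {ϖ : B} {v : B → ℝ} (hv : IsMs ϖ v) (l n : ℕ) :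
    v (rt p l ϖ ^ n) = (1 / 2 : ℝ) ^ ((n : ℝ) / (p : ℝ) ^ l) := by
  have hp : (0 : ℝ) < p := by exact_mod_cast (Fact.out : p.Prime).pos
  have hq : (0 : ℝ) < (p : ℝ) ^ l := pow_pos hp l
  have hne : p ^ l ≠ 0 := pow_ne_zero _ (Fact.out : p.Prime).ne_zero
  have h1 : v (rt p l ϖ) = (1 / 2 : ℝ) ^ (1 / (p : ℝ) ^ l) := by
    refine (pow_left_inj₀ (hv.nonneg _) (Real.rpow_nonneg (by norm_num) _) hne).1 ?_
    rw [← UF_vpow hv, UF_pow, hv.pi, ← Real.rpow_natCast, ← Real.rpow_mul (by norm_num)]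
    push_cast
    rw [one_div_mul_cancel hq.ne', Real.rpow_one]
  rw [UF_vpow hv, h1, ← Real.rpow_natCast, ← Real.rpow_mul (by norm_num)]
  congr 1
  rw [one_div, inv_mul_eq_div]

end modUF

theorem m_UF (h : StUG.{u}) : StUF.{u} := by
  intro p hp B _ _ _ ϖ hϖ x lam hx m k hmk
  have hp1 : 1 < p := hp.out.one_lt
  have hp0 : (0 : ℝ) < p := by exact_mod_cast hp.out.pos
  have hp1' : (1 : ℝ) < p := by exact_mod_cast hp1
  obtain ⟨l, hl⟩ := exists_pow_lt_of_lt_one (sub_pos.2 hmk)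
    (show (p : ℝ)⁻¹ < 1 from inv_lt_one_of_one_lt₀ hp1')
  have hlk : ((m * p ^ l + 1 : ℕ) : ℝ) / (p : ℝ) ^ (k + l) < lam := by
    have e1 : ((m * p ^ l + 1 : ℕ) : ℝ) / (p : ℝ) ^ (k + l) =
        (m : ℝ) / (p : ℝ) ^ k + ((p : ℝ) ^ (k + l))⁻¹ := by
      push_cast
      rw [pow_add]
      have h1 : (p : ℝ) ^ l ≠ 0 := (pow_pos hp0 l).ne'
      have h2 : (p : ℝ) ^ k ≠ 0 := (pow_pos hp0 k).ne'
      field_simp
    rw [e1]
    have e2 : ((p : ℝ) ^ (k + l))⁻¹ ≤ (p : ℝ)⁻¹ ^ l := by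
      rw [inv_pow]
      exact inv_anti₀ (pow_pos hp0 l) (pow_le_pow_right₀ hp1'.le (Nat.le_add_left l k))
    linarith
  obtain ⟨N, hN⟩ := h B ϖ (rt p (k + l) ϖ ^ (m * p ^ l + 1)) x (m * p ^ l + 1) hϖ
    (pow_dvd_pow_of_dvd (by
      have := dvd_pow_self (rt p (k + l) ϖ) (pow_ne_zero (k + l) hp.out.ne_zero)
      rwa [UF_pow] at this) _)
    (fun v hv => by
      rw [UF_val hv]
      refine (hx v hv).trans_lt ?_
      exact Real.rpow_lt_rpow_of_exponent_gt (by norm_num) (by norm_num) hlk)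
  obtain ⟨j, hj⟩ : ∃ j : ℕ, (m * p ^ l + 1) * N ≤ p ^ j :=
    ⟨(m * p ^ l + 1) * N, (Nat.lt_pow_self hp1).le⟩
  have hNj : N ≤ p ^ j := le_trans (Nat.le_mul_of_pos_left N (Nat.succ_pos _)) hj
  obtain ⟨d, hd⟩ := hN (p ^ j - N)
  rw [Nat.add_sub_cancel' hNj] at hd
  have h2 : x = (rt p (k + l + j) ϖ ^ (m * p ^ l + 1)) ^ (p ^ j - N) * rt p j d := by
    have h3 := congrArg (rt p j) hd
    rw [UF_pow', UF_mul, UF_map_pow, UF_map_pow, UF_comp] at h3
    exact h3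
  have h4 : rt p k ϖ ^ m = rt p (k + l + j) ϖ ^ (p ^ (l + j) * m) := by
    rw [pow_mul, add_assoc, UF_add]
  rw [h4, h2, ← pow_mul]
  refine Dvd.dvd.mul_right (pow_dvd_pow _ ?_) _
  rw [Nat.mul_sub]
  refine Nat.le_sub_of_add_le ?_
  calc p ^ (l + j) * m + (m * p ^ l + 1) * N ≤ p ^ (l + j) * m + p ^ j :=
        Nat.add_le_add_left hj _
    _ = (m * p ^ l + 1) * p ^ j := by rw [pow_add]; ring

end Pool.Agent.Helper44.SPL
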