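import Pool.Agent.Helper44.SPL.St

/-! Project SPL, module UG: the general divisibility lemma. -/

set_option autoImplicit false

namespace Pool.Agent.Helper44.SPL

open Polynomial

universe u

namespace UGaux

/-- existence of a seminorm if the nonzerodivisor `ϖ` is not a unit. -/
theorem exists_ms (h : StV1.{u}) (C : Type u) [CommRing C] (ϖ : C) (hnz : ϖ ∈ nonZeroDivisors C)
    (hu : ¬ IsUnit ϖ) : ∃ v : C → ℝ, IsMs ϖ v := by
  obtain ⟨n, hn, hϖn⟩ := exists_max_ideal_of_mem_nonunits hu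
  have hnp : n.IsPrime := hn.isPrime
  obtain ⟨q, hq, hqn⟩ := Ideal.exists_minimalPrimes_le (I := (⊥ : Ideal C)) (J := n) bot_le
  have hqp : q.IsPrime := hq.1.1
  have hϖq : ϖ ∉ q := fun hmem =>
    notMem_nonZeroDivisors_of_mem_mem_minimalPrimes hmem hq hnz
  let K := FractionRing (C ⧸ q)
  let φ : C →+* K := (algebraMap (C ⧸ q) K).comp (Ideal.Quotient.mk q)
  have hφ0 : ∀ x, φ x = 0 → x ∈ q := by
    intro x hx
    have h1 : (Ideal.Quotient.mk q) x = 0 :=
      (IsFractionRing.injective (C ⧸ q) K) (by rw [map_zero]; exact hx)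
    exact Ideal.Quotient.eq_zero_iff_mem.1 h1
  let I : Ideal φ.range := n.map φ.rangeRestrict
  have hI : I ≠ ⊤ := by
    intro hcon
    have h1 := Ideal.comap_map_of_surjective φ.rangeRestrict φ.rangeRestrict_surjective n
    have h2 : Ideal.comap φ.rangeRestrict (Ideal.map φ.rangeRestrict n) = ⊤ := by
      have : Ideal.map φ.rangeRestrict n = ⊤ := hcon
      rw [this, Ideal.comap_top]
    rw [h2] at h1
    have h3 : n ⊔ Ideal.comap φ.rangeRestrict ⊥ ≤ n := by
      refine sup_le le_rfl fun x hx => hqn (hφ0 x ?_)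
      rw [Ideal.mem_comap, Ideal.mem_bot] at hx
      exact congrArg Subtype.val hx
    rw [← h1] at h3
    exact hn.ne_top (top_le_iff.1 h3)
  obtain ⟨W, hAW, hIW⟩ := Ideal.image_subset_nonunits_valuationSubring I hI
  have hmem : ∀ x, φ x ∈ W := fun x => hAW ⟨x, rfl⟩
  let ψ : C →+* W := φ.codRestrict W hmem
  have hψ0 : ψ ϖ ≠ 0 := by
    intro h0
    exact hϖq (hφ0 ϖ (congrArg Subtype.val h0))
  have hψu : ¬ IsUnit (ψ ϖ) := by
    have h1 : φ ϖ ∈ W.nonunits := by
      apply hIW
      exact ⟨φ.rangeRestrict ϖ, Ideal.mem_map_of_mem _ hϖn, rfl⟩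
    exact (ValuationSubring.coe_mem_nonunits_iff (A := W) (a := ψ ϖ)).1 h1
  obtain ⟨v, hv⟩ := h W (ψ ϖ) hψ0 hψu
  refine ⟨fun x => v (ψ x), ⟨fun a => hv.nonneg _, ?_, ?_, fun a b => ?_, fun a b => ?_,
    fun a => hv.le_one _, hv.pi⟩⟩
  · rw [map_zero]; exact hv.zero
  · rw [map_one]; exact hv.one
  · rw [map_mul]; exact hv.mul _ _
  · rw [map_add]; exact hv.add _ _

/-- powers of the ideal `(c, e)`. -/
theorem pow_le {B : Type u} [CommRing B] (c e : B) (M : ℕ) :
    (Ideal.span {c} ⊔ Ideal.span {e}) ^ (M + 1) ≤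
      Ideal.span {c ^ (M + 1)} ⊔ Ideal.span {e} * (Ideal.span {c} ⊔ Ideal.span {e}) ^ M := by
  induction M with
  | zero => simp
  | succ M ih =>
    set J := Ideal.span {c} ⊔ Ideal.span {e} with hJ
    have hcJ : Ideal.span {c} ≤ J := le_sup_left
    have h1 : J ^ (M + 1 + 1) = Ideal.span {c} * J ^ (M + 1) ⊔ Ideal.span {e} * J ^ (M + 1) := by
      rw [pow_succ' J (M + 1), ← Ideal.sup_mul]
    rw [h1]
    refine sup_le ?_ le_sup_right
    calc Ideal.span {c} * J ^ (M + 1)
        ≤ Ideal.span {c} * (Ideal.span {c ^ (M + 1)} ⊔ Ideal.span {e} * J ^ M) :=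
          Ideal.mul_mono_right ih
      _ = Ideal.span {c ^ (M + 1 + 1)} ⊔ Ideal.span {e} * (Ideal.span {c} * J ^ M) := by
          rw [Ideal.mul_sup, Ideal.span_singleton_mul_span_singleton, ← pow_succ' c (M + 1),
            mul_left_comm]
      _ ≤ _ := by
          apply sup_le_sup_left
          apply Ideal.mul_mono_right
          rw [pow_succ' J M]
          exact Ideal.mul_mono_left hcJ

end UGaux

theorem m_UG (h : StV1.{u}) : StUG.{u} := by
  intro B _ ϖ e c k hnz hek hv
  classical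
  let Bc := Localization.Away c
  let iB : B →+* Bc := algebraMap B Bc
  let x : Bc := iB e * IsLocalization.Away.invSelf c
  have hcx : iB c * x = iB e := by
    have h1 : iB c * IsLocalization.Away.invSelf c = 1 := IsLocalization.Away.mul_invSelf c
    calc iB c * x = iB e * (iB c * IsLocalization.Away.invSelf c) := by ring
      _ = iB e := by rw [h1, mul_one]
  let C := Algebra.adjoin B {x}
  let ϖC : C := algebraMap B C ϖ
  have hϖC : (ϖC : Bc) = iB ϖ := rfl
  have hnzBc : iB ϖ ∈ nonZeroDivisors Bc :=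
    IsLocalization.map_nonZeroDivisors_le (Submonoid.powers c) Bc ⟨ϖ, hnz, rfl⟩
  have hnzC : ϖC ∈ nonZeroDivisors C := by
    rw [mem_nonZeroDivisors_iff_right]
    intro y hy
    apply Subtype.ext
    have h1 : (y : Bc) * iB ϖ = 0 := congrArg Subtype.val hy
    exact (mem_nonZeroDivisors_iff_right.1 hnzBc) _ h1
  have hunit : IsUnit ϖC := by
    by_contra hcon
    obtain ⟨v, hvC⟩ := UGaux.exists_ms h C ϖC hnzC hcon
    have h1 : IsMs ϖ (fun b : B => v (algebraMap B C b)) := by
      refine ⟨fun a => hvC.nonneg _, ?_, ?_, fun a b => ?_, fun a b => ?_, fun a => hvC.le_one _,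
        hvC.pi⟩
      · rw [map_zero]; exact hvC.zero
      · rw [map_one]; exact hvC.one
      · rw [map_mul]; exact hvC.mul _ _
      · rw [map_add]; exact hvC.add _ _
    have h2 := hv _ h1
    have hxC : x ∈ C := Algebra.subset_adjoin (Set.mem_singleton x)
    have h3 : algebraMap B C e = algebraMap B C c * ⟨x, hxC⟩ := by
      apply Subtype.ext
      exact hcx.symm
    have h4 : v (algebraMap B C e) ≤ v (algebraMap B C c) := by
      rw [h3, hvC.mul]
      exact mul_le_of_le_one_right (hvC.nonneg _) (hvC.le_one _)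
    exact absurd h4 (not_le.2 h2)
  obtain ⟨y, hy⟩ := hunit.exists_right_inv
  have hy' : iB ϖ * (y : Bc) = 1 := congrArg Subtype.val hy
  obtain ⟨P, hP⟩ : ∃ P : B[X], aeval x P = (y : Bc) := by
    have h1 : (y : Bc) ∈ Algebra.adjoin B {x} := y.2
    rw [Algebra.adjoin_singleton_eq_range_aeval] at h1
    exact h1
  -- clear denominators
  set n := P.natDegree with hn
  have hclear : iB (c ^ n) = iB (ϖ * ∑ i ∈ Finset.range (n + 1), P.coeff i * (e ^ i * c ^ (n - i))) := by
    rw [map_mul, map_sum]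
    have h1 : ∀ i ∈ Finset.range (n + 1),
        iB (P.coeff i * (e ^ i * c ^ (n - i))) = iB (c ^ n) * (iB (P.coeff i) * x ^ i) := by
      intro i hi
      have hin : i ≤ n := Nat.lt_succ_iff.1 (Finset.mem_range.1 hi)
      have h2 : iB (c ^ n) = iB c ^ i * iB c ^ (n - i) := by
        rw [map_pow, ← pow_add, Nat.add_sub_cancel' hin]
      rw [h2, map_mul, map_mul, map_pow, map_pow, ← hcx, mul_pow]
      ring
    rw [Finset.sum_congr rfl h1, ← Finset.mul_sum]
    have h3 : ∑ i ∈ Finset.range (n + 1), iB (P.coeff i) * x ^ i = (y : Bc) := by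
      rw [← hP, aeval_eq_sum_range]
      exact Finset.sum_congr rfl fun i _ => by rw [Algebra.smul_def]
    rw [h3]
    calc iB (c ^ n) = iB (c ^ n) * (iB ϖ * (y : Bc)) := by rw [hy', mul_one]
      _ = _ := by ring
  obtain ⟨⟨_, s, rfl⟩, hs⟩ := (IsLocalization.eq_iff_exists (Submonoid.powers c) Bc).1 hclear
  simp only at hs
  -- the relation with `N = M + 1`
  set J : Ideal B := Ideal.span {c} ⊔ Ideal.span {e} with hJ
  have hcJ : c ∈ J := Ideal.mem_sup_left (Ideal.mem_span_singleton_self c)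
  have heJ : e ∈ J := Ideal.mem_sup_right (Ideal.mem_span_singleton_self e)
  let M := n + s
  obtain ⟨t, htJ, ht⟩ : ∃ t ∈ J ^ M, c ^ (M + 1) = ϖ * (P.coeff 0 * c ^ (M + 1) + e * t) := by
    refine ⟨∑ i ∈ Finset.range n, P.coeff (i + 1) * (e ^ i * c ^ (M - i)), ?_, ?_⟩
    · refine Ideal.sum_mem _ fun i hi => Ideal.mul_mem_left _ _ ?_
      have hin : i ≤ M := by
        have := Finset.mem_range.1 hi
        omega
      have h1 : J ^ M = J ^ i * J ^ (M - i) := by rw [← pow_add, Nat.add_sub_cancel' hin]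
      rw [h1]
      exact Ideal.mul_mem_mul (Ideal.pow_mem_pow heJ i) (Ideal.pow_mem_pow hcJ _)
    · have h1 : c ^ (M + 1) = c * (c ^ s * c ^ n) := by
        rw [← pow_add, ← pow_succ']
        congr 1
        omega
      have h2 : c ^ (M + 1) = ϖ * (c * (c ^ s *
          ∑ i ∈ Finset.range (n + 1), P.coeff i * (e ^ i * c ^ (n - i)))) := by
        rw [h1, hs]
        ring
      conv_lhs => rw [h2]
      congr 1
      rw [Finset.mul_sum, Finset.mul_sum, Finset.sum_range_succ', Finset.mul_sum, add_comm]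
      congr 1
      · rw [h1]
        simp only [pow_zero, Nat.sub_zero]
        ring
      · refine Finset.sum_congr rfl fun i hi => ?_
        have hin := Finset.mem_range.1 hi
        have h3 : c ^ (M - i) = c * (c ^ s * c ^ (n - (i + 1))) := by
          rw [← pow_add, ← pow_succ']
          congr 1
          omega
        rw [h3, pow_succ]
        ring
  have hiter : ∀ j : ℕ, ∃ b, ∃ t ∈ J ^ M, c ^ (M + 1) = ϖ ^ j * (b * c ^ (M + 1)) + e * t := by
    intro j
    induction j with
    | zero => exact ⟨1, 0, Ideal.zero_mem _, by simp⟩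
    | succ j ih =>
      obtain ⟨b, t', ht', h1⟩ := ih
      refine ⟨b * P.coeff 0, ϖ ^ (j + 1) * b * t + t',
        Ideal.add_mem _ (Ideal.mul_mem_left _ _ htJ) ht', ?_⟩
      calc c ^ (M + 1) = ϖ ^ j * (b * c ^ (M + 1)) + e * t' := h1
        _ = ϖ ^ j * (b * (ϖ * (P.coeff 0 * c ^ (M + 1) + e * t))) + e * t' := by rw [← ht]
        _ = _ := by ring
  obtain ⟨b, t', ht', h1⟩ := hiter k
  obtain ⟨e', he'⟩ := hek
  have hcM : c ^ (M + 1) ∈ Ideal.span {e} * J ^ M := by
    rw [h1, he']
    have h2 : e * e' * (b * c ^ (M + 1)) + e * t' = e * (e' * b * c * c ^ M + t') := by ring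
    rw [h2]
    exact Ideal.mul_mem_mul (Ideal.mem_span_singleton_self e)
      (Ideal.add_mem _ (Ideal.mul_mem_left _ _ (Ideal.pow_mem_pow hcJ M)) ht')
  have hJM : J ^ (M + 1) ≤ Ideal.span {e} * J ^ M := by
    refine (UGaux.pow_le c e M).trans (sup_le ?_ le_rfl)
    rw [Ideal.span_singleton_le_iff_mem]
    exact hcM
  have hJm : ∀ m : ℕ, J ^ (M + m) ≤ Ideal.span {e} ^ m * J ^ M := by
    intro m
    induction m with
    | zero => simp
    | succ m ih =>
      calc J ^ (M + (m + 1)) = J * J ^ (M + m) := by rw [← add_assoc, pow_succ']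
        _ ≤ J * (Ideal.span {e} ^ m * J ^ M) := Ideal.mul_mono_right ih
        _ = Ideal.span {e} ^ m * J ^ (M + 1) := by rw [pow_succ' J M]; ring
        _ ≤ Ideal.span {e} ^ m * (Ideal.span {e} * J ^ M) := Ideal.mul_mono_right hJM
        _ = Ideal.span {e} ^ (m + 1) * J ^ M := by ring
  refine ⟨M, fun m => ?_⟩
  have h2 : c ^ (M + m) ∈ Ideal.span {e} ^ m * J ^ M := hJm m (Ideal.pow_mem_pow hcJ _)
  have h3 := Ideal.mul_le_left h2
  rw [Ideal.span_singleton_pow, Ideal.mem_span_singleton] at h3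
  exact h3

end Pool.Agent.Helper44.SPL
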