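import Pool.Agent.Helper44.SPL.St5

/-! Module ZAR of project SPL: splinters can be checked Zariski locally. -/

set_option autoImplicit false

namespace Pool.Agent.Helper44.SPL

universe u

namespace ZARaux

theorem surj_loc {S T : Type u} [CommRing S] [CommRing T] [Algebra S T] (M : Submonoid S)
    (h : Function.Surjective (PrimeSpectrum.comap (algebraMap S T))) :
    Function.Surjective (PrimeSpectrum.comap
      (algebraMap (Localization M) (Localization (Algebra.algebraMapSubmonoid T M)))) := by
  intro q
  obtain ⟨P, hP⟩ := h (PrimeSpectrum.comap (algebraMap S (Localization M)) q)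
  have hdis : P ∈ Set.range (PrimeSpectrum.comap
      (algebraMap T (Localization (Algebra.algebraMapSubmonoid T M)))) := by
    rw [PrimeSpectrum.localization_comap_range _ (Algebra.algebraMapSubmonoid T M)]
    change Disjoint (Algebra.algebraMapSubmonoid T M : Set T) (P.asIdeal : Set T)
    rw [Set.disjoint_left]
    rintro x ⟨m, hm, rfl⟩ hx
    have h1 : m ∈ (PrimeSpectrum.comap (algebraMap S T) P).asIdeal := hx
    rw [hP] at h1
    have h2 : algebraMap S (Localization M) m ∈ q.asIdeal := h1
    exact q.2.ne_top (Ideal.eq_top_of_isUnit_mem _ h2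
      (IsLocalization.map_units (Localization M) ⟨m, hm⟩))
  obtain ⟨P', hP'⟩ := hdis
  refine ⟨P', PrimeSpectrum.localization_comap_injective (Localization M) M ?_⟩
  rw [← hP, ← hP']
  ext x
  change algebraMap (Localization M) (Localization (Algebra.algebraMapSubmonoid T M))
      (algebraMap S (Localization M) x) ∈ P'.asIdeal ↔
    algebraMap T (Localization (Algebra.algebraMapSubmonoid T M)) (algebraMap S T x) ∈ P'.asIdeal
  rw [← IsScalarTower.algebraMap_apply, ← IsScalarTower.algebraMap_apply]

theorem local_step {S T : Type u} [CommRing S] [IsNoetherianRing S] [CommRing T] [Algebra S T]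
    [Module.Finite S T] (h : Function.Surjective (PrimeSpectrum.comap (algebraMap S T)))
    (f : S) (hf : IsSplinter (Localization.Away f)) :
    ∃ (n : ℕ) (φ : T →ₗ[S] S), φ 1 = f ^ n := by
  obtain ⟨-, hf⟩ := hf
  have hfin : Module.Finite (Localization.Away f)
      (Localization (Algebra.algebraMapSubmonoid T (Submonoid.powers f))) :=
    Module.Finite.of_isLocalization S T (Submonoid.powers f)
  obtain ⟨ρ, hρ⟩ := hf (Localization (Algebra.algebraMapSubmonoid T (Submonoid.powers f))) hfin
    (surj_loc (Submonoid.powers f) h)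
  have hfp : Module.FinitePresentation S T := Module.finitePresentation_of_finite S T
  obtain ⟨g, hg⟩ : ∃ g : T →ₗ[S] Localization.Away f, g 1 = 1 := by
    refine ⟨(ρ.restrictScalars S).comp
      (Algebra.linearMap T (Localization (Algebra.algebraMapSubmonoid T
        (Submonoid.powers f)))|>.restrictScalars S), ?_⟩
    simp [hρ]
  obtain ⟨φ, s, hφ⟩ := Module.FinitePresentation.exists_lift_of_isLocalizedModule
    (Submonoid.powers f) (Algebra.linearMap S (Localization.Away f)) g
  have h1 := LinearMap.congr_fun hφ 1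
  have h2 : algebraMap S (Localization.Away f) (φ 1) =
      algebraMap S (Localization.Away f) (s : S) := by
    have h3 : (s • g) 1 = algebraMap S (Localization.Away f) (s : S) := by
      rw [LinearMap.smul_apply, hg, Submonoid.smul_def, Algebra.smul_def, mul_one]
    rw [← h3, ← h1]
    rfl
  obtain ⟨c, hc⟩ := (IsLocalization.eq_iff_exists (Submonoid.powers f) _).1 h2
  obtain ⟨k, hk⟩ := c.2
  obtain ⟨l, hl⟩ := s.2
  refine ⟨k + l, f ^ k • φ, ?_⟩
  have hk' : (c : S) = f ^ k := hk.symm
  have hl' : (s : S) = f ^ l := hl.symm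
  rw [LinearMap.smul_apply, smul_eq_mul, pow_add, ← hk', ← hl']
  exact hc

end ZARaux

theorem m_ZAR : StZAR.{u} := by
  intro S _ hS hloc
  refine ⟨hS, fun T _ _ hT hsurj => ?_⟩
  by_cases htop : LinearMap.range (LinearMap.applyₗ (R := S) (M := T) (M₂ := S) (1 : T)) = ⊤
  · have h1 : (1 : S) ∈ LinearMap.range (LinearMap.applyₗ (R := S) (M := T) (M₂ := S) (1 : T)) := by
      rw [htop]
      exact Submodule.mem_top
    obtain ⟨ρ, hρ⟩ := h1
    exact ⟨ρ, hρ⟩
  · exfalso
    obtain ⟨m, hm, hle⟩ := Ideal.exists_le_maximal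
      (LinearMap.range (LinearMap.applyₗ (R := S) (M := T) (M₂ := S) (1 : T)) : Ideal S) htop
    obtain ⟨f, hfm, hf⟩ := hloc m hm
    obtain ⟨n, φ, hφ⟩ := ZARaux.local_step hsurj f hf
    have h2 : f ^ n ∈ m := hle ⟨φ, hφ⟩
    exact hfm (hm.isPrime.mem_of_pow_mem n h2)

end Pool.Agent.Helper44.SPL
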