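import Pool.Agent.Helper44.SPL.Defs

/-!
# Assembly: from DAG, H0, S0 to splinters
-/

set_option autoImplicit false

namespace Pool.Agent.Helper44.SPL

open Polynomial

universe u

/-- A commutative ring `A` is a splinter if it is Noetherian and every finite ring map `A → T`
that is surjective on prime spectra splits as a map of `A`-modules. -/
def IsSplinter (A : Type u) [CommRing A] : Prop :=
  IsNoetherianRing A ∧
    ∀ (T : Type u) [CommRing T] [Algebra A T], Module.Finite A T →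
      Function.Surjective (PrimeSpectrum.comap (algebraMap A T)) →
        ∃ ρ : T →ₗ[A] A, ρ 1 = 1

/-- KR: a linear system that is solvable modulo all powers of `a ∈ 𝔪` is solvable at `𝔪`.
Proof: `I = {ρ x : ρ ∈ Hom(M, R)}` is an ideal; in a presentation of `M` the condition is
`b ∈ im A + a^N R^k` for all `N`; Krull in the finite `R_𝔪`-module `(R^k / im A)_𝔪`. -/
def StKR : Prop := ∀ (R : Type u) [CommRing R] [IsNoetherianRing R] (M : Type u)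
  [AddCommGroup M] [Module R M] [Module.Finite R M] (x : M) (P : Ideal R), P.IsMaximal →
  ∀ a ∈ P, (∀ N : ℕ, ∃ φ : M →ₗ[R] R ⧸ Ideal.span {a ^ N}, φ x = 1) →
  ∃ s : R, s ∉ P ∧ ∃ ρ : M →ₗ[R] R, ρ x = s

/-- SUB1: the module `E / N = T[1/t] / (t T + t⁻¹ T_∞)` and the retraction
`Φ y = ∑ ρ(y t^{-k}) X^k`. -/
def StSUB1 : Prop := ∀ (Ω : Type u) [Field Ω] (R T : Subring Ω), IsNoetherianRing R →
  R ≤ T → ∀ t : Ω, t ∈ T → Transcendental R t →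
  (∃ g : Finset Ω, ∀ x ∈ T, x ∈ Submodule.span (Subring.closure ((R : Set Ω) ∪ {t})) (g : Set Ω)) →
  T ≤ icl ((R : Set Ω) ∪ {t}) →
  ∃ (E N : Submodule R Ω) (g : Finset Ω), N ≤ E ∧ (∀ x ∈ E, ∃ y ∈ N, x - y ∈ Submodule.span R (g : Set Ω)) ∧
    (∀ x ∈ g, x ∈ E) ∧ (1 : Ω) ∈ E ∧ (∀ x ∈ E, x ∈ icl ((R : Set Ω) ∪ {t, t⁻¹})) ∧
    (∀ x ∈ N, ∃ a ∈ icl ((R : Set Ω) ∪ {t}), ∃ b ∈ icl ((R : Set Ω) ∪ {t⁻¹}),
      x = t * a + t⁻¹ * b) ∧
    ∀ ρ : E →ₗ[R] R, (∀ (x : Ω) (h : x ∈ E), x ∈ N → ρ ⟨x, h⟩ = 0) →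
      ∀ h1 : (1 : Ω) ∈ E, ∃ Φ : T → R[X], (∀ x y, Φ (x + y) = Φ x + Φ y) ∧
        (∀ (f : R[X]) (x : T) (h : aeval t f * (x : Ω) ∈ T), Φ ⟨aeval t f * (x : Ω), h⟩ = f * Φ x) ∧
        Φ 1 = C (ρ ⟨1, h1⟩)

/-- SUB2: the maps modulo `p^N` from DAG, H0 and S0, if `R` splits from its finite extensions. -/
def StSUB2 : Prop := ∀ (Ω : Type u) [Field Ω] [IsAlgClosed Ω] [CharZero Ω] (p : ℕ)
  [Fact p.Prime] (R : Subring Ω), IsNoetherianRing R →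
  (∀ (R₂ : Subalgebra R Ω), Module.Finite R R₂ → ∃ ρ : R₂ →ₗ[R] R, ρ 1 = 1) →
  ∀ t : Ω, Transcendental R t → ∀ (E N : Submodule R Ω) (g : Finset Ω), N ≤ E →
  (∀ x ∈ E, ∃ y ∈ N, x - y ∈ Submodule.span R (g : Set Ω)) → (∀ x ∈ g, x ∈ E) →
  (∀ x ∈ E, x ∈ icl ((R : Set Ω) ∪ {t, t⁻¹})) →
  (∀ x ∈ N, ∃ a ∈ icl ((R : Set Ω) ∪ {t}), ∃ b ∈ icl ((R : Set Ω) ∪ {t⁻¹}),
    x = t * a + t⁻¹ * b) →
  ∀ (h1 : (1 : Ω) ∈ E) (k : ℕ), ∃ φ : E →ₗ[R] R ⧸ Ideal.span {(p : R) ^ k},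
    (∀ (x : Ω) (h : x ∈ E), x ∈ N → φ ⟨x, h⟩ = 0) ∧ φ ⟨1, h1⟩ = 1

/-- SUB: the local statement inside `Ω`. From SUB1, SUB2, KR. -/
def StSUB : Prop := ∀ (Ω : Type u) [Field Ω] [IsAlgClosed Ω] [CharZero Ω] (R T : Subring Ω),
  IsNoetherianRing R → R ≤ T → ∀ t : Ω, t ∈ T → Transcendental R t →
  (∃ g : Finset Ω, ∀ x ∈ T, x ∈ Submodule.span (Subring.closure ((R : Set Ω) ∪ {t})) (g : Set Ω)) →
  T ≤ icl ((R : Set Ω) ∪ {t}) →
  (∀ (R₂ : Subalgebra R Ω), Module.Finite R R₂ → ∃ ρ : R₂ →ₗ[R] R, ρ 1 = 1) →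
  ∀ (p : ℕ), p.Prime → ∀ P : Ideal R, P.IsMaximal → (p : R) ∈ P →
  ∃ s : R, s ∉ P ∧ ∃ Φ : T → R[X], (∀ x y, Φ (x + y) = Φ x + Φ y) ∧
    (∀ (f : R[X]) (x : T) (h : aeval t f * (x : Ω) ∈ T), Φ ⟨aeval t f * (x : Ω), h⟩ = f * Φ x) ∧
    Φ 1 = C s

/-- TR: the trace. -/
def StTR : Prop := ∀ (S T : Type u) [CommRing S] [IsDomain S] [IsIntegrallyClosed S]
  [CommRing T] [IsDomain T] [CharZero S] [Algebra S T] [Module.Finite S T],
  Function.Injective (algebraMap S T) → ∃ (d : ℕ) (φ : T →ₗ[S] S), 0 < d ∧ φ 1 = d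

/-- DOM: the case of a domain of characteristic zero. From SUB, TR. -/
def StDOM : Prop := ∀ (R : Type u) [CommRing R] [IsDomain R] [CharZero R], IsSplinter R →
  ∀ (T : Type u) [CommRing T] [IsDomain T] [Algebra R[X] T], Module.Finite R[X] T →
  Function.Injective (algebraMap R[X] T) → ∃ φ : T →ₗ[R[X]] R[X], φ 1 = 1

/-- DEC: a splinter is a finite product of domains: every minimal prime `P` of a splinter `R` is
generated by an idempotent, `R ⧸ P` is a splinter. -/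
def StDEC : Prop := ∀ (R : Type u) [CommRing R], IsSplinter R → ∀ P ∈ minimalPrimes R,
  (∃ e : R, e * e = e ∧ P = Ideal.span {e}) ∧ IsSplinter (R ⧸ P)

/-- MAIN: the theorem. From DOM, DEC and the characteristic `p` theorem of helper47. -/
def StMAIN : Prop := ∀ (R : Type u) [CommRing R], IsSplinter R → IsSplinter R[X]

end Pool.Agent.Helper44.SPL
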