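import Pool.Agent.Helper44.SPL.M_V1
import Pool.Agent.Helper44.SPL.M_INT
import Pool.Agent.Helper44.SPL.M_PW
import Pool.Agent.Helper44.SPL.M_UG
import Pool.Agent.Helper44.SPL.M_U
import Pool.Agent.Helper44.SPL.M_UF
import Pool.Agent.Helper44.SPL.M_EXT
import Pool.Agent.Helper44.SPL.M_MERGE
import Pool.Agent.Helper44.SPL.M_THR
import Pool.Agent.Helper44.SPL.M_CELLSb
import Pool.Agent.Helper44.SPL.M_PF
import Pool.Agent.Helper44.SPL.M_LG
import Pool.Agent.Helper44.SPL.M_TB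
import Pool.Agent.Helper44.SPL.M_TA
import Pool.Agent.Helper44.SPL.M_TC
import Pool.Agent.Helper44.SPL.M_TD
import Pool.Agent.Helper44.SPL.M_TE
import Pool.Agent.Helper44.SPL.M_TILT
import Pool.Agent.Helper44.SPL.M_PA
import Pool.Agent.Helper44.SPL.M_AR
import Pool.Agent.Helper44.SPL.M_LEV
import Pool.Agent.Helper44.SPL.M_CONN
import Pool.Agent.Helper44.SPL.M_HPOL
import Pool.Agent.Helper44.SPL.M_H
import Pool.Agent.Helper44.SPL.M_SEID
import Pool.Agent.Helper44.SPL.M_NI0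
import Pool.Agent.Helper44.SPL.M_NI
import Pool.Agent.Helper44.SPL.M_LI
import Pool.Agent.Helper44.SPL.M_RAD
import Pool.Agent.Helper44.SPL.M_SCALE
import Pool.Agent.Helper44.SPL.M_MU
import Pool.Agent.Helper44.SPL.M_LI2
import Pool.Agent.Helper44.SPL.M_HPM
import Pool.Agent.Helper44.SPL.M_HP
import Pool.Agent.Helper44.SPL.M_S0
import Pool.Agent.Helper44.SPL.M_H0
import Pool.Agent.Helper44.SPL.M_C
import Pool.Agent.Helper44.SPL.M_EV
import Pool.Agent.Helper44.SPL.M_SS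
import Pool.Agent.Helper44.SPL.M_TREE
import Pool.Agent.Helper44.SPL.M_NM
import Pool.Agent.Helper44.SPL.M_NMAP
import Pool.Agent.Helper44.SPL.M_NDEG
import Pool.Agent.Helper44.SPL.M_JL
import Pool.Agent.Helper44.SPL.M_JS
import Pool.Agent.Helper44.SPL.M_J2
import Pool.Agent.Helper44.SPL.M_DIV
import Pool.Agent.Helper44.SPL.M_J3
import Pool.Agent.Helper44.SPL.M_J4
import Pool.Agent.Helper44.SPL.M_JR
import Pool.Agent.Helper44.SPL.M_JT
import Pool.Agent.Helper44.SPL.M_JP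
import Pool.Agent.Helper44.SPL.M_J
import Pool.Agent.Helper44.SPL.M_PL
import Pool.Agent.Helper44.SPL.M_MI
import Pool.Agent.Helper44.SPL.M_R1
import Pool.Agent.Helper44.SPL.M_LOC
import Pool.Agent.Helper44.SPL.M_FIN
import Pool.Agent.Helper44.SPL.M_DAG
import Pool.Agent.Helper44.SPL.M_ET1
import Pool.Agent.Helper44.SPL.M_ET2
import Pool.Agent.Helper44.SPL.M_ET
import Pool.Agent.Helper44.SPL.M_ZAR
import Pool.Agent.Helper44.SPL.M_SM
import Pool.Agent.Helper44.SPL.M_INDP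
import Pool.Agent.Helper44.SPL.M_IND
import Pool.Agent.Helper47.SplMix.Fin

/-!
# Splinters: the chain of the modules
-/

set_option autoImplicit false

namespace Pool.Agent.Helper44.SPL

universe u

theorem c_V1 : StV1.{u} := m_V1
theorem c_INT : StINT.{u} := m_INT
theorem c_PW : StPW.{u} := m_PW
theorem c_UG : StUG.{u} := m_UG c_V1
theorem c_U : StU.{u} := m_U c_UG
theorem c_UF : StUF.{u} := m_UF c_UG
theorem c_EXT : StEXT.{u} := m_EXT c_V1
theorem c_MERGE : StMERGE.{u} := m_MERGE c_UF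
theorem c_THR : StTHR.{u} := m_THR
theorem c_CELLS : StCELLS.{u} := m_CELLSb c_MERGE c_UF
theorem c_PF : StPF.{u} := m_PF c_THR c_CELLS
theorem c_LG : StLG.{u} := m_LG
theorem c_TB : StTB.{u} := m_TB
theorem c_TA : StTA.{u} := m_TA c_TB
theorem c_TC : StTC.{u} := m_TC
theorem c_TD : StTD.{u} := m_TD c_TA c_TB c_TC c_LG
theorem c_TE : StTE.{u} := m_TE
theorem c_TILT : StTILT.{u} := m_TILT c_TC c_TD c_TE
theorem c_PA : StPA.{u} := m_PA c_PF c_TILT
theorem c_AR : StAR.{u} := m_AR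
theorem c_LEV : StLEV.{u} := m_LEV
theorem c_CONN : StCONN.{u} := m_CONN c_AR c_LEV
theorem c_HPOL : StHPOL.{u} := m_HPOL c_INT
theorem c_H : StH.{u} := m_H c_HPOL c_CONN
theorem c_SEID : StSEID.{u} := m_SEID
theorem c_NI0 : StNI0.{u} := m_NI0 c_H
theorem c_NI : StNI.{u} := m_NI c_NI0
theorem c_LI : StLI.{u} := m_LI c_NI c_SEID
theorem c_RAD : StRAD.{u} := m_RAD
theorem c_SCALE : StSCALE.{u} := m_SCALE
theorem c_MU : StMU.{u} := m_MU c_SEID
theorem c_LI2 : StLI2.{u} := m_LI2 c_MU c_LI c_RAD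
theorem c_HPM : StHPM.{u} := m_HPM c_H c_LI c_LI2 c_MU c_RAD c_SCALE c_SEID
theorem c_HP : StHP.{u} := m_HP c_HPM c_SEID
theorem c_S0 : StS0.{u} := m_S0
theorem c_H0 : StH0.{u} := m_H0 c_HPM
theorem c_C : StC.{u} := m_C c_HP
theorem c_EV : StEV.{u} := m_EV
theorem c_SS : StSS.{u} := m_SS c_C c_EV c_EXT c_PA c_U
theorem c_TREE : StTREE.{u} := m_TREE c_SS
theorem c_NM : StNM.{u} := m_NM
theorem c_NMAP : StNMAP.{u} := m_NMAP
theorem c_NDEG : StNDEG.{u} := m_NDEG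
theorem c_JL : StJL.{u} := m_JL
theorem c_JS : StJS.{u} := m_JS
theorem c_J2 : StJ2.{u} := m_J2 c_JS
theorem c_DIV : StDIV.{u} := m_DIV
theorem c_J3 : StJ3.{u} := m_J3 c_NM c_NMAP c_NDEG c_DIV
theorem c_J4 : StJ4.{u} := m_J4 c_NM c_NMAP c_DIV
theorem c_JR : StJR.{u} := m_JR c_JL c_J2 c_J3 c_J4
theorem c_JT : StJT.{u} := m_JT c_JR c_NMAP
theorem c_JP : StJP.{u} := m_JP c_NMAP
theorem c_J : StJ.{u} := m_J c_JT c_JP
theorem c_PL : StPL.{u} := m_PL
theorem c_MI : StMI.{u} := m_MI c_TREE c_H0 c_S0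
theorem c_R1 : StR1.{u} := m_R1 c_V1
theorem c_LOC : StLOC.{u} := m_LOC
theorem c_FIN : StFIN.{u} := m_FIN c_J c_PL c_MI c_R1 c_LOC c_TREE
theorem c_DAG : StDAG.{u} := m_DAG c_FIN c_PW

/-- If `R` is a splinter then `R[x]` is a splinter. -/
theorem c_MAIN : StMAIN.{u} := Pool.Agent.Helper47.SplMix.main_of c_DAG c_H0 c_S0

theorem c_ET1 : StET1.{u} := m_ET1
theorem c_ET2 : StET2.{u} := m_ET2
theorem c_ET : StET.{u} := m_ET c_ET1 c_ET2
theorem c_ZAR : StZAR.{u} := m_ZAR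
theorem c_SM : StSM.{u} := m_SM c_MAIN c_ET c_ZAR
theorem c_INDP : StINDP.{u} := m_INDP
theorem c_IND : StIND.{u} := m_IND c_SM c_INDP

end Pool.Agent.Helper44.SPL
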