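import Mathlib

/-!
# Splinters and polynomial rings in mixed characteristic: definitions

Everything happens inside a fixed algebraically closed field `Ω` of characteristic zero.
-/

set_option autoImplicit false

namespace Pool.Agent.Helper44.SPL

open Polynomial

universe u

section basic

variable {Ω : Type u} [Field Ω]

/-- `icl s`: the integral closure in `Ω` of the subring generated by `s`. -/
noncomputable def icl (s : Set Ω) : Subring Ω :=
  (integralClosure (Subring.closure s) Ω).toSubring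

/-- `A` is integrally closed in `Ω`. -/
def IC (A : Subring Ω) : Prop := icl (A : Set Ω) = A

/-- The nonunits of the subring `A`, as a subset of `Ω`. -/
def nu (A : Subring Ω) : Set Ω := {a | a ∈ A ∧ (a = 0 ∨ a⁻¹ ∉ A)}

/-- The ideal generated by the set `N` in the ring `D` (as a submodule of `Ω`). -/
abbrev ext (N : Set Ω) (D : Subring Ω) : Submodule D Ω := Submodule.span D N

end basic

/-- A homomorphism `ℚ → Ω^*` with `1 ↦ p`: compatible rational powers of `p`. -/
structure RootSys (Ω : Type u) [Field Ω] (p : ℕ) where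
  /-- the power `p ^ s` -/
  pw : ℚ → Ω
  add : ∀ a b, pw (a + b) = pw a * pw b
  one : pw 1 = (p : Ω)

/-- Multiplicative ultrametric seminorms `v : A → [0,1]` with `v ϖ = 1/2`. -/
structure IsMs {A : Type u} [CommRing A] (ϖ : A) (v : A → ℝ) : Prop where
  nonneg : ∀ a, 0 ≤ v a
  zero : v 0 = 0
  one : v 1 = 1
  mul : ∀ a b, v (a * b) = v a * v b
  add : ∀ a b, v (a + b) ≤ max (v a) (v b)
  le_one : ∀ a, v a ≤ 1
  pi : v ϖ = 1 / 2

/-- The `p^k`-th root in a perfect ring of characteristic `p`. -/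
noncomputable def rt (p : ℕ) [Fact p.Prime] {B : Type u} [CommRing B] [CharP B p]
    [PerfectRing B p] (k : ℕ) (b : B) : B :=
  ((frobeniusEquiv B p).symm)^[k] b

/-- The fractions `a / b` with `v a ≤ v b ≠ 0`. -/
def Av {Ω : Type u} [Field Ω] (A : Subring Ω) (v : A → ℝ) : Set Ω :=
  {x | ∃ a b : A, v b ≠ 0 ∧ v a ≤ v b ∧ x = (a : Ω) / (b : Ω)}

/-- the generators of the cell of the sign pattern `s`. -/
def gens {Ω : Type u} [Field Ω] {n : ℕ} (X : Fin n → Ω) (s : Fin n → Bool) (q : Fin n) : Ω :=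
  if s q then X q else (X q)⁻¹

/-- evaluation of a polynomial in two variables: `T ↦ a`, `Z ↦ b`. -/
noncomputable def ev2 {R S : Type u} [CommRing R] [CommRing S] (i : R →+* S) (F : R[X][X])
    (a b : S) : S :=
  (F.map (Polynomial.eval₂RingHom i a)).eval b

/-- rank one valuation subrings of residue characteristic `p`. -/
def Rk1 {Ω : Type u} [Field Ω] (p : ℕ) (W : ValuationSubring Ω) : Prop :=
  ((p : Ω)⁻¹ ∉ W) ∧ (∀ x : Ω, ∃ n : ℕ, (p : Ω) ^ n * x ∈ W) ∧
    (∀ x : Ω, x ∈ W → x⁻¹ ∉ W → ∃ n : ℕ, x ^ n / (p : Ω) ∈ W)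

end Pool.Agent.Helper44.SPL
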