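import Pool.Agent.Helper44.SPL.St4

/-!
# SPL, module DEC: a splinter is a finite product of domains
-/

set_option autoImplicit false

namespace Pool.Agent.Helper44.SPL

open Polynomial

universe u

namespace DECaux

variable {R : Type u} [CommRing R]

/-- a prime which contains `I` comes from the quotient by `I` -/
lemma lift_prime (I : Ideal R) (q : PrimeSpectrum R) (h : I ≤ q.asIdeal) :
    ∃ x : PrimeSpectrum (R ⧸ I), PrimeSpectrum.comap (Ideal.Quotient.mk I) x = q := by
  have h1 : q ∈ Set.range (PrimeSpectrum.comap (Ideal.Quotient.mk I)) := by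
    rw [range_comap_of_surjective _ _ Ideal.Quotient.mk_surjective,
      PrimeSpectrum.mem_zeroLocus, Ideal.mk_ker]
    exact h
  exact h1

/-- a splinter splits from the product of its quotients by the minimal primes -/
lemma split_prod (hR : IsSplinter R) :
    ∃ ρ : (∀ p : minimalPrimes R, R ⧸ p.1) →ₗ[R] R, ρ 1 = 1 := by
  have hN : IsNoetherianRing R := hR.1
  have hfin : Finite (minimalPrimes R) := (minimalPrimes.finite_of_isNoetherianRing R).to_subtype
  refine hR.2 (∀ p : minimalPrimes R, R ⧸ p.1) inferInstance fun q => ?_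
  obtain ⟨p, hp, hpq⟩ := Ideal.exists_minimalPrimes_le (I := (⊥ : Ideal R)) (J := q.asIdeal) bot_le
  obtain ⟨x, hx⟩ := lift_prime p q hpq
  refine ⟨PrimeSpectrum.comap (Pi.evalRingHom (fun p : minimalPrimes R => R ⧸ p.1) ⟨p, hp⟩) x, ?_⟩
  rw [← PrimeSpectrum.comap_comp_apply]
  exact hx

/-- every minimal prime of a splinter is generated by an idempotent -/
lemma idem (hR : IsSplinter R) (P : Ideal R) (hP : P ∈ minimalPrimes R) :
    ∃ e : R, e * e = e ∧ P = Ideal.span {e} := by
  classical
  have hN : IsNoetherianRing R := hR.1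
  have hfin : Finite (minimalPrimes R) := (minimalPrimes.finite_of_isNoetherianRing R).to_subtype
  let _ : Fintype (minimalPrimes R) := Fintype.ofFinite _
  obtain ⟨ρ, hρ⟩ := split_prod hR
  set ε : ∀ _ : minimalPrimes R, (∀ p : minimalPrimes R, R ⧸ p.1) := fun p => Pi.single p 1 with hε
  have hsum : ∑ p, ρ (ε p) = 1 := by
    rw [← map_sum, ← hρ]
    congr 1
    funext q
    rw [Finset.sum_apply, Finset.sum_eq_single q]
    · rw [hε]
      simp
    · intro b _ hb
      rw [hε]
      simp [Ne.symm hb]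
    · intro h
      exact absurd (Finset.mem_univ q) h
  have hkill : ∀ p : minimalPrimes R, ∀ a ∈ p.1, a * ρ (ε p) = 0 := by
    intro p a ha
    rw [← smul_eq_mul, ← map_smul]
    have : a • ε p = 0 := by
      funext q
      rw [hε]
      by_cases hq : q = p
      · subst hq
        simp only [Pi.smul_apply, Pi.single_eq_same, Pi.zero_apply]
        rw [Algebra.smul_def, mul_one]
        exact Ideal.Quotient.eq_zero_iff_mem.2 ha
      · simp [hq]
    rw [this, map_zero]
  have hprime : ∀ p : minimalPrimes R, p.1.IsPrime := fun p => p.2.1.1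
  have hmem : ∀ p q : minimalPrimes R, p ≠ q → ρ (ε p) ∈ q.1 := by
    intro p q hpq
    have hle : ¬ p.1 ≤ q.1 := by
      intro h
      exact hpq (Subtype.ext (le_antisymm h (q.2.2 p.2.1 h)))
    obtain ⟨a, ha, haq⟩ := Set.not_subset.1 hle
    have h1 : a * ρ (ε p) ∈ q.1 := by
      rw [hkill p a ha]
      exact q.1.zero_mem
    exact ((hprime q).mem_or_mem h1).resolve_left haq
  set e0 := ρ (ε ⟨P, hP⟩) with he0
  have h1 : 1 - e0 ∈ P := by
    have : 1 - e0 = ∑ p ∈ Finset.univ.erase (⟨P, hP⟩ : minimalPrimes R), ρ (ε p) := by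
      rw [← hsum, ← Finset.add_sum_erase _ _ (Finset.mem_univ (⟨P, hP⟩ : minimalPrimes R)), he0]
      ring
    rw [this]
    exact P.sum_mem fun p hp => hmem p ⟨P, hP⟩ (Finset.ne_of_mem_erase hp)
  have h2 : ∀ a ∈ P, a * e0 = 0 := fun a ha => hkill ⟨P, hP⟩ a ha
  have h3 : (1 - e0) * e0 = 0 := h2 _ h1
  refine ⟨1 - e0, ?_, ?_⟩
  · linear_combination -h3
  · apply le_antisymm
    · intro a ha
      rw [Ideal.mem_span_singleton']
      exact ⟨a, by linear_combination -(h2 a ha)⟩
    · rw [Ideal.span_singleton_le_iff_mem]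
      exact h1

/-- the quotient of a splinter by an idempotent is a splinter -/
lemma quot (hR : IsSplinter R) (P : Ideal R) (e : R) (he : e * e = e) (hP : P = Ideal.span {e}) :
    IsSplinter (R ⧸ P) := by
  have hN : IsNoetherianRing R := hR.1
  refine ⟨inferInstance, ?_⟩
  intro T _ _ hT hsurj
  let algT : Algebra R T := ((algebraMap (R ⧸ P) T).comp (Ideal.Quotient.mk P)).toAlgebra
  have htow : IsScalarTower R (R ⧸ P) T := IsScalarTower.of_algebraMap_eq fun x => rfl
  have hfin : Module.Finite R T := Module.Finite.trans (R ⧸ P) T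
  have heP : e ∈ P := by
    rw [hP]
    exact Ideal.mem_span_singleton_self e
  have hspec : Function.Surjective
      (PrimeSpectrum.comap (algebraMap R (T × (R ⧸ Ideal.span {1 - e})))) := by
    intro q
    have h0 : e * (1 - e) ∈ q.asIdeal := by
      have : e * (1 - e) = 0 := by linear_combination -he
      rw [this]
      exact q.asIdeal.zero_mem
    rcases q.2.mem_or_mem h0 with h | h
    · obtain ⟨x, hx⟩ := lift_prime P q (by
        rw [hP, Ideal.span_singleton_le_iff_mem]
        exact h)
      obtain ⟨y, hy⟩ := hsurj x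
      refine ⟨PrimeSpectrum.comap (RingHom.fst T (R ⧸ Ideal.span {1 - e})) y, ?_⟩
      rw [← PrimeSpectrum.comap_comp_apply]
      have : (RingHom.fst T (R ⧸ Ideal.span {1 - e})).comp
          (algebraMap R (T × (R ⧸ Ideal.span {1 - e}))) =
          (algebraMap (R ⧸ P) T).comp (Ideal.Quotient.mk P) := rfl
      rw [this, PrimeSpectrum.comap_comp_apply, hy, hx]
    · obtain ⟨x, hx⟩ := lift_prime (Ideal.span {1 - e}) q (by
        rw [Ideal.span_singleton_le_iff_mem]
        exact h)
      refine ⟨PrimeSpectrum.comap (RingHom.snd T (R ⧸ Ideal.span {1 - e})) x, ?_⟩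
      rw [← PrimeSpectrum.comap_comp_apply]
      exact hx
  obtain ⟨ρ, hρ⟩ := hR.2 (T × (R ⧸ Ideal.span {1 - e})) inferInstance hspec
  have hsm : ∀ (r : R) (t : T), (Ideal.Quotient.mk P r) • t = r • t := fun r t =>
    (algebraMap_smul (R ⧸ P) r t)
  refine ⟨{ toFun := fun t => Ideal.Quotient.mk P (ρ (t, 0))
            map_add' := ?_
            map_smul' := ?_ }, ?_⟩
  · intro x y
    rw [← map_add, ← map_add, Prod.mk_add_mk, add_zero]
  · intro c t
    obtain ⟨r, rfl⟩ := Ideal.Quotient.mk_surjective c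
    have h1 : ((Ideal.Quotient.mk P r) • t, (0 : R ⧸ Ideal.span {1 - e})) =
        r • ((t, 0) : T × (R ⧸ Ideal.span {1 - e})) := by
      rw [hsm]
      ext
      · rfl
      · simp
    rw [h1, map_smul, smul_eq_mul, map_mul, RingHom.id_apply, smul_eq_mul]
  · show Ideal.Quotient.mk P (ρ (1, 0)) = 1
    have h1 : ρ (1, 0) + ρ (0, 1) = 1 := by
      rw [← map_add, Prod.mk_add_mk, add_zero, zero_add]
      exact hρ
    have h2 : (1 - e) * ρ (0, 1) = 0 := by
      rw [← smul_eq_mul, ← map_smul]
      have h3 : (1 - e) • ((0, 1) : T × (R ⧸ Ideal.span {1 - e})) = 0 := by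
        ext
        · simp
        · show (1 - e) • (1 : R ⧸ Ideal.span {1 - e}) = 0
          rw [Algebra.smul_def, mul_one]
          exact Ideal.Quotient.eq_zero_iff_mem.2 (Ideal.mem_span_singleton_self _)
      rw [h3, map_zero]
    have h3 : ρ (0, 1) ∈ P := by
      have : ρ (0, 1) = ρ (0, 1) * e := by linear_combination h2
      rw [this]
      exact P.mul_mem_left _ heP
    have h4 := congrArg (Ideal.Quotient.mk P) h1
    rw [map_add, Ideal.Quotient.eq_zero_iff_mem.2 h3, add_zero, map_one] at h4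
    exact h4

end DECaux

theorem m_DEC : StDEC.{u} := by
  intro R _ hR P hP
  obtain ⟨e, he, hPe⟩ := DECaux.idem hR P hP
  exact ⟨⟨e, he, hPe⟩, DECaux.quot hR P e he hPe⟩

end Pool.Agent.Helper44.SPL
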