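import Pool.Agent.Helper44.SPL.St5

/-! Module INDP of project SPL: descent of a finite algebra to a polynomial ring. -/

set_option autoImplicit false

namespace Pool.Agent.Helper44.SPL

open Polynomial TensorProduct

universe u

namespace INDP

/-- lifting of one monic polynomial. -/
theorem lift_monic {P S : Type u} [CommRing P] [CommRing S] (c : P →+* S) (m : S[X])
    (hm : m.Monic) (h : ∀ n, m.coeff n ∈ Set.range c) : ∃ m' : P[X], m'.Monic ∧ m'.map c = m := by
  obtain ⟨q, h1, -, h3⟩ := lifts_and_natDegree_eq_and_monic ((lifts_iff_coeff_lifts m).2 h) hm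
  exact ⟨q, h3, h1⟩

/-- a polynomial ring over `R` with a map to `S` whose range contains a given finite set. -/
theorem exists_poly {R S : Type u} [CommRing R] [CommRing S] [Algebra R S] (s : Finset S) :
    ∃ (N : ℕ) (c : MvPolynomial (Fin N) R →ₐ[R] S), ∀ x ∈ s, x ∈ Set.range c := by
  classical
  refine ⟨s.card, MvPolynomial.aeval (fun i => (s.equivFin.symm i : S)), fun x hx => ?_⟩
  refine ⟨MvPolynomial.X (s.equivFin ⟨x, hx⟩), ?_⟩
  simp

/-- the main construction, for a given map `c : P → S`. -/
theorem main {P S T : Type u} [CommRing P] [CommRing S] [CommRing T] [Algebra S T]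
    (c : P →+* S) (n : ℕ) (π : MvPolynomial (Fin n) S →ₐ[S] T) (hπ : Function.Surjective π)
    (s : Set (MvPolynomial (Fin n) P)) (hs : Ideal.span (MvPolynomial.map c '' s) = RingHom.ker π)
    (m : Fin n → P[X]) (hm : ∀ i, (m i).Monic)
    (hms : ∀ i, aeval (MvPolynomial.X i : MvPolynomial (Fin n) P) (m i) ∈ s) :
    ∃ (T' : Type u) (_ : CommRing T') (_ : Algebra P T') (g : T' →+* T),
    Module.Finite P T' ∧
    (∀ x, g (algebraMap _ T' x) = algebraMap S T (c x)) ∧
    (∀ (M : Type u) [AddCommGroup M] [Module S M] (φ : T' →+ M),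
      (∀ x y, φ (x • y) = c x • φ y) → ∃ ψ : T →ₗ[S] M, ∀ y, ψ (g y) = φ y) := by
  classical
  have hker : ∀ a ∈ Ideal.span s, (π : MvPolynomial (Fin n) S →+* T).comp (MvPolynomial.map c) a = 0 := by
    intro a ha
    have h1 : Ideal.span s ≤ Ideal.comap (MvPolynomial.map c) (RingHom.ker π) := by
      rw [Ideal.span_le, ← hs]
      intro x hx
      exact Ideal.subset_span ⟨x, hx, rfl⟩
    exact h1 ha
  refine ⟨MvPolynomial (Fin n) P ⧸ Ideal.span s, inferInstance, inferInstance,
    Ideal.Quotient.lift (Ideal.span s)
      ((π : MvPolynomial (Fin n) S →+* T).comp (MvPolynomial.map c)) hker, ?_, ?_, ?_⟩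
  · -- finiteness
    have hft : Algebra.FiniteType P (MvPolynomial (Fin n) P ⧸ Ideal.span s) :=
      Algebra.FiniteType.of_surjective (Ideal.Quotient.mkₐ P (Ideal.span s))
        (Ideal.Quotient.mkₐ_surjective P _)
    have hX : ∀ i : Fin n, IsIntegral P (Ideal.Quotient.mkₐ P (Ideal.span s) (MvPolynomial.X i)) := by
      intro i
      refine ⟨m i, hm i, ?_⟩
      rw [← aeval_def, aeval_algHom_apply]
      exact Ideal.Quotient.eq_zero_iff_mem.2 (Ideal.subset_span (hms i))
    have hint : Algebra.IsIntegral P (MvPolynomial (Fin n) P ⧸ Ideal.span s) := by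
      refine ⟨fun x => ?_⟩
      obtain ⟨y, rfl⟩ := Ideal.Quotient.mkₐ_surjective P (Ideal.span s) x
      induction y using MvPolynomial.induction_on with
      | C a => exact isIntegral_algebraMap
      | add p q hp hq => rw [map_add]; exact hp.add hq
      | mul_X p i hp => rw [map_mul]; exact hp.mul (hX i)
    exact Algebra.IsIntegral.finite
  · intro x
    have : algebraMap P (MvPolynomial (Fin n) P ⧸ Ideal.span s) x
        = Ideal.Quotient.mk (Ideal.span s) (MvPolynomial.C x) := rfl
    rw [this, Ideal.Quotient.lift_mk]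
    simp only [RingHom.comp_apply, MvPolynomial.map_C]
    exact π.commutes (c x)
  · intro M _ _ φ hφ
    set ψ₀ : MvPolynomial (Fin n) S →ₗ[S] M := (MvPolynomial.basisMonomials (Fin n) S).constr S
      (fun k => φ (Ideal.Quotient.mk (Ideal.span s) (MvPolynomial.monomial k 1))) with hψ₀
    have hmon : ∀ k, ψ₀ (MvPolynomial.monomial k 1)
        = φ (Ideal.Quotient.mk (Ideal.span s) (MvPolynomial.monomial k 1)) := by
      intro k
      have := (MvPolynomial.basisMonomials (Fin n) S).constr_basis S
        (fun k => φ (Ideal.Quotient.mk (Ideal.span s) (MvPolynomial.monomial k 1))) k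
      rwa [MvPolynomial.coe_basisMonomials] at this
    have hA : ∀ F : MvPolynomial (Fin n) P,
        ψ₀ (MvPolynomial.map c F) = φ (Ideal.Quotient.mk (Ideal.span s) F) := by
      intro F
      induction F using MvPolynomial.induction_on' with
      | monomial k a =>
        have h1 : (MvPolynomial.monomial k (c a) : MvPolynomial (Fin n) S)
            = c a • MvPolynomial.monomial k 1 := by
          rw [MvPolynomial.smul_monomial, smul_eq_mul, mul_one]
        have h2 : Ideal.Quotient.mk (Ideal.span s) (MvPolynomial.monomial k a)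
            = a • Ideal.Quotient.mk (Ideal.span s) (MvPolynomial.monomial k 1) := by
          have h3 : (MvPolynomial.monomial k a : MvPolynomial (Fin n) P)
            = a • MvPolynomial.monomial k 1 := by
            rw [MvPolynomial.smul_monomial, smul_eq_mul, mul_one]
          rw [h3]
          rfl
        rw [MvPolynomial.map_monomial, h1, map_smul, hmon, h2, hφ]
      | add p q hp hq => simp only [map_add, hp, hq]
    have hQ : ∀ x ∈ Ideal.span (MvPolynomial.map c '' s),
        ∀ q : MvPolynomial (Fin n) S, ψ₀ (q * x) = 0 := by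
      intro x hx
      induction hx using Submodule.span_induction with
      | mem x h =>
        obtain ⟨r, hr, rfl⟩ := h
        intro q
        induction q using MvPolynomial.induction_on' with
        | monomial k a =>
          have h1 : MvPolynomial.monomial k a * MvPolynomial.map c r
              = a • MvPolynomial.map c (MvPolynomial.monomial k 1 * r) := by
            rw [map_mul, MvPolynomial.map_monomial, map_one, ← smul_mul_assoc,
              MvPolynomial.smul_monomial, smul_eq_mul, mul_one]
          have h2 : Ideal.Quotient.mk (Ideal.span s) (MvPolynomial.monomial k 1 * r) = 0 :=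
            Ideal.Quotient.eq_zero_iff_mem.2 (Ideal.mul_mem_left _ _ (Ideal.subset_span hr))
          rw [h1, map_smul, hA, h2, map_zero, smul_zero]
        | add p q hp hq => rw [add_mul, map_add, hp, hq, add_zero]
      | zero => intro q; rw [mul_zero, map_zero]
      | add x y _ _ hx hy => intro q; rw [mul_add, map_add, hx, hy, add_zero]
      | smul a x _ hx => intro q; rw [smul_eq_mul, ← mul_assoc]; exact hx _
    have hB : LinearMap.ker π.toLinearMap ≤ LinearMap.ker ψ₀ := by
      intro x hx
      have h1 : x ∈ Ideal.span (MvPolynomial.map c '' s) := by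
        rw [hs]
        exact hx
      have h2 := hQ x h1 1
      rwa [one_mul] at h2
    refine ⟨(Submodule.liftQ _ ψ₀ hB).comp
      (LinearMap.quotKerEquivOfSurjective π.toLinearMap hπ).symm.toLinearMap, fun y => ?_⟩
    obtain ⟨F, rfl⟩ := Ideal.Quotient.mk_surjective y
    rw [Ideal.Quotient.lift_mk, ← hA F]
    have h1 : (LinearMap.quotKerEquivOfSurjective π.toLinearMap hπ).symm
        (π (MvPolynomial.map c F)) = Submodule.Quotient.mk (MvPolynomial.map c F) := by
      rw [LinearEquiv.symm_apply_eq]
      rfl
    have h2 : ((π : MvPolynomial (Fin n) S →+* T).comp (MvPolynomial.map c)) F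
        = π (MvPolynomial.map c F) := rfl
    rw [h2, LinearMap.comp_apply, LinearEquiv.coe_coe, h1, Submodule.liftQ_apply]

end INDP

theorem m_INDP : StINDP.{u} := by
  intro R S T _ _ _ _ _ hN hfin
  classical
  have hft : Algebra.FiniteType S T := inferInstance
  obtain ⟨n, π, hπ⟩ := Algebra.FiniteType.iff_quotient_mvPolynomial''.1 hft
  have hint : ∀ i : Fin n, IsIntegral S (π (MvPolynomial.X i)) := fun i =>
    Algebra.IsIntegral.isIntegral _
  choose m hm hm0 using hint
  have hfg : (RingHom.ker π).FG := (isNoetherianRing_iff_ideal_fg _).1 inferInstance _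
  obtain ⟨s, hs⟩ := hfg
  -- the finite set of all coefficients
  obtain ⟨N, c, hc⟩ := INDP.exists_poly (R := R)
    (s.biUnion (fun f => f.coeffs) ∪ Finset.univ.biUnion (fun i : Fin n => (m i).coeffs) ∪ {0})
  have hcs : ∀ f ∈ s, ∃ f' : MvPolynomial (Fin n) (MvPolynomial (Fin N) R),
      MvPolynomial.map (c : MvPolynomial (Fin N) R →+* S) f' = f := by
    intro f hf
    have := (MvPolynomial.mem_range_map_iff_coeffs_subset
      (f := (c : MvPolynomial (Fin N) R →+* S)) (x := f)).2 (fun a ha => by
        apply hc
        simp only [Finset.mem_union, Finset.mem_biUnion]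
        exact Or.inl (Or.inl ⟨f, hf, ha⟩))
    exact this
  have hcm : ∀ i, ∃ m' : (MvPolynomial (Fin N) R)[X], m'.Monic ∧
      m'.map (c : MvPolynomial (Fin N) R →+* S) = m i := by
    intro i
    refine INDP.lift_monic _ _ (hm i) fun k => ?_
    apply hc
    by_cases hk : (m i).coeff k = 0
    · simp [hk]
    · simp only [Finset.mem_union, Finset.mem_biUnion]
      exact Or.inl (Or.inr ⟨i, Finset.mem_univ _, coeff_mem_coeffs hk⟩)
  choose! L hL using hcs
  choose m' hm' hmm using hcm
  have hmap : ∀ i, MvPolynomial.map (c : MvPolynomial (Fin N) R →+* S)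
      (aeval (MvPolynomial.X i : MvPolynomial (Fin n) (MvPolynomial (Fin N) R)) (m' i))
      = aeval (MvPolynomial.X i : MvPolynomial (Fin n) S) (m i) := by
    intro i
    rw [← hmm i, aeval_def, hom_eval₂, aeval_def, eval₂_map, MvPolynomial.map_X]
    congr 1
    ext x
    · simp
    · simp
  obtain ⟨T', i1, i2, g, h1, h2, h3⟩ := INDP.main (c : MvPolynomial (Fin N) R →+* S) n π hπ
    (L '' (s : Set (MvPolynomial (Fin n) S)) ∪ Set.range (fun i =>
      aeval (MvPolynomial.X i : MvPolynomial (Fin n) (MvPolynomial (Fin N) R)) (m' i))) (by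
      apply le_antisymm
      · rw [Ideal.span_le]
        rintro _ ⟨x, hx, rfl⟩
        rcases hx with ⟨f, hf, rfl⟩ | ⟨i, rfl⟩
        · rw [hL f hf, ← hs]
          exact Ideal.subset_span hf
        · rw [hmap i]
          show π _ = 0
          rw [← aeval_algHom_apply]
          exact hm0 i
      · rw [← hs, Ideal.span_le]
        intro f hf
        apply Ideal.subset_span
        exact ⟨L f, Or.inl ⟨f, hf, rfl⟩, hL f hf⟩) m' hm' (fun i => Or.inr ⟨i, rfl⟩)
  exact ⟨N, c, T', i1, i2, g, h1, h2, h3⟩

end Pool.Agent.Helper44.SPL
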