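import Pool.Agent.Helper44.SPL.St3
import Pool.Agent.Helper93.SPL.LamBase

/-!
# Module JP: the local analysis at a valuation subring
-/

set_option autoImplicit false

namespace Pool.Agent.Helper44.SPL

open Polynomial

universe u

section JPpf

variable {L : Type u} [Field L]

/-- a power series with `N * S = B`, `N(0) = 1`, `N` and `B` over the subring `P`, is over `P` -/
theorem JP_ps (P : Subring L) (N B S : PowerSeries L) (h : N * S = B)
    (h0 : PowerSeries.coeff 0 N = 1) (hN : ∀ k, PowerSeries.coeff k N ∈ P)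
    (hB : ∀ k, PowerSeries.coeff k B ∈ P) : ∀ k, PowerSeries.coeff k S ∈ P := by
  intro k
  induction k using Nat.strong_induction_on with
  | _ k ih =>
    have h1 := congrArg (PowerSeries.coeff k) h
    rw [PowerSeries.coeff_mul, Finset.Nat.sum_antidiagonal_eq_sum_range_succ_mk,
      Finset.sum_range_succ'] at h1
    simp only [tsub_zero, h0, one_mul] at h1
    have h2 : PowerSeries.coeff k S = PowerSeries.coeff k B -
        ∑ i ∈ Finset.range k, PowerSeries.coeff (i + 1) N * PowerSeries.coeff (k - (i + 1)) S := by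
      rw [← h1]; ring
    rw [h2]
    refine P.sub_mem (hB k) (P.sum_mem fun i hi => P.mul_mem (hN _) (ih _ ?_))
    have := Finset.mem_range.mp hi
    omega

/-- the geometric series -/
theorem JP_geom (a : L) : ((1 - C a * X : L[X]) : PowerSeries L) *
    PowerSeries.mk (fun k => a ^ k) = 1 := by
  ext k
  rcases k with _ | k
  · simp
  · have : ((1 - C a * X : L[X]) : PowerSeries L) = 1 - PowerSeries.C a * PowerSeries.X := by
      simp
    rw [this, sub_mul, one_mul, mul_assoc, map_sub, PowerSeries.coeff_mk,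
      PowerSeries.coeff_C_mul, PowerSeries.coeff_succ_X_mul, PowerSeries.coeff_mk, pow_succ]
    simp [PowerSeries.coeff_one]
    ring

theorem JP_unit (P : ValuationSubring L) {a b : L} (ha : a ∈ P) (hb : b ∉ P) :
    ∃ u : P, (u : L) * (1 - a * b⁻¹) = 1 := by
  have h1 : P.valuation (a * b⁻¹) < 1 := by
    rw [map_mul, map_inv₀]
    have hb1 : 1 < P.valuation b := by
      rw [← not_le, P.valuation_le_one_iff]; exact hb
    have ha1 := (P.valuation_le_one_iff a).mpr ha
    calc P.valuation a * (P.valuation b)⁻¹ ≤ 1 * (P.valuation b)⁻¹ :=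
          mul_le_mul_left ha1 _
      _ < 1 := by rw [one_mul]; exact inv_lt_one_of_one_lt₀ hb1
  have h2 : P.valuation (1 - a * b⁻¹) = 1 := Valuation.map_one_sub_of_lt _ h1
  refine ⟨⟨(1 - a * b⁻¹)⁻¹, ?_⟩, ?_⟩
  · rw [← P.valuation_le_one_iff, map_inv₀, h2, inv_one]
  · apply inv_mul_cancel₀
    intro h3
    rw [h3, map_zero] at h2
    exact zero_ne_one h2

theorem JP_pf (P : ValuationSubring L) {I : Type} [Fintype I] [DecidableEq I]
    (t y : I → L) (Λ : L[X]) (E : P[X]) (s : Finset I)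
    (hnear : ∀ i ∉ s, t i ∈ P) (hfar : ∀ i ∈ s, t i ∉ P)
    (hE : E.map P.subtype =
     (∏ i ∈ s, (1 - C (t i)⁻¹ * X)) *
      (∑ i ∈ sᶜ, C (y i) * ∏ j ∈ sᶜ.erase i, (X - C (t j))) +
     (∏ i ∈ sᶜ, (X - C (t i))) * ((∏ i ∈ s, (1 - C (t i)⁻¹ * X)) * Λ -
       ∑ i ∈ s, C (y i * (t i)⁻¹) * ∏ j ∈ s.erase i, (1 - C (t j)⁻¹ * X))) :
    ∀ k, Λ.coeff k - ∑ i ∈ s, y i / (t i) ^ (k + 1) ∈ P := by
  classical
  -- the polynomials over `P`
  have hmem : ∀ i ∈ s, (t i)⁻¹ ∈ P := fun i hi =>
    (P.mem_or_inv_mem (t i)).resolve_left (hfar i hi)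
  have hne : ∀ i ∈ s, t i ≠ 0 := fun i hi h => hfar i hi (by rw [h]; exact P.zero_mem)
  let t₁ : I → P := fun i => if h : t i ∈ P then ⟨t i, h⟩ else 0
  let t₂ : I → P := fun i => if h : (t i)⁻¹ ∈ P then ⟨(t i)⁻¹, h⟩ else 0
  have ht₁ : ∀ i ∉ s, (t₁ i : L) = t i := fun i hi => by
    simp only [t₁]; rw [dif_pos (hnear i hi)]
  have ht₂ : ∀ i ∈ s, (t₂ i : L) = (t i)⁻¹ := fun i hi => by
    simp only [t₂]; rw [dif_pos (hmem i hi)]
  let N₁ : P[X] := ∏ i ∈ sᶜ, (X - C (t₁ i))
  let N₂ : P[X] := ∏ i ∈ s, (1 - C (t₂ i) * X)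
  have hN₁ : N₁.map P.subtype = ∏ i ∈ sᶜ, (X - C (t i)) := by
    simp only [N₁]
    rw [Polynomial.map_prod]
    refine Finset.prod_congr rfl fun i hi => ?_
    rw [Polynomial.map_sub, map_X, map_C, ValuationSubring.subtype_apply,
      ht₁ i (Finset.mem_compl.mp hi)]
  have hN₂ : N₂.map P.subtype = ∏ i ∈ s, (1 - C (t i)⁻¹ * X) := by
    simp only [N₂]
    rw [Polynomial.map_prod]
    refine Finset.prod_congr rfl fun i hi => ?_
    rw [Polynomial.map_sub, Polynomial.map_one, Polynomial.map_mul, map_X, map_C,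
      ValuationSubring.subtype_apply, ht₂ i hi]
  have hN₁m : N₁.Monic := monic_prod_of_monic _ _ fun i _ => monic_X_sub_C _
  have hcop : IsCoprime N₁ N₂ := by
    refine IsCoprime.prod_left fun i hi => IsCoprime.prod_right fun j hj => ?_
    have hi' := Finset.mem_compl.mp hi
    obtain ⟨u, hu⟩ := JP_unit P (hnear i hi') (hfar j hj)
    refine ⟨C (u * t₂ j), C u, ?_⟩
    have hu' : u * (1 - t₁ i * t₂ j) = 1 := by
      apply Subtype.ext
      push_cast
      rw [ht₁ i hi', ht₂ j hj]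
      exact hu
    calc C (u * t₂ j) * (X - C (t₁ i)) + C u * (1 - C (t₂ j) * X)
        = C (u * (1 - t₁ i * t₂ j)) := by
          simp only [map_mul, map_sub, map_one]; ring
      _ = 1 := by rw [hu', map_one]
  obtain ⟨U, V, hUV⟩ := hcop
  -- partial fractions of `E`
  set A₁ : P[X] := (E * V) %ₘ N₁ with hA₁
  set Q : P[X] := (E * V) /ₘ N₁ with hQ
  set A₂ : P[X] := E * U + Q * N₂ with hA₂
  have hEA : E = A₁ * N₂ + N₁ * A₂ := by
    have h1 : A₁ + N₁ * Q = E * V := modByMonic_add_div (E * V) N₁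
    calc E = E * (U * N₁ + V * N₂) := by rw [hUV, mul_one]
      _ = E * U * N₁ + (E * V) * N₂ := by ring
      _ = E * U * N₁ + (A₁ + N₁ * Q) * N₂ := by rw [h1]
      _ = A₁ * N₂ + N₁ * A₂ := by rw [hA₂]; ring
  set B₁ : L[X] := ∑ i ∈ sᶜ, C (y i) * ∏ j ∈ sᶜ.erase i, (X - C (t j)) with hB₁
  set B₂ : L[X] := (∏ i ∈ s, (1 - C (t i)⁻¹ * X)) * Λ -
       ∑ i ∈ s, C (y i * (t i)⁻¹) * ∏ j ∈ s.erase i, (1 - C (t j)⁻¹ * X) with hB₂
  have hdeg1 : A₁.degree < N₁.degree := degree_modByMonic_lt _ hN₁m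
  have hinj : Function.Injective P.subtype := Subtype.val_injective
  have hdeg1' : (A₁.map P.subtype).degree < (N₁.map P.subtype).degree := by
    rw [degree_map_eq_of_injective hinj, degree_map_eq_of_injective hinj]; exact hdeg1
  have hN₁m' : (N₁.map P.subtype).Monic := hN₁m.map _
  have hdegN : (N₁.map P.subtype).degree = sᶜ.card := by
    rw [hN₁, degree_prod]
    simp
  have hdegB : B₁.degree < (N₁.map P.subtype).degree := by
    rw [hdegN]
    refine (degree_sum_le _ _).trans_lt ?_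
    rw [Finset.sup_lt_iff (WithBot.bot_lt_coe _)]
    intro i hi
    have h0 : (∏ j ∈ sᶜ.erase i, (X - C (t j)) : L[X]).degree = ((sᶜ.erase i).card : ℕ) := by
      rw [degree_prod]
      simp
    refine lt_of_le_of_lt (b := ((sᶜ.erase i).card : WithBot ℕ)) ?_ ?_
    · by_cases hy : y i = 0
      · rw [hy, C_0, zero_mul, degree_zero]; exact bot_le
      · rw [degree_C_mul hy, h0]
    · exact_mod_cast Finset.card_erase_lt_of_mem hi
  have key : (A₁.map P.subtype) = B₁ := by
    have h1 : (N₁.map P.subtype) ∣ (A₁.map P.subtype - B₁) := by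
      have h2 : IsCoprime (N₁.map P.subtype) (N₂.map P.subtype) := by
        refine ⟨U.map P.subtype, V.map P.subtype, ?_⟩
        rw [← Polynomial.map_mul, ← Polynomial.map_mul, ← Polynomial.map_add, hUV,
          Polynomial.map_one]
      refine h2.dvd_of_dvd_mul_left (z := A₁.map P.subtype - B₁) ?_
      have h3 := congrArg (Polynomial.map P.subtype) hEA
      rw [Polynomial.map_add, Polynomial.map_mul, Polynomial.map_mul, hE, ← hN₂, ← hN₁] at h3
      exact ⟨B₂ - A₂.map P.subtype, by linear_combination -h3⟩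
    have h4 := Polynomial.eq_zero_of_dvd_of_degree_lt h1
      ((degree_sub_le _ _).trans_lt (max_lt hdeg1' hdegB))
    exact sub_eq_zero.mp h4
  have key2 : A₂.map P.subtype = B₂ := by
    have h3 := congrArg (Polynomial.map P.subtype) hEA
    rw [Polynomial.map_add, Polynomial.map_mul, Polynomial.map_mul, hE, ← hN₂, ← hN₁, key] at h3
    apply mul_left_cancel₀ hN₁m'.ne_zero
    linear_combination -h3
  -- the power series
  have hS : ∀ k, PowerSeries.coeff k ((Λ : PowerSeries L) -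
      ∑ i ∈ s, PowerSeries.C (y i * (t i)⁻¹) * PowerSeries.mk (fun k => ((t i)⁻¹) ^ k)) ∈
      P.toSubring := by
    refine JP_ps P.toSubring ((N₂.map P.subtype : L[X]) : PowerSeries L)
      ((A₂.map P.subtype : L[X]) : PowerSeries L) _ ?_ ?_ ?_ ?_
    · rw [key2, hN₂, hB₂, mul_sub, Polynomial.coe_sub, Polynomial.coe_mul]
      congr 1
      rw [Finset.mul_sum, ← Polynomial.coeToPowerSeries.ringHom_apply,
        ← Polynomial.coeToPowerSeries.ringHom_apply, map_sum]
      refine Finset.sum_congr rfl fun i hi => ?_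
      rw [← Finset.mul_prod_erase s _ hi, map_mul (Polynomial.coeToPowerSeries.ringHom (R := L)),
        Polynomial.coeToPowerSeries.ringHom_apply, Polynomial.coeToPowerSeries.ringHom_apply,
        Polynomial.coeToPowerSeries.ringHom_apply, Polynomial.coe_mul (C (y i * (t i)⁻¹)),
        Polynomial.coe_C]
      linear_combination (PowerSeries.C (y i * (t i)⁻¹)) *
        ((∏ j ∈ s.erase i, (1 - C (t j)⁻¹ * X) : L[X]) : PowerSeries L) * JP_geom (t i)⁻¹
    · rw [Polynomial.coeff_coe, hN₂, coeff_zero_eq_eval_zero, eval_prod]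
      refine Finset.prod_eq_one fun i _ => ?_
      simp
    · intro k
      rw [Polynomial.coeff_coe, coeff_map]
      exact (N₂.coeff k).2
    · intro k
      rw [Polynomial.coeff_coe, coeff_map]
      exact (A₂.coeff k).2
  intro k
  have h5 := hS k
  rw [map_sub, Polynomial.coeff_coe, map_sum] at h5
  have h6 : ∑ i ∈ s, y i / (t i) ^ (k + 1) = ∑ i ∈ s, PowerSeries.coeff k
      (PowerSeries.C (y i * (t i)⁻¹) * PowerSeries.mk (fun k => ((t i)⁻¹) ^ k)) := by
    refine Finset.sum_congr rfl fun i hi => ?_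
    rw [PowerSeries.coeff_C_mul, PowerSeries.coeff_mk, inv_pow, pow_succ, div_eq_mul_inv, mul_inv]
    ring
  rw [h6]
  exact h5

end JPpf

section JPC

theorem JP_Nm_ne {κ : Type u} [Field κ] (n : ℕ) (f G : κ[X][X]) (hf : f.Monic)
    (hn : f.natDegree = n) (hirr : Irreducible f) (hG : G.natDegree < n) (hG0 : G ≠ 0) :
    Nm n f G ≠ 0 := by
  unfold Nm
  intro h
  let F := FractionRing κ[X]
  have hinj : Function.Injective (algebraMap κ[X] F) := IsFractionRing.injective _ _
  have h1 : resultant (f.map (algebraMap κ[X] F)) (G.map (algebraMap κ[X] F)) n n = 0 := by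
    rw [resultant_map_map, h, map_zero]
  have hfm : (f.map (algebraMap κ[X] F)).Monic := hf.map _
  have hfn : (f.map (algebraMap κ[X] F)).natDegree = n := by
    rw [natDegree_map_eq_of_injective hinj, hn]
  have hGn : (G.map (algebraMap κ[X] F)).natDegree = G.natDegree :=
    natDegree_map_eq_of_injective hinj _
  have h2 := resultant_add_right_deg (f := f.map (algebraMap κ[X] F))
    (g := G.map (algebraMap κ[X] F)) (m := n) (n := G.natDegree) (n - G.natDegree) (by omega)
  rw [Nat.add_sub_cancel' hG.le, h1] at h2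
  have h3 : (f.map (algebraMap κ[X] F)).coeff n = 1 := by
    rw [← hfn]; exact hfm
  rw [h3, one_pow, one_mul] at h2
  have hirr' : Irreducible (f.map (algebraMap κ[X] F)) :=
    (hf.irreducible_iff_irreducible_map_fraction_map).mp hirr
  have hcop : IsCoprime (f.map (algebraMap κ[X] F)) (G.map (algebraMap κ[X] F)) := by
    rw [hirr'.coprime_iff_not_dvd]
    intro hd
    have hG0' : G.map (algebraMap κ[X] F) ≠ 0 := by
      rwa [Ne, Polynomial.map_eq_zero_iff hinj]
    have := natDegree_le_of_dvd hd hG0'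
    omega
  have h4 := resultant_ne_zero _ _ hcop
  rw [hfn, hGn] at h4
  exact h4 h2.symm

end JPC

section JPB

variable {L : Type u} [Field L]

theorem JP_alg_iff (K : Subfield L) (t : L) (ht : Transcendental K t) (x : L) :
    IsAlgebraic (Algebra.adjoin K {t}) x ↔ ∃ F : K[X][X], F ≠ 0 ∧ ev2 K.subtype F t x = 0 := by
  let e := Polynomial.algEquivOfTranscendental K t ht
  have key : ∀ F : K[X][X], aeval x (F.map (e : K[X] →+* Algebra.adjoin K {t})) =
      ev2 K.subtype F t x := by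
    intro F
    unfold ev2
    rw [aeval_def, eval₂_eq_eval_map, Polynomial.map_map]
    congr 2
    apply Polynomial.ringHom_ext
    · intro a
      simp [e]
      rfl
    · simp [e]
  constructor
  · rintro ⟨G, hG, hGx⟩
    refine ⟨G.map (e.symm : Algebra.adjoin K {t} →+* K[X]), ?_, ?_⟩
    · rwa [Ne, Polynomial.map_eq_zero_iff]
      exact e.symm.injective
    · rw [← key, Polynomial.map_map]
      have : ((e : K[X] →+* Algebra.adjoin K {t})).comp
          (e.symm : Algebra.adjoin K {t} →+* K[X]) = RingHom.id _ := by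
        ext1 a
        simp
      rw [this, Polynomial.map_id]
      exact hGx
  · rintro ⟨F, hF, hFx⟩
    refine ⟨F.map (e : K[X] →+* Algebra.adjoin K {t}), ?_, ?_⟩
    · rwa [Ne, Polynomial.map_eq_zero_iff]
      exact e.injective
    · rw [key]; exact hFx

/-- exchange: `x` transcendental over `K`, then every `y` is algebraic over `K[x]`. -/
theorem JP_exch (K : Subfield L) (t : L) (ht : Transcendental K t)
    (halg : ∀ x : L, ∃ F : K[X][X], F ≠ 0 ∧ ev2 K.subtype F t x = 0) (x : L)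
    (hx : Transcendental K x) (y : L) : ∃ F : K[X][X], F ≠ 0 ∧ ev2 K.subtype F x y = 0 := by
  have h1 : Algebra.IsAlgebraic (Algebra.adjoin K {t}) L :=
    ⟨fun z => (JP_alg_iff K t ht z).mpr (halg z)⟩
  have h2 : Algebra.trdeg K L ≤ 1 := by
    have := Algebra.IsAlgebraic.trdeg_le_cardinalMk K ({t} : Set L)
    simpa using this
  have h3 : AlgebraicIndependent K (fun _ : Unit => x) :=
    algebraicIndependent_unique_type_iff.mpr hx
  have h4 : IsTranscendenceBasis K (fun _ : Unit => x) := by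
    apply h3.isTranscendenceBasis_of_lift_trdeg_le_of_finite
    simpa using h2
  have h5 := h4.isAlgebraic
  have h6 : Set.range (fun _ : Unit => x) = {x} := by simp
  rw [h6] at h5
  exact (JP_alg_iff K x hx y).mp (h5.isAlgebraic y)

theorem JP_res (K : Subfield L) [IsAlgClosed K] (t : L) (ht : Transcendental K t)
    (halg : ∀ x : L, ∃ F : K[X][X], F ≠ 0 ∧ ev2 K.subtype F t x = 0)
    (P : ValuationSubring L) (hK : (K : Set L) ⊆ P) (hP : P ≠ ⊤) :
    ∀ x ∈ P, ∃ c ∈ K, x - c ∈ P.nonunits := by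
  intro x hx
  by_contra hc
  push Not at hc
  -- `F(x)` is a unit of `P` for `F ≠ 0` over `K`
  have hval : ∀ c ∈ K, P.valuation (x - c) = 1 := by
    intro c hcK
    have h1 : P.valuation (x - c) ≤ 1 :=
      (P.valuation_le_one_iff _).mpr (P.toSubring.sub_mem hx (hK hcK))
    have h2 := hc c hcK
    rw [ValuationSubring.mem_nonunits_iff, not_lt] at h2
    exact le_antisymm h1 h2
  have hvK : ∀ c ∈ K, c ≠ 0 → P.valuation c = 1 := by
    intro c hcK hc0
    have h1 := (P.valuation_le_one_iff _).mpr (hK hcK)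
    have h2 := (P.valuation_le_one_iff _).mpr (hK (K.inv_mem hcK))
    rw [map_inv₀] at h2
    have h3 : P.valuation c ≠ 0 := by simpa using hc0
    exact le_antisymm h1 ((inv_le_one₀ (zero_lt_iff.mpr h3)).mp h2)
  have hF : ∀ F : K[X], F ≠ 0 → P.valuation (aeval x F) = 1 := by
    intro F hF0
    have hs := IsAlgClosed.splits F
    rw [hs.eq_prod_roots, map_mul, aeval_C, map_mul]
    rw [map_multiset_prod, map_multiset_prod, Multiset.map_map, Multiset.map_map]
    have h1 : P.valuation (algebraMap K L F.leadingCoeff) = 1 :=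
      hvK _ F.leadingCoeff.2 (by simpa using hF0)
    rw [h1, one_mul]
    apply Multiset.prod_eq_one
    intro v hv
    obtain ⟨c, -, rfl⟩ := Multiset.mem_map.mp hv
    simp only [Function.comp_apply, map_sub, aeval_X, aeval_C]
    exact hval _ c.2
  -- a nonunit
  obtain ⟨z, hz⟩ : ∃ z, z ∉ P := by
    by_contra hcon
    push Not at hcon
    apply hP
    ext z
    simp [hcon z]
  have hz0 : z ≠ 0 := fun h => hz (by rw [h]; exact P.zero_mem)
  have hzv : P.valuation z⁻¹ < 1 := by
    rw [map_inv₀]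
    have : 1 < P.valuation z := by
      rw [← not_le, P.valuation_le_one_iff]; exact hz
    exact inv_lt_one_of_one_lt₀ this
  have hx' : Transcendental K x := by
    intro hxa
    obtain ⟨F, hF0, hFx⟩ := hxa
    have := hF F hF0
    rw [hFx, map_zero] at this
    exact zero_ne_one this
  obtain ⟨H, hH0, hH⟩ := JP_exch K t ht halg x hx' z⁻¹
  -- `H = X ^ m * q`
  obtain ⟨q, hq, hqd⟩ := Polynomial.exists_eq_pow_rootMultiplicity_mul_and_not_dvd H hH0 0
  have hq0 : q.coeff 0 ≠ 0 := by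
    intro h
    apply hqd
    rw [C_0, sub_zero, X_dvd_iff]
    exact h
  have hzi : z⁻¹ ≠ 0 := inv_ne_zero hz0
  have hq1 : ev2 K.subtype q x z⁻¹ = 0 := by
    rw [hq, C_0, sub_zero] at hH
    have h1 : ev2 K.subtype (X ^ rootMultiplicity 0 H * q) x z⁻¹ =
        z⁻¹ ^ rootMultiplicity 0 H * ev2 K.subtype q x z⁻¹ := by
      unfold ev2
      simp
    rw [h1] at hH
    exact (mul_eq_zero.mp hH).resolve_left (pow_ne_zero _ hzi)
  have hmem : ∀ R : K[X][X], ev2 K.subtype R x z⁻¹ ∈ P := by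
    intro R
    unfold ev2
    rw [eval_eq_sum_range]
    refine P.toSubring.sum_mem fun i _ => P.toSubring.mul_mem ?_ (P.toSubring.pow_mem ?_ i)
    · rw [coeff_map]
      change eval₂ K.subtype x (R.coeff i) ∈ P.toSubring
      rw [eval₂_eq_sum_range]
      exact P.toSubring.sum_mem fun j _ => P.toSubring.mul_mem (hK ((R.coeff i).coeff j).2)
        (P.toSubring.pow_mem hx j)
    · exact (P.valuation_le_one_iff _).mp hzv.le
  have h7 : ev2 K.subtype q x z⁻¹ = z⁻¹ * ev2 K.subtype q.divX x z⁻¹ + aeval x (q.coeff 0) := by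
    conv_lhs => rw [← divX_mul_X_add q]
    unfold ev2
    simp only [Polynomial.map_add, Polynomial.map_mul, map_X, map_C, eval_add, eval_mul, eval_X,
      eval_C]
    rw [mul_comm]
    rfl
  rw [h7] at hq1
  have h8 : P.valuation (z⁻¹ * ev2 K.subtype q.divX x z⁻¹) < 1 := by
    rw [map_mul]
    have := (P.valuation_le_one_iff _).mpr (hmem q.divX)
    exact mul_lt_one_of_lt_of_le hzv this
  have h9 : aeval x (q.coeff 0) = - (z⁻¹ * ev2 K.subtype q.divX x z⁻¹) := by
    linear_combination hq1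
  have h10 := hF _ hq0
  rw [h9, Valuation.map_neg] at h10
  exact h8.ne h10

end JPB

section JPprim

variable {L : Type u} [Field L]

/-- `g` has coefficients in `P` and is nonzero modulo the maximal ideal. -/
def JPPrim (P : ValuationSubring L) (g : L[X]) : Prop :=
  ∃ g' : P[X], g'.map P.subtype = g ∧ g'.map (IsLocalRing.residue P) ≠ 0

theorem JPPrim.one (P : ValuationSubring L) : JPPrim P 1 :=
  ⟨1, by simp, by simp⟩

theorem JPPrim.mul {P : ValuationSubring L} {g h : L[X]} (hg : JPPrim P g) (hh : JPPrim P h) :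
    JPPrim P (g * h) := by
  obtain ⟨g', rfl, hg'⟩ := hg
  obtain ⟨h', rfl, hh'⟩ := hh
  exact ⟨g' * h', by rw [Polynomial.map_mul], by
    rw [Polynomial.map_mul]; exact mul_ne_zero hg' hh'⟩

theorem JPPrim.prod {P : ValuationSubring L} {I : Type} (s : Finset I) (g : I → L[X])
    (hg : ∀ i ∈ s, JPPrim P (g i)) : JPPrim P (∏ i ∈ s, g i) := by
  classical
  induction s using Finset.induction_on with
  | empty => rw [Finset.prod_empty]; exact JPPrim.one P
  | insert a s ha ih =>
    rw [Finset.prod_insert ha]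
    exact (hg a (Finset.mem_insert_self a s)).mul
      (ih fun i hi => hg i (Finset.mem_insert_of_mem hi))

theorem JPPrim.X_sub_C {P : ValuationSubring L} {t : L} (ht : t ∈ P) : JPPrim P (X - C t) := by
  refine ⟨X - C ⟨t, ht⟩, by simp, ?_⟩
  rw [Polynomial.map_sub, map_X, map_C]
  exact X_sub_C_ne_zero _

theorem JPPrim.one_sub {P : ValuationSubring L} {t : L} (ht : t ∈ P) :
    JPPrim P (1 - C t * X) := by
  refine ⟨1 - C ⟨t, ht⟩ * X, by simp, ?_⟩
  intro h
  have := congrArg (fun f => coeff f 0) h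
  simp at this

theorem JPPrim.mem {P : ValuationSubring L} {g : L[X]} {c : L} (hg : JPPrim P g)
    (hcg : JPPrim P (C c * g)) : c ∈ P := by
  by_contra hc
  have hc1 : c⁻¹ ∈ P := (P.mem_or_inv_mem c).resolve_left hc
  have hc0 : c ≠ 0 := fun h => hc (by rw [h]; exact P.zero_mem)
  obtain ⟨g', hg1, hg2⟩ := hg
  obtain ⟨h', hh1, hh2⟩ := hcg
  have hinj : Function.Injective (Polynomial.map P.subtype) :=
    Polynomial.map_injective _ Subtype.val_injective
  have h1 : C (⟨c⁻¹, hc1⟩ : P) * h' = g' := by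
    apply hinj
    rw [Polynomial.map_mul, map_C, hh1, hg1, ValuationSubring.subtype_apply, ← mul_assoc, ← C_mul,
      inv_mul_cancel₀ hc0, C_1, one_mul]
  apply hg2
  rw [← h1, Polynomial.map_mul, map_C]
  have h2 : IsLocalRing.residue P (⟨c⁻¹, hc1⟩ : P) = 0 := by
    rw [IsLocalRing.residue_eq_zero_iff, ← ValuationSubring.coe_mem_nonunits_iff,
      ValuationSubring.inv_mem_nonunits_iff]
    exact Or.inr hc
  rw [h2, C_0, zero_mul]

theorem JPPrim.inv_mem {P : ValuationSubring L} {g : L[X]} {c : L} (hc : c ≠ 0)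
    (hg : JPPrim P g) (hcg : JPPrim P (C c * g)) : c⁻¹ ∈ P := by
  apply JPPrim.mem hcg
  rw [← mul_assoc, ← C_mul, inv_mul_cancel₀ hc, C_1, one_mul]
  exact hg

/-- scaling a polynomial in two variables. -/
theorem JP_scale (P : ValuationSubring L) (G : L[X][X]) (hG : G ≠ 0) :
    ∃ (l : L) (G' : P[X][X]), l ≠ 0 ∧ G = C (C l) * bc P.subtype G' ∧
      bc (IsLocalRing.residue P) G' ≠ 0 := by
  classical
  let s : Finset (ℕ × ℕ) := G.support.biUnion fun i => ((G.coeff i).support).image fun j => (i, j)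
  have hs : ∀ i j, (G.coeff i).coeff j ≠ 0 → (i, j) ∈ s := by
    intro i j hij
    simp only [s, Finset.mem_biUnion, Finset.mem_image]
    refine ⟨i, ?_, j, ?_, rfl⟩
    · rw [mem_support_iff]
      intro h
      apply hij
      rw [h, coeff_zero]
    · rwa [mem_support_iff]
  have hsne : s.Nonempty := by
    obtain ⟨i, hi⟩ := Polynomial.support_nonempty.mpr hG
    rw [mem_support_iff] at hi
    obtain ⟨j, hj⟩ := Polynomial.support_nonempty.mpr hi
    rw [mem_support_iff] at hj
    exact ⟨_, hs i j hj⟩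
  obtain ⟨⟨i₀, j₀⟩, h0, hmax⟩ := s.exists_max_image
    (fun x => P.valuation ((G.coeff x.1).coeff x.2)) hsne
  have hl : (G.coeff i₀).coeff j₀ ≠ 0 := by
    simp only [s, Finset.mem_biUnion, Finset.mem_image] at h0
    obtain ⟨i, -, j, hj, he⟩ := h0
    rw [Prod.mk.injEq] at he
    obtain ⟨rfl, rfl⟩ := he
    rwa [mem_support_iff] at hj
  set l := (G.coeff i₀).coeff j₀ with hldef
  have hmem : ∀ i j, (G.coeff i).coeff j / l ∈ P := by
    intro i j
    by_cases hij : (G.coeff i).coeff j = 0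
    · rw [hij, zero_div]; exact P.zero_mem
    · rw [← P.valuation_le_one_iff, map_div₀]
      apply div_le_one_of_le₀
      · exact hmax _ (hs i j hij)
      · exact zero_le
  have h1 : ∀ i, ∃ g : P[X], g.map P.subtype = C l⁻¹ * G.coeff i := by
    intro i
    have : C l⁻¹ * G.coeff i ∈ Polynomial.lifts P.subtype := by
      rw [Polynomial.lifts_iff_coeff_lifts]
      intro j
      refine ⟨⟨_, hmem i j⟩, ?_⟩
      rw [coeff_C_mul, ValuationSubring.subtype_apply]
      exact div_eq_inv_mul _ _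
    exact this
  have h2 : ∃ G' : P[X][X], bc P.subtype G' = C (C l⁻¹) * G := by
    have : C (C l⁻¹) * G ∈ Polynomial.lifts (mapRingHom P.subtype) := by
      rw [Polynomial.lifts_iff_coeff_lifts]
      intro i
      obtain ⟨g, hg⟩ := h1 i
      exact ⟨g, by rw [coeff_C_mul]; exact hg⟩
    exact this
  obtain ⟨G', hG'⟩ := h2
  refine ⟨l, G', hl, ?_, ?_⟩
  · rw [hG', ← mul_assoc, ← C_mul, ← C_mul, mul_inv_cancel₀ hl, C_1, C_1, one_mul]
  · intro h
    have h3 : ((G'.coeff i₀).coeff j₀ : L) = 1 := by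
      have := congrArg (fun F => (F.coeff i₀).coeff j₀) hG'
      simp only [bc, coeff_map, coe_mapRingHom, coeff_C_mul, ← hldef] at this
      rw [inv_mul_cancel₀ hl] at this
      exact this
    have h4 : (G'.coeff i₀).coeff j₀ = 1 := Subtype.ext h3
    have h5 := congrArg (fun F => (F.coeff i₀).coeff j₀) h
    simp only [bc, coeff_map, coe_mapRingHom, h4, map_one, coeff_zero] at h5
    exact one_ne_zero h5

end JPprim

section JPD

variable {A B : Type u} [CommRing A] [CommRing B]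

theorem JP_dT_C_mul (l : A) (G : A[X][X]) : dT (C (C l) * G) = C (C l) * dT G := by
  ext1 j
  rw [Pool.Agent.Helper93.SPL.dT_coeff, coeff_C_mul, coeff_C_mul,
    Pool.Agent.Helper93.SPL.dT_coeff, derivative_C_mul]

theorem JP_dT_bc (i : A →+* B) (G : A[X][X]) : dT (bc i G) = bc i (dT G) := by
  ext1 j
  rw [Pool.Agent.Helper93.SPL.dT_coeff]
  unfold bc
  rw [coeff_map, coeff_map, Pool.Agent.Helper93.SPL.dT_coeff, coe_mapRingHom, derivative_map]

theorem JP_Dd_bc (i : A →+* B) (f b : A[X][X]) (δ : A[X]) (G : A[X][X]) :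
    Dd (bc i f) (bc i b) (δ.map i) (bc i G) = bc i (Dd f b δ G) := by
  unfold Dd
  rw [JP_dT_bc, JP_dT_bc]
  unfold bc
  rw [Polynomial.map_sub, Polynomial.map_mul, Polynomial.map_mul, Polynomial.map_mul, map_C,
    derivative_map, coe_mapRingHom]

theorem JP_Dd_C_mul (f b : A[X][X]) (δ : A[X]) (l : A) (G : A[X][X]) :
    Dd f b δ (C (C l) * G) = C (C l) * Dd f b δ G := by
  unfold Dd
  rw [JP_dT_C_mul, derivative_C_mul]
  ring

theorem JP_H_C_mul (f b Y : A[X][X]) (δ : A[X]) (l : A) (G : A[X][X]) :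
    (Y * Dd f b δ (C (C l) * G)) %ₘ f = C (C l) * ((Y * Dd f b δ G) %ₘ f) := by
  rw [JP_Dd_C_mul]
  have : Y * (C (C l) * Dd f b δ G) = (C l) • (Y * Dd f b δ G) := by
    rw [smul_eq_C_mul]; ring
  rw [this, smul_modByMonic, smul_eq_C_mul]

end JPD

section JPmain

theorem JP_prod_split {L : Type u} [Field L] {I : Type} [Fintype I] [DecidableEq I]
    (t : I → L) (s : Finset I) (hs : ∀ i ∈ s, t i ≠ 0) :
    (∏ i, (X - C (t i)) : L[X]) = C (∏ i ∈ s, (-t i)) *
      ((∏ i ∈ sᶜ, (X - C (t i))) * ∏ i ∈ s, (1 - C (t i)⁻¹ * X)) := by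
  have h1 : (∏ i ∈ s, (X - C (t i)) : L[X]) = C (∏ i ∈ s, (-t i)) *
      ∏ i ∈ s, (1 - C (t i)⁻¹ * X) := by
    rw [map_prod, ← Finset.prod_mul_distrib]
    refine Finset.prod_congr rfl fun i hi => ?_
    rw [mul_sub, ← mul_assoc, ← C_mul, neg_mul, mul_inv_cancel₀ (hs i hi)]
    simp only [map_neg, map_one]
    ring
  rw [← Finset.prod_mul_prod_compl s, h1]
  ring

theorem JP_prod_erase {L : Type u} [Field L] {I : Type} [Fintype I] [DecidableEq I]
    (t : I → L) (s : Finset I) (hs : ∀ i ∈ s, t i ≠ 0) (i : I) (hi : i ∈ s) :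
    (∏ j ∈ Finset.univ.erase i, (X - C (t j)) : L[X]) = C (∏ i ∈ s, (-t i)) *
      (-(C (t i)⁻¹) * ((∏ i ∈ sᶜ, (X - C (t i))) * ∏ j ∈ s.erase i, (1 - C (t j)⁻¹ * X))) := by
  have h1 : (∏ j ∈ s.erase i, (X - C (t j)) : L[X]) = C (∏ j ∈ s.erase i, (-t j)) *
      ∏ i ∈ s.erase i, (1 - C (t i)⁻¹ * X) := by
    rw [map_prod, ← Finset.prod_mul_distrib]
    refine Finset.prod_congr rfl fun j hj => ?_
    rw [mul_sub, ← mul_assoc, ← C_mul, neg_mul,
      mul_inv_cancel₀ (hs j (Finset.mem_of_mem_erase hj))]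
    simp only [map_neg, map_one]
    ring
  have h2 : (Finset.univ.erase i : Finset I) = s.erase i ∪ sᶜ := by
    ext j
    simp only [Finset.mem_erase, Finset.mem_univ, and_true, Finset.mem_union,
      Finset.mem_compl]
    by_cases hj : j = i
    · subst hj; simp [hi]
    · simp only [hj, ne_eq, not_false_eq_true, true_and, true_iff]; exact em _
  have h3 : Disjoint (s.erase i) sᶜ :=
    Finset.disjoint_left.mpr fun j hj hj' =>
      (Finset.mem_compl.mp hj') (Finset.mem_of_mem_erase hj)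
  rw [h2, Finset.prod_union h3, h1, ← Finset.mul_prod_erase s _ hi, C_mul]
  have h4 : (C (-t i) : L[X]) * C (t i)⁻¹ = -1 := by
    rw [← C_mul, neg_mul, mul_inv_cancel₀ (hs i hi)]; simp
  linear_combination ((C (∏ j ∈ s.erase i, (-t j)) *
      (∏ i ∈ s.erase i, (1 - C (t i)⁻¹ * X)) * ∏ i ∈ sᶜ, (X - C (t i)))) * h4

theorem JP_prod_erase' {L : Type u} [Field L] {I : Type} [Fintype I] [DecidableEq I]
    (t : I → L) (s : Finset I) (hs : ∀ i ∈ s, t i ≠ 0) (i : I) (hi : i ∈ sᶜ) :
    (∏ j ∈ Finset.univ.erase i, (X - C (t j)) : L[X]) = C (∏ i ∈ s, (-t i)) *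
      ((∏ j ∈ sᶜ.erase i, (X - C (t j))) * ∏ j ∈ s, (1 - C (t j)⁻¹ * X)) := by
  have h1 : (∏ i ∈ s, (X - C (t i)) : L[X]) = C (∏ i ∈ s, (-t i)) *
      ∏ i ∈ s, (1 - C (t i)⁻¹ * X) := by
    rw [map_prod, ← Finset.prod_mul_distrib]
    refine Finset.prod_congr rfl fun i hi => ?_
    rw [mul_sub, ← mul_assoc, ← C_mul, neg_mul, mul_inv_cancel₀ (hs i hi)]
    simp only [map_neg, map_one]
    ring
  have h2 : (Finset.univ.erase i : Finset I) = sᶜ.erase i ∪ s := by
    ext j
    simp only [Finset.mem_erase, Finset.mem_univ, and_true, Finset.mem_union,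
      Finset.mem_compl]
    by_cases hj : j = i
    · subst hj
      have := Finset.mem_compl.mp hi
      simp [this]
    · simp only [hj, ne_eq, not_false_eq_true, true_and, true_iff]; exact (em _).symm
  have h3 : Disjoint (sᶜ.erase i) s :=
    Finset.disjoint_left.mpr fun j hj hj' =>
      (Finset.mem_compl.mp (Finset.mem_of_mem_erase hj)) hj'
  rw [h2, Finset.prod_union h3, h1]
  ring

set_option maxHeartbeats 400000 in
theorem m_JP (h : StNMAP.{u}) : StJP.{u} := by
  classical
  intro Ω _ _ _ K _ t ht halg n f b Y δ hf hn hn0 hirr G cc I _ _ z Λ hG hcc hId P hKP k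
  by_cases hP : P = ⊤
  · rw [hP]; exact trivial
  have hres := JP_res K t ht halg P hKP hP
  -- the inclusion of `K` in `P` and in the residue field
  let σ : K →+* P := (K.subtype).codRestrict P.toSubring (fun x => hKP x.2)
  have hσ : P.subtype.comp σ = K.subtype := rfl
  let σ' : K →+* IsLocalRing.ResidueField P := (IsLocalRing.residue P).comp σ
  have hσ'b : Function.Bijective σ' := by
    refine ⟨σ'.injective, fun x => ?_⟩
    obtain ⟨x, rfl⟩ := IsLocalRing.residue_surjective x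
    obtain ⟨c, hc, hxc⟩ := hres x x.2
    refine ⟨⟨c, hc⟩, ?_⟩
    change IsLocalRing.residue P (σ ⟨c, hc⟩) = IsLocalRing.residue P x
    symm
    rw [← sub_eq_zero, ← map_sub, IsLocalRing.residue_eq_zero_iff,
      ← ValuationSubring.coe_mem_nonunits_iff]
    exact hxc
  let fP : P[X][X] := bc σ f
  have hbc : ∀ F : K[X][X], bc P.subtype (bc σ F) = bc K.subtype F := by
    intro F
    unfold bc
    rw [Polynomial.map_map]
    congr 1
    apply Polynomial.ringHom_ext
    · intro a; simp; rfl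
    · simp
  have hbc' : ∀ F : K[X][X], bc (IsLocalRing.residue P) (bc σ F) = bc σ' F := by
    intro F
    unfold bc
    rw [Polynomial.map_map]
    congr 1
    apply Polynomial.ringHom_ext
    · intro a; simp; rfl
    · simp
  have hfPm : fP.Monic := hf.map _
  have hfPn : fP.natDegree = n := by
    rw [← hn]; exact hf.natDegree_map _
  have hfbm : (bc σ' f).Monic := hf.map _
  have hfbn : (bc σ' f).natDegree = n := by
    rw [← hn]; exact hf.natDegree_map _
  have hfΩm : (bc K.subtype f).Monic := hf.map _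
  have hfΩn : (bc K.subtype f).natDegree = n := by
    rw [← hn]; exact hf.natDegree_map _
  have hirr' : Irreducible (bc σ' f) := by
    let e := Polynomial.mapEquiv (Polynomial.mapEquiv (RingEquiv.ofBijective σ' hσ'b))
    have : bc σ' f = e f := rfl
    rw [this, MulEquiv.irreducible_iff]
    exact hirr
  obtain ⟨hId1, hId2⟩ := hId
  -- `G ≠ 0`
  have hG0 : G ≠ 0 := by
    intro hG0
    have h1 := (h (Polynomial Ω) (Polynomial Ω) (RingHom.id _) n (bc K.subtype f) 0 0 0 hfΩm hfΩn
      (by simp) (by simp)).2.2.1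
    rw [mul_zero, zero_pow (by omega), zero_mul] at h1
    rw [hG0, h1] at hId1
    symm at hId1
    rw [mul_eq_zero] at hId1
    rcases hId1 with h2 | h2
    · exact hcc (C_eq_zero.mp h2)
    · rw [Finset.prod_eq_zero_iff] at h2
      obtain ⟨i, -, h3⟩ := h2
      exact X_sub_C_ne_zero _ h3
  obtain ⟨l, G', hl, hGG', hG'res⟩ := JP_scale P G hG0
  have hG'n : G'.natDegree < n := by
    have h1 : (bc P.subtype G').natDegree = G'.natDegree :=
      natDegree_map_eq_of_injective (Polynomial.map_injective _ Subtype.val_injective) _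
    have h2 : G.natDegree = (bc P.subtype G').natDegree := by
      rw [hGG', natDegree_C_mul]
      rwa [Ne, C_eq_zero]
    omega
  let HP : P[X][X] := (bc σ Y * Dd fP (bc σ b) (δ.map σ) G') %ₘ fP
  have hHPn : HP.natDegree < n := by
    rw [← hfPn]
    apply natDegree_modByMonic_lt _ hfPm
    intro h1
    rw [h1, natDegree_one] at hfPn
    omega
  have hHP : (bc K.subtype Y * Dd (bc K.subtype f) (bc K.subtype b) (δ.map K.subtype) G) %ₘ
      bc K.subtype f = C (C l) * bc P.subtype HP := by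
    rw [hGG', JP_H_C_mul]
    congr 1
    rw [← hbc f, ← hbc b, ← hbc Y]
    have h1 : δ.map K.subtype = (δ.map σ).map P.subtype := by
      rw [Polynomial.map_map]; rfl
    rw [h1, JP_Dd_bc]
    unfold bc
    rw [← Polynomial.map_mul, ← map_modByMonic]
    · rfl
    · exact hf.map _
  -- the norm over `P` and its derivative
  let NP : P[X] := Nm n fP G'
  let NuP : P[X] := dNm n fP G' HP
  have hNP : Nm n (bc K.subtype f) G = C (l ^ n) * NP.map P.subtype := by
    have h1 := h (Polynomial P) (Polynomial Ω) (mapRingHom P.subtype) n fP G' HP 0 hfPm hfPn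
      hG'n.le hHPn.le
    have h2 := h (Polynomial Ω) (Polynomial Ω) (RingHom.id _) n (bc K.subtype f)
      (bc P.subtype G') (bc P.subtype HP) (C l) hfΩm hfΩn
      (natDegree_map_le.trans hG'n.le) (natDegree_map_le.trans hHPn.le)
    rw [hGG', h2.2.2.1, C_pow]
    refine congrArg (fun x => C l ^ n * x) ?_
    rw [← hbc f]
    exact h1.1.symm
  have hNuP : dNm n (bc K.subtype f) G (C (C l) * bc P.subtype HP) =
      C (l ^ n) * NuP.map P.subtype := by
    have h1 := h (Polynomial P) (Polynomial Ω) (mapRingHom P.subtype) n fP G' HP 0 hfPm hfPn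
      hG'n.le hHPn.le
    have h2 := h (Polynomial Ω) (Polynomial Ω) (RingHom.id _) n (bc K.subtype f)
      (bc P.subtype G') (bc P.subtype HP) (C l) hfΩm hfΩn
      (natDegree_map_le.trans hG'n.le) (natDegree_map_le.trans hHPn.le)
    rw [hGG', h2.2.2.2, C_pow]
    refine congrArg (fun x => C l ^ n * x) ?_
    rw [← hbc f]
    exact h1.2.1.symm
  rw [hHP, hNuP, hNP] at hId2
  rw [hNP] at hId1
  -- the reduction of the norm is nonzero
  have hNres : NP.map (IsLocalRing.residue P) ≠ 0 := by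
    have h1 := (h (Polynomial P) (Polynomial (IsLocalRing.ResidueField P))
      (mapRingHom (IsLocalRing.residue P)) n fP G' HP 0 hfPm hfPn hG'n.le hHPn.le).1
    have h2 := JP_Nm_ne n (bc σ' f) (bc (IsLocalRing.residue P) G') hfbm hfbn hirr'
      (natDegree_map_le.trans_lt hG'n) hG'res
    rw [← hbc' f] at h2
    rw [← coe_mapRingHom]
    change mapRingHom (IsLocalRing.residue P) (Nm n fP G') ≠ 0
    rw [h1]
    exact h2
  have hNPprim : JPPrim P (NP.map P.subtype) := ⟨NP, rfl, hNres⟩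
  -- the far points
  let s : Finset I := Finset.univ.filter fun i => (z i).1 ∉ P
  have hnear : ∀ i ∉ s, (z i).1 ∈ P := by
    intro i hi
    by_contra hc
    exact hi (Finset.mem_filter.mpr ⟨Finset.mem_univ _, hc⟩)
  have hfar : ∀ i ∈ s, (z i).1 ∉ P := fun i hi => (Finset.mem_filter.mp hi).2
  have hne : ∀ i ∈ s, (z i).1 ≠ 0 := fun i hi h1 => hfar i hi (by rw [h1]; exact P.zero_mem)
  have hinvm : ∀ i ∈ s, ((z i).1)⁻¹ ∈ P := fun i hi =>
    (P.mem_or_inv_mem _).resolve_left (hfar i hi)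
  set N₁ : Polynomial Ω := ∏ i ∈ sᶜ, (X - C (z i).1) with hN₁
  set N₂ : Polynomial Ω := ∏ i ∈ s, (1 - C ((z i).1)⁻¹ * X) with hN₂
  have hN12 : JPPrim P (N₁ * N₂) := by
    refine JPPrim.mul (JPPrim.prod _ _ fun i hi => JPPrim.X_sub_C ?_)
      (JPPrim.prod _ _ fun i hi => JPPrim.one_sub (hinvm i hi))
    exact hnear i (Finset.mem_compl.mp hi)
  set cf : Ω := ∏ i ∈ s, (-(z i).1) with hcf
  have hcf0 : cf ≠ 0 := Finset.prod_ne_zero_iff.mpr fun i hi => neg_ne_zero.mpr (hne i hi)
  have hln : l ^ n ≠ 0 := pow_ne_zero _ hl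
  set c' : Ω := (l ^ n)⁻¹ * cc * cf with hc'
  have hc'0 : c' ≠ 0 := mul_ne_zero (mul_ne_zero (inv_ne_zero hln) hcc) hcf0
  have hCl : (C (l ^ n)⁻¹ : Polynomial Ω) * C (l ^ n) = 1 := by
    rw [← C_mul, inv_mul_cancel₀ hln, C_1]
  have hNPeq : NP.map P.subtype = C c' * (N₁ * N₂) := by
    have h1 : NP.map P.subtype = C (l ^ n)⁻¹ * (C (l ^ n) * NP.map P.subtype) := by
      rw [← mul_assoc, hCl, one_mul]
    rw [h1, hId1, JP_prod_split (fun i => (z i).1) s hne, hc', C_mul, C_mul]
    ring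
  have hc'inv : c'⁻¹ ∈ P := by
    apply JPPrim.inv_mem hc'0 hN12
    rw [← hNPeq]
    exact hNPprim
  -- the polynomial `E`
  let E : P[X] := C (⟨c'⁻¹, hc'inv⟩ : P) * NuP
  have hNuPeq : NuP.map P.subtype = C (l ^ n)⁻¹ * (C cc * ∑ i, C (ev2 K.subtype (C δ * Y) (z i).1 (z i).2) *
      ∏ j ∈ Finset.univ.erase i, (X - C (z j).1)) + NP.map P.subtype * Λ := by
    have h1 : NuP.map P.subtype = C (l ^ n)⁻¹ * (C (l ^ n) * NuP.map P.subtype) := by
      rw [← mul_assoc, hCl, one_mul]
    rw [h1, hId2]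
    linear_combination (NP.map P.subtype * Λ) * hCl
  have hsum : (∑ i, C (ev2 K.subtype (C δ * Y) (z i).1 (z i).2) *
      ∏ j ∈ Finset.univ.erase i, (X - C (z j).1) : Polynomial Ω) = C cf * (N₂ *
      (∑ i ∈ sᶜ, C (ev2 K.subtype (C δ * Y) (z i).1 (z i).2) *
        ∏ j ∈ sᶜ.erase i, (X - C (z j).1)) -
      N₁ * ∑ i ∈ s, C (ev2 K.subtype (C δ * Y) (z i).1 (z i).2 * ((z i).1)⁻¹) *
        ∏ j ∈ s.erase i, (1 - C ((z j).1)⁻¹ * X)) := by
    rw [← Finset.sum_add_sum_compl s, mul_sub, ← mul_assoc (C cf) N₂, ← mul_assoc (C cf) N₁,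
      Finset.mul_sum, Finset.mul_sum, add_comm, sub_eq_add_neg, ← Finset.sum_neg_distrib]
    congr 1
    · refine Finset.sum_congr rfl fun i hi => ?_
      rw [JP_prod_erase' (fun i => (z i).1) s hne i hi]
      ring
    · refine Finset.sum_congr rfl fun i hi => ?_
      rw [JP_prod_erase (fun i => (z i).1) s hne i hi, C_mul]
      ring
  have hE : E.map P.subtype =
     (∏ i ∈ s, (1 - C ((z i).1)⁻¹ * X)) *
      (∑ i ∈ sᶜ, C (ev2 K.subtype (C δ * Y) (z i).1 (z i).2) *
        ∏ j ∈ sᶜ.erase i, (X - C (z j).1)) +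
     (∏ i ∈ sᶜ, (X - C (z i).1)) * ((∏ i ∈ s, (1 - C ((z i).1)⁻¹ * X)) * Λ -
       ∑ i ∈ s, C (ev2 K.subtype (C δ * Y) (z i).1 (z i).2 * ((z i).1)⁻¹) *
        ∏ j ∈ s.erase i, (1 - C ((z j).1)⁻¹ * X)) := by
    rw [← hN₁, ← hN₂]
    have h1 : E.map P.subtype = C c'⁻¹ * NuP.map P.subtype := by
      simp only [E]
      rw [Polynomial.map_mul, map_C, ValuationSubring.subtype_apply]
    rw [h1, hNuPeq, hsum, hNPeq]
    have h2 : (C c'⁻¹ : Polynomial Ω) * C c' = 1 := by
      rw [← C_mul, inv_mul_cancel₀ hc'0, C_1]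
    have h3 : (C c' : Polynomial Ω) = C (l ^ n)⁻¹ * C cc * C cf := by
      rw [hc', C_mul, C_mul]
    rw [h3] at h2 ⊢
    linear_combination (N₂ *
      (∑ i ∈ sᶜ, C (ev2 K.subtype (C δ * Y) (z i).1 (z i).2) *
        ∏ j ∈ sᶜ.erase i, (X - C (z j).1)) -
      N₁ * (∑ i ∈ s, C (ev2 K.subtype (C δ * Y) (z i).1 (z i).2 * ((z i).1)⁻¹) *
        ∏ j ∈ s.erase i, (1 - C ((z j).1)⁻¹ * X)) + N₁ * N₂ * Λ) * h2
  have hfin := JP_pf P (fun i => (z i).1)
    (fun i => ev2 K.subtype (C δ * Y) (z i).1 (z i).2) Λ E s hnear hfar hE k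
  convert hfin using 2
  rw [← Finset.sum_filter_add_sum_filter_not Finset.univ (fun i => (z i).1 ∈ P)]
  rw [Finset.sum_eq_zero (fun i hi => if_pos (Finset.mem_filter.mp hi).2), zero_add]
  exact Finset.sum_congr rfl fun i hi => if_neg (Finset.mem_filter.mp hi).2

end JPmain


end Pool.Agent.Helper44.SPL
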