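import Pool.Agent.Helper44.SPL.St

/-! # SPL, module NI0 -/

set_option autoImplicit false

namespace Pool.Agent.Helper44.SPL

open Polynomial

universe u

namespace NI0

variable {Ω : Type u} [Field Ω]

theorem sub_icl (s : Set Ω) {x : Ω} (hx : x ∈ s) : x ∈ icl s := by
  have h1 : x ∈ Subring.closure s := Subring.subset_closure hx
  exact isIntegral_algebraMap (R := Subring.closure s) (x := ⟨x, h1⟩)

theorem icl_le_val {s : Set Ω} {V : ValuationSubring Ω} (h : ∀ x ∈ s, x ∈ V) {x : Ω}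
    (hx : x ∈ icl s) : x ∈ V := by
  have h1 : icl s = ⨅ V : {V : ValuationSubring Ω // s ⊆ V.toSubring}, V.1.toSubring :=
    (iInf_valuationSubring_superset).symm
  rw [h1] at hx
  have h2 := iInf_le (fun V : {V : ValuationSubring Ω // s ⊆ V.toSubring} => V.1.toSubring)
    ⟨V, h⟩
  exact h2 hx

theorem icl_congr {s t : Set Ω} (h : Subring.closure s = Subring.closure t) :
    icl s = icl t := by
  unfold icl
  rw [h]

theorem icl_mono {s t : Set Ω} (h : s ⊆ t) : icl s ≤ icl t := by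
  intro x hx
  have h1 : icl t = ⨅ V : {V : ValuationSubring Ω // t ⊆ V.toSubring}, V.1.toSubring :=
    (iInf_valuationSubring_superset).symm
  rw [h1, Subring.mem_iInf]
  rintro ⟨V, hV⟩
  exact icl_le_val (fun y hy => hV (h hy)) hx

theorem closedIn {A : Subring Ω} (hA : IC A) : IsIntegrallyClosedIn A Ω := by
  rw [Subring.isIntegrallyClosedIn_iff]
  intro x hx
  have h1 : x ∈ icl (A : Set Ω) := by
    have h2 : Subring.closure (A : Set Ω) = A := Subring.closure_eq A
    unfold icl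
    rw [h2]
    exact hx
  rw [hA] at h1
  exact h1

/-- a valuation subring that dominates `T` and does not contain `x` -/
theorem exists_dom {T : Subring Ω} (hT : IsLocalRing T) (hIC : IC T) {x : Ω} (hx : x ∉ T) :
    ∃ V : ValuationSubring Ω, (∀ a ∈ T, a ∈ V) ∧ (∀ a ∈ nu T, a ∈ V.nonunits) ∧ x ∉ V := by
  have := hT
  have : IsIntegrallyClosedIn (LocalSubring.mk T).toSubring Ω := closedIn hIC
  obtain ⟨V, hV, hxV⟩ := LocalSubring.exists_le_valuationSubring_of_isIntegrallyClosedIn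
    (R := LocalSubring.mk T) (x := x) hx
  obtain ⟨h1, h2⟩ := hV
  refine ⟨V, fun a ha => h1 ha, ?_, hxV⟩
  rintro a ⟨ha, ha'⟩
  have haV : a ∈ V := h1 ha
  by_contra hcon
  have hu : IsUnit (⟨a, haV⟩ : V) := by
    by_contra h
    exact hcon ((ValuationSubring.mem_nonunits_iff_exists_mem_maximalIdeal).2 ⟨haV, h⟩)
  have hu' : IsUnit (⟨a, ha⟩ : T) := h2.1 ⟨a, ha⟩ hu
  obtain ⟨⟨b, hb⟩, hab⟩ := isUnit_iff_exists_inv.1 hu'
  have h3 : a * b = 1 := congrArg Subtype.val hab
  have ha0 : a ≠ 0 := left_ne_zero_of_mul_eq_one h3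
  rcases ha' with h | h
  · exact ha0 h
  · refine h ?_
    rw [← eq_inv_of_mul_eq_one_right h3]
    exact hb

/-- elements of `ext (nu T) D` are nonunits of a valuation subring above `D` -/
theorem ext_nonunits {N : Set Ω} {D : Subring Ω} {V : ValuationSubring Ω}
    (hD : ∀ a ∈ D, a ∈ V) (hN : ∀ a ∈ N, a ∈ V.nonunits) {x : Ω} (hx : x ∈ ext N D) :
    V.valuation x < 1 := by
  induction hx using Submodule.span_induction with
  | mem x hx => exact hN x hx
  | zero => rw [map_zero]; exact zero_lt_one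
  | add x y _ _ h1 h2 => exact Valuation.map_add_lt _ h1 h2
  | smul a x _ h =>
    have h1 : V.valuation (a : Ω) ≤ 1 := (V.valuation_le_one_iff a).2 (hD a a.2)
    have h2 : a • x = (a : Ω) * x := rfl
    rw [h2, map_mul]
    exact (mul_le_of_le_one_left' h1).trans_lt h

theorem mul_ext {N : Set Ω} {D D' : Subring Ω} (hD : D ≤ D') {x z : Ω} (hz : z ∈ D')
    (hx : x ∈ ext N D) : z * x ∈ ext N D' := by
  induction hx using Submodule.span_induction with
  | mem x hx => exact Submodule.smul_mem _ (⟨z, hz⟩ : D') (Submodule.subset_span hx)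
  | zero => rw [mul_zero]; exact Submodule.zero_mem _
  | add x y _ _ h1 h2 => rw [mul_add]; exact Submodule.add_mem _ h1 h2
  | smul a x _ h =>
    have h2 : z * (a • x) = (⟨(a : Ω), hD a.2⟩ : D') • (z * x) := by
      change z * ((a : Ω) * x) = (a : Ω) * (z * x)
      ring
    rw [h2]
    exact Submodule.smul_mem _ _ h

end NI0

open NI0 in
theorem m_NI0 (h : StH.{u}) : StNI0.{u} := by
  intro Ω _ _ T hT hIC X hX hX' g hg ξ hξ N hN
  obtain ⟨Y, hY⟩ : ∃ Y, Y = X - ξ := ⟨_, rfl⟩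
  have hYT : Y ∉ T := by
    intro h1
    refine hX ?_
    have h2 : X = Y + ξ := by rw [hY]; ring
    rw [h2]
    exact T.add_mem h1 hξ
  have hY0 : Y ≠ 0 := by
    rintro rfl
    exact hYT T.zero_mem
  have hcl : Subring.closure ((T : Set Ω) ∪ {Y}) = Subring.closure ((T : Set Ω) ∪ {X}) := by
    apply le_antisymm
    · rw [Subring.closure_le]
      rintro y (hy | hy)
      · exact Subring.subset_closure (Or.inl hy)
      · rw [Set.mem_singleton_iff.1 hy, hY]
        exact Subring.sub_mem _ (Subring.subset_closure (Or.inr rfl))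
          (Subring.subset_closure (Or.inl hξ))
    · rw [Subring.closure_le]
      rintro y (hy | hy)
      · exact Subring.subset_closure (Or.inl hy)
      · have h2 : y = Y + ξ := by rw [Set.mem_singleton_iff.1 hy, hY]; ring
        rw [h2]
        exact Subring.add_mem _ (Subring.subset_closure (Or.inr rfl))
          (Subring.subset_closure (Or.inl hξ))
  have hD : icl ((T : Set Ω) ∪ {Y}) = icl ((T : Set Ω) ∪ {X}) := icl_congr hcl
  rw [← hD] at hg hN ⊢
  rw [← hY] at hN
  have hle : icl ((T : Set Ω) ∪ {Y}) ≤ icl ((T : Set Ω) ∪ {Y, Y⁻¹}) :=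
    icl_mono (Set.union_subset_union_right _ (by simp))
  have hYi : Y⁻¹ ∈ icl ((T : Set Ω) ∪ {Y, Y⁻¹}) := sub_icl _ (Or.inr (Or.inr rfl))
  have hx : g - 0 ∈ ext (nu T) (icl ((T : Set Ω) ∪ {Y, Y⁻¹})) := by
    have h1 := mul_ext hle (Subring.pow_mem _ hYi N) hN
    have h2 : Y⁻¹ ^ N * (Y ^ N * g) = g - 0 := by
      rw [← mul_assoc, ← mul_pow, inv_mul_cancel₀ hY0, one_pow, one_mul, sub_zero]
    rwa [h2] at h1
  obtain ⟨c, hc, m, hm, h1, h2⟩ := h Ω T hT hIC Y hY0 g hg 0 (Subring.zero_mem _) hx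
  have hcn : c ∈ nu T := by
    by_contra hcon
    have hcc : c ≠ 0 ∧ c⁻¹ ∈ T := by
      by_contra h3
      refine hcon ⟨hc, ?_⟩
      by_cases h4 : c = 0
      · exact Or.inl h4
      · exact Or.inr fun h5 => h3 ⟨h4, h5⟩
    obtain ⟨V, hVT, hVn, hYV⟩ := exists_dom hT hIC hYT
    have hYV' : Y⁻¹ ∈ V := (V.mem_or_inv_mem Y).resolve_left hYV
    have h3 : V.valuation ((0 - c) ^ m) < 1 := by
      refine ext_nonunits (fun a ha => icl_le_val (V := V) ?_ ha) hVn h2
      rintro x (hx | hx)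
      · exact hVT x hx
      · rw [Set.mem_singleton_iff.1 hx]
        exact hYV'
    have h4 : V.valuation ((-c⁻¹) ^ m) ≤ 1 := by
      rw [V.valuation_le_one_iff]
      exact pow_mem (V.neg_mem _ (hVT _ hcc.2)) m
    have h5 : (-c⁻¹) ^ m * (0 - c) ^ m = 1 := by
      rw [← mul_pow, zero_sub, neg_mul_neg, inv_mul_cancel₀ hcc.1, one_pow]
    have h6 : V.valuation ((-c⁻¹) ^ m * (0 - c) ^ m) < 1 := by
      rw [map_mul]
      exact (mul_le_of_le_one_left' h4).trans_lt h3
    rw [h5, map_one] at h6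
    exact lt_irrefl _ h6
  have hcD : c ∈ icl ((T : Set Ω) ∪ {Y}) := sub_icl _ (Or.inl hc)
  have hgc : g - c ∈ icl ((T : Set Ω) ∪ {Y}) := Subring.sub_mem _ hg hcD
  obtain ⟨q, hq⟩ := sub_dvd_pow_sub_pow (⟨g, hg⟩ : icl ((T : Set Ω) ∪ {Y})) ⟨g - c, hgc⟩ m
  have hq' : g ^ m - (g - c) ^ m = (g - (g - c)) * (q : Ω) := congrArg Subtype.val hq
  refine ⟨m, ?_⟩
  have h7 : g ^ m = (g - c) ^ m + q • c := by
    have h8 : q • c = (q : Ω) * c := rfl
    rw [h8]
    linear_combination hq'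
  rw [h7]
  exact Submodule.add_mem _ h1 (Submodule.smul_mem _ q (Submodule.subset_span hcn))

end Pool.Agent.Helper44.SPL
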