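import Pool.Agent.Helper44.SPL.St

/-!
# Splinters in mixed characteristic: module SS (`H^0` of a blow-up modulo `p^lam`)
-/

set_option autoImplicit false

namespace Pool.Agent.Helper44.SPL

open Polynomial

universe u

namespace SSaux

/-! ## Integral closures -/

section icl

variable {Ω : Type u} [Field Ω]

lemma mem_icl_iff (s : Set Ω) (x : Ω) :
    x ∈ icl s ↔ ∀ W : ValuationSubring Ω, s ⊆ W → x ∈ W := by
  unfold icl
  rw [← iInf_valuationSubring_superset, Subring.mem_iInf]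
  constructor
  · intro h W hW
    exact h ⟨W, hW⟩
  · intro h W
    exact h W.1 W.2

lemma subset_icl (s : Set Ω) : s ⊆ icl s := by
  intro x hx
  rw [SetLike.mem_coe, mem_icl_iff]
  exact fun W hW => hW hx

lemma IC_icl (s : Set Ω) : IC (icl s) := by
  unfold IC
  apply le_antisymm
  · intro x hx
    rw [mem_icl_iff] at hx ⊢
    intro W hW
    apply hx W
    intro y hy
    exact (mem_icl_iff s y).1 hy W hW
  · exact subset_icl _

lemma le_icl (A : Subring Ω) (t : Set Ω) : A ≤ icl ((A : Set Ω) ∪ t) := fun _ ha =>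
  subset_icl _ (Or.inl ha)

lemma icl_mono {s t : Set Ω} (h : s ⊆ t) : icl s ≤ icl t := by
  intro x hx
  rw [mem_icl_iff] at hx ⊢
  exact fun W hW => hx W (h.trans hW)

lemma mem_of_both {A : Subring Ω} (hA : IC A) (X : Ω) {x : Ω}
    (h1 : x ∈ icl ((A : Set Ω) ∪ {X})) (h2 : x ∈ icl ((A : Set Ω) ∪ {X⁻¹})) : x ∈ A := by
  rw [← hA, mem_icl_iff]
  intro W hW
  rcases W.mem_or_inv_mem X with h | h
  · refine (mem_icl_iff _ _).1 h1 W (Set.union_subset hW ?_)
    rintro _ rfl
    exact h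
  · refine (mem_icl_iff _ _).1 h2 W (Set.union_subset hW ?_)
    rintro _ rfl
    exact h

end icl

/-! ## Rational powers of `p` -/

section pw

variable {Ω : Type u} [Field Ω] [CharZero Ω] {p : ℕ} [Fact p.Prime] (S : RootSys Ω p)

include S

lemma pw_ne (a : ℚ) : S.pw a ≠ 0 := by
  intro h
  have h1 : S.pw (a + (1 - a)) = 0 := by rw [S.add, h, zero_mul]
  rw [add_sub_cancel, S.one] at h1
  exact Nat.cast_ne_zero.2 (Fact.out : p.Prime).ne_zero h1

lemma pw_zero : S.pw 0 = 1 := by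
  have h1 := S.add 0 0
  rw [add_zero] at h1
  exact (mul_eq_left₀ (pw_ne S 0)).1 h1.symm

lemma pw_sub (a b : ℚ) : S.pw (a - b) = S.pw a / S.pw b := by
  rw [eq_div_iff (pw_ne S b), ← S.add, sub_add_cancel]

lemma pw_pow (a : ℚ) (n : ℕ) : S.pw (n * a) = S.pw a ^ n := by
  induction n with
  | zero => rw [Nat.cast_zero, zero_mul, pw_zero, pow_zero]
  | succ n ih => rw [Nat.cast_succ, add_mul, one_mul, S.add, ih, pow_succ]

lemma pw_mem {A : Subring Ω} (hA : IC A) {s : ℚ} (hs : 0 ≤ s) : S.pw s ∈ A := by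
  rw [← hA, mem_icl_iff]
  intro W _
  have h1 : S.pw s ^ s.den = (p : Ω) ^ s.num.toNat := by
    rw [← pw_pow, ← S.one, ← pw_pow]
    congr 1
    rw [mul_one, mul_comm, Rat.mul_den_eq_num]
    have h2 : 0 ≤ s.num := Rat.num_nonneg.2 hs
    have h3 : ((s.num.toNat : ℤ) : ℚ) = (s.num : ℚ) := by rw [Int.toNat_of_nonneg h2]
    rw [← h3]
    norm_cast
  have h4 : S.pw s ^ s.den ∈ W := by
    rw [h1]
    exact pow_mem (natCast_mem W p) _
  rcases W.mem_or_inv_mem (S.pw s) with h | h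
  · exact h
  · have h5 : S.pw s = (S.pw s)⁻¹ ^ (s.den - 1) * S.pw s ^ s.den := by
      obtain ⟨n, hn⟩ := Nat.exists_eq_succ_of_ne_zero s.den_ne_zero
      rw [hn, Nat.succ_sub_one, pow_succ, inv_pow, ← mul_assoc,
        inv_mul_cancel₀ (pow_ne_zero _ (pw_ne S s)), one_mul]
    rw [h5]
    exact mul_mem (pow_mem h _) h4

end pw

/-! ## Seminorms -/

section ms

variable {A : Type u} [CommRing A] {ϖ : A} {v : A → ℝ}

lemma ms_neg (hv : IsMs ϖ v) (a : A) : v (-a) = v a := by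
  have h1 : v (-1) * v (-1) = 1 := by
    rw [← hv.mul, neg_mul_neg, one_mul, hv.one]
  have h2 : v (-1) = 1 := by
    have h3 := hv.nonneg (-1)
    have h4 := hv.le_one (-1)
    nlinarith
  rw [show -a = -1 * a by ring, hv.mul, h2, one_mul]

lemma ms_sub (hv : IsMs ϖ v) (a b : A) : v (a - b) ≤ max (v a) (v b) := by
  rw [sub_eq_add_neg, ← ms_neg hv b]
  exact hv.add _ _

/-- first estimate -/
lemma est1 (hv : IsMs ϖ v) {c : ℝ} (hc : c ≤ 1) {x a b : A} (h : v (b * x - a) ≤ c * v b) :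
    v a ≤ v b := by
  have h1 : a = b * x - (b * x - a) := by ring
  rw [h1]
  refine (ms_sub hv _ _).trans (max_le ?_ ?_)
  · rw [hv.mul]
    exact mul_le_of_le_one_right (hv.nonneg _) (hv.le_one _)
  · exact h.trans (mul_le_of_le_one_left (hv.nonneg _) hc)

/-- second estimate -/
lemma est2 (hv : IsMs ϖ v) {c : ℝ} {x a b a' b' : A}
    (h : v (b * x - a) ≤ c * v b) (h' : v (b' * x - a') ≤ c * v b') :
    v (a' * b - a * b') ≤ c * (v b' * v b) := by
  have h1 : a' * b - a * b' = b' * (b * x - a) - b * (b' * x - a') := by ring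
  rw [h1]
  refine (ms_sub hv _ _).trans (max_le ?_ ?_)
  · rw [hv.mul]
    calc v b' * v (b * x - a) ≤ v b' * (c * v b) := mul_le_mul_of_nonneg_left h (hv.nonneg _)
      _ = c * (v b' * v b) := by ring
  · rw [hv.mul]
    calc v b * v (b' * x - a') ≤ v b * (c * v b') := mul_le_mul_of_nonneg_left h' (hv.nonneg _)
      _ = c * (v b' * v b) := by ring

/-- third estimate -/
lemma est3 (hv : IsMs ϖ v) {c : ℝ} {x x' a b π : A} (hb : v b ≠ 0)
    (h : v (b * x' - a) ≤ c * v b) (h' : v (b * x - π * a) ≤ c * v b) :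
    v (x - π * x') ≤ c := by
  have hb0 : 0 < v b := lt_of_le_of_ne (hv.nonneg _) (Ne.symm hb)
  have h1 : b * (x - π * x') = (b * x - π * a) - π * (b * x' - a) := by ring
  have h2 : v b * v (x - π * x') ≤ c * v b := by
    rw [← hv.mul, h1]
    refine (ms_sub hv _ _).trans (max_le h' ?_)
    rw [hv.mul]
    exact (mul_le_of_le_one_left (hv.nonneg _) (hv.le_one _)).trans h
  rw [mul_comm] at h2
  exact le_of_mul_le_mul_right h2 hb0

/-- the space of seminorms is closed -/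
lemma isClosed_ms (ϖ : A) : IsClosed {v : A → ℝ | IsMs ϖ v} := by
  have h : {v : A → ℝ | IsMs ϖ v} = {v : A → ℝ | (∀ a, 0 ≤ v a) ∧ v 0 = 0 ∧ v 1 = 1 ∧
      (∀ a b, v (a * b) = v a * v b) ∧ (∀ a b, v (a + b) ≤ max (v a) (v b)) ∧
      (∀ a, v a ≤ 1) ∧ v ϖ = 1 / 2} := by
    ext v
    constructor
    · rintro ⟨h1, h2, h3, h4, h5, h6, h7⟩
      exact ⟨h1, h2, h3, h4, h5, h6, h7⟩
    · rintro ⟨h1, h2, h3, h4, h5, h6, h7⟩
      exact ⟨h1, h2, h3, h4, h5, h6, h7⟩
  rw [h]
  simp only [Set.ofPred_and, Set.ofPred_forall]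
  refine IsClosed.inter ?_ (IsClosed.inter ?_ (IsClosed.inter ?_ (IsClosed.inter ?_
    (IsClosed.inter ?_ (IsClosed.inter ?_ ?_)))))
  · exact isClosed_iInter fun a => isClosed_le continuous_const (continuous_apply a)
  · exact isClosed_eq (continuous_apply _) continuous_const
  · exact isClosed_eq (continuous_apply _) continuous_const
  · exact isClosed_iInter fun a => isClosed_iInter fun b => isClosed_eq (continuous_apply _)
      (show Continuous fun x : A → ℝ => x a * x b from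
        (continuous_apply a).mul (continuous_apply b))
  · exact isClosed_iInter fun a => isClosed_iInter fun b => isClosed_le (continuous_apply _)
      (show Continuous fun x : A → ℝ => max (x a) (x b) from
        (continuous_apply a).max (continuous_apply b))
  · exact isClosed_iInter fun a => isClosed_le (continuous_apply a) continuous_const
  · exact isClosed_eq (continuous_apply _) continuous_const

/-- the space of seminorms is compact -/
lemma isCompact_ms (ϖ : A) : IsCompact {v : A → ℝ | IsMs ϖ v} := by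
  have h1 : IsCompact (Set.pi Set.univ fun _ : A => Set.Icc (0 : ℝ) 1) :=
    isCompact_univ_pi fun _ => isCompact_Icc
  refine h1.of_isClosed_subset (isClosed_ms ϖ) ?_
  intro v hv a _
  exact ⟨hv.nonneg a, hv.le_one a⟩

/-- tube lemma -/
lemma tube {A D : Type u} [CommRing A] [CommRing D] (i : A →+* D) (ϖ : D) (v₀ : A → ℝ)
    (y b : D) (c : ℝ) (h : ∀ w : D → ℝ, IsMs ϖ w → (fun a => w (i a)) = v₀ → w y < c * w b) :
    ∃ U : Set (A → ℝ), IsOpen U ∧ v₀ ∈ U ∧
      ∀ w : D → ℝ, IsMs ϖ w → (fun a => w (i a)) ∈ U → w y < c * w b := by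
  have hcont : Continuous fun (w : D → ℝ) (a : A) => w (i a) :=
    continuous_pi fun a => continuous_apply (i a)
  have hZ : IsCompact ({w : D → ℝ | IsMs ϖ w} ∩ {w : D → ℝ | c * w b ≤ w y}) :=
    (isCompact_ms ϖ).inter_right
      (isClosed_le (continuous_const.mul (continuous_apply _)) (continuous_apply _))
  have hI := (hZ.image hcont).isClosed
  refine ⟨((fun (w : D → ℝ) (a : A) => w (i a)) ''
    ({w : D → ℝ | IsMs ϖ w} ∩ {w : D → ℝ | c * w b ≤ w y}))ᶜ, hI.isOpen_compl, ?_, ?_⟩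
  · rintro ⟨w, ⟨hw, hw1⟩, hw2⟩
    exact absurd (h w hw hw2) (not_lt.2 hw1)
  · intro w hw hwU
    by_contra hcon
    exact hwU ⟨w, ⟨hw, not_lt.1 hcon⟩, rfl⟩

/-- restriction of seminorms -/
lemma ms_restr {A D : Type u} [CommRing A] [CommRing D] (i : A →+* D) (p : ℕ) {w : D → ℝ}
    (hw : IsMs (p : D) w) : IsMs (p : A) (fun a => w (i a)) where
  nonneg := fun a => hw.nonneg _
  zero := by rw [map_zero, hw.zero]
  one := by rw [map_one, hw.one]
  mul := fun a b => by rw [map_mul, hw.mul]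
  add := fun a b => by rw [map_add]; exact hw.add _ _
  le_one := fun a => hw.le_one _
  pi := by rw [map_natCast, hw.pi]

end ms

end SSaux

open SSaux in
theorem m_SS (h1 : StC.{u}) (h2 : StEV.{u}) (h3 : StEXT.{u}) (h4 : StPA.{u}) (h5 : StU.{u}) :
    StSS.{u} := by
  classical
  intro Ω _ _ _ p hp S A hA X hX
  have hi1 : A ≤ icl ((A : Set Ω) ∪ {X}) := le_icl A _
  have hi2 : A ≤ icl ((A : Set Ω) ∪ {X⁻¹}) := le_icl A _
  have hIC1 : IC (icl ((A : Set Ω) ∪ {X})) := IC_icl _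
  have hIC2 : IC (icl ((A : Set Ω) ∪ {X⁻¹})) := IC_icl _
  have hhalf : ∀ a b : ℝ, a ≤ b → (1 / 2 : ℝ) ^ b ≤ (1 / 2 : ℝ) ^ a := fun a b hab =>
    Real.rpow_le_rpow_of_exponent_ge (by norm_num) (by norm_num) hab
  have hhalf' : ∀ a b : ℝ, a < b → (1 / 2 : ℝ) ^ b < (1 / 2 : ℝ) ^ a := fun a b hab =>
    Real.rpow_lt_rpow_of_exponent_gt (by norm_num) (by norm_num) hab
  -- the case `lam ≤ 1`
  have small : ∀ lam mu : ℚ, lam ≤ 1 → 0 < mu → mu < lam → ∀ x₁ ∈ icl ((A : Set Ω) ∪ {X}),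
      ∀ x₂ ∈ icl ((A : Set Ω) ∪ {X⁻¹}), (x₁ - x₂) / S.pw lam ∈ icl ((A : Set Ω) ∪ {X, X⁻¹}) →
      ∃ a ∈ A, (a - x₁) / S.pw mu ∈ icl ((A : Set Ω) ∪ {X}) ∧
        (a - x₂) / S.pw mu ∈ icl ((A : Set Ω) ∪ {X⁻¹}) := by
    intro lam mu hlam hmu hml x₁ hx₁ x₂ hx₂ hx
    have hlam0 : 0 < lam := hmu.trans hml
    -- the local approximations
    have hC : ∀ v : A → ℝ, ∃ ab : A × A, IsMs (p : A) v → v ab.1 ≤ v ab.2 ∧ v ab.2 ≠ 0 ∧
        (∀ w : icl ((A : Set Ω) ∪ {X}) → ℝ, IsMs (p : icl ((A : Set Ω) ∪ {X})) w →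
          (fun a => w (Subring.inclusion hi1 a)) = v →
          w (Subring.inclusion hi1 ab.2 * ⟨x₁, hx₁⟩ - Subring.inclusion hi1 ab.1) ≤
            (1 / 2 : ℝ) ^ (lam : ℝ) * w (Subring.inclusion hi1 ab.2)) ∧
        (∀ w : icl ((A : Set Ω) ∪ {X⁻¹}) → ℝ, IsMs (p : icl ((A : Set Ω) ∪ {X⁻¹})) w →
          (fun a => w (Subring.inclusion hi2 a)) = v →
          w (Subring.inclusion hi2 ab.2 * ⟨x₂, hx₂⟩ - Subring.inclusion hi2 ab.1) ≤
            (1 / 2 : ℝ) ^ (lam : ℝ) * w (Subring.inclusion hi2 ab.2)) := by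
      intro v
      by_cases hv : IsMs (p : A) v
      · obtain ⟨a, b, hab, hb, hl1, hl2⟩ := h1 Ω p S A hA X hX v hv lam hlam0 x₁ hx₁ x₂ hx₂ hx
        refine ⟨(a, b), fun _ => ⟨hab, hb, ?_, ?_⟩⟩
        · intro w hw hwv
          have hext : ∀ (a : Ω) (h : a ∈ A) (h' : a ∈ icl ((A : Set Ω) ∪ {X})),
              w ⟨a, h'⟩ = v ⟨a, h⟩ := fun a h _ => congrFun hwv ⟨a, h⟩
          have h6 := h2 Ω p S A hA X w hw v hext x₁ a b lam hlam0 hx₁ hb hl1
            (Subring.sub_mem _ (Subring.mul_mem _ (hi1 b.2) hx₁) (hi1 a.2))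
          have h7 : w (Subring.inclusion hi1 b) = v b := congrFun hwv b
          rw [h7]
          exact h6
        · intro w hw hwv
          have hext : ∀ (a : Ω) (h : a ∈ A) (h' : a ∈ icl ((A : Set Ω) ∪ {X⁻¹})),
              w ⟨a, h'⟩ = v ⟨a, h⟩ := fun a h _ => congrFun hwv ⟨a, h⟩
          have h6 := h2 Ω p S A hA X⁻¹ w hw v hext x₂ a b lam hlam0 hx₂ hb hl2
            (Subring.sub_mem _ (Subring.mul_mem _ (hi2 b.2) hx₂) (hi2 a.2))
          have h7 : w (Subring.inclusion hi2 b) = v b := congrFun hwv b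
          rw [h7]
          exact h6
      · exact ⟨(0, 0), fun h => absurd h hv⟩
    choose FG hFG using hC
    -- the numbers
    obtain ⟨k, hk⟩ := exists_pow_lt_of_lt_one (show (0 : ℚ) < (lam - mu) / 4 by linarith)
      (show (1 / (p : ℚ)) < 1 by
        rw [div_lt_one (by exact_mod_cast hp.out.pos)]
        exact_mod_cast hp.out.one_lt)
    rw [one_div_pow] at hk
    have hd0 : 0 < 1 / (p : ℚ) ^ k := by
      have : (0 : ℚ) < (p : ℚ) := by exact_mod_cast hp.out.pos
      positivity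
    have hpiA : S.pw (1 / (p : ℚ) ^ k) ∈ A := pw_mem S hA hd0.le
    have hlr : ((mu : ℝ)) < (lam : ℝ) := by exact_mod_cast hml
    have hmr : (0 : ℝ) < (mu : ℝ) := by exact_mod_cast hmu
    have hl1r : ((lam : ℝ)) ≤ 1 := by exact_mod_cast hlam
    have hc1 : (1 / 2 : ℝ) ^ (((mu : ℝ) + 3 * lam) / 4) ≤ 1 := by
      have := hhalf 0 (((mu : ℝ) + 3 * lam) / 4) (by linarith)
      rwa [Real.rpow_zero] at this
    -- gluing
    obtain ⟨x, hxx⟩ := h4 Ω p S A hA (fun v => (FG v).1) (fun v => (FG v).2)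
      (((mu : ℝ) + 3 * lam) / 4) (((mu : ℝ) + lam) / 2) (by linarith) (by linarith)
      (by linarith) (fun v hv => ⟨(hFG v hv).1, (hFG v hv).2.1⟩) (by
        intro v₀ hv₀
        obtain ⟨-, hb0, hw1, hw2⟩ := hFG v₀ hv₀
        have hb0' : 0 < v₀ (FG v₀).2 := lt_of_le_of_ne (hv₀.nonneg _) (Ne.symm hb0)
        obtain ⟨U₁, hU₁, hvU₁, hU₁'⟩ := tube (Subring.inclusion hi1)
          (p : icl ((A : Set Ω) ∪ {X})) v₀
          (Subring.inclusion hi1 (FG v₀).2 * ⟨x₁, hx₁⟩ - Subring.inclusion hi1 (FG v₀).1)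
          (Subring.inclusion hi1 (FG v₀).2) ((1 / 2 : ℝ) ^ (((mu : ℝ) + 3 * lam) / 4)) (by
            intro w hw hwv
            refine (hw1 w hw hwv).trans_lt ?_
            refine mul_lt_mul_of_pos_right (hhalf' _ _ (by linarith)) ?_
            have h7 : w (Subring.inclusion hi1 (FG v₀).2) = v₀ (FG v₀).2 :=
              congrFun hwv (FG v₀).2
            rw [h7]
            exact hb0')
        obtain ⟨U₂, hU₂, hvU₂, hU₂'⟩ := tube (Subring.inclusion hi2)
          (p : icl ((A : Set Ω) ∪ {X⁻¹})) v₀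
          (Subring.inclusion hi2 (FG v₀).2 * ⟨x₂, hx₂⟩ - Subring.inclusion hi2 (FG v₀).1)
          (Subring.inclusion hi2 (FG v₀).2) ((1 / 2 : ℝ) ^ (((mu : ℝ) + 3 * lam) / 4)) (by
            intro w hw hwv
            refine (hw2 w hw hwv).trans_lt ?_
            refine mul_lt_mul_of_pos_right (hhalf' _ _ (by linarith)) ?_
            have h7 : w (Subring.inclusion hi2 (FG v₀).2) = v₀ (FG v₀).2 :=
              congrFun hwv (FG v₀).2
            rw [h7]
            exact hb0')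
        have hU₃ : IsOpen {v : A → ℝ | v (FG v₀).2 ≠ 0} :=
          isOpen_ne_fun (continuous_apply _) continuous_const
        refine ⟨U₁ ∩ U₂ ∩ {v : A → ℝ | v (FG v₀).2 ≠ 0}, (hU₁.inter hU₂).inter hU₃,
          ⟨⟨hvU₁, hvU₂⟩, hb0⟩, ?_⟩
        rintro v ⟨⟨hv1, hv2⟩, hv3⟩ hv
        obtain ⟨-, hbv, hwv1, hwv2⟩ := hFG v hv
        rcases h3 Ω p A hA v hv X hX with ⟨w, hw, hwv⟩ | ⟨w, hw, hwv⟩
        · have hwv' : (fun a => w (Subring.inclusion hi1 a)) = v :=
            funext fun a => hwv a a.2 _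
          have e1 := (hU₁' w hw (by rw [hwv']; exact hv1)).le
          have e2 := (hwv1 w hw hwv').trans (mul_le_mul_of_nonneg_right
            (hhalf (((mu : ℝ) + 3 * lam) / 4) lam (by linarith)) (hw.nonneg _))
          have r1 := est1 hw hc1 e1
          have r2 := est2 hw e1 e2
          rw [← map_mul, ← map_mul, ← map_sub] at r2
          have hh : ∀ a : A, w (Subring.inclusion hi1 a) = v a := fun a => congrFun hwv' a
          rw [hh, hh] at r1
          rw [hh, hh, hh] at r2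
          exact ⟨r1, hv3, r2⟩
        · have hwv' : (fun a => w (Subring.inclusion hi2 a)) = v :=
            funext fun a => hwv a a.2 _
          have e1 := (hU₂' w hw (by rw [hwv']; exact hv2)).le
          have e2 := (hwv2 w hw hwv').trans (mul_le_mul_of_nonneg_right
            (hhalf (((mu : ℝ) + 3 * lam) / 4) lam (by linarith)) (hw.nonneg _))
          have r1 := est1 hw hc1 e1
          have r2 := est2 hw e1 e2
          rw [← map_mul, ← map_mul, ← map_sub] at r2
          have hh : ∀ a : A, w (Subring.inclusion hi2 a) = v a := fun a => congrFun hwv' a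
          rw [hh, hh] at r1
          rw [hh, hh, hh] at r2
          exact ⟨r1, hv3, r2⟩) k hpiA
    -- the differences are divisible
    have hcast : (((((mu + lam) / 2 : ℚ)) : ℝ)) = ((mu : ℝ) + lam) / 2 := by push_cast; ring
    have hdiv1 := h5 Ω p S (icl ((A : Set Ω) ∪ {X})) hIC1
      (Subring.inclusion hi1 x - Subring.inclusion hi1 ⟨S.pw (1 / (p : ℚ) ^ k), hpiA⟩ *
        ⟨x₁, hx₁⟩) ((mu + lam) / 2) ((3 * mu + lam) / 4) (by linarith) (by
        intro w hw
        have hv := ms_restr (Subring.inclusion hi1) p hw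
        have e1 := hxx _ hv
        obtain ⟨-, hb, e2, -⟩ := hFG _ hv
        have e3 := (e2 w hw rfl).trans (mul_le_mul_of_nonneg_right
            (hhalf (((mu : ℝ) + lam) / 2) lam (by linarith)) (hw.nonneg _))
        rw [hcast]
        refine est3 hw hb e3 ?_
        simpa only [map_sub, map_mul] using e1)
    have hdiv2 := h5 Ω p S (icl ((A : Set Ω) ∪ {X⁻¹})) hIC2
      (Subring.inclusion hi2 x - Subring.inclusion hi2 ⟨S.pw (1 / (p : ℚ) ^ k), hpiA⟩ *
        ⟨x₂, hx₂⟩) ((mu + lam) / 2) ((3 * mu + lam) / 4) (by linarith) (by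
        intro w hw
        have hv := ms_restr (Subring.inclusion hi2) p hw
        have e1 := hxx _ hv
        obtain ⟨-, hb, -, e2⟩ := hFG _ hv
        have e3 := (e2 w hw rfl).trans (mul_le_mul_of_nonneg_right
            (hhalf (((mu : ℝ) + lam) / 2) lam (by linarith)) (hw.nonneg _))
        rw [hcast]
        refine est3 hw hb e3 ?_
        simpa only [map_sub, map_mul] using e1)
    -- the end
    have hfin : ∀ (D : Subring Ω), IC D → ∀ x' : Ω,
        ((x : Ω) - S.pw (1 / (p : ℚ) ^ k) * x') / S.pw ((3 * mu + lam) / 4) ∈ D →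
        ((x : Ω) / S.pw (1 / (p : ℚ) ^ k) - x') / S.pw mu ∈ D := by
      intro D hD x' hx'
      have h6 : ((x : Ω) / S.pw (1 / (p : ℚ) ^ k) - x') / S.pw mu =
          ((x : Ω) - S.pw (1 / (p : ℚ) ^ k) * x') / S.pw ((3 * mu + lam) / 4) *
            S.pw ((3 * mu + lam) / 4 - (1 / (p : ℚ) ^ k + mu)) := by
        rw [pw_sub, S.add]
        have n1 := pw_ne S (1 / (p : ℚ) ^ k)
        have n2 := pw_ne S mu
        have n3 := pw_ne S ((3 * mu + lam) / 4)
        field_simp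
      rw [h6]
      exact D.mul_mem hx' (pw_mem S hD (by linarith))
    have hf1 := hfin _ hIC1 x₁ hdiv1
    have hf2 := hfin _ hIC2 x₂ hdiv2
    have hback : ∀ (D : Subring Ω), IC D → ∀ y x' : Ω, x' ∈ D → (y - x') / S.pw mu ∈ D →
        y ∈ D := by
      intro D hD y x' hx' hy
      have h6 : y = (y - x') / S.pw mu * S.pw mu + x' := by
        rw [div_mul_cancel₀ _ (pw_ne S mu), sub_add_cancel]
      rw [h6]
      exact D.add_mem (D.mul_mem hy (pw_mem S hD hmu.le)) hx'
    exact ⟨_, mem_of_both hA X (hback _ hIC1 _ _ hx₁ hf1) (hback _ hIC2 _ _ hx₂ hf2), hf1, hf2⟩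
  -- the general case
  have main : ∀ (n : ℕ) (lam mu : ℚ), lam ≤ 1 + n / 2 → mu < lam →
      ∀ x₁ ∈ icl ((A : Set Ω) ∪ {X}), ∀ x₂ ∈ icl ((A : Set Ω) ∪ {X⁻¹}),
      (x₁ - x₂) / S.pw lam ∈ icl ((A : Set Ω) ∪ {X, X⁻¹}) →
      ∃ a ∈ A, (a - x₁) / S.pw mu ∈ icl ((A : Set Ω) ∪ {X}) ∧
        (a - x₂) / S.pw mu ∈ icl ((A : Set Ω) ∪ {X⁻¹}) := by
    intro n
    induction n with
    | zero =>
      intro lam mu hlam hml x₁ hx₁ x₂ hx₂ hx
      rw [Nat.cast_zero, zero_div, add_zero] at hlam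
      by_cases hmu : 0 < mu
      · exact small lam mu hlam hmu hml x₁ hx₁ x₂ hx₂ hx
      · have h6 : ∀ (D : Subring Ω), IC D → ∀ x' ∈ D, (0 - x') / S.pw mu ∈ D := by
          intro D hD x' hx'
          have h7 : (0 - x') / S.pw mu = -x' * S.pw (0 - mu) := by
            rw [pw_sub, pw_zero]
            ring
          rw [h7]
          exact D.mul_mem (D.neg_mem hx') (pw_mem S hD (by linarith))
        exact ⟨0, A.zero_mem, h6 _ hIC1 _ hx₁, h6 _ hIC2 _ hx₂⟩
    | succ n ih =>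
      intro lam mu hlam hml x₁ hx₁ x₂ hx₂ hx
      rw [Nat.cast_succ] at hlam
      by_cases hl : lam ≤ 1 + n / 2
      · exact ih lam mu hl hml x₁ hx₁ x₂ hx₂ hx
      · have hn0 : (0 : ℚ) ≤ n := Nat.cast_nonneg n
        have hl1 : 1 < lam := by linarith
        have hx' : (x₁ - x₂) / S.pw 1 ∈ icl ((A : Set Ω) ∪ {X, X⁻¹}) := by
          have h7 : (x₁ - x₂) / S.pw 1 = (x₁ - x₂) / S.pw lam * S.pw (lam - 1) := by
            rw [pw_sub]
            have n1 := pw_ne S lam
            have n2 := pw_ne S 1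
            field_simp
          rw [h7]
          exact Subring.mul_mem _ hx (pw_mem S (IC_icl _) (by linarith))
        obtain ⟨a₁, ha₁, hb1, hb2⟩ := small 1 (1 / 2) le_rfl (by norm_num) (by norm_num)
          x₁ hx₁ x₂ hx₂ hx'
        have hh0 := pw_ne S (1 / 2)
        obtain ⟨a₂, ha₂, hc1, hc2⟩ := ih (lam - 1 / 2) (mu - 1 / 2) (by linarith) (by linarith)
          (-((a₁ - x₁) / S.pw (1 / 2))) (Subring.neg_mem _ hb1)
          (-((a₁ - x₂) / S.pw (1 / 2))) (Subring.neg_mem _ hb2) (by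
            have h7 : (-((a₁ - x₁) / S.pw (1 / 2)) - -((a₁ - x₂) / S.pw (1 / 2))) /
                S.pw (lam - 1 / 2) = (x₁ - x₂) / S.pw lam := by
              rw [pw_sub]
              have n1 := pw_ne S lam
              field_simp
              ring
            rw [h7]
            exact hx)
        have hstep : ∀ (x' : Ω), (a₁ + S.pw (1 / 2) * a₂ - x') / S.pw mu =
            (a₂ - -((a₁ - x') / S.pw (1 / 2))) / S.pw (mu - 1 / 2) := by
          intro x'
          rw [pw_sub]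
          have n1 := pw_ne S mu
          field_simp
          ring
        refine ⟨a₁ + S.pw (1 / 2) * a₂, A.add_mem ha₁ (A.mul_mem
          (pw_mem S hA (by norm_num)) ha₂), ?_, ?_⟩
        · rw [hstep]
          exact hc1
        · rw [hstep]
          exact hc2
  intro lam mu hml x₁ hx₁ x₂ hx₂ hx
  obtain ⟨n, hn⟩ := exists_nat_ge (2 * lam)
  exact main n lam mu (by linarith) hml x₁ hx₁ x₂ hx₂ hx

end Pool.Agent.Helper44.SPL
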