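import Pool.Agent.Helper44.SPL.StT

/-! # Module TB -/

set_option autoImplicit false

namespace Pool.Agent.Helper44.SPL

universe u

private theorem TB_iter {A : Type u} [CommRing A] (p : ℕ) (x : ℕ → A)
    (hx : ∀ k, x (k + 1) ^ p = x k) (n : ℕ) : x n ^ p ^ n = x 0 := by
  induction n with
  | zero => simp
  | succ n ih => rw [pow_succ', pow_mul, hx, ih]

theorem m_TB : StTB.{u} := by
  intro A _ p _ _ a b hb n
  obtain ⟨x, hx0, hxs, hq⟩ := hb
  have h2 : qt A p 0 ((((frobeniusEquiv (Bt A p) p).symm ^ n : Bt A p ≃+* Bt A p).toRingHom) b)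
      = Ideal.Quotient.mk _ (x n) := by
    have h1 : (((frobeniusEquiv (Bt A p) p).symm ^ n : Bt A p ≃+* Bt A p).toRingHom) b
        = ((frobeniusEquiv (Bt A p) p).symm)^[n] b := by
      have h3 : ∀ (e : Bt A p ≃+* Bt A p) (c : Bt A p), (e ^ n) c = e^[n] c := by
        intro e c
        induction n with
        | zero => rfl
        | succ n ih =>
          rw [pow_succ', Function.iterate_succ_apply', ← ih]
          rfl
      exact h3 _ b
    rw [h1]
    have h4 := Perfection.coeff_iterate_symm_frobeniusEquiv b 0 n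
    rw [zero_add] at h4
    exact h4.trans (hq n)
  unfold thN
  rw [RingHom.comp_apply, RingHom.comp_apply, WittVector.map_teichmuller,
    WittVector.map_teichmuller, h2, ← WittVector.map_teichmuller,
    WittVector.ghostComponentModPPow_map_mk, WittVector.ghostComponent_teichmuller,
    TB_iter p x hxs n, hx0]

end Pool.Agent.Helper44.SPL
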