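import Pool.Agent.Helper44.SPL.St

/-!
# Splinters in mixed characteristic: module V1 (a real seminorm on a valuation ring)
-/

set_option autoImplicit false

namespace Pool.Agent.Helper44.SPL

universe u

namespace V1aux

lemma sep {x y : ℝ} (hx : 0 ≤ x) (hxy : x < y) (hy : y ≤ 1) :
    ∃ n m : ℕ, x ^ n < (1 / 2 : ℝ) ^ m ∧ (1 / 2 : ℝ) ^ m < y ^ n := by
  have hy0 : 0 < y := lt_of_le_of_lt hx hxy
  obtain ⟨n, hn⟩ := exists_pow_lt_of_lt_one (show (0 : ℝ) < 1 / 2 by norm_num)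
    ((div_lt_one hy0).2 hxy)
  have h1 : x ^ n < 1 / 2 * y ^ n := by
    rw [div_pow, div_lt_iff₀ (pow_pos hy0 n)] at hn
    exact hn
  obtain ⟨m, hm1, hm2⟩ := exists_nat_pow_near_of_lt_one (pow_pos hy0 n)
    (pow_le_one₀ hy0.le hy) (show (0 : ℝ) < 1 / 2 by norm_num)
    (show (1 / 2 : ℝ) < 1 by norm_num)
  refine ⟨n, m + 1, ?_, hm1⟩
  rw [pow_succ]
  linarith

section

variable {W : Type u} [CommRing W] (ϖ : W)

/-- upper bounds: `ϖ ^ m ∣ b ^ n` and `(1/2) ^ m ≤ x ^ n` -/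
def Up (b : W) : Set ℝ := {x | 0 ≤ x ∧ ∃ m n : ℕ, 0 < n ∧ ϖ ^ m ∣ b ^ n ∧ (1 / 2 : ℝ) ^ m ≤ x ^ n}

/-- lower bounds: `b ^ n ∣ ϖ ^ m` and `x ^ n ≤ (1/2) ^ m` -/
def Lo (b : W) : Set ℝ := {x | 0 ≤ x ∧ ∃ m n : ℕ, 0 < n ∧ b ^ n ∣ ϖ ^ m ∧ x ^ n ≤ (1 / 2 : ℝ) ^ m}

/-- the seminorm -/
noncomputable def nv (b : W) : ℝ := sInf (Up ϖ b)

lemma one_mem (b : W) : (1 : ℝ) ∈ Up ϖ b :=
  ⟨zero_le_one, 0, 1, one_pos, by simp, by simp⟩

lemma bdd (b : W) : BddBelow (Up ϖ b) := ⟨0, fun _ hx => hx.1⟩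

lemma nv_le {b : W} {x : ℝ} (h : x ∈ Up ϖ b) : nv ϖ b ≤ x := csInf_le (bdd ϖ b) h

lemma nv_nonneg (b : W) : 0 ≤ nv ϖ b := le_csInf ⟨1, one_mem ϖ b⟩ fun _ hx => hx.1

lemma up_of_lt {b : W} {r : ℝ} (h : nv ϖ b < r) : r ∈ Up ϖ b := by
  obtain ⟨x, ⟨hx0, m, n, hn, hd, hx⟩, hxr⟩ := exists_lt_of_csInf_lt ⟨1, one_mem ϖ b⟩ h
  exact ⟨hx0.trans hxr.le, m, n, hn, hd, hx.trans (pow_le_pow_left₀ hx0 hxr.le n)⟩

lemma up_mul {a b : W} {x y : ℝ} (hx : x ∈ Up ϖ a) (hy : y ∈ Up ϖ b) :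
    x * y ∈ Up ϖ (a * b) := by
  obtain ⟨hx0, m, n, hn, hd, h⟩ := hx
  obtain ⟨hy0, m', n', hn', hd', h'⟩ := hy
  refine ⟨mul_nonneg hx0 hy0, m * n' + m' * n, n * n', Nat.mul_pos hn hn', ?_, ?_⟩
  · rw [mul_pow, pow_add, pow_mul ϖ m n', pow_mul ϖ m' n, pow_mul a n n', mul_comm n n',
      pow_mul b n' n]
    exact mul_dvd_mul (pow_dvd_pow_of_dvd hd n') (pow_dvd_pow_of_dvd hd' n)
  · rw [mul_pow, pow_add, pow_mul _ m n', pow_mul _ m' n, pow_mul x n n', mul_comm n n',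
      pow_mul y n' n]
    exact mul_le_mul (pow_le_pow_left₀ (by positivity) h n')
      (pow_le_pow_left₀ (by positivity) h' n) (by positivity) (by positivity)

lemma lo_mul {a b : W} {x y : ℝ} (hx : x ∈ Lo ϖ a) (hy : y ∈ Lo ϖ b) :
    x * y ∈ Lo ϖ (a * b) := by
  obtain ⟨hx0, m, n, hn, hd, h⟩ := hx
  obtain ⟨hy0, m', n', hn', hd', h'⟩ := hy
  refine ⟨mul_nonneg hx0 hy0, m * n' + m' * n, n * n', Nat.mul_pos hn hn', ?_, ?_⟩
  · rw [mul_pow, pow_add, pow_mul ϖ m n', pow_mul ϖ m' n, pow_mul a n n', mul_comm n n',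
      pow_mul b n' n]
    exact mul_dvd_mul (pow_dvd_pow_of_dvd hd n') (pow_dvd_pow_of_dvd hd' n)
  · rw [mul_pow, pow_add, pow_mul _ m n', pow_mul _ m' n, pow_mul x n n', mul_comm n n',
      pow_mul y n' n]
    exact mul_le_mul (pow_le_pow_left₀ (by positivity) h n')
      (pow_le_pow_left₀ (by positivity) h' n) (by positivity) (by positivity)

lemma nv_mono {a b : W} (h : a ∣ b) : nv ϖ b ≤ nv ϖ a := by
  refine le_csInf ⟨1, one_mem ϖ a⟩ ?_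
  rintro x ⟨hx0, m, n, hn, hd, hx⟩
  exact nv_le ϖ ⟨hx0, m, n, hn, hd.trans (pow_dvd_pow_of_dvd h n), hx⟩

variable [IsDomain W]

lemma lo_le_up (h0 : ϖ ≠ 0) (hu : ¬ IsUnit ϖ) {b : W} {x y : ℝ} (hx : x ∈ Lo ϖ b)
    (hy : y ∈ Up ϖ b) : x ≤ y := by
  obtain ⟨hx0, m, n, hn, hd, h⟩ := hx
  obtain ⟨hy0, m', n', hn', hd', h'⟩ := hy
  have h1 : ϖ ^ (m' * n) ∣ ϖ ^ (m * n') := by
    rw [pow_mul, pow_mul]
    refine (pow_dvd_pow_of_dvd hd' n).trans ?_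
    rw [← pow_mul, mul_comm, pow_mul]
    exact pow_dvd_pow_of_dvd hd n'
  have h2 : m' * n ≤ m * n' := (pow_dvd_pow_iff h0 hu).1 h1
  have h3 : x ^ (n * n') ≤ y ^ (n * n') := by
    calc x ^ (n * n') = (x ^ n) ^ n' := pow_mul _ _ _
      _ ≤ ((1 / 2 : ℝ) ^ m) ^ n' := pow_le_pow_left₀ (by positivity) h n'
      _ = (1 / 2 : ℝ) ^ (m * n') := (pow_mul _ _ _).symm
      _ ≤ (1 / 2 : ℝ) ^ (m' * n) := pow_le_pow_of_le_one (by norm_num) (by norm_num) h2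
      _ = ((1 / 2 : ℝ) ^ m') ^ n := pow_mul _ _ _
      _ ≤ (y ^ n') ^ n := pow_le_pow_left₀ (by positivity) h' n
      _ = y ^ (n * n') := by rw [← pow_mul, mul_comm]
  exact le_of_pow_le_pow_left₀ (Nat.mul_pos hn hn').ne' hy0 h3

lemma le_nv (h0 : ϖ ≠ 0) (hu : ¬ IsUnit ϖ) {b : W} {x : ℝ} (hx : x ∈ Lo ϖ b) : x ≤ nv ϖ b :=
  le_csInf ⟨1, one_mem ϖ b⟩ fun _ hy => lo_le_up ϖ h0 hu hx hy

variable [ValuationRing W]

lemma lo_of_lt {b : W} {r : ℝ} (hr : 0 ≤ r) (h : r < nv ϖ b) : r ∈ Lo ϖ b := by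
  obtain ⟨n, m, h1, h2⟩ := sep hr h (nv_le ϖ (one_mem ϖ b))
  have hn : 0 < n := by
    rcases Nat.eq_zero_or_pos n with rfl | hn
    · rw [pow_zero] at h1 h2
      linarith
    · exact hn
  refine ⟨hr, m, n, hn, ?_, h1.le⟩
  rcases ValuationRing.dvd_total (ϖ ^ m) (b ^ n) with hd | hd
  · exfalso
    have h3 : (((1 / 2 : ℝ) ^ m) ^ ((n : ℝ)⁻¹)) ^ n = (1 / 2 : ℝ) ^ m :=
      Real.rpow_inv_natCast_pow (by positivity) hn.ne'
    have h4 : ((1 / 2 : ℝ) ^ m) ^ ((n : ℝ)⁻¹) ∈ Up ϖ b :=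
      ⟨by positivity, m, n, hn, hd, h3.ge⟩
    have h5 : ((1 / 2 : ℝ) ^ m) ^ ((n : ℝ)⁻¹) < nv ϖ b := by
      refine lt_of_pow_lt_pow_left₀ n (nv_nonneg ϖ b) ?_
      rw [h3]
      exact h2
    exact absurd (nv_le ϖ h4) (not_le.2 h5)
  · exact hd

end

end V1aux

open V1aux in
theorem m_V1 : StV1.{u} := by
  intro W _ _ _ ϖ h0 hu
  have hle : ∀ b, nv ϖ b ≤ 1 := fun b => nv_le ϖ (one_mem ϖ b)
  refine ⟨nv ϖ, ⟨nv_nonneg ϖ, ?_, ?_, ?_, ?_, hle, ?_⟩⟩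
  · refine le_antisymm ?_ (nv_nonneg ϖ 0)
    refine le_of_forall_pos_le_add fun e he => ?_
    obtain ⟨m, hm⟩ := exists_pow_lt_of_lt_one he (show (1 / 2 : ℝ) < 1 by norm_num)
    rw [zero_add]
    exact nv_le ϖ ⟨he.le, m, 1, one_pos, by simp, by rw [pow_one]; exact hm.le⟩
  · refine le_antisymm (hle 1) (le_nv ϖ h0 hu ⟨zero_le_one, 0, 1, one_pos, by simp, by simp⟩)
  · intro a b
    have ha := nv_nonneg ϖ a
    have hb := nv_nonneg ϖ b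
    have ha1 := hle a
    have hb1 := hle b
    have hab1 := hle (a * b)
    have hab := nv_nonneg ϖ (a * b)
    apply le_antisymm
    · by_contra hlt
      rw [not_le] at hlt
      obtain ⟨e, he⟩ : ∃ e, e = (nv ϖ (a * b) - nv ϖ a * nv ϖ b) / 4 := ⟨_, rfl⟩
      have he0 : 0 < e := by rw [he]; linarith
      have hprod := mul_nonneg ha hb
      have he1 : e < 1 := by rw [he]; linarith
      have h1 := nv_le ϖ (up_mul ϖ (up_of_lt ϖ (show nv ϖ a < nv ϖ a + e by linarith))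
        (up_of_lt ϖ (show nv ϖ b < nv ϖ b + e by linarith)))
      have h2 : nv ϖ (a * b) = nv ϖ a * nv ϖ b + 4 * e := by rw [he]; ring
      nlinarith
    · by_contra hlt
      rw [not_le] at hlt
      obtain ⟨e, he⟩ : ∃ e, e = (nv ϖ a * nv ϖ b - nv ϖ (a * b)) / 2 := ⟨_, rfl⟩
      have he0 : 0 < e := by rw [he]; linarith
      have h2 : nv ϖ (a * b) = nv ϖ a * nv ϖ b - 2 * e := by rw [he]; ring
      have h3 : e ≤ nv ϖ a := by nlinarith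
      have h4 : e ≤ nv ϖ b := by nlinarith
      have h1 := le_nv ϖ h0 hu (lo_mul ϖ
        (lo_of_lt ϖ (show 0 ≤ nv ϖ a - e by linarith) (show nv ϖ a - e < nv ϖ a by linarith))
        (lo_of_lt ϖ (show 0 ≤ nv ϖ b - e by linarith) (show nv ϖ b - e < nv ϖ b by linarith)))
      nlinarith
  · intro a b
    rcases ValuationRing.dvd_total a b with h | h
    · exact (nv_mono ϖ (dvd_add dvd_rfl h)).trans (le_max_left _ _)
    · exact (nv_mono ϖ (dvd_add h dvd_rfl)).trans (le_max_right _ _)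
  · apply le_antisymm
    · exact nv_le ϖ ⟨by norm_num, 1, 1, one_pos, dvd_rfl, le_rfl⟩
    · exact le_nv ϖ h0 hu ⟨by norm_num, 1, 1, one_pos, dvd_rfl, le_rfl⟩

end Pool.Agent.Helper44.SPL

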