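import Pool.Agent.Helper44.SPL.St4

/-!
# From `R[x]` to smooth `R`-algebras and to filtered colimits of smooth `R`-algebras

By the theorem of Popescu, a map `R → S` of Noetherian rings is flat with geometrically regular
fibres if and only if `S` is a filtered colimit of smooth `R`-algebras, i.e. `IndSmooth R S`.
-/

set_option autoImplicit false

namespace Pool.Agent.Helper44.SPL

open Polynomial TensorProduct

universe u

/-- `S` is a filtered colimit of smooth `R`-algebras, in the form: every map of `R`-algebras from
a finitely presented `R`-algebra to `S` factors through a smooth `R`-algebra. -/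
def IndSmooth (R S : Type u) [CommRing R] [CommRing S] [Algebra R S] : Prop :=
  ∀ (P : Type u) [CommRing P] [Algebra R P], Algebra.FinitePresentation R P →
    ∀ f : P →ₐ[R] S, ∃ (Q : Type u) (_ : CommRing Q) (_ : Algebra R Q),
      Algebra.Smooth R Q ∧ ∃ (g : P →ₐ[R] Q) (h : Q →ₐ[R] S), h.comp g = f

/-- ET1: `S` étale over `R`, `T` integral over `S` and surjective on spectra, `Ω` an algebraically
closed field over `R`; then `T` maps to `S ⊗ Ω` over `S`.
Proof: `E = S ⊗ Ω` is étale over `Ω`, hence a finite reduced `Ω`-algebra, a finite product of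
fields `E/M`, each of which is a finite extension of `Ω`, so is algebraically closed. Let `p` be
the kernel of `S → E/M` and `q` a prime of `T` over `p`: the domain `T/q` is integral over `S/p`,
so `T/q → E/M` over `S` exists (`IsAlgClosed.lift`). -/
def StET1 : Prop := ∀ (R S T Ω : Type u) [CommRing R] [CommRing S] [CommRing T] [Field Ω]
  [IsAlgClosed Ω] [Algebra R S] [Algebra S T] [Algebra R Ω], Algebra.Etale R S →
  Algebra.IsIntegral S T → Function.Surjective (PrimeSpectrum.comap (algebraMap S T)) →
  Nonempty (T →ₐ[S] S ⊗[R] Ω)

/-- ET2: descent to a finite subalgebra. The image of `T` is integral over `S`, so it is in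
`S ⊗ integralClosure R Ω` (`TensorProduct.toIntegralClosure_bijective_of_smooth`); `T` is
generated by finitely many elements, so it is in the image of `S ⊗ W`, `W` generated by finitely
many integral elements; `S ⊗ W → S ⊗ Ω` is injective by flatness. -/
def StET2 : Prop := ∀ (R S T Ω : Type u) [CommRing R] [CommRing S] [CommRing T] [CommRing Ω]
  [Algebra R S] [Algebra S T] [Algebra R Ω], Algebra.Smooth R S → Module.Finite S T →
  Nonempty (T →ₐ[S] S ⊗[R] Ω) →
  ∃ W : Subalgebra R Ω, Module.Finite R W ∧ Nonempty (T →ₐ[S] S ⊗[R] W)

/-- ET: étale ascent. For each minimal prime `P` of `R` take an algebraic closure `Ω` of the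
fraction field of `R/P` and `W` as in ET2 (so `ker (R → W) = P`). The product of the finitely many
`W` is finite over `R` and surjective on spectra, so there is `σ : ∏ W → R` with `σ 1 = 1`, and
`T → S ⊗ W → S ⊗ R = S` for the restrictions of `σ` to the factors add up to a retraction. -/
def StET : Prop := ∀ (R S : Type u) [CommRing R] [CommRing S] [Algebra R S],
  Algebra.Etale R S → IsSplinter R → IsSplinter S

/-- ZAR: splinters can be checked Zariski locally. `{φ 1 : φ ∈ Hom (T, S)}` is an ideal; as
`Hom (T_f, S_f) = Hom (T, S)_f` it contains a power of `f` for every `f` as in the hypothesis. -/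
def StZAR : Prop := ∀ (S : Type u) [CommRing S], IsNoetherianRing S →
  (∀ m : Ideal S, m.IsMaximal → ∃ f : S, f ∉ m ∧ IsSplinter (Localization.Away f)) →
  IsSplinter S

/-- SM: smooth ascent, from MAIN, ET, ZAR and
`Algebra.IsSmoothAt.exists_isStandardEtale_mvPolynomial` (locally, a smooth algebra is standard
étale over a polynomial ring `MvPolynomial (Fin n) R`, and this ring is a splinter by MAIN and
`MvPolynomial.finSuccEquiv`). -/
def StSM : Prop := ∀ (R S : Type u) [CommRing R] [CommRing S] [Algebra R S],
  Algebra.Smooth R S → IsSplinter R → IsSplinter S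

/-- INDP: descent of a finite algebra to a polynomial ring. `S` is an `R`-algebra, `T` a finitely
presented finite `S`-algebra. There are `P = R[c_1, …, c_N]` with a map to `S` and a finite
`P`-algebra `T'` with `S ⊗ T' = T`.
Proof: `T = S[x_1, …, x_n]/(r_1, …, r_k)` with monic polynomials in each `x_i` among the `r_j`;
`P` has one variable for each coefficient (monic relations are lifted to monic relations). -/
def StINDP : Prop := ∀ (R S T : Type u) [CommRing R] [CommRing S] [CommRing T] [Algebra R S]
  [Algebra S T], IsNoetherianRing S → Module.Finite S T →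
  ∃ (N : ℕ) (c : MvPolynomial (Fin N) R →ₐ[R] S) (T' : Type u) (_ : CommRing T')
    (_ : Algebra (MvPolynomial (Fin N) R) T') (g : T' →+* T),
    Module.Finite (MvPolynomial (Fin N) R) T' ∧
    (∀ x, g (algebraMap _ T' x) = algebraMap S T (c x)) ∧
    (∀ (M : Type u) [AddCommGroup M] [Module S M] (φ : T' →+ M),
      (∀ x y, φ (x • y) = c x • φ y) → ∃ ψ : T →ₗ[S] M, ∀ y, ψ (g y) = φ y)

/-- IND: ascent to filtered colimits of smooth algebras.
Proof: take `P`, `T'` as in INDP, `I = ker (P → T')`. The image of `I` in `S` is in
`ker (S → T)`, which is nilpotent, so `I^n S = 0`; `P/I^n → S` factors through a smooth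
`R`-algebra `Q`, a splinter by SM. `Q ⊗ T'` is finite over `Q` and surjective on spectra (the
primes of `P` containing `I` are in the image of `Spec T'`, `P → T'` being finite), so it has a
retraction to `Q`; compose with `T' → Q ⊗ T'` and `Q → S` and apply INDP with `M = S`. -/
def StIND : Prop := ∀ (R S : Type u) [CommRing R] [CommRing S] [Algebra R S],
  IsSplinter R → IsNoetherianRing S → IndSmooth R S → IsSplinter S

end Pool.Agent.Helper44.SPL
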