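import Pool.Agent.Helper44.SPL.St

/-!
# The tilt: sub-modules of TILT

`A` an integrally closed subring of `Ω` with `p` not a unit, `B = Perfection (A / p)`.
-/

set_option autoImplicit false

namespace Pool.Agent.Helper44.SPL

open Polynomial

universe u

section

variable (A : Type u) [CommRing A] (p : ℕ) [Fact p.Prime]
  [CharP (A ⧸ Ideal.span {(p : A)}) p]

/-- the tilt of `A` -/
abbrev Bt : Type u := Perfection (A ⧸ Ideal.span {(p : A)}) p

/-- the `k`-th component `Bt A p → A / p` -/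
noncomputable abbrev qt (k : ℕ) : Bt A p →+* A ⧸ Ideal.span {(p : A)} :=
  Perfection.coeff (A ⧸ Ideal.span {(p : A)}) p k

/-- the map `W(Bt A p) → A / p^(n+1)` of Fontaine -/
noncomputable def thN (n : ℕ) :
    WittVector p (Bt A p) →+* A ⧸ (Ideal.span {(p : A)}) ^ (n + 1) :=
  (WittVector.ghostComponentModPPow n).comp ((WittVector.map (qt A p 0)).comp
    (WittVector.map ((frobeniusEquiv (Bt A p) p).symm ^ n : Bt A p ≃+* Bt A p).toRingHom))

variable {A p}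

/-- `b ∈ Bt A p` is given by a compatible system of `p`-power roots of `a ∈ A`. -/
def IsFl (a : A) (b : Bt A p) : Prop :=
  ∃ x : ℕ → A, x 0 = a ∧ (∀ k, x (k + 1) ^ p = x k) ∧
    ∀ k, qt A p k b = Ideal.Quotient.mk _ (x k)

end

/-- TB: `θ_n [b] = a` modulo `p^(n+1)` if `b` is a compatible system of roots of `a`. -/
def StTB : Prop := ∀ (A : Type u) [CommRing A] (p : ℕ) [Fact p.Prime]
  [CharP (A ⧸ Ideal.span {(p : A)}) p] (a : A) (b : Bt A p), IsFl a b → ∀ n : ℕ,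
  thN A p n (WittVector.teichmuller p b) = Ideal.Quotient.mk _ a

/-- TA: the kernel of Fontaine's map. Induction: `z = [z₀] + p z'`, `q(z₀) = 0`, `z₀ = ϖ z₁`,
`z = -ξ [z₁] + p ([z₁] + z')`, and `p` is a nonzerodivisor of `A`. -/
def StTA : Prop := ∀ (A : Type u) [CommRing A] (p : ℕ) [Fact p.Prime]
  [CharP (A ⧸ Ideal.span {(p : A)}) p], (p : A) ∈ nonZeroDivisors A → ∀ ϖ : Bt A p,
  IsFl (p : A) ϖ → (∀ b : Bt A p, qt A p 0 b = 0 → ϖ ∣ b) →
  ∀ z : WittVector p (Bt A p), (∀ n, thN A p n z = 0) → ∀ M : ℕ,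
  ∃ x y : WittVector p (Bt A p),
    z = ((p : WittVector p (Bt A p)) - WittVector.teichmuller p ϖ) * x +
      (p : WittVector p (Bt A p)) ^ M * y

/-- TC: for `A` integrally closed in `Ω`: `ϖ` is a nonzerodivisor, the kernel of `Bt A p → A / p`
is `ϖ Bt`, every `a ∈ A` has an `IsFl` lift, and two lifts of the same element differ by a unit
`ε` with `q ε = 1`. -/
def StTC : Prop := ∀ (Ω : Type u) [Field Ω] [IsAlgClosed Ω] [CharZero Ω] (p : ℕ)
  [Fact p.Prime] (A : Subring Ω), IC A → ∀ [CharP (A ⧸ Ideal.span {(p : A)}) p],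
  (∀ a : A, ∃ b : Bt A p, IsFl a b) ∧
  (∀ (a : A) (b b' : Bt A p), IsFl a b → IsFl a b' →
    ∃ ε : (Bt A p)ˣ, qt A p 0 ε = 1 ∧ b' = ε * b) ∧
  (∀ (a a' : A) (b b' : Bt A p), IsFl a b → IsFl a' b' → IsFl (a * a') (b * b')) ∧
  (∀ ϖ : Bt A p, IsFl (p : A) ϖ →
    ϖ ∈ nonZeroDivisors (Bt A p) ∧ ∀ b : Bt A p, qt A p 0 b = 0 → ϖ ∣ b)

/-- TD: from a seminorm of the tilt to a seminorm of `A`: from TA, TB, TC and LG (pass to the
ring `O = {x ∈ Frac (B / ker w) : w x ≤ 1}`, which is perfect). -/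
def StTD : Prop := ∀ (Ω : Type u) [Field Ω] [IsAlgClosed Ω] [CharZero Ω] (p : ℕ)
  [Fact p.Prime] (A : Subring Ω), IC A → ∀ [CharP (A ⧸ Ideal.span {(p : A)}) p]
  (ϖ : Bt A p), IsFl (p : A) ϖ → ∀ w : Bt A p → ℝ, IsMs ϖ w →
  ∀ (a a' : A) (b b' c : Bt A p), IsFl a b → IsFl a' b' → IsFl (a + a') c →
  w c ≤ max (w b) (w b')

/-- TE: from a seminorm of `A` to a seminorm of the tilt:
`w b = lim_k max (v (b̃_k), 1/2) ^ (p^k)`. -/
def StTE : Prop := ∀ (A : Type u) [CommRing A] (p : ℕ) [Fact p.Prime]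
  [CharP (A ⧸ Ideal.span {(p : A)}) p] (ϖ : Bt A p), IsFl (p : A) ϖ → ∀ v : A → ℝ,
  IsMs (p : A) v → ∃ w : Bt A p → ℝ, IsMs ϖ w ∧ ∀ (a : A) (b : Bt A p), IsFl a b → w b = v a

end Pool.Agent.Helper44.SPL
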